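import Pool.Agent.Lib.MP_49fa77_co.Cell2

/-!
# Values of facet ends and the triangle inequalities
-/

namespace FT58

open Real MeasureTheory Set

/-- short pairs -/
def Sh (c q : ℂ) : Prop := ‖q - c‖ < 2

/-- pairs for which the exact value is kept: short pairs, and long pairs whose two Delaunay
triangles have all their other sides short. -/
def Ex (S : Finset ℂ) (c q : ℂ) : Prop :=
  Sh c q ∨ ∃ r r', Tr S c q r ∧ Tr S q c r' ∧ Sh r c ∧ Sh r q ∧ Sh r' c ∧ Sh r' q

/-- the value assigned to an end of a short facet -/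
noncomputable def gg (D a : ℝ) : ℝ :=
  D * Ar a - (arcsin a + a * √(1 - a ^ 2)) - (D * √3 - π / 2)

open Classical in
noncomputable def val (D : ℝ) (S : Finset ℂ) (c q : ℂ) : ℝ :=
  if Ex S c q then QQ D (‖q - c‖ / 2) (al S c q) else D * qh (al S c q)

open Classical in
noncomputable def gv (D : ℝ) (c q : ℂ) : ℝ := if Sh c q then gg D (‖q - c‖ / 2) else 0

/-- the left triangle of `c, q` is exact -/
def Xt (S : Finset ℂ) (c q : ℂ) : Prop := ∃ r, Tr S c q r ∧ Ex S c q ∧ Ex S q r ∧ Ex S r c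

open Classical in
noncomputable def asg (D : ℝ) (S : Finset ℂ) (c q : ℂ) : ℝ :=
  if Xt S c q then QQ D (‖q - c‖ / 2) (al S c q) else gv D c q

lemma Sh_symm {c q : ℂ} (h : Sh c q) : Sh q c := by
  unfold Sh at *; rwa [norm_sub_rev]

lemma Ex_symm {S : Finset ℂ} {c q : ℂ} (h : Ex S c q) : Ex S q c := by
  rcases h with h | ⟨r, r', h1, h2, h3, h4, h5, h6⟩
  · exact Or.inl (Sh_symm h)
  · exact Or.inr ⟨r', r, h2, h1, h6, h5, h4, h3⟩

lemma QQ_U {D a ω : ℝ} (ha : 0 < a) (ha1 : a ≤ 1) (h0 : 0 ≤ ω) (h1 : ω ≤ π / 2)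
    (h : cos ω ≤ a) : QQ D a ω = gg D a + D * Uf a ω := by
  unfold QQ gg Uf
  have hc : 0 ≤ cos ω := cos_nonneg_of_mem_Icc ⟨by linarith, h1⟩
  rw [Mi_large (B := 1) ha one_pos (by nlinarith) h0 h1 (by nlinarith), sqrt_one, div_one,
    arccos_eq_pi_div_two_sub_arcsin]
  ring

lemma QQ_long {D a α β : ℝ} (hD : 0 ≤ D) (ha : 1 ≤ a) (hs : 0 ≤ α + β) :
    D * (qh α + qh β) ≤ QQ D a α + QQ D a β := by
  have ha0 : 0 < a := by linarith
  have h1 : Mi a 1 α - Mi a 1 (-β) = 1 * (α - -β) := by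
    apply Mi_sub_const ha0 one_pos
    intro θ _
    nlinarith [cos_sq_le_one θ]
  have h2 : Mi 1 (4 / 3) α - Mi 1 (4 / 3) (-β) ≤ Mi a (4 / 3) α - Mi a (4 / 3) (-β) := by
    rw [Mi_sub (by norm_num) (by norm_num), Mi_sub ha0 (by norm_num)]
    apply intervalIntegral.integral_mono_on (by linarith)
    · exact mi_intInt (by norm_num) (by norm_num) _ _
    · exact mi_intInt ha0 (by norm_num) _ _
    · intro θ _
      exact mi_mono_a one_pos ha (by norm_num)
  rw [Mi_neg] at h1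
  rw [Mi_neg, Mi_neg] at h2
  unfold QQ qh
  nlinarith

/-- The smallest of three angles, in terms of sines. -/
lemma angle_le_of_sin_le {x y : ℝ} (_hx : 0 < x) (hy : 0 < y) (hxy : x + y < π)
    (h : sin x ≤ sin y) : x ≤ y := by
  by_contra hcon
  push Not at hcon
  rcases le_total x (π / 2) with h1 | h1
  · have := sin_lt_sin_of_lt_of_le_pi_div_two (by linarith) h1 hcon
    linarith
  · have h2 : sin y < sin (π - x) :=
      sin_lt_sin_of_lt_of_le_pi_div_two (by linarith) (by linarith) (by linarith)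
    rw [sin_pi_sub] at h2
    linarith

lemma Tr_al3 {S : Finset ℂ} {c q r : ℂ} (h : Tr S c q r) :
    al S c q = π / 2 - an c q r ∧ al S q r = π / 2 - an q r c ∧ al S r c = π / 2 - an r c q := by
  refine ⟨?_, ?_, ?_⟩
  · rw [Tr_al h, att_eq]
  · rw [Tr_al (Tr_cyc h), att_eq]
  · rw [Tr_al (Tr_cyc (Tr_cyc h)), att_eq]

lemma not_Ex_of {S : Finset ℂ} {c q r : ℂ} (h : Tr S c q r) (h1 : ¬ Sh c q)
    (h2 : ¬ (Sh r c ∧ Sh r q)) : ¬ Ex S c q := by
  rintro (h3 | ⟨r1, r', h3, _, h5, h6, _⟩)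
  · exact h1 h3
  · have := Tr_unique h h3
    subst this
    exact h2 ⟨h5, h6⟩

lemma Xt_of {S : Finset ℂ} {c q r : ℂ} (h : Tr S c q r) :
    Xt S c q ↔ (Ex S c q ∧ Ex S q r ∧ Ex S r c) := by
  constructor
  · rintro ⟨r', h1, h2⟩
    have := Tr_unique h h1
    subst this
    exact h2
  · intro h2
    exact ⟨r, h, h2⟩

/-- one short side -/
lemma tri_case1 {D : ℝ} (hD : 0 ≤ D) {S : Finset ℂ} {c q r : ℂ} (h : Tr S c q r) (h1 : Sh c q)
    (h2 : ¬ Sh q r) (h3 : ¬ Sh r c) :
    asg D S c q + asg D S q r + asg D S r c ≤ val D S c q + val D S q r + val D S r c := by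
  have hX : 0 < XX c q r := h.2.2.2.1
  have hX2 : 0 < XX q r c := by rw [XX_cyc]; exact hX
  have hX3 : 0 < XX r c q := by rw [XX_cyc]; exact hX2
  have e2 : ¬ Ex S q r := not_Ex_of (Tr_cyc h) h2 (by
    rintro ⟨_, h5⟩; exact h3 (Sh_symm h5))
  have e3 : ¬ Ex S r c := not_Ex_of (Tr_cyc (Tr_cyc h)) h3 (by
    rintro ⟨h5, _⟩; exact h2 h5)
  have e1 : Ex S c q := Or.inl h1
  have x1 : ¬ Xt S c q := by rw [Xt_of h]; tauto
  have x2 : ¬ Xt S q r := by rw [Xt_of (Tr_cyc h)]; tauto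
  have x3 : ¬ Xt S r c := by rw [Xt_of (Tr_cyc (Tr_cyc h))]; tauto
  unfold asg val gv
  rw [if_neg x1, if_neg x2, if_neg x3, if_pos h1, if_neg h2, if_neg h3, if_pos e1, if_neg e2,
    if_neg e3]
  obtain ⟨a1, a2, a3⟩ := Tr_al3 h
  have s1 := RR_sin hX
  have s2 := RR_sin hX2
  have s3 := RR_sin hX3
  rw [RR_cyc] at s2
  rw [RR_cyc, RR_cyc] at s3
  have hR0 := RR_pos hX
  have hs := an_sum hX
  have p1 := an_pos c q r
  have p2 := an_pos q r c
  have p3 := an_pos r c q
  unfold Sh at h1 h2 h3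
  have l1 : sin (an c q r) ≤ sin (an q r c) := by
    apply le_of_mul_le_mul_left _ hR0; rw [s1, s2]; linarith
  have l2 : sin (an c q r) ≤ sin (an r c q) := by
    apply le_of_mul_le_mul_left _ hR0; rw [s1, s3]; linarith
  have b1 := angle_le_of_sin_le p1 p2 (by linarith) l1
  have b2 := angle_le_of_sin_le p1 p3 (by linarith) l2
  have hR1 : 1 ≤ RR c q r := by
    have : RR c q r * sin (an q r c) ≤ RR c q r := by
      have := sin_le_one (an q r c); nlinarith
    rw [s2] at this; linarith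
  have hn : 0 < ‖q - c‖ := norm_pos_iff.mpr (sub_ne_zero.mpr (Ne.symm (ne_of_XX_pos hX).1))
  have hθ : an c q r ≤ π / 3 := by linarith
  have hsin : 0 < sin (an c q r) := sin_pos_of_pos_of_lt_pi p1 (an_lt _ _ _)
  have t := T1 (a := ‖q - c‖ / 2) (ω₂ := π / 2 - an q r c) (ω₃ := π / 2 - an r c q)
    (by positivity) (by linarith) p1 hθ (by linarith) (by linarith) (by linarith)
  rw [a1, a2, a3]
  have hq := QQ_U (D := D) (a := ‖q - c‖ / 2) (ω := π / 2 - an c q r) (by positivity) (by linarith)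
    (by linarith [pi_pos]) (by linarith) (by
      rw [cos_pi_div_two_sub, ← s1]; nlinarith)
  rw [hq]
  have := mul_nonneg hD t
  linarith

/-- two short sides, the long one not exact -/
lemma tri_case2 {D : ℝ} (hD : 0 ≤ D) {S : Finset ℂ} {c q r : ℂ} (h : Tr S c q r) (h1 : Sh c q)
    (h2 : Sh q r) (h3 : ¬ Sh r c) (h4 : ¬ Ex S r c) :
    asg D S c q + asg D S q r + asg D S r c ≤ val D S c q + val D S q r + val D S r c := by
  have hX : 0 < XX c q r := h.2.2.2.1
  have hX2 : 0 < XX q r c := by rw [XX_cyc]; exact hX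
  have hX3 : 0 < XX r c q := by rw [XX_cyc]; exact hX2
  have e1 : Ex S c q := Or.inl h1
  have e2 : Ex S q r := Or.inl h2
  have x1 : ¬ Xt S c q := by rw [Xt_of h]; tauto
  have x2 : ¬ Xt S q r := by rw [Xt_of (Tr_cyc h)]; tauto
  have x3 : ¬ Xt S r c := by rw [Xt_of (Tr_cyc (Tr_cyc h))]; tauto
  unfold asg val gv
  rw [if_neg x1, if_neg x2, if_neg x3, if_pos h1, if_pos h2, if_neg h3, if_pos e1, if_pos e2,
    if_neg h4]
  obtain ⟨a1, a2, a3⟩ := Tr_al3 h
  have s1 := RR_sin hX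
  have s2 := RR_sin hX2
  have s3 := RR_sin hX3
  rw [RR_cyc] at s2
  rw [RR_cyc, RR_cyc] at s3
  have hR0 := RR_pos hX
  have hs := an_sum hX
  have p1 := an_pos c q r
  have p2 := an_pos q r c
  have p3 := an_pos r c q
  unfold Sh at h1 h2 h3
  have l1 : sin (an c q r) ≤ sin (an r c q) := by
    apply le_of_mul_le_mul_left _ hR0; rw [s1, s3]; linarith
  have l2 : sin (an q r c) ≤ sin (an r c q) := by
    apply le_of_mul_le_mul_left _ hR0; rw [s2, s3]; linarith
  have b1 := angle_le_of_sin_le p1 p3 (by linarith) l1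
  have b2 := angle_le_of_sin_le p2 p3 (by linarith) l2
  have hR1 : 1 ≤ RR c q r := by
    have : RR c q r * sin (an r c q) ≤ RR c q r := by
      have := sin_le_one (an r c q); nlinarith
    rw [s3] at this; linarith
  have hn1 : 0 < ‖q - c‖ := norm_pos_iff.mpr (sub_ne_zero.mpr (Ne.symm (ne_of_XX_pos hX).1))
  have hn2 : 0 < ‖r - q‖ := norm_pos_iff.mpr (sub_ne_zero.mpr (Ne.symm (ne_of_XX_pos hX).2.1))
  have hsin1 : 0 < sin (an c q r) := sin_pos_of_pos_of_lt_pi p1 (an_lt _ _ _)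
  have hsin2 : 0 < sin (an q r c) := sin_pos_of_pos_of_lt_pi p2 (an_lt _ _ _)
  have t := T2 hR0 p1 p2 p3 hs (by rw [s1]; linarith) (by rw [s2]; linarith) (by rw [s3]; linarith)
  rw [s1, s2] at t
  rw [a1, a2, a3]
  have hq1 := QQ_U (D := D) (a := ‖q - c‖ / 2) (ω := π / 2 - an c q r) (by positivity) (by linarith)
    (by linarith [pi_pos]) (by linarith) (by
      rw [cos_pi_div_two_sub, ← s1]; nlinarith)
  have hq2 := QQ_U (D := D) (a := ‖r - q‖ / 2) (ω := π / 2 - an q r c) (by positivity) (by linarith)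
    (by linarith [pi_pos]) (by linarith) (by
      rw [cos_pi_div_two_sub, ← s2]; nlinarith)
  rw [hq1, hq2]
  have := mul_nonneg hD t
  linarith

lemma tri_case3 {D : ℝ} {S : Finset ℂ} {c q r : ℂ} (h : Tr S c q r) (h1 : Ex S c q)
    (h2 : Ex S q r) (h3 : Ex S r c) :
    asg D S c q + asg D S q r + asg D S r c ≤ val D S c q + val D S q r + val D S r c := by
  have x1 : Xt S c q := by rw [Xt_of h]; tauto
  have x2 : Xt S q r := by rw [Xt_of (Tr_cyc h)]; tauto
  have x3 : Xt S r c := by rw [Xt_of (Tr_cyc (Tr_cyc h))]; tauto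
  unfold asg val
  rw [if_pos x1, if_pos x2, if_pos x3, if_pos h1, if_pos h2, if_pos h3]

lemma tri_case0 {D : ℝ} (hD : 0 ≤ D) {S : Finset ℂ} {c q r : ℂ} (h : Tr S c q r) (h1 : ¬ Sh c q)
    (h2 : ¬ Sh q r) (h3 : ¬ Sh r c) :
    asg D S c q + asg D S q r + asg D S r c ≤ val D S c q + val D S q r + val D S r c := by
  have e1 : ¬ Ex S c q := not_Ex_of h h1 (by
    rintro ⟨h5, _⟩; exact h3 h5)
  have e2 : ¬ Ex S q r := not_Ex_of (Tr_cyc h) h2 (by
    rintro ⟨_, h5⟩; exact h3 (Sh_symm h5))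
  have e3 : ¬ Ex S r c := not_Ex_of (Tr_cyc (Tr_cyc h)) h3 (by
    rintro ⟨h5, _⟩; exact h2 h5)
  have x1 : ¬ Xt S c q := by rw [Xt_of h]; tauto
  have x2 : ¬ Xt S q r := by rw [Xt_of (Tr_cyc h)]; tauto
  have x3 : ¬ Xt S r c := by rw [Xt_of (Tr_cyc (Tr_cyc h))]; tauto
  unfold asg val gv
  rw [if_neg x1, if_neg x2, if_neg x3, if_neg h1, if_neg h2, if_neg h3, if_neg e1, if_neg e2,
    if_neg e3]
  obtain ⟨a1, a2, a3⟩ := Tr_al3 h
  rw [a1, a2, a3]
  have t := T0 (an_pos c q r) (an_pos q r c) (an_pos r c q) (an_sum h.2.2.2.1)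
  have := mul_nonneg hD t
  linarith

/-- The triangle inequality for values. -/
theorem tri_ineq {D : ℝ} (hD : 0 ≤ D) {S : Finset ℂ} {c q r : ℂ} (h : Tr S c q r) :
    asg D S c q + asg D S q r + asg D S r c ≤ val D S c q + val D S q r + val D S r c := by
  have h' := Tr_cyc h
  have h'' := Tr_cyc h'
  by_cases h1 : Sh c q <;> by_cases h2 : Sh q r <;> by_cases h3 : Sh r c
  · exact tri_case3 h (Or.inl h1) (Or.inl h2) (Or.inl h3)
  · by_cases h4 : Ex S r c
    · exact tri_case3 h (Or.inl h1) (Or.inl h2) h4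
    · exact tri_case2 hD h h1 h2 h3 h4
  · by_cases h4 : Ex S q r
    · exact tri_case3 h (Or.inl h1) h4 (Or.inl h3)
    · have := tri_case2 hD h'' h3 h1 h2 h4
      linarith
  · exact tri_case1 hD h h1 h2 h3
  · by_cases h4 : Ex S c q
    · exact tri_case3 h h4 (Or.inl h2) (Or.inl h3)
    · have := tri_case2 hD h' h2 h3 h1 h4
      linarith
  · have := tri_case1 hD h' h2 h3 h1
    linarith
  · have := tri_case1 hD h'' h3 h1 h2
    linarith
  · exact tri_case0 hD h h1 h2 h3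

/-- infinite ends -/
theorem inf_ineq {D : ℝ} (hD : 0 ≤ D) {S : Finset ℂ} {c q : ℂ} (hcq : c ≠ q)
    (h : al S c q = π / 2) : asg D S c q ≤ val D S c q := by
  have hno : ∀ r, ¬ Tr S c q r := by
    intro r hr
    have := Tr_al hr
    have h2 := att_lt c q r
    rw [h] at this; linarith
  have x1 : ¬ Xt S c q := by
    rintro ⟨r, hr, _⟩; exact hno r hr
  have hn1 : 0 < ‖q - c‖ := norm_pos_iff.mpr (sub_ne_zero.mpr (Ne.symm hcq))
  unfold asg val gv
  rw [if_neg x1, h]
  by_cases hs : Sh c q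
  · rw [if_pos hs, if_pos (show Ex S c q from Or.inl hs)]
    unfold Sh at hs
    rw [QQ_U (by positivity) (by linarith) (by positivity) le_rfl (by
      rw [cos_pi_div_two]; positivity)]
    have := mul_nonneg hD (T1inf (a := ‖q - c‖ / 2) (by positivity) (by linarith))
    linarith
  · have he : ¬ Ex S c q := by
      rintro (h3 | ⟨r1, r', h3, _⟩)
      · exact hs h3
      · exact hno _ h3
    rw [if_neg hs, if_neg he]
    exact mul_nonneg hD T0inf

lemma Tr_ne {S : Finset ℂ} {c q r : ℂ} (h : Tr S c q r) : c ≠ q ∧ q ≠ r ∧ r ≠ c :=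
  ne_of_XX_pos h.2.2.2.1

open Classical in
theorem sum_ineq {D : ℝ} (hD : 0 ≤ D) {S : Finset ℂ} (hG : Gen S) :
    ∑ c ∈ S, ∑ q ∈ S.erase c, (if Ed S c q then asg D S c q else 0)
      ≤ ∑ c ∈ S, ∑ q ∈ S.erase c, (if Ed S c q then val D S c q else 0) := by
  set f : ℂ → ℂ → ℝ := fun c q => val D S c q - asg D S c q with hf
  set G : ℂ → ℂ → ℂ → ℝ := fun c q r => if Tr S c q r then f c q else 0 with hGdef
  -- the sum over triangles is nonnegative
  have hT : 0 ≤ ∑ c ∈ S, ∑ q ∈ S, ∑ r ∈ S, G c q r := by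
    have c1 : ∑ c ∈ S, ∑ q ∈ S, ∑ r ∈ S, G q r c = ∑ c ∈ S, ∑ q ∈ S, ∑ r ∈ S, G c q r := by
      rw [Finset.sum_comm]
      apply Finset.sum_congr rfl
      intro q _
      rw [Finset.sum_comm]
    have c2 : ∑ c ∈ S, ∑ q ∈ S, ∑ r ∈ S, G r c q = ∑ c ∈ S, ∑ q ∈ S, ∑ r ∈ S, G c q r := by
      have c21 : ∑ c ∈ S, ∑ q ∈ S, ∑ r ∈ S, G r c q = ∑ c ∈ S, ∑ r ∈ S, ∑ q ∈ S, G r c q := by
        apply Finset.sum_congr rfl
        intro c _
        rw [Finset.sum_comm]
      rw [c21, Finset.sum_comm]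
    have c3 : 0 ≤ ∑ c ∈ S, ∑ q ∈ S, ∑ r ∈ S, (G c q r + G q r c + G r c q) := by
      apply Finset.sum_nonneg; intro c _
      apply Finset.sum_nonneg; intro q _
      apply Finset.sum_nonneg; intro r _
      simp only [hGdef]
      by_cases h : Tr S c q r
      · rw [if_pos h, if_pos (Tr_cyc h), if_pos (Tr_cyc (Tr_cyc h))]
        have := tri_ineq hD h
        simp only [hf]; linarith
      · have h' : ¬ Tr S q r c := fun h2 => h (Tr_cyc (Tr_cyc h2))
        have h'' : ¬ Tr S r c q := fun h2 => h (Tr_cyc h2)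
        rw [if_neg h, if_neg h', if_neg h'']; simp
    simp only [Finset.sum_add_distrib] at c3
    linarith
  -- comparison
  have hmain : ∑ c ∈ S, ∑ q ∈ S, ∑ r ∈ S, G c q r
      ≤ ∑ c ∈ S, ∑ q ∈ S.erase c, (if Ed S c q then f c q else 0) := by
    apply Finset.sum_le_sum
    intro c hc
    have h0 : ∑ r ∈ S, G c c r = 0 := by
      apply Finset.sum_eq_zero
      intro r _
      simp only [hGdef]
      rw [if_neg]
      intro h
      exact (Tr_ne h).1 rfl
    rw [← Finset.sum_erase (s := S) (f := fun q => ∑ r ∈ S, G c q r) (a := c) h0]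
    apply Finset.sum_le_sum
    intro q hq
    rw [Finset.mem_erase] at hq
    by_cases hex : ∃ r, Tr S c q r
    · obtain ⟨r, hr⟩ := hex
      rw [if_pos (Tr_Ed hr)]
      rw [Finset.sum_eq_single r]
      · simp only [hGdef]; rw [if_pos hr]
      · intro r' _ hne
        simp only [hGdef]
        rw [if_neg]
        intro h
        exact hne (Tr_unique h hr)
      · intro h; exact absurd hr.2.2.1 h
    · have hz : ∑ r ∈ S, G c q r = 0 := by
        apply Finset.sum_eq_zero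
        intro r _
        simp only [hGdef]
        rw [if_neg]
        intro h
        exact hex ⟨r, h⟩
      rw [hz]
      split_ifs with hE
      · have hal : al S c q = π / 2 := by
          by_contra hne
          have hlt : al S c q < π / 2 := lt_of_le_of_ne (al_le_half S c q) hne
          obtain ⟨r, hr, _⟩ := Tr_of_edge hG hc hq.2 (Ne.symm hq.1) hE hlt
          exact hex ⟨r, hr⟩
        have := inf_ineq hD (Ne.symm hq.1) hal
        simp only [hf]; linarith
      · exact le_rfl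
  have hsplit : ∑ c ∈ S, ∑ q ∈ S.erase c, (if Ed S c q then f c q else 0)
      = ∑ c ∈ S, ∑ q ∈ S.erase c, (if Ed S c q then val D S c q else 0)
        - ∑ c ∈ S, ∑ q ∈ S.erase c, (if Ed S c q then asg D S c q else 0) := by
    rw [← Finset.sum_sub_distrib]
    apply Finset.sum_congr rfl
    intro c _
    rw [← Finset.sum_sub_distrib]
    apply Finset.sum_congr rfl
    intro q _
    split_ifs <;> simp [hf]
  linarith

lemma not_Ex_long {S : Finset ℂ} {c q : ℂ} (h : ¬ Ex S c q) : 2 ≤ ‖q - c‖ := by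
  by_contra hcon
  push Not at hcon
  exact h (Or.inl hcon)

open Classical in
/-- symmetrization of the facet sum, and the bound for long facets. -/
theorem facet_sum {D : ℝ} (hD : 0 ≤ D) (S : Finset ℂ) :
    ∑ c ∈ S, ∑ q ∈ S.erase c, (if Ed S c q then val D S c q else 0)
      ≤ ∑ c ∈ S, ∑ q ∈ S.erase c, (if Ed S c q then
        (QQ D (‖q - c‖ / 2) (al S c q) + QQ D (‖q - c‖ / 2) (al S q c)) / 2 else 0) := by
  set g : ℂ → ℂ → ℝ := fun c q => if c = q then 0 else (if Ed S c q then val D S c q else 0)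
    with hg
  have e1 : ∑ c ∈ S, ∑ q ∈ S.erase c, (if Ed S c q then val D S c q else 0)
      = ∑ c ∈ S, ∑ q ∈ S, g c q := by
    apply Finset.sum_congr rfl
    intro c _
    rw [← Finset.sum_erase (s := S) (f := fun q => g c q) (a := c) (by simp [hg])]
    apply Finset.sum_congr rfl
    intro q hq
    simp only [hg]
    rw [if_neg (Ne.symm (Finset.mem_erase.mp hq).1)]
  have e2 : ∑ c ∈ S, ∑ q ∈ S, g c q = ∑ c ∈ S, ∑ q ∈ S, (g c q + g q c) / 2 := by
    have : ∑ c ∈ S, ∑ q ∈ S, g q c = ∑ c ∈ S, ∑ q ∈ S, g c q := Finset.sum_comm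
    have h2 : ∑ c ∈ S, ∑ q ∈ S, (g c q + g q c) / 2
        = (∑ c ∈ S, ∑ q ∈ S, g c q + ∑ c ∈ S, ∑ q ∈ S, g q c) / 2 := by
      simp only [← Finset.sum_div, Finset.sum_add_distrib]
    rw [h2, this]; ring
  rw [e1, e2]
  apply Finset.sum_le_sum
  intro c _
  rw [← Finset.sum_erase (s := S) (f := fun q => (g c q + g q c) / 2) (a := c) (by simp [hg])]
  apply Finset.sum_le_sum
  intro q hq
  have hcq : c ≠ q := Ne.symm (Finset.mem_erase.mp hq).1
  simp only [hg]
  rw [if_neg hcq, if_neg (Ne.symm hcq)]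
  by_cases hE : Ed S c q
  · rw [if_pos hE, if_pos (Ed_symm hE), if_pos hE]
    unfold val
    by_cases hx : Ex S c q
    · rw [if_pos hx, if_pos (Ex_symm hx), norm_sub_rev c q]
    · rw [if_neg hx, if_neg (fun h => hx (Ex_symm h))]
      have h1 := not_Ex_long hx
      unfold Ed at hE
      have := QQ_long (a := ‖q - c‖ / 2) hD (by linarith) hE.le
      linarith
  · rw [if_neg hE, if_neg (fun h => hE (Ed_symm h)), if_neg hE]; simp

open Classical in
/-- The total score. -/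
theorem total_score {D : ℝ} (hD : 0 ≤ D) {S : Finset ℂ} (hG : Gen S) :
    S.card * (2 * √3 * D - π) + ∑ c ∈ S, ∑ q ∈ S.erase c, (if Ed S c q then asg D S c q else 0)
    ≤ ∑ c ∈ S, (D * (volume (Vc S c ∩ Metric.closedBall c (2 / √3))).toReal
      - (volume (Vc S c ∩ Metric.closedBall c 1)).toReal) := by
  have h1 := sum_ineq hD hG
  have h2 := facet_sum hD S
  have h3 : ∀ c ∈ S, (cc * D - 1) * π + ∑ q ∈ S.erase c, (if Ed S c q then
        (QQ D (‖q - c‖ / 2) (al S c q) + QQ D (‖q - c‖ / 2) (al S q c)) / 2 else 0)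
      ≤ D * (volume (Vc S c ∩ Metric.closedBall c (2 / √3))).toReal
      - (volume (Vc S c ∩ Metric.closedBall c 1)).toReal := by
    intro c hc
    have h4 := center_identity hG hc D
    have h5 : 0 ≤ (D * (4 / 3) - 1 - (cc * D - 1)) *
        (volume (Metric.closedBall c 1 ∩ Rst S c)).toReal := by
      apply mul_nonneg _ ENNReal.toReal_nonneg
      have := bb_pos
      unfold bb at this
      nlinarith
    linarith
  have h6 := Finset.sum_le_sum h3
  rw [Finset.sum_add_distrib, Finset.sum_const, nsmul_eq_mul] at h6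
  have h7 : (cc * D - 1) * π = 2 * √3 * D - π := by
    have := cc_pi
    linear_combination D * this
  rw [h7] at h6
  linarith

end FT58
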