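import Pool.Agent.Lib.MP_49fa77_co.Cut

/-!
# Area bound for a region without bad triangles
-/

namespace FT58

open Real MeasureTheory Set

section
open Classical

lemma sE_pair {P : Finset ℂ} {X : ℂ → ℂ → Prop} {f : ℂ → ℂ → ℝ}
    (h1 : ∀ c ∈ P, ∀ q ∈ P, X c q → X q c → 0 ≤ f c q + f q c)
    (h2 : ∀ c ∈ P, ∀ q ∈ P, X c q → ¬ X q c → 0 ≤ f c q) : 0 ≤ sE P X f := by
  have e : 0 ≤ 2 * sE P X f := by
    rw [two_mul]
    nth_rewrite 2 [sE_comm]
    unfold sE
    simp only [← Finset.sum_add_distrib]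
    refine Finset.sum_nonneg fun c hc => Finset.sum_nonneg fun q hq => ?_
    by_cases k1 : X c q <;> by_cases k2 : X q c
    · rw [if_pos k1, if_pos k2]; exact h1 c hc q hq k1 k2
    · rw [if_pos k1, if_neg k2]; have := h2 c hc q hq k1 k2; linarith
    · rw [if_neg k1, if_pos k2]; have := h2 q hq c hc k2 k1; linarith
    · rw [if_neg k1, if_neg k2]; simp
  linarith

lemma sE_sub {P : Finset ℂ} {X : ℂ → ℂ → Prop} (f g : ℂ → ℂ → ℝ) :
    sE P X (fun c q => f c q - g c q) = sE P X f - sE P X g := by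
  unfold sE
  simp only [← Finset.sum_sub_distrib]
  refine Finset.sum_congr rfl fun c _ => Finset.sum_congr rfl fun q _ => ?_
  split_ifs <;> simp

lemma sE_add {P : Finset ℂ} {X : ℂ → ℂ → Prop} (f g : ℂ → ℂ → ℝ) :
    sE P X (fun c q => f c q + g c q) = sE P X f + sE P X g := by
  unfold sE
  simp only [← Finset.sum_add_distrib]
  refine Finset.sum_congr rfl fun c _ => Finset.sum_congr rfl fun q _ => ?_
  split_ifs <;> simp

lemma sE_smul {P : Finset ℂ} {X : ℂ → ℂ → Prop} (k : ℝ) (f : ℂ → ℂ → ℝ) :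
    sE P X (fun c q => k * f c q) = k * sE P X f := by
  unfold sE
  simp only [Finset.mul_sum]
  refine Finset.sum_congr rfl fun c _ => Finset.sum_congr rfl fun q _ => ?_
  split_ifs <;> ring

/-- boundary edges of a family -/
def Bd (T : ℂ → ℂ → ℂ → Prop) (c q : ℂ) : Prop := Lf T c q ∧ ¬ Lf T q c

/-- the shoelace identity -/
lemma shoelace {P : Finset ℂ} {T : ℂ → ℂ → ℂ → Prop} (hT : Fam P T) :
    sT P T XX = 3 * sE P (Bd T) cr := by
  have h1 : sT P T XX = sT P T (fun c q r => cr c q + cr q r + cr r c) := by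
    apply sT_congr
    intro c q r _
    simp only [XX, cr, Complex.sub_re, Complex.sub_im]; ring
  have h2 := sT_avg (P := P) hT.cyc (fun c q _ => cr c q)
  rw [sT_edge hT] at h2
  have h3 := sE_split (P := P) (X := Lf T) (Y := fun c q => Lf T q c) cr
  have h4 : sE P (fun c q => Lf T c q ∧ Lf T q c) cr = 0 := by
    apply sE_anti
    · intro c _ q _ _ _
      simp only [cr]; ring
    · intro c _ q _ k1 k2
      exact absurd ⟨k1.2, k1.1⟩ k2
  rw [h1, h2, h3, h4, zero_add]
  rfl

/-- lower bound for the total value of a region without bad triangles -/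
lemma region_bound {D : ℝ} (hD0 : 0 ≤ D) (hD1 : D ≤ 1) {S P : Finset ℂ} {T : ℂ → ℂ → ℂ → Prop}
    (hF : Fam P T) (htS : ∀ c q r, T c q r → Tr S c q r) (hbd : ∀ c q r, T c q r → Lf T q c ∨ Sh c q)
    (hgood : ∀ c q r, T c q r → ¬ Lf T q c → ¬ Bad c q r) :
    -(1 - D) * (sE P (Bd T) cr / 2) - kap D * (nE P (Lf T) / 3) ≤ sE P (Lf T) (val2 D S) := by
  set u : ℂ → ℂ → ℝ := fun c q => -(1 - D) * ((‖q - c‖ / 2) ^ 2 * tan (al S c q))
    - (cc * D - 1) * al S c q with hu
  have h1 : 3 * sE P (Lf T) u = -(1 - D) * (3 * sE P (Bd T) cr / 2) - kap D * nE P (Lf T) := by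
    rw [← sT_edge hF, ← sT_avg hF.cyc]
    have e1 : sT P T (fun c q r => u c q + u q r + u r c)
        = sT P T (fun c q r => (-(1 - D) / 2) * XX c q r + -(kap D)) := by
      apply sT_congr
      intro c q r ht
      have hTr := htS _ _ _ ht
      have hX := Tr_XX hTr
      have a1 := area_id hX
      have a2 := att_sum hX
      have a3 := kap_eq D
      simp only [hu]
      rw [Tr_al hTr, Tr_al (Tr_cyc hTr), Tr_al (Tr_cyc (Tr_cyc hTr))]
      rw [← a2] at a3
      linear_combination (-(1 - D)) * a1 - a3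
    rw [e1, sT_add, sT_mul, shoelace hF]
    have e2 : sT P T (fun _ _ _ => -(kap D)) = -(kap D) * nE P (Lf T) := by
      rw [← sE_const]
      exact sT_edge hF (fun _ _ => -(kap D))
    rw [e2]; ring
  have h2 : 0 ≤ sE P (Lf T) (fun c q => val2 D S c q - u c q) := by
    apply sE_pair
    · rintro c _ q _ ⟨r, hr⟩ ⟨r', hr'⟩
      have t1 := htS _ _ _ hr
      have t2 := htS _ _ _ hr'
      have X1 := Tr_XX t1
      have X2 := Tr_XX t2
      have hE := Tr_Ed t1
      unfold Ed at hE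
      have al1 := Tr_al t1
      have al2 := Tr_al t2
      simp only [hu]
      unfold val2 v2
      rw [al1, al2] at hE ⊢
      by_cases hs : Sh c q
      · rw [if_pos hs, if_pos (Sh_symm hs)]
        have := QQ_pair hD0 hD1 X1 hE.le
        linarith
      · rw [if_neg hs, if_neg (fun h => hs (Sh_symm h))]
        have hl : 2 ≤ ‖q - c‖ := by unfold Sh at hs; exact not_lt.mp hs
        have b1 : |att c q r| < π / 2 := by rw [abs_lt]; exact ⟨lt_att _ _ _, att_lt _ _ _⟩
        have b2 : |att q c r'| < π / 2 := by rw [abs_lt]; exact ⟨lt_att _ _ _, att_lt _ _ _⟩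
        have h3 := QQ_lower (a := 1) hD0 hD1 one_pos b1 b2 hE.le
        have h4 : ∀ ω, QQ D 1 ω = D * qh ω := by
          intro ω
          unfold QQ qh
          have : Mi 1 1 ω = ω := by
            have h5 := Mi_sub_const (a := 1) (B := 1) (α := 0) (β := ω) one_pos one_pos (by
              intro θ _; nlinarith [cos_sq_le_one θ])
            rw [Mi_zero] at h5; linarith
          rw [this]; ring
        rw [h4, h4] at h3
        have htan : 0 ≤ tan (att c q r) + tan (att q c r') := by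
          have k1 : -att q c r' ≤ att c q r := by linarith
          have k2 : tan (-att q c r') ≤ tan (att c q r) := by
            rcases eq_or_lt_of_le k1 with h | h
            · rw [h]
            · rw [abs_lt] at b1 b2
              exact (tan_lt_tan_of_lt_of_lt_pi_div_two (by linarith [b2.2]) b1.2 h).le
          rw [tan_neg] at k2
          linarith
        have hsq : 1 ≤ (‖q - c‖ / 2) ^ 2 := by nlinarith
        have h6 : (tan (att c q r) + tan (att q c r')) ≤
            (‖q - c‖ / 2) ^ 2 * (tan (att c q r) + tan (att q c r')) := by nlinarith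
        have h7 : (1 - D) * (tan (att c q r) + tan (att q c r')) ≤
            (1 - D) * ((‖q - c‖ / 2) ^ 2 * (tan (att c q r) + tan (att q c r'))) := by
          apply mul_le_mul_of_nonneg_left h6; linarith
        rw [norm_sub_rev c q]
        nlinarith
    · rintro c _ q _ ⟨r, hr⟩ hn
      have t1 := htS _ _ _ hr
      have X1 := Tr_XX t1
      have hs : Sh c q := (hbd _ _ _ hr).resolve_left hn
      have := QQ_side hD0 hD1 X1 (not_bad (hgood _ _ _ hr hn))
      simp only [hu]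
      unfold val2 v2
      rw [if_pos hs, Tr_al t1]
      linarith
  rw [sE_sub] at h2
  linarith

/-- three divides the number of directed edges of a family -/
lemma three_dvd {P : Finset ℂ} (n : ℕ) : ∀ T : ℂ → ℂ → ℂ → Prop, Fam P T → nE P (Lf T) = n →
    3 ∣ n := by
  induction n using Nat.strong_induction_on with
  | _ n ih =>
  intro T hT hn
  rcases Nat.eq_zero_or_pos n with h0 | h0
  · rw [h0]; exact dvd_zero 3
  obtain ⟨⟨c, q⟩, h1⟩ : ((P ×ˢ P).filter (fun x => Lf T x.1 x.2)).Nonempty := by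
    rw [← Finset.card_pos]
    have : nE P (Lf T) = ((P ×ˢ P).filter (fun x => Lf T x.1 x.2)).card := rfl
    omega
  rw [Finset.mem_filter] at h1
  obtain ⟨r, hr⟩ := h1.2
  obtain ⟨T', hF', _, _, hsum⟩ := remove_tri hT hr
  have e1 := hsum (fun _ _ => 1)
  rw [sE_one, sE_one] at e1
  have e2 : nE P (Lf T) = nE P (Lf T') + 3 := by
    have : (nE P (Lf T) : ℝ) = nE P (Lf T') + 3 := by linarith
    exact_mod_cast this
  have := ih (nE P (Lf T')) (by omega) T' hF' rfl
  omega

/-- a symmetric irreflexive relation has an even number of pairs -/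
lemma even_symm {P : Finset ℂ} {X : ℂ → ℂ → Prop} (h1 : ∀ c q, X c q → X q c)
    (h2 : ∀ c, ¬ X c c) : Even (nE P X) := by
  have h : ∑ x ∈ (P ×ˢ P).filter (fun x => X x.1 x.2), (1 : ZMod 2) = 0 := by
    refine Finset.sum_involution (fun x _ => (x.2, x.1)) ?_ ?_ ?_ ?_
    · intro x _; decide
    · rintro ⟨x, y⟩ hx _ heq
      rw [Finset.mem_filter] at hx
      simp only [Prod.mk.injEq] at heq
      rw [heq.1] at hx
      exact h2 _ hx.2
    · rintro ⟨x, y⟩ hx
      rw [Finset.mem_filter, Finset.mem_product] at hx ⊢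
      exact ⟨⟨hx.1.2, hx.1.1⟩, h1 _ _ hx.2⟩
    · rintro ⟨x, y⟩ _; rfl
  rw [Finset.sum_const, nsmul_eq_mul, mul_one] at h
  exact (ZMod.natCast_eq_zero_iff_even).mp h

lemma nE_split {P : Finset ℂ} (X Y : ℂ → ℂ → Prop) :
    nE P X = nE P (fun c q => X c q ∧ Y c q) + nE P (fun c q => X c q ∧ ¬ Y c q) := by
  have := sE_split (P := P) (X := X) (Y := Y) (fun _ _ => 1)
  simp only [sE_one] at this
  exact_mod_cast this

lemma nE_comm {P : Finset ℂ} (X : ℂ → ℂ → Prop) : nE P X = nE P (fun c q => X q c) := by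
  have := sE_comm (P := P) X (fun _ _ => 1)
  simp only [sE_one] at this
  exact_mod_cast this

/-- parity of boundary and triangles -/
lemma parity {P : Finset ℂ} {T : ℂ → ℂ → ℂ → Prop} (hT : Fam P T) :
    Even (nE P (Lf T) - nE P (Bd T)) ∧ nE P (Bd T) ≤ nE P (Lf T) := by
  have h1 := nE_split (P := P) (Lf T) (fun c q => Lf T q c)
  have h2 : nE P (fun c q => Lf T c q ∧ ¬ Lf T q c) = nE P (Bd T) := rfl
  have h3 : Even (nE P (fun c q => Lf T c q ∧ Lf T q c)) := by
    apply even_symm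
    · intro c q h; exact ⟨h.2, h.1⟩
    · rintro c ⟨⟨r, hr⟩, _⟩
      exact (Tr_ne (hT.tr _ _ _ hr)).1 rfl
  rw [h2] at h1
  constructor
  · have : nE P (Lf T) - nE P (Bd T) = nE P (fun c q => Lf T c q ∧ Lf T q c) := by omega
    rw [this]; exact h3
  · omega

/-- **Reduction to the boundary.** -/
theorem score_bd {D : ℝ} (hD0 : 0 ≤ D) (hD1 : D ≤ 1) (hk : 0 ≤ kap D)
    (hM : ∀ a, 0 < a → a < 1 → -(kap D / 4) ≤ GG D a)
    {S P : Finset ℂ} (hG : Gen S) (hP : Closed S P) (hc : P.card = 5) :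
    ∃ T : ℂ → ℂ → ℂ → Prop, Fam P T ∧ (∀ c q, Bd T c q → Sh c q) ∧
      (3 * nE P (Bd T) + nE P (Lf T) ≤ 24) ∧
      kap D / 4 * (nE P (Lf T) / 3 + nE P (Bd T))
        + sE P (Bd T) (fun c q => GG D (‖q - c‖ / 2)) - (1 - D) * (sE P (Bd T) cr / 2)
      ≤ P.card * (2 * kap D) + sE P (Eg S) (asg2 D S (MX S P)) := by
  have hc5 : P.card ≤ 5 := hc.le
  have hPne : P.Nonempty := Finset.card_pos.mp (by omega)
  rw [FV_init hG hP hc5]
  obtain ⟨E, T, hst, hfv, hcnt, hgood⟩ := cut_all (D := D) hD0 (nE P (Lf (MX S P))) (Se S) (MX S P)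
    (St_init hG hP hc5) rfl
  have hmain := count_main (hG.mono hP.1) hP.1 hPne
  rw [hc] at hmain
  have hcnt2 : 3 * nE P (fun c q => E c q ∧ ¬ Lf T c q) + nE P (Lf T) ≤ 24 := by
    rw [hcnt]
    have : (3 * nE P (fun c q => Se S c q ∧ ¬ Lf (MX S P) c q) + nE P (Lf (MX S P)) : ℝ) ≤ 24 := by
      push_cast at hmain
      linarith
    exact_mod_cast this
  have hb := region_bound hD0 hD1 hst.fam hst.trS hst.bd hgood
  -- splitting the outer edges
  have hBS : ∀ c q, Bd T c q → Sh c q := by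
    rintro c q ⟨⟨r, hr⟩, hn⟩
    exact (hst.bd _ _ _ hr).resolve_left hn
  have s1 := sE_split (P := P) (X := fun c q => E c q ∧ ¬ Lf T c q) (Y := fun c q => Bd T q c) (gs D)
  have s2 : sE P (fun c q => (E c q ∧ ¬ Lf T c q) ∧ Bd T q c) (gs D)
      = sE P (Bd T) (fun c q => GG D (‖q - c‖ / 2)) - kap D * nE P (Bd T) := by
    rw [← sE_const, ← sE_sub, sE_comm (Bd T)]
    apply sE_congr
    · intro c _ q _
      constructor
      · exact fun h => h.2
      · intro h
        refine ⟨⟨?_, h.2⟩, h⟩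
        obtain ⟨r, hr⟩ := h.1
        exact hst.sym _ _ (hst.sh _ _ _ hr (hBS _ _ h))
    · intro c _ q _ _
      rw [gs_symm]
      unfold gs
      rw [gg_eq]
  have s3 : -(5 / 4 * kap D) * nE P (fun c q => (E c q ∧ ¬ Lf T c q) ∧ ¬ Bd T q c)
      ≤ sE P (fun c q => (E c q ∧ ¬ Lf T c q) ∧ ¬ Bd T q c) (gs D) := by
    rw [← sE_const]
    apply sE_mono
    intro c _ q _ h
    have hse := hst.se _ _ h.1.1
    have p1 : 0 < ‖q - c‖ := norm_pos_iff.mpr (sub_ne_zero.mpr (Ne.symm hse.1))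
    have hs := hse.2.2
    unfold Sh at hs
    have := hM (‖q - c‖ / 2) (by positivity) (by linarith)
    unfold gs
    rw [gg_eq]; linarith
  have c1 := nE_split (P := P) (fun c q => E c q ∧ ¬ Lf T c q) (fun c q => Bd T q c)
  have c2 : nE P (fun c q => (E c q ∧ ¬ Lf T c q) ∧ Bd T q c) = nE P (Bd T) := by
    rw [nE_comm (Bd T)]
    apply le_antisymm
    · exact nE_le fun c _ q _ h => h.2
    · apply nE_le
      intro c _ q _ h
      refine ⟨⟨?_, h.2⟩, h⟩
      obtain ⟨r, hr⟩ := h.1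
      exact hst.sym _ _ (hst.sh _ _ _ hr (hBS _ _ h))
  rw [c2] at c1
  refine ⟨T, hst.fam, hBS, by omega, ?_⟩
  rw [hc]
  unfold FV at hfv
  rw [s1, s2] at hfv
  have c3 : (3 * (nE P (Bd T) + nE P (fun c q => (E c q ∧ ¬ Lf T c q) ∧ ¬ Bd T q c))
      + nE P (Lf T) : ℝ) ≤ 24 := by
    rw [c1] at hcnt2
    exact_mod_cast hcnt2
  have c4 : kap D * (3 * (nE P (Bd T) + nE P (fun c q => (E c q ∧ ¬ Lf T c q) ∧ ¬ Bd T q c))
      + nE P (Lf T)) ≤ kap D * 24 := mul_le_mul_of_nonneg_left c3 hk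
  push_cast
  unfold FV
  linarith

end

end FT58
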