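import Pool.Agent.Lib.MP_49fa77_co.Planar

/-!
# Bounds for one, two and three exact triangles (clusters of four points)
-/

namespace FT58

open Real MeasureTheory Set

/-- the outer value of the side `x y` -/
noncomputable def gs (D : ℝ) (x y : ℂ) : ℝ := gg D (‖y - x‖ / 2)

lemma gs_symm (D : ℝ) (x y : ℂ) : gs D x y = gs D y x := by
  unfold gs; rw [norm_sub_rev]

lemma QQ_side {D : ℝ} (hD0 : 0 ≤ D) (hD1 : D ≤ 1) {u v w : ℂ} (hX : 0 < XX u v w)
    (h : an u v w ≤ π / 2 ∨ RR u v w ≤ 1) :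
    -(1 - D) * ((‖v - u‖ / 2) ^ 2 * tan (att u v w)) - (cc * D - 1) * att u v w
        ≤ QQ D (‖v - u‖ / 2) (att u v w) := by
  have n1 := (ne_of_XX_pos hX).1
  have p1 : 0 < ‖v - u‖ := norm_pos_iff.mpr (sub_ne_zero.mpr (Ne.symm n1))
  rcases h with h1 | h1
  · apply QQ_lower1 hD0 hD1 (by positivity)
    · unfold an at h1; linarith
    · exact att_lt _ _ _
  · rw [QQ_eq]
    · rw [abs_lt]; exact ⟨lt_att _ _ _, att_lt _ _ _⟩
    · have hs := RR_sin hX
      have hc : cos (att u v w) = sin (an u v w) := by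
        unfold an; rw [sin_pi_div_two_sub]
      rw [hc, ← hs]
      have hs0 : 0 < sin (an u v w) := sin_pos_of_pos_of_lt_pi (an_pos _ _ _) (an_lt _ _ _)
      have hR0 : 0 < RR u v w := RR_pos hX
      rw [mul_pow]
      have : RR u v w ^ 2 ≤ 1 := by nlinarith
      nlinarith [sq_nonneg (sin (an u v w))]

lemma QQ_pair {D : ℝ} (hD0 : 0 ≤ D) (hD1 : D ≤ 1) {u v w w' : ℂ} (hX : 0 < XX u v w)
    (h : 0 ≤ att u v w + att v u w') :
    -(1 - D) * ((‖v - u‖ / 2) ^ 2 * tan (att u v w) + (‖u - v‖ / 2) ^ 2 * tan (att v u w'))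
        - (cc * D - 1) * (att u v w + att v u w')
      ≤ QQ D (‖v - u‖ / 2) (att u v w) + QQ D (‖u - v‖ / 2) (att v u w') := by
  have n1 := (ne_of_XX_pos hX).1
  have p1 : 0 < ‖v - u‖ := norm_pos_iff.mpr (sub_ne_zero.mpr (Ne.symm n1))
  rw [norm_sub_rev u v]
  exact QQ_lower hD0 hD1 (by positivity) (by rw [abs_lt]; exact ⟨lt_att _ _ _, att_lt _ _ _⟩)
    (by rw [abs_lt]; exact ⟨lt_att _ _ _, att_lt _ _ _⟩) h

lemma obtuse_side {x y z : ℂ} (hX : 0 < XX x y z) (h : π / 2 ≤ an x y z) :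
    ‖z - y‖ ≤ ‖y - x‖ ∧ ‖x - z‖ ≤ ‖y - x‖ := by
  have hX2 : 0 < XX y z x := by rw [XX_cyc]; exact hX
  have hX3 : 0 < XX z x y := by rw [XX_cyc]; exact hX2
  have r1 := RR_sin hX
  have r2 := RR_sin hX2
  have r3 := RR_sin hX3
  rw [RR_cyc] at r2
  rw [RR_cyc, RR_cyc] at r3
  have a1 := an_pos x y z
  have a2 := an_pos y z x
  have a3 := an_pos z x y
  have hs := an_sum hX
  have m2 : sin (an y z x) ≤ sin (an x y z) := by
    rw [← sin_pi_sub (an x y z)]
    exact sin_le_sin_of_le_of_le_pi_div_two (by linarith) (by linarith) (by linarith)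
  have m3 : sin (an z x y) ≤ sin (an x y z) := by
    rw [← sin_pi_sub (an x y z)]
    exact sin_le_sin_of_le_of_le_pi_div_two (by linarith) (by linarith) (by linarith)
  have hR0 : 0 < RR x y z := RR_pos hX
  have k2 : RR x y z * sin (an y z x) ≤ RR x y z * sin (an x y z) := by gcongr
  have k3 : RR x y z * sin (an z x y) ≤ RR x y z * sin (an x y z) := by gcongr
  rw [r1, r2] at k2
  rw [r1, r3] at k3
  constructor <;> linarith

/-- a bad side: obtuse opposite angle and circumradius at least one -/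
def Bad (x y z : ℂ) : Prop := π / 2 < an x y z ∧ 1 < RR x y z

lemma not_bad {x y z : ℂ} (h : ¬ Bad x y z) : an x y z ≤ π / 2 ∨ RR x y z ≤ 1 := by
  unfold Bad at h
  by_contra hcon
  push Not at hcon
  exact h hcon

lemma area_le {x y z : ℂ} : XX x y z / 2 ≤ (‖y - x‖ / 2) ^ 2 + (‖z - y‖ / 2) ^ 2 := by
  simp only [div_pow, norm_sq_eq, XX, cr, Complex.sub_re, Complex.sub_im]
  nlinarith [sq_nonneg ((y.re - x.re) - (z.im - y.im)), sq_nonneg ((y.im - x.im) + (z.re - y.re))]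

lemma area_w {x y z : ℂ} : XX x y z / 2
    ≤ ((‖y - x‖ / 2) ^ 2 + (‖z - y‖ / 2) ^ 2 + (‖x - z‖ / 2) ^ 2) / √3 := by
  have hwz := weitz x y z
  have h3 := sqrt3_sq
  have h30 := sqrt3_pos
  rw [le_div_iff₀ h30]; linarith

section
variable {D : ℝ} (hD0 : 0 ≤ D) (hD1 : D ≤ 1)
  (hM : ∀ a, 0 < a → a < 1 → -(kap D / 3) ≤ GG D a)
  (hW : ∀ a, 0 < a → a < 1 → 0 ≤ 4 * kap D / 9 + GG D a - (1 - D) * a ^ 2 / √3)
  (hQ : ∀ a, 0 < a → a < 1 → 0 ≤ kap D / 2 + GG D a - (1 - D) * a ^ 2)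

include hM in
lemma gs_ge {x y : ℂ} (h : x ≠ y) (hs : Sh x y) : -(4 / 3 * kap D) ≤ gs D x y := by
  have p1 : 0 < ‖y - x‖ := norm_pos_iff.mpr (sub_ne_zero.mpr (Ne.symm h))
  unfold Sh at hs
  have := hM (‖y - x‖ / 2) (by positivity) (by linarith)
  unfold gs
  rw [gg_eq]; linarith

include hD0 hD1 hM hW in
/-- one exact triangle -/
lemma bound1 {x y z : ℂ} (hX : 0 < XX x y z) (s1 : Sh x y) (s2 : Sh y z) (s3 : Sh z x) :
    -(16 / 3 * kap D) ≤ VT D x y z + gs D x y + gs D y z + gs D z x := by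
  have hX2 : 0 < XX y z x := by rw [XX_cyc]; exact hX
  have hX3 : 0 < XX z x y := by rw [XX_cyc]; exact hX2
  obtain ⟨n1, n2, n3⟩ := ne_of_XX_pos hX
  have p1 : 0 < ‖y - x‖ := norm_pos_iff.mpr (sub_ne_zero.mpr (Ne.symm n1))
  have p2 : 0 < ‖z - y‖ := norm_pos_iff.mpr (sub_ne_zero.mpr (Ne.symm n2))
  have p3 : 0 < ‖x - z‖ := norm_pos_iff.mpr (sub_ne_zero.mpr (Ne.symm n3))
  have g1 := gs_ge hM n1 s1
  have g2 := gs_ge hM n2 s2
  have g3 := gs_ge hM n3 s3
  have t1 := s1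
  have t2 := s2
  have t3 := s3
  unfold Sh at t1 t2 t3
  by_cases b1 : Bad x y z
  · have hb := VT_bad hD0 hX s1 b1.2.le b1.1.le
    have e1 : gg D (‖y - x‖ / 2) = gs D x y := rfl
    have e2 : gg D (‖z - y‖ / 2) = gs D y z := rfl
    have e3 : gg D (‖x - z‖ / 2) = gs D z x := rfl
    rw [e1, e2, e3] at hb
    linarith
  by_cases b2 : Bad y z x
  · have hb := VT_bad hD0 hX2 s2 b2.2.le b2.1.le
    have e1 : gg D (‖y - x‖ / 2) = gs D x y := rfl
    have e2 : gg D (‖z - y‖ / 2) = gs D y z := rfl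
    have e3 : gg D (‖x - z‖ / 2) = gs D z x := rfl
    rw [e1, e2, e3, VT_cyc] at hb
    linarith
  by_cases b3 : Bad z x y
  · have hb := VT_bad hD0 hX3 s3 b3.2.le b3.1.le
    have e1 : gg D (‖y - x‖ / 2) = gs D x y := rfl
    have e2 : gg D (‖z - y‖ / 2) = gs D y z := rfl
    have e3 : gg D (‖x - z‖ / 2) = gs D z x := rfl
    rw [e1, e2, e3, VT_cyc, VT_cyc] at hb
    linarith
  have q1 := QQ_side hD0 hD1 hX (not_bad b1)
  have q2 := QQ_side hD0 hD1 hX2 (not_bad b2)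
  have q3 := QQ_side hD0 hD1 hX3 (not_bad b3)
  have hA := area_id hX
  have hS := att_sum hX
  have hK := kap_eq D
  rw [← hS] at hK
  have hVT : VT D x y z = QQ D (‖y - x‖ / 2) (att x y z) + QQ D (‖z - y‖ / 2) (att y z x)
      + QQ D (‖x - z‖ / 2) (att z x y) := rfl
  have hV : -(1 - D) * (XX x y z / 2) - kap D ≤ VT D x y z := by
    rw [← hA, ← hK, hVT]; linarith
  have w1 := hW (‖y - x‖ / 2) (by positivity) (by linarith)
  have w2 := hW (‖z - y‖ / 2) (by positivity) (by linarith)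
  have w3 := hW (‖x - z‖ / 2) (by positivity) (by linarith)
  have harea2 : (1 - D) * (XX x y z / 2) ≤ (1 - D) * (‖y - x‖ / 2) ^ 2 / √3
      + (1 - D) * (‖z - y‖ / 2) ^ 2 / √3 + (1 - D) * (‖x - z‖ / 2) ^ 2 / √3 := by
    have := mul_le_mul_of_nonneg_left (area_w (x := x) (y := y) (z := z))
      (by linarith : 0 ≤ 1 - D)
    calc _ ≤ _ := this
      _ = _ := by ring
  unfold gs
  simp only [gg_eq]
  linarith

include hD0 hD1 hM hW hQ in
/-- two exact triangles with a common side -/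
lemma bound2 {u a v b : ℂ} (hA : 0 < XX u a v) (hB : 0 < XX u v b) (s1 : Sh u a) (s2 : Sh a v)
    (s3 : Sh v b) (s4 : Sh b u) (hs : 0 ≤ att u v b + att v u a) :
    -(8 * kap D) ≤ VT D u a v + VT D u v b + gs D u a + gs D a v + gs D v b + gs D b u := by
  have hA2 : 0 < XX a v u := by rw [XX_cyc]; exact hA
  have hA3 : 0 < XX v u a := by rw [XX_cyc]; exact hA2
  have hB2 : 0 < XX v b u := by rw [XX_cyc]; exact hB
  have hB3 : 0 < XX b u v := by rw [XX_cyc]; exact hB2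
  obtain ⟨n1, n2, n3⟩ := ne_of_XX_pos hA
  obtain ⟨_, m2, m3⟩ := ne_of_XX_pos hB
  have p1 : 0 < ‖a - u‖ := norm_pos_iff.mpr (sub_ne_zero.mpr (Ne.symm n1))
  have p2 : 0 < ‖v - a‖ := norm_pos_iff.mpr (sub_ne_zero.mpr (Ne.symm n2))
  have p3 : 0 < ‖b - v‖ := norm_pos_iff.mpr (sub_ne_zero.mpr (Ne.symm m2))
  have p4 : 0 < ‖u - b‖ := norm_pos_iff.mpr (sub_ne_zero.mpr (Ne.symm m3))
  have g1 := gs_ge hM n1 s1
  have g2 := gs_ge hM n2 s2
  have g3 := gs_ge hM m2 s3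
  have g4 := gs_ge hM m3 s4
  have t1 := s1
  have t2 := s2
  have t3 := s3
  have t4 := s4
  unfold Sh at t1 t2 t3 t4
  have e1 : gg D (‖a - u‖ / 2) = gs D u a := rfl
  have e2 : gg D (‖v - a‖ / 2) = gs D a v := rfl
  have e3 : gg D (‖b - v‖ / 2) = gs D v b := rfl
  have e4 : gg D (‖u - b‖ / 2) = gs D b u := rfl
  have e5 : gg D (‖v - u‖ / 2) = gs D u v := rfl
  have e6 : gg D (‖u - v‖ / 2) = gs D u v := by rw [gs_symm]; rfl
  by_cases b1 : Bad u a v
  · have hb := VT_bad hD0 hA s1 b1.2.le b1.1.le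
    have ho := obtuse_side hA b1.1.le
    have suv : Sh u v := by unfold Sh; rw [norm_sub_rev]; linarith [ho.2]
    have h1 := bound1 hD0 hD1 hM hW hB suv s3 s4
    rw [e1, e2, e6] at hb
    linarith
  by_cases b2 : Bad a v u
  · have hb := VT_bad hD0 hA2 s2 b2.2.le b2.1.le
    have ho := obtuse_side hA2 b2.1.le
    have suv : Sh u v := by unfold Sh; rw [norm_sub_rev]; linarith [ho.1]
    have h1 := bound1 hD0 hD1 hM hW hB suv s3 s4
    rw [e1, e2, e6, VT_cyc] at hb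
    linarith
  by_cases b3 : Bad v b u
  · have hb := VT_bad hD0 hB2 s3 b3.2.le b3.1.le
    have ho := obtuse_side hB2 b3.1.le
    have suv : Sh v u := by unfold Sh; rw [norm_sub_rev]; linarith [ho.2]
    have h1 := bound1 hD0 hD1 hM hW hA s1 s2 suv
    rw [e3, e4, e5, VT_cyc] at hb
    rw [gs_symm D v u] at h1
    linarith
  by_cases b4 : Bad b u v
  · have hb := VT_bad hD0 hB3 s4 b4.2.le b4.1.le
    have ho := obtuse_side hB3 b4.1.le
    have suv : Sh v u := by unfold Sh; rw [norm_sub_rev]; linarith [ho.1]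
    have h1 := bound1 hD0 hD1 hM hW hA s1 s2 suv
    rw [e3, e4, e5, VT_cyc, VT_cyc] at hb
    rw [gs_symm D v u] at h1
    linarith
  have q1 := QQ_side hD0 hD1 hA (not_bad b1)
  have q2 := QQ_side hD0 hD1 hA2 (not_bad b2)
  have q3 := QQ_side hD0 hD1 hB2 (not_bad b3)
  have q4 := QQ_side hD0 hD1 hB3 (not_bad b4)
  have q5 := QQ_pair hD0 hD1 hB hs
  have A1 := area_id hA
  have A2 := area_id hB
  have S1 := att_sum hA
  have S2 := att_sum hB
  have hK := kap_eq D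
  have hV1 : VT D u a v = QQ D (‖a - u‖ / 2) (att u a v) + QQ D (‖v - a‖ / 2) (att a v u)
      + QQ D (‖u - v‖ / 2) (att v u a) := rfl
  have hV2 : VT D u v b = QQ D (‖v - u‖ / 2) (att u v b) + QQ D (‖b - v‖ / 2) (att v b u)
      + QQ D (‖u - b‖ / 2) (att b u v) := rfl
  have hK2 : (cc * D - 1) * (att u a v + att a v u + att v u a + att u v b + att v b u + att b u v)
      = 2 * kap D := by
    rw [show att u a v + att a v u + att v u a + att u v b + att v b u + att b u v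
      = π / 2 + π / 2 by linarith]
    linarith
  have hV : -(1 - D) * (XX u a v / 2 + XX u v b / 2) - 2 * kap D ≤ VT D u a v + VT D u v b := by
    rw [← A1, ← A2, ← hK2, hV1, hV2]; linarith
  have w1 := hQ (‖a - u‖ / 2) (by positivity) (by linarith)
  have w2 := hQ (‖v - a‖ / 2) (by positivity) (by linarith)
  have w3 := hQ (‖b - v‖ / 2) (by positivity) (by linarith)
  have w4 := hQ (‖u - b‖ / 2) (by positivity) (by linarith)
  have ar1 : XX u a v / 2 ≤ (‖a - u‖ / 2) ^ 2 + (‖v - a‖ / 2) ^ 2 := area_le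
  have ar2 : XX v b u / 2 ≤ (‖b - v‖ / 2) ^ 2 + (‖u - b‖ / 2) ^ 2 := area_le
  rw [XX_cyc] at ar2
  have harea : (1 - D) * (XX u a v / 2 + XX u v b / 2) ≤ (1 - D) * ((‖a - u‖ / 2) ^ 2
      + (‖v - a‖ / 2) ^ 2 + (‖b - v‖ / 2) ^ 2 + (‖u - b‖ / 2) ^ 2) := by
    apply mul_le_mul_of_nonneg_left _ (by linarith : 0 ≤ 1 - D)
    linarith
  unfold gs
  simp only [gg_eq]
  linarith

include hD0 hD1 hM hW hQ in
/-- three exact triangles around a point -/
lemma bound3 {x y z w : ℂ} (hk : 0 ≤ kap D) (h1 : 0 < XX x y w) (h2 : 0 < XX y z w)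
    (h3 : 0 < XX z x w)
    (s1 : Sh x y) (s2 : Sh y z) (s3 : Sh z x) (c1 : 0 ≤ att w x y + att x w z)
    (c2 : 0 ≤ att w y z + att y w x) (c3 : 0 ≤ att w z x + att z w y) :
    -(8 * kap D) ≤ VT D x y w + VT D y z w + VT D z x w + gs D x y + gs D y z + gs D z x := by
  have hX : 0 < XX x y z := by rw [← XX_add x y z w]; linarith
  obtain ⟨n1, n2, n3⟩ := ne_of_XX_pos hX
  have p1 : 0 < ‖y - x‖ := norm_pos_iff.mpr (sub_ne_zero.mpr (Ne.symm n1))
  have p2 : 0 < ‖z - y‖ := norm_pos_iff.mpr (sub_ne_zero.mpr (Ne.symm n2))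
  have p3 : 0 < ‖x - z‖ := norm_pos_iff.mpr (sub_ne_zero.mpr (Ne.symm n3))
  have t1 := s1
  have t2 := s2
  have t3 := s3
  unfold Sh at t1 t2 t3
  -- distances from `w`
  have dx : Sh x w := inside_short h1 h2 h3 s1 s3
  have dy : Sh y w := inside_short h2 h3 h1 s2 s1
  have dz : Sh z w := inside_short h3 h1 h2 s3 s2
  have e1 : gg D (‖y - x‖ / 2) = gs D x y := rfl
  have e2 : gg D (‖z - y‖ / 2) = gs D y z := rfl
  have e3 : gg D (‖x - z‖ / 2) = gs D z x := rfl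
  by_cases b1 : Bad x y w
  · have hb := VT_bad hD0 h1 s1 b1.2.le b1.1.le
    have f1 : gg D (‖w - y‖ / 2) = gs D w y := by rw [gs_symm]; rfl
    have f2 : gg D (‖x - w‖ / 2) = gs D x w := by rw [gs_symm]; rfl
    have hB := bound2 hD0 hD1 hM hW hQ (u := z) (a := x) (v := w) (b := y) h3
      (by rw [← XX_cyc] at h2; exact h2) s3 dx (Sh_symm dy) s2 (by linarith)
    have ev : VT D z w y = VT D y z w := VT_cyc D y z w
    rw [f1, f2, e1] at hb
    rw [ev] at hB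
    linarith
  by_cases b2 : Bad y z w
  · have hb := VT_bad hD0 h2 s2 b2.2.le b2.1.le
    have f1 : gg D (‖w - z‖ / 2) = gs D w z := by rw [gs_symm]; rfl
    have f2 : gg D (‖y - w‖ / 2) = gs D y w := by rw [gs_symm]; rfl
    have hB := bound2 hD0 hD1 hM hW hQ (u := x) (a := y) (v := w) (b := z) h1
      (by rw [← XX_cyc] at h3; exact h3) s1 dy (Sh_symm dz) s3 (by linarith)
    have ev : VT D x w z = VT D z x w := VT_cyc D z x w
    rw [f1, f2, e2] at hb
    rw [ev] at hB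
    linarith
  by_cases b3 : Bad z x w
  · have hb := VT_bad hD0 h3 s3 b3.2.le b3.1.le
    have f1 : gg D (‖w - x‖ / 2) = gs D w x := by rw [gs_symm]; rfl
    have f2 : gg D (‖z - w‖ / 2) = gs D z w := by rw [gs_symm]; rfl
    have hB := bound2 hD0 hD1 hM hW hQ (u := y) (a := z) (v := w) (b := x) h2
      (by rw [← XX_cyc] at h1; exact h1) s2 dz (Sh_symm dx) s1 (by linarith)
    have ev : VT D y w x = VT D x y w := VT_cyc D x y w
    rw [f1, f2, e3] at hb
    rw [ev] at hB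
    linarith
  have q1 := QQ_side hD0 hD1 h1 (not_bad b1)
  have q2 := QQ_side hD0 hD1 h2 (not_bad b2)
  have q3 := QQ_side hD0 hD1 h3 (not_bad b3)
  have k1 : 0 < XX w x y := by rw [← XX_cyc] at h1; rw [← XX_cyc] at h1; exact h1
  have k2 : 0 < XX w y z := by rw [← XX_cyc] at h2; rw [← XX_cyc] at h2; exact h2
  have k3 : 0 < XX w z x := by rw [← XX_cyc] at h3; rw [← XX_cyc] at h3; exact h3
  have r1 := QQ_pair hD0 hD1 k1 c1
  have r2 := QQ_pair hD0 hD1 k2 c2
  have r3 := QQ_pair hD0 hD1 k3 c3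
  have A1 := area_id h1
  have A2 := area_id h2
  have A3 := area_id h3
  have S1 := att_sum h1
  have S2 := att_sum h2
  have S3 := att_sum h3
  have hK := kap_eq D
  have hV1 : VT D x y w = QQ D (‖y - x‖ / 2) (att x y w) + QQ D (‖w - y‖ / 2) (att y w x)
      + QQ D (‖x - w‖ / 2) (att w x y) := rfl
  have hV2 : VT D y z w = QQ D (‖z - y‖ / 2) (att y z w) + QQ D (‖w - z‖ / 2) (att z w y)
      + QQ D (‖y - w‖ / 2) (att w y z) := rfl
  have hV3 : VT D z x w = QQ D (‖x - z‖ / 2) (att z x w) + QQ D (‖w - x‖ / 2) (att x w z)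
      + QQ D (‖z - w‖ / 2) (att w z x) := rfl
  have hK3 : (cc * D - 1) * ((att x y w + att y w x + att w x y) + (att y z w + att z w y
      + att w y z) + (att z x w + att x w z + att w z x)) = 3 * kap D := by
    rw [S1, S2, S3]; linarith
  have hV : -(1 - D) * (XX x y w / 2 + XX y z w / 2 + XX z x w / 2) - 3 * kap D
      ≤ VT D x y w + VT D y z w + VT D z x w := by
    rw [← A1, ← A2, ← A3, ← hK3, hV1, hV2, hV3]; linarith
  have w1 := hW (‖y - x‖ / 2) (by positivity) (by linarith)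
  have w2 := hW (‖z - y‖ / 2) (by positivity) (by linarith)
  have w3 := hW (‖x - z‖ / 2) (by positivity) (by linarith)
  have harea2 : (1 - D) * (XX x y z / 2) ≤ (1 - D) * (‖y - x‖ / 2) ^ 2 / √3
      + (1 - D) * (‖z - y‖ / 2) ^ 2 / √3 + (1 - D) * (‖x - z‖ / 2) ^ 2 / √3 := by
    have := mul_le_mul_of_nonneg_left (area_w (x := x) (y := y) (z := z))
      (by linarith : 0 ≤ 1 - D)
    calc _ ≤ _ := this
      _ = _ := by ring
  rw [← XX_add x y z w] at harea2
  unfold gs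
  simp only [gg_eq]
  linarith

end

end FT58
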