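import Pool.Agent.Lib.MP_49fa77_co.Mi

/-!
# Areas of sectors
-/

namespace FT58

open Real MeasureTheory Set ENNReal

lemma vol_image_mul (w : ℂ) (T : Set ℂ) :
    volume ((fun z => w * z) '' T) = ENNReal.ofReal (‖w‖ ^ 2) * volume T := by
  have h := Measure.addHaar_image_linearMap (volume : Measure ℂ) ((Algebra.lmul ℝ ℂ) w) T
  rw [← Algebra.norm_apply, Algebra.norm_complex_apply, Complex.normSq_eq_norm_sq,
    abs_of_nonneg (by positivity)] at h
  rw [← h]
  rfl

lemma vol_image_affine (c w : ℂ) (T : Set ℂ) :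
    volume ((fun z => c + w * z) '' T) = ENNReal.ofReal (‖w‖ ^ 2) * volume T := by
  rw [← vol_image_mul w T]
  have : (fun z => c + w * z) '' T = (fun z => c + z) '' ((fun z => w * z) '' T) := by
    rw [image_image]
  rw [this, image_add_left, measure_preimage_add]

lemma lintegral_id_Ioc (R : ℝ) (hR : 0 ≤ R) :
    ∫⁻ r in Ioc 0 R, ENNReal.ofReal r = ENNReal.ofReal (R ^ 2 / 2) := by
  rw [← ofReal_integral_eq_lintegral_ofReal]
  · rw [← intervalIntegral.integral_of_le hR, integral_id]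
    simp
  · exact (continuous_id.integrableOn_Icc).mono_set Ioc_subset_Icc_self
  · rw [Filter.EventuallyLE, ae_restrict_iff' measurableSet_Ioc]
    exact Filter.Eventually.of_forall (fun x hx => hx.1.le)

lemma polar_vol (W : Set ℝ) (hW : MeasurableSet W) (hWs : W ⊆ Ioo (-π) π) (R : ℝ → ℝ)
    (hR : Measurable R) (hR0 : ∀ θ, 0 ≤ R θ) :
    volume {z : ℂ | z ≠ 0 ∧ Complex.arg z ∈ W ∧ ‖z‖ ≤ R (Complex.arg z)}
      = ∫⁻ θ in W, ENNReal.ofReal (R θ ^ 2 / 2) := by
  set s := {z : ℂ | z ≠ 0 ∧ Complex.arg z ∈ W ∧ ‖z‖ ≤ R (Complex.arg z)} with hs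
  have hsm : MeasurableSet s := by
    apply MeasurableSet.inter (measurableSet_singleton (0:ℂ)).compl
    apply MeasurableSet.inter (Complex.measurable_arg hW)
    exact measurableSet_le measurable_norm (hR.comp Complex.measurable_arg)
  rw [← lintegral_indicator_one hsm, ← Complex.lintegral_comp_polarCoord_symm]
  have hpt : polarCoord.target = Ioi (0 : ℝ) ×ˢ Ioo (-π) π := rfl
  have hmeas : MeasurableSet polarCoord.target := by
    rw [hpt]; exact measurableSet_Ioi.prod measurableSet_Ioo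
  -- rewrite the integrand
  set B : Set (ℝ × ℝ) := {p | p.2 ∈ W ∧ 0 < p.1 ∧ p.1 ≤ R p.2} with hB
  have hBm : MeasurableSet B := by
    apply MeasurableSet.inter (measurable_snd hW)
    apply MeasurableSet.inter (measurableSet_lt measurable_const measurable_fst)
    exact measurableSet_le measurable_fst (hR.comp measurable_snd)
  have e1 : (∫⁻ p in polarCoord.target, ENNReal.ofReal p.1 •
      s.indicator (1 : ℂ → ℝ≥0∞) (Complex.polarCoord.symm p))
      = ∫⁻ p : ℝ × ℝ, B.indicator (fun p => ENNReal.ofReal p.1) p := by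
    rw [← lintegral_indicator hmeas]
    apply lintegral_congr
    intro p
    by_cases hp : p ∈ polarCoord.target
    · rw [indicator_of_mem hp]
      rw [hpt] at hp
      have h1 : 0 < p.1 := hp.1
      have h2 : p.2 ∈ Ioo (-π) π := hp.2
      have h3 : ‖Complex.polarCoord.symm p‖ = p.1 := by
        rw [Complex.norm_polarCoord_symm, abs_of_pos h1]
      have h4 : Complex.arg (Complex.polarCoord.symm p) = p.2 := by
        rw [Complex.polarCoord_symm_apply]
        have := Complex.arg_mul_cos_add_sin_mul_I h1 (θ := p.2) ⟨h2.1, h2.2.le⟩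
        simpa using this
      have h5 : Complex.polarCoord.symm p ≠ 0 := by
        rw [← norm_pos_iff, h3]; exact h1
      by_cases hB' : p ∈ B
      · rw [indicator_of_mem hB', indicator_of_mem]
        · simp
        · refine ⟨h5, ?_, ?_⟩
          · rw [h4]; exact hB'.1
          · rw [h3, h4]; exact hB'.2.2
      · rw [indicator_of_notMem hB', indicator_of_notMem]
        · simp
        · intro hcon
          apply hB'
          refine ⟨?_, h1, ?_⟩
          · rw [← h4]; exact hcon.2.1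
          · have := hcon.2.2
            rw [h3, h4] at this; exact this
    · rw [indicator_of_notMem hp, indicator_of_notMem]
      intro hcon
      apply hp
      rw [hpt]
      exact ⟨hcon.2.1, hWs hcon.1⟩
  rw [e1]
  have hmf : Measurable (B.indicator (fun p : ℝ × ℝ => ENNReal.ofReal p.1)) :=
    (ENNReal.measurable_ofReal.comp measurable_fst).indicator hBm
  have hvol : (volume : Measure (ℝ × ℝ)) = (volume : Measure ℝ).prod volume := rfl
  rw [hvol, lintegral_prod_symm _ hmf.aemeasurable, ← lintegral_indicator hW]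
  apply lintegral_congr
  intro θ
  by_cases hθ : θ ∈ W
  · rw [indicator_of_mem hθ, ← lintegral_id_Ioc _ (hR0 θ), ← lintegral_indicator measurableSet_Ioc]
    apply lintegral_congr
    intro r
    by_cases hr : r ∈ Ioc 0 (R θ)
    · rw [indicator_of_mem hr, indicator_of_mem]
      exact ⟨hθ, hr.1, hr.2⟩
    · rw [indicator_of_notMem hr, indicator_of_notMem]
      intro hcon
      exact hr ⟨hcon.2.1, hcon.2.2⟩
  · rw [indicator_of_notMem hθ]
    have : ∀ r : ℝ, B.indicator (fun p : ℝ × ℝ => ENNReal.ofReal p.1) (r, θ) = 0 := by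
      intro r
      rw [indicator_of_notMem]
      intro hcon
      exact hθ hcon.1
    simp [this]

lemma lintegral_arc {α β : ℝ} (hαβ : α ≤ β) {W : Set ℝ} (h1 : Ioo α β ⊆ W) (h2 : W ⊆ Icc α β)
    {g : ℝ → ℝ} (hg : Continuous g) (hg0 : ∀ θ, 0 ≤ g θ) :
    ∫⁻ θ in W, ENNReal.ofReal (g θ) = ENNReal.ofReal (∫ θ in α..β, g θ) := by
  have hW : W =ᵐ[volume] Ioc α β := by
    have e1 : (Ioo α β : Set ℝ) =ᵐ[volume] Icc α β := Ioo_ae_eq_Icc
    have e2 : (Ioo α β : Set ℝ) =ᵐ[volume] Ioc α β := Ioo_ae_eq_Ioc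
    refine Filter.EventuallyEq.trans ?_ e2
    filter_upwards [e1] with x hx
    have hx' : (x ∈ Ioo α β) = (x ∈ Icc α β) := hx
    show (x ∈ W) = (x ∈ Ioo α β)
    apply propext
    constructor
    · intro h
      rw [hx']; exact h2 h
    · intro h; exact h1 h
  rw [setLIntegral_congr hW, ← ofReal_integral_eq_lintegral_ofReal, intervalIntegral.integral_of_le hαβ]
  · exact (hg.integrableOn_Icc).mono_set Ioc_subset_Icc_self
  · exact Filter.Eventually.of_forall (fun x => hg0 x)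

lemma re_pos_arg {z : ℂ} (h : 0 < z.re) : -(π / 2) < Complex.arg z ∧ Complex.arg z < π / 2 := by
  have := (Complex.abs_arg_lt_pi_div_two_iff).mpr (Or.inl h)
  rw [abs_lt] at this
  exact this

lemma re_eq_norm_cos (z : ℂ) : z.re = ‖z‖ * cos (Complex.arg z) := (Complex.norm_mul_cos_arg z).symm

lemma re_pos_of_arg {z : ℂ} (hz : z ≠ 0) (h : -(π / 2) < Complex.arg z)
    (h' : Complex.arg z < π / 2) : 0 < z.re := by
  rw [re_eq_norm_cos]
  exact mul_pos (norm_pos_iff.mpr hz) (cos_pos_of_mem_Ioo ⟨h, h'⟩)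

/-- Area of a truncated triangular sector. -/
lemma sector_vol {a b α β : ℝ} (ha : 0 < a) (hb : 0 < b) (hα : -(π / 2) ≤ α) (hβ : β ≤ π / 2)
    (hαβ : α ≤ β) :
    volume {z : ℂ | 0 < z.re ∧ (α ≤ Complex.arg z ∧ Complex.arg z ≤ β) ∧ z.re ≤ 1 ∧ a * ‖z‖ ≤ b}
      = ENNReal.ofReal ((Mi a (b ^ 2) β - Mi a (b ^ 2) α) / (2 * a ^ 2)) := by
  set W : Set ℝ := Icc α β ∩ Ioo (-(π / 2)) (π / 2) with hW
  have hWm : MeasurableSet W := measurableSet_Icc.inter measurableSet_Ioo
  have hWs : W ⊆ Ioo (-π) π := by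
    intro x hx
    exact ⟨by linarith [hx.2.1, pi_pos], by linarith [hx.2.2, pi_pos]⟩
  have hb2 : 0 < b ^ 2 := by positivity
  have hRc : Continuous (fun θ => √(mi a (b ^ 2) θ) / a) :=
    ((mi_continuous ha hb2).sqrt).div_const _
  have hR0 : ∀ θ, 0 ≤ √(mi a (b ^ 2) θ) / a := fun θ => by positivity
  have key := polar_vol W hWm hWs (fun θ => √(mi a (b ^ 2) θ) / a) hRc.measurable hR0
  have hset : {z : ℂ | 0 < z.re ∧ (α ≤ Complex.arg z ∧ Complex.arg z ≤ β) ∧ z.re ≤ 1 ∧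
      a * ‖z‖ ≤ b} = {z : ℂ | z ≠ 0 ∧ Complex.arg z ∈ W ∧
        ‖z‖ ≤ √(mi a (b ^ 2) (Complex.arg z)) / a} := by
    ext z
    simp only [mem_ofPred_eq]
    have hmain : 0 < z.re → (‖z‖ ≤ √(mi a (b ^ 2) (Complex.arg z)) / a ↔
        z.re ≤ 1 ∧ a * ‖z‖ ≤ b) := by
      intro hre
      obtain ⟨g1, g2⟩ := re_pos_arg hre
      have hc : 0 < cos (Complex.arg z) := cos_pos_of_mem_Ioo ⟨g1, g2⟩
      have hn : 0 ≤ ‖z‖ := norm_nonneg z
      have hree := re_eq_norm_cos z
      rw [le_div_iff₀ ha, le_sqrt (by positivity) (mi_pos ha hb2).le, mi_eq_min ha hb2 hc.ne', le_min_iff]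
      constructor
      · rintro ⟨u1, u2⟩
        constructor
        · rw [hree]
          rw [le_div_iff₀ (by positivity)] at u1
          have : (‖z‖ * cos (Complex.arg z)) ^ 2 ≤ 1 := by
            have h9 : a ^ 2 * (‖z‖ * cos (Complex.arg z)) ^ 2 ≤ a ^ 2 * 1 := by nlinarith
            exact le_of_mul_le_mul_left h9 (by positivity)
          nlinarith [sq_nonneg (‖z‖ * cos (Complex.arg z) - 1)]
        · rw [mul_comm]
          exact abs_le_of_sq_le_sq' u2 hb.le |>.2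
      · rintro ⟨u1, u2⟩
        constructor
        · rw [le_div_iff₀ (by positivity)]
          have h9 : (‖z‖ * cos (Complex.arg z)) ^ 2 ≤ 1 := by
            rw [← hree]; nlinarith
          nlinarith [sq_nonneg a]
        · rw [mul_comm]; gcongr
    constructor
    · rintro ⟨h1, ⟨h2, h3⟩, h4⟩
      obtain ⟨g1, g2⟩ := re_pos_arg h1
      refine ⟨?_, ⟨⟨h2, h3⟩, ⟨g1, g2⟩⟩, (hmain h1).mpr h4⟩
      rintro rfl
      simp at h1
    · rintro ⟨h1, ⟨⟨h2, h3⟩, ⟨g1, g2⟩⟩, h4⟩
      have h5 := re_pos_of_arg h1 g1 g2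
      exact ⟨h5, ⟨h2, h3⟩, (hmain h5).mp h4⟩
  rw [hset, key]
  rw [lintegral_arc hαβ (W := W) (g := fun θ => (√(mi a (b ^ 2) θ) / a) ^ 2 / 2)]
  · congr 1
    rw [Mi_sub ha hb2]
    have : ∀ θ, (√(mi a (b ^ 2) θ) / a) ^ 2 / 2 = mi a (b ^ 2) θ / (2 * a ^ 2) := by
      intro θ
      rw [div_pow, sq_sqrt (mi_pos ha hb2).le]
      field_simp
    simp only [this]
    rw [intervalIntegral.integral_div]
  · intro x hx
    exact ⟨⟨hx.1.le, hx.2.le⟩, ⟨by linarith [hx.1], by linarith [hx.2]⟩⟩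
  · exact inter_subset_left
  · exact (hRc.pow 2).div_const _
  · intro θ; positivity

/-- Area of a circular sector. -/
lemma disk_sector_vol {a b α β : ℝ} (ha : 0 < a) (hb : 0 < b) (hα : -(π / 2) ≤ α) (hβ : β ≤ π / 2)
    (hαβ : α ≤ β) :
    volume {z : ℂ | 0 < z.re ∧ (α ≤ Complex.arg z ∧ Complex.arg z ≤ β) ∧ a * ‖z‖ ≤ b}
      = ENNReal.ofReal (b ^ 2 * (β - α) / (2 * a ^ 2)) := by
  set W : Set ℝ := Icc α β ∩ Ioo (-(π / 2)) (π / 2) with hW
  have hWm : MeasurableSet W := measurableSet_Icc.inter measurableSet_Ioo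
  have hWs : W ⊆ Ioo (-π) π := by
    intro x hx
    exact ⟨by linarith [hx.2.1, pi_pos], by linarith [hx.2.2, pi_pos]⟩
  have hR0 : ∀ θ : ℝ, 0 ≤ b / a := fun θ => by positivity
  have key := polar_vol W hWm hWs (fun _ => b / a) measurable_const hR0
  have hset : {z : ℂ | 0 < z.re ∧ (α ≤ Complex.arg z ∧ Complex.arg z ≤ β) ∧
      a * ‖z‖ ≤ b} = {z : ℂ | z ≠ 0 ∧ Complex.arg z ∈ W ∧ ‖z‖ ≤ b / a} := by
    ext z
    simp only [mem_ofPred_eq]
    rw [le_div_iff₀ ha, mul_comm ‖z‖ a]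
    constructor
    · rintro ⟨h1, ⟨h2, h3⟩, h4⟩
      obtain ⟨g1, g2⟩ := re_pos_arg h1
      refine ⟨?_, ⟨⟨h2, h3⟩, ⟨g1, g2⟩⟩, h4⟩
      rintro rfl
      simp at h1
    · rintro ⟨h1, ⟨⟨h2, h3⟩, ⟨g1, g2⟩⟩, h4⟩
      exact ⟨re_pos_of_arg h1 g1 g2, ⟨h2, h3⟩, h4⟩
  rw [hset, key]
  rw [lintegral_arc hαβ (W := W) (g := fun _ => (b / a) ^ 2 / 2)]
  · congr 1
    simp
    field_simp
  · intro x hx
    exact ⟨⟨hx.1.le, hx.2.le⟩, ⟨by linarith [hx.1], by linarith [hx.2]⟩⟩
  · exact inter_subset_left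
  · exact continuous_const
  · intro θ; positivity

end FT58
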