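import Pool.Agent.Lib.MP_49fa77_co.Geo
import Pool.Agent.Lib.MP_49fa77_co.Polar

/-!
# The area of a Voronoi cell as a sum over its facets
-/

namespace FT58

open Real MeasureTheory Set ENNReal Metric

/-- The (closed) Voronoi cell of `c`. -/
def Vc (S : Finset ℂ) (c : ℂ) : Set ℂ := {x | ∀ r ∈ S, ‖x - c‖ ≤ ‖x - r‖}

/-- The cone at `c` over the facet towards `q`. -/
def Cone (S : Finset ℂ) (c q : ℂ) : Set ℂ :=
  {x | 0 < dt (x - c) (q - c) ∧
    ∀ r ∈ S, dt (x - c) (r - c) * ‖q - c‖ ^ 2 ≤ dt (x - c) (q - c) * ‖r - c‖ ^ 2}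

/-- The unbounded directions at `c`. -/
def Rst (S : Finset ℂ) (c : ℂ) : Set ℂ := {x | ∀ r ∈ S, dt (x - c) (r - c) ≤ 0}

lemma dt_continuous_left (v : ℂ) : Continuous (fun x => dt x v) := by
  unfold dt
  exact (Complex.continuous_re.mul continuous_const).add (Complex.continuous_im.mul continuous_const)

lemma null_line {v : ℂ} (hv : v ≠ 0) (k : ℝ) : volume {x : ℂ | dt x v = k} = 0 := by
  set L : ℂ →ₗ[ℝ] ℝ := v.re • Complex.reLm + v.im • Complex.imLm with hL
  have hLv : ∀ x, L x = dt x v := by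
    intro x
    simp only [hL, LinearMap.add_apply, LinearMap.smul_apply, Complex.reLm_coe, Complex.imLm_coe,
      smul_eq_mul, dt]
    ring
  have hn : 0 < ‖v‖ ^ 2 := by
    have := norm_pos_iff.mpr hv
    positivity
  have hdv : dt v v = ‖v‖ ^ 2 := by rw [norm_sq_eq]; unfold dt; ring
  have hker : LinearMap.ker L ≠ ⊤ := by
    intro h
    have h1 : v ∈ LinearMap.ker L := by rw [h]; trivial
    rw [LinearMap.mem_ker, hLv, hdv] at h1
    linarith
  set x₀ : ℂ := ((k / ‖v‖ ^ 2 : ℝ) : ℂ) * v with hx0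
  have hset : {x : ℂ | dt x v = k} = (fun x => x + (-x₀)) ⁻¹' (LinearMap.ker L : Set ℂ) := by
    ext x
    simp only [mem_ofPred_eq, mem_preimage, SetLike.mem_coe, LinearMap.mem_ker, hLv]
    have h1 : dt (x + -x₀) v = dt x v - k := by
      have : dt (x + -x₀) v = dt x v - (k / ‖v‖ ^ 2) * dt v v := by
        rw [hx0]
        simp only [dt, Complex.add_re, Complex.add_im, Complex.neg_re, Complex.neg_im,
          Complex.re_ofReal_mul, Complex.im_ofReal_mul]
        ring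
      rw [this, hdv]
      field_simp
    rw [h1]
    constructor <;> intro h <;> linarith
  rw [hset, measure_preimage_add_right]
  exact Measure.addHaar_submodule _ _ hker

lemma I2 (c q r x z : ℂ) (h : x - c = (q - c) / 2 * z) :
    2 * dt (x - c) (r - c) = z.re * (‖r - c‖ ^ 2 - DD c q r) + z.im * XX c q r := by
  rw [h, norm_sq_eq]
  have e1 : ((q - c) / 2 * z).re = ((q.re - c.re) * z.re - (q.im - c.im) * z.im) / 2 := by
    simp [Complex.mul_re, Complex.div_ofNat_re, Complex.div_ofNat_im]; ring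
  have e2 : ((q - c) / 2 * z).im = ((q.re - c.re) * z.im + (q.im - c.im) * z.re) / 2 := by
    simp [Complex.mul_im, Complex.div_ofNat_re, Complex.div_ofNat_im]; ring
  simp only [dt, DD, XX, cr, e1, e2, Complex.sub_re, Complex.sub_im]
  ring

lemma dist_id (c r x : ℂ) :
    ‖x - r‖ ^ 2 = ‖x - c‖ ^ 2 - 2 * dt (x - c) (r - c) + ‖r - c‖ ^ 2 := by
  rw [norm_sq_eq, norm_sq_eq, norm_sq_eq]
  simp only [dt, Complex.sub_re, Complex.sub_im]
  ring

lemma re_coord (c q x z : ℂ) (h : x - c = (q - c) / 2 * z) :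
    2 * dt (x - c) (q - c) = z.re * ‖q - c‖ ^ 2 := by
  rw [I2 c q q x z h, XX_right, DD_right]; ring

/-- the model region -/
def Reg (S : Finset ℂ) (c q : ℂ) : Set ℂ :=
  {z | 0 < z.re ∧ ∀ r ∈ S, z.im * XX c q r ≤ z.re * DD c q r}

lemma mem_Cone_iff {S : Finset ℂ} {c q x z : ℂ} (hcq : c ≠ q) (h : x - c = (q - c) / 2 * z) :
    x ∈ Cone S c q ↔ z ∈ Reg S c q := by
  have hn : 0 < ‖q - c‖ ^ 2 := by
    have : 0 < ‖q - c‖ := norm_pos_iff.mpr (sub_ne_zero.mpr (Ne.symm hcq))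
    positivity
  have h0 := re_coord c q x z h
  unfold Cone Reg
  simp only [mem_ofPred_eq]
  constructor
  · rintro ⟨h1, h2⟩
    have hre : 0 < z.re := by
      by_contra hcon
      push Not at hcon
      nlinarith
    refine ⟨hre, ?_⟩
    intro r hr
    have h3 := h2 r hr
    have h4 := I2 c q r x z h
    have h5 : dt (x - c) (r - c) * ‖q - c‖ ^ 2 ≤ (z.re * ‖r - c‖ ^ 2 / 2) * ‖q - c‖ ^ 2 := by
      calc _ ≤ _ := h3
        _ = _ := by linear_combination ‖r - c‖ ^ 2 / 2 * h0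
    have h6 := le_of_mul_le_mul_right h5 hn
    nlinarith
  · rintro ⟨h1, h2⟩
    have hre : 0 < dt (x - c) (q - c) := by nlinarith [mul_pos h1 hn]
    refine ⟨hre, ?_⟩
    intro r hr
    have h3 := h2 r hr
    have h4 := I2 c q r x z h
    have h6 : dt (x - c) (r - c) ≤ z.re * ‖r - c‖ ^ 2 / 2 := by nlinarith
    calc _ ≤ (z.re * ‖r - c‖ ^ 2 / 2) * ‖q - c‖ ^ 2 := by gcongr
      _ = _ := by linear_combination -(‖r - c‖ ^ 2 / 2) * h0

lemma coord_exists {c q : ℂ} (hcq : c ≠ q) (x : ℂ) : x - c = (q - c) / 2 * (2 * (x - c) / (q - c)) := by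
  have : q - c ≠ 0 := sub_ne_zero.mpr (Ne.symm hcq)
  field_simp

lemma mem_Vc_iff {S : Finset ℂ} {c q x z : ℂ} (hq : q ∈ S) (hcq : c ≠ q)
    (h : x - c = (q - c) / 2 * z) (hz : z ∈ Reg S c q) : x ∈ Vc S c ↔ z.re ≤ 1 := by
  have hn : 0 < ‖q - c‖ ^ 2 := by
    have : 0 < ‖q - c‖ := norm_pos_iff.mpr (sub_ne_zero.mpr (Ne.symm hcq))
    positivity
  have key : ∀ r, ‖x - r‖ ^ 2 - ‖x - c‖ ^ 2 = (1 - z.re) * ‖r - c‖ ^ 2
      + (z.re * DD c q r - z.im * XX c q r) := by
    intro r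
    have h1 := dist_id c r x
    have h2 := I2 c q r x z h
    linarith
  constructor
  · intro hx
    have h1 := hx q hq
    have h2 := key q
    rw [XX_right, DD_right] at h2
    have h3 : ‖x - c‖ ^ 2 ≤ ‖x - q‖ ^ 2 := by gcongr
    by_contra hcon
    push Not at hcon
    nlinarith
  · intro hz1 r hr
    have h2 := key r
    have h3 := hz.2 r hr
    have h4 : 0 ≤ (1 - z.re) * ‖r - c‖ ^ 2 := mul_nonneg (by linarith) (by positivity)
    exact abs_le_of_sq_le_sq' (by linarith) (norm_nonneg _) |>.2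

lemma Rst_subset_Vc (S : Finset ℂ) (c : ℂ) : Rst S c ⊆ Vc S c := by
  intro x hx r hr
  have h1 := hx r hr
  have h2 := dist_id c r x
  exact abs_le_of_sq_le_sq' (by nlinarith [sq_nonneg ‖r - c‖]) (norm_nonneg _) |>.2

lemma cover (S : Finset ℂ) (c : ℂ) (x : ℂ) : x ∈ Rst S c ∨ ∃ q ∈ S.erase c, x ∈ Cone S c q := by
  by_cases hx : x ∈ Rst S c
  · exact Or.inl hx
  right
  unfold Rst at hx
  simp only [mem_ofPred_eq, not_forall, not_le] at hx
  obtain ⟨r₀, hr₀, hpos⟩ := hx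
  have hr0c : r₀ ≠ c := by
    rintro rfl
    simp [dt] at hpos
  have hne : (S.erase c).Nonempty := ⟨r₀, Finset.mem_erase.mpr ⟨hr0c, hr₀⟩⟩
  obtain ⟨q, hq, hmax⟩ := Finset.exists_max_image (S.erase c)
    (fun q => dt (x - c) (q - c) / ‖q - c‖ ^ 2) hne
  refine ⟨q, hq, ?_⟩
  have hn : ∀ r, r ≠ c → 0 < ‖r - c‖ ^ 2 := by
    intro r hr
    have : 0 < ‖r - c‖ := norm_pos_iff.mpr (sub_ne_zero.mpr hr)
    positivity
  rw [Finset.mem_erase] at hq
  have hnq := hn q hq.1
  have h1 := hmax r₀ (Finset.mem_erase.mpr ⟨hr0c, hr₀⟩)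
  have h2 : 0 < dt (x - c) (r₀ - c) / ‖r₀ - c‖ ^ 2 := div_pos hpos (hn r₀ hr0c)
  have h3 : 0 < dt (x - c) (q - c) / ‖q - c‖ ^ 2 := lt_of_lt_of_le h2 h1
  have h4 : 0 < dt (x - c) (q - c) := by
    by_contra hcon
    push Not at hcon
    have := div_nonpos_of_nonpos_of_nonneg hcon hnq.le
    linarith
  refine ⟨h4, ?_⟩
  intro r hr
  by_cases hrc : r = c
  · rw [hrc]; simp [dt]
  · have h5 := hmax r (Finset.mem_erase.mpr ⟨hrc, hr⟩)
    rw [div_le_div_iff₀ (hn r hrc) hnq] at h5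
    exact h5

lemma Cone_disj_Rst {S : Finset ℂ} {c q : ℂ} (hq : q ∈ S) : Disjoint (Cone S c q) (Rst S c) := by
  rw [Set.disjoint_left]
  intro x hx hx'
  have h1 := hx.1
  have h2 := hx' q hq
  linarith

lemma Cone_aedisj {S : Finset ℂ} {c q q' : ℂ} (hq : q ∈ S) (hq' : q' ∈ S) (hc : q ≠ c)
    (hc' : q' ≠ c) (hne : q ≠ q') : AEDisjoint volume (Cone S c q) (Cone S c q') := by
  set v : ℂ := ((‖q - c‖ ^ 2 : ℝ) : ℂ) * (q' - c) - ((‖q' - c‖ ^ 2 : ℝ) : ℂ) * (q - c) with hv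
  have n1 : 0 < ‖q - c‖ := norm_pos_iff.mpr (sub_ne_zero.mpr hc)
  have n2 : 0 < ‖q' - c‖ := norm_pos_iff.mpr (sub_ne_zero.mpr hc')
  have hv0 : v ≠ 0 := by
    intro h0
    have h1 : ((‖q - c‖ ^ 2 : ℝ) : ℂ) * (q' - c) = ((‖q' - c‖ ^ 2 : ℝ) : ℂ) * (q - c) :=
      sub_eq_zero.mp h0
    have h2 : ‖q - c‖ ^ 2 * ‖q' - c‖ = ‖q' - c‖ ^ 2 * ‖q - c‖ := by
      have := congrArg norm h1
      rw [norm_mul, norm_mul, Complex.norm_real, Complex.norm_real] at this
      simpa using this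
    have h3 : ‖q - c‖ = ‖q' - c‖ := by
      have : (‖q - c‖ * ‖q' - c‖) * ‖q - c‖ = (‖q - c‖ * ‖q' - c‖) * ‖q' - c‖ := by
        linear_combination h2
      exact mul_left_cancel₀ (by positivity) this
    rw [h3] at h1
    have h4 : ((‖q' - c‖ ^ 2 : ℝ) : ℂ) ≠ 0 := by
      rw [Complex.ofReal_ne_zero]; positivity
    have h5 := mul_left_cancel₀ h4 h1
    apply hne
    have h6 : q = q' := by linear_combination -h5
    exact h6
  refine measure_mono_null ?_ (null_line hv0 (dt c v))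
  rintro x ⟨hx, hx'⟩
  show dt x v = dt c v
  have e1 := hx.2 q' hq'
  have e2 := hx'.2 q hq
  have e3 : dt x v - dt c v = dt (x - c) (q' - c) * ‖q - c‖ ^ 2
      - dt (x - c) (q - c) * ‖q' - c‖ ^ 2 := by
    rw [hv]
    simp only [dt, Complex.sub_re, Complex.sub_im, Complex.re_ofReal_mul, Complex.im_ofReal_mul]
    ring
  linarith

lemma Cone_meas (S : Finset ℂ) (c q : ℂ) : MeasurableSet (Cone S c q) := by
  have hcont : ∀ v : ℂ, Continuous (fun x => dt (x - c) v) := fun v =>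
    (dt_continuous_left v).comp (continuous_id.sub continuous_const)
  have : Cone S c q = {x : ℂ | 0 < dt (x - c) (q - c)} ∩
      ⋂ r ∈ S, {x : ℂ | dt (x - c) (r - c) * ‖q - c‖ ^ 2 ≤ dt (x - c) (q - c) * ‖r - c‖ ^ 2} := by
    ext x; simp [Cone]
  rw [this]
  apply MeasurableSet.inter
  · exact measurableSet_lt measurable_const (hcont _).measurable
  · apply Finset.measurableSet_biInter
    intro r _
    exact measurableSet_le ((hcont _).mul continuous_const).measurable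
      ((hcont _).mul continuous_const).measurable

lemma Rst_meas (S : Finset ℂ) (c : ℂ) : MeasurableSet (Rst S c) := by
  have hcont : ∀ v : ℂ, Continuous (fun x => dt (x - c) v) := fun v =>
    (dt_continuous_left v).comp (continuous_id.sub continuous_const)
  have : Rst S c = ⋂ r ∈ S, {x : ℂ | dt (x - c) (r - c) ≤ 0} := by
    ext x; simp [Rst]
  rw [this]
  apply Finset.measurableSet_biInter
  intro r _
  exact measurableSet_le (hcont _).measurable measurable_const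

lemma Vc_closed (S : Finset ℂ) (c : ℂ) : IsClosed (Vc S c) := by
  have : Vc S c = ⋂ r ∈ S, {x : ℂ | ‖x - c‖ ≤ ‖x - r‖} := by
    ext x; simp [Vc]
  rw [this]
  apply isClosed_biInter
  intro r _
  exact isClosed_le (continuous_id.sub continuous_const).norm (continuous_id.sub continuous_const).norm

lemma decomp (S : Finset ℂ) (c : ℂ) {T : Set ℂ} (hT : MeasurableSet T) :
    volume T = ∑ q ∈ S.erase c, volume (T ∩ Cone S c q) + volume (T ∩ Rst S c) := by
  have h1 : T = (⋃ q ∈ S.erase c, T ∩ Cone S c q) ∪ (T ∩ Rst S c) := by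
    ext x
    simp only [mem_union, mem_iUnion, mem_inter_iff]
    constructor
    · intro hx
      rcases cover S c x with h | ⟨q, hq, h⟩
      · exact Or.inr ⟨hx, h⟩
      · exact Or.inl ⟨q, hq, hx, h⟩
    · rintro (⟨q, _, hx, _⟩ | ⟨hx, _⟩) <;> exact hx
  have h2 : Disjoint (⋃ q ∈ S.erase c, T ∩ Cone S c q) (T ∩ Rst S c) := by
    rw [Set.disjoint_left]
    intro x hx hx'
    simp only [mem_iUnion] at hx
    obtain ⟨q, hq, _, hxq⟩ := hx
    exact Set.disjoint_left.mp (Cone_disj_Rst (Finset.mem_of_mem_erase hq)) hxq hx'.2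
  have h3 : volume (⋃ q ∈ S.erase c, T ∩ Cone S c q) = ∑ q ∈ S.erase c, volume (T ∩ Cone S c q) := by
    apply measure_biUnion_finset₀
    · intro q hq q' hq' hne
      have hq := Finset.mem_erase.mp (Finset.mem_coe.mp hq)
      have hq' := Finset.mem_erase.mp (Finset.mem_coe.mp hq')
      exact (Cone_aedisj hq.2 hq'.2 hq.1 hq'.1 hne).mono inter_subset_right inter_subset_right
    · intro q _
      exact (hT.inter (Cone_meas S c q)).nullMeasurableSet
  conv_lhs => rw [h1]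
  rw [measure_union h2 (hT.inter (Rst_meas S c)), h3]

end FT58
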