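import Pool.Agent.Lib.MP_49fa77_co.Cell

/-!
# The area of a Voronoi cell as a sum over its facets, continued
-/

namespace FT58

open Real MeasureTheory Set ENNReal Metric

lemma arg_le_iff {z : ℂ} (hz : 0 < z.re) {d X : ℝ} (hX : 0 < X) :
    z.im * X ≤ z.re * d ↔ Complex.arg z ≤ arctan (d / X) := by
  obtain ⟨h1, h2⟩ := re_pos_arg hz
  have h3 : Complex.arg z = arctan (z.im / z.re) := by
    rw [← Complex.tan_arg, arctan_tan h1 h2]
  rw [h3, arctan_strictMono.le_iff_le, div_le_div_iff₀ hz hX]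
  constructor <;> intro h <;> linarith

lemma mem_Reg_iff {S : Finset ℂ} (hG : Gen S) {c q : ℂ} (hc : c ∈ S) (hq : q ∈ S) (hcq : c ≠ q)
    (z : ℂ) : z ∈ Reg S c q ↔ 0 < z.re ∧ (-al S q c ≤ Complex.arg z ∧ Complex.arg z ≤ al S c q) := by
  unfold Reg
  simp only [mem_ofPred_eq]
  constructor
  · rintro ⟨h1, h2⟩
    obtain ⟨g1, g2⟩ := re_pos_arg h1
    refine ⟨h1, ?_, ?_⟩
    · rw [neg_le, le_al_iff]
      refine ⟨by linarith, ?_⟩
      intro r hr hX
      rw [att_swap, neg_le_neg_iff]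
      have hX' : XX c q r < 0 := by rw [XX_swap] at hX; linarith
      have h3 := h2 r hr
      by_contra hcon
      push Not at hcon
      have h4 : ¬ (Complex.arg z ≤ arctan (DD c q r / XX c q r) → False) := by
        intro h; exact h hcon.le
      -- `z.im * (-X) ≥ z.re * (-D)`
      have h5 : Complex.arg z < arctan (-DD c q r / -XX c q r) := by
        rw [neg_div_neg_eq]; exact hcon
      have h6 : ¬ (arctan (-DD c q r / -XX c q r) ≤ Complex.arg z) := not_le.mpr h5
      have h7 : Complex.arg z = arctan (z.im / z.re) := by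
        rw [← Complex.tan_arg, arctan_tan g1 g2]
      rw [h7] at h5
      have h8 := arctan_strictMono.lt_iff_lt.mp h5
      rw [div_lt_div_iff₀ h1 (by linarith)] at h8
      nlinarith
    · rw [le_al_iff]
      refine ⟨g2.le, ?_⟩
      intro r hr hX
      exact (arg_le_iff h1 hX).mp (h2 r hr)
  · rintro ⟨h1, h2, h3⟩
    refine ⟨h1, ?_⟩
    obtain ⟨g1, g2⟩ := re_pos_arg h1
    intro r hr
    rcases lt_trichotomy (XX c q r) 0 with hX | hX | hX
    · have hX' : 0 < XX q c r := by rw [XX_swap]; linarith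
      rw [neg_le, le_al_iff] at h2
      have h4 := h2.2 r hr hX'
      rw [att_swap, neg_le_neg_iff] at h4
      have h7 : Complex.arg z = arctan (z.im / z.re) := by
        rw [← Complex.tan_arg, arctan_tan g1 g2]
      rw [h7] at h4
      have h8 := arctan_strictMono.le_iff_le.mp h4
      rw [← neg_div_neg_eq, div_le_div_iff₀ (by linarith) h1] at h8
      linarith
    · have h4 : r = c ∨ r = q := by
        by_contra hcon
        push Not at hcon
        exact hG.1 c hc q hq r hr hcq (Ne.symm hcon.1) (Ne.symm hcon.2) hX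
      rcases h4 with rfl | rfl
      · rw [XX_left, DD_left]; simp
      · rw [XX_right, DD_right]; simp
    · exact (arg_le_iff h1 hX).mpr ((le_al_iff.mp h3).2 r hr hX)

lemma cone_image {S : Finset ℂ} {c q : ℂ} (hcq : c ≠ q) (P : Set ℂ) (T : Set ℂ)
    (hPT : ∀ z : ℂ, z ∈ Reg S c q → (c + (q - c) / 2 * z ∈ P ↔ z ∈ T)) :
    P ∩ Cone S c q = (fun z => c + (q - c) / 2 * z) '' (T ∩ Reg S c q) := by
  ext x
  constructor
  · rintro ⟨hx, hxc⟩
    have h := coord_exists hcq x
    set z := 2 * (x - c) / (q - c) with hz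
    have hR := (mem_Cone_iff hcq h).mp hxc
    have hxz : x = c + (q - c) / 2 * z := by rw [← h]; ring
    refine ⟨z, ⟨(hPT z hR).mp (by rw [← hxz]; exact hx), hR⟩, hxz.symm⟩
  · rintro ⟨z, ⟨hzT, hzR⟩, rfl⟩
    refine ⟨(hPT z hzR).mpr hzT, ?_⟩
    exact (mem_Cone_iff hcq (by ring)).mpr hzR

lemma norm_half (w : ℂ) : ‖w / 2‖ = ‖w‖ / 2 := by
  rw [norm_div]; simp

/-- area of a cell inside a cone and inside a disk of radius `b`. -/
lemma vol_cell_cone {S : Finset ℂ} (hG : Gen S) {c q : ℂ} (hc : c ∈ S) (hq : q ∈ S) (hcq : c ≠ q)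
    (hE : Ed S c q) {b : ℝ} (hb : 0 < b) :
    volume ((Vc S c ∩ closedBall c b) ∩ Cone S c q) = ENNReal.ofReal
      ((Mi (‖q - c‖ / 2) (b ^ 2) (al S c q) + Mi (‖q - c‖ / 2) (b ^ 2) (al S q c)) / 2) := by
  have ha : 0 < ‖q - c‖ / 2 := by
    have : 0 < ‖q - c‖ := norm_pos_iff.mpr (sub_ne_zero.mpr (Ne.symm hcq))
    positivity
  set a := ‖q - c‖ / 2 with ha'
  have h1 := cone_image (S := S) hcq (Vc S c ∩ closedBall c b) {z : ℂ | z.re ≤ 1 ∧ a * ‖z‖ ≤ b} (by
    intro z hz
    have h2 := mem_Vc_iff (x := c + (q - c) / 2 * z) hq hcq (by ring) hz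
    simp only [mem_inter_iff, mem_ofPred_eq, mem_closedBall, dist_eq_norm]
    rw [h2]
    have : ‖c + (q - c) / 2 * z - c‖ = a * ‖z‖ := by
      rw [add_sub_cancel_left, norm_mul, norm_half]
    rw [this])
  rw [h1, vol_image_affine, norm_half, ← ha']
  have h3 : {z : ℂ | z.re ≤ 1 ∧ a * ‖z‖ ≤ b} ∩ Reg S c q
      = {z : ℂ | 0 < z.re ∧ (-al S q c ≤ Complex.arg z ∧ Complex.arg z ≤ al S c q) ∧
        z.re ≤ 1 ∧ a * ‖z‖ ≤ b} := by
    ext z
    rw [mem_inter_iff, mem_Reg_iff hG hc hq hcq]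
    simp only [mem_ofPred_eq]
    tauto
  unfold Ed at hE
  rw [h3, sector_vol ha hb (by linarith [al_le_half S q c]) (al_le_half S c q) (by linarith),
    ← ENNReal.ofReal_mul (by positivity), Mi_neg]
  congr 1
  field_simp
  ring

/-- area of a sector -/
lemma vol_ball_cone {S : Finset ℂ} (hG : Gen S) {c q : ℂ} (hc : c ∈ S) (hq : q ∈ S) (hcq : c ≠ q)
    (hE : Ed S c q) {b : ℝ} (hb : 0 < b) :
    volume (closedBall c b ∩ Cone S c q) = ENNReal.ofReal (b ^ 2 * (al S c q + al S q c) / 2) := by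
  have ha : 0 < ‖q - c‖ / 2 := by
    have : 0 < ‖q - c‖ := norm_pos_iff.mpr (sub_ne_zero.mpr (Ne.symm hcq))
    positivity
  set a := ‖q - c‖ / 2 with ha'
  have h1 := cone_image (S := S) hcq (closedBall c b) {z : ℂ | a * ‖z‖ ≤ b} (by
    intro z hz
    simp only [mem_ofPred_eq, mem_closedBall, dist_eq_norm]
    have : ‖c + (q - c) / 2 * z - c‖ = a * ‖z‖ := by
      rw [add_sub_cancel_left, norm_mul, norm_half]
    rw [this])
  rw [h1, vol_image_affine, norm_half, ← ha']
  have h3 : {z : ℂ | a * ‖z‖ ≤ b} ∩ Reg S c q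
      = {z : ℂ | 0 < z.re ∧ (-al S q c ≤ Complex.arg z ∧ Complex.arg z ≤ al S c q) ∧
        a * ‖z‖ ≤ b} := by
    ext z
    rw [mem_inter_iff, mem_Reg_iff hG hc hq hcq]
    simp only [mem_ofPred_eq]
    tauto
  unfold Ed at hE
  rw [h3, disk_sector_vol ha hb (by linarith [al_le_half S q c]) (al_le_half S c q) (by linarith),
    ← ENNReal.ofReal_mul (by positivity)]
  congr 1
  field_simp
  ring

lemma vol_cone_null {S : Finset ℂ} (hG : Gen S) {c q : ℂ} (hc : c ∈ S) (hq : q ∈ S) (hcq : c ≠ q)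
    (hE : ¬ Ed S c q) (b : ℝ) : volume (closedBall c b ∩ Cone S c q) = 0 := by
  have ha : 0 < ‖q - c‖ / 2 := by
    have : 0 < ‖q - c‖ := norm_pos_iff.mpr (sub_ne_zero.mpr (Ne.symm hcq))
    positivity
  set a := ‖q - c‖ / 2 with ha'
  set b' := max b 1 with hb'
  have hb'0 : 0 < b' := lt_of_lt_of_le one_pos (le_max_right _ _)
  have h1 := cone_image (S := S) hcq (closedBall c b') {z : ℂ | a * ‖z‖ ≤ b'} (by
    intro z hz
    simp only [mem_ofPred_eq, mem_closedBall, dist_eq_norm]
    have : ‖c + (q - c) / 2 * z - c‖ = a * ‖z‖ := by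
      rw [add_sub_cancel_left, norm_mul, norm_half]
    rw [this])
  have hle : volume (closedBall c b ∩ Cone S c q) ≤ volume (closedBall c b' ∩ Cone S c q) := by
    apply measure_mono
    exact inter_subset_inter_left _ (closedBall_subset_closedBall (le_max_left _ _))
  have h0 : volume (closedBall c b' ∩ Cone S c q) = 0 := by
    rw [h1, vol_image_affine]
    have h3 : {z : ℂ | a * ‖z‖ ≤ b'} ∩ Reg S c q
        ⊆ {z : ℂ | 0 < z.re ∧ (al S c q ≤ Complex.arg z ∧ Complex.arg z ≤ al S c q) ∧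
          a * ‖z‖ ≤ b'} := by
      intro z hz
      rw [mem_inter_iff, mem_Reg_iff hG hc hq hcq] at hz
      obtain ⟨h4, h5, h6, h7⟩ := hz
      unfold Ed at hE
      push Not at hE
      exact ⟨h5, ⟨by linarith, h7⟩, h4⟩
    have h5 : volume {z : ℂ | 0 < z.re ∧ (al S c q ≤ Complex.arg z ∧ Complex.arg z ≤ al S c q) ∧
          a * ‖z‖ ≤ b'} = 0 := by
      rw [disk_sector_vol ha hb'0 (lt_al S c q).le (al_le_half S c q) le_rfl]
      simp
    rw [measure_mono_null h3 h5, mul_zero]
  exact le_antisymm (hle.trans h0.le) bot_le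

lemma vol_rest (S : Finset ℂ) (c : ℂ) {b : ℝ} (hb : 0 < b) :
    volume ((Vc S c ∩ closedBall c b) ∩ Rst S c)
      = ENNReal.ofReal (b ^ 2) * volume (closedBall c 1 ∩ Rst S c) := by
  have h0 : (Vc S c ∩ closedBall c b) ∩ Rst S c = closedBall c b ∩ Rst S c := by
    ext x
    simp only [mem_inter_iff]
    constructor
    · rintro ⟨⟨_, h1⟩, h2⟩; exact ⟨h1, h2⟩
    · rintro ⟨h1, h2⟩; exact ⟨⟨Rst_subset_Vc S c h2, h1⟩, h2⟩
  have h1 : closedBall c b ∩ Rst S c
      = (fun z => (c - (b : ℂ) * c) + (b : ℂ) * z) '' (closedBall c 1 ∩ Rst S c) := by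
    ext x
    have hbc : (b : ℂ) ≠ 0 := by rw [Complex.ofReal_ne_zero]; exact hb.ne'
    constructor
    · rintro ⟨hx, hxr⟩
      refine ⟨c + ((1 / b : ℝ) : ℂ) * (x - c), ⟨?_, ?_⟩, ?_⟩
      · rw [mem_closedBall, dist_eq_norm] at hx ⊢
        rw [add_sub_cancel_left, norm_mul, Complex.norm_real, norm_eq_abs,
          abs_of_pos (by positivity : 0 < 1 / b)]
        rw [div_mul_eq_mul_div, one_mul, div_le_one hb]; exact hx
      · intro r hr
        have h2 := hxr r hr
        have : dt (c + ((1 / b : ℝ) : ℂ) * (x - c) - c) (r - c) = 1 / b * dt (x - c) (r - c) := by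
          rw [add_sub_cancel_left]
          simp only [dt, Complex.re_ofReal_mul, Complex.im_ofReal_mul]; ring
        rw [this]
        have hb1 : 0 < 1 / b := by positivity
        nlinarith
      · simp only
        push_cast
        field_simp
        ring
    · rintro ⟨y, ⟨hy, hyr⟩, rfl⟩
      have e : c - (b : ℂ) * c + (b : ℂ) * y - c = (b : ℂ) * (y - c) := by ring
      refine ⟨?_, ?_⟩
      · rw [mem_closedBall, dist_eq_norm] at hy ⊢
        rw [e, norm_mul, Complex.norm_real, norm_eq_abs, abs_of_pos hb]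
        nlinarith
      · intro r hr
        have h2 := hyr r hr
        rw [e]
        have : dt ((b : ℂ) * (y - c)) (r - c) = b * dt (y - c) (r - c) := by
          simp only [dt, Complex.re_ofReal_mul, Complex.im_ofReal_mul]; ring
        rw [this]
        nlinarith
  rw [h0, h1, vol_image_affine, Complex.norm_real, norm_eq_abs, sq_abs]

/-- the value of a facet end at `c`. -/
noncomputable def QQ (D a ω : ℝ) : ℝ := D * Mi a (4 / 3) ω - Mi a 1 ω - (cc * D - 1) * ω

open Classical in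
/-- The per-center identity. -/
theorem center_identity {S : Finset ℂ} (hG : Gen S) {c : ℂ} (hc : c ∈ S) (D : ℝ) :
    D * (volume (Vc S c ∩ closedBall c (2 / √3))).toReal
      - (volume (Vc S c ∩ closedBall c 1)).toReal - (cc * D - 1) * π
    = ∑ q ∈ S.erase c, (if Ed S c q then
        (QQ D (‖q - c‖ / 2) (al S c q) + QQ D (‖q - c‖ / 2) (al S q c)) / 2 else 0)
      + (D * (4 / 3) - 1 - (cc * D - 1)) * (volume (closedBall c 1 ∩ Rst S c)).toReal := by
  have hρ : (0 : ℝ) < 2 / √3 := by positivity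
  have hρ2 : (2 / √3) ^ 2 = 4 / 3 := by rw [div_pow, sqrt3_sq]; norm_num
  have hVm : ∀ b : ℝ, MeasurableSet (Vc S c ∩ closedBall c b) := fun b =>
    (Vc_closed S c).measurableSet.inter measurableSet_closedBall
  have hfin : ∀ (b : ℝ) (T : Set ℂ), volume (closedBall c b ∩ T) ≠ ⊤ := by
    intro b T
    exact ne_top_of_le_ne_top measure_closedBall_lt_top.ne (measure_mono inter_subset_left)
  have hfin2 : ∀ (b : ℝ) (T : Set ℂ), volume (Vc S c ∩ closedBall c b ∩ T) ≠ ⊤ := by
    intro b T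
    refine ne_top_of_le_ne_top (measure_closedBall_lt_top (x := c) (r := b)).ne (measure_mono ?_)
    exact inter_subset_left.trans inter_subset_right
  -- decompositions
  have d1 := decomp S c (hVm (2 / √3))
  have d2 := decomp S c (hVm 1)
  have d3 := decomp S c (T := closedBall c 1) measurableSet_closedBall
  have r1 := vol_rest S c hρ
  have r2 := vol_rest S c (one_pos : (0 : ℝ) < 1)
  rw [r1, hρ2] at d1
  rw [r2] at d2
  have e1 := congrArg ENNReal.toReal d1
  have e2 := congrArg ENNReal.toReal d2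
  have e3 := congrArg ENNReal.toReal d3
  rw [ENNReal.toReal_add (ENNReal.sum_ne_top.mpr (fun q _ => hfin2 _ _))
    (ENNReal.mul_ne_top ENNReal.ofReal_ne_top (hfin _ _)), ENNReal.toReal_sum (fun q _ => hfin2 _ _),
    ENNReal.toReal_mul, ENNReal.toReal_ofReal (by norm_num)] at e1
  rw [ENNReal.toReal_add (ENNReal.sum_ne_top.mpr (fun q _ => hfin2 _ _))
    (ENNReal.mul_ne_top ENNReal.ofReal_ne_top (hfin _ _)), ENNReal.toReal_sum (fun q _ => hfin2 _ _),
    ENNReal.toReal_mul, ENNReal.toReal_ofReal (by norm_num)] at e2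
  rw [ENNReal.toReal_add (ENNReal.sum_ne_top.mpr (fun q _ => hfin _ _)) (hfin _ _),
    ENNReal.toReal_sum (fun q _ => hfin _ _), Complex.volume_closedBall] at e3
  have hpi : (ENNReal.ofReal 1 ^ 2 * (NNReal.pi : ENNReal)).toReal = π := by
    simp
  rw [hpi] at e3
  rw [e1, e2]
  -- termwise
  have key : ∀ q ∈ S.erase c,
      D * (volume (Vc S c ∩ closedBall c (2 / √3) ∩ Cone S c q)).toReal
        - (volume (Vc S c ∩ closedBall c 1 ∩ Cone S c q)).toReal
        - (cc * D - 1) * (volume (closedBall c 1 ∩ Cone S c q)).toReal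
      = (if Ed S c q then
        (QQ D (‖q - c‖ / 2) (al S c q) + QQ D (‖q - c‖ / 2) (al S q c)) / 2 else 0) := by
    intro q hq
    rw [Finset.mem_erase] at hq
    have hcq : c ≠ q := Ne.symm hq.1
    have ha : 0 < ‖q - c‖ / 2 := by
      have : 0 < ‖q - c‖ := norm_pos_iff.mpr (sub_ne_zero.mpr (Ne.symm hcq))
      positivity
    split_ifs with hE
    · have v1 := vol_cell_cone hG hc hq.2 hcq hE hρ
      have v2 := vol_cell_cone hG hc hq.2 hcq hE (one_pos : (0 : ℝ) < 1)
      have v3 := vol_ball_cone hG hc hq.2 hcq hE (one_pos : (0 : ℝ) < 1)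
      have hmono : ∀ B : ℝ, 0 < B →
          0 ≤ (Mi (‖q - c‖ / 2) B (al S c q) + Mi (‖q - c‖ / 2) B (al S q c)) / 2 := by
        intro B hB
        have h1 : Mi (‖q - c‖ / 2) B (al S c q) - Mi (‖q - c‖ / 2) B (-al S q c)
            = ∫ θ in (-al S q c)..(al S c q), mi (‖q - c‖ / 2) B θ := Mi_sub ha hB _ _
        have h2 : 0 ≤ ∫ θ in (-al S q c)..(al S c q), mi (‖q - c‖ / 2) B θ := by
          apply intervalIntegral.integral_nonneg
          · unfold Ed at hE; linarith
          · intro u _; exact (mi_pos ha hB).le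
        rw [Mi_neg] at h1
        linarith
      rw [v1, v2, v3, hρ2, ENNReal.toReal_ofReal (hmono _ (by norm_num)),
        ENNReal.toReal_ofReal (hmono _ (by norm_num)),
        ENNReal.toReal_ofReal (by unfold Ed at hE; rw [one_pow, one_mul]; linarith)]
      unfold QQ
      rw [one_pow]
      ring
    · have v3 : ∀ b : ℝ, volume (closedBall c b ∩ Cone S c q) = 0 := fun b =>
        vol_cone_null hG hc hq.2 hcq hE b
      have v4 : ∀ b : ℝ, volume (Vc S c ∩ closedBall c b ∩ Cone S c q) = 0 := by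
        intro b
        refine measure_mono_null ?_ (v3 b)
        exact inter_subset_inter_left _ inter_subset_right
      rw [v4, v4, v3]; simp
  rw [← Finset.sum_congr rfl key, Finset.sum_sub_distrib, Finset.sum_sub_distrib,
    ← Finset.mul_sum, ← Finset.mul_sum]
  linear_combination (-(cc * D - 1)) * e3

end FT58
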