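import Pool.Agent.Lib.MP_49fa77_co.Cyc

/-!
# Certificates for closed pentagons
-/

namespace FT58

open Real

lemma four_sq {a b c d p q r s t u v w : ℝ} (ha : 0 ≤ a) (hb : 0 ≤ b) (hc : 0 ≤ c) (hd : 0 ≤ d) :
    0 ≤ a * (p ^ 2 + q ^ 2) + b * (r ^ 2 + s ^ 2) + c * (t ^ 2 + u ^ 2) + d * (v ^ 2 + w ^ 2) := by
  have h1 := mul_nonneg ha (add_nonneg (sq_nonneg p) (sq_nonneg q))
  have h2 := mul_nonneg hb (add_nonneg (sq_nonneg r) (sq_nonneg s))
  have h3 := mul_nonneg hc (add_nonneg (sq_nonneg t) (sq_nonneg u))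
  have h4 := mul_nonneg hd (add_nonneg (sq_nonneg v) (sq_nonneg w))
  linarith

lemma certN (x y z w v : ℂ) : (cr x y + cr y z + cr z w + cr w v + cr v x) / 2
    ≤ 1.3764 * (‖y - x‖ / 2) ^ 2 + 1.3764 * (‖z - y‖ / 2) ^ 2 + 1.3764 * (‖w - z‖ / 2) ^ 2
      + 1.3764 * (‖v - w‖ / 2) ^ 2 + 1.3764 * (‖x - v‖ / 2) ^ 2 := by
  have key : 1.3764 * (‖y - x‖ / 2) ^ 2 + 1.3764 * (‖z - y‖ / 2) ^ 2 + 1.3764 * (‖w - z‖ / 2) ^ 2
      + 1.3764 * (‖v - w‖ / 2) ^ 2 + 1.3764 * (‖x - v‖ / 2) ^ 2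
      - (cr x y + cr y z + cr z w + cr w v + cr v x) / 2
      = (3441/5000) * (((1) * (y.re - x.re) + (1/2) * (z.re - y.re) + (-1250/3441) * (z.im - y.im) + (1/2) * (w.re - z.re) + (-1250/3441) * (w.im - z.im) + (1/2) * (v.re - w.re) + (-1250/3441) * (v.im - w.im)) ^ 2 + ((1) * (y.im - x.im) + (1/2) * (z.im - y.im) + (1250/3441) * (z.re - y.re) + (1/2) * (w.im - z.im) + (1250/3441) * (w.re - z.re) + (1/2) * (v.im - w.im) + (1250/3441) * (v.re - w.re)) ^ 2) +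
        (29271443/68820000) * (((1) * (z.re - y.re) + (5590481/29271443) * (w.re - z.re) + (-17205000/29271443) * (w.im - z.im) + (5590481/29271443) * (v.re - w.re) + (-17205000/29271443) * (v.im - w.im)) ^ 2 + ((1) * (z.im - y.im) + (5590481/29271443) * (w.im - z.im) + (17205000/29271443) * (w.re - z.re) + (5590481/29271443) * (v.im - w.im) + (17205000/29271443) * (v.re - w.re)) ^ 2) +
        (19236845121/73178607500) * (((1) * (w.re - z.re) + (-6909519/22361924) * (v.re - w.re) + (-18294651875/19236845121) * (v.im - w.im)) ^ 2 + ((1) * (w.im - z.im) + (-6909519/22361924) * (v.im - w.im) + (18294651875/19236845121) * (v.re - w.re)) ^ 2) +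
        (3477811361/153894760968000) * (((1) * (v.re - w.re)) ^ 2 + ((1) * (v.im - w.im)) ^ 2) := by
    simp only [div_pow, norm_sq_eq, cr, Complex.sub_re, Complex.sub_im]
    ring
  rw [← sub_nonneg, key]
  exact four_sq (by norm_num) (by norm_num) (by norm_num) (by norm_num)

lemma certC1 (x y z w v : ℂ) : (cr x y + cr y z + cr z w + cr w v + cr v x) / 2
    ≤ 1.33 * (‖y - x‖ / 2) ^ 2 + 1.85 * (‖z - y‖ / 2) ^ 2 + 1.33 * (‖w - z‖ / 2) ^ 2
      + 1 * (‖v - w‖ / 2) ^ 2 + 1 * (‖x - v‖ / 2) ^ 2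
      + 0.43 * (cr (y - x) (w - z) - 0.255 * (‖y - x‖ ^ 2 + ‖w - z‖ ^ 2) / 2) := by
  have key : 1.33 * (‖y - x‖ / 2) ^ 2 + 1.85 * (‖z - y‖ / 2) ^ 2 + 1.33 * (‖w - z‖ / 2) ^ 2
      + 1 * (‖v - w‖ / 2) ^ 2 + 1 * (‖x - v‖ / 2) ^ 2
      + 0.43 * (cr (y - x) (w - z) - 0.255 * (‖y - x‖ ^ 2 + ‖w - z‖ ^ 2) / 2)
      - (cr x y + cr y z + cr z w + cr w v + cr v x) / 2
      = (21107/40000) * (((1) * (y.re - x.re) + (10000/21107) * (z.re - y.re) + (-10000/21107) * (z.im - y.im) + (10000/21107) * (w.re - z.re) + (-1400/21107) * (w.im - z.im) + (10000/21107) * (v.re - w.re) + (-10000/21107) * (v.im - w.im)) ^ 2 + ((1) * (y.im - x.im) + (10000/21107) * (z.im - y.im) + (10000/21107) * (z.re - y.re) + (10000/21107) * (w.im - z.im) + (1400/21107) * (w.re - z.re) + (10000/21107) * (v.im - w.im) + (10000/21107) * (v.re - w.re)) ^ 2) +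
        (803099/1688560) * (((1) * (z.re - y.re) + (194140/803099) * (w.re - z.re) + (-594140/803099) * (w.im - z.im) + (22140/803099) * (v.re - w.re) + (-422140/803099) * (v.im - w.im)) ^ 2 + ((1) * (z.im - y.im) + (194140/803099) * (w.im - z.im) + (594140/803099) * (w.re - z.re) + (22140/803099) * (v.im - w.im) + (422140/803099) * (v.re - w.re)) ^ 2) +
        (3816490593/32123960000) * (((1) * (w.re - z.re) + (-783270000/1272163531) * (v.re - w.re) + (-3128990000/3816490593) * (v.im - w.im)) ^ 2 + ((1) * (w.im - z.im) + (-783270000/1272163531) * (v.im - w.im) + (3128990000/3816490593) * (v.re - w.re)) ^ 2) +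
        (49201613/7632981186) * (((1) * (v.re - w.re)) ^ 2 + ((1) * (v.im - w.im)) ^ 2) := by
    simp only [div_pow, norm_sq_eq, cr, Complex.sub_re, Complex.sub_im]
    ring
  rw [← sub_nonneg, key]
  exact four_sq (by norm_num) (by norm_num) (by norm_num) (by norm_num)

lemma certC3 (x y z w v : ℂ) : (cr x y + cr y z + cr z w + cr w v + cr v x) / 2
    ≤ 1 * (‖y - x‖ / 2) ^ 2 + 1 * (‖z - y‖ / 2) ^ 2 + 1.33 * (‖w - z‖ / 2) ^ 2
      + 1.85 * (‖v - w‖ / 2) ^ 2 + 1.33 * (‖x - v‖ / 2) ^ 2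
      + 0.46 * (cr (y - x) (z - y) - 0.255 * (‖y - x‖ ^ 2 + ‖z - y‖ ^ 2) / 2) := by
  have key : 1 * (‖y - x‖ / 2) ^ 2 + 1 * (‖z - y‖ / 2) ^ 2 + 1.33 * (‖w - z‖ / 2) ^ 2
      + 1.85 * (‖v - w‖ / 2) ^ 2 + 1.33 * (‖x - v‖ / 2) ^ 2
      + 0.46 * (cr (y - x) (z - y) - 0.255 * (‖y - x‖ ^ 2 + ‖z - y‖ ^ 2) / 2)
      - (cr x y + cr y z + cr z w + cr w v + cr v x) / 2
      = (10477/20000) * (((1) * (y.re - x.re) + (6650/10477) * (z.re - y.re) + (-400/10477) * (z.im - y.im) + (6650/10477) * (w.re - z.re) + (-5000/10477) * (w.im - z.im) + (6650/10477) * (v.re - w.re) + (-5000/10477) * (v.im - w.im)) ^ 2 + ((1) * (y.im - x.im) + (6650/10477) * (z.im - y.im) + (400/10477) * (z.re - y.re) + (6650/10477) * (w.im - z.im) + (5000/10477) * (w.re - z.re) + (6650/10477) * (v.im - w.im) + (5000/10477) * (v.re - w.re)) ^ 2) +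
        (65385029/209540000) * (((1) * (z.re - y.re) + (23449550/65385029) * (w.re - z.re) + (-21795000/65385029) * (w.im - z.im) + (23449550/65385029) * (v.re - w.re) + (-21795000/65385029) * (v.im - w.im)) ^ 2 + ((1) * (z.im - y.im) + (23449550/65385029) * (w.im - z.im) + (21795000/65385029) * (w.re - z.re) + (23449550/65385029) * (v.im - w.im) + (21795000/65385029) * (v.re - w.re)) ^ 2) +
        (3397918707/13077005800) * (((1) * (w.re - z.re) + (-1900371443/6795837414) * (v.re - w.re) + (-3269251450/3397918707) * (v.im - w.im)) ^ 2 + ((1) * (w.im - z.im) + (-1900371443/6795837414) * (v.im - w.im) + (3269251450/3397918707) * (v.re - w.re)) ^ 2) +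
        (350630229671/2718334965600) * (((1) * (v.re - w.re)) ^ 2 + ((1) * (v.im - w.im)) ^ 2) := by
    simp only [div_pow, norm_sq_eq, cr, Complex.sub_re, Complex.sub_im]
    ring
  rw [← sub_nonneg, key]
  exact four_sq (by norm_num) (by norm_num) (by norm_num) (by norm_num)

lemma certD1 (x y z w v : ℂ) : (cr x y + cr y z + cr z w + cr w v + cr v x) / 2
    ≤ 1.85 * (‖y - x‖ / 2) ^ 2 + 1 * (‖z - y‖ / 2) ^ 2 + 1.33 * (‖w - z‖ / 2) ^ 2
      + 1.33 * (‖v - w‖ / 2) ^ 2 + 1 * (‖x - v‖ / 2) ^ 2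
      + 0.75 * (dt (z - x) (z - y)) := by
  have key : 1.85 * (‖y - x‖ / 2) ^ 2 + 1 * (‖z - y‖ / 2) ^ 2 + 1.33 * (‖w - z‖ / 2) ^ 2
      + 1.33 * (‖v - w‖ / 2) ^ 2 + 1 * (‖x - v‖ / 2) ^ 2
      + 0.75 * (dt (z - x) (z - y))
      - (cr x y + cr y z + cr z w + cr w v + cr v x) / 2
      = (57/80) * (((1) * (y.re - x.re) + (50/57) * (z.re - y.re) + (-20/57) * (z.im - y.im) + (20/57) * (w.re - z.re) + (-20/57) * (w.im - z.im) + (20/57) * (v.re - w.re) + (-20/57) * (v.im - w.im)) ^ 2 + ((1) * (y.im - x.im) + (50/57) * (z.im - y.im) + (20/57) * (z.re - y.re) + (20/57) * (w.im - z.im) + (20/57) * (w.re - z.re) + (20/57) * (v.im - w.im) + (20/57) * (v.re - w.re)) ^ 2) +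
        (35/57) * (((1) * (z.re - y.re) + (-13/140) * (w.re - z.re) + (-27/140) * (w.im - z.im) + (-13/140) * (v.re - w.re) + (-27/140) * (v.im - w.im)) ^ 2 + ((1) * (z.im - y.im) + (-13/140) * (w.im - z.im) + (27/140) * (w.re - z.re) + (-13/140) * (v.im - w.im) + (27/140) * (v.re - w.re)) ^ 2) +
        (1061/2800) * (((1) * (w.re - z.re) + (130/1061) * (v.re - w.re) + (-700/1061) * (v.im - w.im)) ^ 2 + ((1) * (w.im - z.im) + (130/1061) * (v.im - w.im) + (700/1061) * (v.re - w.re)) ^ 2) +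
        (88403/424400) * (((1) * (v.re - w.re)) ^ 2 + ((1) * (v.im - w.im)) ^ 2) := by
    simp only [div_pow, norm_sq_eq, cr, dt, Complex.sub_re, Complex.sub_im]
    ring
  rw [← sub_nonneg, key]
  exact four_sq (by norm_num) (by norm_num) (by norm_num) (by norm_num)

lemma certD2 (x y z w v : ℂ) : (cr x y + cr y z + cr z w + cr w v + cr v x) / 2
    ≤ 1.85 * (‖y - x‖ / 2) ^ 2 + 1 * (‖z - y‖ / 2) ^ 2 + 1.33 * (‖w - z‖ / 2) ^ 2
      + 1.33 * (‖v - w‖ / 2) ^ 2 + 1 * (‖x - v‖ / 2) ^ 2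
      + 0.79 * (dt (x - v) (y - v)) := by
  have key : 1.85 * (‖y - x‖ / 2) ^ 2 + 1 * (‖z - y‖ / 2) ^ 2 + 1.33 * (‖w - z‖ / 2) ^ 2
      + 1.33 * (‖v - w‖ / 2) ^ 2 + 1 * (‖x - v‖ / 2) ^ 2
      + 0.79 * (dt (x - v) (y - v))
      - (cr x y + cr y z + cr z w + cr w v + cr v x) / 2
      = (57/80) * (((1) * (y.re - x.re) + (86/95) * (z.re - y.re) + (-20/57) * (z.im - y.im) + (86/95) * (w.re - z.re) + (-20/57) * (w.im - z.im) + (86/95) * (v.re - w.re) + (-20/57) * (v.im - w.im)) ^ 2 + ((1) * (y.im - x.im) + (86/95) * (z.im - y.im) + (20/57) * (z.re - y.re) + (86/95) * (w.im - z.im) + (20/57) * (w.re - z.re) + (86/95) * (v.im - w.im) + (20/57) * (v.re - w.re)) ^ 2) +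
        (4406/7125) * (((1) * (z.re - y.re) + (10499/17624) * (w.re - z.re) + (-7125/17624) * (w.im - z.im) + (10499/17624) * (v.re - w.re) + (-7125/17624) * (v.im - w.im)) ^ 2 + ((1) * (z.im - y.im) + (10499/17624) * (w.im - z.im) + (7125/17624) * (w.re - z.re) + (10499/17624) * (v.im - w.im) + (7125/17624) * (v.re - w.re)) ^ 2) +
        (167587/440600) * (((1) * (w.re - z.re) + (6025/47882) * (v.re - w.re) + (-110150/167587) * (v.im - w.im)) ^ 2 + ((1) * (w.im - z.im) + (6025/47882) * (v.im - w.im) + (110150/167587) * (v.re - w.re)) ^ 2) +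
        (28157417/134069600) * (((1) * (v.re - w.re)) ^ 2 + ((1) * (v.im - w.im)) ^ 2) := by
    simp only [div_pow, norm_sq_eq, cr, dt, Complex.sub_re, Complex.sub_im]
    ring
  rw [← sub_nonneg, key]
  exact four_sq (by norm_num) (by norm_num) (by norm_num) (by norm_num)

lemma certD3 (x y z w v : ℂ) : (cr x y + cr y z + cr z w + cr w v + cr v x) / 2
    ≤ 1.85 * (‖y - x‖ / 2) ^ 2 + 1.33 * (‖z - y‖ / 2) ^ 2 + 1.33 * (‖w - z‖ / 2) ^ 2
      + 1 * (‖v - w‖ / 2) ^ 2 + 1 * (‖x - v‖ / 2) ^ 2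
      + 0.65 * (dt (w - x) (w - y)) := by
  have key : 1.85 * (‖y - x‖ / 2) ^ 2 + 1.33 * (‖z - y‖ / 2) ^ 2 + 1.33 * (‖w - z‖ / 2) ^ 2
      + 1 * (‖v - w‖ / 2) ^ 2 + 1 * (‖x - v‖ / 2) ^ 2
      + 0.65 * (dt (w - x) (w - y))
      - (cr x y + cr y z + cr z w + cr w v + cr v x) / 2
      = (57/80) * (((1) * (y.re - x.re) + (46/57) * (z.re - y.re) + (-20/57) * (z.im - y.im) + (46/57) * (w.re - z.re) + (-20/57) * (w.im - z.im) + (20/57) * (v.re - w.re) + (-20/57) * (v.im - w.im)) ^ 2 + ((1) * (y.im - x.im) + (46/57) * (z.im - y.im) + (20/57) * (z.re - y.re) + (46/57) * (w.im - z.im) + (20/57) * (w.re - z.re) + (20/57) * (v.im - w.im) + (20/57) * (v.re - w.re)) ^ 2) +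
        (15521/22800) * (((1) * (z.re - y.re) + (7940/15521) * (w.re - z.re) + (-5700/15521) * (w.im - z.im) + (-900/15521) * (v.re - w.re) + (-3100/15521) * (v.im - w.im)) ^ 2 + ((1) * (z.im - y.im) + (7940/15521) * (w.im - z.im) + (5700/15521) * (w.re - z.re) + (-900/15521) * (v.im - w.im) + (3100/15521) * (v.re - w.re)) ^ 2) +
        (2550313/6208400) * (((1) * (w.re - z.re) + (-429700/2550313) * (v.re - w.re) + (-322300/2550313) * (v.im - w.im)) ^ 2 + ((1) * (w.im - z.im) + (-429700/2550313) * (v.im - w.im) + (322300/2550313) * (v.re - w.re)) ^ 2) +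
        (1412333/5100626) * (((1) * (v.re - w.re)) ^ 2 + ((1) * (v.im - w.im)) ^ 2) := by
    simp only [div_pow, norm_sq_eq, cr, dt, Complex.sub_re, Complex.sub_im]
    ring
  rw [← sub_nonneg, key]
  exact four_sq (by norm_num) (by norm_num) (by norm_num) (by norm_num)

end FT58
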