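import Pool.Agent.Lib.MP_49fa77_co.Lower

/-!
# Chains of unit disks: area, and a lattice packing
-/

namespace FT58

open Real MeasureTheory Set ENNReal Metric Filter

lemma slab_vol {a b : ℝ} (ha : -1 ≤ a) (hab : a ≤ b) (hb : b ≤ 1) :
    volume {z : ℂ | a < z.re ∧ z.re < b ∧ ‖z‖ < 1} = ENNReal.ofReal (Ca b - Ca a) := by
  have hcs : Continuous (fun x : ℝ => √(1 - x ^ 2)) :=
    (continuous_const.sub (continuous_id.pow 2)).sqrt
  have h : {z : ℂ | a < z.re ∧ z.re < b ∧ ‖z‖ < 1} = Complex.measurableEquivRealProd ⁻¹'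
      (regionBetween (fun x => -√(1 - x ^ 2)) (fun x => √(1 - x ^ 2)) (Ioo a b)) := by
    ext z
    simp only [mem_ofPred_eq, regionBetween, mem_preimage, Complex.measurableEquivRealProd_apply,
      mem_Ioo]
    rw [and_assoc]
    refine and_congr_right fun h1 => and_congr_right fun h2 => ?_
    rw [← abs_lt, lt_sqrt (abs_nonneg _), sq_abs, ← sq_lt_one_iff₀ (norm_nonneg z), norm_sq_eq]
    constructor <;> intro h <;> linarith
  rw [h, Complex.volume_preserving_equiv_real_prod.measure_preimage_equiv]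
  have hvol : (volume : Measure (ℝ × ℝ)) = (volume : Measure ℝ).prod volume := rfl
  rw [hvol, volume_regionBetween_eq_integral]
  · congr 1
    rw [← integral_Ioc_eq_integral_Ioo, ← intervalIntegral.integral_of_le hab]
    have : (fun x => √(1 - x ^ 2)) - (fun x => -√(1 - x ^ 2)) = fun x : ℝ => 2 * √(1 - x ^ 2) := by
      ext x; simp only [Pi.sub_apply]; ring
    rw [this]
    apply intervalIntegral.integral_eq_sub_of_hasDerivAt_of_le hab Ca_cont.continuousOn
    · intro x hx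
      exact Ca_hasDeriv (by linarith [hx.1]) (by linarith [hx.2])
    · exact (continuous_const.mul hcs).intervalIntegrable _ _
  · exact (hcs.neg.integrableOn_Icc).mono_set Ioo_subset_Icc_self
  · exact (hcs.integrableOn_Icc).mono_set Ioo_subset_Icc_self
  · exact measurableSet_Ioo
  · intro x _
    have := sqrt_nonneg (1 - x ^ 2)
    show -√(1 - x ^ 2) ≤ √(1 - x ^ 2)
    linarith

lemma Ca_neg (x : ℝ) : Ca (-x) = -Ca x := by
  unfold Ca; rw [arcsin_neg, neg_sq]; ring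

lemma Ca_one : Ca 1 = π / 2 := by
  unfold Ca; rw [arcsin_one]; simp

/-- left end of the `i`th slab -/
noncomputable def lo (a : ℝ) {m : ℕ} (i : Fin (m + 1)) : ℝ := if i = 0 then -1 else -a
/-- right end of the `i`th slab -/
noncomputable def hi (a : ℝ) {m : ℕ} (i : Fin (m + 1)) : ℝ := if i = Fin.last m then 1 else a

lemma sum_slab (a : ℝ) (m : ℕ) :
    ∑ i : Fin (m + 1), (Ca (hi a i) - Ca (lo a i)) = π + 2 * (m : ℝ) * Ca a := by
  rw [Finset.sum_sub_distrib]
  have h1 : ∑ i : Fin (m + 1), Ca (hi a i) = m * Ca a + π / 2 := by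
    rw [Fin.sum_univ_castSucc]
    congr 1
    · have : ∀ i : Fin m, Ca (hi a i.castSucc) = Ca a := by
        intro i
        unfold hi
        rw [if_neg (Fin.castSucc_lt_last i).ne]
      simp [this]
    · unfold hi; rw [if_pos rfl, Ca_one]
  have h2 : ∑ i : Fin (m + 1), Ca (lo a i) = -(π / 2) - m * Ca a := by
    rw [Fin.sum_univ_succ]
    have : ∀ i : Fin m, Ca (lo a i.succ) = - Ca a := by
      intro i
      unfold lo
      rw [if_neg (Fin.succ_ne_zero i), Ca_neg]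
    simp only [this]
    unfold lo
    rw [if_pos rfl, Ca_neg, Ca_one]
    simp
    ring
  rw [h1, h2]; ring

/-- the `i`th slab -/
def slab (s : ℝ) {m : ℕ} (i : Fin (m + 1)) : Set ℂ :=
  {z | lo (s / 2) i < (z - ((i : ℕ) * s : ℝ)).re ∧ (z - ((i : ℕ) * s : ℝ)).re < hi (s / 2) i ∧
    ‖z - ((i : ℕ) * s : ℝ)‖ < 1}

lemma slab_vol' {s : ℝ} (h0 : 0 < s) (h2 : s < 2) {m : ℕ} (i : Fin (m + 1)) :
    volume (slab s i) = ENNReal.ofReal (Ca (hi (s / 2) i) - Ca (lo (s / 2) i)) := by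
  have hlo : -1 ≤ lo (s / 2) i ∧ lo (s / 2) i ≤ 0 := by
    unfold lo; split_ifs <;> constructor <;> linarith
  have hhi : 0 ≤ hi (s / 2) i ∧ hi (s / 2) i ≤ 1 := by
    unfold hi; split_ifs <;> constructor <;> linarith
  rw [← slab_vol hlo.1 (hlo.2.trans hhi.1) hhi.2]
  have : slab s i = (fun z : ℂ => z + -(((i : ℕ) * s : ℝ) : ℂ)) ⁻¹'
      {z : ℂ | lo (s / 2) i < z.re ∧ z.re < hi (s / 2) i ∧ ‖z‖ < 1} := by
    ext z
    simp only [slab, mem_ofPred_eq, mem_preimage, ← sub_eq_add_neg]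
  rw [this, measure_preimage_add_right]

lemma slab_measurable (s : ℝ) {m : ℕ} (i : Fin (m + 1)) : MeasurableSet (slab s i) := by
  have hc : Continuous (fun z : ℂ => z - ((i : ℕ) * s : ℝ)) := continuous_id.sub continuous_const
  refine MeasurableSet.inter ?_ (MeasurableSet.inter ?_ ?_)
  · exact measurableSet_lt measurable_const (Complex.measurable_re.comp hc.measurable)
  · exact measurableSet_lt (Complex.measurable_re.comp hc.measurable) measurable_const
  · exact measurableSet_lt (measurable_norm.comp hc.measurable) measurable_const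

lemma slab_disjoint_aux {s : ℝ} (h0 : 0 < s) {m : ℕ} {i j : Fin (m + 1)} (h : i < j) :
    Disjoint (slab s i) (slab s j) := by
  rw [Set.disjoint_left]
  intro z hz hz'
  have hi1 : hi (s / 2) i = s / 2 := by
    unfold hi; rw [if_neg]; rintro rfl; exact absurd h (not_lt.mpr (Fin.le_last j))
  have hj1 : lo (s / 2) j = -(s / 2) := by
    unfold lo; rw [if_neg]; rintro rfl; exact absurd h (not_lt.mpr (Fin.zero_le i))
  have e1 := hz.2.1
  have e2 := hz'.1
  rw [hi1, Complex.sub_re, Complex.ofReal_re] at e1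
  rw [hj1, Complex.sub_re, Complex.ofReal_re] at e2
  have h3 : ((i : ℕ) : ℝ) + 1 ≤ ((j : ℕ) : ℝ) := by exact_mod_cast (show (i : ℕ) + 1 ≤ (j : ℕ) from h)
  nlinarith

lemma slab_disjoint {s : ℝ} (h0 : 0 < s) {m : ℕ} : Pairwise (Function.onFun Disjoint (fun i : Fin (m + 1) => slab s i)) := by
  intro i j hij
  rcases lt_or_gt_of_ne hij with h | h
  · exact slab_disjoint_aux h0 h
  · exact (slab_disjoint_aux h0 h).symm

/-- lower bound for the area of a chain -/
lemma chain_vol {m : ℕ} {s : ℝ} (h0 : 0 < s) (h2 : s < 2) (p : ℂ) {u : ℂ} (hu : ‖u‖ = 1) :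
    ENNReal.ofReal (π + 2 * (m : ℝ) * Ca (s / 2)) ≤ volume (unitDisks (chain (m + 1) p u s)) := by
  have h3 : volume (⋃ i : Fin (m + 1), slab s i) = ENNReal.ofReal (π + 2 * (m : ℝ) * Ca (s / 2)) := by
    rw [measure_iUnion (slab_disjoint h0) (fun i => slab_measurable s i), tsum_fintype,
      ← sum_slab, ENNReal.ofReal_sum_of_nonneg]
    · exact Finset.sum_congr rfl fun i _ => slab_vol' h0 h2 i
    · intro i _
      have hmono : MonotoneOn Ca (Icc (-1) 1) := by
        apply monotoneOn_of_deriv_nonneg (convex_Icc _ _) Ca_cont.continuousOn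
        · intro x hx
          rw [interior_Icc] at hx
          exact (Ca_hasDeriv hx.1 hx.2).differentiableAt.differentiableWithinAt
        · intro x hx
          rw [interior_Icc] at hx
          rw [(Ca_hasDeriv hx.1 hx.2).deriv]
          positivity
      have hlo : -1 ≤ lo (s / 2) i ∧ lo (s / 2) i ≤ 0 := by
        unfold lo; split_ifs <;> constructor <;> linarith
      have hhi : 0 ≤ hi (s / 2) i ∧ hi (s / 2) i ≤ 1 := by
        unfold hi; split_ifs <;> constructor <;> linarith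
      have := hmono (a := lo (s / 2) i) (b := hi (s / 2) i) ⟨hlo.1, by linarith⟩ ⟨by linarith, hhi.2⟩
        (by linarith)
      linarith
  have h4 := vol_image_affine p u (⋃ i : Fin (m + 1), slab s i)
  rw [hu, h3] at h4
  simp only [one_pow, ENNReal.ofReal_one, one_mul] at h4
  rw [← h4]
  apply measure_mono
  rintro _ ⟨z, hz, rfl⟩
  rw [mem_iUnion] at hz
  obtain ⟨i, hi⟩ := hz
  unfold unitDisks
  rw [mem_iUnion]
  refine ⟨i, ?_⟩
  rw [mem_closedBall, dist_eq_norm]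
  have : p + u * z - chain (m + 1) p u s i = u * (z - ((i : ℕ) * s : ℝ)) := by
    unfold chain; rw [Complex.real_smul]; ring
  rw [this, norm_mul, hu, one_mul]
  exact hi.2.2.le

/-! ### The lattice -/

lemma latA {C S : ℝ} (hCS : C ^ 2 + S ^ 2 = 1) (hC : 0 < C) (hC2 : C ≤ 1 / 2) (x k : ℤ)
    (hx : x ≠ 0) : 4 ≤ (k * (4 * C) + 2 * x * C) ^ 2 + (2 * x * S) ^ 2 := by
  have hS : 3 / 4 ≤ S ^ 2 := by nlinarith
  have e : (k * (4 * C) + 2 * x * C) ^ 2 + (2 * x * S) ^ 2
      = 4 * C ^ 2 * ((2 * k + x) ^ 2 : ℤ) + 4 * ((x ^ 2 : ℤ) : ℝ) * S ^ 2 := by push_cast; ring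
  rw [e]
  rcases (by omega : x = 1 ∨ x = -1 ∨ 2 ≤ x ∨ x ≤ -2) with h | h | h | h
  · subst h
    have h1 : 1 ≤ (2 * k + 1) ^ 2 := by
      have : 2 * k + 1 ≠ 0 := by omega
      have := sq_pos_of_ne_zero this
      omega
    have h2 : (1 : ℝ) ≤ (((2 * k + 1) ^ 2 : ℤ) : ℝ) := by exact_mod_cast h1
    push_cast at h2 ⊢
    nlinarith [sq_nonneg C]
  · subst h
    have h1 : 1 ≤ (2 * k + -1) ^ 2 := by
      have : 2 * k + -1 ≠ 0 := by omega
      have := sq_pos_of_ne_zero this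
      omega
    have h2 : (1 : ℝ) ≤ (((2 * k + -1) ^ 2 : ℤ) : ℝ) := by exact_mod_cast h1
    push_cast at h2 ⊢
    nlinarith [sq_nonneg C]
  · have h1 : 4 ≤ x ^ 2 := by nlinarith
    have h2 : (4 : ℝ) ≤ ((x ^ 2 : ℤ) : ℝ) := by exact_mod_cast h1
    have h3 : (0 : ℝ) ≤ (((2 * k + x) ^ 2 : ℤ) : ℝ) := by exact_mod_cast sq_nonneg (2 * k + x)
    have h4 : 0 ≤ 4 * C ^ 2 * (((2 * k + x) ^ 2 : ℤ) : ℝ) := by positivity
    nlinarith
  · have h1 : 4 ≤ x ^ 2 := by nlinarith
    have h2 : (4 : ℝ) ≤ ((x ^ 2 : ℤ) : ℝ) := by exact_mod_cast h1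
    have h3 : (0 : ℝ) ≤ (((2 * k + x) ^ 2 : ℤ) : ℝ) := by exact_mod_cast sq_nonneg (2 * k + x)
    have h4 : 0 ≤ 4 * C ^ 2 * (((2 * k + x) ^ 2 : ℤ) : ℝ) := by positivity
    nlinarith

lemma latB {C S : ℝ} (hCS : C ^ 2 + S ^ 2 = 1) (hC : 0 < C) (hC2 : C ≤ 1 / 2) (hS : √3 * C ≤ S)
    (x y k : ℤ) (hy : 1 ≤ y) (hk : 0 ≤ k) :
    4 ≤ (k * (4 * C) + 2 * x * C + y * (C + √3 * S)) ^ 2 + (2 * x * S + y * (S - √3 * C)) ^ 2 := by
  have r3 : √3 ^ 2 = 3 := sqrt3_sq
  have r0 := sqrt3_pos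
  have hS0 : 0 < S := lt_of_lt_of_le (by positivity) hS
  have hk' : (0 : ℝ) ≤ k := by exact_mod_cast hk
  have e : (k * (4 * C) + 2 * x * C + y * (C + √3 * S)) ^ 2 + (2 * x * S + y * (S - √3 * C)) ^ 2
      = (2 * x + y + 4 * k * C ^ 2) ^ 2 + (√3 * y + 4 * k * C * S) ^ 2 := by
    linear_combination (C^2*y^2 + S^2*y^2 - y^2) * r3
      + (3*y^2 + (2*x+y)^2 - 16 * k ^ 2 * C ^ 2) * hCS
  rw [e]
  rcases (by omega : y = 1 ∨ 2 ≤ y) with h | h
  · subst h
    push_cast
    have h1 : 3 * C ≤ √3 * S := by nlinarith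
    have h2 : (2 * (x : ℝ) + 1 + 4 * k * C ^ 2) ^ 2 + (√3 * 1 + 4 * k * C * S) ^ 2 - 4
        = 4 * (x * (x + 1) + 2 * k * C ^ 2 * (2 * x + 1) + 2 * k * C * (√3 * S) + 4 * k ^ 2 * C ^ 2) := by
      linear_combination r3 + (16 * k ^ 2 * C ^ 2) * hCS
    have h3 : 2 * k * C * (3 * C) ≤ 2 * k * C * (√3 * S) := by
      apply mul_le_mul_of_nonneg_left h1; positivity
    have h4 : 0 ≤ (x : ℝ) * (x + 1) + 4 * C ^ 2 * (k * (x + 2 + k)) := by
      have hC4 : 4 * C ^ 2 ≤ 1 := by nlinarith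
      have hxx : 0 ≤ x * (x + 1) := by
        rcases (by omega : 0 ≤ x ∨ x ≤ -1) with h | h
        · positivity
        · nlinarith
      have hxx' : (0 : ℝ) ≤ (x : ℝ) * (x + 1) := by exact_mod_cast hxx
      by_cases hc : 0 ≤ x + 2 + k
      · have hc' : (0 : ℝ) ≤ (x : ℝ) + 2 + k := by exact_mod_cast hc
        positivity
      · push Not at hc
        have hneg : k * (x + 2 + k) ≤ 0 := mul_nonpos_of_nonneg_of_nonpos hk hc.le
        have hneg' : (k : ℝ) * (x + 2 + k) ≤ 0 := by exact_mod_cast hneg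
        have hfin : 0 ≤ x * (x + 1) + k * (x + 2 + k) := by nlinarith
        have hfin' : (0 : ℝ) ≤ (x : ℝ) * (x + 1) + k * (x + 2 + k) := by exact_mod_cast hfin
        nlinarith
    nlinarith
  · have hy' : (2 : ℝ) ≤ y := by exact_mod_cast h
    have h1 : 0 ≤ 4 * k * C * S := by positivity
    have h2 : √3 * 2 ≤ √3 * y + 4 * k * C * S := by nlinarith
    have h3 : (√3 * 2) ^ 2 ≤ (√3 * y + 4 * k * C * S) ^ 2 := by gcongr
    nlinarith [sq_nonneg (2 * (x : ℝ) + y + 4 * k * C ^ 2)]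

lemma latAll {C S : ℝ} (hCS : C ^ 2 + S ^ 2 = 1) (hC : 0 < C) (hC2 : C ≤ 1 / 2) (hS : √3 * C ≤ S)
    (x y k : ℤ) (hk1 : 1 ≤ y → 0 ≤ k) (hk2 : y ≤ -1 → k ≤ 0) (hne : y = 0 → x ≠ 0) :
    4 ≤ (k * (4 * C) + 2 * x * C + y * (C + √3 * S)) ^ 2 + (2 * x * S + y * (S - √3 * C)) ^ 2 := by
  rcases (by omega : y = 0 ∨ 1 ≤ y ∨ y ≤ -1) with h | h | h
  · have := latA hCS hC hC2 x k (hne h)
    subst h
    push_cast
    linarith
  · exact latB hCS hC hC2 hS x y k h (hk1 h)
  · have := latB hCS hC hC2 hS (-x) (-y) (-k) (by omega) (by have := hk2 h; omega)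
    push_cast at this
    linarith

/-- The chain of `n` disks with spacing `s` admits a lattice packing of density at least
`chainDensity n s`. -/
theorem chain_density_le {m : ℕ} {s : ℝ} (h0 : 0 < s) (h2 : s < 2) (p : ℂ) {u : ℂ}
    (hu : ‖u‖ = 1) :
    ENNReal.ofReal (gdens (m + 1) (s / 2)) ≤ transDensity (unitDisks (chain (m + 1) p u s)) := by
  set C : ℝ := s / 4 with hC
  set S : ℝ := √(1 - C ^ 2) with hS
  have hC0 : 0 < C := by positivity
  have hC2 : C ≤ 1 / 2 := by rw [hC]; linarith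
  have hS2 : S ^ 2 = 1 - C ^ 2 := sq_sqrt (by nlinarith)
  have hS0 : 0 < S := sqrt_pos.mpr (by nlinarith)
  have hCS : C ^ 2 + S ^ 2 = 1 := by linarith
  have r0 := sqrt3_pos
  have r3 : √3 ^ 2 = 3 := sqrt3_sq
  have hSC : √3 * C ≤ S := by
    apply le_sqrt_of_sq_le
    rw [mul_pow, r3]
    nlinarith
  have hs4 : s = 4 * C := by rw [hC]; ring
  set a : ℂ := ⟨2 * C, 2 * S⟩ with ha
  set b : ℂ := ⟨m * s + (C + √3 * S), S - √3 * C⟩ with hb
  have hAr : Ar (s / 2) = s * S := by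
    unfold Ar
    have : (4 : ℝ) - (s / 2) ^ 2 = 2 ^ 2 * (1 - C ^ 2) := by rw [hC]; ring
    rw [this, sqrt_mul (by norm_num), sqrt_sq (by norm_num)]
    ring
  -- the determinant
  have hdet : (u * a).re * (u * b).im - (u * a).im * (u * b).re
      = -(2 * √3 + 2 * (m : ℝ) * Ar (s / 2)) := by
    have hn : u.re ^ 2 + u.im ^ 2 = 1 := by rw [← norm_sq_eq, hu]; norm_num
    rw [hAr]
    simp only [Complex.mul_re, Complex.mul_im, ha, hb]
    linear_combination (-(2 * √3) * (C ^ 2 + S ^ 2) - 2 * (m : ℝ) * s * S) * hn - 2 * √3 * hCS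
  have hpos : 0 < 2 * √3 + 2 * (m : ℝ) * Ar (s / 2) := by
    rw [hAr]; positivity
  have habs : |(u * a).re * (u * b).im - (u * a).im * (u * b).re|
      = 2 * √3 + 2 * (m : ℝ) * Ar (s / 2) := by
    rw [hdet, abs_neg, abs_of_pos hpos]
  have hCa : 0 ≤ Ca (s / 2) := by
    unfold Ca
    have h4 : 0 ≤ arcsin (s / 2) := arcsin_nonneg.mpr (by positivity)
    positivity
  have hkey := lattice_density (n := m + 1) (c := chain (m + 1) p u s) (a := u * a) (b := u * b)
    (by rw [hdet]; linarith) (by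
      intro q hq i j
      have e : chain (m + 1) p u s i - chain (m + 1) p u s j + lv (u * a) (u * b) q
          = u * ((((i : ℕ) : ℝ) - ((j : ℕ) : ℝ)) * s + q.1 * a + q.2 * b) := by
        unfold chain lv
        rw [Complex.real_smul, Complex.real_smul]
        push_cast
        ring
      rw [e, norm_mul, hu, one_mul]
      set k : ℤ := q.2 * m + ((i : ℕ) - (j : ℕ)) with hk
      have hi := i.2
      have hj := j.2
      have hlat := latAll hCS hC0 hC2 hSC q.1 q.2 k (by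
        intro hy
        have : (m : ℤ) ≤ q.2 * m := by nlinarith
        rw [hk]; omega) (by
        intro hy
        have : q.2 * m ≤ -(m : ℤ) := by nlinarith
        rw [hk]; omega) (by
        intro hy hx
        exact hq (Prod.ext hx hy))
      have hsq : ‖(((((i : ℕ) : ℝ) - ((j : ℕ) : ℝ)) * s + q.1 * a + q.2 * b : ℂ))‖ ^ 2
          = (k * (4 * C) + 2 * q.1 * C + q.2 * (C + √3 * S)) ^ 2
            + (2 * q.1 * S + q.2 * (S - √3 * C)) ^ 2 := by
        rw [norm_sq_eq]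
        congr 2
        · simp [ha, hb, hk, Complex.add_re, Complex.mul_re]
          rw [hs4]; ring
        · simp [ha, hb, Complex.add_im, Complex.mul_im]
          ring
      have h5 : (2 : ℝ) ^ 2 ≤ ‖(((((i : ℕ) : ℝ) - ((j : ℕ) : ℝ)) * s + q.1 * a + q.2 * b : ℂ))‖ ^ 2 := by
        rw [hsq]; linarith
      exact abs_le_of_sq_le_sq' h5 (norm_nonneg _) |>.2)
    (A := π + 2 * (m : ℝ) * Ca (s / 2)) (by positivity) (chain_vol h0 h2 p hu)
  rw [habs] at hkey
  refine le_trans (le_of_eq ?_) hkey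
  unfold gdens
  congr 1
  push_cast
  ring

end FT58
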