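import Pool.Agent.Lib.MP_49fa77_co.Asg

/-!
# Clusters: reduction to a single cluster, and clusters of two and three points
-/

namespace FT58

open Real MeasureTheory Set

/-- half the defect of a cluster point -/
noncomputable def kap (D : ℝ) : ℝ := D * √3 - π / 2

/-- `D A(a) - (half chain strip)` -/
noncomputable def GG (D a : ℝ) : ℝ := D * Ar a - (arcsin a + a * √(1 - a ^ 2))

lemma gg_eq (D a : ℝ) : gg D a = GG D a - kap D := rfl

open Classical in
/-- score of a cluster `P` in `S` -/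
noncomputable def score (D : ℝ) (S P : Finset ℂ) : ℝ :=
  P.card * (2 * kap D) + ∑ c ∈ P, ∑ q ∈ P.erase c, (if Ed S c q then asg D S c q else 0)

lemma Sh_mem {J : Type*} {S : Finset ℂ} {cl : ℂ → J}
    (hsep : ∀ x ∈ S, ∀ y ∈ S, cl x ≠ cl y → 2 ≤ ‖y - x‖) {x y : ℂ} (hx : x ∈ S) (hy : y ∈ S)
    (h : Sh x y) : cl x = cl y := by
  by_contra hne
  have := hsep x hx y hy hne
  unfold Sh at h
  linarith

lemma Ex_mem {J : Type*} {S : Finset ℂ} {cl : ℂ → J}
    (hsep : ∀ x ∈ S, ∀ y ∈ S, cl x ≠ cl y → 2 ≤ ‖y - x‖) {x y : ℂ} (hx : x ∈ S) (hy : y ∈ S)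
    (h : Ex S x y) : cl x = cl y := by
  rcases h with h | ⟨r, r', h1, _, h3, h4, _, _⟩
  · exact Sh_mem hsep hx hy h
  · have hr := h1.2.2.1
    rw [← Sh_mem hsep hr hx h3, ← Sh_mem hsep hr hy h4]

lemma asg_zero {J : Type*} {S : Finset ℂ} {cl : ℂ → J}
    (hsep : ∀ x ∈ S, ∀ y ∈ S, cl x ≠ cl y → 2 ≤ ‖y - x‖) (D : ℝ) {x y : ℂ} (hx : x ∈ S)
    (hy : y ∈ S) (h : cl x ≠ cl y) : asg D S x y = 0 := by
  have h1 : ¬ Xt S x y := by
    rintro ⟨r, _, h2, _⟩
    exact h (Ex_mem hsep hx hy h2)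
  have h2 : ¬ Sh x y := fun h3 => h (Sh_mem hsep hx hy h3)
  unfold asg gv
  rw [if_neg h1, if_neg h2]

open Classical in
/-- The total score is nonnegative as soon as all cluster scores are. -/
theorem cluster_reduction {J : Type*} {D : ℝ} (hD : 0 ≤ D) {S : Finset ℂ} (hG : Gen S)
    {cl : ℂ → J} (hsep : ∀ x ∈ S, ∀ y ∈ S, cl x ≠ cl y → 2 ≤ ‖y - x‖)
    (hcl : ∀ j ∈ S.image cl, 0 ≤ score D S (S.filter (fun x => cl x = j))) :
    0 ≤ ∑ c ∈ S, (D * (volume (Vc S c ∩ Metric.closedBall c (2 / √3))).toReal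
      - (volume (Vc S c ∩ Metric.closedBall c 1)).toReal) := by
  have h1 := total_score hD hG
  refine le_trans ?_ h1
  have h2 : S.card * (2 * √3 * D - π)
      + ∑ c ∈ S, ∑ q ∈ S.erase c, (if Ed S c q then asg D S c q else 0)
      = ∑ j ∈ S.image cl, score D S (S.filter (fun x => cl x = j)) := by
    unfold score
    rw [Finset.sum_add_distrib]
    congr 1
    · rw [← Finset.sum_mul, ← Nat.cast_sum, ← Finset.card_eq_sum_card_image]
      unfold kap
      ring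
    · rw [← Finset.sum_fiberwise_of_maps_to (s := S) (t := S.image cl) (g := cl)
        (fun x hx => Finset.mem_image_of_mem cl hx)]
      apply Finset.sum_congr rfl
      intro j _
      apply Finset.sum_congr rfl
      intro c hc
      rw [Finset.mem_filter] at hc
      symm
      apply Finset.sum_subset
      · intro q hq
        rw [Finset.mem_erase, Finset.mem_filter] at hq
        exact Finset.mem_erase.mpr ⟨hq.1, hq.2.1⟩
      · intro q hq hq'
        rw [Finset.mem_erase] at hq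
        rw [Finset.mem_erase, Finset.mem_filter] at hq'
        have : cl c ≠ cl q := by
          intro h
          exact hq' ⟨hq.1, hq.2, by rw [← h, hc.2]⟩
        rw [asg_zero hsep D hc.1 hq.2 this]
        simp
  rw [h2]
  exact Finset.sum_nonneg hcl

/-- all sides are Delaunay edges and the circumscribed disk is not empty: then a point is inside. -/
lemma inside_of_not_Tr {S : Finset ℂ} (hG : Gen S) {x y z : ℂ} (hx : x ∈ S) (hy : y ∈ S)
    (hz : z ∈ S) (hX : 0 < XX x y z) (h1 : Ed S x y) (h2 : Ed S y z) (h3 : Ed S z x)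
    (hT : ¬ Tr S x y z) : ∃ s ∈ S, s ≠ x ∧ s ≠ y ∧ s ≠ z ∧ 0 < XX x y s ∧ 0 < XX y z s ∧
      0 < XX z x s := by
  have hT' : ∃ s ∈ S, s ≠ x ∧ s ≠ y ∧ s ≠ z ∧ IC x y z s ≤ 0 := by
    by_contra hcon
    push Not at hcon
    exact hT ⟨hx, hy, hz, hX, hcon⟩
  obtain ⟨s, hs, hsx, hsy, hsz, hIC⟩ := hT'
  -- side lemma
  have side : ∀ u v w : ℂ, u ∈ S → v ∈ S → w ∈ S → 0 < XX u v w → Ed S u v → s ≠ u → s ≠ v →
      IC u v w s ≤ 0 → 0 < XX u v s := by
    intro u v w hu hv hw hXw hE hsu hsv hI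
    have huv := (ne_of_XX_pos hXw).1
    rcases lt_trichotomy (XX u v s) 0 with h | h | h
    · exfalso
      have hXs : 0 < XX v u s := by rw [XX_swap]; linarith
      have a1 := al_le_att hw hXw
      have a2 := al_le_att hs hXs
      rw [att_swap] at a2
      unfold Ed at hE
      have a3 : att u v s < att u v w := by linarith
      have a4 : DD u v s / XX u v s < DD u v w / XX u v w := arctan_strictMono.lt_iff_lt.mp a3
      rw [IC_div hXw.ne' h.ne] at hI
      have : 0 < XX u v w * (-XX u v s) * (DD u v w / XX u v w - DD u v s / XX u v s) :=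
        mul_pos (mul_pos hXw (by linarith)) (by linarith)
      nlinarith
    · exact absurd h (hG.1 u hu v hv s hs huv (Ne.symm hsu) (Ne.symm hsv))
    · exact h
  refine ⟨s, hs, hsx, hsy, hsz, ?_, ?_, ?_⟩
  · exact side x y z hx hy hz hX h1 hsx hsy hIC
  · exact side y z x hy hz hx (by rw [XX_cyc]; exact hX) h2 hsy hsz (by rw [IC_cyc]; exact hIC)
  · exact side z x y hz hx hy (by rw [XX_cyc, XX_cyc]; exact hX) h3 hsz hsx
      (by rw [IC_cyc, IC_cyc]; exact hIC)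

lemma XX_add (x y z s : ℂ) : XX x y s + XX y z s + XX z x s = XX x y z := by
  simp only [XX, cr, Complex.sub_re, Complex.sub_im]; ring

lemma bary_id (x y z s : ℂ) :
    XX x y z * (XX y z s * ‖s - x‖ ^ 2 + XX z x s * ‖s - y‖ ^ 2 + XX x y s * ‖s - z‖ ^ 2)
      = XX y z s * XX z x s * ‖y - x‖ ^ 2 + XX z x s * XX x y s * ‖z - y‖ ^ 2
        + XX x y s * XX y z s * ‖x - z‖ ^ 2 := by
  simp only [norm_sq_eq, XX, cr, Complex.sub_re, Complex.sub_im]; ring

/-- A point inside a triangle with short sides is close to a vertex. -/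
lemma inside_close {x y z s : ℂ} (h1 : 0 < XX x y s) (h2 : 0 < XX y z s) (h3 : 0 < XX z x s)
    (s1 : Sh x y) (s2 : Sh y z) (s3 : Sh z x) : Sh x s ∨ Sh y s ∨ Sh z s := by
  by_contra hcon
  unfold Sh at *
  push Not at hcon
  obtain ⟨c1, c2, c3⟩ := hcon
  have hb := bary_id x y z s
  have ha := XX_add x y z s
  have q1 : 4 ≤ ‖s - x‖ ^ 2 := by nlinarith
  have q2 : 4 ≤ ‖s - y‖ ^ 2 := by nlinarith
  have q3 : 4 ≤ ‖s - z‖ ^ 2 := by nlinarith
  have n1 : ‖y - x‖ ^ 2 ≤ 4 := by nlinarith [norm_nonneg (y - x)]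
  have n2 : ‖z - y‖ ^ 2 ≤ 4 := by nlinarith [norm_nonneg (z - y)]
  have n3 : ‖x - z‖ ^ 2 ≤ 4 := by nlinarith [norm_nonneg (x - z)]
  set A := XX y z s
  set B := XX z x s
  set C := XX x y s
  have m1 : A * B * ‖y - x‖ ^ 2 ≤ A * B * 4 := by gcongr
  have m2 : B * C * ‖z - y‖ ^ 2 ≤ B * C * 4 := by gcongr
  have m3 : C * A * ‖x - z‖ ^ 2 ≤ C * A * 4 := by gcongr
  have k1 : A * 4 ≤ A * ‖s - x‖ ^ 2 := by gcongr
  have k2 : B * 4 ≤ B * ‖s - y‖ ^ 2 := by gcongr
  have k3 : C * 4 ≤ C * ‖s - z‖ ^ 2 := by gcongr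
  rw [← ha] at hb
  have k4 : (C + A + B) * (A * 4 + B * 4 + C * 4)
      ≤ (C + A + B) * (A * ‖s - x‖ ^ 2 + B * ‖s - y‖ ^ 2 + C * ‖s - z‖ ^ 2) := by
    gcongr
  nlinarith [mul_pos h1 h2, mul_pos h2 h3, mul_pos h1 h3]

lemma QQ_lower {D a α β : ℝ} (hD0 : 0 ≤ D) (hD1 : D ≤ 1) (ha : 0 < a) (hα : |α| < π / 2)
    (hβ : |β| < π / 2) (hs : 0 ≤ α + β) :
    -(1 - D) * (a ^ 2 * tan α + a ^ 2 * tan β) - (cc * D - 1) * (α + β)
      ≤ QQ D a α + QQ D a β := by
  have h1 : Mi a (4 / 3) α - Mi a (4 / 3) (-β) = ∫ θ in (-β)..α, mi a (4 / 3) θ :=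
    Mi_sub ha (by norm_num) _ _
  have h2 : Mi a 1 α - Mi a 1 (-β) = ∫ θ in (-β)..α, mi a 1 θ := Mi_sub ha (by norm_num) _ _
  have hβ' : |-β| < π / 2 := by rwa [abs_neg]
  have h3 : (∫ θ in (-β)..α, (-(1 - D)) * (a ^ 2 / cos θ ^ 2))
      ≤ ∫ θ in (-β)..α, (D * mi a (4 / 3) θ - mi a 1 θ) := by
    apply intervalIntegral.integral_mono_on (by linarith)
    · exact (sec_intInt hβ' hα).const_mul _
    · exact ((mi_intInt ha (by norm_num) _ _).const_mul _).sub (mi_intInt ha (by norm_num) _ _)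
    · intro θ hθ
      apply mi_key ha hD0 hD1
      have : 0 < cos θ := by
        rw [abs_lt] at hα hβ
        exact cos_pos_of_mem_Ioo ⟨by linarith [hθ.1, hβ.2], by linarith [hθ.2, hα.2]⟩
      exact this.ne'
  rw [intervalIntegral.integral_const_mul, integral_sec hβ' hα,
    intervalIntegral.integral_sub ((mi_intInt ha (by norm_num) _ _).const_mul _)
      (mi_intInt ha (by norm_num) _ _), intervalIntegral.integral_const_mul, ← h1, ← h2,
    Mi_neg, Mi_neg, tan_neg] at h3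
  unfold QQ
  linarith

lemma QQ_zero (D a : ℝ) : QQ D a 0 = 0 := by
  unfold QQ; simp [Mi_zero]

lemma QQ_neg (D a ω : ℝ) : QQ D a (-ω) = -QQ D a ω := by
  unfold QQ; rw [Mi_neg, Mi_neg]; ring

lemma QQ_lower1 {D a α : ℝ} (hD0 : 0 ≤ D) (hD1 : D ≤ 1) (ha : 0 < a) (hα0 : 0 ≤ α)
    (hα : α < π / 2) :
    -(1 - D) * (a ^ 2 * tan α) - (cc * D - 1) * α ≤ QQ D a α := by
  have := QQ_lower (β := 0) hD0 hD1 ha (by rw [abs_of_nonneg hα0]; exact hα)
    (by rw [abs_zero]; positivity) (by linarith)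
  rw [QQ_zero, tan_zero] at this
  linarith

lemma QQ_eq {D a ω : ℝ} (hω : |ω| < π / 2) (h : a ^ 2 ≤ cos ω ^ 2) :
    QQ D a ω = -(1 - D) * (a ^ 2 * tan ω) - (cc * D - 1) * ω := by
  unfold QQ
  rw [Mi_tan (by norm_num) hω (by nlinarith [sq_nonneg (cos ω)]),
    Mi_tan (by norm_num) hω (by linarith)]
  ring

lemma tan_att (c q r : ℂ) : tan (att c q r) = DD c q r / XX c q r := tan_arctan _

lemma area_id {x y z : ℂ} (hX : 0 < XX x y z) :
    (‖y - x‖ / 2) ^ 2 * tan (att x y z) + (‖z - y‖ / 2) ^ 2 * tan (att y z x)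
      + (‖x - z‖ / 2) ^ 2 * tan (att z x y) = XX x y z / 2 := by
  rw [tan_att, tan_att, tan_att]
  have e2 : XX y z x = XX x y z := XX_cyc _ _ _
  have e3 : XX z x y = XX x y z := by rw [XX_cyc, XX_cyc]
  rw [e2, e3]
  have n1 := DD_sum y z x
  have n2 := DD_sum z x y
  have n3 := DD_sum x y z
  rw [div_pow, div_pow, div_pow, norm_sub_rev y x, norm_sub_rev z y, norm_sub_rev x z, ← n1, ← n2,
    ← n3]
  have hp := DD_prod x y z
  field_simp
  linear_combination 2 * hp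

lemma att_sum {x y z : ℂ} (hX : 0 < XX x y z) : att x y z + att y z x + att z x y = π / 2 := by
  have := an_sum hX
  unfold an at this
  linarith

lemma weitz (x y z : ℂ) : 2 * √3 * XX x y z ≤ ‖y - x‖ ^ 2 + ‖z - y‖ ^ 2 + ‖x - z‖ ^ 2 := by
  simp only [norm_sq_eq, XX, cr, Complex.sub_re, Complex.sub_im]
  have h3 := sqrt3_sq
  nlinarith [sq_nonneg ((z.re - x.re) - ((y.re - x.re) - √3 * (y.im - x.im)) / 2),
    sq_nonneg ((z.im - x.im) - ((y.im - x.im) + √3 * (y.re - x.re)) / 2)]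

end FT58
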