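import Pool.Agent.Lib.MP_49fa77_co.Near5

/-!
# The core inequality for five disks
-/

namespace FT58

open Real MeasureTheory Set Filter Topology

/-- the hypotheses on a generic configuration of clusters, with labelled points. -/
structure Lab (c : Fin 5 → ℂ) (δ : ℝ) (S : Finset ℂ) (cl : ℂ → ℂ) (p : ℂ → Fin 5 → ℂ)
    (t : ℂ → ℂ) : Prop where
  gen : Gen S
  ne : S.Nonempty
  sep : ∀ x ∈ S, ∀ y ∈ S, cl x ≠ cl y → 2 ≤ ‖y - x‖
  mem : ∀ x ∈ S, ∀ y, (y ∈ S ∧ cl y = cl x) ↔ ∃ i, y = p (cl x) i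
  inj : ∀ x ∈ S, Function.Injective (p (cl x))
  near : ∀ x ∈ S, ∀ i, ‖p (cl x) i - t (cl x) - c i‖ < δ

/-- relabelled closeness -/
lemma dist_lt_of {c d : Fin 5 → ℂ} {δ : ℝ} (hδ : 0 < δ) (h : ∀ i, ‖d i - c i‖ < δ) :
    dist d c < δ := by
  rw [dist_pi_lt_iff hδ]
  intro i
  rw [dist_eq_norm]; exact h i

section
open Classical

lemma coreB {D : ℝ} (hD : 0.96299 ≤ D) (hD1 : D ≤ 1) {c : Fin 5 → ℂ} {σ : Equiv.Perm (Fin 5)}
    (hs : ∀ i, ‖sl (c ∘ σ) i‖ ≤ 2) (hF : Fc D (c ∘ σ) ≤ 0) :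
    ∃ δ > 0, ∀ S cl p t, Lab c δ S cl p t →
      0 ≤ S.card * (2 * kap D) + sE S (Eg S) (val2 D S) := by
  have hcr := crit_of hD hD1 hs hF
  obtain ⟨δ₁, hδ₁, h1⟩ := Metric.eventually_nhds_iff.mp (Near_ev hcr)
  obtain ⟨δ₂, hδ₂, h2⟩ := Metric.eventually_nhds_iff.mp (Near2_ev hcr)
  refine ⟨min δ₁ δ₂, lt_min hδ₁ hδ₂, ?_⟩
  intro S cl p t h
  have hnear : ∀ x ∈ S, ∀ i, ‖(p (cl x) ∘ σ) i - t (cl x) - (c ∘ σ) i‖ < min δ₁ δ₂ :=
    fun x hx i => h.near x hx (σ i)
  have hk := kap_big hD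
  have hcf : Cf D S cl (fun j => p j ∘ σ) (fun j => S.filter (fun y => cl y = j)) := by
    refine ⟨h.gen, h.sep, ?_, ?_, ?_⟩
    · intro j x; rw [Finset.mem_filter]
    · intro x hx
      refine ⟨⟨Finset.filter_subset _ _, ?_⟩, ?_, ?_, ?_⟩
      · intro s hs' q hq hsh
        rw [Finset.mem_filter] at hq ⊢
        refine ⟨hs', ?_⟩
        by_contra hne
        have := h.sep q hq.1 s hs' (fun e => hne (by rw [← e, hq.2]))
        unfold Sh at hsh
        linarith
      · apply Near_trans (t := t (cl x))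
        apply h1
        apply dist_lt_of hδ₁
        intro i
        exact lt_of_lt_of_le (hnear x hx i) (min_le_left _ _)
      · intro y
        rw [Finset.mem_filter, h.mem x hx y]
        constructor
        · rintro ⟨i, hi⟩
          exact ⟨σ.symm i, by simp [hi]⟩
        · rintro ⟨i, hi⟩
          exact ⟨σ i, hi⟩
      · exact (h.inj x hx).comp σ.injective
    · intro x hx y hy
      apply Near2_trans (t := t (cl x)) (t' := t (cl y))
      apply h2 (y := (_, _))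
      rw [Prod.dist_eq]
      apply max_lt
      · apply dist_lt_of hδ₂
        intro i
        exact lt_of_lt_of_le (hnear x hx i) (min_le_right _ _)
      · apply dist_lt_of hδ₂
        intro i
        exact lt_of_lt_of_le (hnear y hy i) (min_le_right _ _)
  exact hcf.total5 hD hD1 (by linarith) h.ne

/-- distinct points of a labelled cluster are given by a permutation -/
lemma perm_of {d : Fin 5 → ℂ} {x y z w v : ℂ} (hd : [x, y, z, w, v].Nodup)
    (hm : ∀ u ∈ [x, y, z, w, v], ∃ i, u = d i) :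
    ∃ σ : Equiv.Perm (Fin 5), x = d (σ 0) ∧ y = d (σ 1) ∧ z = d (σ 2) ∧ w = d (σ 3) ∧
      v = d (σ 4) := by
  obtain ⟨ix, hx⟩ := hm x (by simp)
  obtain ⟨iy, hy⟩ := hm y (by simp)
  obtain ⟨iz, hz⟩ := hm z (by simp)
  obtain ⟨iw, hw⟩ := hm w (by simp)
  obtain ⟨iv, hv⟩ := hm v (by simp)
  set f : Fin 5 → Fin 5 := ![ix, iy, iz, iw, iv] with hf
  have hl : List.ofFn (fun i => d (f i)) = [x, y, z, w, v] := by
    rw [hx, hy, hz, hw, hv]
    simp [List.ofFn_succ, hf]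
  have hinj : Function.Injective f := by
    have h1 : Function.Injective (fun i => d (f i)) := by
      rw [← List.nodup_ofFn, hl]; exact hd
    intro a b hab
    apply h1
    show d (f a) = d (f b)
    rw [hab]
  have hbij : Function.Bijective f := Finite.injective_iff_bijective.mp hinj
  refine ⟨Equiv.ofBijective f hbij, ?_, ?_, ?_, ?_, ?_⟩
  · exact hx
  · exact hy
  · exact hz
  · exact hw
  · exact hv

lemma coreA {D : ℝ} (hD : 0.96299 ≤ D) (hD1 : D ≤ 1)
    (hM : ∀ a, 0 < a → a < 1 → -(kap D / 4) ≤ GG D a) {c : Fin 5 → ℂ}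
    (hA : ∀ σ : Equiv.Perm (Fin 5), (∃ i, 2 < ‖sl (c ∘ σ) i‖) ∨ 0 < Fc D (c ∘ σ)) :
    ∃ δ > 0, ∀ S cl p t, Lab c δ S cl p t →
      0 ≤ S.card * (2 * kap D) + sE S (Eg S) (val2 D S) := by
  have hcont : ∀ σ : Equiv.Perm (Fin 5), Continuous (fun d : Fin 5 → ℂ => d ∘ σ) := by
    intro σ
    exact continuous_pi fun i => continuous_apply _
  have hev : ∀ᶠ d in 𝓝 c, ∀ σ : Equiv.Perm (Fin 5),
      (∃ i, 2 < ‖sl (d ∘ σ) i‖) ∨ 0 < Fc D (d ∘ σ) := by
    refine eventually_all.mpr fun σ => ?_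
    rcases hA σ with ⟨i, hi⟩ | hi
    · filter_upwards [ev_lt (f := fun _ => (2:ℝ)) (g := fun d : Fin 5 → ℂ => ‖sl (d ∘ σ) i‖)
        continuous_const (((sl_cont i).comp (hcont σ)).norm) hi] with d hd
      exact Or.inl ⟨i, hd⟩
    · filter_upwards [ev_lt (f := fun _ => (0:ℝ)) (g := fun d : Fin 5 → ℂ => Fc D (d ∘ σ))
        continuous_const ((Fc_cont D).comp (hcont σ)) hi] with d hd
      exact Or.inr hd
  obtain ⟨δ, hδ, h1⟩ := Metric.eventually_nhds_iff.mp hev
  refine ⟨δ, hδ, ?_⟩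
  intro S cl p t h
  have hk := kap_big hD
  refine totalA (Q := fun j => S.filter (fun y => cl y = j)) hD hD1 (by linarith) hM h.gen h.sep
    ?_ ?_ ?_
  · intro j x; rw [Finset.mem_filter]
  · intro x hx
    have : S.filter (fun y => cl y = cl x) = Finset.univ.image (p (cl x)) := by
      ext y
      rw [Finset.mem_filter, h.mem x hx y, Finset.mem_image]
      constructor
      · rintro ⟨i, hi⟩; exact ⟨i, Finset.mem_univ _, hi.symm⟩
      · rintro ⟨i, _, hi⟩; exact ⟨i, hi.symm⟩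
    show (S.filter (fun y => cl y = cl x)).card = 5
    rw [this, Finset.card_image_of_injective _ (h.inj x hx)]
    rfl
  · intro s hs x y z w v hd hm s1 s2 s3 s4 s5
    obtain ⟨σ, e1, e2, e3, e4, e5⟩ := perm_of (d := p (cl s)) hd (by
      intro u hu
      have := hm u hu
      rw [Finset.mem_filter] at this
      exact (h.mem s hs u).mp this)
    have hn : dist (fun i => p (cl s) i - t (cl s)) c < δ :=
      dist_lt_of hδ (fun i => h.near s hs i)
    have h2 := h1 hn σ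
    have hcomp : (fun i => p (cl s) i - t (cl s)) ∘ σ = fun i => (p (cl s) ∘ σ) i - t (cl s) := rfl
    rw [hcomp, Fc_trans, sl_trans] at h2
    rcases h2 with ⟨i, hi⟩ | hi
    · exfalso
      unfold Sh at s1 s2 s3 s4 s5
      rw [e1, e2] at s1
      rw [e2, e3] at s2
      rw [e3, e4] at s3
      rw [e4, e5] at s4
      rw [e5, e1] at s5
      unfold sl at hi
      fin_cases i
      · exact absurd hi (not_lt.mpr s1.le)
      · exact absurd hi (not_lt.mpr s2.le)
      · exact absurd hi (not_lt.mpr s3.le)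
      · exact absurd hi (not_lt.mpr s4.le)
      · exact absurd hi (not_lt.mpr s5.le)
    · rw [e1, e2, e3, e4, e5]
      exact hi.le

/-- **Core inequality for `n = 5`.** -/
theorem core5 {D : ℝ} (hD : 0.96299 ≤ D) (hD1 : D ≤ 1)
    (hM : ∀ a, 0 < a → a < 1 → -(kap D / 4) ≤ GG D a) (c : Fin 5 → ℂ) :
    ∃ δ > 0, ∀ S cl p t, Lab c δ S cl p t →
      0 ≤ S.card * (2 * kap D) + sE S (Eg S) (val2 D S) := by
  by_cases h : ∀ σ : Equiv.Perm (Fin 5), (∃ i, 2 < ‖sl (c ∘ σ) i‖) ∨ 0 < Fc D (c ∘ σ)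
  · exact coreA hD hD1 hM h
  · push Not at h
    obtain ⟨σ, h1, h2⟩ := h
    exact coreB hD hD1 h1 h2

end

end FT58
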