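import Pool.Agent.Lib.MP_49fa77_co.Region

/-!
# Counting: the maximal region, Euler's formula and the peeling argument
-/

namespace FT58

open Real MeasureTheory Set Metric

section
open Classical

/-- number of directed pairs with a property -/
noncomputable def nE (P : Finset ℂ) (X : ℂ → ℂ → Prop) : ℕ :=
  ((P ×ˢ P).filter (fun x => X x.1 x.2)).card

lemma sE_one {P : Finset ℂ} {X : ℂ → ℂ → Prop} : sE P X (fun _ _ => 1) = nE P X := by
  unfold sE nE
  rw [Finset.card_filter, Finset.sum_product]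
  push_cast
  rfl

/-- Angles around a point. -/
lemma angle_id {S : Finset ℂ} (hG : Gen S) {c : ℂ} (hc : c ∈ S) :
    π = ∑ q ∈ S.erase c, (if Ed S c q then (al S c q + al S q c) / 2 else 0)
      + (volume (closedBall c 1 ∩ Rst S c)).toReal := by
  have hfin : ∀ (b : ℝ) (T : Set ℂ), volume (closedBall c b ∩ T) ≠ ⊤ := by
    intro b T
    exact ne_top_of_le_ne_top measure_closedBall_lt_top.ne (measure_mono inter_subset_left)
  have d3 := decomp S c (T := closedBall c 1) measurableSet_closedBall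
  have e3 := congrArg ENNReal.toReal d3
  rw [ENNReal.toReal_add (ENNReal.sum_ne_top.mpr (fun q _ => hfin _ _)) (hfin _ _),
    ENNReal.toReal_sum (fun q _ => hfin _ _), Complex.volume_closedBall] at e3
  have hpi : (ENNReal.ofReal 1 ^ 2 * (NNReal.pi : ENNReal)).toReal = π := by
    simp
  rw [hpi] at e3
  rw [e3]
  congr 1
  apply Finset.sum_congr rfl
  intro q hq
  rw [Finset.mem_erase] at hq
  have hcq : c ≠ q := Ne.symm hq.1
  split_ifs with hE
  · have v3 := vol_ball_cone hG hc hq.2 hcq hE (one_pos : (0 : ℝ) < 1)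
    rw [v3, ENNReal.toReal_ofReal (by unfold Ed at hE; rw [one_pow, one_mul]; linarith)]
    ring
  · rw [vol_cone_null hG hc hq.2 hcq hE 1]; simp

/-- The normal cones cover the plane. -/
lemma rst_sum {S : Finset ℂ} (hS : S.Nonempty) :
    π ≤ ∑ c ∈ S, (volume (closedBall c 1 ∩ Rst S c)).toReal := by
  have hfin : ∀ c : ℂ, volume (closedBall c 1 ∩ Rst S c) ≠ ⊤ := by
    intro c
    exact ne_top_of_le_ne_top measure_closedBall_lt_top.ne (measure_mono inter_subset_left)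
  have hsub : closedBall (0 : ℂ) 1 ⊆ ⋃ c ∈ S, (fun x => x + c) ⁻¹' (closedBall c 1 ∩ Rst S c) := by
    intro x hx
    obtain ⟨c, hc, hmax⟩ := Finset.exists_max_image S (fun c => dt x c) hS
    simp only [mem_iUnion]
    refine ⟨c, hc, ?_, ?_⟩
    · rw [mem_closedBall, dist_eq_norm] at hx ⊢
      rw [add_sub_cancel_right]
      simpa using hx
    · intro r hr
      have h1 := hmax r hr
      have : dt (x + c - c) (r - c) = dt x r - dt x c := by
        simp only [dt, Complex.add_re, Complex.add_im, Complex.sub_re, Complex.sub_im]; ring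
      rw [this]
      have : dt x r ≤ dt x c := h1
      linarith
  have h1 : volume (closedBall (0 : ℂ) 1)
      ≤ ∑ c ∈ S, volume (closedBall c 1 ∩ Rst S c) := by
    refine (measure_mono hsub).trans ((measure_biUnion_finset_le _ _).trans ?_)
    apply Finset.sum_le_sum
    intro c _
    rw [measure_preimage_add_right]
  have h2 := ENNReal.toReal_mono (ENNReal.sum_ne_top.mpr (fun c _ => hfin c)) h1
  rw [ENNReal.toReal_sum (fun c _ => hfin c), Complex.volume_closedBall] at h2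
  have hpi : (ENNReal.ofReal 1 ^ 2 * (NNReal.pi : ENNReal)).toReal = π := by
    simp
  rwa [hpi] at h2

/-- Delaunay edges -/
def Eg (S : Finset ℂ) (c q : ℂ) : Prop := c ≠ q ∧ Ed S c q

lemma Eg_symm {S : Finset ℂ} {c q : ℂ} (h : Eg S c q) : Eg S q c := ⟨Ne.symm h.1, Ed_symm h.2⟩

lemma sE_al {P : Finset ℂ} :
    sE P (Eg P) (al P) = ∑ c ∈ P, ∑ q ∈ P.erase c,
      (if Ed P c q then (al P c q + al P q c) / 2 else 0) := by
  have h1 : 2 * sE P (Eg P) (al P) = ∑ c ∈ P, ∑ q ∈ P,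
      (if Eg P c q then (al P c q + al P q c) else 0) := by
    rw [two_mul]
    nth_rewrite 2 [sE_comm]
    unfold sE
    simp only [← Finset.sum_add_distrib]
    refine Finset.sum_congr rfl fun c _ => Finset.sum_congr rfl fun q _ => ?_
    by_cases h : Eg P c q
    · rw [if_pos h, if_pos (Eg_symm h), if_pos h]
    · rw [if_neg h, if_neg (fun h' => h (Eg_symm h')), if_neg h, add_zero]
  have h2 : sE P (Eg P) (al P) = ∑ c ∈ P, ∑ q ∈ P,
      (if Eg P c q then (al P c q + al P q c) / 2 else 0) := by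
    have h3 : ∑ c ∈ P, ∑ q ∈ P, (if Eg P c q then (al P c q + al P q c) else 0)
        = 2 * ∑ c ∈ P, ∑ q ∈ P, (if Eg P c q then (al P c q + al P q c) / 2 else 0) := by
      simp only [Finset.mul_sum]
      refine Finset.sum_congr rfl fun c _ => Finset.sum_congr rfl fun q _ => ?_
      split_ifs <;> ring
    linarith
  rw [h2]
  apply Finset.sum_congr rfl
  intro c hc
  rw [← Finset.sum_erase (s := P) (a := c) (f := fun q => if Eg P c q then (al P c q + al P q c) / 2 else 0)]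
  · apply Finset.sum_congr rfl
    intro q hq
    have hcq : c ≠ q := Ne.symm (Finset.mem_erase.mp hq).1
    by_cases h : Ed P c q
    · rw [if_pos h, if_pos (show Eg P c q from ⟨hcq, h⟩)]
    · rw [if_neg h, if_neg (fun h' : Eg P c q => h h'.2)]
  · rw [if_neg]
    intro h
    exact h.1 rfl

/-- Euler's inequality: angle form. -/
theorem euler_al {P : Finset ℂ} (hG : Gen P) (hP : P.Nonempty) :
    sE P (Eg P) (al P) + π ≤ P.card * π := by
  have h1 : ∑ c ∈ P, π = ∑ c ∈ P, (∑ q ∈ P.erase c, (if Ed P c q then (al P c q + al P q c) / 2 else 0)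
      + (volume (closedBall c 1 ∩ Rst P c)).toReal) :=
    Finset.sum_congr rfl fun c hc => angle_id hG hc
  rw [Finset.sum_add_distrib, ← sE_al, Finset.sum_const, nsmul_eq_mul] at h1
  have h2 := rst_sum hP
  linarith

/-- all Delaunay triangles -/
lemma Fam_Tr (P : Finset ℂ) : Fam P (Tr P) := ⟨fun _ _ _ h => h, fun _ _ _ h => Tr_cyc h⟩

lemma sE_split {P : Finset ℂ} {X Y : ℂ → ℂ → Prop} (f : ℂ → ℂ → ℝ) :
    sE P X f = sE P (fun c q => X c q ∧ Y c q) f + sE P (fun c q => X c q ∧ ¬ Y c q) f := by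
  unfold sE
  simp only [← Finset.sum_add_distrib]
  refine Finset.sum_congr rfl fun c _ => Finset.sum_congr rfl fun q _ => ?_
  by_cases h1 : X c q <;> by_cases h2 : Y c q <;> simp [h1, h2]

lemma sE_congr {P : Finset ℂ} {X Y : ℂ → ℂ → Prop} {f g : ℂ → ℂ → ℝ}
    (h : ∀ c ∈ P, ∀ q ∈ P, (X c q ↔ Y c q)) (h' : ∀ c ∈ P, ∀ q ∈ P, X c q → f c q = g c q) :
    sE P X f = sE P Y g := by
  unfold sE
  refine Finset.sum_congr rfl fun c hc => Finset.sum_congr rfl fun q hq => ?_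
  by_cases h1 : X c q
  · rw [if_pos h1, if_pos ((h c hc q hq).mp h1), h' c hc q hq h1]
  · rw [if_neg h1, if_neg (fun h2 => h1 ((h c hc q hq).mpr h2))]

lemma sE_const {P : Finset ℂ} {X : ℂ → ℂ → Prop} (k : ℝ) :
    sE P X (fun _ _ => k) = k * nE P X := by
  rw [← sE_one]
  unfold sE
  simp only [Finset.mul_sum]
  refine Finset.sum_congr rfl fun c _ => Finset.sum_congr rfl fun q _ => ?_
  split_ifs <;> ring

lemma al_sum {P : Finset ℂ} {c q r : ℂ} (h : Tr P c q r) :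
    al P c q + al P q r + al P r c = π / 2 := by
  obtain ⟨h1, h2, h3⟩ := Tr_al3 h
  have := an_sum (Tr_XX h)
  rw [h1, h2, h3]; linarith

/-- the hull edges -/
def Hl (P : Finset ℂ) (c q : ℂ) : Prop := Eg P c q ∧ ¬ Lf (Tr P) c q

/-- Euler's inequality: counting form. -/
theorem euler_count {P : Finset ℂ} (hG : Gen P) (hP : P.Nonempty) :
    (nE P (Lf (Tr P)) : ℝ) / 3 + nE P (Hl P) + 2 ≤ 2 * P.card := by
  have h0 := euler_al hG hP
  have h1 := sE_split (P := P) (X := Eg P) (Y := Lf (Tr P)) (al P)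
  have h2 : sE P (fun c q => Eg P c q ∧ ¬ Lf (Tr P) c q) (al P) = π / 2 * nE P (Hl P) := by
    rw [← sE_const]
    apply sE_congr
    · intro c _ q _; rfl
    · intro c hc q hq h
      by_contra hne
      have hlt : al P c q < π / 2 := lt_of_le_of_ne (al_le_half P c q) hne
      obtain ⟨r, hr, _⟩ := Tr_of_edge hG hc hq h.1.1 h.1.2 hlt
      exact h.2 ⟨r, hr⟩
  have h3 : sE P (fun c q => Eg P c q ∧ Lf (Tr P) c q) (al P) = sE P (Lf (Tr P)) (al P) := by
    apply sE_congr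
    · intro c _ q _
      constructor
      · exact fun h => h.2
      · rintro ⟨r, hr⟩
        exact ⟨⟨(Tr_ne hr).1, Tr_Ed hr⟩, r, hr⟩
    · intro c _ q _ _; rfl
  have h4 : 3 * sE P (Lf (Tr P)) (al P) = π / 2 * nE P (Lf (Tr P)) := by
    have k1 : sE P (Lf (Tr P)) (al P) = sT P (Tr P) (fun c q _ => al P c q) :=
      (sT_edge (Fam_Tr P) (al P)).symm
    have k2 : sE P (Lf (Tr P)) (fun _ _ => π / 2) = sT P (Tr P) (fun _ _ _ => π / 2) :=
      (sT_edge (Fam_Tr P) (fun _ _ => π / 2)).symm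
    have k3 := sT_avg (P := P) (T := Tr P) (Fam_Tr P).cyc (fun c q _ => al P c q)
    rw [← sE_const, k1, k2, ← k3]
    apply sT_congr
    intro c q r h
    exact al_sum h
  rw [h3, h2] at h1
  have h5 : π / 2 * (nE P (Lf (Tr P)) / 3 + nE P (Hl P) + 2) ≤ π / 2 * (2 * P.card) := by
    nlinarith
  exact le_of_mul_le_mul_left h5 (by positivity)

/-! ### The maximal region -/

/-- the largest region -/
def MX (S P : Finset ℂ) (c q r : ℂ) : Prop := ∃ T, Rg S P T ∧ T c q r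

lemma MX_Rg (S P : Finset ℂ) : Rg S P (MX S P) := by
  refine ⟨⟨?_, ?_⟩, ?_⟩
  · rintro c q r ⟨T, hT, h⟩; exact hT.tr _ _ _ h
  · rintro c q r ⟨T, hT, h⟩; exact ⟨T, hT, hT.cyc _ _ _ h⟩
  · rintro c q r ⟨T, hT, h⟩
    rcases hT.bd _ _ _ h with ⟨s, hs⟩ | h'
    · exact Or.inl ⟨s, T, hT, hs⟩
    · exact Or.inr h'

lemma MX_max {S P : Finset ℂ} {T : ℂ → ℂ → ℂ → Prop} (hT : Rg S P T) {c q r : ℂ} (h : T c q r) :
    MX S P c q r := ⟨T, hT, h⟩

/-- short Delaunay edges of `S` -/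
def Se (S : Finset ℂ) (c q : ℂ) : Prop := c ≠ q ∧ Ed S c q ∧ Sh c q

lemma Se_symm {S : Finset ℂ} {c q : ℂ} (h : Se S c q) : Se S q c :=
  ⟨Ne.symm h.1, Ed_symm h.2.1, Sh_symm h.2.2⟩

/-- a triangle with three short sides is in the maximal region. -/
lemma MX_short {S P : Finset ℂ} (hP : P ⊆ S) {c q r : ℂ} (h : Tr S c q r) (hc : c ∈ P) (hq : q ∈ P)
    (hr : r ∈ P) (h1 : Sh c q) (h2 : Sh q r) (h3 : Sh r c) : MX S P c q r := by
  have hTP := h.mono hP hc hq hr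
  refine ⟨fun x y z => (x = c ∧ y = q ∧ z = r) ∨ (x = q ∧ y = r ∧ z = c) ∨ (x = r ∧ y = c ∧ z = q),
    ⟨⟨?_, ?_⟩, ?_⟩, Or.inl ⟨rfl, rfl, rfl⟩⟩
  · rintro x y z (⟨rfl, rfl, rfl⟩ | ⟨rfl, rfl, rfl⟩ | ⟨rfl, rfl, rfl⟩)
    · exact hTP
    · exact Tr_cyc hTP
    · exact Tr_cyc (Tr_cyc hTP)
  · rintro x y z (⟨rfl, rfl, rfl⟩ | ⟨rfl, rfl, rfl⟩ | ⟨rfl, rfl, rfl⟩)
    · exact Or.inr (Or.inl ⟨rfl, rfl, rfl⟩)
    · exact Or.inr (Or.inr ⟨rfl, rfl, rfl⟩)
    · exact Or.inl ⟨rfl, rfl, rfl⟩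
  · rintro x y z (⟨rfl, rfl, rfl⟩ | ⟨rfl, rfl, rfl⟩ | ⟨rfl, rfl, rfl⟩)
    · exact Or.inr ⟨Tr_Ed h, h1⟩
    · exact Or.inr ⟨Tr_Ed (Tr_cyc h), h2⟩
    · exact Or.inr ⟨Tr_Ed (Tr_cyc (Tr_cyc h)), h3⟩

/-- the removed edges -/
def Rm (S P : Finset ℂ) (c q : ℂ) : Prop := Eg P c q ∧ ¬ Se S c q ∧ ¬ Lf (MX S P) c q

lemma Rm_symm {S P : Finset ℂ} {c q : ℂ} (h : Rm S P c q) : Rm S P q c := by
  refine ⟨Eg_symm h.1, fun h' => h.2.1 (Se_symm h'), ?_⟩
  rintro ⟨r, hr⟩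
  rcases (MX_Rg S P).bd _ _ _ hr with h' | h'
  · exact h.2.2 h'
  · exact h.2.1 (Se_symm ⟨Ne.symm h.1.1, h'⟩)

lemma nE_le {P : Finset ℂ} {X Y : ℂ → ℂ → Prop} (h : ∀ c ∈ P, ∀ q ∈ P, X c q → Y c q) :
    nE P X ≤ nE P Y := by
  unfold nE
  apply Finset.card_le_card
  intro x hx
  rw [Finset.mem_filter, Finset.mem_product] at hx ⊢
  exact ⟨hx.1, h _ hx.1.1 _ hx.1.2 hx.2⟩

/-- Peeling. -/
lemma peel {S P : Finset ℂ} (n : ℕ) : ∀ Y : ℂ → ℂ → ℂ → Prop, Fam P Y →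
    (∀ c q r, Y c q r → ¬ MX S P c q r) → nE P (Lf Y) = n →
    2 * n ≤ 3 * nE P (fun c q => Rm S P c q ∧ (Lf Y c q ∨ Lf Y q c)) := by
  induction n using Nat.strong_induction_on with
  | _ n ih =>
  intro Y hY hdis hn
  rcases Nat.eq_zero_or_pos n with h0 | h0
  · omega
  -- `Y` is nonempty
  obtain ⟨⟨c0, q0⟩, h0⟩ : ((P ×ˢ P).filter (fun x => Lf Y x.1 x.2)).Nonempty := by
    rw [← Finset.card_pos]
    have : nE P (Lf Y) = ((P ×ˢ P).filter (fun x => Lf Y x.1 x.2)).card := rfl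
    omega
  rw [Finset.mem_filter] at h0
  obtain ⟨r0, hr0⟩ := h0.2
  simp only at hr0
  -- find a good edge
  have hex : ∃ c q r, Y c q r ∧ Rm S P c q ∧ ¬ Lf Y q c := by
    by_contra hcon
    push Not at hcon
    apply hdis _ _ _ hr0
    refine MX_max (T := fun c q r => Y c q r ∨ MX S P c q r) ?_ (Or.inl hr0)
    refine ⟨⟨?_, ?_⟩, ?_⟩
    · rintro c q r (h | h)
      · exact hY.tr _ _ _ h
      · exact (MX_Rg S P).tr _ _ _ h
    · rintro c q r (h | h)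
      · exact Or.inl (hY.cyc _ _ _ h)
      · exact Or.inr ((MX_Rg S P).cyc _ _ _ h)
    · rintro c q r (h | h)
      · have hTr := hY.tr _ _ _ h
        by_cases hR : Rm S P c q
        · obtain ⟨s, hs⟩ := hcon c q r h hR
          exact Or.inl ⟨s, Or.inl hs⟩
        · have hEg : Eg P c q := ⟨(Tr_ne hTr).1, Tr_Ed hTr⟩
          have hnM : ¬ Lf (MX S P) c q := by
            rintro ⟨s, hs⟩
            have := Tr_unique ((MX_Rg S P).tr _ _ _ hs) hTr
            rw [this] at hs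
            exact hdis _ _ _ h hs
          have : Se S c q := by
            by_contra h'
            exact hR ⟨hEg, h', hnM⟩
          exact Or.inr this.2
      · rcases (MX_Rg S P).bd _ _ _ h with ⟨s, hs⟩ | h'
        · exact Or.inl ⟨s, Or.inr hs⟩
        · exact Or.inr h'
  obtain ⟨c, q, r, hcqr, hR, hnq⟩ := hex
  have hTr := hY.tr _ _ _ hcqr
  obtain ⟨n1, n2, n3⟩ := Tr_ne hTr
  set Y' : ℂ → ℂ → ℂ → Prop := fun x y z => Y x y z ∧ ¬ ((x = c ∧ y = q) ∨ (x = q ∧ y = r) ∨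
    (x = r ∧ y = c)) with hY'
  have hcyc2 := hY.cyc _ _ _ hcqr
  have hcyc3 := hY.cyc _ _ _ hcyc2
  have hFam : Fam P Y' := by
    refine ⟨fun x y z h => hY.tr _ _ _ h.1, ?_⟩
    rintro x y z ⟨h1, h2⟩
    refine ⟨hY.cyc _ _ _ h1, ?_⟩
    rintro (⟨rfl, rfl⟩ | ⟨rfl, rfl⟩ | ⟨rfl, rfl⟩)
    · apply h2
      right; right
      have := Tr_unique (Tr_cyc (hY.tr _ _ _ h1)) hTr
      exact ⟨this, rfl⟩
    · apply h2
      left
      have := Tr_unique (Tr_cyc (hY.tr _ _ _ h1)) (Tr_cyc hTr)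
      exact ⟨this, rfl⟩
    · apply h2
      right; left
      have := Tr_unique (Tr_cyc (hY.tr _ _ _ h1)) (Tr_cyc (Tr_cyc hTr))
      exact ⟨this, rfl⟩
  have hLf : ∀ x y, Lf Y' x y ↔ Lf Y x y ∧ ¬ ((x = c ∧ y = q) ∨ (x = q ∧ y = r) ∨
    (x = r ∧ y = c)) := by
    intro x y
    constructor
    · rintro ⟨z, hz1, hz2⟩; exact ⟨⟨z, hz1⟩, hz2⟩
    · rintro ⟨⟨z, hz1⟩, hz2⟩; exact ⟨z, hz1, hz2⟩
  have hcard : nE P (Lf Y') + 3 = nE P (Lf Y) := by
    unfold nE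
    have e : (P ×ˢ P).filter (fun x => Lf Y x.1 x.2)
        = insert (c, q) (insert (q, r) (insert (r, c) ((P ×ˢ P).filter (fun x => Lf Y' x.1 x.2)))) := by
      ext ⟨x, y⟩
      simp only [Finset.mem_insert, Finset.mem_filter, Finset.mem_product, Prod.mk.injEq, hLf]
      constructor
      · rintro ⟨h1, h2⟩
        by_cases k1 : x = c ∧ y = q
        · exact Or.inl k1
        by_cases k2 : x = q ∧ y = r
        · exact Or.inr (Or.inl k2)
        by_cases k3 : x = r ∧ y = c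
        · exact Or.inr (Or.inr (Or.inl k3))
        · exact Or.inr (Or.inr (Or.inr ⟨h1, h2, by tauto⟩))
      · rintro (⟨rfl, rfl⟩ | ⟨rfl, rfl⟩ | ⟨rfl, rfl⟩ | ⟨h1, h2, h3⟩)
        · exact ⟨⟨hTr.1, hTr.2.1⟩, _, hcqr⟩
        · exact ⟨⟨hTr.2.1, hTr.2.2.1⟩, _, hcyc2⟩
        · exact ⟨⟨hTr.2.2.1, hTr.1⟩, _, hcyc3⟩
        · exact ⟨h1, h2⟩
    rw [e, Finset.card_insert_of_notMem, Finset.card_insert_of_notMem,
      Finset.card_insert_of_notMem]
    · simp only [Finset.mem_filter, Finset.mem_product, hLf]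
      tauto
    · simp only [Finset.mem_insert, Finset.mem_filter, Finset.mem_product, Prod.mk.injEq, hLf]
      rintro (⟨h, _⟩ | h)
      · exact n2 h
      · tauto
    · simp only [Finset.mem_insert, Finset.mem_filter, Finset.mem_product, Prod.mk.injEq, hLf]
      rintro (⟨h, _⟩ | ⟨h, _⟩ | h)
      · exact n1 h
      · exact n3 h.symm
      · tauto
  have htouch : nE P (fun x y => Rm S P x y ∧ (Lf Y' x y ∨ Lf Y' y x)) + 2
      ≤ nE P (fun x y => Rm S P x y ∧ (Lf Y x y ∨ Lf Y y x)) := by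
    have u1 : nE P (fun x y => Rm S P x y ∧ (Lf Y' x y ∨ Lf Y' y x)) = ((P ×ˢ P).filter
        (fun x => Rm S P x.1 x.2 ∧ (Lf Y' x.1 x.2 ∨ Lf Y' x.2 x.1))).card := by
      unfold nE; congr!
    have u2 : nE P (fun x y => Rm S P x y ∧ (Lf Y x y ∨ Lf Y y x)) = ((P ×ˢ P).filter
        (fun x => Rm S P x.1 x.2 ∧ (Lf Y x.1 x.2 ∨ Lf Y x.2 x.1))).card := by
      unfold nE; congr!
    rw [u1, u2]
    have e : insert (c, q) (insert (q, c) ((P ×ˢ P).filter
        (fun x => Rm S P x.1 x.2 ∧ (Lf Y' x.1 x.2 ∨ Lf Y' x.2 x.1))))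
        ⊆ (P ×ˢ P).filter (fun x => Rm S P x.1 x.2 ∧ (Lf Y x.1 x.2 ∨ Lf Y x.2 x.1)) := by
      rintro ⟨x, y⟩ h
      simp only [Finset.mem_insert, Finset.mem_filter, Finset.mem_product, Prod.mk.injEq, hLf] at h ⊢
      rcases h with ⟨rfl, rfl⟩ | ⟨rfl, rfl⟩ | ⟨h1, h2, h3⟩
      · exact ⟨⟨hTr.1, hTr.2.1⟩, hR, Or.inl ⟨_, hcqr⟩⟩
      · exact ⟨⟨hTr.2.1, hTr.1⟩, Rm_symm hR, Or.inr ⟨_, hcqr⟩⟩
      · exact ⟨h1, h2, by tauto⟩
    have h1 := Finset.card_le_card e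
    rw [Finset.card_insert_of_notMem, Finset.card_insert_of_notMem] at h1
    · exact h1
    · simp only [Finset.mem_filter, Finset.mem_product, hLf]
      rintro ⟨_, _, h | h⟩
      · exact hnq h.1
      · exact absurd h.2 (by simp)
    · simp only [Finset.mem_insert, Finset.mem_filter, Finset.mem_product, Prod.mk.injEq, hLf]
      rintro (⟨h, _⟩ | ⟨_, _, h | h⟩)
      · exact n1 h
      · exact absurd h.2 (by simp)
      · exact hnq h.1
  have hlt : nE P (Lf Y') < n := by omega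
  have := ih _ hlt Y' hFam (fun x y z h => hdis x y z h.1) rfl
  omega

/-- **The counting theorem**: outer directed edges and triangles of the maximal region. -/
theorem count_main {S P : Finset ℂ} (hG : Gen P) (hPS : P ⊆ S) (hP : P.Nonempty) :
    (nE P (fun c q => Se S c q ∧ ¬ Lf (MX S P) c q) : ℝ) + nE P (Lf (MX S P)) / 3 + 2
      ≤ 2 * P.card := by
  have h1 := euler_count hG hP
  -- the other triangles
  set N : ℂ → ℂ → ℂ → Prop := fun c q r => Tr P c q r ∧ ¬ MX S P c q r with hN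
  have hNF : Fam P N := by
    refine ⟨fun c q r h => h.1, ?_⟩
    rintro c q r ⟨h1, h2⟩
    refine ⟨Tr_cyc h1, fun h => h2 ?_⟩
    exact (MX_Rg S P).cyc _ _ _ ((MX_Rg S P).cyc _ _ _ h)
  have hp := peel (S := S) (P := P) (nE P (Lf N)) N hNF (fun c q r h => h.2) rfl
  have hp2 : nE P (fun c q => Rm S P c q ∧ (Lf N c q ∨ Lf N q c)) ≤ nE P (Rm S P) :=
    nE_le fun c _ q _ h => h.1
  have hp3 : 2 * (nE P (Lf N) : ℝ) ≤ 3 * nE P (Rm S P) := by
    have : 2 * nE P (Lf N) ≤ 3 * nE P (Rm S P) := by omega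
    exact_mod_cast this
  -- splitting of the edges
  have s1 := sE_split (P := P) (X := Eg P) (Y := Lf (Tr P)) (fun _ _ => 1)
  have s2 := sE_split (P := P) (X := Eg P) (Y := Lf (MX S P)) (fun _ _ => 1)
  have s3 := sE_split (P := P) (X := fun c q => Eg P c q ∧ ¬ Lf (MX S P) c q) (Y := Se S)
    (fun _ _ => 1)
  have s4 := sE_split (P := P) (X := Lf (Tr P)) (Y := Lf (MX S P)) (fun _ _ => 1)
  simp only [sE_one] at s1 s2 s3 s4
  have c1 : nE P (fun c q => Eg P c q ∧ Lf (Tr P) c q) = nE P (Lf (Tr P)) :=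
    le_antisymm (nE_le fun c _ q _ h => h.2) (nE_le fun c _ q _ h => by
      obtain ⟨r, hr⟩ := h
      exact ⟨⟨(Tr_ne hr).1, Tr_Ed hr⟩, r, hr⟩)
  have c2 : nE P (fun c q => Eg P c q ∧ Lf (MX S P) c q) = nE P (Lf (MX S P)) :=
    le_antisymm (nE_le fun c _ q _ h => h.2) (nE_le fun c _ q _ h => by
      obtain ⟨r, hr⟩ := h
      have hr' := (MX_Rg S P).tr _ _ _ hr
      exact ⟨⟨(Tr_ne hr').1, Tr_Ed hr'⟩, r, hr⟩)
  have c3 : nE P (fun c q => (Eg P c q ∧ ¬ Lf (MX S P) c q) ∧ Se S c q)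
      = nE P (fun c q => Se S c q ∧ ¬ Lf (MX S P) c q) :=
    le_antisymm (nE_le fun c _ q _ h => ⟨h.2, h.1.2⟩) (nE_le fun c _ q _ h =>
      ⟨⟨⟨h.1.1, h.1.2.1.mono hPS⟩, h.2⟩, h.1⟩)
  have c4 : nE P (fun c q => (Eg P c q ∧ ¬ Lf (MX S P) c q) ∧ ¬ Se S c q) = nE P (Rm S P) :=
    le_antisymm (nE_le fun c _ q _ h => ⟨h.1.1, h.2, h.1.2⟩)
      (nE_le fun c _ q _ h => ⟨⟨h.1, h.2.2⟩, h.2.1⟩)
  have c5 : nE P (fun c q => Lf (Tr P) c q ∧ Lf (MX S P) c q) = nE P (Lf (MX S P)) :=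
    le_antisymm (nE_le fun c _ q _ h => h.2) (nE_le fun c _ q _ h => by
      obtain ⟨r, hr⟩ := h
      exact ⟨⟨r, (MX_Rg S P).tr _ _ _ hr⟩, r, hr⟩)
  have c6 : nE P (fun c q => Lf (Tr P) c q ∧ ¬ Lf (MX S P) c q) = nE P (Lf N) := by
    apply le_antisymm
    · apply nE_le
      rintro c _ q _ ⟨⟨r, hr⟩, h⟩
      exact ⟨r, hr, fun h' => h ⟨r, h'⟩⟩
    · apply nE_le
      rintro c _ q _ ⟨r, hr, h⟩
      refine ⟨⟨r, hr⟩, ?_⟩
      rintro ⟨s, hs⟩
      have := Tr_unique ((MX_Rg S P).tr _ _ _ hs) hr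
      rw [this] at hs
      exact h hs
  have c7 : nE P (fun c q => Eg P c q ∧ ¬ Lf (Tr P) c q) = nE P (Hl P) := rfl
  rw [c1, c7] at s1
  rw [c2] at s2
  rw [c3, c4] at s3
  rw [c5, c6] at s4
  linarith

end

end FT58
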