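import Pool.Agent.Lib.MP_49fa77_co.Val2
import Pool.Agent.Lib.MP_49fa77_co.Bounds

/-!
# Cutting off bad triangles
-/

namespace FT58

open Real MeasureTheory Set

section
open Classical

lemma sE_insert {P : Finset ℂ} {X X' : ℂ → ℂ → Prop} {f : ℂ → ℂ → ℝ} {a b : ℂ}
    (h : ∀ x y, X x y ↔ X' x y ∨ (x = a ∧ y = b)) (hn : ¬ X' a b) (ha : a ∈ P) (hb : b ∈ P) :
    sE P X f = sE P X' f + f a b := by
  have e : f a b = ∑ c ∈ P, ∑ q ∈ P, (if c = a ∧ q = b then f c q else 0) := by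
    rw [Finset.sum_eq_single a]
    · rw [Finset.sum_eq_single b]
      · simp
      · intro q _ hq
        rw [if_neg]; tauto
      · intro h'; exact absurd hb h'
    · intro c _ hc
      apply Finset.sum_eq_zero
      intro q _
      rw [if_neg]; tauto
    · intro h'; exact absurd ha h'
  rw [e]
  unfold sE
  simp only [← Finset.sum_add_distrib]
  refine Finset.sum_congr rfl fun c _ => Finset.sum_congr rfl fun q _ => ?_
  by_cases h1 : X' c q
  · have h2 : X c q := (h c q).mpr (Or.inl h1)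
    have h3 : ¬ (c = a ∧ q = b) := by
      rintro ⟨rfl, rfl⟩; exact hn h1
    rw [if_pos h1, if_pos h2, if_neg h3, add_zero]
  · by_cases h3 : c = a ∧ q = b
    · have h2 : X c q := (h c q).mpr (Or.inr h3)
      rw [if_neg h1, if_pos h2, if_pos h3, zero_add]
    · have h2 : ¬ X c q := fun h' => ((h c q).mp h').elim h1 h3
      rw [if_neg h1, if_neg h2, if_neg h3, add_zero]

lemma nE_insert {P : Finset ℂ} {X X' : ℂ → ℂ → Prop} {a b : ℂ}
    (h : ∀ x y, X x y ↔ X' x y ∨ (x = a ∧ y = b)) (hn : ¬ X' a b) (ha : a ∈ P) (hb : b ∈ P) :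
    nE P X = nE P X' + 1 := by
  have := sE_insert (f := fun _ _ => 1) h hn ha hb
  rw [sE_one, sE_one] at this
  exact_mod_cast this

/-- removing a triangle from a family -/
lemma remove_tri {P : Finset ℂ} {Y : ℂ → ℂ → ℂ → Prop} (hY : Fam P Y) {c q r : ℂ} (h : Y c q r) :
    ∃ Y' : ℂ → ℂ → ℂ → Prop, Fam P Y' ∧ (∀ x y z, Y' x y z → Y x y z) ∧
      (∀ x y, Lf Y' x y ↔ Lf Y x y ∧ ¬ ((x = c ∧ y = q) ∨ (x = q ∧ y = r) ∨ (x = r ∧ y = c))) ∧
      (∀ f, sE P (Lf Y) f = sE P (Lf Y') f + f c q + f q r + f r c) := by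
  have hTr := hY.tr _ _ _ h
  obtain ⟨n1, n2, n3⟩ := Tr_ne hTr
  set Y' : ℂ → ℂ → ℂ → Prop := fun x y z => Y x y z ∧ ¬ ((x = c ∧ y = q) ∨ (x = q ∧ y = r) ∨
    (x = r ∧ y = c)) with hY'
  have hcyc2 := hY.cyc _ _ _ h
  have hcyc3 := hY.cyc _ _ _ hcyc2
  have hFam : Fam P Y' := by
    refine ⟨fun x y z h => hY.tr _ _ _ h.1, ?_⟩
    rintro x y z ⟨h1, h2⟩
    refine ⟨hY.cyc _ _ _ h1, ?_⟩
    rintro (⟨rfl, rfl⟩ | ⟨rfl, rfl⟩ | ⟨rfl, rfl⟩)
    · apply h2
      right; right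
      have := Tr_unique (Tr_cyc (hY.tr _ _ _ h1)) hTr
      exact ⟨this, rfl⟩
    · apply h2
      left
      have := Tr_unique (Tr_cyc (hY.tr _ _ _ h1)) (Tr_cyc hTr)
      exact ⟨this, rfl⟩
    · apply h2
      right; left
      have := Tr_unique (Tr_cyc (hY.tr _ _ _ h1)) (Tr_cyc (Tr_cyc hTr))
      exact ⟨this, rfl⟩
  have hLf : ∀ x y, Lf Y' x y ↔ Lf Y x y ∧ ¬ ((x = c ∧ y = q) ∨ (x = q ∧ y = r) ∨
    (x = r ∧ y = c)) := by
    intro x y
    constructor
    · rintro ⟨z, hz1, hz2⟩; exact ⟨⟨z, hz1⟩, hz2⟩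
    · rintro ⟨⟨z, hz1⟩, hz2⟩; exact ⟨z, hz1, hz2⟩
  refine ⟨Y', hFam, fun x y z h => h.1, hLf, ?_⟩
  intro f
  have l1 : Lf Y c q := ⟨_, h⟩
  have l2 : Lf Y q r := ⟨_, hcyc2⟩
  have l3 : Lf Y r c := ⟨_, hcyc3⟩
  have s1 := sE_insert (P := P) (X := fun x y => Lf Y' x y ∨ (x = c ∧ y = q)) (X' := Lf Y') (f := f)
    (a := c) (b := q) (fun x y => Iff.rfl) (by rw [hLf]; tauto) hTr.1 hTr.2.1
  have s2 := sE_insert (P := P) (X := fun x y => (Lf Y' x y ∨ (x = c ∧ y = q)) ∨ (x = q ∧ y = r))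
    (X' := fun x y => Lf Y' x y ∨ (x = c ∧ y = q)) (f := f)
    (a := q) (b := r) (fun x y => Iff.rfl) (by rw [hLf]; tauto) hTr.2.1 hTr.2.2.1
  have s3 := sE_insert (P := P) (X := Lf Y)
    (X' := fun x y => (Lf Y' x y ∨ (x = c ∧ y = q)) ∨ (x = q ∧ y = r)) (f := f)
    (a := r) (b := c) (fun x y => by
      rw [hLf]
      constructor
      · intro h'; tauto
      · rintro (((h' | ⟨rfl, rfl⟩) | ⟨rfl, rfl⟩) | ⟨rfl, rfl⟩)
        · exact h'.1
        · exact l1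
        · exact l2
        · exact l3) (by rw [hLf]; tauto) hTr.2.2.1 hTr.1
  rw [s3, s2, s1]

/-- the state of the cutting process -/
structure St (S P : Finset ℂ) (E : ℂ → ℂ → Prop) (T : ℂ → ℂ → ℂ → Prop) : Prop where
  fam : Fam P T
  trS : ∀ c q r, T c q r → Tr S c q r
  bd : ∀ c q r, T c q r → Lf T q c ∨ Sh c q
  sh : ∀ c q r, T c q r → Sh c q → E c q
  sym : ∀ c q, E c q → E q c
  se : ∀ c q, E c q → Se S c q

/-- value of a state -/
noncomputable def FV (D : ℝ) (S P : Finset ℂ) (E : ℂ → ℂ → Prop) (T : ℂ → ℂ → ℂ → Prop) : ℝ :=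
  sE P (Lf T) (val2 D S) + sE P (fun c q => E c q ∧ ¬ Lf T c q) (gs D)

lemma St_init {S P : Finset ℂ} (hG : Gen S) (hP : Closed S P) (hc : P.card ≤ 5) :
    St S P (Se S) (MX S P) := by
  refine ⟨(MX_Rg S P).toFam, fun c q r h => Rg_Tr hG hP hc (MX_Rg S P) h, ?_, ?_, ?_, ?_⟩
  · intro c q r h
    rcases (MX_Rg S P).bd _ _ _ h with h' | h'
    · exact Or.inl h'
    · exact Or.inr h'.2
  · intro c q r h hs
    have := Rg_Tr hG hP hc (MX_Rg S P) h
    exact ⟨(Tr_ne this).1, Tr_Ed this, hs⟩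
  · intro c q h; exact Se_symm h
  · intro c q h; exact h

lemma FV_init {D : ℝ} {S P : Finset ℂ} (hG : Gen S) (hP : Closed S P) (hc : P.card ≤ 5) :
    sE P (Eg S) (asg2 D S (MX S P)) = FV D S P (Se S) (MX S P) := by
  unfold FV
  rw [sE_split (X := Eg S) (Y := Lf (MX S P))]
  congr 1
  · apply sE_congr
    · intro c _ q _
      constructor
      · exact fun h => h.2
      · rintro ⟨r, hr⟩
        have := Rg_Tr hG hP hc (MX_Rg S P) hr
        exact ⟨⟨(Tr_ne this).1, Tr_Ed this⟩, r, hr⟩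
    · intro c _ q _ h
      unfold asg2
      rw [if_pos h.2]
  · unfold sE
    refine Finset.sum_congr rfl fun c _ => Finset.sum_congr rfl fun q _ => ?_
    by_cases h1 : Lf (MX S P) c q
    · rw [if_neg (fun h => h.2 h1), if_neg (fun h => h.2 h1)]
    · by_cases h2 : Eg S c q
      · rw [if_pos ⟨h2, h1⟩]
        unfold asg2 gv gs
        rw [if_neg h1]
        by_cases h3 : Sh c q
        · rw [if_pos h3, if_pos ⟨⟨h2.1, h2.2, h3⟩, h1⟩]
        · rw [if_neg h3, if_neg (fun h => h3 h.1.2.2)]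
      · rw [if_neg (fun h => h2 h.1), if_neg (fun h => h2 ⟨h.1.1, h.1.2.1⟩)]

/-- one cutting step -/
lemma cut_step {D : ℝ} (hD0 : 0 ≤ D) {S P : Finset ℂ} {E : ℂ → ℂ → Prop} {T : ℂ → ℂ → ℂ → Prop}
    (h : St S P E T) {c q r : ℂ} (ht : T c q r) (hb : ¬ Lf T q c) (hbad : Bad c q r) :
    ∃ E' T', St S P E' T' ∧ FV D S P E' T' ≤ FV D S P E T ∧
      nE P (fun c q => E' c q ∧ ¬ Lf T' c q) = nE P (fun c q => E c q ∧ ¬ Lf T c q) + 1 ∧
      nE P (Lf T') + 3 = nE P (Lf T) := by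
  have hTrS := h.trS _ _ _ ht
  have hTrP := h.fam.tr _ _ _ ht
  have hX := Tr_XX hTrS
  obtain ⟨n1, n2, n3⟩ := Tr_ne hTrS
  have hcyc2 := h.fam.cyc _ _ _ ht
  have hcyc3 := h.fam.cyc _ _ _ hcyc2
  have s1 : Sh c q := (h.bd _ _ _ ht).resolve_left hb
  have hobt := obtuse_side hX hbad.1.le
  have s2 : Sh q r := by unfold Sh at *; linarith [hobt.1]
  have s3 : Sh r c := by unfold Sh at *; linarith [hobt.2]
  have E1 := h.sh _ _ _ ht s1
  have E2 := h.sh _ _ _ hcyc2 s2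
  have E3 := h.sh _ _ _ hcyc3 s3
  have E1' := h.sym _ _ E1
  obtain ⟨T', hF', hsub, hLf, hsum⟩ := remove_tri h.fam ht
  set E' : ℂ → ℂ → Prop := fun x y => E x y ∧ ¬ ((x = c ∧ y = q) ∨ (x = q ∧ y = c)) with hE'
  have hVT : VT D c q r = val2 D S c q + val2 D S q r + val2 D S r c := by
    unfold VT val2 v2
    rw [if_pos s1, if_pos s2, if_pos s3, Tr_al hTrS, Tr_al (Tr_cyc hTrS),
      Tr_al (Tr_cyc (Tr_cyc hTrS))]
  have hVTb := VT_bad hD0 hX s1 hbad.2.le hbad.1.le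
  -- outer edges
  have n12 : ¬ (q = c ∧ c = q) := fun h => n1 h.2
  have hout : ∀ f, sE P (fun x y => E' x y ∧ ¬ Lf T' x y) f + f q c
      = sE P (fun x y => E x y ∧ ¬ Lf T x y) f + f q r + f r c := by
    intro f
    have a1 := sE_insert (P := P) (X := fun x y => (E x y ∧ ¬ Lf T x y) ∨ (x = q ∧ y = r))
      (X' := fun x y => E x y ∧ ¬ Lf T x y) (f := f) (a := q) (b := r) (fun x y => Iff.rfl)
      (fun h' => h'.2 ⟨_, hcyc2⟩) hTrP.2.1 hTrP.2.2.1
    have a2 := sE_insert (P := P)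
      (X := fun x y => ((E x y ∧ ¬ Lf T x y) ∨ (x = q ∧ y = r)) ∨ (x = r ∧ y = c))
      (X' := fun x y => (E x y ∧ ¬ Lf T x y) ∨ (x = q ∧ y = r)) (f := f) (a := r) (b := c)
      (fun x y => Iff.rfl) (by
        rintro (h' | h')
        · exact h'.2 ⟨_, hcyc3⟩
        · exact n2 h'.1.symm) hTrP.2.2.1 hTrP.1
    have a3 := sE_insert (P := P)
      (X := fun x y => ((E x y ∧ ¬ Lf T x y) ∨ (x = q ∧ y = r)) ∨ (x = r ∧ y = c))
      (X' := fun x y => E' x y ∧ ¬ Lf T' x y) (f := f) (a := q) (b := c)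
      (fun x y => by
        rw [hLf]
        simp only [hE']
        constructor
        · rintro ((⟨k1, k2⟩ | ⟨rfl, rfl⟩) | ⟨rfl, rfl⟩)
          · by_cases k3 : x = q ∧ y = c
            · exact Or.inr k3
            · left
              refine ⟨⟨k1, ?_⟩, fun k => k2 k.1⟩
              rintro (k | k)
              · apply k2; rw [k.1, k.2]; exact ⟨_, ht⟩
              · exact k3 k
          · left
            refine ⟨⟨E2, ?_⟩, ?_⟩
            · rintro (k | k)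
              · exact n1 k.1.symm
              · exact n3 k.2
            · tauto
          · left
            refine ⟨⟨E3, ?_⟩, ?_⟩
            · rintro (k | k)
              · exact n3 k.1
              · exact n2 k.1.symm
            · tauto
        · rintro (⟨⟨k1, k2⟩, k3⟩ | ⟨rfl, rfl⟩)
          · by_cases k4 : Lf T x y
            · have : (x = c ∧ y = q) ∨ (x = q ∧ y = r) ∨ (x = r ∧ y = c) := by
                by_contra k5; exact k3 ⟨k4, k5⟩
              rcases this with k | k | k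
              · exact absurd (Or.inl k) k2
              · exact Or.inl (Or.inr k)
              · exact Or.inr k
            · exact Or.inl (Or.inl ⟨k1, k4⟩)
          · exact Or.inl (Or.inl ⟨E1', hb⟩)) (by
        rintro ⟨⟨_, k⟩, _⟩
        exact k (Or.inr ⟨rfl, rfl⟩)) hTrP.2.1 hTrP.1
    linarith
  refine ⟨E', T', ?_, ?_, ?_, ?_⟩
  · refine ⟨hF', fun x y z k => h.trS _ _ _ (hsub _ _ _ k), ?_, ?_, ?_, ?_⟩
    · intro x y z k
      have kT := hsub _ _ _ k
      have kl : Lf T' x y := ⟨_, k⟩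
      rw [hLf] at kl
      by_cases kS : Sh x y
      · exact Or.inr kS
      · left
        rcases h.bd _ _ _ kT with k' | k'
        · rw [hLf]
          refine ⟨k', ?_⟩
          rintro (⟨rfl, rfl⟩ | ⟨rfl, rfl⟩ | ⟨rfl, rfl⟩)
          · exact kS (Sh_symm s1)
          · exact kS (Sh_symm s2)
          · exact kS (Sh_symm s3)
        · exact absurd k' kS
    · intro x y z k kS
      have kT := hsub _ _ _ k
      have kl : Lf T' x y := ⟨_, k⟩
      rw [hLf] at kl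
      refine ⟨h.sh _ _ _ kT kS, ?_⟩
      rintro (k' | k')
      · exact kl.2 (Or.inl k')
      · apply hb; rw [← k'.1, ← k'.2]; exact kl.1
    · intro x y k
      refine ⟨h.sym _ _ k.1, ?_⟩
      rintro (k' | k')
      · exact k.2 (Or.inr ⟨k'.2, k'.1⟩)
      · exact k.2 (Or.inl ⟨k'.2, k'.1⟩)
    · intro x y k; exact h.se _ _ k.1
  · unfold FV
    have e1 := hsum (val2 D S)
    have e2 := hout (gs D)
    have e3 : gs D q c = gg D (‖q - c‖ / 2) := by rw [gs_symm]; rfl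
    have e4 : gs D q r = gg D (‖r - q‖ / 2) := rfl
    have e5 : gs D r c = gg D (‖c - r‖ / 2) := rfl
    rw [e1]
    linarith
  · have e2 := hout (fun _ _ => 1)
    rw [sE_one, sE_one] at e2
    have : (nE P (fun x y => E' x y ∧ ¬ Lf T' x y) : ℝ) = nE P (fun x y => E x y ∧ ¬ Lf T x y) + 1 := by
      linarith
    exact_mod_cast this
  · have e1 := hsum (fun _ _ => 1)
    rw [sE_one, sE_one] at e1
    have : (nE P (Lf T') : ℝ) + 3 = nE P (Lf T) := by linarith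
    exact_mod_cast this

/-- cutting all bad triangles -/
lemma cut_all {D : ℝ} (hD0 : 0 ≤ D) {S P : Finset ℂ} (n : ℕ) : ∀ (E : ℂ → ℂ → Prop)
    (T : ℂ → ℂ → ℂ → Prop), St S P E T → nE P (Lf T) = n →
    ∃ E' T', St S P E' T' ∧ FV D S P E' T' ≤ FV D S P E T ∧
      3 * nE P (fun c q => E' c q ∧ ¬ Lf T' c q) + nE P (Lf T')
        = 3 * nE P (fun c q => E c q ∧ ¬ Lf T c q) + nE P (Lf T) ∧
      (∀ c q r, T' c q r → ¬ Lf T' q c → ¬ Bad c q r) := by
  induction n using Nat.strong_induction_on with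
  | _ n ih =>
  intro E T h hn
  by_cases hbad : ∃ c q r, T c q r ∧ ¬ Lf T q c ∧ Bad c q r
  · obtain ⟨c, q, r, h1, h2, h3⟩ := hbad
    obtain ⟨E1, T1, k1, k2, k3, k4⟩ := cut_step hD0 h h1 h2 h3
    obtain ⟨E2, T2, m1, m2, m3, m4⟩ := ih (nE P (Lf T1)) (by omega) E1 T1 k1 rfl
    exact ⟨E2, T2, m1, m2.trans k2, by omega, m4⟩
  · push Not at hbad
    exact ⟨E, T, h, le_rfl, rfl, hbad⟩

end

end FT58
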