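import Pool.Agent.Lib.MP_49fa77_co.Bnd

/-!
# The boundary of a region in a cluster of five points
-/

namespace FT58

open Real MeasureTheory Set

section
open Classical

lemma sE_false {P : Finset ℂ} {X : ℂ → ℂ → Prop} {f : ℂ → ℂ → ℝ} (h : ∀ x y, ¬ X x y) :
    sE P X f = 0 := by
  unfold sE
  refine Finset.sum_eq_zero fun c _ => Finset.sum_eq_zero fun q _ => ?_
  rw [if_neg (h c q)]

/-- in- and out-degrees of the boundary agree. -/
lemma deg_eq {P : Finset ℂ} {T : ℂ → ℂ → ℂ → Prop} (hT : Fam P T) {c : ℂ} (_hc : c ∈ P) :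
    ∑ q ∈ P, (if Bd T c q then (1 : ℝ) else 0) = ∑ q ∈ P, (if Bd T q c then (1 : ℝ) else 0) := by
  have h1 : ∀ c q : ℂ, (if Lf T c q then (1 : ℝ) else 0) = ∑ r ∈ P, (if T c q r then (1 : ℝ) else 0) := by
    intro c q
    by_cases hX : Lf T c q
    · obtain ⟨r, hr⟩ := hX
      rw [if_pos ⟨r, hr⟩, Finset.sum_eq_single r]
      · rw [if_pos hr]
      · intro r' _ hne
        rw [if_neg]
        intro h'
        exact hne (Tr_unique (hT.tr _ _ _ h') (hT.tr _ _ _ hr))
      · intro hn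
        exact absurd (hT.tr _ _ _ hr).2.2.1 hn
    · rw [if_neg hX]
      symm
      apply Finset.sum_eq_zero
      intro r _
      rw [if_neg]
      intro h'
      exact hX ⟨r, h'⟩
  have h2 : ∑ q ∈ P, (if Lf T c q then (1 : ℝ) else 0) = ∑ q ∈ P, (if Lf T q c then (1 : ℝ) else 0) := by
    simp only [h1]
    rw [Finset.sum_comm]
    refine Finset.sum_congr rfl fun r _ => Finset.sum_congr rfl fun q _ => ?_
    by_cases h : T c q r
    · rw [if_pos h, if_pos (hT.cyc _ _ _ (hT.cyc _ _ _ h))]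
    · rw [if_neg h, if_neg (fun h' => h (hT.cyc _ _ _ h'))]
  have h3 : ∑ q ∈ P, ((if Bd T c q then (1 : ℝ) else 0) - (if Bd T q c then (1 : ℝ) else 0))
      = ∑ q ∈ P, ((if Lf T c q then (1 : ℝ) else 0) - (if Lf T q c then (1 : ℝ) else 0)) := by
    refine Finset.sum_congr rfl fun q _ => ?_
    unfold Bd
    by_cases k1 : Lf T c q <;> by_cases k2 : Lf T q c <;> simp [k1, k2]
  rw [Finset.sum_sub_distrib, Finset.sum_sub_distrib, h2, sub_self] at h3
  linarith

/-- circulations without two-cycles on a finite set -/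
structure Circ (P : Finset ℂ) (K : ℂ → ℂ → Prop) : Prop where
  mem : ∀ c q, K c q → c ∈ P ∧ q ∈ P
  anti : ∀ c q, K c q → ¬ K q c
  deg : ∀ c ∈ P, ∑ q ∈ P, (if K c q then (1 : ℝ) else 0) = ∑ q ∈ P, (if K q c then (1 : ℝ) else 0)

lemma Circ_Bd {P : Finset ℂ} {T : ℂ → ℂ → ℂ → Prop} (hT : Fam P T) : Circ P (Bd T) := by
  refine ⟨?_, ?_, fun c hc => deg_eq hT hc⟩
  · rintro c q ⟨⟨r, hr⟩, _⟩
    exact ⟨(hT.tr _ _ _ hr).1, (hT.tr _ _ _ hr).2.1⟩
  · rintro c q ⟨h1, _⟩ ⟨_, h4⟩
    exact h4 h1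

variable {P : Finset ℂ} {K : ℂ → ℂ → Prop}

lemma Circ.rev (h : Circ P K) : Circ P (fun c q => K q c) :=
  ⟨fun _ _ k => ⟨(h.mem _ _ k).2, (h.mem _ _ k).1⟩, fun _ _ k => h.anti _ _ k,
    fun c hc => (h.deg c hc).symm⟩

lemma Circ.next (h : Circ P K) {c q : ℂ} (hk : K c q) : ∃ r, K q r := by
  by_contra hcon
  push Not at hcon
  have h1 := h.deg q (h.mem _ _ hk).2
  have h2 : ∑ r ∈ P, (if K q r then (1 : ℝ) else 0) = 0 := by
    apply Finset.sum_eq_zero
    intro r _
    rw [if_neg (hcon r)]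
  have h3 : (1 : ℝ) ≤ ∑ r ∈ P, (if K r q then (1 : ℝ) else 0) := by
    have := Finset.single_le_sum (f := fun r => if K r q then (1 : ℝ) else 0)
      (fun r _ => by split_ifs <;> norm_num) (h.mem _ _ hk).1
    simp only [if_pos hk] at this
    exact this
  linarith

lemma Circ.two (h : Circ P K) {c p₁ p₂ : ℂ} (h1 : K p₁ c) (h2 : K p₂ c) (hne : p₁ ≠ p₂) :
    ∃ q₁ q₂, K c q₁ ∧ K c q₂ ∧ q₁ ≠ q₂ := by
  obtain ⟨q, hq⟩ := h.next h1
  by_contra hcon
  push Not at hcon
  have huniq : ∀ r, K c r → r = q := fun r hr => hcon r q hr hq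
  have hdeg := h.deg c (h.mem _ _ h1).2
  have e1 : ∑ r ∈ P, (if K c r then (1 : ℝ) else 0) = 1 := by
    rw [Finset.sum_eq_single q]
    · rw [if_pos hq]
    · intro r _ hr
      rw [if_neg]
      intro h'
      exact hr (huniq r h')
    · intro h'; exact absurd (h.mem _ _ hq).2 h'
  have e2 : (2 : ℝ) ≤ ∑ r ∈ P, (if K r c then (1 : ℝ) else 0) := by
    have hsub : ({p₁, p₂} : Finset ℂ) ⊆ P := by
      intro x hx
      rw [Finset.mem_insert, Finset.mem_singleton] at hx
      rcases hx with rfl | rfl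
      · exact (h.mem _ _ h1).1
      · exact (h.mem _ _ h2).1
    have := Finset.sum_le_sum_of_subset_of_nonneg (f := fun r => if K r c then (1 : ℝ) else 0) hsub
      (fun r _ _ => by split_ifs <;> norm_num)
    rw [Finset.sum_pair hne] at this
    simp only [if_pos h1, if_pos h2] at this
    linarith
  linarith

lemma nE_list {l : List (ℂ × ℂ)} (hl : l.Nodup) (h : ∀ x ∈ l, x.1 ∈ P ∧ x.2 ∈ P ∧ K x.1 x.2) :
    l.length ≤ nE P K := by
  rw [← List.toFinset_card_of_nodup hl]
  unfold nE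
  apply Finset.card_le_card
  intro x hx
  rw [List.mem_toFinset] at hx
  rw [Finset.mem_filter, Finset.mem_product]
  exact ⟨⟨(h x hx).1, (h x hx).2.1⟩, (h x hx).2.2⟩

lemma card_list {l : List ℂ} (hl : l.Nodup) (h : ∀ x ∈ l, x ∈ P) : l.length ≤ P.card := by
  rw [← List.toFinset_card_of_nodup hl]
  apply Finset.card_le_card
  intro x hx
  rw [List.mem_toFinset] at hx
  exact h x hx

lemma Circ.ne (h : Circ P K) {c q : ℂ} (hk : K c q) : c ≠ q := by
  rintro rfl; exact h.anti _ _ hk hk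

/-- two edges leaving a vertex force six edges -/
lemma Circ.six (h : Circ P K) {c q₁ q₂ : ℂ} (h1 : K c q₁) (h2 : K c q₂) (hne : q₁ ≠ q₂) :
    6 ≤ nE P K := by
  obtain ⟨p₁, p₂, k1, k2, hp⟩ := h.rev.two (c := c) h1 h2 hne
  obtain ⟨r₁, m1⟩ := h.next h1
  obtain ⟨r₂, m2⟩ := h.next h2
  have a1 := h.anti _ _ h1
  have a2 := h.anti _ _ h2
  have a3 := h.anti _ _ k1
  have a4 := h.anti _ _ k2
  have n1 := h.ne h1
  have n2 := h.ne h2
  have n3 := h.ne k1
  have n4 := h.ne k2
  have r1c : r₁ ≠ c := by rintro rfl; exact a1 m1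
  have r2c : r₂ ≠ c := by rintro rfl; exact a2 m2
  have hl : [(c, q₁), (c, q₂), (p₁, c), (p₂, c), (q₁, r₁), (q₂, r₂)].Nodup := by
    simp only [List.nodup_cons, List.mem_cons, Prod.mk.injEq, List.not_mem_nil, or_false,
      not_or, not_and, not_false_eq_true, List.nodup_nil, and_true]
    refine ⟨⟨?_, ?_, ?_, ?_, ?_⟩, ⟨?_, ?_, ?_, ?_⟩, ⟨?_, ?_, ?_⟩, ⟨?_, ?_⟩, ?_⟩
    · intro _; exact hne
    · intro e; exact absurd e.symm n3
    · intro e; exact absurd e.symm n4
    · intro e; exact absurd e n1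
    · intro e; exact absurd e n2
    · intro e; exact absurd e.symm n3
    · intro e; exact absurd e.symm n4
    · intro e; exact absurd e n1
    · intro e; exact absurd e n2
    · intro e; exact absurd e hp
    · intro _ e; exact r1c e.symm
    · intro _ e; exact r2c e.symm
    · intro _ e; exact r1c e.symm
    · intro _ e; exact r2c e.symm
    · intro e; exact absurd e hne
  have := nE_list (P := P) (K := K) hl (by
    intro x hx
    simp only [List.mem_cons, List.not_mem_nil, or_false] at hx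
    rcases hx with rfl | rfl | rfl | rfl | rfl | rfl
    · exact ⟨(h.mem _ _ h1).1, (h.mem _ _ h1).2, h1⟩
    · exact ⟨(h.mem _ _ h2).1, (h.mem _ _ h2).2, h2⟩
    · exact ⟨(h.mem _ _ k1).1, (h.mem _ _ k1).2, k1⟩
    · exact ⟨(h.mem _ _ k2).1, (h.mem _ _ k2).2, k2⟩
    · exact ⟨(h.mem _ _ m1).1, (h.mem _ _ m1).2, m1⟩
    · exact ⟨(h.mem _ _ m2).1, (h.mem _ _ m2).2, m2⟩)
  simpa using this

/-- explicit three-cycles -/
def C3 (x y z : ℂ) (c q : ℂ) : Prop := (c = x ∧ q = y) ∨ (c = y ∧ q = z) ∨ (c = z ∧ q = x)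
def C4 (x y z w : ℂ) (c q : ℂ) : Prop :=
  (c = x ∧ q = y) ∨ (c = y ∧ q = z) ∨ (c = z ∧ q = w) ∨ (c = w ∧ q = x)
def C5 (x y z w v : ℂ) (c q : ℂ) : Prop :=
  (c = x ∧ q = y) ∨ (c = y ∧ q = z) ∨ (c = z ∧ q = w) ∨ (c = w ∧ q = v) ∨ (c = v ∧ q = x)

/-- The boundary is empty, a cycle, or has at least six edges. -/
theorem Circ.cases (h : Circ P K) (hP : P.card = 5) (hK : nE P K ≤ 5) :
    (∀ c q, ¬ K c q) ∨
    (∃ x y z, [x, y, z].Nodup ∧ (∀ u ∈ [x, y, z], u ∈ P) ∧ ∀ c q, K c q ↔ C3 x y z c q) ∨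
    (∃ x y z w, [x, y, z, w].Nodup ∧ (∀ u ∈ [x, y, z, w], u ∈ P) ∧ ∀ c q, K c q ↔ C4 x y z w c q) ∨
    (∃ x y z w v, [x, y, z, w, v].Nodup ∧ (∀ u ∈ [x, y, z, w, v], u ∈ P) ∧
      ∀ c q, K c q ↔ C5 x y z w v c q) := by
  -- uniqueness
  have uo : ∀ {c q₁ q₂}, K c q₁ → K c q₂ → q₁ = q₂ := by
    intro c q₁ q₂ h1 h2
    by_contra hne
    have := h.six h1 h2 hne
    omega
  have ui : ∀ {c p₁ p₂}, K p₁ c → K p₂ c → p₁ = p₂ := by
    intro c p₁ p₂ h1 h2
    by_contra hne
    obtain ⟨q₁, q₂, k1, k2, k3⟩ := h.two h1 h2 hne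
    exact k3 (uo k1 k2)
  by_cases hne : ∃ c q, K c q
  swap
  · left
    push Not at hne
    exact hne
  right
  obtain ⟨x, y, hxy⟩ := hne
  obtain ⟨z, hyz⟩ := h.next hxy
  obtain ⟨w, hzw⟩ := h.next hyz
  have nxy := h.ne hxy
  have nyz := h.ne hyz
  have nzw := h.ne hzw
  have nxz : x ≠ z := by rintro rfl; exact h.anti _ _ hxy hyz
  have nyw : y ≠ w := by rintro rfl; exact h.anti _ _ hyz hzw
  have mx := (h.mem _ _ hxy).1
  have my := (h.mem _ _ hxy).2
  have mz := (h.mem _ _ hyz).2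
  have mw := (h.mem _ _ hzw).2
  by_cases hwx : w = x
  · -- three-cycle
    rw [hwx] at hzw
    left
    refine ⟨x, y, z, ?_, ?_, ?_⟩
    · simp only [List.nodup_cons, List.mem_cons, List.not_mem_nil, or_false, not_or,
        not_false_eq_true, List.nodup_nil, and_true]
      exact ⟨⟨nxy, nxz⟩, nyz⟩
    · intro u hu
      simp only [List.mem_cons, List.not_mem_nil, or_false] at hu
      rcases hu with rfl | rfl | rfl <;> assumption
    · intro c q
      unfold C3
      constructor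
      · intro hk
        by_cases c1 : c = x
        · subst c1; exact Or.inl ⟨rfl, uo hk hxy⟩
        by_cases c2 : c = y
        · subst c2; exact Or.inr (Or.inl ⟨rfl, uo hk hyz⟩)
        by_cases c3 : c = z
        · subst c3; exact Or.inr (Or.inr ⟨rfl, uo hk hzw⟩)
        exfalso
        have q1 : q ≠ x := by rintro rfl; exact c3 (ui hk hzw)
        have q2 : q ≠ y := by rintro rfl; exact c1 (ui hk hxy)
        have q3 : q ≠ z := by rintro rfl; exact c2 (ui hk hyz)
        obtain ⟨r, hr⟩ := h.next hk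
        have r1 : r ≠ x := by rintro rfl; exact q3 (ui hr hzw)
        have r2 : r ≠ y := by rintro rfl; exact q1 (ui hr hxy)
        have r3 : r ≠ z := by rintro rfl; exact q2 (ui hr hyz)
        have r4 : r ≠ c := by rintro rfl; exact h.anti _ _ hk hr
        have r5 := h.ne hr
        have q4 := h.ne hk
        have := card_list (P := P) (l := [x, y, z, c, q, r]) (by
          simp only [List.nodup_cons, List.mem_cons, List.not_mem_nil, or_false, not_or,
            not_false_eq_true, List.nodup_nil, and_true]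
          exact ⟨⟨nxy, nxz, Ne.symm c1, Ne.symm q1, Ne.symm r1⟩,
            ⟨nyz, Ne.symm c2, Ne.symm q2, Ne.symm r2⟩, ⟨Ne.symm c3, Ne.symm q3, Ne.symm r3⟩,
            ⟨q4, Ne.symm r4⟩, r5⟩) (by
          intro u hu
          simp only [List.mem_cons, List.not_mem_nil, or_false] at hu
          rcases hu with rfl | rfl | rfl | rfl | rfl | rfl
          · exact mx
          · exact my
          · exact mz
          · exact (h.mem _ _ hk).1
          · exact (h.mem _ _ hk).2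
          · exact (h.mem _ _ hr).2)
        simp at this
        omega
      · rintro (⟨rfl, rfl⟩ | ⟨rfl, rfl⟩ | ⟨rfl, rfl⟩) <;> assumption
  right
  have nxw : x ≠ w := fun e => hwx e.symm
  obtain ⟨v, hwv⟩ := h.next hzw
  have nwv := h.ne hwv
  have nzv : z ≠ v := by rintro rfl; exact h.anti _ _ hzw hwv
  have nyv : y ≠ v := by rintro rfl; exact nxw (ui hxy hwv)
  have mv := (h.mem _ _ hwv).2
  by_cases hvx : v = x
  · rw [hvx] at hwv
    left
    refine ⟨x, y, z, w, ?_, ?_, ?_⟩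
    · simp only [List.nodup_cons, List.mem_cons, List.not_mem_nil, or_false, not_or,
        not_false_eq_true, List.nodup_nil, and_true]
      exact ⟨⟨nxy, nxz, nxw⟩, ⟨nyz, nyw⟩, nzw⟩
    · intro u hu
      simp only [List.mem_cons, List.not_mem_nil, or_false] at hu
      rcases hu with rfl | rfl | rfl | rfl <;> assumption
    · intro c q
      unfold C4
      constructor
      · intro hk
        by_cases c1 : c = x
        · subst c1; exact Or.inl ⟨rfl, uo hk hxy⟩
        by_cases c2 : c = y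
        · subst c2; exact Or.inr (Or.inl ⟨rfl, uo hk hyz⟩)
        by_cases c3 : c = z
        · subst c3; exact Or.inr (Or.inr (Or.inl ⟨rfl, uo hk hzw⟩))
        by_cases c4 : c = w
        · subst c4; exact Or.inr (Or.inr (Or.inr ⟨rfl, uo hk hwv⟩))
        exfalso
        have q1 : q ≠ x := by rintro rfl; exact c4 (ui hk hwv)
        have q2 : q ≠ y := by rintro rfl; exact c1 (ui hk hxy)
        have q3 : q ≠ z := by rintro rfl; exact c2 (ui hk hyz)
        have q4 : q ≠ w := by rintro rfl; exact c3 (ui hk hzw)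
        have q5 := h.ne hk
        have := card_list (P := P) (l := [x, y, z, w, c, q]) (by
          simp only [List.nodup_cons, List.mem_cons, List.not_mem_nil, or_false, not_or,
            not_false_eq_true, List.nodup_nil, and_true]
          exact ⟨⟨nxy, nxz, nxw, Ne.symm c1, Ne.symm q1⟩,
            ⟨nyz, nyw, Ne.symm c2, Ne.symm q2⟩, ⟨nzw, Ne.symm c3, Ne.symm q3⟩,
            ⟨Ne.symm c4, Ne.symm q4⟩, q5⟩) (by
          intro u hu
          simp only [List.mem_cons, List.not_mem_nil, or_false] at hu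
          rcases hu with rfl | rfl | rfl | rfl | rfl | rfl
          · exact mx
          · exact my
          · exact mz
          · exact mw
          · exact (h.mem _ _ hk).1
          · exact (h.mem _ _ hk).2)
        simp at this
        omega
      · rintro (⟨rfl, rfl⟩ | ⟨rfl, rfl⟩ | ⟨rfl, rfl⟩ | ⟨rfl, rfl⟩) <;> assumption
  right
  have nxv : x ≠ v := fun e => hvx e.symm
  obtain ⟨u, hvu⟩ := h.next hwv
  have hux : u = x := by
    by_contra hux
    have u2 : u ≠ y := by rintro rfl; exact nxv (ui hxy hvu)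
    have u3 : u ≠ z := by rintro rfl; exact nyv (ui hyz hvu)
    have u4 : u ≠ w := by rintro rfl; exact h.anti _ _ hwv hvu
    have u5 := h.ne hvu
    have := card_list (P := P) (l := [x, y, z, w, v, u]) (by
      simp only [List.nodup_cons, List.mem_cons, List.not_mem_nil, or_false, not_or,
        not_false_eq_true, List.nodup_nil, and_true]
      exact ⟨⟨nxy, nxz, nxw, nxv, Ne.symm hux⟩,
        ⟨nyz, nyw, nyv, Ne.symm u2⟩, ⟨nzw, nzv, Ne.symm u3⟩,
        ⟨nwv, Ne.symm u4⟩, u5⟩) (by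
      intro u hu
      simp only [List.mem_cons, List.not_mem_nil, or_false] at hu
      rcases hu with rfl | rfl | rfl | rfl | rfl | rfl
      · exact mx
      · exact my
      · exact mz
      · exact mw
      · exact mv
      · exact (h.mem _ _ hvu).2)
    simp at this
    omega
  rw [hux] at hvu
  refine ⟨x, y, z, w, v, ?_, ?_, ?_⟩
  · simp only [List.nodup_cons, List.mem_cons, List.not_mem_nil, or_false, not_or,
      not_false_eq_true, List.nodup_nil, and_true]
    exact ⟨⟨nxy, nxz, nxw, nxv⟩, ⟨nyz, nyw, nyv⟩, ⟨nzw, nzv⟩, nwv⟩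
  · intro u hu
    simp only [List.mem_cons, List.not_mem_nil, or_false] at hu
    rcases hu with rfl | rfl | rfl | rfl | rfl <;> assumption
  · intro c q
    unfold C5
    constructor
    · intro hk
      by_cases c1 : c = x
      · subst c1; exact Or.inl ⟨rfl, uo hk hxy⟩
      by_cases c2 : c = y
      · subst c2; exact Or.inr (Or.inl ⟨rfl, uo hk hyz⟩)
      by_cases c3 : c = z
      · subst c3; exact Or.inr (Or.inr (Or.inl ⟨rfl, uo hk hzw⟩))
      by_cases c4 : c = w
      · subst c4; exact Or.inr (Or.inr (Or.inr (Or.inl ⟨rfl, uo hk hwv⟩)))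
      by_cases c5 : c = v
      · subst c5; exact Or.inr (Or.inr (Or.inr (Or.inr ⟨rfl, uo hk hvu⟩)))
      exfalso
      have := card_list (P := P) (l := [x, y, z, w, v, c]) (by
        simp only [List.nodup_cons, List.mem_cons, List.not_mem_nil, or_false, not_or,
          not_false_eq_true, List.nodup_nil, and_true]
        exact ⟨⟨nxy, nxz, nxw, nxv, Ne.symm c1⟩,
          ⟨nyz, nyw, nyv, Ne.symm c2⟩, ⟨nzw, nzv, Ne.symm c3⟩,
          ⟨nwv, Ne.symm c4⟩, Ne.symm c5⟩) (by
        intro u hu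
        simp only [List.mem_cons, List.not_mem_nil, or_false] at hu
        rcases hu with rfl | rfl | rfl | rfl | rfl | rfl
        · exact mx
        · exact my
        · exact mz
        · exact mw
        · exact mv
        · exact (h.mem _ _ hk).1)
      simp at this
      omega
    · rintro (⟨rfl, rfl⟩ | ⟨rfl, rfl⟩ | ⟨rfl, rfl⟩ | ⟨rfl, rfl⟩ | ⟨rfl, rfl⟩) <;> assumption

lemma sE_C3 {x y z : ℂ} (hd : [x, y, z].Nodup) (hm : ∀ u ∈ [x, y, z], u ∈ P)
    (hK : ∀ c q, K c q ↔ C3 x y z c q) (f : ℂ → ℂ → ℝ) :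
    sE P K f = f x y + f y z + f z x := by
  simp only [List.nodup_cons, List.mem_cons, List.not_mem_nil, or_false, not_or,
    not_false_eq_true, List.nodup_nil, and_true] at hd
  obtain ⟨⟨d1, d2⟩, d3⟩ := hd
  have mx := hm x (by simp)
  have my := hm y (by simp)
  have mz := hm z (by simp)
  have s0 := sE_insert (P := P) (X := fun c q => False ∨ (c = x ∧ q = y)) (X' := fun _ _ => False)
    (f := f) (a := x) (b := y) (fun _ _ => Iff.rfl) (fun h => h) mx my
  have s1 := sE_insert (P := P) (X := fun c q => (False ∨ (c = x ∧ q = y)) ∨ (c = y ∧ q = z))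
    (X' := fun c q => False ∨ (c = x ∧ q = y)) (f := f) (a := y) (b := z) (fun _ _ => Iff.rfl)
    (by tauto) my mz
  have s2 := sE_insert (P := P) (X := K)
    (X' := fun c q => (False ∨ (c = x ∧ q = y)) ∨ (c = y ∧ q = z)) (f := f) (a := z) (b := x)
    (fun c q => by rw [hK]; unfold C3; tauto) (by tauto) mz mx
  rw [s2, s1, s0, sE_false (fun _ _ h => h)]; ring

lemma sE_C4 {x y z w : ℂ} (hd : [x, y, z, w].Nodup) (hm : ∀ u ∈ [x, y, z, w], u ∈ P)
    (hK : ∀ c q, K c q ↔ C4 x y z w c q) (f : ℂ → ℂ → ℝ) :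
    sE P K f = f x y + f y z + f z w + f w x := by
  simp only [List.nodup_cons, List.mem_cons, List.not_mem_nil, or_false, not_or,
    not_false_eq_true, List.nodup_nil, and_true] at hd
  obtain ⟨⟨d1, d2, d3⟩, ⟨d4, d5⟩, d6⟩ := hd
  have mx := hm x (by simp)
  have my := hm y (by simp)
  have mz := hm z (by simp)
  have mw := hm w (by simp)
  have s0 := sE_insert (P := P) (X := fun c q => False ∨ (c = x ∧ q = y)) (X' := fun _ _ => False)
    (f := f) (a := x) (b := y) (fun _ _ => Iff.rfl) (fun h => h) mx my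
  have s1 := sE_insert (P := P) (X := fun c q => (False ∨ (c = x ∧ q = y)) ∨ (c = y ∧ q = z))
    (X' := fun c q => False ∨ (c = x ∧ q = y)) (f := f) (a := y) (b := z) (fun _ _ => Iff.rfl)
    (by tauto) my mz
  have s2 := sE_insert (P := P)
    (X := fun c q => ((False ∨ (c = x ∧ q = y)) ∨ (c = y ∧ q = z)) ∨ (c = z ∧ q = w))
    (X' := fun c q => (False ∨ (c = x ∧ q = y)) ∨ (c = y ∧ q = z)) (f := f) (a := z) (b := w)
    (fun _ _ => Iff.rfl) (by tauto) mz mw
  have s3 := sE_insert (P := P) (X := K)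
    (X' := fun c q => ((False ∨ (c = x ∧ q = y)) ∨ (c = y ∧ q = z)) ∨ (c = z ∧ q = w)) (f := f)
    (a := w) (b := x)
    (fun c q => by rw [hK]; unfold C4; tauto) (by tauto) mw mx
  rw [s3, s2, s1, s0, sE_false (fun _ _ h => h)]; ring

lemma sE_C5 {x y z w v : ℂ} (hd : [x, y, z, w, v].Nodup) (hm : ∀ u ∈ [x, y, z, w, v], u ∈ P)
    (hK : ∀ c q, K c q ↔ C5 x y z w v c q) (f : ℂ → ℂ → ℝ) :
    sE P K f = f x y + f y z + f z w + f w v + f v x := by
  simp only [List.nodup_cons, List.mem_cons, List.not_mem_nil, or_false, not_or,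
    not_false_eq_true, List.nodup_nil, and_true] at hd
  obtain ⟨⟨d1, d2, d3, d4⟩, ⟨d5, d6, d7⟩, ⟨d8, d9⟩, d10⟩ := hd
  have mx := hm x (by simp)
  have my := hm y (by simp)
  have mz := hm z (by simp)
  have mw := hm w (by simp)
  have mv := hm v (by simp)
  have s0 := sE_insert (P := P) (X := fun c q => False ∨ (c = x ∧ q = y)) (X' := fun _ _ => False)
    (f := f) (a := x) (b := y) (fun _ _ => Iff.rfl) (fun h => h) mx my
  have s1 := sE_insert (P := P) (X := fun c q => (False ∨ (c = x ∧ q = y)) ∨ (c = y ∧ q = z))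
    (X' := fun c q => False ∨ (c = x ∧ q = y)) (f := f) (a := y) (b := z) (fun _ _ => Iff.rfl)
    (by tauto) my mz
  have s2 := sE_insert (P := P)
    (X := fun c q => ((False ∨ (c = x ∧ q = y)) ∨ (c = y ∧ q = z)) ∨ (c = z ∧ q = w))
    (X' := fun c q => (False ∨ (c = x ∧ q = y)) ∨ (c = y ∧ q = z)) (f := f) (a := z) (b := w)
    (fun _ _ => Iff.rfl) (by tauto) mz mw
  have s3 := sE_insert (P := P)
    (X := fun c q => (((False ∨ (c = x ∧ q = y)) ∨ (c = y ∧ q = z)) ∨ (c = z ∧ q = w)) ∨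
      (c = w ∧ q = v))
    (X' := fun c q => ((False ∨ (c = x ∧ q = y)) ∨ (c = y ∧ q = z)) ∨ (c = z ∧ q = w)) (f := f)
    (a := w) (b := v)
    (fun _ _ => Iff.rfl) (by tauto) mw mv
  have s4 := sE_insert (P := P) (X := K)
    (X' := fun c q => (((False ∨ (c = x ∧ q = y)) ∨ (c = y ∧ q = z)) ∨ (c = z ∧ q = w)) ∨
      (c = w ∧ q = v)) (f := f)
    (a := v) (b := x)
    (fun c q => by rw [hK]; unfold C5; tauto) (by tauto) mv mx
  rw [s4, s3, s2, s1, s0, sE_false (fun _ _ h => h)]; ring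

/-- isoperimetric inequality for quadrilaterals -/
lemma quad_area (x y z w : ℂ) : (cr x y + cr y z + cr z w + cr w x) / 2
    ≤ (‖y - x‖ / 2) ^ 2 + (‖z - y‖ / 2) ^ 2 + (‖w - z‖ / 2) ^ 2 + (‖x - w‖ / 2) ^ 2 := by
  simp only [div_pow, norm_sq_eq, cr, Complex.sub_re, Complex.sub_im]
  nlinarith [sq_nonneg ((z.re - x.re) - (w.im - y.im)), sq_nonneg ((z.im - x.im) + (w.re - y.re)),
    sq_nonneg (y.re - x.re + w.re - z.re), sq_nonneg (y.im - x.im + w.im - z.im)]

/-- value of a closed pentagon -/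
noncomputable def F0 (D : ℝ) (x y z w v : ℂ) : ℝ :=
  2 * kap D + GG D (‖y - x‖ / 2) + GG D (‖z - y‖ / 2) + GG D (‖w - z‖ / 2) + GG D (‖v - w‖ / 2)
    + GG D (‖x - v‖ / 2) - (1 - D) * ((cr x y + cr y z + cr z w + cr w v + cr v x) / 2)

/-- **Clusters of five points**, under the pentagon hypothesis. -/
theorem score_five {D : ℝ} (hD0 : 0 ≤ D) (hD1 : D ≤ 1) (hk : 0 ≤ kap D)
    (hM : ∀ a, 0 < a → a < 1 → -(kap D / 4) ≤ GG D a)
    (h3 : ∀ a, 0 < a → a < 1 → 0 ≤ kap D / 3 + GG D a - (1 - D) * a ^ 2 / √3)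
    (h4 : ∀ a, 0 < a → a < 1 → 0 ≤ 3 * kap D / 8 + GG D a - (1 - D) * a ^ 2)
    {S P : Finset ℂ} (hG : Gen S) (hP : Closed S P) (hc : P.card = 5)
    (h5 : ∀ x y z w v, [x, y, z, w, v].Nodup → (∀ u ∈ [x, y, z, w, v], u ∈ P) →
      Sh x y → Sh y z → Sh z w → Sh w v → Sh v x → 0 ≤ F0 D x y z w v) :
    0 ≤ P.card * (2 * kap D) + sE P (Eg S) (asg2 D S (MX S P)) := by
  obtain ⟨T, hF, hBS, hcnt, hmain⟩ := score_bd hD0 hD1 hk hM hG hP hc
  refine le_trans ?_ hmain
  have hCirc := Circ_Bd hF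
  have hpar := parity hF
  have hthree := three_dvd (nE P (Lf T)) T hF rfl
  have pos : ∀ {x y : ℂ}, x ≠ y → Sh x y → 0 < ‖y - x‖ / 2 ∧ ‖y - x‖ / 2 < 1 := by
    intro x y hne hs
    have : 0 < ‖y - x‖ := norm_pos_iff.mpr (sub_ne_zero.mpr (Ne.symm hne))
    unfold Sh at hs
    constructor <;> linarith
  have hs3 := sqrt3_pos
  by_cases hb : nE P (Bd T) ≤ 5
  · rcases hCirc.cases hc hb with h0 | ⟨x, y, z, hd, hm, hK⟩ | ⟨x, y, z, w, hd, hm, hK⟩ |
      ⟨x, y, z, w, v, hd, hm, hK⟩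
    · rw [sE_false h0, sE_false h0]
      have : (0:ℝ) ≤ nE P (Lf T) := Nat.cast_nonneg _
      have : (0:ℝ) ≤ nE P (Bd T) := Nat.cast_nonneg _
      have : 0 ≤ kap D / 4 * (nE P (Lf T) / 3 + nE P (Bd T)) := by positivity
      linarith
    · have hcb := sE_C3 hd hm hK (fun _ _ => 1)
      rw [sE_one] at hcb
      have hb3 : (nE P (Bd T) : ℝ) = 3 := by linarith
      have hm3 : (3 : ℝ) ≤ nE P (Lf T) := by
        rw [← hb3]; exact_mod_cast hpar.2
      rw [sE_C3 hd hm hK, sE_C3 hd hm hK, hb3]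
      have d := hd
      simp only [List.nodup_cons, List.mem_cons, List.not_mem_nil, or_false, not_or,
        not_false_eq_true, List.nodup_nil, and_true] at d
      obtain ⟨⟨d1, d2⟩, d3⟩ := d
      have p1 := pos d1 (hBS _ _ ((hK x y).mpr (by unfold C3; tauto)))
      have p2 := pos d3 (hBS _ _ ((hK y z).mpr (by unfold C3; tauto)))
      have p3 := pos (Ne.symm d2) (hBS _ _ ((hK z x).mpr (by unfold C3; tauto)))
      have w1 := h3 _ p1.1 p1.2
      have w2 := h3 _ p2.1 p2.2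
      have w3 := h3 _ p3.1 p3.2
      have ha := area_w (x := x) (y := y) (z := z)
      have hXX : XX x y z = cr x y + cr y z + cr z x := by
        simp only [XX, cr, Complex.sub_re, Complex.sub_im]; ring
      rw [hXX] at ha
      have ha2 : (1 - D) * ((cr x y + cr y z + cr z x) / 2)
          ≤ (1 - D) * (((‖y - x‖ / 2) ^ 2 + (‖z - y‖ / 2) ^ 2 + (‖x - z‖ / 2) ^ 2) / √3) :=
        mul_le_mul_of_nonneg_left ha (by linarith)
      have e : (1 - D) * (((‖y - x‖ / 2) ^ 2 + (‖z - y‖ / 2) ^ 2 + (‖x - z‖ / 2) ^ 2) / √3)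
          = (1 - D) * (‖y - x‖ / 2) ^ 2 / √3 + (1 - D) * (‖z - y‖ / 2) ^ 2 / √3
            + (1 - D) * (‖x - z‖ / 2) ^ 2 / √3 := by ring
      rw [e] at ha2
      have hk3 : kap D / 4 * (3 / 3 + 3) ≤ kap D / 4 * (nE P (Lf T) / 3 + 3) := by
        apply mul_le_mul_of_nonneg_left _ (by positivity); linarith
      linarith
    · have hcb := sE_C4 hd hm hK (fun _ _ => 1)
      rw [sE_one] at hcb
      have hb4 : (nE P (Bd T) : ℝ) = 4 := by linarith
      have hb4' : nE P (Bd T) = 4 := by exact_mod_cast hb4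
      have hm6 : (6 : ℝ) ≤ nE P (Lf T) := by
        have : 6 ≤ nE P (Lf T) := by omega
        exact_mod_cast this
      rw [sE_C4 hd hm hK, sE_C4 hd hm hK, hb4]
      have d := hd
      simp only [List.nodup_cons, List.mem_cons, List.not_mem_nil, or_false, not_or,
        not_false_eq_true, List.nodup_nil, and_true] at d
      obtain ⟨⟨d1, d2, d3⟩, ⟨d4, d5⟩, d6⟩ := d
      have p1 := pos d1 (hBS _ _ ((hK x y).mpr (by unfold C4; tauto)))
      have p2 := pos d4 (hBS _ _ ((hK y z).mpr (by unfold C4; tauto)))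
      have p3 := pos d6 (hBS _ _ ((hK z w).mpr (by unfold C4; tauto)))
      have p4 := pos (Ne.symm d3) (hBS _ _ ((hK w x).mpr (by unfold C4; tauto)))
      have w1 := h4 _ p1.1 p1.2
      have w2 := h4 _ p2.1 p2.2
      have w3 := h4 _ p3.1 p3.2
      have w4 := h4 _ p4.1 p4.2
      have ha := quad_area x y z w
      have ha2 := mul_le_mul_of_nonneg_left ha (by linarith : 0 ≤ 1 - D)
      have hk3 : kap D / 4 * (6 / 3 + 4) ≤ kap D / 4 * (nE P (Lf T) / 3 + 4) := by
        apply mul_le_mul_of_nonneg_left _ (by positivity); linarith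
      linarith
    · have hcb := sE_C5 hd hm hK (fun _ _ => 1)
      rw [sE_one] at hcb
      have hb5 : (nE P (Bd T) : ℝ) = 5 := by linarith
      have hb5' : nE P (Bd T) = 5 := by exact_mod_cast hb5
      have hm9 : (9 : ℝ) ≤ nE P (Lf T) := by
        obtain ⟨⟨k, hk⟩, hle⟩ := hpar
        obtain ⟨j, hj⟩ := hthree
        have : 9 ≤ nE P (Lf T) := by omega
        exact_mod_cast this
      rw [sE_C5 hd hm hK, sE_C5 hd hm hK, hb5]
      have s1 := hBS _ _ ((hK x y).mpr (by unfold C5; tauto))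
      have s2 := hBS _ _ ((hK y z).mpr (by unfold C5; tauto))
      have s3 := hBS _ _ ((hK z w).mpr (by unfold C5; tauto))
      have s4 := hBS _ _ ((hK w v).mpr (by unfold C5; tauto))
      have s5 := hBS _ _ ((hK v x).mpr (by unfold C5; tauto))
      have := h5 x y z w v hd hm s1 s2 s3 s4 s5
      unfold F0 at this
      have hk3 : kap D / 4 * (9 / 3 + 5) ≤ kap D / 4 * (nE P (Lf T) / 3 + 5) := by
        apply mul_le_mul_of_nonneg_left _ (by positivity); linarith
      linarith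
  · have hb6 : nE P (Bd T) = 6 ∧ nE P (Lf T) = 6 := by omega
    -- all directed edges are boundary edges
    have hsplit := sE_split (P := P) (X := Lf T) (Y := fun c q => Lf T q c)
      (fun c q => (‖q - c‖ / 2) ^ 2)
    have hz : sE P (fun c q => Lf T c q ∧ Lf T q c) (fun c q => (‖q - c‖ / 2) ^ 2) = 0 := by
      have hs := nE_split (P := P) (Lf T) (fun c q => Lf T q c)
      have h2 : nE P (fun c q => Lf T c q ∧ ¬ Lf T q c) = nE P (Bd T) := rfl
      have h0 : nE P (fun c q => Lf T c q ∧ Lf T q c) = 0 := by omega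
      apply sE_false
      rintro c q ⟨⟨r, hr⟩, h'⟩
      have h1 := nE_list (P := P) (K := fun c q => Lf T c q ∧ Lf T q c) (l := [(c, q)]) (by simp) (by
        intro x hx
        rw [List.mem_singleton] at hx
        subst hx
        exact ⟨(hF.tr _ _ _ hr).1, (hF.tr _ _ _ hr).2.1, ⟨r, hr⟩, h'⟩)
      rw [h0] at h1
      simp at h1
    have hB : sE P (fun c q => Lf T c q ∧ ¬ Lf T q c) (fun c q => (‖q - c‖ / 2) ^ 2)
        = sE P (Bd T) (fun c q => (‖q - c‖ / 2) ^ 2) := rfl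
    rw [hz, hB, zero_add] at hsplit
    -- area
    have harea : sE P (Bd T) cr / 2 ≤ sE P (Bd T) (fun c q => (‖q - c‖ / 2) ^ 2) / √3 := by
      have s1 := shoelace (P := P) hF
      have s2 : sT P T XX ≤ sT P T (fun c q r => (2 / √3) * ((‖q - c‖ / 2) ^ 2
          + (‖r - q‖ / 2) ^ 2 + (‖c - r‖ / 2) ^ 2)) := by
        apply sT_mono
        intro c q r _
        have := area_w (x := c) (y := q) (z := r)
        have e : (2 / √3) * ((‖q - c‖ / 2) ^ 2 + (‖r - q‖ / 2) ^ 2 + (‖c - r‖ / 2) ^ 2)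
          = 2 * (((‖q - c‖ / 2) ^ 2 + (‖r - q‖ / 2) ^ 2 + (‖c - r‖ / 2) ^ 2) / √3) := by ring
        rw [e]; linarith
      have s3 := sT_avg (P := P) hF.cyc (fun c q _ => (‖q - c‖ / 2) ^ 2)
      rw [sT_edge hF (fun c q => (‖q - c‖ / 2) ^ 2)] at s3
      rw [sT_mul, s3, s1, hsplit] at s2
      have e : 2 / √3 * (3 * sE P (Bd T) (fun c q => (‖q - c‖ / 2) ^ 2))
        = 6 * (sE P (Bd T) (fun c q => (‖q - c‖ / 2) ^ 2) / √3) := by ring
      rw [e] at s2
      linarith
    have hge : 0 ≤ sE P (Bd T) (fun c q => kap D / 3 + (GG D (‖q - c‖ / 2)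
        - (1 - D) / √3 * (‖q - c‖ / 2) ^ 2)) := by
      have : sE P (Bd T) (fun _ _ => 0) ≤ sE P (Bd T) (fun c q => kap D / 3 + (GG D (‖q - c‖ / 2)
        - (1 - D) / √3 * (‖q - c‖ / 2) ^ 2)) := by
        apply sE_mono
        intro c _ q _ h
        have hne := hCirc.ne h
        have p := pos hne (hBS _ _ h)
        have := h3 _ p.1 p.2
        have e : (1 - D) / √3 * (‖q - c‖ / 2) ^ 2 = (1 - D) * (‖q - c‖ / 2) ^ 2 / √3 := by ring
        rw [e]; linarith
      rw [sE_const, zero_mul] at this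
      exact this
    rw [sE_add, sE_sub, sE_smul, sE_const, hb6.1] at hge
    rw [hb6.1, hb6.2]
    have hfin : (1 - D) * (sE P (Bd T) cr / 2)
        ≤ (1 - D) / √3 * sE P (Bd T) (fun c q => (‖q - c‖ / 2) ^ 2) := by
      have := mul_le_mul_of_nonneg_left harea (by linarith : 0 ≤ 1 - D)
      calc _ ≤ _ := this
        _ = _ := by ring
    push_cast at hge ⊢
    linarith

end

end FT58
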