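import Mathlib

/-!
# Translative packings and unions of unit disks: definitions
-/

namespace FT58

open MeasureTheory Set Metric Filter

/-- The union of the `n` closed unit disks centred at `c 0, …, c (n-1)`. -/
def unitDisks {E : Type*} [PseudoMetricSpace E] {n : ℕ} (c : Fin n → E) : Set E :=
  ⋃ i, closedBall (c i) 1

/-- The translate `C + v`. -/
def translate {E : Type*} [AddCommGroup E] (C : Set E) (v : E) : Set E := (fun x => x + v) '' C

/-- `V` is the set of translation vectors of a translative packing of `C`: the translates
`C + v`, `v ∈ V`, have pairwise disjoint interiors. -/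
def IsTransPacking {E : Type*} [NormedAddCommGroup E] (C V : Set E) : Prop :=
  ∀ v ∈ V, ∀ w ∈ V, v ≠ w → Disjoint (interior (translate C v)) (interior (translate C w))

/-- Upper density of a set: `limsup` of `area (B_R ∩ X) / area B_R` as `R → ∞`. -/
noncomputable def upperDensity {E : Type*} [NormedAddCommGroup E] [MeasureSpace E] (X : Set E) :
    ENNReal :=
  limsup (fun R : ℝ => volume (closedBall (0 : E) R ∩ X) / volume (closedBall (0 : E) R)) atTop

/-- The translative packing density `δ_T(C)`. -/
noncomputable def transDensity {E : Type*} [NormedAddCommGroup E] [MeasureSpace E] (C : Set E) :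
    ENNReal :=
  ⨆ (V : Set E) (_ : IsTransPacking C V), upperDensity (⋃ v ∈ V, translate C v)

/-- `d_T(n)`: the supremum of `δ_T(C)` over all unions `C` of `n` unit disks. -/
noncomputable def dT (E : Type*) [NormedAddCommGroup E] [MeasureSpace E] (n : ℕ) : ENNReal :=
  ⨆ c : Fin n → E, transDensity (unitDisks c)

/-- The centres `p, p + s u, …, p + (n-1) s u` of a chain of `n` disks with spacing `s` in
direction `u`. -/
def chain {E : Type*} [NormedAddCommGroup E] [NormedSpace ℝ E] (n : ℕ) (p u : E) (s : ℝ) :
    Fin n → E := fun i => p + ((i : ℕ) * s) • u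

/-- The area of a chain of `n` unit disks with spacing `s ∈ [0, 2]` divided by the area of a
fundamental cell of its densest lattice packing. -/
noncomputable def chainDensity (n : ℕ) (s : ℝ) : ℝ :=
  (Real.pi + ((n : ℝ) - 1) * (2 * Real.arcsin (s / 2) + s / 2 * √(4 - s ^ 2))) /
    (2 * √3 + ((n : ℝ) - 1) * (s / 2) * √(16 - s ^ 2))

end FT58
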