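import Pool.Agent.Lib.MP_49fa77_co.Opp

/-!
# Discharging
-/

namespace FT58

open Real MeasureTheory Set

/-- slack of a triangle -/
noncomputable def slk (D : ℝ) (S : Finset ℂ) (c q r : ℂ) : ℝ :=
  val2 D S c q + val2 D S q r + val2 D S r c - (gv D c q + gv D q r + gv D r c)

namespace Cf
variable {J : Type*} {D : ℝ} {S : Finset ℂ} {cl : ℂ → J} {p : J → Fin 5 → ℂ} {Q : J → Finset ℂ}

lemma slk_L (h : Cf D S cl p Q) {a b y : ℂ} (hT : Tr S a b y) (hab : Sh a b)
    (hy : cl y ≠ cl a) : slk D S a b y = D * SS a b y := by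
  have e := h.same hT.1 hT.2.1 hab
  have h2 := h.long hT.2.1 hT.2.2.1 (fun e' => hy (by rw [← e', e]))
  have h3 := h.long hT.2.2.1 hT.1 hy
  have := h.SS_val hT hab hy
  unfold slk gv
  rw [if_pos hab, if_neg h2, if_neg h3]
  linarith

lemma slk_cyc (D : ℝ) (S : Finset ℂ) (c q r : ℂ) : slk D S q r c = slk D S c q r := by
  unfold slk; ring

lemma sum_lt {A B : ℝ} (hD : 0.96299 ≤ D) (hA : 0 ≤ A) (hB : 0 ≤ B)
    (h : D * A + D * B < 0.0038) : A + B ≤ 0.00395 := by
  by_contra hcon
  push Not at hcon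
  nlinarith

/-- **Two triangles with a short side on both sides of a long edge.** -/
theorem pair_slack (h : Cf D S cl p Q) (hD : 0.96299 ≤ D) {c q r r' : ℂ} (hT : Tr S c q r)
    (hT' : Tr S q c r') (hcq : cl c ≠ cl q) (hl : Sh q r ∨ Sh r c) (hr : Sh c r' ∨ Sh r' q) :
    0.0038 ≤ slk D S c q r + slk D S q c r' := by
  by_contra hcon
  push Not at hcon
  have hc := hT.1
  have hq := hT.2.1
  have hrS := hT.2.2.1
  have hrS' := hT'.2.2.1
  have hX := Tr_XX hT
  have hX' := Tr_XX hT'
  have hXrc : XX r c q = XX c q r := by rw [← XX_cyc r c q]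
  have hXqr : XX q r c = XX c q r := XX_cyc c q r
  have hXrq' : XX r' q c = XX q c r' := by rw [← XX_cyc r' q c]
  have hXcr' : XX c r' q = XX q c r' := XX_cyc q c r'
  rcases hl with hl | hl <;> rcases hr with hr | hr
  · -- L2 R2
    have hTl := Tr_cyc hT
    have hTr := Tr_cyc hT'
    have el := h.same hq hrS hl
    have er := h.same hc hrS' hr
    have s1 := h.slk_L hTl hl (y := c) hcq
    have s2 := h.slk_L hTr hr (y := q) (Ne.symm hcq)
    rw [slk_cyc] at s1 s2
    have n1 := h.SS_nonneg hTl hl hcq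
    have n2 := h.SS_nonneg hTr hr (Ne.symm hcq)
    rw [s1, s2] at hcon
    have hS := sum_lt hD n1 n2 hcon
    obtain ⟨k, hk1, hk2⟩ := h.T1_side hTl el hcq
    obtain ⟨m, hm1, hm2⟩ := h.T1_side hTr er (Ne.symm hcq)
    -- strictness
    have hS1 : SS q r c < 0.00395 ∨ SS q r c = 0.00395 := lt_or_eq_of_le (by linarith)
    have hlt : SS q r c + SS c r' q < 0.00395 := by
      by_contra hc2
      push Not at hc2
      nlinarith
    have t1 := (h.SS_tight hTl hl hcq (by linarith)).1
    have t2 := (h.SS_tight hTr hr (Ne.symm hcq) (by linarith)).1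
    refine opp (h.pc c hc).nr (h.pc q hq).nr (h.n2 c hc q hq) (i := m) (j := k)
      (e := q - c) (u := r' - c) (u' := r - q) (X := XX q c r') (Y := XX c q r) hX' hX
      (Or.inr ⟨?_, ?_⟩) (Or.inr ⟨?_, ?_⟩) n2 n1 (by linarith) ?_ ?_
    · simp only [XX, cr, Complex.sub_re, Complex.sub_im]; ring
    · simp only [XX, cr, Complex.sub_re, Complex.sub_im]; ring
    · unfold sl; rw [← hm1, ← hm2]; ring
    · unfold sl; rw [← hk1, ← hk2]; ring
    · rw [hXcr'] at t2; exact t2
    · rw [hXqr] at t1
      have e : dt (r - q) (c - q) = -dt (r - q) (q - c) := by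
        simp only [dt, Complex.sub_re, Complex.sub_im]; ring
      rw [e] at t1; exact t1
  · -- L2 R1: fan at `q`
    have hTl := Tr_cyc hT
    have hTr := Tr_cyc (Tr_cyc hT')
    have el := h.same hq hrS hl
    have er := h.same hrS' hq hr
    have hcr' : cl c ≠ cl r' := by rw [er]; exact hcq
    have s1 := h.slk_L hTl hl (y := c) hcq
    have s2 := h.slk_L hTr hr (y := c) hcr'
    rw [slk_cyc] at s1
    rw [slk_cyc, slk_cyc] at s2
    have n1 := h.SS_nonneg hTl hl hcq
    have n2 := h.SS_nonneg hTr hr hcr'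
    rw [s1, s2] at hcon
    obtain ⟨k, hk1, hk2⟩ := h.T1_side hTl el hcq
    obtain ⟨m, hm1, hm2⟩ := h.T1_side hTr er hcr'
    have hlt : SS q r c + SS r' q c < 0.00395 := by
      by_contra hc2
      push Not at hc2
      nlinarith
    have t1 := (h.SS_tight hTl hl hcq (by linarith)).1
    have t2 := (h.SS_tight hTr hr hcr' (by linarith)).2
    have r1 := (h.pc q hq).nr.rg k
    have r2 := (h.pc r' hrS').nr.rg m
    have e1 : ‖r - q‖ = ‖sl (p (cl q)) k‖ := by
      unfold sl; rw [← hk1, ← hk2, norm_sub_rev]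
    have e2 : ‖q - r'‖ = ‖sl (p (cl r')) m‖ := by
      unfold sl; rw [← hm1, ← hm2, norm_sub_rev]
    rw [← e1] at r1
    rw [← e2] at r2
    have q1 := tight_pos r1.1 r1.2 (by linarith) t1
    have q2 := tight_pos r2.1 r2.2 (by linarith) t2
    rw [hXqr] at q1
    rw [hXrq'] at q2
    have q1' : 0 < dt (r - q) (c - q) := by
      by_contra hc2
      have := div_nonpos_of_nonpos_of_nonneg (not_lt.mp hc2) hX.le
      linarith
    have q2' : 0 < dt (c - q) (r' - q) := by
      by_contra hc2
      have := div_nonpos_of_nonpos_of_nonneg (not_lt.mp hc2) hX'.le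
      linarith
    have hmk : m = k + 1 := by
      apply (h.pc q hq).inj
      have a1 : p (cl q) m = q := by rw [← er]; exact hm2.symm
      exact a1.trans hk1
    refine fan (e := c - q) (u := r' - q) (u' := r - q) q2' ?_ ?_ ?_ ?_
    · have : dt (c - q) (r - q) = dt (r - q) (c - q) := by simp only [dt]; ring
      rw [this]; exact q1'
    · have : cr (c - q) (r' - q) = XX q c r' := rfl
      rw [this]; exact hX'
    · have : cr (c - q) (r - q) = -XX c q r := by
        simp only [XX, cr, Complex.sub_re, Complex.sub_im]; ring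
      rw [this]; linarith
    · have hc1 := (h.pc q hq).nr.c1 k
      have e3 : r' - q = sl (p (cl q)) (k + 1) := by
        have a1 : r' = p (cl q) (k + 1 + 1) := by rw [← hmk, ← er]; exact hm1
        have a2 : r' - q = p (cl q) (k + 1 + 1) - p (cl q) (k + 1) := congrArg₂ _ a1 hk1
        exact a2
      have e4 : r - q = -sl (p (cl q)) k := by
        unfold sl; rw [← hk1, ← hk2]; ring
      rw [e3, e4]
      have : cr (sl (p (cl q)) (k + 1)) (-sl (p (cl q)) k)
          = cr (sl (p (cl q)) k) (sl (p (cl q)) (k + 1)) := by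
        simp only [cr, Complex.neg_re, Complex.neg_im]; ring
      rw [this]; exact hc1
  · -- L1 R2: fan at `c`
    have hTl := Tr_cyc (Tr_cyc hT)
    have hTr := Tr_cyc hT'
    have el := h.same hrS hc hl
    have er := h.same hc hrS' hr
    have hqr : cl q ≠ cl r := by rw [el]; exact Ne.symm hcq
    have s1 := h.slk_L hTl hl (y := q) hqr
    have s2 := h.slk_L hTr hr (y := q) (Ne.symm hcq)
    rw [slk_cyc, slk_cyc] at s1
    rw [slk_cyc] at s2
    have n1 := h.SS_nonneg hTl hl hqr
    have n2 := h.SS_nonneg hTr hr (Ne.symm hcq)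
    rw [s1, s2] at hcon
    obtain ⟨k, hk1, hk2⟩ := h.T1_side hTl el hqr
    obtain ⟨m, hm1, hm2⟩ := h.T1_side hTr er (Ne.symm hcq)
    have hlt : SS r c q + SS c r' q < 0.00395 := by
      by_contra hc2
      push Not at hc2
      nlinarith
    have t1 := (h.SS_tight hTl hl hqr (by linarith)).2
    have t2 := (h.SS_tight hTr hr (Ne.symm hcq) (by linarith)).1
    have r1 := (h.pc r hrS).nr.rg k
    have r2 := (h.pc c hc).nr.rg m
    have e1 : ‖c - r‖ = ‖sl (p (cl r)) k‖ := by
      unfold sl; rw [← hk1, ← hk2, norm_sub_rev]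
    have e2 : ‖r' - c‖ = ‖sl (p (cl c)) m‖ := by
      unfold sl; rw [← hm1, ← hm2, norm_sub_rev]
    rw [← e1] at r1
    rw [← e2] at r2
    have q1 := tight_pos r1.1 r1.2 (by linarith) t1
    have q2 := tight_pos r2.1 r2.2 (by linarith) t2
    rw [hXrc] at q1
    rw [hXcr'] at q2
    have q1' : 0 < dt (q - c) (r - c) := by
      by_contra hc2
      have := div_nonpos_of_nonpos_of_nonneg (not_lt.mp hc2) hX.le
      linarith
    have q2' : 0 < dt (r' - c) (q - c) := by
      by_contra hc2
      have := div_nonpos_of_nonpos_of_nonneg (not_lt.mp hc2) hX'.le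
      linarith
    have hmk : k = m + 1 := by
      apply (h.pc c hc).inj
      have a1 : p (cl c) k = c := by rw [← el]; exact hk2.symm
      exact a1.trans hm1
    refine fan (e := q - c) (u := r - c) (u' := r' - c) q1' ?_ ?_ ?_ ?_
    · have : dt (q - c) (r' - c) = dt (r' - c) (q - c) := by simp only [dt]; ring
      rw [this]; exact q2'
    · have : cr (q - c) (r - c) = XX c q r := rfl
      rw [this]; exact hX
    · have : cr (q - c) (r' - c) = -XX q c r' := by
        simp only [XX, cr, Complex.sub_re, Complex.sub_im]; ring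
      rw [this]; linarith
    · have hc1 := (h.pc c hc).nr.c1 m
      have e3 : r - c = sl (p (cl c)) (m + 1) := by
        have a1 : r = p (cl c) (m + 1 + 1) := by rw [← hmk, ← el]; exact hk1
        have a2 : r - c = p (cl c) (m + 1 + 1) - p (cl c) (m + 1) := congrArg₂ _ a1 hm1
        exact a2
      have e4 : r' - c = -sl (p (cl c)) m := by
        unfold sl; rw [← hm1, ← hm2]; ring
      rw [e3, e4]
      have : cr (sl (p (cl c)) (m + 1)) (-sl (p (cl c)) m)
          = cr (sl (p (cl c)) m) (sl (p (cl c)) (m + 1)) := by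
        simp only [cr, Complex.neg_re, Complex.neg_im]; ring
      rw [this]; exact hc1
  · -- L1 R1
    have hTl := Tr_cyc (Tr_cyc hT)
    have hTr := Tr_cyc (Tr_cyc hT')
    have el := h.same hrS hc hl
    have er := h.same hrS' hq hr
    have hqr : cl q ≠ cl r := by rw [el]; exact Ne.symm hcq
    have hcr' : cl c ≠ cl r' := by rw [er]; exact hcq
    have s1 := h.slk_L hTl hl (y := q) hqr
    have s2 := h.slk_L hTr hr (y := c) hcr'
    rw [slk_cyc, slk_cyc] at s1 s2
    have n1 := h.SS_nonneg hTl hl hqr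
    have n2 := h.SS_nonneg hTr hr hcr'
    rw [s1, s2] at hcon
    obtain ⟨k, hk1, hk2⟩ := h.T1_side hTl el hqr
    obtain ⟨m, hm1, hm2⟩ := h.T1_side hTr er hcr'
    have hlt : SS r c q + SS r' q c < 0.00395 := by
      by_contra hc2
      push Not at hc2
      nlinarith
    have t1 := (h.SS_tight hTl hl hqr (by linarith)).2
    have t2 := (h.SS_tight hTr hr hcr' (by linarith)).2
    refine opp (h.pc c hc).nr (h.pc q hq).nr (h.n2 c hc q hq) (i := k) (j := m)
      (e := q - c) (u := r - c) (u' := r' - q) (X := XX c q r) (Y := XX q c r') hX hX'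
      (Or.inl ⟨?_, ?_⟩) (Or.inl ⟨?_, ?_⟩) n1 n2 (by linarith) ?_ ?_
    · simp only [XX, cr, Complex.sub_re, Complex.sub_im]
    · simp only [XX, cr, Complex.sub_re, Complex.sub_im]; ring
    · unfold sl; rw [← el, ← hk1, ← hk2]
    · unfold sl; rw [← er, ← hm1, ← hm2]
    · rw [hXrc] at t1
      have e : dt (q - c) (r - c) = dt (r - c) (q - c) := by simp only [dt]; ring
      rw [e, norm_sub_rev] at t1; exact t1
    · rw [hXrq'] at t2
      have e : dt (c - q) (r' - q) = -dt (r' - q) (q - c) := by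
        simp only [dt, Complex.sub_re, Complex.sub_im]; ring
      rw [e, norm_sub_rev] at t2; exact t2

end Cf

end FT58
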