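import Pool.Agent.Lib.MP_49fa77_co.Disch

/-!
# The discharging sum
-/

namespace FT58

open Real MeasureTheory Set

section
open Classical

/-- sums over edges inside the clusters -/
lemma sE_clusters {J : Type*} [DecidableEq J] {S : Finset ℂ} {cl : ℂ → J} {Q : J → Finset ℂ}
    (hQ : ∀ j x, x ∈ Q j ↔ x ∈ S ∧ cl x = j) {X : ℂ → ℂ → Prop} {f : ℂ → ℂ → ℝ}
    (h0 : ∀ x ∈ S, ∀ y ∈ S, X x y → cl x ≠ cl y → f x y = 0) :
    sE S X f = ∑ j ∈ S.image cl, sE (Q j) X f := by
  unfold sE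
  rw [← Finset.sum_fiberwise_of_maps_to (s := S) (t := S.image cl) (g := cl)
    (fun x hx => Finset.mem_image_of_mem cl hx)]
  apply Finset.sum_congr rfl
  intro j _
  have hf : (S.filter (fun x => cl x = j)) = Q j := by
    ext x; rw [Finset.mem_filter, hQ]
  rw [hf]
  apply Finset.sum_congr rfl
  intro x hx
  have hx' := (hQ j x).mp hx
  symm
  apply Finset.sum_subset
  · intro y hy; exact ((hQ j y).mp hy).1
  · intro y hy hny
    by_cases hX : X x y
    · rw [if_pos hX]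
      apply h0 x hx'.1 y hy hX
      intro he
      exact hny ((hQ j y).mpr ⟨hy, by rw [← he]; exact hx'.2⟩)
    · rw [if_neg hX]

lemma card_clusters {J : Type*} [DecidableEq J] {S : Finset ℂ} {cl : ℂ → J} {Q : J → Finset ℂ}
    (hQ : ∀ j x, x ∈ Q j ↔ x ∈ S ∧ cl x = j) : S.card = ∑ j ∈ S.image cl, (Q j).card := by
  rw [Finset.card_eq_sum_card_image cl S]
  apply Finset.sum_congr rfl
  intro j _
  congr 1
  ext x; rw [Finset.mem_filter, hQ]

/-- a hull end of a short side has some excess -/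
lemma hull_short {a : ℝ} (h0 : 0.472 ≤ a) (h1 : a ≤ 1) : 0.01 ≤ Uf a (π / 2) := by
  have ha : 0 < a := by linarith
  have hp := pi_gt_three
  have s1 : sin 0.1 ≤ 0.1 := (sin_lt (by norm_num)).le
  have s0 : 0 < sin 0.1 := sin_pos_of_pos_of_lt_pi (by norm_num) (by linarith)
  have e1 := Uf_large' (θ := 0.1) ha h1 (by norm_num) (by linarith) (by nlinarith)
  have e2 := Uf_large' (θ := 0) ha h1 le_rfl (by linarith) (by rw [sin_zero]; nlinarith)
  have e3 := T1core (θ := 0.1) ha h1 (by norm_num) (by linarith)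
  have e4 := qh_tan' (ω := 0.1 / 2) (by rw [abs_of_pos (by norm_num)]; linarith)
  have e5 : tan (0.1 / 2) ≤ 0.051 := by
    rw [tan_eq_sin_div_cos]
    have c1 := one_sub_sq_div_two_le_cos (x := 0.1 / 2)
    have c2 : sin (0.1 / 2) ≤ 0.1 / 2 := (sin_lt (by norm_num)).le
    rw [div_le_iff₀ (by linarith)]
    nlinarith
  rw [sub_zero] at e2
  have : bb = 4 / 3 - cc := rfl
  rw [e2]
  rw [e1, e4] at e3
  nlinarith

/-- region triangles -/
def RT {J : Type*} (S : Finset ℂ) (cl : ℂ → J) (c q r : ℂ) : Prop :=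
  Tr S c q r ∧ cl c = cl q ∧ cl q = cl r

/-- there is a left triangle with another short side -/
def LS (S : Finset ℂ) (c q : ℂ) : Prop := ∃ r, Tr S c q r ∧ (Sh q r ∨ Sh r c)

/-- slack of the left triangle -/
noncomputable def slE (D : ℝ) (S : Finset ℂ) (c q : ℂ) : ℝ :=
  if h : ∃ r, Tr S c q r then slk D S c q h.choose else 0

/-- the discharging weight -/
noncomputable def ww {J : Type*} (D : ℝ) (S : Finset ℂ) (cl : ℂ → J) (c q : ℂ) : ℝ :=
  if Sh c q ∨ Lf (RT S cl) c q then 0 else if LS S c q then slE D S c q / 2 - 0.00095 else 0.00095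

/-- assigned value -/
noncomputable def asg3 {J : Type*} (D : ℝ) (S : Finset ℂ) (cl : ℂ → J) (c q : ℂ) : ℝ :=
  if Lf (RT S cl) c q then val2 D S c q + 6 * 0.00095 / π * al S c q
  else if Sh c q then gg D (‖q - c‖ / 2) + 5 * 0.00095 else 0

lemma slE_eq {D : ℝ} {S : Finset ℂ} {c q r : ℂ} (h : Tr S c q r) : slE D S c q = slk D S c q r := by
  have hex : ∃ r, Tr S c q r := ⟨r, h⟩
  unfold slE
  rw [dif_pos hex, Tr_unique hex.choose_spec h]

lemma LS_iff {S : Finset ℂ} {c q r : ℂ} (h : Tr S c q r) : LS S c q ↔ (Sh q r ∨ Sh r c) := by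
  constructor
  · rintro ⟨r', h1, h2⟩
    rwa [Tr_unique h1 h] at h2
  · intro h2; exact ⟨r, h, h2⟩

lemma RT_cyc {J : Type*} {S : Finset ℂ} {cl : ℂ → J} {c q r : ℂ} (h : RT S cl c q r) :
    RT S cl q r c := ⟨Tr_cyc h.1, h.2.2, by rw [← h.2.2, h.2.1]⟩

lemma Lf_RT_iff {J : Type*} {S : Finset ℂ} {cl : ℂ → J} {c q r : ℂ} (h : Tr S c q r) :
    Lf (RT S cl) c q ↔ (cl c = cl q ∧ cl q = cl r) := by
  constructor
  · rintro ⟨r', h1⟩
    have := Tr_unique h1.1 h
    subst this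
    exact h1.2
  · intro h2; exact ⟨r, h, h2⟩

lemma slk_nonneg {D : ℝ} (hD : 0 ≤ D) {S : Finset ℂ} {c q r : ℂ} (h : Tr S c q r)
    (hl : ¬ (Sh c q ∧ Sh q r ∧ Sh r c)) : 0 ≤ slk D S c q r := by
  have := tri2 hD h hl
  unfold slk; linarith

namespace Cf
variable {J : Type*} {D : ℝ} {S : Finset ℂ} {cl : ℂ → J} {p : J → Fin 5 → ℂ} {Q : J → Finset ℂ}

/-- edges inside a cluster without region triangle on the left are short. -/
lemma inner (h : Cf D S cl p Q) {c q : ℂ} (hc : c ∈ S) (hq : q ∈ S) (hE : Eg S c q)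
    (he : cl c = cl q) (hn : ¬ Lf (RT S cl) c q) : Sh c q := by
  have hP := h.pc c hc
  have hc' := h.self hc
  have hq' : q ∈ Q (cl c) := (h.memQ _ _).mpr ⟨hq, he.symm⟩
  have h1 : ¬ Lf (Tr (Q (cl c))) c q := by
    rintro ⟨r, hr⟩
    apply hn
    refine ⟨r, hP.trS h.gen hr, he, ?_⟩
    rw [← he]
    exact ((h.memQ _ _).mp hr.2.2.1).2.symm
  obtain ⟨k, h2, h3⟩ := (hP.out_iff h.gen c q hc' hq').mp ⟨hE, h1⟩
  have h4 := Sh_symm (hP.nr.short k)
  have e : Sh c q = Sh (p (cl c) (k + 1)) (p (cl c) k) := congrArg₂ Sh h2 h3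
  rw [e]; exact h4

lemma w_pair (h : Cf D S cl p Q) (hD : 0.96299 ≤ D) {c q : ℂ} (hc : c ∈ S) (hq : q ∈ S)
    (hE : Eg S c q) : 0 ≤ ww D S cl c q + ww D S cl q c := by
  by_cases hs : Sh c q
  · unfold ww
    rw [if_pos (Or.inl hs), if_pos (Or.inl (Sh_symm hs))]; norm_num
  by_cases he : cl c = cl q
  · have h1 : Lf (RT S cl) c q := by
      by_contra hn
      exact hs (h.inner hc hq hE he hn)
    have h2 : Lf (RT S cl) q c := by
      by_contra hn
      exact hs (Sh_symm (h.inner hq hc (Eg_symm hE) he.symm hn))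
    unfold ww
    rw [if_pos (Or.inr h1), if_pos (Or.inr h2)]; norm_num
  · have hn1 : ¬ (Sh c q ∨ Lf (RT S cl) c q) := by
      rintro (h1 | ⟨r, hr⟩)
      · exact hs h1
      · exact he hr.2.1
    have hn2 : ¬ (Sh q c ∨ Lf (RT S cl) q c) := by
      rintro (h1 | ⟨r, hr⟩)
      · exact hs (Sh_symm h1)
      · exact he hr.2.1.symm
    have key : ∀ {x y : ℂ}, ¬ Sh x y → LS S x y → 0 ≤ slE D S x y := by
      rintro x y hxy ⟨r, hr, _⟩
      rw [slE_eq hr]
      exact slk_nonneg (by linarith) hr (fun h' => hxy h'.1)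
    unfold ww
    rw [if_neg hn1, if_neg hn2]
    by_cases l1 : LS S c q <;> by_cases l2 : LS S q c
    · rw [if_pos l1, if_pos l2]
      obtain ⟨r, hr, hr2⟩ := l1
      obtain ⟨r', hr', hr2'⟩ := l2
      have := h.pair_slack hD hr hr' he hr2 hr2'
      rw [slE_eq hr, slE_eq hr']
      linarith
    · rw [if_pos l1, if_neg l2]
      have := key hs l1
      linarith
    · rw [if_neg l1, if_pos l2]
      have := key (fun h' => hs (Sh_symm h')) l2
      linarith
    · rw [if_neg l1, if_neg l2]; norm_num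

/-- a triangle that is not a region triangle: at most one short side -/
lemma not_two (_h : Cf D S cl p Q) {c q r : ℂ} (hT : Tr S c q r)
    (hn : ¬ (cl c = cl q ∧ cl q = cl r)) (h1 : Sh c q) (h2 : Sh q r) : False :=
  hn ⟨_h.same hT.1 hT.2.1 h1, _h.same hT.2.1 hT.2.2.1 h2⟩

lemma tri_T1 (_h : Cf D S cl p Q) {c q r : ℂ} (hT : Tr S c q r)
    (hn : ¬ (cl c = cl q ∧ cl q = cl r)) (hs : Sh c q) (h2 : ¬ Sh q r) (h3 : ¬ Sh r c) :
    asg3 D S cl c q + asg3 D S cl q r + asg3 D S cl r c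
    ≤ (val2 D S c q - ww D S cl c q + 6 * 0.00095 / π * al S c q)
      + (val2 D S q r - ww D S cl q r + 6 * 0.00095 / π * al S q r)
      + (val2 D S r c - ww D S cl r c + 6 * 0.00095 / π * al S r c) := by
  have hT2 := Tr_cyc hT
  have hT3 := Tr_cyc hT2
  have n1 : ¬ Lf (RT S cl) c q := by rw [Lf_RT_iff hT]; exact hn
  have n2 : ¬ Lf (RT S cl) q r := by
    rw [Lf_RT_iff hT2]
    rintro ⟨k1, k2⟩
    exact hn ⟨by rw [k1, k2], k1⟩
  have n3 : ¬ Lf (RT S cl) r c := by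
    rw [Lf_RT_iff hT3]
    rintro ⟨k1, k2⟩
    exact hn ⟨k2, by rw [← k2, k1]⟩
  have l2 : LS S q r := (LS_iff hT2).mpr (Or.inr hs)
  have l3 : LS S r c := (LS_iff hT3).mpr (Or.inl hs)
  have m2 : ¬ (Sh q r ∨ Lf (RT S cl) q r) := by rintro (k | k); exacts [h2 k, n2 k]
  have m3 : ¬ (Sh r c ∨ Lf (RT S cl) r c) := by rintro (k | k); exacts [h3 k, n3 k]
  unfold asg3 ww
  rw [if_neg n1, if_neg n2, if_neg n3, if_pos hs, if_neg h2, if_neg h3, if_pos (Or.inl hs),
    if_neg m2, if_neg m3, if_pos l2, if_pos l3, slE_eq hT2, slE_eq hT3]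
  have hal := al_sum hT
  have hpi := pi_pos
  have e1 : 6 * 0.00095 / π * al S c q + 6 * 0.00095 / π * al S q r + 6 * 0.00095 / π * al S r c
      = 3 * 0.00095 := by
    rw [← mul_add, ← mul_add, hal]; field_simp; norm_num
  unfold slk gv
  rw [if_pos hs, if_neg h2, if_neg h3]
  linarith

lemma tri_T0 (_h : Cf D S cl p Q) (hD : 0 ≤ D) {c q r : ℂ} (hT : Tr S c q r)
    (hn : ¬ (cl c = cl q ∧ cl q = cl r)) (hs : ¬ Sh c q) (h2 : ¬ Sh q r) (h3 : ¬ Sh r c) :
    asg3 D S cl c q + asg3 D S cl q r + asg3 D S cl r c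
    ≤ (val2 D S c q - ww D S cl c q + 6 * 0.00095 / π * al S c q)
      + (val2 D S q r - ww D S cl q r + 6 * 0.00095 / π * al S q r)
      + (val2 D S r c - ww D S cl r c + 6 * 0.00095 / π * al S r c) := by
  have hT2 := Tr_cyc hT
  have hT3 := Tr_cyc hT2
  have n1 : ¬ Lf (RT S cl) c q := by rw [Lf_RT_iff hT]; exact hn
  have n2 : ¬ Lf (RT S cl) q r := by
    rw [Lf_RT_iff hT2]
    rintro ⟨k1, k2⟩
    exact hn ⟨by rw [k1, k2], k1⟩
  have n3 : ¬ Lf (RT S cl) r c := by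
    rw [Lf_RT_iff hT3]
    rintro ⟨k1, k2⟩
    exact hn ⟨k2, by rw [← k2, k1]⟩
  have l1 : ¬ LS S c q := by rw [LS_iff hT]; tauto
  have l2 : ¬ LS S q r := by rw [LS_iff hT2]; tauto
  have l3 : ¬ LS S r c := by rw [LS_iff hT3]; tauto
  have m1 : ¬ (Sh c q ∨ Lf (RT S cl) c q) := by rintro (k | k); exacts [hs k, n1 k]
  have m2 : ¬ (Sh q r ∨ Lf (RT S cl) q r) := by rintro (k | k); exacts [h2 k, n2 k]
  have m3 : ¬ (Sh r c ∨ Lf (RT S cl) r c) := by rintro (k | k); exacts [h3 k, n3 k]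
  unfold asg3 ww
  rw [if_neg n1, if_neg n2, if_neg n3, if_neg hs, if_neg h2, if_neg h3, if_neg m1,
    if_neg m2, if_neg m3, if_neg l1, if_neg l2, if_neg l3]
  have hal := al_sum hT
  have hpi := pi_pos
  have e1 : 6 * 0.00095 / π * al S c q + 6 * 0.00095 / π * al S q r + 6 * 0.00095 / π * al S r c
      = 3 * 0.00095 := by
    rw [← mul_add, ← mul_add, hal]; field_simp; norm_num
  have h5 := tri2 hD hT (fun h' => hs h'.1)
  unfold gv at h5
  rw [if_neg hs, if_neg h2, if_neg h3] at h5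
  linarith

lemma tri_g (h : Cf D S cl p Q) (hD : 0 ≤ D) {c q r : ℂ} (hT : Tr S c q r) :
    asg3 D S cl c q + asg3 D S cl q r + asg3 D S cl r c
    ≤ (val2 D S c q - ww D S cl c q + 6 * 0.00095 / π * al S c q)
      + (val2 D S q r - ww D S cl q r + 6 * 0.00095 / π * al S q r)
      + (val2 D S r c - ww D S cl r c + 6 * 0.00095 / π * al S r c) := by
  have hT2 := Tr_cyc hT
  have hT3 := Tr_cyc hT2
  by_cases hn : cl c = cl q ∧ cl q = cl r
  · have n1 : Lf (RT S cl) c q := by rw [Lf_RT_iff hT]; exact hn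
    have n2 : Lf (RT S cl) q r := by
      rw [Lf_RT_iff hT2]
      exact ⟨hn.2, by rw [← hn.2, hn.1]⟩
    have n3 : Lf (RT S cl) r c := by
      rw [Lf_RT_iff hT3]
      exact ⟨by rw [← hn.2, hn.1], hn.1⟩
    unfold asg3 ww
    rw [if_pos n1, if_pos n2, if_pos n3, if_pos (Or.inr n1), if_pos (Or.inr n2),
      if_pos (Or.inr n3)]
    linarith
  · have hn2 : ¬ (cl q = cl r ∧ cl r = cl c) := by
      rintro ⟨k1, k2⟩
      exact hn ⟨by rw [k1, k2], k1⟩
    have hn3 : ¬ (cl r = cl c ∧ cl c = cl q) := by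
      rintro ⟨k1, k2⟩
      exact hn ⟨k2, by rw [← k2, k1]⟩
    by_cases s1 : Sh c q <;> by_cases s2 : Sh q r <;> by_cases s3 : Sh r c
    · exact (h.not_two hT hn s1 s2).elim
    · exact (h.not_two hT hn s1 s2).elim
    · exact (h.not_two hT3 hn3 s3 s1).elim
    · exact h.tri_T1 hT hn s1 s2 s3
    · exact (h.not_two hT2 hn2 s2 s3).elim
    · have := h.tri_T1 hT2 hn2 s2 s3 s1
      linarith
    · have := h.tri_T1 hT3 hn3 s3 s1 s2
      linarith
    · exact h.tri_T0 hD hT hn s1 s2 s3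

lemma hull_g (h : Cf D S cl p Q) (hD : 0.96299 ≤ D) {c q : ℂ} (hc : c ∈ S) (hq : q ∈ S)
    (hcq : c ≠ q) (hal : al S c q = π / 2) :
    asg3 D S cl c q ≤ val2 D S c q - ww D S cl c q + 6 * 0.00095 / π * al S c q := by
  have hn : ∀ r, ¬ Tr S c q r := by
    intro r hr
    have h1 := Tr_al hr
    have h2 := att_lt c q r
    rw [hal] at h1
    linarith
  have n1 : ¬ Lf (RT S cl) c q := by
    rintro ⟨r, hr⟩; exact hn r hr.1
  have l1 : ¬ LS S c q := by
    rintro ⟨r, hr⟩; exact hn r hr.1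
  have hpi := pi_pos
  have e1 : 6 * 0.00095 / π * al S c q = 3 * 0.00095 := by
    rw [hal]; field_simp; norm_num
  have hD0 : 0 ≤ D := by linarith
  rw [e1]
  unfold asg3 ww
  rw [if_neg n1]
  by_cases hs : Sh c q
  · rw [if_pos hs, if_pos (Or.inl hs)]
    unfold val2 v2
    rw [if_pos hs, hal]
    -- the side is a side of the pentagon
    have he := h.same hc hq hs
    have hP := h.pc c hc
    have hc' := h.self hc
    have hq' : q ∈ Q (cl c) := (h.memQ _ _).mpr ⟨hq, he.symm⟩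
    have hn' : ∀ z ∈ Q (cl c), ¬ 0 < XX c q z := by
      intro z hz hXz
      have h1 := al_le_att ((h.memQ _ _).mp hz).1 hXz
      have h2 := att_lt c q z
      linarith
    obtain ⟨k, k1, k2⟩ := hP.rev_of hc' hq' hcq hn'
    have hr := hP.nr.rg k
    have hnn : ‖q - c‖ = ‖sl (p (cl c)) k‖ := by
      unfold sl
      rw [norm_sub_rev]
      exact congrArg norm (congrArg₂ (fun a b : ℂ => a - b) k1 k2)
    rw [← hnn] at hr
    have h1 := hull_short hr.1 (by linarith)
    rw [QQ_U (by linarith) (by linarith) (by positivity) le_rfl (by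
      rw [cos_pi_div_two]; linarith)]
    nlinarith
  · have m1 : ¬ (Sh c q ∨ Lf (RT S cl) c q) := by rintro (k | k); exacts [hs k, n1 k]
    rw [if_neg hs, if_neg m1, if_neg l1]
    unfold val2 v2
    rw [if_neg hs, hal]
    have := mul_nonneg hD0 T0inf
    linarith

/-- **The discharging theorem.** -/
theorem total5 (h : Cf D S cl p Q) (hD : 0.96299 ≤ D) (hD1 : D ≤ 1) (hk : 0.00285 ≤ kap D)
    (hne : S.Nonempty) : 0 ≤ S.card * (2 * kap D) + sE S (Eg S) (val2 D S) := by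
  have hD0 : 0 ≤ D := by linarith
  have hpi := pi_pos
  have h1 : sE S (Eg S) (asg3 D S cl)
      ≤ sE S (Eg S) (fun c q => val2 D S c q - ww D S cl c q + 6 * 0.00095 / π * al S c q) :=
    sE_Eg_mono h.gen (fun c q r hT => h.tri_g hD0 hT)
      (fun c hc q hq hcq hal => h.hull_g hD hc hq hcq hal)
  have h2 : sE S (Eg S) (fun c q => val2 D S c q - ww D S cl c q + 6 * 0.00095 / π * al S c q)
      = sE S (Eg S) (val2 D S) - sE S (Eg S) (ww D S cl)
        + 6 * 0.00095 / π * sE S (Eg S) (al S) := by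
    rw [sE_add, sE_sub, sE_smul]
  have h3 : 0 ≤ sE S (Eg S) (ww D S cl) := by
    apply sE_pair
    · intro c hc q hq hE _
      exact h.w_pair hD hc hq hE
    · intro c hc q hq hE hn
      exact absurd (Eg_symm hE) hn
  have h4 : 6 * 0.00095 / π * sE S (Eg S) (al S) ≤ S.card * (6 * 0.00095) := by
    have h5 := euler_al h.gen hne
    have h6 : 6 * 0.00095 / π * sE S (Eg S) (al S) ≤ 6 * 0.00095 / π * (S.card * π) := by
      apply mul_le_mul_of_nonneg_left _ (by positivity)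
      linarith
    have h7 : 6 * 0.00095 / π * (S.card * π) = S.card * (6 * 0.00095) := by
      field_simp
    linarith
  -- clusters
  have hz : ∀ x ∈ S, ∀ y ∈ S, Eg S x y → cl x ≠ cl y → asg3 D S cl x y = 0 := by
    intro x hx y hy _ hne
    unfold asg3
    rw [if_neg, if_neg (h.long hx hy hne)]
    rintro ⟨r, hr⟩
    exact hne hr.2.1
  have h8 := sE_clusters h.memQ hz
  have h9 := card_clusters h.memQ
  have h10 : 0 ≤ ∑ j ∈ S.image cl, (((Q j).card : ℝ) * (2 * kap D) - (Q j).card * (6 * 0.00095)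
      + sE (Q j) (Eg S) (asg3 D S cl)) := by
    apply Finset.sum_nonneg
    intro j hj
    obtain ⟨x, hx, rfl⟩ := Finset.mem_image.mp hj
    have hP := h.pc x hx
    have h11 := hP.cluster_ineq hD0 hD1 hk h.gen
    have hiff : ∀ a ∈ Q (cl x), ∀ b ∈ Q (cl x), (Lf (RT S cl) a b ↔ Lf (Tr (Q (cl x))) a b) := by
      intro a ha b hb
      have ha' := (h.memQ _ _).mp ha
      have hb' := (h.memQ _ _).mp hb
      constructor
      · rintro ⟨r, hr⟩
        refine ⟨r, hr.1.mono hP.cl.1 ha hb ?_⟩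
        exact (h.memQ _ _).mpr ⟨hr.1.2.2.1, by rw [← hr.2.2]; exact hb'.2⟩
      · rintro ⟨r, hr⟩
        refine ⟨r, hP.trS h.gen hr, by rw [ha'.2, hb'.2], ?_⟩
        rw [hb'.2]; exact ((h.memQ _ _).mp hr.2.2.1).2.symm
    have h12 : sE (Q (cl x)) (Eg S) (asg3 D S cl)
        = sE (Q (cl x)) (Lf (Tr (Q (cl x)))) (fun x y => val2 D S x y + 6 * 0.00095 / π * al S x y)
        + sE (Q (cl x)) (fun a b => Eg S a b ∧ ¬ Lf (Tr (Q (cl x))) a b)
          (fun x y => gg D (‖y - x‖ / 2) + 5 * 0.00095) := by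
      rw [sE_split (X := Eg S) (Y := Lf (Tr (Q (cl x))))]
      congr 1
      · apply sE_congr
        · intro a ha b hb
          constructor
          · exact fun k => k.2
          · rintro ⟨r, hr⟩
            have := hP.trS h.gen hr
            exact ⟨⟨(Tr_ne this).1, Tr_Ed this⟩, r, hr⟩
        · intro a ha b hb hX
          unfold asg3
          rw [if_pos ((hiff a ha b hb).mpr hX.2)]
      · apply sE_congr
        · intro a _ b _; exact Iff.rfl
        · intro a ha b hb hX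
          have hn : ¬ Lf (RT S cl) a b := fun k => hX.2 ((hiff a ha b hb).mp k)
          have ha' := (h.memQ _ _).mp ha
          have hb' := (h.memQ _ _).mp hb
          have hsh := h.inner ha'.1 hb'.1 hX.1 (by rw [ha'.2, hb'.2]) hn
          unfold asg3
          rw [if_neg hn, if_pos hsh]
    rw [h12]
    linarith
  rw [Finset.sum_add_distrib, Finset.sum_sub_distrib, ← Finset.sum_mul, ← Finset.sum_mul,
    ← h8] at h10
  have h13 : (S.card : ℝ) = ∑ j ∈ S.image cl, ((Q j).card : ℝ) := by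
    rw [h9]; push_cast; rfl
  rw [← h13] at h10
  linarith

end Cf

end

end FT58
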