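import Pool.Agent.Lib.MP_49fa77_co.PlanA

/-!
# Critical pentagons
-/

namespace FT58

open Real MeasureTheory Set

lemma Ar_continuous : Continuous Ar := by
  unfold Ar
  exact continuous_id.mul ((continuous_const.sub (continuous_pow 2)).sqrt)

lemma GG_continuous (D : ℝ) : Continuous (GG D) := by
  unfold GG
  refine (continuous_const.mul Ar_continuous).sub (continuous_arcsin.add ?_)
  exact continuous_id.mul ((continuous_const.sub (continuous_pow 2)).sqrt)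

lemma ext_Icc {f : ℝ → ℝ} {l r : ℝ} (hlr : l < r) (hf : Continuous f)
    (h : ∀ a, l < a → a < r → 0 ≤ f a) {a : ℝ} (h0 : l ≤ a) (h1 : a ≤ r) : 0 ≤ f a := by
  have hcl : closure (Ioo l r) = Icc l r := closure_Ioo hlr.ne
  have ha : a ∈ closure (Ioo l r) := by rw [hcl]; exact ⟨h0, h1⟩
  exact le_on_closure (f := fun _ => (0 : ℝ)) (g := f) (s := Ioo l r)
    (fun x hx => h x hx.1 hx.2) continuousOn_const hf.continuousOn ha

section
variable {D : ℝ} (hD : 0.96299 ≤ D) (hD1 : D ≤ 1) {a : ℝ} (h0 : 0 ≤ a) (h1 : a ≤ 1)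
include hD hD1 h0 h1

lemma N100' : 0 ≤ 0.3568 * kap D + GG D a - (1 - D) * (1 * a ^ 2) :=
  ext_Icc (f := fun a => 0.3568 * kap D + GG D a - (1 - D) * (1 * a ^ 2)) zero_lt_one
    (by have := GG_continuous D; fun_prop) (fun a x y => N100 hD hD1 x y) h0 h1

lemma N133' : 0 ≤ 0.401 * kap D + GG D a - (1 - D) * (1.33 * a ^ 2) :=
  ext_Icc (f := fun a => 0.401 * kap D + GG D a - (1 - D) * (1.33 * a ^ 2)) zero_lt_one
    (by have := GG_continuous D; fun_prop) (fun a x y => N133 hD hD1 x y) h0 h1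

lemma N185' : 0 ≤ 0.4808 * kap D + GG D a - (1 - D) * (1.85 * a ^ 2) :=
  ext_Icc (f := fun a => 0.4808 * kap D + GG D a - (1 - D) * (1.85 * a ^ 2)) zero_lt_one
    (by have := GG_continuous D; fun_prop) (fun a x y => N185 hD hD1 x y) h0 h1

lemma ps_ge' : -0.00074 ≤ ps D a := by
  have := ext_Icc (f := fun a => ps D a + 0.00074) zero_lt_one
    (by have := GG_continuous D; unfold ps; fun_prop)
    (fun a x y => by have := ps_ge hD hD1 x y; linarith) h0 h1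
  linarith

end

section
variable {D : ℝ} (hD : 0.96299 ≤ D) (hD1 : D ≤ 1) {a : ℝ}
include hD hD1

lemma ps_quad' (h0 : 0.45 ≤ a) (h1 : a ≤ 1) : -0.00076 + 0.198 * (a - 0.61) ^ 2 ≤ ps D a := by
  have := ext_Icc (f := fun a => ps D a - (-0.00076 + 0.198 * (a - 0.61) ^ 2)) (l := 0.45)
    (r := 1) (by norm_num)
    (by have := GG_continuous D; unfold ps; fun_prop)
    (fun a x y => by have := ps_quad hD hD1 x.le y; linarith) h0 h1
  linarith

lemma ps_low' (h0 : 0 ≤ a) (h1 : a ≤ 0.45) : 0.003 ≤ ps D a := by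
  have := ext_Icc (f := fun a => ps D a - 0.003) (l := 0)
    (r := 0.45) (by norm_num)
    (by have := GG_continuous D; unfold ps; fun_prop)
    (fun a x y => by have := ps_low hD hD1 x y.le; linarith) h0 h1
  linarith

omit hD1 in
lemma kap_big : 0.097 ≤ kap D := by
  unfold kap
  have := kap0
  have := sqrt3_pos
  nlinarith

/-- the lengths of the sides of a critical pentagon -/
lemma crit_sides {a b c d e A : ℝ} (a0 : 0 ≤ a) (a1 : a ≤ 1) (b0 : 0 ≤ b) (b1 : b ≤ 1)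
    (c0 : 0 ≤ c) (c1 : c ≤ 1) (d0 : 0 ≤ d) (d1 : d ≤ 1) (e0 : 0 ≤ e) (e1 : e ≤ 1)
    (hA : A ≤ 1.3764 * a ^ 2 + 1.3764 * b ^ 2 + 1.3764 * c ^ 2 + 1.3764 * d ^ 2 + 1.3764 * e ^ 2)
    (hF : 2 * kap D + GG D a + GG D b + GG D c + GG D d + GG D e - (1 - D) * A ≤ 0) :
    (0.472 < a ∧ a < 0.748) ∧ (a - 0.61) ^ 2 + (b - 0.61) ^ 2 < 0.0189 ∧
      (a - 0.61) ^ 2 + (c - 0.61) ^ 2 < 0.0189 ∧
    -0.0038 < 2 * kap D + GG D a + GG D b + GG D c + GG D d + GG D e - (1 - D) * A := by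
  have ga := ps_ge' hD hD1 a0 a1
  have gb := ps_ge' hD hD1 b0 b1
  have gc := ps_ge' hD hD1 c0 c1
  have gd := ps_ge' hD hD1 d0 d1
  have ge := ps_ge' hD hD1 e0 e1
  have hsum : ps D a + ps D b + ps D c + ps D d + ps D e
      ≤ 2 * kap D + GG D a + GG D b + GG D c + GG D d + GG D e - (1 - D) * A := by
    have : (1 - D) * A ≤ (1 - D) * (1.3764 * a ^ 2 + 1.3764 * b ^ 2 + 1.3764 * c ^ 2
        + 1.3764 * d ^ 2 + 1.3764 * e ^ 2) := mul_le_mul_of_nonneg_left hA (by linarith)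
    unfold ps
    linarith
  have lo : ∀ {x : ℝ}, 0 ≤ x → ps D x ≤ 0.00296 → 0.45 < x := by
    intro x hx hp
    by_contra hcon
    push Not at hcon
    have := ps_low' hD hD1 hx hcon
    linarith
  have la := lo a0 (by linarith)
  have lb := lo b0 (by linarith)
  have lc := lo c0 (by linarith)
  have qa := ps_quad' hD hD1 la.le a1
  have qb := ps_quad' hD hD1 lb.le b1
  have qc := ps_quad' hD hD1 lc.le c1
  refine ⟨⟨?_, ?_⟩, ?_, ?_, ?_⟩
  · by_contra hcon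
    push Not at hcon
    nlinarith
  · by_contra hcon
    push Not at hcon
    nlinarith
  · linarith
  · linarith
  · linarith

/-- a weighted estimate -/
lemma crit_w {a b c d e A t : ℝ} {ka kb kc kd ke pa pb pc pd pe : ℝ}
    (ha : 0 ≤ ka * kap D + GG D a - (1 - D) * (pa * a ^ 2))
    (hb : 0 ≤ kb * kap D + GG D b - (1 - D) * (pb * b ^ 2))
    (hc : 0 ≤ kc * kap D + GG D c - (1 - D) * (pc * c ^ 2))
    (hd : 0 ≤ kd * kap D + GG D d - (1 - D) * (pd * d ^ 2))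
    (he : 0 ≤ ke * kap D + GG D e - (1 - D) * (pe * e ^ 2))
    (hk : ka + kb + kc + kd + ke < 2)
    (hA : A ≤ pa * a ^ 2 + pb * b ^ 2 + pc * c ^ 2 + pd * d ^ 2 + pe * e ^ 2 + t)
    (hF : 2 * kap D + GG D a + GG D b + GG D c + GG D d + GG D e - (1 - D) * A ≤ 0) : 0 < t := by
  by_contra hcon
  push Not at hcon
  have h1 : (1 - D) * A ≤ (1 - D) * (pa * a ^ 2 + pb * b ^ 2 + pc * c ^ 2 + pd * d ^ 2
      + pe * e ^ 2) := mul_le_mul_of_nonneg_left (by linarith) (by linarith)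
  have h2 := kap_big hD
  nlinarith

end

section
variable {D : ℝ} (hD : 0.96299 ≤ D) (hD1 : D ≤ 1) {x y z w v : ℂ}
  (h1 : ‖y - x‖ ≤ 2) (h2 : ‖z - y‖ ≤ 2) (h3 : ‖w - z‖ ≤ 2) (h4 : ‖v - w‖ ≤ 2) (h5 : ‖x - v‖ ≤ 2)
  (hF : F0 D x y z w v ≤ 0)
include hD hD1 h1 h2 h3 h4 h5 hF

lemma fact_sides : (0.472 < ‖y - x‖ / 2 ∧ ‖y - x‖ / 2 < 0.748) ∧
    (‖y - x‖ / 2 - 0.61) ^ 2 + (‖z - y‖ / 2 - 0.61) ^ 2 < 0.0189 ∧
    (‖y - x‖ / 2 - 0.61) ^ 2 + (‖w - z‖ / 2 - 0.61) ^ 2 < 0.0189 ∧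
    -0.0038 < F0 D x y z w v :=
  crit_sides hD hD1 (by positivity) (by linarith) (by positivity) (by linarith)
    (by positivity) (by linarith) (by positivity) (by linarith) (by positivity) (by linarith)
    (certN x y z w v) hF

lemma fact_c1 : 0.255 * (‖y - x‖ * ‖z - y‖) < cr (y - x) (z - y) := by
  have := crit_w hD hD1 (N100' hD hD1 (by positivity : 0 ≤ ‖y - x‖ / 2) (by linarith))
    (N100' hD hD1 (by positivity : 0 ≤ ‖z - y‖ / 2) (by linarith))
    (N133' hD hD1 (by positivity : 0 ≤ ‖w - z‖ / 2) (by linarith))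
    (N185' hD hD1 (by positivity : 0 ≤ ‖v - w‖ / 2) (by linarith))
    (N133' hD hD1 (by positivity : 0 ≤ ‖x - v‖ / 2) (by linarith))
    (by norm_num) (certC3 x y z w v) hF
  nlinarith [sq_nonneg (‖y - x‖ - ‖z - y‖)]

lemma fact_c2 : 0.255 * (‖y - x‖ * ‖w - z‖) < cr (y - x) (w - z) := by
  have := crit_w hD hD1 (N133' hD hD1 (by positivity : 0 ≤ ‖y - x‖ / 2) (by linarith))
    (N185' hD hD1 (by positivity : 0 ≤ ‖z - y‖ / 2) (by linarith))
    (N133' hD hD1 (by positivity : 0 ≤ ‖w - z‖ / 2) (by linarith))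
    (N100' hD hD1 (by positivity : 0 ≤ ‖v - w‖ / 2) (by linarith))
    (N100' hD hD1 (by positivity : 0 ≤ ‖x - v‖ / 2) (by linarith))
    (by norm_num) (certC1 x y z w v) hF
  nlinarith [sq_nonneg (‖y - x‖ - ‖w - z‖)]

lemma fact_d1 : 0 < dt (z - x) (z - y) := by
  have := crit_w hD hD1 (N185' hD hD1 (by positivity : 0 ≤ ‖y - x‖ / 2) (by linarith))
    (N100' hD hD1 (by positivity : 0 ≤ ‖z - y‖ / 2) (by linarith))
    (N133' hD hD1 (by positivity : 0 ≤ ‖w - z‖ / 2) (by linarith))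
    (N133' hD hD1 (by positivity : 0 ≤ ‖v - w‖ / 2) (by linarith))
    (N100' hD hD1 (by positivity : 0 ≤ ‖x - v‖ / 2) (by linarith))
    (by norm_num) (certD1 x y z w v) hF
  linarith

lemma fact_d2 : 0 < dt (v - x) (v - y) := by
  have := crit_w hD hD1 (N185' hD hD1 (by positivity : 0 ≤ ‖y - x‖ / 2) (by linarith))
    (N100' hD hD1 (by positivity : 0 ≤ ‖z - y‖ / 2) (by linarith))
    (N133' hD hD1 (by positivity : 0 ≤ ‖w - z‖ / 2) (by linarith))
    (N133' hD hD1 (by positivity : 0 ≤ ‖v - w‖ / 2) (by linarith))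
    (N100' hD hD1 (by positivity : 0 ≤ ‖x - v‖ / 2) (by linarith))
    (by norm_num) (certD2 x y z w v) hF
  have e : dt (x - v) (y - v) = dt (v - x) (v - y) := by
    simp only [dt, Complex.sub_re, Complex.sub_im]; ring
  rw [← e]; linarith

lemma fact_d3 : 0 < dt (w - x) (w - y) := by
  have := crit_w hD hD1 (N185' hD hD1 (by positivity : 0 ≤ ‖y - x‖ / 2) (by linarith))
    (N133' hD hD1 (by positivity : 0 ≤ ‖z - y‖ / 2) (by linarith))
    (N133' hD hD1 (by positivity : 0 ≤ ‖w - z‖ / 2) (by linarith))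
    (N100' hD hD1 (by positivity : 0 ≤ ‖v - w‖ / 2) (by linarith))
    (N100' hD hD1 (by positivity : 0 ≤ ‖x - v‖ / 2) (by linarith))
    (by norm_num) (certD3 x y z w v) hF
  linarith

end

end FT58
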