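import Pool.Agent.Lib.MP_49fa77_co.Bounds

/-!
# Clusters of four points
-/

namespace FT58

open Real MeasureTheory Set

lemma sum_four {F : ℂ → ℂ → ℝ} {x y z w : ℂ} (h1 : x ≠ y) (h2 : y ≠ z) (h3 : z ≠ x)
    (h4 : w ≠ x) (h5 : w ≠ y) (h6 : w ≠ z) :
    ∑ c ∈ ({x, y, z, w} : Finset ℂ), ∑ q ∈ ({x, y, z, w} : Finset ℂ).erase c, F c q
      = (F x y + F x z + F x w) + (F y x + F y z + F y w) + (F z x + F z y + F z w)
        + (F w x + F w y + F w z) := by
  have hx : ({x, y, z, w} : Finset ℂ).erase x = {y, z, w} := by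
    ext t; simp only [Finset.mem_erase, Finset.mem_insert, Finset.mem_singleton]
    constructor
    · rintro ⟨g1, g2 | g2⟩
      · exact absurd g2 g1
      · exact g2
    · rintro (rfl | rfl | rfl)
      · exact ⟨Ne.symm h1, by tauto⟩
      · exact ⟨h3, by tauto⟩
      · exact ⟨h4, by tauto⟩
  have hy : ({x, y, z, w} : Finset ℂ).erase y = {x, z, w} := by
    ext t; simp only [Finset.mem_erase, Finset.mem_insert, Finset.mem_singleton]
    constructor
    · rintro ⟨g1, g2 | g2 | g2⟩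
      · exact Or.inl g2
      · exact absurd g2 g1
      · exact Or.inr g2
    · rintro (rfl | rfl | rfl)
      · exact ⟨h1, by tauto⟩
      · exact ⟨Ne.symm h2, by tauto⟩
      · exact ⟨h5, by tauto⟩
  have hz : ({x, y, z, w} : Finset ℂ).erase z = {x, y, w} := by
    ext t; simp only [Finset.mem_erase, Finset.mem_insert, Finset.mem_singleton]
    constructor
    · rintro ⟨g1, g2 | g2 | g2 | g2⟩
      · exact Or.inl g2
      · exact Or.inr (Or.inl g2)
      · exact absurd g2 g1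
      · exact Or.inr (Or.inr g2)
    · rintro (rfl | rfl | rfl)
      · exact ⟨Ne.symm h3, by tauto⟩
      · exact ⟨h2, by tauto⟩
      · exact ⟨h6, by tauto⟩
  have hw : ({x, y, z, w} : Finset ℂ).erase w = {x, y, z} := by
    ext t; simp only [Finset.mem_erase, Finset.mem_insert, Finset.mem_singleton]
    constructor
    · rintro ⟨g1, g2 | g2 | g2 | g2⟩
      · exact Or.inl g2
      · exact Or.inr (Or.inl g2)
      · exact Or.inr (Or.inr g2)
      · exact absurd g2 g1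
    · rintro (rfl | rfl | rfl)
      · exact ⟨Ne.symm h4, by tauto⟩
      · exact ⟨Ne.symm h5, by tauto⟩
      · exact ⟨Ne.symm h6, by tauto⟩
  have three : ∀ (a b c : ℂ), a ≠ b → b ≠ c → a ≠ c → ∀ f : ℂ → ℝ,
      ∑ q ∈ ({a, b, c} : Finset ℂ), f q = f a + f b + f c := by
    intro a b c hab hbc hac f
    rw [Finset.sum_insert (by simp [hab, hac]), Finset.sum_pair hbc]; ring
  rw [Finset.sum_insert (by simp [h1, Ne.symm h3, Ne.symm h4]),
    three y z w h2 (Ne.symm h6) (Ne.symm h5), hx, hy, hz, hw,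
    three y z w h2 (Ne.symm h6) (Ne.symm h5), three x z w (Ne.symm h3) (Ne.symm h6) (Ne.symm h4),
    three x y w h1 (Ne.symm h5) (Ne.symm h4), three x y z h1 h2 (Ne.symm h3)]
  ring

lemma score_sum4 {D : ℝ} {S : Finset ℂ} {x y z w : ℂ} (h1 : x ≠ y) (h2 : y ≠ z) (h3 : z ≠ x)
    (h4 : w ≠ x) (h5 : w ≠ y) (h6 : w ≠ z) :
    score D S {x, y, z, w} = 8 * kap D + ((FF D S x y + FF D S x z + FF D S x w)
      + (FF D S y x + FF D S y z + FF D S y w) + (FF D S z x + FF D S z y + FF D S z w)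
        + (FF D S w x + FF D S w y + FF D S w z)) := by
  have hc : ({x, y, z, w} : Finset ℂ).card = 4 := by
    rw [Finset.card_insert_of_notMem, Finset.card_insert_of_notMem,
      Finset.card_insert_of_notMem, Finset.card_singleton]
    · simp only [Finset.mem_singleton]; exact Ne.symm h6
    · simp only [Finset.mem_insert, Finset.mem_singleton, not_or]
      exact ⟨h2, Ne.symm h5⟩
    · simp only [Finset.mem_insert, Finset.mem_singleton, not_or]
      exact ⟨h1, Ne.symm h3, Ne.symm h4⟩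
  unfold score
  rw [hc]
  have := sum_four (F := FF D S) h1 h2 h3 h4 h5 h6
  unfold FF at this ⊢
  rw [this]
  push_cast
  ring

/-- short Delaunay edges -/
def SE (S : Finset ℂ) (u v : ℂ) : Prop := Ed S u v ∧ Sh u v

lemma SE_symm {S : Finset ℂ} {u v : ℂ} (h : SE S u v) : SE S v u := ⟨Ed_symm h.1, Sh_symm h.2⟩

lemma Xt_short {S : Finset ℂ} {u v r : ℂ} (h : Tr S u v r) (h1 : Sh u v) (h2 : Sh v r)
    (h3 : Sh r u) : Xt S u v := ⟨r, h, Or.inl h1, Or.inl h2, Or.inl h3⟩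

lemma Xt_of_Tr {S : Finset ℂ} {u v r : ℂ} (h : Tr S u v r) (h1 : Ex S u v) (h2 : Ex S v r)
    (h3 : Ex S r u) : Xt S u v := ⟨r, h, h1, h2, h3⟩

/-- triangles of short Delaunay edges contain an exact triangle. -/
lemma tri_Xt {S P : Finset ℂ} (hG : Gen S) (hP : Closed S P) {u v r : ℂ} (hu : u ∈ P) (hv : v ∈ P)
    (hr : r ∈ P) (huv : u ≠ v) (hvr : v ≠ r) (hru : r ≠ u) (e1 : SE S u v) (e2 : SE S v r)
    (e3 : SE S r u) : ∃ p ∈ P, ∃ q ∈ P, Xt S p q := by
  have main : ∀ u v r : ℂ, u ∈ P → v ∈ P → r ∈ P → 0 < XX u v r → SE S u v → SE S v r → SE S r u →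
      ∃ p ∈ P, ∃ q ∈ P, Xt S p q := by
    intro u v r hu hv hr hX e1 e2 e3
    obtain ⟨t, ht⟩ := exists_Tr hG (hP.1 hu) (hP.1 hv) (hP.1 hr) e1.1 hX
    rcases apex hG (hP.1 hr) hX e2.1 e3.1 ht with h | ⟨h1, h2, h3⟩
    · subst h
      exact ⟨u, hu, v, hv, Xt_short ht e1.2 e2.2 e3.2⟩
    · have s1 : Sh u t := inside_short h1 h2 h3 e1.2 e3.2
      have s2 : Sh v t := inside_short h2 h3 h1 e2.2 e1.2
      exact ⟨u, hu, v, hv, Xt_short ht e1.2 s2 (Sh_symm s1)⟩
  rcases lt_or_gt_of_ne (hG.1 u (hP.1 hu) v (hP.1 hv) r (hP.1 hr) huv (Ne.symm hru) hvr) with h | h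
  · exact main v u r hv hu hr (by rw [XX_swap]; linarith) (SE_symm e1) (SE_symm e3) (SE_symm e2)
  · exact main u v r hu hv hr h e1 e2 e3

/-- 4-cycles of short Delaunay edges contain an exact triangle. -/
lemma cyc_Xt {S : Finset ℂ} (hG : Gen S) {x y z w : ℂ} (hP : Closed S {x, y, z, w})
    (h1 : x ≠ y) (h2 : y ≠ z) (h3 : z ≠ x) (h4 : w ≠ x) (h5 : w ≠ y) (h6 : w ≠ z)
    (e1 : SE S x y) (e2 : SE S y z) (e3 : SE S z w) (e4 : SE S w x) :
    ∃ p ∈ ({x, y, z, w} : Finset ℂ), ∃ q ∈ ({x, y, z, w} : Finset ℂ), Xt S p q := by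
  have hx : x ∈ ({x, y, z, w} : Finset ℂ) := by simp
  have hy : y ∈ ({x, y, z, w} : Finset ℂ) := by simp
  have hz : z ∈ ({x, y, z, w} : Finset ℂ) := by simp
  have hw : w ∈ ({x, y, z, w} : Finset ℂ) := by simp
  -- quadrilateral lemma
  have quad : ∀ u a v b : ℂ, u ∈ ({x, y, z, w} : Finset ℂ) → a ∈ ({x, y, z, w} : Finset ℂ) →
      v ∈ ({x, y, z, w} : Finset ℂ) → b ∈ ({x, y, z, w} : Finset ℂ) →
      ({x, y, z, w} : Finset ℂ) ⊆ {u, a, v, b} →
      0 < XX u a v → 0 < XX u v b → 0 < IC u a v b → SE S u a → SE S a v → SE S v b → SE S b u →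
      ∃ p ∈ ({x, y, z, w} : Finset ℂ), ∃ q ∈ ({x, y, z, w} : Finset ℂ), Xt S p q := by
    intro u a v b hu ha hv hb hsub hA hB hI f1 f2 f3 f4
    have hin : ∀ s ∈ S, s ≠ u → s ≠ a → s ≠ v → s ≠ b →
      ¬ (0 < XX u a s ∧ 0 < XX a v s ∧ 0 < XX v u s) ∧
      ¬ (0 < XX u v s ∧ 0 < XX v b s ∧ 0 < XX b u s) := by
      intro s hs k1 k2 k3 k4
      have hno : ∀ t ∈ ({x, y, z, w} : Finset ℂ), ¬ Sh t s := by
        intro t ht hsh
        have := hsub (hP.2 s hs t ht hsh)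
        simp only [Finset.mem_insert, Finset.mem_singleton] at this
        rcases this with h | h | h | h
        · exact k1 h
        · exact k2 h
        · exact k3 h
        · exact k4 h
      constructor
      · rintro ⟨i1, i2, i3⟩
        exact hno a ha (inside_short i2 i3 i1 f2.2 f1.2)
      · rintro ⟨i1, i2, i3⟩
        exact hno b hb (inside_short i3 i1 i2 f4.2 f3.2)
    obtain ⟨T1, T2⟩ := quad_Tr hG (hP.1 hu) (hP.1 ha) (hP.1 hv) (hP.1 hb) hA hB hI f1.1 f2.1 f3.1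
      f4.1 hin
    have hEx : Ex S u v := Or.inr ⟨b, a, T2, Tr_cyc (Tr_cyc T1), f4.2, Sh_symm f3.2,
      Sh_symm f1.2, f2.2⟩
    exact ⟨u, hu, v, hv, Xt_of_Tr T2 hEx (Or.inl f3.2) (Or.inl f4.2)⟩
  have xS := hP.1 hx
  have yS := hP.1 hy
  have zS := hP.1 hz
  have wS := hP.1 hw
  rcases le_total (XX x y z + XX z w x) 0 with hneg | hpos
  · -- reversed cycle x w z y
    have hpos' : 0 ≤ XX x w z + XX z y x := by
      have : XX x w z + XX z y x = -(XX x y z + XX z w x) := by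
        simp only [XX, cr, Complex.sub_re, Complex.sub_im]; ring
      rw [this]; linarith
    rcases cyc4_aux hG xS wS zS yS (Ne.symm h4) h6 (Ne.symm h2) (Ne.symm h1) (Ne.symm h3) h5
      (SE_symm e4).1 (SE_symm e3).1 (SE_symm e2).1 (SE_symm e1).1 hpos' with ⟨a1, a2, a3⟩ | ⟨a1, a2, a3⟩
    · exact quad x w z y hx hw hz hy (by intro t; simp only [Finset.mem_insert, Finset.mem_singleton]; tauto)
        a1 (by rw [← XX_cyc] at a2; rw [← XX_cyc] at a2; exact a2) a3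
        (SE_symm e4) (SE_symm e3) (SE_symm e2) (SE_symm e1)
    · exact quad w z y x hw hz hy hx (by intro t; simp only [Finset.mem_insert, Finset.mem_singleton]; tauto)
        a1 (by rw [← XX_cyc] at a2; rw [← XX_cyc] at a2; exact a2) a3
        (SE_symm e3) (SE_symm e2) (SE_symm e1) (SE_symm e4)
  · rcases cyc4_aux hG xS yS zS wS h1 h2 (Ne.symm h6) h4 (Ne.symm h3) (Ne.symm h5)
      e1.1 e2.1 e3.1 e4.1 hpos with ⟨a1, a2, a3⟩ | ⟨a1, a2, a3⟩
    · exact quad x y z w hx hy hz hw (by intro t; simp only [Finset.mem_insert, Finset.mem_singleton]; tauto)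
        a1 (by rw [← XX_cyc] at a2; rw [← XX_cyc] at a2; exact a2) a3 e1 e2 e3 e4
    · exact quad y z w x hy hz hw hx (by intro t; simp only [Finset.mem_insert, Finset.mem_singleton]; tauto)
        a1 (by rw [← XX_cyc] at a2; rw [← XX_cyc] at a2; exact a2) a3 e2 e3 e4 e1

end FT58
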