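import Pool.Agent.Lib.MP_49fa77_co.Four

/-!
# Clusters of four points, continued
-/

namespace FT58

open Real MeasureTheory Set

lemma FF_pair {D k : ℝ} (hk : 0 ≤ k) (hM : ∀ a, 0 < a → a < 1 → -(4 / 3 * k) ≤ gg D a)
    {S : Finset ℂ} {u v : ℂ} (huv : u ≠ v) (h1 : ¬ Xt S u v) (h2 : ¬ Xt S v u) :
    (SE S u v ∧ -(4 / 3 * k) ≤ FF D S u v ∧ -(4 / 3 * k) ≤ FF D S v u) ∨
      (¬ SE S u v ∧ FF D S u v = 0 ∧ FF D S v u = 0) := by
  by_cases h : SE S u v
  · left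
    exact ⟨h, FF_noX (by linarith) hM huv h1, FF_noX (by linarith) hM (Ne.symm huv) h2⟩
  · right
    exact ⟨h, FF_zero h1 h, FF_zero h2 (fun h' => h (SE_symm h'))⟩

lemma perm_b {x y z w : ℂ} : ({x, y, z, w} : Finset ℂ) = {y, z, x, w} := by
  rw [Finset.insert_comm x y, Finset.insert_comm x z]

/-- no exact triangles -/
lemma four_noX {D : ℝ} (hk : 0 ≤ kap D) (hM : ∀ a, 0 < a → a < 1 → -(kap D / 3) ≤ GG D a)
    {S : Finset ℂ} (hG : Gen S) {x y z w : ℂ} (hP : Closed S {x, y, z, w})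
    (h1 : x ≠ y) (h2 : y ≠ z) (h3 : z ≠ x) (h4 : w ≠ x) (h5 : w ≠ y) (h6 : w ≠ z)
    (hno : ¬ ∃ p ∈ ({x, y, z, w} : Finset ℂ), ∃ q ∈ ({x, y, z, w} : Finset ℂ), Xt S p q) :
    0 ≤ score D S {x, y, z, w} := by
  have hM' : ∀ a, 0 < a → a < 1 → -(4 / 3 * kap D) ≤ gg D a := by
    intro a h0 h1
    have := hM a h0 h1
    rw [gg_eq]; linarith
  have hx : x ∈ ({x, y, z, w} : Finset ℂ) := by simp
  have hy : y ∈ ({x, y, z, w} : Finset ℂ) := by simp
  have hz : z ∈ ({x, y, z, w} : Finset ℂ) := by simp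
  have hw : w ∈ ({x, y, z, w} : Finset ℂ) := by simp
  have nX : ∀ p ∈ ({x, y, z, w} : Finset ℂ), ∀ q ∈ ({x, y, z, w} : Finset ℂ), ¬ Xt S p q := by
    intro p hp q hq h
    exact hno ⟨p, hp, q, hq, h⟩
  -- no triangles
  have t1 : SE S x y → SE S y z → SE S z x → False := fun a b c =>
    hno (tri_Xt hG hP hx hy hz h1 h2 h3 a b c)
  have t2 : SE S x y → SE S y w → SE S w x → False := fun a b c =>
    hno (tri_Xt hG hP hx hy hw h1 (Ne.symm h5) h4 a b c)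
  have t3 : SE S y z → SE S z w → SE S w y → False := fun a b c =>
    hno (tri_Xt hG hP hy hz hw h2 (Ne.symm h6) h5 a b c)
  have t4 : SE S z x → SE S x w → SE S w z → False := fun a b c =>
    hno (tri_Xt hG hP hz hx hw h3 (Ne.symm h4) h6 a b c)
  -- no 4-cycles
  have c1 : SE S x y → SE S y z → SE S z w → SE S w x → False := fun a b c d =>
    hno (cyc_Xt hG hP h1 h2 h3 h4 h5 h6 a b c d)
  have c2 : SE S x z → SE S z y → SE S y w → SE S w x → False := by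
    intro a b c d
    have e : ({x, y, z, w} : Finset ℂ) = {x, z, y, w} := by rw [Finset.insert_comm y z]
    apply hno
    rw [e] at hP ⊢
    exact cyc_Xt hG hP (Ne.symm h3) (Ne.symm h2) (Ne.symm h1) h4 h6 h5 a b c d
  have c3 : SE S x y → SE S y w → SE S w z → SE S z x → False := by
    intro a b c d
    have e : ({x, y, z, w} : Finset ℂ) = {x, y, w, z} := by rw [Finset.pair_comm z w]
    apply hno
    rw [e] at hP ⊢
    exact cyc_Xt hG hP h1 (Ne.symm h5) h4 h3 (Ne.symm h2) (Ne.symm h6) a b c d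
  rw [score_sum4 h1 h2 h3 h4 h5 h6]
  have s1 : SE S z x → SE S x z := SE_symm
  have s2 : SE S w x → SE S x w := SE_symm
  have s3 : SE S w y → SE S y w := SE_symm
  have s4 : SE S w z → SE S z w := SE_symm
  have s5 : SE S z y → SE S y z := SE_symm
  have s1' : SE S x z → SE S z x := SE_symm
  have s2' : SE S x w → SE S w x := SE_symm
  have s3' : SE S y w → SE S w y := SE_symm
  have s4' : SE S z w → SE S w z := SE_symm
  have s5' : SE S y z → SE S z y := SE_symm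
  rcases FF_pair hk hM' h1 (nX x hx y hy) (nX y hy x hx) with ⟨a1, b1, d1⟩ | ⟨a1, b1, d1⟩ <;>
  rcases FF_pair hk hM' h2 (nX y hy z hz) (nX z hz y hy) with ⟨a2, b2, d2⟩ | ⟨a2, b2, d2⟩ <;>
  rcases FF_pair hk hM' h3 (nX z hz x hx) (nX x hx z hz) with ⟨a3, b3, d3⟩ | ⟨a3, b3, d3⟩ <;>
  rcases FF_pair hk hM' h4 (nX w hw x hx) (nX x hx w hw) with ⟨a4, b4, d4⟩ | ⟨a4, b4, d4⟩ <;>
  rcases FF_pair hk hM' h5 (nX w hw y hy) (nX y hy w hw) with ⟨a5, b5, d5⟩ | ⟨a5, b5, d5⟩ <;>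
  rcases FF_pair hk hM' h6 (nX w hw z hz) (nX z hz w hw) with ⟨a6, b6, d6⟩ | ⟨a6, b6, d6⟩ <;>
  first
  | linarith
  | exact (t1 a1 a2 a3).elim
  | exact (t2 a1 (s3 a5) a4).elim
  | exact (t3 a2 (s4 a6) a5).elim
  | exact (t4 a3 (s2 a4) a6).elim
  | exact (c1 a1 a2 (s4 a6) a4).elim
  | exact (c2 (s1 a3) (s5' a2) (s3 a5) a4).elim
  | exact (c3 a1 (s3 a5) a6 a3).elim

section
variable {D : ℝ} (hD0 : 0 ≤ D) (hD1 : D ≤ 1) (hk : 0 ≤ kap D)
  (hM : ∀ a, 0 < a → a < 1 → -(kap D / 3) ≤ GG D a)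
  (hW : ∀ a, 0 < a → a < 1 → 0 ≤ 4 * kap D / 9 + GG D a - (1 - D) * a ^ 2 / √3)
  (hQ : ∀ a, 0 < a → a < 1 → 0 ≤ kap D / 2 + GG D a - (1 - D) * a ^ 2)

/-- exact neighbours: if `y x` is exact in a cluster with exact triangle `x y z`, its apex is `w`. -/
lemma Xt_rev {S : Finset ℂ} {x y z w : ℂ} (hP : Closed S {x, y, z, w}) (hT : Tr S x y z)
    (h : Xt S y x) : Tr S y x w ∧ Ex S x w ∧ Ex S w y := by
  obtain ⟨r, hr, h1, h2, h3⟩ := h
  have hx : x ∈ ({x, y, z, w} : Finset ℂ) := by simp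
  have hrP := Closed_Ex hP hx hr.2.2.1 h2
  obtain ⟨n1, n2, n3⟩ := Tr_ne hr
  have hXr := hr.2.2.2.1
  have hX := hT.2.2.2.1
  simp only [Finset.mem_insert, Finset.mem_singleton] at hrP
  rcases hrP with rfl | rfl | rfl | rfl
  · exact absurd rfl n2
  · exact absurd rfl n3
  · exfalso
    rw [XX_swap] at hXr; linarith
  · exact ⟨hr, h2, h3⟩

lemma Sh_of_not_rev {S : Finset ℂ} {x y : ℂ} (hE : Ex S x y) (h : ¬ Xt S y x) : Sh x y := by
  rcases hE with h1 | ⟨r, r', h1, h2, h3, h4, h5, h6⟩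
  · exact h1
  · exfalso
    apply h
    exact ⟨r', h2, Or.inr ⟨r', r, h2, h1, h6, h5, h4, h3⟩, Or.inl (Sh_symm h5), Or.inl h6⟩

/-- two short edges at `w` to the ends of the side `x y` of an exact triangle `x y z` create
another exact triangle. -/
lemma two_edges {S : Finset ℂ} (hG : Gen S) {x y z w : ℂ} (hP : Closed S {x, y, z, w})
    (hwx : w ≠ x) (hwy : w ≠ y) (hzw : w ≠ z) (hT : Tr S x y z) (sxy : Sh x y) (hyz : Ex S y z)
    (t1 : ¬ Xt S y x) (t2 : ¬ Xt S z y) (e1 : SE S w x) (e2 : SE S w y) : False := by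
  have hx : x ∈ ({x, y, z, w} : Finset ℂ) := by simp
  have hy : y ∈ ({x, y, z, w} : Finset ℂ) := by simp
  have hz : z ∈ ({x, y, z, w} : Finset ℂ) := by simp
  have hw : w ∈ ({x, y, z, w} : Finset ℂ) := by simp
  have xS := hP.1 hx
  have yS := hP.1 hy
  have zS := hP.1 hz
  have wS := hP.1 hw
  have hX := hT.2.2.2.1
  have k := Tr_ne hT
  have hXyx : XX y x z < 0 := by rw [XX_swap]; linarith
  have hEd := Tr_Ed hT
  rcases lt_or_gt_of_ne (hG.1 x xS y yS w wS k.1 (Ne.symm hwx) (Ne.symm hwy)) with h | h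
  · -- `w` on the other side
    have h' : 0 < XX y x w := by rw [XX_swap]; linarith
    obtain ⟨t, ht⟩ := exists_Tr hG yS xS wS (Ed_symm hEd) h'
    rcases apex hG wS h' (Ed_symm e1.1) e2.1 ht with h1 | ⟨h1, h2, h3⟩
    · subst h1
      exact t1 (Xt_short ht (Sh_symm sxy) (Sh_symm e1.2) e2.2)
    · have s1 : Sh x t := inside_short h2 h3 h1 (Sh_symm e1.2) (Sh_symm sxy)
      have htP := hP.2 t ht.2.2.1 x hx s1
      obtain ⟨n1, n2, n3⟩ := Tr_ne ht
      simp only [Finset.mem_insert, Finset.mem_singleton] at htP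
      rcases htP with rfl | rfl | rfl | rfl
      · exact n2 rfl
      · exact n3 rfl
      · linarith
      · rw [XX_right] at h2; exact lt_irrefl _ h2
  · rcases apex hG wS h (Ed_symm e2.1) e1.1 hT with h1 | ⟨h1, h2, h3⟩
    · exact hzw h1.symm
    · obtain ⟨t, ht⟩ := exists_Tr hG yS wS zS (Ed_symm e2.1) h2
      have h4 : 0 < XX y w x := by rw [← XX_cyc] at h; exact h
      rcases apex hG xS h4 e1.1 hEd ht with h5 | ⟨h5, h6, h7⟩
      · subst h5
        have := Tr_unique hT (Tr_cyc (Tr_cyc ht))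
        exact hzw this.symm
      · have s1 : Sh w t := inside_short h6 h7 h5 e1.2 (Sh_symm e2.2)
        have htP := hP.2 t ht.2.2.1 w hw s1
        obtain ⟨n1, n2, n3⟩ := Tr_ne ht
        simp only [Finset.mem_insert, Finset.mem_singleton] at htP
        rcases htP with rfl | rfl | rfl | rfl
        · rw [XX_right] at h6; exact lt_irrefl _ h6
        · exact n3 rfl
        · have s2 : Sh w t := s1
          exact t2 (Xt_of_Tr (Tr_cyc (Tr_cyc ht)) (Ex_symm hyz) (Or.inl (Sh_symm e2.2))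
            (Or.inl s2))
        · exact n2 rfl

lemma Xt_cases {S : Finset ℂ} {x y z w u v : ℂ} (hP : Closed S {x, y, z, w})
    (hv : v ∈ ({x, y, z, w} : Finset ℂ)) (h : Xt S u v) :
    ∃ r ∈ ({x, y, z, w} : Finset ℂ), Tr S u v r ∧ Ex S u v ∧ Ex S v r ∧ Ex S r u := by
  obtain ⟨r, hr, h1, h2, h3⟩ := h
  exact ⟨r, Closed_Ex hP hv hr.2.2.1 h2, hr, h1, h2, h3⟩

/-- with `x y z` exact: the pair `(x, w)` is exact only through `y`. -/
lemma Xt_xw {S : Finset ℂ} {x y z w : ℂ} (hP : Closed S {x, y, z, w}) (hwy : w ≠ y)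
    (hT : Tr S x y z) (h : Xt S x w) : Xt S y x ∧ Tr S x w y := by
  obtain ⟨r, hr, h1, h2, h3, h4⟩ := Xt_cases hP (by simp) h
  obtain ⟨n1, n2, n3⟩ := Tr_ne h1
  simp only [Finset.mem_insert, Finset.mem_singleton] at hr
  rcases hr with rfl | rfl | rfl | rfl
  · exact absurd rfl n3
  · exact ⟨Xt_of_Tr (Tr_cyc (Tr_cyc h1)) h4 h2 h3, h1⟩
  · exfalso
    have := Tr_unique (Tr_cyc (Tr_cyc hT)) (Tr_cyc (Tr_cyc h1))
    exact hwy this.symm
  · exact absurd rfl n2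

/-- with `x y z` exact: the pair `(w, x)` is exact only through `z`. -/
lemma Xt_wx {S : Finset ℂ} {x y z w : ℂ} (hP : Closed S {x, y, z, w}) (hwz : w ≠ z)
    (hT : Tr S x y z) (h : Xt S w x) : Xt S x z ∧ Tr S w x z := by
  obtain ⟨r, hr, h1, h2, h3, h4⟩ := Xt_cases hP (by simp) h
  obtain ⟨n1, n2, n3⟩ := Tr_ne h1
  simp only [Finset.mem_insert, Finset.mem_singleton] at hr
  rcases hr with rfl | rfl | rfl | rfl
  · exact absurd rfl n2
  · exfalso
    have := Tr_unique hT (Tr_cyc h1)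
    exact hwz this.symm
  · exact ⟨Xt_of_Tr (Tr_cyc h1) h3 h4 h2, Tr_cyc (Tr_cyc (Tr_cyc h1))⟩
  · exact absurd rfl n3

include hM hW hD0 hD1 hk in
/-- exactly one exact triangle -/
lemma four_k0 {S : Finset ℂ} (hG : Gen S) {x y z w : ℂ} (hP : Closed S {x, y, z, w})
    (h4 : w ≠ x) (h5 : w ≠ y) (h6 : w ≠ z) (hT : Tr S x y z) (ex : Ex S x y) (ey : Ex S y z)
    (ez : Ex S z x) (t1 : ¬ Xt S y x) (t2 : ¬ Xt S z y) (t3 : ¬ Xt S x z) :
    0 ≤ score D S {x, y, z, w} := by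
  have hM' : ∀ a, 0 < a → a < 1 → -(4 / 3 * kap D) ≤ gg D a := by
    intro a h0 h1
    have := hM a h0 h1
    rw [gg_eq]; linarith
  obtain ⟨n1, n2, n3⟩ := Tr_ne hT
  have hT2 := Tr_cyc hT
  have hT3 := Tr_cyc hT2
  have s1 := Sh_of_not_rev ex t1
  have s2 := Sh_of_not_rev ey t2
  have s3 := Sh_of_not_rev ez t3
  have hP2 : Closed S {y, z, x, w} := by rw [← perm_b]; exact hP
  have hP3 : Closed S {z, x, y, w} := by rw [← perm_b]; exact hP2
  have x1 : Xt S x y := Xt_of_Tr hT ex ey ez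
  have x2 : Xt S y z := Xt_of_Tr hT2 ey ez ex
  have x3 : Xt S z x := Xt_of_Tr hT3 ez ex ey
  rw [score_sum4 n1 n2 n3 h4 h5 h6]
  rw [FF_exact hT x1, FF_exact hT2 x2, FF_exact hT3 x3,
    FF_out (Ed_symm (Tr_Ed hT)) t1 (Sh_symm s1), FF_out (Ed_symm (Tr_Ed hT2)) t2 (Sh_symm s2),
    FF_out (Ed_symm (Tr_Ed hT3)) t3 (Sh_symm s3), norm_sub_rev x y, norm_sub_rev y z,
    norm_sub_rev z x]
  have hb := bound1 hD0 hD1 hM hW hT.2.2.2.1 s1 s2 s3
  unfold VT gs at hb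
  have px := FF_pair hk hM' h4 (fun h => t3 (Xt_wx hP h6 hT h).1) (fun h => t1 (Xt_xw hP h5 hT h).1)
  have py := FF_pair hk hM' h5 (fun h => t1 (Xt_wx hP2 h4 hT2 h).1)
    (fun h => t2 (Xt_xw hP2 h6 hT2 h).1)
  have pz := FF_pair hk hM' h6 (fun h => t2 (Xt_wx hP3 h5 hT3 h).1)
    (fun h => t3 (Xt_xw hP3 h4 hT3 h).1)
  have b1 : SE S w x → SE S w y → False := fun a b =>
    two_edges hG hP h4 h5 h6 hT s1 ey t1 t2 a b
  have b2 : SE S w y → SE S w z → False := fun a b =>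
    two_edges hG hP2 h5 h6 h4 hT2 s2 ez t2 t3 a b
  have b3 : SE S w z → SE S w x → False := fun a b =>
    two_edges hG hP3 h6 h4 h5 hT3 s3 ex t3 t1 a b
  rcases px with ⟨a1, c1, d1⟩ | ⟨a1, c1, d1⟩ <;>
  rcases py with ⟨a2, c2, d2⟩ | ⟨a2, c2, d2⟩ <;>
  rcases pz with ⟨a3, c3, d3⟩ | ⟨a3, c3, d3⟩ <;>
  first
  | linarith
  | exact (b1 a1 a2).elim
  | exact (b2 a2 a3).elim
  | exact (b3 a3 a1).elim

include hM hW hQ hD0 hD1 in
/-- two exact triangles -/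
lemma four_k1 {S : Finset ℂ} (hG : Gen S) {x y z w : ℂ} (hP : Closed S {x, y, z, w})
    (h4 : w ≠ x) (h5 : w ≠ y) (h6 : w ≠ z) (hT : Tr S x y z) (ex : Ex S x y) (ey : Ex S y z)
    (ez : Ex S z x) (t1 : Xt S y x) (t2 : ¬ Xt S z y) (t3 : ¬ Xt S x z) :
    0 ≤ score D S {x, y, z, w} := by
  have hx : x ∈ ({x, y, z, w} : Finset ℂ) := by simp
  have hy : y ∈ ({x, y, z, w} : Finset ℂ) := by simp
  have hz : z ∈ ({x, y, z, w} : Finset ℂ) := by simp
  have hw : w ∈ ({x, y, z, w} : Finset ℂ) := by simp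
  have xS := hP.1 hx
  have yS := hP.1 hy
  have zS := hP.1 hz
  have wS := hP.1 hw
  obtain ⟨n1, n2, n3⟩ := Tr_ne hT
  have hT2 := Tr_cyc hT
  have hT3 := Tr_cyc hT2
  obtain ⟨hU, exw, ewy⟩ := Xt_rev hP hT t1
  have hU2 := Tr_cyc hU
  have hU3 := Tr_cyc hU2
  have s2 := Sh_of_not_rev ey t2
  have s3 := Sh_of_not_rev ez t3
  have hP2 : Closed S {y, z, x, w} := by rw [← perm_b]; exact hP
  have hP3 : Closed S {z, x, y, w} := by rw [← perm_b]; exact hP2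
  -- `(w, x)` and `(y, w)` are not exact
  have u1 : ¬ Xt S w x := fun h => t3 (Xt_wx hP h6 hT h).1
  have u2 : ¬ Xt S y w := fun h => t2 (Xt_xw hP2 h6 hT2 h).1
  have s4 := Sh_of_not_rev exw u1
  have s5 := Sh_of_not_rev ewy u2
  have u3 : ¬ Xt S z w := fun h => t3 (Xt_xw hP3 h4 hT3 h).1
  have u4 : ¬ Xt S w z := fun h => t2 (Xt_wx hP3 h5 hT3 h).1
  have x1 : Xt S x y := Xt_of_Tr hT ex ey ez
  have x2 : Xt S y z := Xt_of_Tr hT2 ey ez ex
  have x3 : Xt S z x := Xt_of_Tr hT3 ez ex ey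
  have x4 : Xt S y x := t1
  have x5 : Xt S x w := Xt_of_Tr hU2 exw ewy (Ex_symm ex)
  have x6 : Xt S w y := Xt_of_Tr hU3 ewy (Ex_symm ex) exw
  -- `z w` is not a short edge
  have hXz : XX x z y < 0 := by
    have := hT3.2.2.2.1
    rw [XX_swap] ; linarith
  have hne : ¬ SE S z w := by
    intro e
    rcases lt_or_gt_of_ne (hG.1 x xS z zS w wS (Ne.symm n3) (Ne.symm h4) (Ne.symm h6)) with h | h
    · have h' : 0 < XX z x w := by rw [XX_swap]; linarith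
      rcases apex hG wS h' (Tr_Ed hU2) (Ed_symm e.1) hT3 with h1 | ⟨h1, h2, h3⟩
      · exact h5 h1.symm
      · obtain ⟨t, ht⟩ := exists_Tr hG wS zS yS (Ed_symm e.1) h3
        have h7 : 0 < XX w z x := by rw [XX_cyc, XX_cyc]; exact h'
        rcases apex hG xS h7 (Tr_Ed hT3) (Tr_Ed hU2) ht with h8 | ⟨h8, h9, h10⟩
        · subst h8
          have := Tr_unique hT3 (Tr_cyc ht)
          exact h5 this.symm
        · have s6 : Sh w t := inside_short h8 h9 h10 (Sh_symm e.2) s4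
          have htP := hP.2 t ht.2.2.1 w hw s6
          obtain ⟨m1, m2, m3⟩ := Tr_ne ht
          simp only [Finset.mem_insert, Finset.mem_singleton] at htP
          rcases htP with rfl | rfl | rfl | rfl
          · rw [XX_right] at h9; exact lt_irrefl _ h9
          · exact t2 (Xt_of_Tr (Tr_cyc ht) (Or.inl (Sh_symm s2)) (Or.inl (Sh_symm s5))
              (Or.inl (Sh_symm e.2)))
          · exact m2 rfl
          · exact m3 rfl
    · obtain ⟨t, ht⟩ := exists_Tr hG xS zS wS (Ed_symm (Tr_Ed hT3)) h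
      rcases apex hG wS h e.1 (Ed_symm (Tr_Ed hU2)) ht with h1 | ⟨h1, h2, h3⟩
      · subst h1
        exact t3 (Xt_short ht (Sh_symm s3) e.2 (Sh_symm s4))
      · have s6 : Sh z t := inside_short h2 h3 h1 e.2 (Sh_symm s3)
        have htP := hP.2 t ht.2.2.1 z hz s6
        obtain ⟨m1, m2, m3⟩ := Tr_ne ht
        simp only [Finset.mem_insert, Finset.mem_singleton] at htP
        rcases htP with rfl | rfl | rfl | rfl
        · exact m3 rfl
        · linarith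
        · exact m2 rfl
        · rw [XX_right] at h2; exact lt_irrefl _ h2
  have hE := Tr_Ed hT
  rw [score_sum4 n1 n2 n3 h4 h5 h6]
  rw [FF_exact hT x1, FF_exact hT2 x2, FF_exact hT3 x3, FF_exact hU x4, FF_exact hU2 x5,
    FF_exact hU3 x6, FF_out (Ed_symm (Tr_Ed hT2)) t2 (Sh_symm s2),
    FF_out (Ed_symm (Tr_Ed hT3)) t3 (Sh_symm s3), FF_out (Ed_symm (Tr_Ed hU2)) u1 (Sh_symm s4),
    FF_out (Ed_symm (Tr_Ed hU3)) u2 (Sh_symm s5), FF_zero u3 hne,
    FF_zero u4 (fun h => hne (SE_symm h))]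
  have hA : 0 < XX x w y := hU2.2.2.2.1
  have hs : 0 ≤ att x y z + att y x w := by
    have := Tr_al hT
    have h8 := Tr_al hU
    unfold Ed at hE
    rw [this, h8] at hE
    exact hE.le
  have hb := bound2 hD0 hD1 hM hW hQ hA hT.2.2.2.1 s4 s5 s2 s3 hs
  unfold VT gs at hb
  rw [norm_sub_rev y z, norm_sub_rev z x, norm_sub_rev x w, norm_sub_rev w y]
  rw [norm_sub_rev w x, norm_sub_rev y w, norm_sub_rev z y, norm_sub_rev x z] at hb
  have q1 := norm_sub_rev x y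
  have q2 := norm_sub_rev z y
  have q3 := norm_sub_rev x z
  have q4 := norm_sub_rev w x
  have q5 := norm_sub_rev y w
  rw [q2, q3, q4, q5]
  linarith

include hM hW hQ hD0 hD1 hk in
/-- three exact triangles -/
lemma four_k2 {S : Finset ℂ} {x y z w : ℂ} (hP : Closed S {x, y, z, w})
    (h4 : w ≠ x) (h5 : w ≠ y) (h6 : w ≠ z) (hT : Tr S x y z) (ex : Ex S x y) (ey : Ex S y z)
    (ez : Ex S z x) (t1 : Xt S y x) (t2 : Xt S z y) :
    0 ≤ score D S {x, y, z, w} := by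
  obtain ⟨n1, n2, n3⟩ := Tr_ne hT
  have hT2 := Tr_cyc hT
  have hT3 := Tr_cyc hT2
  have hP2 : Closed S {y, z, x, w} := by rw [← perm_b]; exact hP
  have hP3 : Closed S {z, x, y, w} := by rw [← perm_b]; exact hP2
  obtain ⟨hU, exw, ewy⟩ := Xt_rev hP hT t1
  obtain ⟨hV, eyw, ewz⟩ := Xt_rev hP2 hT2 t2
  have hU2 := Tr_cyc hU
  have hU3 := Tr_cyc hU2
  have hV2 := Tr_cyc hV
  have hV3 := Tr_cyc hV2
  have p1 : 0 < XX x w y := hU2.2.2.2.1
  have p2 : 0 < XX w z y := hV3.2.2.2.1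
  have p3 : 0 < XX z x y := hT3.2.2.2.1
  have p4 : 0 < XX x w z := by
    have := XX_add x w z y
    linarith
  have t3 : ¬ Xt S x z := by
    intro h
    have := (Xt_rev hP3 hT3 h).1.2.2.2.1
    have e : XX x z w = - XX x w z := by
      simp only [XX, cr, Complex.sub_re, Complex.sub_im]; ring
    linarith
  have u1 : ¬ Xt S w x := fun h => t3 (Xt_wx hP h6 hT h).1
  have u2 : ¬ Xt S z w := fun h => t3 (Xt_xw hP3 h4 hT3 h).1
  have s3 := Sh_of_not_rev ez t3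
  have s4 := Sh_of_not_rev exw u1
  have s5 := Sh_of_not_rev ewz u2
  have x1 : Xt S x y := Xt_of_Tr hT ex ey ez
  have x2 : Xt S y z := Xt_of_Tr hT2 ey ez ex
  have x3 : Xt S z x := Xt_of_Tr hT3 ez ex ey
  have x5 : Xt S x w := Xt_of_Tr hU2 exw ewy (Ex_symm ex)
  have x6 : Xt S w y := Xt_of_Tr hU3 ewy (Ex_symm ex) exw
  have x7 : Xt S y w := Xt_of_Tr hV2 eyw ewz (Ex_symm ey)
  have x8 : Xt S w z := Xt_of_Tr hV3 ewz (Ex_symm ey) eyw
  rw [score_sum4 n1 n2 n3 h4 h5 h6]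
  rw [FF_exact hT x1, FF_exact hT2 x2, FF_exact hT3 x3, FF_exact hU t1, FF_exact hU2 x5,
    FF_exact hU3 x6, FF_exact hV t2, FF_exact hV2 x7, FF_exact hV3 x8,
    FF_out (Ed_symm (Tr_Ed hT3)) t3 (Sh_symm s3), FF_out (Ed_symm (Tr_Ed hU2)) u1 (Sh_symm s4),
    FF_out (Ed_symm (Tr_Ed hV3)) u2 (Sh_symm s5)]
  have c1 : 0 ≤ att y x w + att x y z := by
    have hE := Tr_Ed hT
    unfold Ed at hE
    rw [Tr_al hT, Tr_al hU] at hE
    linarith
  have c2 : 0 ≤ att y w z + att w y x := by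
    have hE := Tr_Ed hU3
    unfold Ed at hE
    rw [Tr_al hU3, Tr_al hV2] at hE
    linarith
  have c3 : 0 ≤ att y z x + att z y w := by
    have hE := Tr_Ed hT2
    unfold Ed at hE
    rw [Tr_al hT2, Tr_al hV] at hE
    linarith
  have hb := bound3 hD0 hD1 hM hW hQ (x := x) (y := w) (z := z) (w := y) hk p1 p2 p3 s4 s5 s3
    c1 c2 c3
  unfold VT gs at hb
  rw [norm_sub_rev z x, norm_sub_rev x w, norm_sub_rev w z]
  rw [norm_sub_rev w x, norm_sub_rev z w, norm_sub_rev x z] at hb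
  have q1 := norm_sub_rev w x
  have q2 := norm_sub_rev z w
  have q3 := norm_sub_rev x z
  rw [q1, q2, q3]
  linarith

include hM hW hQ hD0 hD1 hk in
/-- clusters of four points containing an exact triangle -/
lemma four_X {S : Finset ℂ} (hG : Gen S) {x y z w : ℂ} (hP : Closed S {x, y, z, w})
    (h4 : w ≠ x) (h5 : w ≠ y) (h6 : w ≠ z) (hT : Tr S x y z) (ex : Ex S x y) (ey : Ex S y z)
    (ez : Ex S z x) : 0 ≤ score D S {x, y, z, w} := by
  have hT2 := Tr_cyc hT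
  have hT3 := Tr_cyc hT2
  have hP2 : Closed S {y, z, x, w} := by rw [← perm_b]; exact hP
  have hP3 : Closed S {z, x, y, w} := by rw [← perm_b]; exact hP2
  by_cases t1 : Xt S y x <;> by_cases t2 : Xt S z y <;> by_cases t3 : Xt S x z
  · exact four_k2 hD0 hD1 hk hM hW hQ hP h4 h5 h6 hT ex ey ez t1 t2
  · exact four_k2 hD0 hD1 hk hM hW hQ hP h4 h5 h6 hT ex ey ez t1 t2
  · rw [perm_b, perm_b]
    exact four_k2 hD0 hD1 hk hM hW hQ hP3 h6 h4 h5 hT3 ez ex ey t3 t1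
  · exact four_k1 hD0 hD1 hM hW hQ hG hP h4 h5 h6 hT ex ey ez t1 t2 t3
  · rw [perm_b]
    exact four_k2 hD0 hD1 hk hM hW hQ hP2 h5 h6 h4 hT2 ey ez ex t2 t3
  · rw [perm_b]
    exact four_k1 hD0 hD1 hM hW hQ hG hP2 h5 h6 h4 hT2 ey ez ex t2 t3 t1
  · rw [perm_b, perm_b]
    exact four_k1 hD0 hD1 hM hW hQ hG hP3 h6 h4 h5 hT3 ez ex ey t3 t1 t2
  · exact four_k0 hD0 hD1 hk hM hW hG hP h4 h5 h6 hT ex ey ez t1 t2 t3

include hM hW hQ hD0 hD1 hk in
/-- clusters of four points -/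
theorem score_four {S P : Finset ℂ} (hG : Gen S) (hP : Closed S P) (hc : P.card = 4) :
    0 ≤ score D S P := by
  by_cases hno : ∃ p ∈ P, ∃ q ∈ P, Xt S p q
  · obtain ⟨x, hx, y, hy, hX⟩ := hno
    obtain ⟨z, hT, ex, ey, ez⟩ := hX
    have hz : z ∈ P := Closed_Ex hP hy hT.2.2.1 ey
    obtain ⟨n1, n2, n3⟩ := Tr_ne hT
    have hsub : ({x, y, z} : Finset ℂ) ⊆ P := by
      intro t ht
      simp only [Finset.mem_insert, Finset.mem_singleton] at ht
      rcases ht with rfl | rfl | rfl <;> assumption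
    have hc3 : ({x, y, z} : Finset ℂ).card = 3 := by
      rw [Finset.card_eq_three]; exact ⟨x, y, z, n1, Ne.symm n3, n2, rfl⟩
    have hc1 : (P \ {x, y, z}).card = 1 := by
      rw [Finset.card_sdiff_of_subset hsub, hc, hc3]
    obtain ⟨w, hw⟩ := Finset.card_eq_one.mp hc1
    have hwm : w ∈ P \ {x, y, z} := by rw [hw]; simp
    rw [Finset.mem_sdiff] at hwm
    have hwn := hwm.2
    simp only [Finset.mem_insert, Finset.mem_singleton, not_or] at hwn
    have hPe : P = {x, y, z, w} := by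
      have : P = {x, y, z} ∪ (P \ {x, y, z}) := by
        rw [Finset.union_sdiff_of_subset hsub]
      rw [this, hw]
      ext t; simp only [Finset.mem_union, Finset.mem_insert, Finset.mem_singleton]; tauto
    subst hPe
    exact four_X hD0 hD1 hk hM hW hQ hG hP hwn.1 hwn.2.1 hwn.2.2 hT ex ey ez
  · obtain ⟨x, y, z, w, h1, h2, h3, h4, h5, h6, rfl⟩ := Finset.card_eq_four.mp hc
    exact four_noX hk hM hG hP h1 h4 (Ne.symm h2) (Ne.symm h3) (Ne.symm h5) (Ne.symm h6) hno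

end

end FT58
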