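import Pool.Agent.Lib.MP_49fa77_co.Tri

/-!
# Planar algebra and the Delaunay structure of a finite generic set
-/

namespace FT58

open Real MeasureTheory Set

/-- planar cross product -/
def cr (u v : ℂ) : ℝ := u.re * v.im - u.im * v.re
/-- planar dot product -/
def dt (u v : ℂ) : ℝ := u.re * v.re + u.im * v.im
/-- twice the signed area of the triangle `c q r` -/
def XX (c q r : ℂ) : ℝ := cr (q - c) (r - c)
/-- the dot product at `r` -/
def DD (c q r : ℂ) : ℝ := dt (c - r) (q - r)
/-- the in-circle determinant -/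
def IC (c q r s : ℂ) : ℝ := DD c q s * XX c q r - DD c q r * XX c q s

lemma XX_cyc (c q r : ℂ) : XX q r c = XX c q r := by
  simp only [XX, cr, Complex.sub_re, Complex.sub_im]; ring

lemma XX_swap (c q r : ℂ) : XX q c r = -XX c q r := by
  simp only [XX, cr, Complex.sub_re, Complex.sub_im]; ring

lemma DD_swap (c q r : ℂ) : DD q c r = DD c q r := by
  simp only [DD, dt, Complex.sub_re, Complex.sub_im]; ring

lemma IC_cyc (c q r s : ℂ) : IC q r c s = IC c q r s := by
  simp only [IC, DD, dt, XX, cr, Complex.sub_re, Complex.sub_im]; ring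

lemma IC_swap (c q r s : ℂ) : IC c q s r = -IC c q r s := by
  simp only [IC]; ring

lemma XX_left (c q : ℂ) : XX c q c = 0 := by
  simp only [XX, cr, Complex.sub_re, Complex.sub_im]; ring

lemma XX_right (c q : ℂ) : XX c q q = 0 := by
  simp only [XX, cr, Complex.sub_re, Complex.sub_im]; ring

lemma DD_left (c q : ℂ) : DD c q c = 0 := by
  simp only [DD, dt, Complex.sub_re, Complex.sub_im]; ring

lemma DD_right (c q : ℂ) : DD c q q = 0 := by
  simp only [DD, dt, Complex.sub_re, Complex.sub_im]; ring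

lemma norm_sq_eq (z : ℂ) : ‖z‖ ^ 2 = z.re ^ 2 + z.im ^ 2 := by
  rw [← Complex.normSq_eq_norm_sq, Complex.normSq_apply]; ring

lemma DD_sum (c q r : ℂ) : DD c q r + DD q r c = ‖r - c‖ ^ 2 := by
  rw [norm_sq_eq]
  simp only [DD, dt, Complex.sub_re, Complex.sub_im]; ring

lemma DD_XX_sq (c q r : ℂ) : DD c q r ^ 2 + XX c q r ^ 2 = ‖c - r‖ ^ 2 * ‖q - r‖ ^ 2 := by
  rw [norm_sq_eq, norm_sq_eq]
  simp only [DD, dt, XX, cr, Complex.sub_re, Complex.sub_im]; ring

lemma DD_prod (c q r : ℂ) :
    DD c q r * DD q r c + DD q r c * DD r c q + DD r c q * DD c q r = XX c q r ^ 2 := by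
  simp only [DD, dt, XX, cr, Complex.sub_re, Complex.sub_im]; ring

/-- A set without three collinear or four concyclic points. -/
def Gen (S : Finset ℂ) : Prop :=
  (∀ c ∈ S, ∀ q ∈ S, ∀ r ∈ S, c ≠ q → c ≠ r → q ≠ r → XX c q r ≠ 0) ∧
  (∀ c ∈ S, ∀ q ∈ S, ∀ r ∈ S, ∀ s ∈ S, c ≠ q → c ≠ r → q ≠ r → s ≠ c → s ≠ q → s ≠ r →
    IC c q r s ≠ 0)

/-- `π/2` minus the angle at `r`. -/
noncomputable def att (c q r : ℂ) : ℝ := arctan (DD c q r / XX c q r)

/-- the possible left ends of the facet of `c, q` -/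
noncomputable def ends (S : Finset ℂ) (c q : ℂ) : Finset ℝ :=
  insert (π / 2) ((S.filter (fun r => 0 < XX c q r)).image (att c q))

lemma ends_nonempty (S : Finset ℂ) (c q : ℂ) : (ends S c q).Nonempty :=
  Finset.insert_nonempty _ _

/-- the left end (as an angle) of the facet of `c, q` -/
noncomputable def al (S : Finset ℂ) (c q : ℂ) : ℝ := (ends S c q).min' (ends_nonempty S c q)

/-- the facet of `c, q` is nondegenerate -/
def Ed (S : Finset ℂ) (c q : ℂ) : Prop := 0 < al S c q + al S q c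

/-- `c q r` is a positively oriented Delaunay triangle -/
def Tr (S : Finset ℂ) (c q r : ℂ) : Prop :=
  c ∈ S ∧ q ∈ S ∧ r ∈ S ∧ 0 < XX c q r ∧ ∀ s ∈ S, s ≠ c → s ≠ q → s ≠ r → 0 < IC c q r s

lemma att_lt (c q r : ℂ) : att c q r < π / 2 := arctan_lt_pi_div_two _
lemma lt_att (c q r : ℂ) : -(π / 2) < att c q r := neg_pi_div_two_lt_arctan _

lemma att_swap (c q r : ℂ) : att q c r = -att c q r := by
  unfold att
  rw [XX_swap, DD_swap, div_neg, arctan_neg]

lemma le_al_iff {S : Finset ℂ} {c q : ℂ} {x : ℝ} :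
    x ≤ al S c q ↔ x ≤ π / 2 ∧ ∀ r ∈ S, 0 < XX c q r → x ≤ att c q r := by
  unfold al
  rw [Finset.le_min'_iff]
  constructor
  · intro h
    refine ⟨h _ (Finset.mem_insert_self _ _), ?_⟩
    intro r hr hX
    apply h
    apply Finset.mem_insert_of_mem
    apply Finset.mem_image_of_mem
    exact Finset.mem_filter.mpr ⟨hr, hX⟩
  · rintro ⟨h1, h2⟩ y hy
    rcases Finset.mem_insert.mp hy with rfl | hy
    · exact h1
    · obtain ⟨r, hr, rfl⟩ := Finset.mem_image.mp hy
      rw [Finset.mem_filter] at hr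
      exact h2 r hr.1 hr.2

lemma lt_al_iff {S : Finset ℂ} {c q : ℂ} {x : ℝ} :
    x < al S c q ↔ x < π / 2 ∧ ∀ r ∈ S, 0 < XX c q r → x < att c q r := by
  unfold al
  rw [Finset.lt_min'_iff]
  constructor
  · intro h
    refine ⟨h _ (Finset.mem_insert_self _ _), ?_⟩
    intro r hr hX
    apply h
    apply Finset.mem_insert_of_mem
    apply Finset.mem_image_of_mem
    exact Finset.mem_filter.mpr ⟨hr, hX⟩
  · rintro ⟨h1, h2⟩ y hy
    rcases Finset.mem_insert.mp hy with rfl | hy
    · exact h1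
    · obtain ⟨r, hr, rfl⟩ := Finset.mem_image.mp hy
      rw [Finset.mem_filter] at hr
      exact h2 r hr.1 hr.2

lemma al_le_half (S : Finset ℂ) (c q : ℂ) : al S c q ≤ π / 2 := (le_al_iff.mp le_rfl).1

lemma al_le_att {S : Finset ℂ} {c q r : ℂ} (hr : r ∈ S) (hX : 0 < XX c q r) :
    al S c q ≤ att c q r := (le_al_iff.mp le_rfl).2 r hr hX

lemma lt_al (S : Finset ℂ) (c q : ℂ) : -(π / 2) < al S c q := by
  rw [lt_al_iff]
  exact ⟨by linarith [pi_pos], fun r _ _ => lt_att c q r⟩

lemma al_cases (S : Finset ℂ) (c q : ℂ) :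
    (al S c q = π / 2 ∧ ∀ r ∈ S, ¬ 0 < XX c q r) ∨
      ∃ r ∈ S, 0 < XX c q r ∧ al S c q = att c q r := by
  have h : al S c q ∈ ends S c q := Finset.min'_mem _ _
  unfold ends at h
  rcases Finset.mem_insert.mp h with h | h
  · left
    refine ⟨h, ?_⟩
    intro r hr hX
    have h1 := al_le_att hr hX
    have h2 := att_lt c q r
    linarith
  · right
    obtain ⟨r, hr, hr2⟩ := Finset.mem_image.mp h
    rw [Finset.mem_filter] at hr
    exact ⟨r, hr.1, hr.2, hr2.symm⟩

lemma Ed_symm {S : Finset ℂ} {c q : ℂ} (h : Ed S c q) : Ed S q c := by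
  unfold Ed at *; linarith

lemma IC_div {c q r s : ℂ} (hr : XX c q r ≠ 0) (hs : XX c q s ≠ 0) :
    IC c q r s = XX c q r * XX c q s * (DD c q s / XX c q s - DD c q r / XX c q r) := by
  unfold IC
  field_simp

/-- The left end of a facet is a Delaunay triangle. -/
lemma Tr_of_edge {S : Finset ℂ} (hG : Gen S) {c q : ℂ} (hc : c ∈ S) (hq : q ∈ S) (hcq : c ≠ q)
    (hE : Ed S c q) (hal : al S c q < π / 2) : ∃ r, Tr S c q r ∧ al S c q = att c q r := by
  rcases al_cases S c q with ⟨h, _⟩ | ⟨r, hr, hX, h⟩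
  · linarith
  refine ⟨r, ⟨hc, hq, hr, hX, ?_⟩, h⟩
  intro s hs hsc hsq hsr
  have hrc : c ≠ r := by rintro rfl; rw [XX_left] at hX; exact lt_irrefl _ hX
  have hrq : q ≠ r := by rintro rfl; rw [XX_right] at hX; exact lt_irrefl _ hX
  have hXs : XX c q s ≠ 0 := hG.1 c hc q hq s hs hcq (Ne.symm hsc) (Ne.symm hsq)
  have hne : IC c q r s ≠ 0 := hG.2 c hc q hq r hr s hs hcq hrc hrq hsc hsq hsr
  rw [IC_div hX.ne' hXs] at hne ⊢
  rcases lt_or_gt_of_ne hXs with hneg | hpos
  · -- `s` on the right side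
    have h1 : 0 < XX q c s := by rw [XX_swap]; linarith
    have h2 := al_le_att hs h1
    rw [att_swap] at h2
    unfold Ed at hE
    have h3 : att c q s < att c q r := by rw [← h]; linarith
    have h4 : DD c q s / XX c q s < DD c q r / XX c q r := arctan_strictMono.lt_iff_lt.mp h3
    have h5 : 0 < -XX c q s := by linarith
    have : 0 < XX c q r * (-XX c q s) * (DD c q r / XX c q r - DD c q s / XX c q s) :=
      mul_pos (mul_pos hX h5) (by linarith)
    nlinarith
  · have h2 := al_le_att hs hpos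
    rw [h] at h2
    have h4 : DD c q r / XX c q r ≤ DD c q s / XX c q s := arctan_strictMono.le_iff_le.mp h2
    have h5 : 0 ≤ XX c q r * XX c q s * (DD c q s / XX c q s - DD c q r / XX c q r) :=
      mul_nonneg (mul_pos hX hpos).le (by linarith)
    exact lt_of_le_of_ne h5 (Ne.symm hne)

lemma Tr_al {S : Finset ℂ} {c q r : ℂ} (h : Tr S c q r) : al S c q = att c q r := by
  obtain ⟨hc, hq, hr, hX, hs⟩ := h
  apply le_antisymm (al_le_att hr hX)
  rw [le_al_iff]
  refine ⟨(att_lt c q r).le, ?_⟩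
  intro s hsS hXs
  by_cases hsr : s = r
  · rw [hsr]
  have hsc : s ≠ c := by rintro rfl; rw [XX_left] at hXs; exact lt_irrefl _ hXs
  have hsq : s ≠ q := by rintro rfl; rw [XX_right] at hXs; exact lt_irrefl _ hXs
  have h1 := hs s hsS hsc hsq hsr
  rw [IC_div hX.ne' hXs.ne'] at h1
  have h2 : 0 < DD c q s / XX c q s - DD c q r / XX c q r :=
    pos_of_mul_pos_right h1 (mul_pos hX hXs).le
  exact arctan_strictMono.monotone (by linarith)

lemma Tr_Ed {S : Finset ℂ} {c q r : ℂ} (h : Tr S c q r) : Ed S c q := by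
  have h0 := Tr_al h
  obtain ⟨hc, hq, hr, hX, hs⟩ := h
  unfold Ed
  have : -att c q r < al S q c := by
    rw [lt_al_iff]
    constructor
    · have := lt_att c q r; linarith
    · intro s hsS hXs
      have hXs' : XX c q s < 0 := by rw [XX_swap] at hXs; linarith
      rw [att_swap c q s]
      have hsc : s ≠ c := by rintro rfl; rw [XX_left] at hXs'; exact lt_irrefl _ hXs'
      have hsq : s ≠ q := by rintro rfl; rw [XX_right] at hXs'; exact lt_irrefl _ hXs'
      have hsr : s ≠ r := by rintro rfl; exact lt_asymm hX hXs'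
      have h1 := hs s hsS hsc hsq hsr
      rw [IC_div hX.ne' hXs'.ne] at h1
      have h2 : DD c q s / XX c q s - DD c q r / XX c q r < 0 := by
        by_contra hcon
        push Not at hcon
        have : XX c q r * XX c q s * (DD c q s / XX c q s - DD c q r / XX c q r) ≤ 0 :=
          mul_nonpos_of_nonpos_of_nonneg (mul_neg_of_pos_of_neg hX hXs').le hcon
        linarith
      have h3 : att c q s < att c q r := arctan_strictMono (by linarith)
      linarith
  linarith

lemma Tr_cyc {S : Finset ℂ} {c q r : ℂ} (h : Tr S c q r) : Tr S q r c := by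
  obtain ⟨hc, hq, hr, hX, hs⟩ := h
  refine ⟨hq, hr, hc, by rw [XX_cyc]; exact hX, ?_⟩
  intro s hsS h1 h2 h3
  rw [IC_cyc]
  exact hs s hsS h3 h1 h2

lemma Tr_unique {S : Finset ℂ} {c q r r' : ℂ} (h : Tr S c q r) (h' : Tr S c q r') : r = r' := by
  by_contra hne
  obtain ⟨hc, hq, hr, hX, hs⟩ := h
  obtain ⟨_, _, hr', hX', hs'⟩ := h'
  have hc1 : r ≠ c := by rintro rfl; rw [XX_left] at hX; exact lt_irrefl _ hX
  have hc2 : r ≠ q := by rintro rfl; rw [XX_right] at hX; exact lt_irrefl _ hX
  have hd1 : r' ≠ c := by rintro rfl; rw [XX_left] at hX'; exact lt_irrefl _ hX'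
  have hd2 : r' ≠ q := by rintro rfl; rw [XX_right] at hX'; exact lt_irrefl _ hX'
  have h1 := hs r' hr' hd1 hd2 (Ne.symm hne)
  have h2 := hs' r hr hc1 hc2 hne
  rw [IC_swap] at h2
  linarith

lemma ne_of_XX_pos {c q r : ℂ} (hX : 0 < XX c q r) : c ≠ q ∧ q ≠ r ∧ r ≠ c := by
  refine ⟨?_, ?_, ?_⟩
  · rintro rfl
    have : XX c c r = 0 := by simp [XX, cr]
    rw [this] at hX; exact lt_irrefl _ hX
  · rintro rfl; rw [XX_right] at hX; exact lt_irrefl _ hX
  · rintro rfl; rw [XX_left] at hX; exact lt_irrefl _ hX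

/-- The angle at `r` of the triangle `c q r`. -/
noncomputable def an (c q r : ℂ) : ℝ := π / 2 - att c q r

lemma an_pos (c q r : ℂ) : 0 < an c q r := by unfold an; linarith [att_lt c q r]
lemma an_lt (c q r : ℂ) : an c q r < π := by unfold an; linarith [lt_att c q r]

lemma att_eq (c q r : ℂ) : att c q r = π / 2 - an c q r := by unfold an; ring

lemma sin_an {c q r : ℂ} (hX : 0 < XX c q r) :
    sin (an c q r) = XX c q r / (‖c - r‖ * ‖q - r‖) := by
  unfold an
  rw [sin_pi_div_two_sub]
  unfold att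
  rw [cos_arctan]
  obtain ⟨h1, h2, h3⟩ := ne_of_XX_pos hX
  have n1 : 0 < ‖c - r‖ := by rw [norm_pos_iff, sub_ne_zero]; exact Ne.symm h3
  have n2 : 0 < ‖q - r‖ := by rw [norm_pos_iff, sub_ne_zero]; exact h2
  have e : 1 + (DD c q r / XX c q r) ^ 2 = ((‖c - r‖ * ‖q - r‖) / XX c q r) ^ 2 := by
    have := DD_XX_sq c q r
    field_simp
    nlinarith
  rw [e, sqrt_sq (by positivity), one_div_div]

lemma cos_an {c q r : ℂ} (hX : 0 < XX c q r) :
    cos (an c q r) = DD c q r / (‖c - r‖ * ‖q - r‖) := by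
  unfold an
  rw [cos_pi_div_two_sub]
  unfold att
  rw [sin_arctan]
  obtain ⟨h1, h2, h3⟩ := ne_of_XX_pos hX
  have n1 : 0 < ‖c - r‖ := by rw [norm_pos_iff, sub_ne_zero]; exact Ne.symm h3
  have n2 : 0 < ‖q - r‖ := by rw [norm_pos_iff, sub_ne_zero]; exact h2
  have e : 1 + (DD c q r / XX c q r) ^ 2 = ((‖c - r‖ * ‖q - r‖) / XX c q r) ^ 2 := by
    have := DD_XX_sq c q r
    field_simp
    nlinarith
  rw [e, sqrt_sq (by positivity)]
  field_simp

lemma an_sum {c q r : ℂ} (hX : 0 < XX c q r) : an c q r + an q r c + an r c q = π := by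
  have hX2 : XX q r c = XX c q r := XX_cyc c q r
  have hX3 : XX r c q = XX c q r := by rw [← XX_cyc, XX_cyc, XX_cyc]
  suffices h : att c q r + att q r c + att r c q = π / 2 by unfold an; linarith
  set x := att c q r with hx
  set y := att q r c with hy
  set z := att r c q with hz
  have bx := att_lt c q r
  have by' := att_lt q r c
  have bz := att_lt r c q
  have cx : 0 < cos x := cos_arctan_pos _
  have cy : 0 < cos y := cos_arctan_pos _
  have cz : 0 < cos z := cos_arctan_pos _
  obtain ⟨h1, h2, h3⟩ := ne_of_XX_pos hX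
  have tx : sin x * XX c q r = DD c q r * cos x := by
    have := tan_arctan (DD c q r / XX c q r)
    rw [show arctan (DD c q r / XX c q r) = x from rfl, tan_eq_sin_div_cos,
      div_eq_div_iff cx.ne' hX.ne'] at this
    exact this
  have ty : sin y * XX c q r = DD q r c * cos y := by
    have := tan_arctan (DD q r c / XX q r c)
    rw [show arctan (DD q r c / XX q r c) = y from rfl, tan_eq_sin_div_cos, hX2,
      div_eq_div_iff cy.ne' hX.ne'] at this
    exact this
  have tz : sin z * XX c q r = DD r c q * cos z := by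
    have := tan_arctan (DD r c q / XX r c q)
    rw [show arctan (DD r c q / XX r c q) = z from rfl, tan_eq_sin_div_cos, hX3,
      div_eq_div_iff cz.ne' hX.ne'] at this
    exact this
  have hp := DD_prod c q r
  have hcos : cos (x + y + z) = 0 := by
    have e : XX c q r ^ 2 * cos (x + y + z) = 0 := by
      rw [cos_add, cos_add, sin_add]
      have : XX c q r ^ 2 * ((cos x * cos y - sin x * sin y) * cos z
          - (sin x * cos y + cos x * sin y) * sin z)
          = XX c q r ^ 2 * cos x * cos y * cos z - (sin x * XX c q r) * (sin y * XX c q r) * cos z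
            - (sin x * XX c q r) * (sin z * XX c q r) * cos y
            - (sin y * XX c q r) * (sin z * XX c q r) * cos x := by ring
      rw [this, tx, ty, tz]
      linear_combination (-(cos x * cos y * cos z)) * hp
    rcases mul_eq_zero.mp e with h | h
    · exfalso
      have : 0 < XX c q r ^ 2 := by positivity
      linarith
    · exact h
  have pxy : 0 < x + y := by
    have h4 : -(DD c q r / XX c q r) < DD q r c / XX q r c := by
      rw [hX2]
      have := DD_sum c q r
      have h5 : 0 < ‖r - c‖ ^ 2 := by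
        have : 0 < ‖r - c‖ := by rw [norm_pos_iff, sub_ne_zero]; exact h3
        positivity
      rw [← neg_div, div_lt_div_iff_of_pos_right hX]
      linarith
    have := arctan_strictMono h4
    rw [arctan_neg] at this
    have e1 : arctan (DD c q r / XX c q r) = x := rfl
    have e2 : arctan (DD q r c / XX q r c) = y := rfl
    rw [e1, e2] at this
    linarith
  have pyz : 0 < y + z := by
    have h4 : -(DD q r c / XX q r c) < DD r c q / XX r c q := by
      rw [hX2, hX3]
      have := DD_sum q r c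
      have h5 : 0 < ‖c - q‖ ^ 2 := by
        have : 0 < ‖c - q‖ := by rw [norm_pos_iff, sub_ne_zero]; exact h1
        positivity
      rw [← neg_div, div_lt_div_iff_of_pos_right hX]
      linarith
    have := arctan_strictMono h4
    rw [arctan_neg] at this
    have e1 : arctan (DD q r c / XX q r c) = y := rfl
    have e2 : arctan (DD r c q / XX r c q) = z := rfl
    rw [e1, e2] at this
    linarith
  have pzx : 0 < z + x := by
    have h4 : -(DD r c q / XX r c q) < DD c q r / XX c q r := by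
      rw [hX3]
      have := DD_sum r c q
      have h5 : 0 < ‖q - r‖ ^ 2 := by
        have : 0 < ‖q - r‖ := by rw [norm_pos_iff, sub_ne_zero]; exact h2
        positivity
      rw [← neg_div, div_lt_div_iff_of_pos_right hX]
      linarith
    have := arctan_strictMono h4
    rw [arctan_neg] at this
    have e1 : arctan (DD r c q / XX r c q) = z := rfl
    have e2 : arctan (DD c q r / XX c q r) = x := rfl
    rw [e1, e2] at this
    linarith
  rcases lt_trichotomy (x + y + z) (π / 2) with h | h | h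
  · exfalso
    have := cos_pos_of_mem_Ioo ⟨by linarith [pi_pos], h⟩
    linarith
  · exact h
  · exfalso
    have := cos_neg_of_pi_div_two_lt_of_lt h (by linarith)
    linarith

/-- circumradius -/
noncomputable def RR (c q r : ℂ) : ℝ := ‖q - c‖ * ‖r - q‖ * ‖c - r‖ / (2 * XX c q r)

lemma RR_cyc (c q r : ℂ) : RR q r c = RR c q r := by
  unfold RR; rw [XX_cyc]; ring

lemma RR_pos {c q r : ℂ} (hX : 0 < XX c q r) : 0 < RR c q r := by
  obtain ⟨h1, h2, h3⟩ := ne_of_XX_pos hX
  have n1 : 0 < ‖q - c‖ := by rw [norm_pos_iff, sub_ne_zero]; exact Ne.symm h1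
  have n2 : 0 < ‖r - q‖ := by rw [norm_pos_iff, sub_ne_zero]; exact Ne.symm h2
  have n3 : 0 < ‖c - r‖ := by rw [norm_pos_iff, sub_ne_zero]; exact Ne.symm h3
  unfold RR; positivity

lemma RR_sin {c q r : ℂ} (hX : 0 < XX c q r) : RR c q r * sin (an c q r) = ‖q - c‖ / 2 := by
  rw [sin_an hX]
  unfold RR
  obtain ⟨h1, h2, h3⟩ := ne_of_XX_pos hX
  have n2 : 0 < ‖r - q‖ := by rw [norm_pos_iff, sub_ne_zero]; exact Ne.symm h2
  have n3 : 0 < ‖c - r‖ := by rw [norm_pos_iff, sub_ne_zero]; exact Ne.symm h3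
  rw [norm_sub_rev q r]
  field_simp

end FT58
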