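import Pool.Agent.Lib.MP_49fa77_co.Four2

/-!
# One-variable estimates
-/

namespace FT58

open Real MeasureTheory Set

/-- half of the area added by one more disk of a chain with spacing `2a` -/
noncomputable def Ca (a : ℝ) : ℝ := arcsin a + a * √(1 - a ^ 2)

/-- density of the optimal lattice packing of the chain of `n` disks with spacing `2a`. -/
noncomputable def gdens (n : ℕ) (a : ℝ) : ℝ :=
  (π + 2 * ((n : ℝ) - 1) * Ca a) / (2 * √3 + 2 * ((n : ℝ) - 1) * Ar a)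

lemma Ar_nonneg {a : ℝ} (h : 0 ≤ a) : 0 ≤ Ar a := by unfold Ar; positivity

lemma Ar_cont : Continuous Ar := by
  unfold Ar
  exact continuous_id.mul ((continuous_const.sub (continuous_id.pow 2)).sqrt)

lemma Ca_cont : Continuous Ca := by
  unfold Ca
  exact continuous_arcsin.add (continuous_id.mul ((continuous_const.sub (continuous_id.pow 2)).sqrt))

lemma Ca_hasDeriv {a : ℝ} (h0 : -1 < a) (h1 : a < 1) : HasDerivAt Ca (2 * √(1 - a ^ 2)) a := by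
  unfold Ca
  have h2 : 0 < 1 - a ^ 2 := by nlinarith
  have d0 : HasDerivAt (fun x : ℝ => x ^ 2) (2 * a) a := by
    simpa using hasDerivAt_pow 2 a
  have d1 : HasDerivAt (fun x : ℝ => √(1 - x ^ 2)) (-(2 * a) / (2 * √(1 - a ^ 2))) a := by
    have := (d0.const_sub 1).sqrt h2.ne'
    simpa using this
  have d2 : HasDerivAt (fun x : ℝ => x * √(1 - x ^ 2))
      (1 * √(1 - a ^ 2) + a * (-(2 * a) / (2 * √(1 - a ^ 2)))) a := (hasDerivAt_id' a).mul d1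
  have d3 := (hasDerivAt_arcsin (ne_of_gt h0) (ne_of_lt h1)).add d2
  refine d3.congr_deriv ?_
  have hs : √(1 - a ^ 2) ^ 2 = 1 - a ^ 2 := sq_sqrt h2.le
  have hs0 : 0 < √(1 - a ^ 2) := sqrt_pos.mpr h2
  field_simp
  nlinarith

lemma Ar_hasDeriv {a : ℝ} (h : a ^ 2 < 4) :
    HasDerivAt Ar ((4 - 2 * a ^ 2) / √(4 - a ^ 2)) a := by
  unfold Ar
  have h2 : 0 < 4 - a ^ 2 := by linarith
  have d0 : HasDerivAt (fun x : ℝ => x ^ 2) (2 * a) a := by
    simpa using hasDerivAt_pow 2 a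
  have d1 : HasDerivAt (fun x : ℝ => √(4 - x ^ 2)) (-(2 * a) / (2 * √(4 - a ^ 2))) a := by
    have := (d0.const_sub 4).sqrt h2.ne'
    simpa using this
  have d2 : HasDerivAt (fun x : ℝ => x * √(4 - x ^ 2))
      (1 * √(4 - a ^ 2) + a * (-(2 * a) / (2 * √(4 - a ^ 2)))) a := (hasDerivAt_id' a).mul d1
  refine d2.congr_deriv ?_
  have hs : √(4 - a ^ 2) ^ 2 = 4 - a ^ 2 := sq_sqrt h2.le
  have hs0 : 0 < √(4 - a ^ 2) := sqrt_pos.mpr h2
  field_simp
  nlinarith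

/-- polynomial lower bound for `Ar - Ca`. -/
noncomputable def Pa (a : ℝ) : ℝ :=
  a ^ 3 / 12 + 11 / 320 * a ^ 5 + 17 / 1120 * a ^ 7 + 61 / 9000 * a ^ 9

lemma sqrt_four_le {s : ℝ} (h0 : 0 ≤ s) (h1 : s ≤ 1) : √(4 - s) ≤ 2 - s / 4 - s ^ 2 / 64 := by
  apply sqrt_le_iff.mpr
  constructor
  · nlinarith
  · nlinarith [mul_nonneg (mul_nonneg h0 h0) h0, mul_nonneg (mul_nonneg (mul_nonneg h0 h0) h0) h0]

lemma sqrt_one_le {s : ℝ} (h0 : 0 ≤ s) (h1 : s ≤ 1) : 2 * √(1 - s) ≤ 2 - s - s ^ 2 / 4 := by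
  have h2 : 0 ≤ 2 - s - s ^ 2 / 4 := by nlinarith
  have h3 : (2 * √(1 - s)) ^ 2 ≤ (2 - s - s ^ 2 / 4) ^ 2 := by
    rw [mul_pow, sq_sqrt (by linarith)]
    nlinarith [mul_nonneg (mul_nonneg h0 h0) h0, mul_nonneg (mul_nonneg (mul_nonneg h0 h0) h0) h0]
  exact abs_le_of_sq_le_sq' h3 h2 |>.2

lemma deriv_lower {a : ℝ} (h0 : 0 ≤ a) (h1 : a < 1) :
    a ^ 2 / 4 * (1 + 11 / 16 * a ^ 2 + 17 / 40 * (a ^ 2) ^ 2 + 61 / 250 * (a ^ 2) ^ 3)
      ≤ (4 - 2 * a ^ 2) / √(4 - a ^ 2) - 2 * √(1 - a ^ 2) := by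
  set s := a ^ 2 with hs
  have s0 : 0 ≤ s := by positivity
  have s1 : s < 1 := by rw [hs]; nlinarith
  set r := √(4 - s) with hr
  set t := √(1 - s) with ht
  have r0 : 0 < r := sqrt_pos.mpr (by linarith)
  have t0 : 0 ≤ t := sqrt_nonneg _
  have r2 : r ^ 2 = 4 - s := sq_sqrt (by linarith)
  have t2 : t ^ 2 = 1 - s := sq_sqrt (by linarith)
  set k := (4 - 2 * s) / r with hk
  have k0 : 0 < k := by rw [hk]; apply div_pos <;> linarith
  have k2 : k ^ 2 = 4 * (1 - s) + 4 * s / (4 - s) := by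
    have : (4 - s) ≠ 0 := by linarith
    rw [hk, div_pow, r2]
    field_simp
    ring
  -- upper bound for `k`
  have hku : k ≤ 2 - 3 / 4 * s := by
    have h3 : k ^ 2 ≤ (2 - 3 / 4 * s) ^ 2 := by
      rw [k2]
      have : 4 * s / (4 - s) ≤ s + 9 / 16 * s ^ 2 := by
        rw [div_le_iff₀ (by linarith)]
        nlinarith [mul_nonneg s0 s0, mul_nonneg (mul_nonneg s0 s0) (by linarith : 0 ≤ 1 - s)]
      nlinarith
    exact abs_le_of_sq_le_sq' h3 (by linarith) |>.2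
  have htu := sqrt_one_le s0 s1.le
  rw [← ht] at htu
  have hsum : k + 2 * t ≤ 4 - 7 / 4 * s - s ^ 2 / 4 := by linarith
  have hpos : 0 < k + 2 * t := by linarith
  have hprod : (k - 2 * t) * (k + 2 * t) = 4 * s / (4 - s) := by
    have : (k - 2 * t) * (k + 2 * t) = k ^ 2 - 4 * t ^ 2 := by ring
    rw [this, k2, t2]; ring
  have hfin : s / 4 * (1 + 11 / 16 * s + 17 / 40 * s ^ 2 + 61 / 250 * s ^ 3) * (k + 2 * t)
      ≤ (k - 2 * t) * (k + 2 * t) := by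
    rw [hprod]
    calc s / 4 * (1 + 11 / 16 * s + 17 / 40 * s ^ 2 + 61 / 250 * s ^ 3) * (k + 2 * t)
        ≤ s / 4 * (1 + 11 / 16 * s + 17 / 40 * s ^ 2 + 61 / 250 * s ^ 3)
          * (4 - 7 / 4 * s - s ^ 2 / 4) := by gcongr
      _ ≤ 4 * s / (4 - s) := by
        rw [le_div_iff₀ (by linarith)]
        have h5 : (1 + 11 / 16 * s + 17 / 40 * s ^ 2 + 61 / 250 * s ^ 3)
          * (4 - 7 / 4 * s - s ^ 2 / 4) * (4 - s) ≤ 16 := by
          have p2 : 0 ≤ s ^ 2 := by positivity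
          have p3 : 0 ≤ s ^ 3 := by positivity
          have p4 : 0 ≤ s ^ 4 := by positivity
          have p5 : s ^ 5 ≤ s ^ 4 := pow_le_pow_of_le_one s0 s1.le (by norm_num)
          have p6 : s ^ 6 ≤ s ^ 5 := pow_le_pow_of_le_one s0 s1.le (by norm_num)
          nlinarith
        calc s / 4 * (1 + 11 / 16 * s + 17 / 40 * s ^ 2 + 61 / 250 * s ^ 3)
              * (4 - 7 / 4 * s - s ^ 2 / 4) * (4 - s)
            = s / 4 * ((1 + 11 / 16 * s + 17 / 40 * s ^ 2 + 61 / 250 * s ^ 3)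
              * (4 - 7 / 4 * s - s ^ 2 / 4) * (4 - s)) := by ring
          _ ≤ s / 4 * 16 := by gcongr
          _ = 4 * s := by ring
  have := le_of_mul_le_mul_right hfin hpos
  linarith

lemma Pa_hasDeriv (a : ℝ) : HasDerivAt Pa
    (a ^ 2 / 4 * (1 + 11 / 16 * a ^ 2 + 17 / 40 * (a ^ 2) ^ 2 + 61 / 250 * (a ^ 2) ^ 3)) a := by
  unfold Pa
  have d3 := (hasDerivAt_pow 3 a).div_const 12
  have d5 := (hasDerivAt_pow 5 a).const_mul (11 / 320 : ℝ)
  have d7 := (hasDerivAt_pow 7 a).const_mul (17 / 1120 : ℝ)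
  have d9 := (hasDerivAt_pow 9 a).const_mul (61 / 9000 : ℝ)
  have d := ((d3.add d5).add d7).add d9
  refine d.congr_deriv ?_
  norm_num
  ring

/-- **Key estimate.** -/
lemma Delta_lower {a : ℝ} (h0 : 0 ≤ a) (h1 : a ≤ 1) : Pa a ≤ Ar a - Ca a := by
  have hmono : MonotoneOn (fun x => Ar x - Ca x - Pa x) (Icc 0 1) := by
    apply monotoneOn_of_deriv_nonneg (convex_Icc 0 1)
    · apply ContinuousOn.sub (Ar_cont.sub Ca_cont).continuousOn
      intro x _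
      exact (Pa_hasDeriv x).continuousAt.continuousWithinAt
    · intro x hx
      rw [interior_Icc] at hx
      exact (((Ar_hasDeriv (by nlinarith [hx.1, hx.2])).sub
        (Ca_hasDeriv (by linarith [hx.1]) hx.2)).sub (Pa_hasDeriv x)).differentiableAt.differentiableWithinAt
    · intro x hx
      rw [interior_Icc] at hx
      have hd : HasDerivAt (fun x => Ar x - Ca x - Pa x) _ x :=
        ((Ar_hasDeriv (by nlinarith [hx.1, hx.2])).sub
        (Ca_hasDeriv (by linarith [hx.1]) hx.2)).sub (Pa_hasDeriv x)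
      rw [hd.deriv]
      have := deriv_lower hx.1.le hx.2
      linarith
  have h := hmono (⟨le_rfl, zero_le_one⟩ : (0:ℝ) ∈ Icc (0:ℝ) 1) ⟨h0, h1⟩ h0
  have e : Ar 0 - Ca 0 - Pa 0 = 0 := by
    unfold Ar Ca Pa; simp
  simp only [e] at h
  linarith

lemma Ar_upper {a : ℝ} (h0 : 0 ≤ a) (h1 : a ≤ 1) : Ar a ≤ 2 * a - a ^ 3 / 4 - a ^ 5 / 64 := by
  unfold Ar
  have h2 := sqrt_four_le (s := a ^ 2) (by positivity) (by nlinarith)
  calc a * √(4 - a ^ 2) ≤ a * (2 - a ^ 2 / 4 - (a ^ 2) ^ 2 / 64) := by gcongr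
    _ = _ := by ring

lemma GG_eq (D a : ℝ) : GG D a = (Ar a - Ca a) - (1 - D) * Ar a := by
  unfold GG Ca; ring

/-- general form of the estimates `(W)`, `(Q)`. -/
lemma est_aux {D D₀ a c e : ℝ} (h0 : 0 ≤ a) (h1 : a ≤ 1) (hD : D₀ ≤ D) (_hD1 : D ≤ 1)
    (hc : 0 ≤ c) (he : 0 ≤ e)
    (hpoly : (1 - D₀) * (2 * a - a ^ 3 / 4 - a ^ 5 / 64 + e * a ^ 2)
      ≤ c * (D₀ * √3 - π / 2) + Pa a) :
    0 ≤ c * kap D + GG D a - (1 - D) * (e * a ^ 2) := by
  have h2 := Delta_lower h0 h1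
  have h3 := Ar_upper h0 h1
  have h4 := Ar_nonneg h0
  rw [GG_eq]
  have h5 : (1 - D) * (Ar a + e * a ^ 2) ≤ (1 - D₀) * (2 * a - a ^ 3 / 4 - a ^ 5 / 64 + e * a ^ 2) := by
    have : 0 ≤ e * a ^ 2 := by positivity
    calc (1 - D) * (Ar a + e * a ^ 2) ≤ (1 - D₀) * (Ar a + e * a ^ 2) := by
          apply mul_le_mul_of_nonneg_right _ (by linarith); linarith
      _ ≤ _ := by
          apply mul_le_mul_of_nonneg_left _ (by linarith); linarith
  have h6 : c * (D₀ * √3 - π / 2) ≤ c * kap D := by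
    apply mul_le_mul_of_nonneg_left _ hc
    unfold kap
    have := sqrt3_pos
    nlinarith
  nlinarith

lemma sqrt3_gt : (1.73205 : ℝ) < √3 := by
  rw [lt_sqrt (by norm_num)]; norm_num
lemma sqrt3_lt : √3 < (1.73206 : ℝ) := by
  rw [sqrt_lt' (by norm_num)]; norm_num
lemma sqrt15_lt : √15 < (3.87299 : ℝ) := by
  rw [sqrt_lt' (by norm_num)]; norm_num

lemma inv_sqrt3_lt : 1 / √3 < (0.57736 : ℝ) := by
  rw [div_lt_iff₀ sqrt3_pos]
  have := sqrt3_gt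
  nlinarith

lemma W3 {D a : ℝ} (hD : 0.9496 ≤ D) (hD1 : D ≤ 1) (h0 : 0 < a) (h1 : a < 1) :
    0 ≤ 2 * kap D / 3 + GG D a - (1 - D) * a ^ 2 / √3 := by
  have h := est_aux (D₀ := 0.9496) (c := 2 / 3) (e := 1 / √3) h0.le h1.le hD hD1 (by norm_num)
    (by positivity) (by
      have p1 := pi_lt_d6
      have p2 := sqrt3_gt
      have p3 := inv_sqrt3_lt
      have q1 : 1 / √3 * a ^ 2 ≤ 0.57736 * a ^ 2 := by gcongr
      have q2 : 0.0493 ≤ 2 / 3 * (0.9496 * √3 - π / 2) := by linarith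
      have e5 : 0 ≤ a ^ 5 - (5 * 0.6 ^ 4 * a - 4 * 0.6 ^ 5) := by
        have : a ^ 5 - (5 * 0.6 ^ 4 * a - 4 * 0.6 ^ 5)
            = (a - 0.6) ^ 2 * (a ^ 3 + 2 * 0.6 * a ^ 2 + 3 * 0.6 ^ 2 * a + 4 * 0.6 ^ 3) := by ring
        rw [this]; positivity
      have e7 : 0 ≤ a ^ 7 - (7 * 0.6 ^ 6 * a - 6 * 0.6 ^ 7) := by
        have : a ^ 7 - (7 * 0.6 ^ 6 * a - 6 * 0.6 ^ 7)
            = (a - 0.6) ^ 2 * (a ^ 5 + 2 * 0.6 * a ^ 4 + 3 * 0.6 ^ 2 * a ^ 3 + 4 * 0.6 ^ 3 * a ^ 2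
              + 5 * 0.6 ^ 4 * a + 6 * 0.6 ^ 5) := by ring
        rw [this]; positivity
      have e9 : 0 ≤ a ^ 9 := by positivity
      unfold Pa
      nlinarith [mul_nonneg h0.le (sq_nonneg (a - 0.6)), sq_nonneg (a - 0.6)])
  have e : (1 - D) * (1 / √3 * a ^ 2) = (1 - D) * a ^ 2 / √3 := by ring
  rw [e] at h
  linarith

lemma W4 {D a : ℝ} (hD : 0.95769 ≤ D) (hD1 : D ≤ 1) (h0 : 0 < a) (h1 : a < 1) :
    0 ≤ 4 * kap D / 9 + GG D a - (1 - D) * a ^ 2 / √3 := by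
  have h := est_aux (D₀ := 0.95769) (c := 4 / 9) (e := 1 / √3) h0.le h1.le hD hD1 (by norm_num)
    (by positivity) (by
      have p1 := pi_lt_d6
      have p2 := sqrt3_gt
      have p3 := inv_sqrt3_lt
      have q1 : 1 / √3 * a ^ 2 ≤ 0.57736 * a ^ 2 := by gcongr
      have q2 : 0.03909 ≤ 4 / 9 * (0.95769 * √3 - π / 2) := by linarith
      have e5 : 0 ≤ a ^ 5 - (5 * 0.6 ^ 4 * a - 4 * 0.6 ^ 5) := by
        have : a ^ 5 - (5 * 0.6 ^ 4 * a - 4 * 0.6 ^ 5)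
            = (a - 0.6) ^ 2 * (a ^ 3 + 2 * 0.6 * a ^ 2 + 3 * 0.6 ^ 2 * a + 4 * 0.6 ^ 3) := by ring
        rw [this]; positivity
      have e7 : 0 ≤ a ^ 7 - (7 * 0.6 ^ 6 * a - 6 * 0.6 ^ 7) := by
        have : a ^ 7 - (7 * 0.6 ^ 6 * a - 6 * 0.6 ^ 7)
            = (a - 0.6) ^ 2 * (a ^ 5 + 2 * 0.6 * a ^ 4 + 3 * 0.6 ^ 2 * a ^ 3 + 4 * 0.6 ^ 3 * a ^ 2
              + 5 * 0.6 ^ 4 * a + 6 * 0.6 ^ 5) := by ring
        rw [this]; positivity
      have e9 : 0 ≤ a ^ 9 := by positivity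
      unfold Pa
      nlinarith [mul_nonneg h0.le (sq_nonneg (a - 0.55)), sq_nonneg (a - 0.55)])
  have e : (1 - D) * (1 / √3 * a ^ 2) = (1 - D) * a ^ 2 / √3 := by ring
  rw [e] at h
  linarith

lemma Q4 {D a : ℝ} (hD : 0.95769 ≤ D) (hD1 : D ≤ 1) (h0 : 0 < a) (h1 : a < 1) :
    0 ≤ kap D / 2 + GG D a - (1 - D) * a ^ 2 := by
  have h := est_aux (D₀ := 0.95769) (c := 1 / 2) (e := 1) h0.le h1.le hD hD1 (by norm_num)
    (by norm_num) (by
      have p1 := pi_lt_d6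
      have p2 := sqrt3_gt
      have q2 : 0.04398 ≤ 1 / 2 * (0.95769 * √3 - π / 2) := by linarith
      have e5 : 0 ≤ a ^ 5 - (5 * 0.64 ^ 4 * a - 4 * 0.64 ^ 5) := by
        have : a ^ 5 - (5 * 0.64 ^ 4 * a - 4 * 0.64 ^ 5)
            = (a - 0.64) ^ 2 * (a ^ 3 + 2 * 0.64 * a ^ 2 + 3 * 0.64 ^ 2 * a + 4 * 0.64 ^ 3) := by ring
        rw [this]; positivity
      have e7 : 0 ≤ a ^ 7 - (7 * 0.64 ^ 6 * a - 6 * 0.64 ^ 7) := by
        have : a ^ 7 - (7 * 0.64 ^ 6 * a - 6 * 0.64 ^ 7)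
            = (a - 0.64) ^ 2 * (a ^ 5 + 2 * 0.64 * a ^ 4 + 3 * 0.64 ^ 2 * a ^ 3
              + 4 * 0.64 ^ 3 * a ^ 2 + 5 * 0.64 ^ 4 * a + 6 * 0.64 ^ 5) := by ring
        rw [this]; positivity
      have e9 : 0 ≤ a ^ 9 := by positivity
      unfold Pa
      nlinarith [mul_nonneg h0.le (sq_nonneg (a - 0.64)), sq_nonneg (a - 0.64)])
  linarith

/-! ### The optimal density -/

lemma Ca_half : Ca (1 / 2) = π / 6 + √3 / 4 := by
  unfold Ca
  have h1 : arcsin (1 / 2) = π / 6 := by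
    rw [← sin_pi_div_six, arcsin_sin (by linarith [pi_pos]) (by linarith [pi_pos])]
  have h2 : √(1 - (1 / 2) ^ 2) = √3 / 2 := by
    rw [show (1 : ℝ) - (1 / 2) ^ 2 = 3 / 2 ^ 2 by norm_num, sqrt_div (by norm_num),
      sqrt_sq (by norm_num)]
  rw [h1, h2]; ring

lemma Ar_half : Ar (1 / 2) = √15 / 4 := by
  unfold Ar
  have h2 : √(4 - (1 / 2) ^ 2) = √15 / 2 := by
    rw [show (4 : ℝ) - (1 / 2) ^ 2 = 15 / 2 ^ 2 by norm_num, sqrt_div (by norm_num),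
      sqrt_sq (by norm_num)]
  rw [h2]; ring

lemma den_pos {n : ℕ} (hn : 1 ≤ n) {a : ℝ} (h : 0 ≤ a) :
    0 < 2 * √3 + 2 * ((n : ℝ) - 1) * Ar a := by
  have h1 := Ar_nonneg h
  have h2 : (1 : ℝ) ≤ n := by exact_mod_cast hn
  have h3 := sqrt3_pos
  have : 0 ≤ 2 * ((n : ℝ) - 1) * Ar a := by
    apply mul_nonneg _ h1
    linarith
  linarith

lemma gdens_cont {n : ℕ} (hn : 1 ≤ n) : ContinuousOn (gdens n) (Icc 0 1) := by
  unfold gdens
  apply ContinuousOn.div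
  · exact (continuous_const.add (continuous_const.mul Ca_cont)).continuousOn
  · exact (continuous_const.add (continuous_const.mul Ar_cont)).continuousOn
  · intro x hx
    exact (den_pos hn hx.1).ne'

lemma gdens_le_one {n : ℕ} (hn : 1 ≤ n) {a : ℝ} (h0 : 0 ≤ a) (h1 : a ≤ 1) : gdens n a ≤ 1 := by
  unfold gdens
  rw [div_le_one (den_pos hn h0)]
  have h2 := Delta_lower h0 h1
  have h3 : 0 ≤ Pa a := by unfold Pa; positivity
  have h4 : (1 : ℝ) ≤ n := by exact_mod_cast hn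
  have h5 := pi_lt_d6
  have h6 := sqrt3_gt
  have h7 : 0 ≤ ((n : ℝ) - 1) * (Ar a - Ca a) := mul_nonneg (by linarith) (by linarith)
  nlinarith

lemma gdens_zero {n : ℕ} : gdens n 0 = π / (2 * √3) := by
  unfold gdens Ar Ca; simp

lemma gdens_one {n : ℕ} (hn : 1 ≤ n) : gdens n 1 = π / (2 * √3) := by
  unfold gdens Ar Ca
  have h1 : √(4 - 1 ^ 2) = √3 := by norm_num
  rw [h1, arcsin_one]
  have h2 : (1 : ℝ) ≤ n := by exact_mod_cast hn
  have h3 := sqrt3_pos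
  have h4 : (n : ℝ) ≠ 0 := by linarith
  have h5 : 2 * √3 + 2 * ((n : ℝ) - 1) * (1 * √3) = 2 * √3 * n := by ring
  have h6 : π + 2 * ((n : ℝ) - 1) * (π / 2 + 1 * √(1 - 1 ^ 2)) = π * n := by
    simp; ring
  rw [h5, h6]
  field_simp

lemma gdens_half {n : ℕ} : gdens n (1 / 2) =
    (π + 2 * ((n : ℝ) - 1) * (π / 6 + √3 / 4)) / (2 * √3 + 2 * ((n : ℝ) - 1) * (√15 / 4)) := by
  unfold gdens; rw [Ca_half, Ar_half]

/-- existence of the optimal spacing -/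
theorem exists_opt {n : ℕ} (hn : 2 ≤ n) : ∃ a : ℝ, 0 < a ∧ a < 1 ∧
    ∀ b, 0 ≤ b → b ≤ 1 → gdens n b ≤ gdens n a := by
  have hn1 : 1 ≤ n := by omega
  obtain ⟨a, ha, hmax⟩ := isCompact_Icc.exists_isMaxOn (⟨0, le_rfl, zero_le_one⟩ : (Icc (0:ℝ) 1).Nonempty)
    (gdens_cont hn1)
  have hmax' : ∀ b, 0 ≤ b → b ≤ 1 → gdens n b ≤ gdens n a := fun b h0 h1 => hmax ⟨h0, h1⟩
  have h2 : (2 : ℝ) ≤ n := by exact_mod_cast hn
  have hgt : π / (2 * √3) < gdens n (1 / 2) := by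
    rw [gdens_half]
    have h3 := sqrt3_gt
    have h3' := sqrt3_lt
    have h15 := sqrt15_lt
    have hp := pi_gt_d6
    have hp' := pi_lt_d6
    have h16 : (0 : ℝ) < √15 := by positivity
    rw [div_lt_div_iff₀ (by positivity) (by
      have : 0 < 2 * ((n : ℝ) - 1) * (√15 / 4) := by
        apply mul_pos (by linarith) (by positivity)
      linarith)]
    have h4 : 0 < (n : ℝ) - 1 := by linarith
    have h5 : π * (√15 / 4) < (π / 6 + √3 / 4) * (2 * √3) := by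
      have e : √3 * √3 = 3 := by
        have := sqrt3_sq; nlinarith
      have : (π / 6 + √3 / 4) * (2 * √3) = π * √3 / 3 + 3 / 2 := by
        linear_combination (1 / 2) * e
      rw [this]
      nlinarith
    nlinarith
  refine ⟨a, ?_, ?_, hmax'⟩
  · rcases eq_or_lt_of_le ha.1 with h | h
    · exfalso
      have := hmax' (1 / 2) (by norm_num) (by norm_num)
      rw [← h, gdens_zero] at this
      linarith
    · exact h
  · rcases eq_or_lt_of_le ha.2 with h | h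
    · exfalso
      have := hmax' (1 / 2) (by norm_num) (by norm_num)
      rw [h, gdens_one hn1] at this
      linarith
    · exact h

/-- the inequality `(M)` -/
lemma M_of_max {n : ℕ} (hn : 2 ≤ n) {D : ℝ} (hmax : ∀ b, 0 ≤ b → b ≤ 1 → gdens n b ≤ D) {a : ℝ}
    (h0 : 0 < a) (h1 : a < 1) : -(kap D / ((n : ℝ) - 1)) ≤ GG D a := by
  have h := hmax a h0.le h1.le
  unfold gdens at h
  rw [div_le_iff₀ (den_pos (by omega) h0.le)] at h
  have h2 : (2 : ℝ) ≤ n := by exact_mod_cast hn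
  have h3 : GG D a = D * Ar a - Ca a := rfl
  have h4 : (0 : ℝ) < n - 1 := by linarith
  have h5 : kap D / ((n : ℝ) - 1) + (D * Ar a - Ca a)
      = (D * (2 * √3 + 2 * ((n : ℝ) - 1) * Ar a) - (π + 2 * ((n : ℝ) - 1) * Ca a))
        / (2 * ((n : ℝ) - 1)) := by
    unfold kap
    field_simp
    ring
  have h6 : 0 ≤ kap D / ((n : ℝ) - 1) + (D * Ar a - Ca a) := by
    rw [h5]
    apply div_nonneg <;> linarith
  rw [h3]
  linarith

lemma kap_nonneg {n : ℕ} {D : ℝ} (hmax : ∀ b, 0 ≤ b → b ≤ 1 → gdens n b ≤ D) : 0 ≤ kap D := by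
  have h := hmax 0 le_rfl zero_le_one
  rw [gdens_zero, div_le_iff₀ (by positivity)] at h
  unfold kap
  linarith

lemma D3_lower {D : ℝ} (hmax : ∀ b, 0 ≤ b → b ≤ 1 → gdens 3 b ≤ D) : 0.9496 ≤ D := by
  have h := hmax (1 / 2) (by norm_num) (by norm_num)
  refine le_trans ?_ h
  rw [gdens_half, le_div_iff₀ (by
    have h3 := sqrt3_pos
    have h15 : (0 : ℝ) < √15 := by positivity
    push_cast; linarith)]
  have h3 := sqrt3_gt
  have h3' := sqrt3_lt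
  have h15 := sqrt15_lt
  have hp := pi_gt_d6
  push_cast
  linarith

lemma D4_lower {D : ℝ} (hmax : ∀ b, 0 ≤ b → b ≤ 1 → gdens 4 b ≤ D) : 0.95769 ≤ D := by
  have h := hmax (1 / 2) (by norm_num) (by norm_num)
  refine le_trans ?_ h
  rw [gdens_half, le_div_iff₀ (by
    have h3 := sqrt3_pos
    have h15 : (0 : ℝ) < √15 := by positivity
    push_cast; linarith)]
  have h3 := sqrt3_gt
  have h3' := sqrt3_lt
  have h15 := sqrt15_lt
  have hp := pi_gt_d6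
  push_cast
  linarith

/-- the cluster inequality for `n = 2, 3, 4`. -/
theorem score_nonneg {n : ℕ} (hn : n = 2 ∨ n = 3 ∨ n = 4) {D : ℝ} (hD0 : 0 ≤ D) (hD1 : D ≤ 1)
    (hmax : ∀ b, 0 ≤ b → b ≤ 1 → gdens n b ≤ D) {S P : Finset ℂ} (hG : Gen S) (hP : Closed S P)
    (hc : P.card = n) : 0 ≤ score D S P := by
  have hk := kap_nonneg hmax
  rcases hn with rfl | rfl | rfl
  · refine score_two hk ?_ hP hc
    intro a h0 h1
    have := M_of_max (n := 2) (by norm_num) hmax h0 h1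
    norm_num at this
    linarith
  · refine score_three hD0 hD1 hk ?_ ?_ hG hP hc
    · intro a h0 h1
      have := M_of_max (n := 3) (by norm_num) hmax h0 h1
      norm_num at this
      linarith
    · intro a h0 h1
      exact W3 (D3_lower hmax) hD1 h0 h1
  · refine score_four hD0 hD1 hk ?_ ?_ ?_ hG hP hc
    · intro a h0 h1
      have := M_of_max (n := 4) (by norm_num) hmax h0 h1
      norm_num at this
      linarith
    · intro a h0 h1
      exact W4 (D4_lower hmax) hD1 h0 h1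
    · intro a h0 h1
      exact Q4 (D4_lower hmax) hD1 h0 h1

end FT58
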