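import Pool.Agent.Lib.MP_49fa77_co.Defs
import Pool.Agent.Lib.MP_49fa77_co.Num

/-!
# The lattice packing of a chain of unit disks
-/

namespace FT58

open Real MeasureTheory Set ENNReal Metric Filter

lemma translate_eq (C : Set ℂ) (v : ℂ) : translate C v = (fun x => x + -v) ⁻¹' C := by
  unfold translate
  rw [image_add_right]

lemma volume_translate (C : Set ℂ) (v : ℂ) : volume (translate C v) = volume C := by
  rw [translate_eq, measure_preimage_add_right]

lemma translate_unitDisks' {n : ℕ} (c : Fin n → ℂ) (v : ℂ) :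
    translate (unitDisks c) v = ⋃ i, closedBall (c i + v) 1 := by
  unfold translate unitDisks
  rw [image_iUnion]
  congr 1
  ext i x
  simp only [mem_image, mem_closedBall, dist_eq_norm]
  constructor
  · rintro ⟨y, hy, rfl⟩
    rw [add_sub_add_right_eq_sub]; exact hy
  · intro h
    exact ⟨x - v, by rw [show x - v - c i = x - (c i + v) by abel]; exact h, by abel⟩

lemma closedBall_inter_null {x y : ℂ} (h : 2 ≤ ‖x - y‖) :
    volume (closedBall x 1 ∩ closedBall y 1) = 0 := by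
  have hsub : closedBall x 1 ∩ closedBall y 1 ⊆ sphere x 1 ∪ sphere y 1 := by
    rintro z ⟨hx, hy⟩
    rw [mem_closedBall, dist_eq_norm] at hx hy
    rw [mem_union, mem_sphere, mem_sphere, dist_eq_norm, dist_eq_norm]
    left
    have h1 : ‖x - y‖ ≤ ‖z - x‖ + ‖z - y‖ := by
      have : x - y = (z - y) - (z - x) := by ring
      rw [this, add_comm]
      exact norm_sub_le _ _
    linarith
  refine measure_mono_null hsub (measure_union_null ?_ ?_)
  · exact Measure.addHaar_sphere_of_ne_zero volume x (by norm_num)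
  · exact Measure.addHaar_sphere_of_ne_zero volume y (by norm_num)

lemma inter_null {n : ℕ} {c : Fin n → ℂ} {v w : ℂ}
    (h : ∀ i j, 2 ≤ ‖(c i + v) - (c j + w)‖) :
    volume (translate (unitDisks c) v ∩ translate (unitDisks c) w) = 0 := by
  rw [translate_unitDisks', translate_unitDisks']
  have hsub : ((⋃ i, closedBall (c i + v) 1) ∩ ⋃ i, closedBall (c i + w) 1)
      ⊆ ⋃ p : Fin n × Fin n, closedBall (c p.1 + v) 1 ∩ closedBall (c p.2 + w) 1 := by
    rintro z ⟨h1, h2⟩
    rw [mem_iUnion] at h1 h2 ⊢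
    obtain ⟨i, hi⟩ := h1
    obtain ⟨j, hj⟩ := h2
    exact ⟨(i, j), hi, hj⟩
  exact measure_mono_null hsub (measure_iUnion_null fun p => closedBall_inter_null (h p.1 p.2))

lemma measurable_unitDisks {n : ℕ} (c : Fin n → ℂ) : MeasurableSet (unitDisks c) :=
  MeasurableSet.iUnion fun _ => isClosed_closedBall.measurableSet

lemma measurable_translate {n : ℕ} (c : Fin n → ℂ) (v : ℂ) :
    MeasurableSet (translate (unitDisks c) v) := by
  rw [translate_unitDisks']
  exact MeasurableSet.iUnion fun _ => isClosed_closedBall.measurableSet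

/-- the lattice vector -/
noncomputable def lv (a b : ℂ) (q : ℤ × ℤ) : ℂ := q.1 * a + q.2 * b

/-- the lattice -/
def Lat (a b : ℂ) : Set ℂ := range (lv a b)

lemma lv_sub (a b : ℂ) (q r : ℤ × ℤ) : lv a b q - lv a b r = lv a b (q - r) := by
  unfold lv; push_cast [Prod.fst_sub, Prod.snd_sub]; ring

lemma packing_of_sep {n : ℕ} {c : Fin n → ℂ} {a b : ℂ}
    (h : ∀ q : ℤ × ℤ, q ≠ 0 → ∀ i j, 2 ≤ ‖(c i - c j) + lv a b q‖) :
    (∀ q r : ℤ × ℤ, q ≠ r → ∀ i j, 2 ≤ ‖(c i + lv a b q) - (c j + lv a b r)‖) ∧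
    IsTransPacking (unitDisks c) (Lat a b) := by
  have h1 : ∀ q r : ℤ × ℤ, q ≠ r → ∀ i j, 2 ≤ ‖(c i + lv a b q) - (c j + lv a b r)‖ := by
    intro q r hqr i j
    have : (c i + lv a b q) - (c j + lv a b r) = (c i - c j) + lv a b (q - r) := by
      rw [← lv_sub]; ring
    rw [this]
    exact h _ (sub_ne_zero.mpr hqr) i j
  refine ⟨h1, ?_⟩
  rintro v ⟨q, rfl⟩ w ⟨r, rfl⟩ hvw
  have hqr : q ≠ r := by rintro rfl; exact hvw rfl
  rw [Set.disjoint_iff_inter_eq_empty]
  have hop : IsOpen (interior (translate (unitDisks c) (lv a b q)) ∩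
      interior (translate (unitDisks c) (lv a b r))) := isOpen_interior.inter isOpen_interior
  rw [← hop.measure_eq_zero_iff (μ := (volume : Measure ℂ))]
  exact measure_mono_null (inter_subset_inter interior_subset interior_subset)
    (inter_null (h1 q r hqr))

/-- the half-open fundamental parallelogram -/
def FP (a b : ℂ) : Set ℂ := {z | ∃ x y : ℝ, 0 ≤ x ∧ x < 1 ∧ 0 ≤ y ∧ y < 1 ∧ z = x * a + y * b}

lemma FP_subset (a b : ℂ) : FP a b ⊆ closedBall 0 (‖a‖ + ‖b‖) := by
  rintro z ⟨x, y, hx0, hx1, hy0, hy1, rfl⟩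
  rw [mem_closedBall, dist_zero_right]
  calc ‖(x : ℂ) * a + y * b‖ ≤ ‖(x : ℂ) * a‖ + ‖(y : ℂ) * b‖ := norm_add_le _ _
    _ = x * ‖a‖ + y * ‖b‖ := by
        rw [norm_mul, norm_mul, Complex.norm_real, Complex.norm_real, norm_of_nonneg hx0,
          norm_of_nonneg hy0]
    _ ≤ 1 * ‖a‖ + 1 * ‖b‖ := by gcongr
    _ = ‖a‖ + ‖b‖ := by ring

lemma unit_square_vol : volume (Ico (0:ℝ) 1 ×ℂ Ico (0:ℝ) 1) = 1 := by
  have h : (Ico (0:ℝ) 1 ×ℂ Ico (0:ℝ) 1) = Complex.measurableEquivRealProd ⁻¹' (Ico (0:ℝ) 1 ×ˢ Ico (0:ℝ) 1) := by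
    ext z
    simp [Complex.mem_reProdIm]
  rw [h, Complex.volume_preserving_equiv_real_prod.measure_preimage_equiv]
  show (volume : Measure (ℝ × ℝ)) _ = 1
  have hvol : (volume : Measure (ℝ × ℝ)) = (volume : Measure ℝ).prod volume := rfl
  rw [hvol, Measure.prod_prod]
  simp

/-- the linear map `x + i y ↦ x a + y b` -/
noncomputable def lin (a b : ℂ) : ℂ →ₗ[ℝ] ℂ :=
  Complex.reLm.smulRight a + Complex.imLm.smulRight b

lemma lin_apply (a b z : ℂ) : lin a b z = z.re * a + z.im * b := by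
  simp [lin]

lemma lin_det (a b : ℂ) : LinearMap.det (lin a b) = a.re * b.im - a.im * b.re := by
  rw [← LinearMap.det_toMatrix Complex.basisOneI, Matrix.det_fin_two]
  simp only [LinearMap.toMatrix_apply, Complex.coe_basisOneI, Complex.coe_basisOneI_repr, lin_apply]
  simp
  ring

lemma FP_vol (a b : ℂ) : volume (FP a b) = ENNReal.ofReal |a.re * b.im - a.im * b.re| := by
  have h : FP a b = lin a b '' (Ico (0:ℝ) 1 ×ℂ Ico (0:ℝ) 1) := by
    ext z
    constructor
    · rintro ⟨x, y, hx0, hx1, hy0, hy1, rfl⟩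
      refine ⟨⟨x, y⟩, ?_, ?_⟩
      · rw [Complex.mem_reProdIm]; exact ⟨⟨hx0, hx1⟩, ⟨hy0, hy1⟩⟩
      · rw [lin_apply]
    · rintro ⟨w, hw, rfl⟩
      rw [Complex.mem_reProdIm] at hw
      exact ⟨w.re, w.im, hw.1.1, hw.1.2, hw.2.1, hw.2.2, lin_apply _ _ _⟩
  rw [h, Measure.addHaar_image_linearMap, unit_square_vol, lin_det, mul_one]

lemma exists_coord {a b : ℂ} (h : a.re * b.im - a.im * b.re ≠ 0) (z : ℂ) :
    ∃ x y : ℝ, z = x * a + y * b := by
  refine ⟨(z.re * b.im - z.im * b.re) / (a.re * b.im - a.im * b.re),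
    (a.re * z.im - a.im * z.re) / (a.re * b.im - a.im * b.re), ?_⟩
  apply Complex.ext
  · simp only [Complex.add_re, Complex.re_ofReal_mul]
    rw [div_mul_eq_mul_div, div_mul_eq_mul_div, ← add_div, eq_div_iff h]
    ring
  · simp only [Complex.add_im, Complex.im_ofReal_mul]
    rw [div_mul_eq_mul_div, div_mul_eq_mul_div, ← add_div, eq_div_iff h]
    ring

lemma vol_closedBall' (R : ℝ) (hR : 0 ≤ R) :
    volume (closedBall (0 : ℂ) R) = ENNReal.ofReal (π * R ^ 2) := by
  rw [Complex.volume_closedBall, ENNReal.ofReal_mul pi_pos.le, mul_comm, ENNReal.ofReal_pow hR]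
  congr 1
  rw [← NNReal.coe_real_pi, ENNReal.ofReal_coe_nnreal]

/-- counting estimate -/
lemma lattice_area {n : ℕ} {c : Fin n → ℂ} {a b : ℂ} (hdet : a.re * b.im - a.im * b.re ≠ 0)
    (hsep : ∀ q r : ℤ × ℤ, q ≠ r → ∀ i j, 2 ≤ ‖(c i + lv a b q) - (c j + lv a b r)‖) :
    ∃ M : ℝ, 0 ≤ M ∧ ∀ R : ℝ, volume (unitDisks c) * volume (closedBall (0 : ℂ) (R - M))
      ≤ volume (closedBall (0 : ℂ) R ∩ ⋃ v ∈ Lat a b, translate (unitDisks c) v)
        * ENNReal.ofReal |a.re * b.im - a.im * b.re| := by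
  set B : ℝ := ∑ i, ‖c i‖ with hB
  have hBi : ∀ i, ‖c i‖ ≤ B := fun i => Finset.single_le_sum (f := fun i => ‖c i‖)
    (fun i _ => norm_nonneg _) (Finset.mem_univ i)
  have hB0 : 0 ≤ B := Finset.sum_nonneg (fun i _ => norm_nonneg _)
  refine ⟨B + 1 + (‖a‖ + ‖b‖), by positivity, ?_⟩
  intro R
  set T : Set (ℤ × ℤ) := {q | ‖lv a b q‖ ≤ R - (B + 1)} with hT
  -- the translates
  have h1 : volume (⋃ q : T, translate (unitDisks c) (lv a b q)) = volume (unitDisks c) * ∑' _ : T, 1 := by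
    rw [measure_iUnion₀]
    · rw [← ENNReal.tsum_mul_left]
      congr 1
      ext q
      rw [volume_translate, mul_one]
    · intro q r hqr
      have : (q : ℤ × ℤ) ≠ r := fun h => hqr (Subtype.ext h)
      exact inter_null (hsep q r this)
    · intro q
      exact (measurable_translate c _).nullMeasurableSet
  have h2 : volume (closedBall (0 : ℂ) (R - (B + 1 + (‖a‖ + ‖b‖))))
      ≤ ENNReal.ofReal |a.re * b.im - a.im * b.re| * ∑' _ : T, 1 := by
    have hcov : closedBall (0 : ℂ) (R - (B + 1 + (‖a‖ + ‖b‖)))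
        ⊆ ⋃ q : T, translate (FP a b) (lv a b q) := by
      intro z hz
      rw [mem_closedBall, dist_zero_right] at hz
      obtain ⟨x, y, hxy⟩ := exists_coord hdet z
      set f : ℂ := (Int.fract x : ℝ) * a + (Int.fract y : ℝ) * b with hf
      have hfF : f ∈ FP a b := ⟨Int.fract x, Int.fract y, Int.fract_nonneg x, Int.fract_lt_one x,
        Int.fract_nonneg y, Int.fract_lt_one y, rfl⟩
      have hz2 : z = f + lv a b (⌊x⌋, ⌊y⌋) := by
        rw [hf, lv, hxy]
        have e1 : (x : ℂ) = (⌊x⌋ : ℂ) + ((Int.fract x : ℝ) : ℂ) := by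
          have := Int.floor_add_fract x
          calc (x : ℂ) = ((⌊x⌋ + Int.fract x : ℝ) : ℂ) := by rw [this]
            _ = _ := by push_cast; ring
        have e2 : (y : ℂ) = (⌊y⌋ : ℂ) + ((Int.fract y : ℝ) : ℂ) := by
          have := Int.floor_add_fract y
          calc (y : ℂ) = ((⌊y⌋ + Int.fract y : ℝ) : ℂ) := by rw [this]
            _ = _ := by push_cast; ring
        rw [e1, e2]
        ring
      have hf2 := FP_subset a b hfF
      rw [mem_closedBall, dist_zero_right] at hf2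
      have hqT : ((⌊x⌋, ⌊y⌋) : ℤ × ℤ) ∈ T := by
        show ‖lv a b (⌊x⌋, ⌊y⌋)‖ ≤ R - (B + 1)
        have : lv a b (⌊x⌋, ⌊y⌋) = z - f := by rw [hz2]; ring
        rw [this]
        have := norm_sub_le z f
        linarith
      rw [mem_iUnion]
      exact ⟨⟨_, hqT⟩, f, hfF, hz2.symm⟩
    calc volume (closedBall (0 : ℂ) (R - (B + 1 + (‖a‖ + ‖b‖))))
        ≤ volume (⋃ q : T, translate (FP a b) (lv a b q)) := measure_mono hcov
      _ ≤ ∑' q : T, volume (translate (FP a b) (lv a b q)) := measure_iUnion_le _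
      _ = ∑' q : T, ENNReal.ofReal |a.re * b.im - a.im * b.re| * 1 := by
          congr 1
          ext q
          rw [volume_translate, FP_vol, mul_one]
      _ = _ := ENNReal.tsum_mul_left
  have h3 : (⋃ q : T, translate (unitDisks c) (lv a b q))
      ⊆ closedBall (0 : ℂ) R ∩ ⋃ v ∈ Lat a b, translate (unitDisks c) v := by
    intro z hz
    rw [mem_iUnion] at hz
    obtain ⟨q, hq⟩ := hz
    constructor
    · rw [translate_unitDisks', mem_iUnion] at hq
      obtain ⟨i, hi⟩ := hq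
      rw [mem_closedBall, dist_eq_norm] at hi
      rw [mem_closedBall, dist_zero_right]
      have hqT : ‖lv a b q‖ ≤ R - (B + 1) := q.2
      have e : z = (z - (c i + lv a b q)) + c i + lv a b q := by ring
      have n1 := norm_add_le ((z - (c i + lv a b q)) + c i) (lv a b q)
      have n2 := norm_add_le (z - (c i + lv a b q)) (c i)
      rw [← e] at n1
      have := hBi i
      linarith
    · simp only [mem_iUnion]
      exact ⟨_, ⟨q, rfl⟩, hq⟩
  calc volume (unitDisks c) * volume (closedBall (0 : ℂ) (R - (B + 1 + (‖a‖ + ‖b‖))))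
      ≤ volume (unitDisks c) * (ENNReal.ofReal |a.re * b.im - a.im * b.re| * ∑' _ : T, 1) := by gcongr
    _ = (volume (unitDisks c) * ∑' _ : T, 1) * ENNReal.ofReal |a.re * b.im - a.im * b.re| := by ring
    _ ≤ _ := by
        rw [← h1]
        gcongr

lemma ratio_tendsto' (D M : ℝ) : Tendsto (fun R : ℝ => D * ((R - M) / R) ^ 2) atTop (nhds D) := by
  have h1 : Tendsto (fun R : ℝ => (R - M) / R) atTop (nhds 1) := by
    have h2 : Tendsto (fun R : ℝ => 1 - M / R) atTop (nhds (1 - 0)) :=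
      tendsto_const_nhds.sub (Tendsto.div_atTop tendsto_const_nhds tendsto_id)
    rw [sub_zero] at h2
    refine h2.congr' ?_
    filter_upwards [eventually_gt_atTop 0] with R hR
    field_simp
  have h3 := (h1.pow 2).const_mul D
  simpa using h3

/-- **Lower bound** for the upper density of a lattice packing. -/
theorem lattice_density {n : ℕ} {c : Fin n → ℂ} {a b : ℂ} (hdet : a.re * b.im - a.im * b.re ≠ 0)
    (h : ∀ q : ℤ × ℤ, q ≠ 0 → ∀ i j, 2 ≤ ‖(c i - c j) + lv a b q‖) {A : ℝ} (hA : 0 ≤ A)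
    (hvol : ENNReal.ofReal A ≤ volume (unitDisks c)) :
    ENNReal.ofReal (A / |a.re * b.im - a.im * b.re|) ≤ transDensity (unitDisks c) := by
  obtain ⟨hsep, hpack⟩ := packing_of_sep h
  obtain ⟨M, hM0, hM⟩ := lattice_area hdet hsep
  set Δ : ℝ := |a.re * b.im - a.im * b.re| with hΔ
  have hΔ0 : 0 < Δ := abs_pos.mpr hdet
  refine le_trans ?_ (le_iSup₂ (f := fun V (_ : IsTransPacking (unitDisks c) V) =>
    upperDensity (⋃ v ∈ V, translate (unitDisks c) v)) (Lat a b) hpack)
  unfold upperDensity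
  have hlim : Tendsto (fun R : ℝ => ENNReal.ofReal (A / Δ * ((R - M) / R) ^ 2)) atTop
      (nhds (ENNReal.ofReal (A / Δ))) := ENNReal.tendsto_ofReal (ratio_tendsto' (A / Δ) M)
  rw [← hlim.limsup_eq]
  refine limsup_le_limsup ?_ (by isBoundedDefault) (by isBoundedDefault)
  filter_upwards [eventually_gt_atTop 0, eventually_ge_atTop M] with R hR hRM
  rw [vol_closedBall' R hR.le]
  have h1 := hM R
  rw [vol_closedBall' (R - M) (by linarith)] at h1
  have hpos : 0 < π * R ^ 2 := by positivity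
  have h2 : ENNReal.ofReal (A * (π * (R - M) ^ 2)) ≤
      volume (closedBall (0 : ℂ) R ∩ ⋃ v ∈ Lat a b, translate (unitDisks c) v)
        * ENNReal.ofReal Δ := by
    rw [ENNReal.ofReal_mul hA]
    exact le_trans (by gcongr) h1
  have hΔ1 : ENNReal.ofReal Δ ≠ 0 := by rw [Ne, ENNReal.ofReal_eq_zero]; linarith
  have hpos1 : ENNReal.ofReal (π * R ^ 2) ≠ 0 := by rw [Ne, ENNReal.ofReal_eq_zero]; linarith
  rw [ENNReal.le_div_iff_mul_le (Or.inl hpos1) (Or.inl ENNReal.ofReal_ne_top),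
    ← ENNReal.ofReal_mul (by positivity)]
  have h3 : A / Δ * ((R - M) / R) ^ 2 * (π * R ^ 2) = A * (π * (R - M) ^ 2) / Δ := by
    field_simp
  rw [h3, ENNReal.ofReal_div_of_pos hΔ0,
    ENNReal.div_le_iff_le_mul (Or.inl hΔ1) (Or.inl ENNReal.ofReal_ne_top)]
  exact h2

end FT58
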