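import Pool.Agent.Lib.MP_49fa77_co.Union

/-!
# The union inequality for arbitrary finite families
-/

namespace FT58

open Real MeasureTheory Set ENNReal Metric

lemma rho_gt_one : (1 : ℝ) < 2 / √3 := by
  rw [lt_div_iff₀ sqrt3_pos, one_mul, sqrt_lt' (by norm_num)]; norm_num

section
variable {ι J : Type*} [DecidableEq ι] {n : ℕ} {D : ℝ}

lemma union_eps (hD : 0 ≤ D)
    (Hn : ∀ S P : Finset ℂ, Gen S → Closed S P → P.card = n → 0 ≤ score D S P)
    (s : Finset ι) (p : ι → ℂ) (k : ι → J)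
    (hk : ∀ (t : Finset ι) (j : J), (∀ i, i ∈ t ↔ i ∈ s ∧ k i = j) → t.Nonempty → t.card = n)
    (hsep : ∀ i ∈ s, ∀ j ∈ s, k i ≠ k j → 2 ≤ ‖p i - p j‖) {ε : ℝ} (h0 : 0 < ε) (h1 : ε < 1) :
    volume (⋃ i ∈ s, closedBall (p i) ((1 - ε) ^ 2))
      ≤ ENNReal.ofReal D * volume (⋃ i ∈ s, closedBall (p i) (2 / √3)) := by
  classical
  rcases s.eq_empty_or_nonempty with rfl | hs
  · simp
  have hne : Nonempty ι := ⟨hs.choose⟩
  set l : ℝ := 1 / (1 - ε) with hl
  have h1ε : 0 < 1 - ε := by linarith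
  have hl0 : 0 < l := by positivity
  have hlε : l * (1 - ε) = 1 := by rw [hl]; field_simp
  obtain ⟨p', hp1, hp2, hp3⟩ := exists_generic (fun i => (l : ℂ) * p i) h0 s
  set S := s.image p' with hS
  set g : ℂ → ι := Function.invFunOn p' s with hg
  have hgp : ∀ i ∈ s, g (p' i) = i := by
    intro i hi
    exact hp2.leftInvOn_invFunOn (Finset.mem_coe.mpr hi)
  set cl : ℂ → J := fun x => k (g x) with hcl
  have hclp : ∀ i ∈ s, cl (p' i) = k i := by
    intro i hi
    simp only [hcl]; rw [hgp i hi]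
  have hsepS : ∀ x ∈ S, ∀ y ∈ S, cl x ≠ cl y → 2 ≤ ‖y - x‖ := by
    intro x hx y hy hne
    obtain ⟨i, hi, rfl⟩ := Finset.mem_image.mp hx
    obtain ⟨j, hj, rfl⟩ := Finset.mem_image.mp hy
    rw [hclp i hi, hclp j hj] at hne
    have h2 := hsep i hi j hj hne
    have h3 := hp1 i hi
    have h4 := hp1 j hj
    have h5 : ‖(l : ℂ) * p i - (l : ℂ) * p j‖ = l * ‖p i - p j‖ := by
      rw [← mul_sub, norm_mul, Complex.norm_real, norm_eq_abs, abs_of_pos hl0]
    have h6 : ‖(l : ℂ) * p i - (l : ℂ) * p j‖ ≤ ‖p' j - p' i‖ + ‖p' i - (l : ℂ) * p i‖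
        + ‖p' j - (l : ℂ) * p j‖ := by
      have e : (l : ℂ) * p i - (l : ℂ) * p j = -(p' j - p' i) + -(p' i - (l : ℂ) * p i)
          + (p' j - (l : ℂ) * p j) := by ring
      rw [e]
      refine (norm_add_le _ _).trans ?_
      have := norm_add_le (-(p' j - p' i)) (-(p' i - (l : ℂ) * p i))
      rw [norm_neg, norm_neg] at this
      linarith
    have h7 : 2 + 2 * ε ≤ l * ‖p i - p j‖ := by
      have : (1 + ε) ≤ l := by
        rw [hl, le_div_iff₀ h1ε]; nlinarith
      nlinarith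
    linarith
  have hmain := union_generic (J := J) hD hp3 (cl := cl) hsepS (by
    intro P hP hj hPne
    apply Hn S P hp3 hP
    obtain ⟨j, hj⟩ := hj
    set t := s.filter (fun i => p' i ∈ P) with ht
    have htP : P = t.image p' := by
      ext x
      rw [Finset.mem_image]
      constructor
      · intro hx
        obtain ⟨i, hi, rfl⟩ := Finset.mem_image.mp (hP.1 hx)
        exact ⟨i, Finset.mem_filter.mpr ⟨hi, hx⟩, rfl⟩
      · rintro ⟨i, hi, rfl⟩
        exact (Finset.mem_filter.mp hi).2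
    have hcard : P.card = t.card := by
      conv_lhs => rw [htP]
      apply Finset.card_image_of_injOn
      intro a ha b hb hab
      exact hp2 (Finset.mem_coe.mpr (Finset.mem_filter.mp (Finset.mem_coe.mp ha)).1)
        (Finset.mem_coe.mpr (Finset.mem_filter.mp (Finset.mem_coe.mp hb)).1) hab
    rw [hcard]
    apply hk t j
    · intro i
      rw [ht, Finset.mem_filter]
      constructor
      · rintro ⟨h2, h3⟩
        have := ((hj (p' i)).mp h3).2
        rw [hclp i h2] at this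
        exact ⟨h2, this⟩
      · rintro ⟨h2, h3⟩
        refine ⟨h2, (hj (p' i)).mpr ⟨Finset.mem_image_of_mem _ h2, ?_⟩⟩
        rw [hclp i h2]; exact h3
    · obtain ⟨x, hx⟩ := hPne
      rw [htP] at hx
      obtain ⟨i, hi, _⟩ := Finset.mem_image.mp hx
      exact ⟨i, hi⟩)
  -- inclusions
  have i1 : (fun z => (0 : ℂ) + (l : ℂ) * z) '' (⋃ i ∈ s, closedBall (p i) ((1 - ε) ^ 2))
      ⊆ ⋃ c ∈ S, closedBall c 1 := by
    rintro _ ⟨z, hz, rfl⟩
    simp only [mem_iUnion] at hz ⊢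
    obtain ⟨i, hi, hz⟩ := hz
    refine ⟨p' i, Finset.mem_image_of_mem _ hi, ?_⟩
    rw [mem_closedBall, dist_eq_norm] at hz ⊢
    have e : (0 : ℂ) + (l : ℂ) * z - p' i = (l : ℂ) * (z - p i) + -(p' i - (l : ℂ) * p i) := by ring
    rw [e]
    refine (norm_add_le _ _).trans ?_
    rw [norm_mul, Complex.norm_real, norm_eq_abs, abs_of_pos hl0, norm_neg]
    have h2 := hp1 i hi
    have h3 : l * ‖z - p i‖ ≤ l * (1 - ε) ^ 2 := by gcongr
    have h4 : l * (1 - ε) ^ 2 = 1 - ε := by rw [pow_two, ← mul_assoc, hlε, one_mul]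
    linarith
  have i2 : (⋃ c ∈ S, closedBall c (2 / √3))
      ⊆ (fun z => (0 : ℂ) + (l : ℂ) * z) '' (⋃ i ∈ s, closedBall (p i) (2 / √3)) := by
    intro x hx
    simp only [mem_iUnion] at hx
    obtain ⟨c, hc, hx⟩ := hx
    obtain ⟨i, hi, rfl⟩ := Finset.mem_image.mp hc
    refine ⟨((1 - ε : ℝ) : ℂ) * x, ?_, ?_⟩
    · simp only [mem_iUnion]
      refine ⟨i, hi, ?_⟩
      rw [mem_closedBall, dist_eq_norm] at hx ⊢
      have e : ((1 - ε : ℝ) : ℂ) * x - p i = ((1 - ε : ℝ) : ℂ) * ((x - p' i)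
          + (p' i - (l : ℂ) * p i)) := by
        have : ((1 - ε : ℝ) : ℂ) * (l : ℂ) = 1 := by
          rw [← Complex.ofReal_mul, mul_comm, hlε]; simp
        linear_combination (p i) * (this)
      rw [e, norm_mul, Complex.norm_real, norm_eq_abs, abs_of_pos h1ε]
      have h2 := hp1 i hi
      have h3 := norm_add_le (x - p' i) (p' i - (l : ℂ) * p i)
      have h4 := rho_gt_one
      have h5 : ‖x - p' i + (p' i - (l : ℂ) * p i)‖ ≤ 2 / √3 + ε := by linarith
      calc (1 - ε) * ‖x - p' i + (p' i - (l : ℂ) * p i)‖ ≤ (1 - ε) * (2 / √3 + ε) := by gcongr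
        _ ≤ 2 / √3 := by nlinarith
    · simp only [zero_add]
      rw [← mul_assoc, ← Complex.ofReal_mul, hlε]; simp
  have v1 := measure_mono (μ := volume) i1
  have v2 := measure_mono (μ := volume) i2
  rw [vol_image_affine, Complex.norm_real, norm_eq_abs, abs_of_pos hl0] at v1 v2
  have hl2 : ENNReal.ofReal (l ^ 2) ≠ 0 := by
    rw [Ne, ENNReal.ofReal_eq_zero, not_le]; positivity
  have key : ENNReal.ofReal (l ^ 2) * volume (⋃ i ∈ s, closedBall (p i) ((1 - ε) ^ 2))
      ≤ ENNReal.ofReal (l ^ 2) *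
        (ENNReal.ofReal D * volume (⋃ i ∈ s, closedBall (p i) (2 / √3))) := by
    calc _ ≤ _ := v1
      _ ≤ _ := hmain
      _ ≤ ENNReal.ofReal D * (ENNReal.ofReal (l ^ 2) *
          volume (⋃ i ∈ s, closedBall (p i) (2 / √3))) := by gcongr
      _ = _ := by ring
  exact (ENNReal.mul_le_mul_iff_right hl2 ENNReal.ofReal_ne_top).mp key

/-- **The union inequality.** -/
theorem union_ineq (hD : 0 ≤ D)
    (Hn : ∀ S P : Finset ℂ, Gen S → Closed S P → P.card = n → 0 ≤ score D S P)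
    (s : Finset ι) (p : ι → ℂ) (k : ι → J)
    (hk : ∀ (t : Finset ι) (j : J), (∀ i, i ∈ t ↔ i ∈ s ∧ k i = j) → t.Nonempty → t.card = n)
    (hsep : ∀ i ∈ s, ∀ j ∈ s, k i ≠ k j → 2 ≤ ‖p i - p j‖) :
    volume (⋃ i ∈ s, closedBall (p i) 1)
      ≤ ENNReal.ofReal D * volume (⋃ i ∈ s, closedBall (p i) (2 / √3)) := by
  set e : ℕ → ℝ := fun m => 1 / ((m : ℝ) + 2) with he
  have he0 : ∀ m, 0 < e m := fun m => by simp only [he]; positivity
  have he1 : ∀ m, e m < 1 := by
    intro m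
    simp only [he]
    rw [div_lt_one (by positivity)]
    have : (0 : ℝ) ≤ m := Nat.cast_nonneg m
    linarith
  have hanti : Antitone e := by
    intro a b hab
    simp only [he]
    apply div_le_div_of_nonneg_left one_pos.le (by positivity)
    have : (a : ℝ) ≤ b := by exact_mod_cast hab
    linarith
  set A : ℕ → Set ℂ := fun m => ⋃ i ∈ s, closedBall (p i) ((1 - e m) ^ 2) with hA
  have hmono : Monotone A := by
    intro a b hab
    simp only [hA]
    apply iUnion₂_mono
    intro i _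
    apply closedBall_subset_closedBall
    have h1 := hanti hab
    have h2 := he1 a
    have h3 : 0 ≤ 1 - e a := by linarith
    gcongr
  have hsup : volume (⋃ m, A m) ≤ ENNReal.ofReal D * volume (⋃ i ∈ s, closedBall (p i) (2 / √3)) := by
    rw [hmono.measure_iUnion]
    apply iSup_le
    intro m
    exact union_eps hD Hn s p k hk hsep (he0 m) (he1 m)
  have hball : (⋃ i ∈ s, ball (p i) 1) ⊆ ⋃ m, A m := by
    intro x hx
    simp only [mem_iUnion] at hx
    obtain ⟨i, hi, hx⟩ := hx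
    rw [mem_ball] at hx
    have hlim : Filter.Tendsto (fun m => (1 - e m) ^ 2) Filter.atTop (nhds ((1 - 0) ^ 2)) := by
      apply Filter.Tendsto.pow
      apply Filter.Tendsto.sub tendsto_const_nhds
      simp only [he]
      apply Filter.Tendsto.div_atTop tendsto_const_nhds
      exact Filter.tendsto_atTop_add_const_right _ _ tendsto_natCast_atTop_atTop
    have hev : ∀ᶠ m in Filter.atTop, dist x (p i) < (1 - e m) ^ 2 := by
      apply hlim.eventually_const_lt
      simpa using hx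
    obtain ⟨m, hm⟩ := hev.exists
    rw [mem_iUnion]
    refine ⟨m, ?_⟩
    simp only [hA, mem_iUnion]
    exact ⟨i, hi, hm.le⟩
  have hsph : volume (⋃ i ∈ s, sphere (p i) 1) = 0 := by
    have h := measure_biUnion_finset_le (μ := (volume : Measure ℂ)) s (fun i => sphere (p i) 1)
    have h0 : ∑ i ∈ s, (volume : Measure ℂ) (sphere (p i) 1) = 0 := by
      apply Finset.sum_eq_zero
      intro i _
      exact Measure.addHaar_sphere _ _ _
    rw [h0] at h
    exact le_antisymm h bot_le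
  have hsub : (⋃ i ∈ s, closedBall (p i) (1 : ℝ)) ⊆ (⋃ i ∈ s, ball (p i) 1)
      ∪ (⋃ i ∈ s, sphere (p i) 1) := by
    intro x hx
    simp only [mem_union, mem_iUnion] at hx ⊢
    obtain ⟨i, hi, hx⟩ := hx
    rw [← ball_union_sphere] at hx
    rcases hx with hx | hx
    · exact Or.inl ⟨i, hi, hx⟩
    · exact Or.inr ⟨i, hi, hx⟩
  calc volume (⋃ i ∈ s, closedBall (p i) 1)
      ≤ volume ((⋃ i ∈ s, ball (p i) 1) ∪ (⋃ i ∈ s, sphere (p i) 1)) := measure_mono hsub
    _ ≤ volume (⋃ i ∈ s, ball (p i) 1) + volume (⋃ i ∈ s, sphere (p i) 1) := measure_union_le _ _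
    _ = volume (⋃ i ∈ s, ball (p i) 1) := by rw [hsph, add_zero]
    _ ≤ volume (⋃ m, A m) := measure_mono hball
    _ ≤ _ := hsup

end

end FT58
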