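import Pool.Agent.Lib.MP_49fa77_co.Defs
import Pool.Agent.Lib.MP_49fa77_co.Num
import Pool.Agent.Lib.MP_49fa77_co.Union2

/-!
# The upper bound for the density of a translative packing
-/

namespace FT58

open Real MeasureTheory Set ENNReal Metric Filter

lemma chainDensity_eq {n : ℕ} {s : ℝ} :
    chainDensity n s = gdens n (s / 2) := by
  unfold chainDensity gdens Ca Ar
  have e1 : √(4 - s ^ 2) = 2 * √(1 - (s / 2) ^ 2) := by
    rw [show (4 : ℝ) - s ^ 2 = 2 ^ 2 * (1 - (s / 2) ^ 2) by ring, sqrt_mul (by norm_num),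
      sqrt_sq (by norm_num)]
  have e2 : √(16 - s ^ 2) = 2 * √(4 - (s / 2) ^ 2) := by
    rw [show (16 : ℝ) - s ^ 2 = 2 ^ 2 * (4 - (s / 2) ^ 2) by ring, sqrt_mul (by norm_num),
      sqrt_sq (by norm_num)]
  rw [e1, e2]
  congr 1 <;> ring

lemma translate_unitDisks {E : Type*} [NormedAddCommGroup E] {n : ℕ} (c : Fin n → E) (v : E) :
    translate (unitDisks c) v = ⋃ i, closedBall (c i + v) 1 := by
  unfold translate unitDisks
  rw [image_iUnion]
  congr 1
  ext i x
  simp only [mem_image, mem_closedBall, dist_eq_norm]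
  constructor
  · rintro ⟨y, hy, rfl⟩
    rw [add_sub_add_right_eq_sub]; exact hy
  · intro h
    exact ⟨x - v, by rw [show x - v - c i = x - (c i + v) by abel]; exact h, by abel⟩

lemma packing_sep {n : ℕ} {c : Fin n → ℂ} {V : Set ℂ} (hV : IsTransPacking (unitDisks c) V)
    {v w : ℂ} (hv : v ∈ V) (hw : w ∈ V) (hne : v ≠ w) (i j : Fin n) :
    2 ≤ ‖(c i + v) - (c j + w)‖ := by
  by_contra hcon
  push Not at hcon
  have h := hV v hv w hw hne
  rw [translate_unitDisks, translate_unitDisks] at h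
  set m : ℂ := ((c i + v) + (c j + w)) / 2 with hm
  have hsub : ∀ (d : Fin n → ℂ) (k : Fin n), ball (d k) 1 ⊆ interior (⋃ i, closedBall (d i) 1) := by
    intro d k
    apply interior_maximal _ isOpen_ball
    exact ball_subset_closedBall.trans (subset_iUnion (fun i => closedBall (d i) 1) k)
  have h1 : m ∈ ball (c i + v) 1 := by
    rw [mem_ball, dist_eq_norm]
    have : m - (c i + v) = -(((c i + v) - (c j + w)) / 2) := by rw [hm]; ring
    rw [this, norm_neg, norm_half]; linarith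
  have h2 : m ∈ ball (c j + w) 1 := by
    rw [mem_ball, dist_eq_norm]
    have : m - (c j + w) = ((c i + v) - (c j + w)) / 2 := by rw [hm]; ring
    rw [this, norm_half]; linarith
  exact Set.disjoint_left.mp h (hsub (fun i => c i + v) i h1) (hsub (fun i => c i + w) j h2)

lemma finite_of_sep {A : Set ℂ} (hA : ∀ v ∈ A, ∀ w ∈ A, v ≠ w → 2 ≤ ‖v - w‖) {r : ℝ}
    (hb : ∀ v ∈ A, ‖v‖ ≤ r) : A.Finite := by
  have hsub : A ⊆ closedBall (0 : ℂ) r := by
    intro v hv
    rw [mem_closedBall, dist_zero_right]; exact hb v hv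
  have htb : TotallyBounded A := (isCompact_closedBall (0 : ℂ) r).totallyBounded.subset hsub
  obtain ⟨t, ht, hcov⟩ := Metric.totallyBounded_iff.mp htb 1 one_pos
  have hex : ∀ v ∈ A, ∃ y ∈ t, v ∈ ball y 1 := by
    intro v hv
    have := hcov hv
    simp only [mem_iUnion] at this
    obtain ⟨y, hy, h⟩ := this
    exact ⟨y, hy, h⟩
  classical
  set f : ℂ → ℂ := fun v => if h : v ∈ A then (hex v h).choose else 0 with hf
  have hf1 : ∀ v (h : v ∈ A), f v ∈ t ∧ v ∈ ball (f v) 1 := by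
    intro v h
    simp only [hf, dif_pos h]
    exact (hex v h).choose_spec
  refine Set.Finite.of_injOn (f := f) (t := t) (fun v hv => (hf1 v hv).1) ?_ ht
  intro v hv w hw hvw
  by_contra hne
  have h1 := (hf1 v hv).2
  have h2 := (hf1 w hw).2
  rw [← hvw] at h2
  rw [mem_ball, dist_eq_norm] at h1 h2
  have h3 := hA v hv w hw hne
  have h4 : ‖v - w‖ ≤ ‖v - f v‖ + ‖w - f v‖ := by
    have : v - w = (v - f v) - (w - f v) := by ring
    rw [this]; exact norm_sub_le _ _
  linarith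

lemma vol_closedBall (R : ℝ) (hR : 0 ≤ R) :
    volume (closedBall (0 : ℂ) R) = ENNReal.ofReal (π * R ^ 2) := by
  rw [Complex.volume_closedBall, ENNReal.ofReal_mul pi_pos.le, mul_comm, ENNReal.ofReal_pow hR]
  congr 1
  rw [← NNReal.coe_real_pi, ENNReal.ofReal_coe_nnreal]

/-- area estimate in a big disk -/
lemma upper_area {n : ℕ} (hn : n = 2 ∨ n = 3 ∨ n = 4) {D : ℝ} (hD0 : 0 ≤ D) (hD1 : D ≤ 1)
    (hmax : ∀ b, 0 ≤ b → b ≤ 1 → gdens n b ≤ D) {c : Fin n → ℂ} {V : Set ℂ}
    (hV : IsTransPacking (unitDisks c) V) : ∃ M : ℝ, 0 ≤ M ∧ ∀ R : ℝ, 0 ≤ R →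
      volume (closedBall (0 : ℂ) R ∩ ⋃ v ∈ V, translate (unitDisks c) v)
        ≤ ENNReal.ofReal (D * (π * (R + M) ^ 2)) := by
  classical
  have hn0 : 0 < n := by omega
  set B : ℝ := ∑ i, ‖c i‖ with hB
  have hBi : ∀ i, ‖c i‖ ≤ B := fun i => Finset.single_le_sum (f := fun i => ‖c i‖)
    (fun i _ => norm_nonneg _) (Finset.mem_univ i)
  have hB0 : 0 ≤ B := Finset.sum_nonneg (fun i _ => norm_nonneg _)
  refine ⟨2 * B + 1 + 2 / √3, by positivity, ?_⟩
  intro R hR
  -- the relevant translates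
  set A : Set ℂ := {v ∈ V | ‖v‖ ≤ R + B + 1} with hA
  have hAfin : A.Finite := by
    apply finite_of_sep (r := R + B + 1)
    · intro v hv w hw hne
      have := packing_sep hV hv.1 hw.1 hne ⟨0, hn0⟩ ⟨0, hn0⟩
      rwa [add_sub_add_left_eq_sub] at this
    · intro v hv; exact hv.2
  set T := hAfin.toFinset with hT
  set s : Finset (ℂ × Fin n) := T ×ˢ Finset.univ with hs
  have hmain := union_ineq (n := n) hD0
    (fun S P hG hP hc => score_nonneg hn hD0 hD1 hmax hG hP hc) s
    (fun x => c x.2 + x.1) (fun x => x.1) (by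
      intro t v ht hne
      have : t = {v} ×ˢ (Finset.univ : Finset (Fin n)) := by
        obtain ⟨x, hx⟩ := hne
        have hx' := (ht x).mp hx
        have hvT : v ∈ T := by
          have := hx'.1
          rw [hs, Finset.mem_product] at this
          rw [← hx'.2]; exact this.1
        ext y
        rw [ht y, hs, Finset.mem_product, Finset.mem_product, Finset.mem_singleton]
        constructor
        · rintro ⟨⟨_, h2⟩, h3⟩; exact ⟨h3, h2⟩
        · rintro ⟨h1, h2⟩; exact ⟨⟨by rw [h1]; exact hvT, h2⟩, h1⟩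
      rw [this, Finset.card_product]; simp) (by
      intro x hx y hy hne
      rw [hs, Finset.mem_product] at hx hy
      have hx1 : x.1 ∈ A := by rw [hT] at hx; exact (Set.Finite.mem_toFinset hAfin).mp hx.1
      have hy1 : y.1 ∈ A := by rw [hT] at hy; exact (Set.Finite.mem_toFinset hAfin).mp hy.1
      exact packing_sep hV hx1.1 hy1.1 hne x.2 y.2)
  have hsub1 : closedBall (0 : ℂ) R ∩ ⋃ v ∈ V, translate (unitDisks c) v
      ⊆ ⋃ x ∈ s, closedBall (c x.2 + x.1) 1 := by
    rintro z ⟨hz, hzU⟩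
    simp only [mem_iUnion] at hzU
    obtain ⟨v, hv, hzv⟩ := hzU
    rw [translate_unitDisks, mem_iUnion] at hzv
    obtain ⟨i, hi⟩ := hzv
    rw [mem_closedBall, dist_zero_right] at hz
    rw [mem_closedBall, dist_eq_norm] at hi
    have hvA : v ∈ A := by
      refine ⟨hv, ?_⟩
      have e : v = z + -(z - (c i + v)) + -(c i) := by ring
      have h1 := norm_add_le (z + -(z - (c i + v))) (-(c i))
      have h2 := norm_add_le z (-(z - (c i + v)))
      rw [norm_neg] at h1 h2
      rw [← e] at h1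
      have := hBi i
      linarith
    simp only [mem_iUnion]
    refine ⟨(v, i), ?_, ?_⟩
    · rw [hs, Finset.mem_product]
      exact ⟨(Set.Finite.mem_toFinset hAfin).mpr hvA, Finset.mem_univ _⟩
    · rw [mem_closedBall, dist_eq_norm]; exact hi
  have hsub2 : (⋃ x ∈ s, closedBall (c x.2 + x.1) (2 / √3))
      ⊆ closedBall (0 : ℂ) (R + (2 * B + 1 + 2 / √3)) := by
    intro z hz
    simp only [mem_iUnion] at hz
    obtain ⟨x, hx, hz⟩ := hz
    rw [hs, Finset.mem_product] at hx
    have hx1 : x.1 ∈ A := (Set.Finite.mem_toFinset hAfin).mp hx.1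
    rw [mem_closedBall, dist_eq_norm] at hz
    rw [mem_closedBall, dist_zero_right]
    have e : z = (z - (c x.2 + x.1)) + c x.2 + x.1 := by ring
    have h1 := norm_add_le ((z - (c x.2 + x.1)) + c x.2) x.1
    have h2 := norm_add_le (z - (c x.2 + x.1)) (c x.2)
    rw [← e] at h1
    have h3 := hBi x.2
    have h4 := hx1.2
    linarith
  calc volume (closedBall (0 : ℂ) R ∩ ⋃ v ∈ V, translate (unitDisks c) v)
      ≤ volume (⋃ x ∈ s, closedBall (c x.2 + x.1) 1) := measure_mono hsub1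
    _ ≤ ENNReal.ofReal D * volume (⋃ x ∈ s, closedBall (c x.2 + x.1) (2 / √3)) := hmain
    _ ≤ ENNReal.ofReal D * volume (closedBall (0 : ℂ) (R + (2 * B + 1 + 2 / √3))) := by
        gcongr
    _ = ENNReal.ofReal (D * (π * (R + (2 * B + 1 + 2 / √3)) ^ 2)) := by
        rw [vol_closedBall _ (by positivity), ← ENNReal.ofReal_mul hD0]

lemma ratio_tendsto (D M : ℝ) : Tendsto (fun R : ℝ => D * ((R + M) / R) ^ 2) atTop (nhds D) := by
  have h1 : Tendsto (fun R : ℝ => (R + M) / R) atTop (nhds 1) := by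
    have h2 : Tendsto (fun R : ℝ => 1 + M / R) atTop (nhds (1 + 0)) :=
      tendsto_const_nhds.add (Tendsto.div_atTop tendsto_const_nhds tendsto_id)
    rw [add_zero] at h2
    refine h2.congr' ?_
    filter_upwards [eventually_gt_atTop 0] with R hR
    field_simp
  have h3 := (h1.pow 2).const_mul D
  simpa using h3

/-- **Upper bound** for the upper density of a translative packing. -/
theorem upper_density {n : ℕ} (hn : n = 2 ∨ n = 3 ∨ n = 4) {D : ℝ} (hD0 : 0 ≤ D) (hD1 : D ≤ 1)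
    (hmax : ∀ b, 0 ≤ b → b ≤ 1 → gdens n b ≤ D) {c : Fin n → ℂ} {V : Set ℂ}
    (hV : IsTransPacking (unitDisks c) V) :
    upperDensity (⋃ v ∈ V, translate (unitDisks c) v) ≤ ENNReal.ofReal D := by
  obtain ⟨M, hM0, hM⟩ := upper_area hn hD0 hD1 hmax hV
  unfold upperDensity
  have hlim : Tendsto (fun R : ℝ => ENNReal.ofReal (D * ((R + M) / R) ^ 2)) atTop
      (nhds (ENNReal.ofReal D)) := ENNReal.tendsto_ofReal (ratio_tendsto D M)
  rw [← hlim.limsup_eq]
  refine limsup_le_limsup ?_ (by isBoundedDefault) (by isBoundedDefault)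
  filter_upwards [eventually_gt_atTop 0] with R hR
  have h1 := hM R hR.le
  rw [vol_closedBall R hR.le]
  have hpos : 0 < π * R ^ 2 := by positivity
  calc volume (closedBall (0 : ℂ) R ∩ ⋃ v ∈ V, translate (unitDisks c) v)
        / ENNReal.ofReal (π * R ^ 2)
      ≤ ENNReal.ofReal (D * (π * (R + M) ^ 2)) / ENNReal.ofReal (π * R ^ 2) := by gcongr
    _ = ENNReal.ofReal (D * ((R + M) / R) ^ 2) := by
        rw [← ENNReal.ofReal_div_of_pos hpos]
        congr 1
        field_simp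

theorem transDensity_le {n : ℕ} (hn : n = 2 ∨ n = 3 ∨ n = 4) {D : ℝ} (hD0 : 0 ≤ D) (hD1 : D ≤ 1)
    (hmax : ∀ b, 0 ≤ b → b ≤ 1 → gdens n b ≤ D) (c : Fin n → ℂ) :
    transDensity (unitDisks c) ≤ ENNReal.ofReal D :=
  iSup₂_le fun _ hV => upper_density hn hD0 hD1 hmax hV

end FT58
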