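import Pool.Agent.Lib.MP_49fa77_co.Chain
import Pool.Agent.Lib.MP_49fa77_co.Upper

/-!
# The main theorem and its transfer to any Euclidean plane
-/

namespace FT58

open Real MeasureTheory Set ENNReal Metric Filter

section Transfer

variable {E F : Type*} [NormedAddCommGroup E] [NormedSpace ℝ E] [MeasureSpace E]
  [NormedAddCommGroup F] [NormedSpace ℝ F] [MeasureSpace F]

lemma unitDisks_image (e : E ≃ₗᵢ[ℝ] F) {n : ℕ} (c : Fin n → E) :
    unitDisks (fun i => e (c i)) = e '' unitDisks c := by
  unfold unitDisks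
  rw [image_iUnion]
  congr 1
  ext i
  rw [LinearIsometryEquiv.image_closedBall]

lemma translate_image (e : E ≃ₗᵢ[ℝ] F) (C : Set E) (v : E) :
    translate (e '' C) (e v) = e '' translate C v := by
  unfold translate
  rw [image_image, image_image]
  simp

lemma packing_image (e : E ≃ₗᵢ[ℝ] F) (C V : Set E) :
    IsTransPacking (e '' C) (e '' V) ↔ IsTransPacking C V := by
  have hint : ∀ X : Set E, interior (e '' X) = e '' interior X := fun X =>
    (e.toHomeomorph.image_interior X).symm
  unfold IsTransPacking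
  constructor
  · intro h v hv w hw hne
    have := h (e v) ⟨v, hv, rfl⟩ (e w) ⟨w, hw, rfl⟩ (fun h => hne (e.injective h))
    rw [translate_image, translate_image, hint, hint, disjoint_image_iff e.injective] at this
    exact this
  · rintro h _ ⟨v, hv, rfl⟩ _ ⟨w, hw, rfl⟩ hne
    rw [translate_image, translate_image, hint, hint, disjoint_image_iff e.injective]
    exact h v hv w hw (fun h => hne (by rw [h]))

lemma upperDensity_image (e : E ≃ₗᵢ[ℝ] F)
    (hv : ∀ X : Set E, volume (e '' X) = volume X) (X : Set E) :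
    upperDensity (e '' X) = upperDensity X := by
  unfold upperDensity
  congr 1
  ext R
  have h : closedBall (0 : F) R = e '' closedBall (0 : E) R := by
    rw [LinearIsometryEquiv.image_closedBall, map_zero]
  rw [h, ← image_inter e.injective, hv, hv]

lemma transDensity_image (e : E ≃ₗᵢ[ℝ] F)
    (hv : ∀ X : Set E, volume (e '' X) = volume X) (C : Set E) :
    transDensity (e '' C) = transDensity C := by
  unfold transDensity
  have hU : ∀ V : Set E, (⋃ v ∈ e '' V, translate (e '' C) v) = e '' ⋃ v ∈ V, translate C v := by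
    intro V
    rw [biUnion_image, image_iUnion₂]
    simp only [translate_image]
  apply le_antisymm
  · apply iSup₂_le
    intro V hV
    have hVe : V = e '' (e ⁻¹' V) := (image_preimage_eq V e.surjective).symm
    rw [hVe] at hV ⊢
    rw [hU, upperDensity_image e hv]
    exact le_iSup₂ (f := fun W (_ : IsTransPacking C W) => upperDensity (⋃ v ∈ W, translate C v))
      (e ⁻¹' V) ((packing_image e C _).mp hV)
  · apply iSup₂_le
    intro V hV
    rw [← upperDensity_image e hv, ← hU]
    exact le_iSup₂ (f := fun W (_ : IsTransPacking (e '' C) W) =>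
      upperDensity (⋃ v ∈ W, translate (e '' C) v)) (e '' V) ((packing_image e C V).mpr hV)

lemma dT_transfer (e : E ≃ₗᵢ[ℝ] F) (hv : ∀ X : Set E, volume (e '' X) = volume X) (n : ℕ) :
    dT F n = dT E n := by
  unfold dT
  apply le_antisymm
  · apply iSup_le
    intro c
    have : c = fun i => e (e.symm (c i)) := by ext i; simp
    rw [this, unitDisks_image, transDensity_image e hv]
    exact le_iSup (f := fun c : Fin n → E => transDensity (unitDisks c)) (fun i => e.symm (c i))
  · apply iSup_le
    intro c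
    rw [← transDensity_image e hv, ← unitDisks_image]
    exact le_iSup (f := fun c : Fin n → F => transDensity (unitDisks c)) (fun i => e (c i))

lemma chain_transfer (e : E ≃ₗᵢ[ℝ] F) (n : ℕ) (p u : F) (s : ℝ) :
    chain n p u s = fun i => e (chain n (e.symm p) (e.symm u) s i) := by
  ext i
  unfold chain
  simp

end Transfer

/-- main theorem in `ℂ` -/
theorem main_complex {n : ℕ} (hn : n = 2 ∨ n = 3 ∨ n = 4) : ∃ s : ℝ, 0 < s ∧ s < 2 ∧
    (∀ t ∈ Icc (0 : ℝ) 2, chainDensity n t ≤ chainDensity n s) ∧
    dT ℂ n = ENNReal.ofReal (chainDensity n s) ∧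
    ∀ p u : ℂ, ‖u‖ = 1 → transDensity (unitDisks (chain n p u s)) = dT ℂ n := by
  have hn2 : 2 ≤ n := by omega
  obtain ⟨a, ha0, ha1, hmax⟩ := exists_opt hn2
  have hD0 : 0 ≤ gdens n a := by
    refine le_trans ?_ (hmax 0 le_rfl zero_le_one)
    rw [gdens_zero]; positivity
  have hD1 : gdens n a ≤ 1 := gdens_le_one (by omega) ha0.le ha1.le
  have hupper : dT ℂ n ≤ ENNReal.ofReal (gdens n a) :=
    iSup_le fun c => transDensity_le hn hD0 hD1 hmax c
  have hlower : ∀ p u : ℂ, ‖u‖ = 1 →
      ENNReal.ofReal (gdens n a) ≤ transDensity (unitDisks (chain n p u (2 * a))) := by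
    intro p u hu
    obtain ⟨m, rfl⟩ : ∃ m, n = m + 1 := ⟨n - 1, by omega⟩
    have := chain_density_le (m := m) (s := 2 * a) (by linarith) (by linarith) p hu
    rwa [show 2 * a / 2 = a by ring] at this
  have hle : ∀ p u : ℂ, transDensity (unitDisks (chain n p u (2 * a))) ≤ dT ℂ n := fun p u =>
    le_iSup (f := fun c : Fin n → ℂ => transDensity (unitDisks c)) _
  have hcd : chainDensity n (2 * a) = gdens n a := by
    rw [chainDensity_eq, show 2 * a / 2 = a by ring]
  have heq : dT ℂ n = ENNReal.ofReal (gdens n a) :=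
    le_antisymm hupper ((hlower 0 1 (by simp)).trans (hle 0 1))
  refine ⟨2 * a, by linarith, by linarith, ?_, ?_, ?_⟩
  · intro t ht
    rw [hcd, chainDensity_eq]
    exact hmax (t / 2) (by linarith [ht.1]) (by linarith [ht.2])
  · rw [hcd]; exact heq
  · intro p u hu
    apply le_antisymm (hle p u)
    rw [heq]
    exact hlower p u hu

/-- main theorem in the Euclidean plane -/
theorem main_plane {n : ℕ} (hn : n = 2 ∨ n = 3 ∨ n = 4) : ∃ s : ℝ, 0 < s ∧ s < 2 ∧
    (∀ t ∈ Icc (0 : ℝ) 2, chainDensity n t ≤ chainDensity n s) ∧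
    dT (EuclideanSpace ℝ (Fin 2)) n = ENNReal.ofReal (chainDensity n s) ∧
    ∀ p u : EuclideanSpace ℝ (Fin 2), ‖u‖ = 1 →
      transDensity (unitDisks (chain n p u s)) = dT (EuclideanSpace ℝ (Fin 2)) n := by
  set e : ℂ ≃ₗᵢ[ℝ] EuclideanSpace ℝ (Fin 2) := Complex.orthonormalBasisOneI.repr with he
  have hv : ∀ X : Set ℂ, volume (e '' X) = volume X := by
    intro X
    have hmp : MeasurePreserving e.symm := e.symm.measurePreserving
    have : e '' X = e.symm ⁻¹' X := e.toEquiv.image_eq_preimage_symm X
    rw [this]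
    exact hmp.measure_preimage_equiv (f := e.symm.toMeasurableEquiv) X
  obtain ⟨s, h0, h2, hmax, hd, hc⟩ := main_complex hn
  refine ⟨s, h0, h2, hmax, ?_, ?_⟩
  · rw [dT_transfer e hv, hd]
  · intro p u hu
    rw [dT_transfer e hv, chain_transfer e, unitDisks_image, transDensity_image e hv]
    apply hc
    rw [LinearIsometryEquiv.norm_map]; exact hu

end FT58
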