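import Pool.Agent.Lib.MP_49fa77_co.Mi

/-!
# The local inequalities
-/

namespace FT58

open Real MeasureTheory intervalIntegral Set

/-- `2√3/π`. -/
noncomputable def cc : ℝ := 2 * √3 / π
/-- `4/3 - 2√3/π`. -/
noncomputable def bb : ℝ := 4 / 3 - cc
/-- the (D-normalized) value of an end of a long facet. -/
noncomputable def qh (ω : ℝ) : ℝ := Mi 1 (4 / 3) ω - cc * ω
/-- `a √(4 - a²)`: the area of the triangle with sides `2, 2, 2a`. -/
noncomputable def Ar (a : ℝ) : ℝ := a * √(4 - a ^ 2)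
/-- the (D-normalized) excess of an end of a short facet. -/
noncomputable def Uf (a ω : ℝ) : ℝ := Mi a (4 / 3) ω - cc * ω - Ar a + √3
/-- the closed form of `Uf` beyond the truncation. -/
noncomputable def Hf (a : ℝ) : ℝ :=
  a * √(4 / 3 - a ^ 2) - Ar a - 4 / 3 * arccos (a / √(4 / 3)) + √3

lemma sqrt3_sq : √3 ^ 2 = 3 := sq_sqrt (by norm_num)

lemma sqrt3_pos : (0 : ℝ) < √3 := by positivity

lemma cc_pi : cc * π = 2 * √3 := by
  unfold cc; field_simp

lemma cc_pos : 0 < cc := by unfold cc; positivity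

lemma bb_pos : 0 < bb := by
  unfold bb cc
  rw [sub_pos, div_lt_iff₀ pi_pos]
  have h1 : √3 < 1.8 := by
    rw [sqrt_lt' (by norm_num)]; norm_num
  have h2 := pi_gt_three
  nlinarith

lemma bb_pi : bb * π = 4 / 3 * π - 2 * √3 := by
  unfold bb; rw [sub_mul, cc_pi]

lemma sqrt43 : √(4 / 3) = 2 / √3 := by
  rw [sqrt_div (by norm_num)]
  congr 1
  rw [show (4 : ℝ) = 2 ^ 2 by norm_num]
  exact sqrt_sq (by norm_num)

lemma Hf_zero : Hf 0 = -bb * (π / 2) := by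
  unfold Hf Ar
  simp only [zero_mul, zero_div, arccos_zero]
  have := bb_pi
  linarith

lemma arccos_one_div : arccos (1 / √(4 / 3)) = π / 6 := by
  rw [sqrt43, one_div_div, ← cos_pi_div_six, arccos_cos (by positivity)]
  linarith [pi_pos]

lemma sqrt13 : √(1 / 3) = √3 / 3 := by
  rw [sqrt_eq_iff_mul_self_eq (by norm_num) (by positivity)]
  have := sqrt3_sq
  nlinarith

lemma Hf_one : Hf 1 = -bb * (π / 6) := by
  unfold Hf Ar
  rw [arccos_one_div]
  have h1 : √(4 / 3 - 1 ^ 2) = √3 / 3 := by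
    rw [← sqrt13]; norm_num
  have h2 : √(4 - 1 ^ 2) = √3 := by norm_num
  rw [h1, h2]
  have := bb_pi
  linarith

lemma Uf_large {a ω : ℝ} (ha : 0 < a) (ha1 : a ≤ 1) (h0 : 0 ≤ ω) (h1 : ω ≤ π / 2)
    (h : 4 / 3 * cos ω ^ 2 ≤ a ^ 2) : Uf a ω = Hf a + bb * ω := by
  unfold Uf Hf bb
  rw [Mi_large ha (by norm_num) (by nlinarith) h0 h1 h]
  ring

lemma Uf_small {a ω : ℝ} (h1 : |ω| < π / 2) (h : a ^ 2 ≤ 4 / 3 * cos ω ^ 2) :
    Uf a ω = a ^ 2 * tan ω - cc * ω - Ar a + √3 := by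
  unfold Uf
  rw [Mi_tan (by norm_num) h1 h]

lemma qh_neg (ω : ℝ) : qh (-ω) = -qh ω := by
  unfold qh; rw [Mi_neg]; ring

lemma qh_zero : qh 0 = 0 := by unfold qh; simp [Mi_zero]

lemma qh_tan {ω : ℝ} (h1 : |ω| < π / 2) (h : 1 ≤ 4 / 3 * cos ω ^ 2) :
    qh ω = tan ω - cc * ω := by
  unfold qh
  rw [Mi_tan (by norm_num) h1 (by simpa using h)]; ring

lemma cos_sq_ge {ω : ℝ} (h : |ω| ≤ π / 6) : 1 ≤ 4 / 3 * cos ω ^ 2 := by
  have h1 : cos (π / 6) ≤ cos ω :=
    cos_anti_abs (by rwa [abs_of_pos (by positivity : (0:ℝ) < π / 6)])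
      (by rw [abs_of_pos (by positivity)]; linarith [pi_pos])
  rw [cos_pi_div_six] at h1
  have h2 : (√3 / 2) ^ 2 ≤ cos ω ^ 2 := by gcongr
  rw [div_pow, sqrt3_sq] at h2
  linarith

lemma qh_tan' {ω : ℝ} (h : |ω| ≤ π / 6) : qh ω = tan ω - cc * ω :=
  qh_tan (by linarith [pi_pos]) (cos_sq_ge h)

lemma cos_sq_le {ω : ℝ} (h : π / 6 ≤ ω) (h1 : ω ≤ π / 2) : 4 / 3 * cos ω ^ 2 ≤ 1 := by
  have h2 : cos ω ≤ cos (π / 6) :=
    cos_le_cos_of_nonneg_of_le_pi (by positivity) (by linarith [pi_pos]) h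
  have h0 : 0 ≤ cos ω := cos_nonneg_of_mem_Icc ⟨by linarith [pi_pos], h1⟩
  rw [cos_pi_div_six] at h2
  have h3 : cos ω ^ 2 ≤ (√3 / 2) ^ 2 := by gcongr
  rw [div_pow, sqrt3_sq] at h3
  linarith

lemma qh_large {ω : ℝ} (h : π / 6 ≤ ω) (h1 : ω ≤ π / 2) : qh ω = bb * (ω - π / 6) := by
  unfold qh
  rw [Mi_large (by norm_num) (by norm_num) (by norm_num) (by linarith [pi_pos]) h1
    (by simpa using cos_sq_le h h1), arccos_one_div]
  have h2 : √(4 / 3 - 1 ^ 2) = √3 / 3 := by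
    rw [← sqrt13]; norm_num
  rw [h2]
  unfold bb
  have := cc_pi
  linarith

lemma qh_conv {x δ : ℝ} (hx : 0 ≤ x) (hδ : 0 ≤ δ) (h : x + δ ≤ π / 2) :
    2 * qh x ≤ qh (x + δ) + qh (x - δ) := by
  unfold qh
  have h1 : Mi 1 (4 / 3) (x + δ) - Mi 1 (4 / 3) x = ∫ s in (0 : ℝ)..δ, mi 1 (4 / 3) (x + s) := by
    rw [Mi_sub (by norm_num) (by norm_num), intervalIntegral.integral_comp_add_left]
    simp
  have h2 : Mi 1 (4 / 3) x - Mi 1 (4 / 3) (x - δ) = ∫ s in (0 : ℝ)..δ, mi 1 (4 / 3) (x - s) := by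
    rw [Mi_sub (by norm_num) (by norm_num), intervalIntegral.integral_comp_sub_left]
    simp
  have h3 : (∫ s in (0 : ℝ)..δ, mi 1 (4 / 3) (x - s)) ≤ ∫ s in (0 : ℝ)..δ, mi 1 (4 / 3) (x + s) := by
    apply intervalIntegral.integral_mono_on hδ
    · exact ((mi_continuous (by norm_num) (by norm_num)).comp
        (continuous_const.sub continuous_id)).intervalIntegrable _ _
    · exact ((mi_continuous (by norm_num) (by norm_num)).comp
        (continuous_const.add continuous_id)).intervalIntegrable _ _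
    · intro s hs
      have hc : cos (x + s) ≤ cos (x - s) := by
        apply cos_anti_abs
        · rw [abs_of_nonneg (by linarith [hs.1] : 0 ≤ x + s), abs_le]
          constructor <;> linarith [hs.1]
        · rw [abs_of_nonneg (by linarith [hs.1] : 0 ≤ x + s)]
          linarith [hs.2, pi_pos]
      have hc0 : 0 ≤ cos (x + s) := cos_nonneg_of_mem_Icc ⟨by linarith [hs.1, pi_pos], by linarith [hs.2]⟩
      unfold mi
      apply div_le_div_of_nonneg_left (by norm_num)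
      · exact lt_max_of_lt_right (by norm_num)
      · apply max_le_max _ le_rfl
        gcongr
  linarith

lemma tan_lower {x : ℝ} (h0 : 0 ≤ x) (h1 : x ≤ π / 6) :
    √3 / 3 - 4 / 3 * (π / 6 - x) ≤ tan x := by
  have h2 : Mi 1 (4 / 3) (π / 6) = √3 / 3 := by
    have hp : |π / 6| = π / 6 := abs_of_pos (by positivity)
    rw [Mi_tan (by norm_num) (by rw [hp]; linarith [pi_pos])
      (by simpa using cos_sq_ge (le_of_eq hp))]
    rw [tan_pi_div_six]
    have := sqrt3_sq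
    have := sqrt3_pos
    field_simp
    linarith
  have h3 : Mi 1 (4 / 3) x = tan x := by
    rw [Mi_tan (by norm_num) (by rw [abs_of_nonneg h0]; linarith [pi_pos])
      (by simpa using cos_sq_ge (by rwa [abs_of_nonneg h0]))]
    ring
  have h4 : Mi 1 (4 / 3) (π / 6) - Mi 1 (4 / 3) x ≤ 4 / 3 * (π / 6 - x) := by
    rw [Mi_sub (by norm_num) (by norm_num)]
    calc (∫ θ in x..(π / 6), mi 1 (4 / 3) θ) ≤ ∫ θ in x..(π / 6), (4 / 3 : ℝ) := by
          apply intervalIntegral.integral_mono_on h1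
          · exact mi_intInt (by norm_num) (by norm_num) _ _
          · exact intervalIntegrable_const
          · intro s _
            exact mi_le (by norm_num) (by norm_num)
      _ = _ := by simp; ring
  linarith

/-- two long ends against the apex angle. -/
lemma qh_pair {θ ω₂ ω₃ : ℝ} (h0 : 0 ≤ θ) (h : ω₂ + ω₃ = θ) (h2 : ω₂ ≤ π / 2) (h3 : ω₃ ≤ π / 2) :
    2 * qh (θ / 2) ≤ qh ω₂ + qh ω₃ := by
  rcases le_total ω₂ ω₃ with h4 | h4
  · have := qh_conv (x := θ / 2) (δ := (ω₃ - ω₂) / 2) (by linarith) (by linarith) (by linarith)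
    rw [show θ / 2 + (ω₃ - ω₂) / 2 = ω₃ by linarith, show θ / 2 - (ω₃ - ω₂) / 2 = ω₂ by linarith]
      at this
    linarith
  · have := qh_conv (x := θ / 2) (δ := (ω₂ - ω₃) / 2) (by linarith) (by linarith) (by linarith)
    rw [show θ / 2 + (ω₂ - ω₃) / 2 = ω₂ by linarith, show θ / 2 - (ω₂ - ω₃) / 2 = ω₃ by linarith]
      at this
    linarith

/-- `T₀`, with the first angle at most `π/3`. -/
lemma T0_aux {θ₁ θ₂ θ₃ : ℝ} (h1 : 0 < θ₁) (h2 : 0 < θ₂) (h3 : 0 < θ₃) (hs : θ₁ + θ₂ + θ₃ = π)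
    (h : θ₁ ≤ π / 3) : 0 ≤ qh (π / 2 - θ₁) + qh (π / 2 - θ₂) + qh (π / 2 - θ₃) := by
  have e1 := qh_pair (θ := θ₁) (ω₂ := π / 2 - θ₂) (ω₃ := π / 2 - θ₃) h1.le (by linarith)
    (by linarith) (by linarith)
  have e2 : qh (π / 2 - θ₁) = bb * (π / 2 - θ₁ - π / 6) :=
    qh_large (by linarith) (by linarith)
  have e3 : qh (θ₁ / 2) = tan (θ₁ / 2) - cc * (θ₁ / 2) :=
    qh_tan' (by rw [abs_of_pos (by linarith)]; linarith)
  have e4 := tan_lower (x := θ₁ / 2) (by linarith) (by linarith)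
  have e5 := bb_pi
  rw [e3] at e1
  rw [e2]
  have e6 : bb = 4 / 3 - cc := rfl
  nlinarith

/-- `T₀`: a triangle with three long sides. -/
theorem T0 {θ₁ θ₂ θ₃ : ℝ} (h1 : 0 < θ₁) (h2 : 0 < θ₂) (h3 : 0 < θ₃) (hs : θ₁ + θ₂ + θ₃ = π) :
    0 ≤ qh (π / 2 - θ₁) + qh (π / 2 - θ₂) + qh (π / 2 - θ₃) := by
  by_cases ha : θ₁ ≤ π / 3
  · exact T0_aux h1 h2 h3 hs ha
  by_cases hb : θ₂ ≤ π / 3
  · have := T0_aux h2 h1 h3 (by linarith) hb
    linarith
  have hc : θ₃ ≤ π / 3 := by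
    push Not at ha hb; linarith
  have := T0_aux h3 h1 h2 (by linarith) hc
  linarith

/-- the derivative of `Hf`. -/
noncomputable def kf (a : ℝ) : ℝ := 2 * √(4 / 3 - a ^ 2) - 2 * √(4 - a ^ 2) + 4 / √(4 - a ^ 2)

lemma Hf_hasDeriv {a : ℝ} (h : a ^ 2 < 4 / 3) : HasDerivAt Hf (kf a) a := by
  unfold Hf kf Ar
  have h1 : 0 < 4 / 3 - a ^ 2 := by linarith
  have h2 : 0 < 4 - a ^ 2 := by linarith
  have d0 : HasDerivAt (fun x : ℝ => x ^ 2) (2 * a) a := by
    simpa using hasDerivAt_pow 2 a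
  have d1 : HasDerivAt (fun x : ℝ => √(4 / 3 - x ^ 2)) (-(2 * a) / (2 * √(4 / 3 - a ^ 2))) a := by
    have := (d0.const_sub (4 / 3)).sqrt h1.ne'
    simpa using this
  have d2 : HasDerivAt (fun x : ℝ => √(4 - x ^ 2)) (-(2 * a) / (2 * √(4 - a ^ 2))) a := by
    have := (d0.const_sub 4).sqrt h2.ne'
    simpa using this
  have d3 : HasDerivAt (fun x : ℝ => x / √(4 / 3)) (1 / √(4 / 3)) a :=
    (hasDerivAt_id a).div_const _
  have hs : (0 : ℝ) < √(4 / 3) := by positivity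
  have hss : √(4 / 3 : ℝ) ^ 2 = 4 / 3 := sq_sqrt (by norm_num)
  have hlt : (a / √(4 / 3)) ^ 2 < 1 := by
    rw [div_pow, hss, div_lt_one (by norm_num)]; exact h
  have habs : |a / √(4 / 3)| < 1 := by
    rw [← sq_lt_one_iff_abs_lt_one]; exact hlt
  rw [abs_lt] at habs
  have d4 : HasDerivAt (fun x : ℝ => arccos (x / √(4 / 3)))
      (-(1 / √(1 - (a / √(4 / 3)) ^ 2)) * (1 / √(4 / 3))) a :=
    HasDerivAt.comp (h₂ := arccos) a
      (hasDerivAt_arccos (ne_of_gt habs.1) (ne_of_lt habs.2)) d3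
  have d5 : HasDerivAt (fun x : ℝ => x * √(4 / 3 - x ^ 2))
      (1 * √(4 / 3 - a ^ 2) + a * (-(2 * a) / (2 * √(4 / 3 - a ^ 2)))) a :=
    (hasDerivAt_id' a).mul d1
  have d5' : HasDerivAt (fun x : ℝ => x * √(4 - x ^ 2))
      (1 * √(4 - a ^ 2) + a * (-(2 * a) / (2 * √(4 - a ^ 2)))) a :=
    (hasDerivAt_id' a).mul d2
  have d6 : HasDerivAt (fun x : ℝ => x * √(4 / 3 - x ^ 2) - x * √(4 - x ^ 2)
      - 4 / 3 * arccos (x / √(4 / 3)) + √3) _ a :=
    ((d5.sub d5').sub (d4.const_mul (4 / 3))).add_const (√3)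
  refine d6.congr_deriv ?_
  have e1 : √(1 - (a / √(4 / 3)) ^ 2) = √(4 / 3 - a ^ 2) / √(4 / 3) := by
    rw [div_pow, hss, ← sqrt_div' _ (by norm_num)]
    congr 1
    field_simp
  rw [e1]
  set p := √(4 / 3 - a ^ 2) with hp
  set r := √(4 - a ^ 2) with hr
  have hp0 : 0 < p := sqrt_pos.mpr h1
  have hr0 : 0 < r := sqrt_pos.mpr h2
  have hp2 : p ^ 2 = 4 / 3 - a ^ 2 := sq_sqrt h1.le
  have hr2 : r ^ 2 = 4 - a ^ 2 := sq_sqrt h2.le
  have e2 : (4 : ℝ) / 3 * (-(1 / (p / √(4 / 3))) * (1 / √(4 / 3))) = -(4 / 3) / p := by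
    field_simp
  rw [e2]
  have e3 : 1 * p + a * (-(2 * a) / (2 * p)) + -(4 / 3) / p * (-1) = 2 * p := by
    field_simp
    linear_combination (-3 : ℝ) * hp2
  have e4 : 1 * r + a * (-(2 * a) / (2 * r)) = 2 * r - 4 / r := by
    field_simp
    linear_combination (-1 : ℝ) * hr2
  have e5 : -(4 / 3) / p * (-1) = 4 / 3 / p := by ring
  linear_combination e3 - e4

lemma kf_anti {x y : ℝ} (hx : 0 ≤ x) (hxy : x ≤ y) (hy : y ≤ 1) : kf y ≤ kf x := by
  unfold kf
  have hx2 : x ^ 2 ≤ y ^ 2 := by gcongr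
  have hy2 : y ^ 2 ≤ 1 := by nlinarith
  set p := √(4 / 3 - x ^ 2) with hp
  set p' := √(4 / 3 - y ^ 2) with hp'
  set r := √(4 - x ^ 2) with hr
  set r' := √(4 - y ^ 2) with hr'
  have hp0 : 0 < p := sqrt_pos.mpr (by linarith)
  have hp0' : 0 < p' := sqrt_pos.mpr (by linarith)
  have hr0 : 0 < r := sqrt_pos.mpr (by linarith)
  have hr0' : 0 < r' := sqrt_pos.mpr (by linarith)
  have hp2 : p ^ 2 = 4 / 3 - x ^ 2 := sq_sqrt (by linarith)
  have hp2' : p' ^ 2 = 4 / 3 - y ^ 2 := sq_sqrt (by linarith)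
  have hr2 : r ^ 2 = 4 - x ^ 2 := sq_sqrt (by linarith)
  have hr2' : r' ^ 2 = 4 - y ^ 2 := sq_sqrt (by linarith)
  have h3 : √3 ≤ r' := by
    apply sqrt_le_sqrt; linarith
  have h3' : √3 ≤ r := by
    apply sqrt_le_sqrt; linarith
  have hs := sqrt3_sq
  have hs0 := sqrt3_pos
  have hrr : 3 ≤ r * r' := by nlinarith
  have hrp : √3 * p ≤ r := by
    apply abs_le_of_sq_le_sq' _ hr0.le |>.2
    rw [mul_pow, hs, hp2, hr2]; nlinarith
  have hrp' : √3 * p' ≤ r' := by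
    apply abs_le_of_sq_le_sq' _ hr0'.le |>.2
    rw [mul_pow, hs, hp2', hr2']; nlinarith
  have h17 : (5 / 3 : ℝ) ≤ √3 := by
    apply le_sqrt_of_sq_le; norm_num
  have hu0 : 0 ≤ r - r' := by
    have : r' ≤ r := by
      apply sqrt_le_sqrt; linarith
    linarith
  have e1 : (r - r') * (r + r') = (p - p') * (p + p') := by
    linear_combination hr2 - hr2' - (hp2 - hp2')
  have e2 : √3 * (r - r') ≤ p - p' := by
    have h4 : √3 * (r - r') * (p + p') ≤ (p - p') * (p + p') := by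
      rw [← e1]; nlinarith
    exact le_of_mul_le_mul_right h4 (by positivity)
  have e3 : 4 / r' - 4 / r = 4 * (r - r') / (r' * r) := by
    rw [div_sub_div _ _ hr0'.ne' hr0.ne']
    congr 1; ring
  have e4 : 4 * (r - r') / (r' * r) ≤ 4 * (r - r') / 3 := by
    apply div_le_div_of_nonneg_left <;> linarith
  have e5 : 5 / 3 * (r - r') ≤ p - p' := by nlinarith
  linarith

lemma kf_one : kf 1 = 0 := by
  unfold kf
  have h1 : √(4 / 3 - 1 ^ 2) = √3 / 3 := by
    rw [← sqrt13]; norm_num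
  have h2 : √(4 - 1 ^ 2) = √3 := by norm_num
  rw [h1, h2]
  have := sqrt3_sq
  have := sqrt3_pos
  field_simp
  nlinarith

lemma kf_nonneg {x : ℝ} (hx : 0 ≤ x) (hx1 : x ≤ 1) : 0 ≤ kf x := by
  rw [← kf_one]; exact kf_anti hx hx1 le_rfl

lemma Hf_cont : ContinuousOn Hf (Icc 0 1) := by
  intro x hx
  exact (Hf_hasDeriv (by nlinarith [hx.1, hx.2])).continuousAt.continuousWithinAt

lemma Hf_mono {x y : ℝ} (hx : 0 ≤ x) (hxy : x ≤ y) (hy : y ≤ 1) : Hf x ≤ Hf y := by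
  have h : MonotoneOn Hf (Icc 0 1) := by
    apply monotoneOn_of_deriv_nonneg (convex_Icc 0 1) Hf_cont
    · intro z hz
      rw [interior_Icc] at hz
      exact (Hf_hasDeriv (by nlinarith [hz.1, hz.2])).differentiableAt.differentiableWithinAt
    · intro z hz
      rw [interior_Icc] at hz
      rw [(Hf_hasDeriv (by nlinarith [hz.1, hz.2])).deriv]
      exact kf_nonneg hz.1.le hz.2.le
  exact h ⟨hx, by linarith⟩ ⟨by linarith, hy⟩ hxy

lemma Hf_concave : ConcaveOn ℝ (Icc 0 1) Hf := by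
  apply AntitoneOn.concaveOn_of_deriv (convex_Icc 0 1) Hf_cont
  · intro z hz
    rw [interior_Icc] at hz
    exact (Hf_hasDeriv (by nlinarith [hz.1, hz.2])).differentiableAt.differentiableWithinAt
  · intro x hx y hy hxy
    rw [interior_Icc] at hx hy
    rw [(Hf_hasDeriv (show x ^ 2 < 4 / 3 by nlinarith [hx.1, hx.2])).deriv,
      (Hf_hasDeriv (show y ^ 2 < 4 / 3 by nlinarith [hy.1, hy.2])).deriv]
    exact kf_anti hx.1.le hxy hy.2.le

lemma Hf_super {x y z : ℝ} (hx : 0 ≤ x) (hy : 0 ≤ y) (hxz : x ≤ z) (hyz : y ≤ z) (hz : z ≤ 1)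
    (h : z ≤ x + y) : Hf z + Hf 0 ≤ Hf x + Hf y := by
  set w := x + y - z with hw
  have hw0 : 0 ≤ w := by linarith
  have h1 : Hf 0 ≤ Hf w := Hf_mono le_rfl hw0 (by linarith)
  suffices h2 : Hf z + Hf w ≤ Hf x + Hf y by linarith
  rcases eq_or_lt_of_le (show w ≤ z by linarith) with h3 | h3
  · have : x = z := by linarith
    have : y = z := by linarith
    rw [h3]; simp [*]
  · have hzw : 0 < z - w := by linarith
    have hwm : w ∈ Icc (0:ℝ) 1 := ⟨hw0, by linarith⟩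
    have hzm : z ∈ Icc (0:ℝ) 1 := ⟨by linarith, hz⟩
    have n1 : 0 ≤ (z - x) / (z - w) := by apply div_nonneg <;> linarith
    have n2 : 0 ≤ (x - w) / (z - w) := by apply div_nonneg <;> linarith
    have n3 : 0 ≤ (z - y) / (z - w) := by apply div_nonneg <;> linarith
    have n4 : 0 ≤ (y - w) / (z - w) := by apply div_nonneg <;> linarith
    have s1 : (z - x) / (z - w) + (x - w) / (z - w) = 1 := by field_simp; ring
    have s2 : (z - y) / (z - w) + (y - w) / (z - w) = 1 := by field_simp; ring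
    have c1 := Hf_concave.2 hwm hzm n1 n2 s1
    have c2 := Hf_concave.2 hwm hzm n3 n4 s2
    simp only [smul_eq_mul] at c1 c2
    have e1 : (z - x) / (z - w) * w + (x - w) / (z - w) * z = x := by field_simp; ring
    have e2 : (z - y) / (z - w) * w + (y - w) / (z - w) * z = y := by field_simp; ring
    rw [e1] at c1
    rw [e2] at c2
    have e3 : (z - x) / (z - w) * Hf w + (x - w) / (z - w) * Hf z
        + ((z - y) / (z - w) * Hf w + (y - w) / (z - w) * Hf z) = Hf z + Hf w := by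
      field_simp
      have : x + y = z + w := by linarith
      linear_combination (Hf z - Hf w) * this
    linarith

end FT58
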