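import Pool.Agent.Lib.MP_49fa77_co.Union5
import Pool.Agent.Lib.MP_49fa77_co.Main

/-!
# The main theorem for two, three, four and five disks
-/

namespace FT58

open Real MeasureTheory Set ENNReal Metric Filter

/-- area estimate in a big disk -/
lemma upper_area5 {D : ℝ} (hD1 : D ≤ 1)
    (hmax : ∀ b, 0 ≤ b → b ≤ 1 → gdens 5 b ≤ D) {c : Fin 5 → ℂ} {V : Set ℂ}
    (hV : IsTransPacking (unitDisks c) V) : ∃ M : ℝ, 0 ≤ M ∧ ∀ R : ℝ, 0 ≤ R →
      volume (closedBall (0 : ℂ) R ∩ ⋃ v ∈ V, translate (unitDisks c) v)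
        ≤ ENNReal.ofReal (D * (π * (R + M) ^ 2)) := by
  classical
  have hD := D5_lower hmax
  have hD0 : 0 ≤ D := by linarith
  have hM : ∀ a, 0 < a → a < 1 → -(kap D / 4) ≤ GG D a := by
    intro a h0 h1
    have := M_of_max (n := 5) (by norm_num) hmax h0 h1
    norm_num at this
    linarith
  set B : ℝ := ∑ i, ‖c i‖ with hB
  have hBi : ∀ i, ‖c i‖ ≤ B := fun i => Finset.single_le_sum (f := fun i => ‖c i‖)
    (fun i _ => norm_nonneg _) (Finset.mem_univ i)
  have hB0 : 0 ≤ B := Finset.sum_nonneg (fun i _ => norm_nonneg _)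
  refine ⟨2 * B + 1 + 2 / √3, by positivity, ?_⟩
  intro R hR
  -- the relevant translates
  set A : Set ℂ := {v ∈ V | ‖v‖ ≤ R + B + 1} with hA
  have hAfin : A.Finite := by
    apply finite_of_sep (r := R + B + 1)
    · intro v hv w hw hne
      have := packing_sep hV hv.1 hw.1 hne 0 0
      rwa [add_sub_add_left_eq_sub] at this
    · intro v hv; exact hv.2
  set T := hAfin.toFinset with hT
  set s : Finset (ℂ × Fin 5) := T ×ˢ Finset.univ with hs
  have hmain := union_ineq5 hD hD1 hM c T (by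
      intro v hv w hw hne i j
      have hv1 : v ∈ A := (Set.Finite.mem_toFinset hAfin).mp hv
      have hw1 : w ∈ A := (Set.Finite.mem_toFinset hAfin).mp hw
      exact packing_sep hV hv1.1 hw1.1 hne i j)
  have hsub1 : closedBall (0 : ℂ) R ∩ ⋃ v ∈ V, translate (unitDisks c) v
      ⊆ ⋃ x ∈ s, closedBall (c x.2 + x.1) 1 := by
    rintro z ⟨hz, hzU⟩
    simp only [mem_iUnion] at hzU
    obtain ⟨v, hv, hzv⟩ := hzU
    rw [translate_unitDisks, mem_iUnion] at hzv
    obtain ⟨i, hi⟩ := hzv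
    rw [mem_closedBall, dist_zero_right] at hz
    rw [mem_closedBall, dist_eq_norm] at hi
    have hvA : v ∈ A := by
      refine ⟨hv, ?_⟩
      have e : v = z + -(z - (c i + v)) + -(c i) := by ring
      have h1 := norm_add_le (z + -(z - (c i + v))) (-(c i))
      have h2 := norm_add_le z (-(z - (c i + v)))
      rw [norm_neg] at h1 h2
      rw [← e] at h1
      have := hBi i
      linarith
    simp only [mem_iUnion]
    refine ⟨(v, i), ?_, ?_⟩
    · rw [hs, Finset.mem_product]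
      exact ⟨(Set.Finite.mem_toFinset hAfin).mpr hvA, Finset.mem_univ _⟩
    · rw [mem_closedBall, dist_eq_norm]; exact hi
  have hsub2 : (⋃ x ∈ s, closedBall (c x.2 + x.1) (2 / √3))
      ⊆ closedBall (0 : ℂ) (R + (2 * B + 1 + 2 / √3)) := by
    intro z hz
    simp only [mem_iUnion] at hz
    obtain ⟨x, hx, hz⟩ := hz
    rw [hs, Finset.mem_product] at hx
    have hx1 : x.1 ∈ A := (Set.Finite.mem_toFinset hAfin).mp hx.1
    rw [mem_closedBall, dist_eq_norm] at hz
    rw [mem_closedBall, dist_zero_right]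
    have e : z = (z - (c x.2 + x.1)) + c x.2 + x.1 := by ring
    have h1 := norm_add_le ((z - (c x.2 + x.1)) + c x.2) x.1
    have h2 := norm_add_le (z - (c x.2 + x.1)) (c x.2)
    rw [← e] at h1
    have h3 := hBi x.2
    have h4 := hx1.2
    linarith
  calc volume (closedBall (0 : ℂ) R ∩ ⋃ v ∈ V, translate (unitDisks c) v)
      ≤ volume (⋃ x ∈ s, closedBall (c x.2 + x.1) 1) := measure_mono hsub1
    _ ≤ ENNReal.ofReal D * volume (⋃ x ∈ s, closedBall (c x.2 + x.1) (2 / √3)) := hmain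
    _ ≤ ENNReal.ofReal D * volume (closedBall (0 : ℂ) (R + (2 * B + 1 + 2 / √3))) := by
        gcongr
    _ = ENNReal.ofReal (D * (π * (R + (2 * B + 1 + 2 / √3)) ^ 2)) := by
        rw [vol_closedBall _ (by positivity), ← ENNReal.ofReal_mul hD0]

/-- **Upper bound** for the upper density of a translative packing. -/
theorem upper_density5 {D : ℝ} (hD1 : D ≤ 1)
    (hmax : ∀ b, 0 ≤ b → b ≤ 1 → gdens 5 b ≤ D) {c : Fin 5 → ℂ} {V : Set ℂ}
    (hV : IsTransPacking (unitDisks c) V) :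
    upperDensity (⋃ v ∈ V, translate (unitDisks c) v) ≤ ENNReal.ofReal D := by
  obtain ⟨M, hM0, hM⟩ := upper_area5 hD1 hmax hV
  unfold upperDensity
  have hlim : Tendsto (fun R : ℝ => ENNReal.ofReal (D * ((R + M) / R) ^ 2)) atTop
      (nhds (ENNReal.ofReal D)) := ENNReal.tendsto_ofReal (ratio_tendsto D M)
  rw [← hlim.limsup_eq]
  refine limsup_le_limsup ?_ (by isBoundedDefault) (by isBoundedDefault)
  filter_upwards [eventually_gt_atTop 0] with R hR
  have h1 := hM R hR.le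
  rw [vol_closedBall R hR.le]
  have hpos : 0 < π * R ^ 2 := by positivity
  calc volume (closedBall (0 : ℂ) R ∩ ⋃ v ∈ V, translate (unitDisks c) v)
        / ENNReal.ofReal (π * R ^ 2)
      ≤ ENNReal.ofReal (D * (π * (R + M) ^ 2)) / ENNReal.ofReal (π * R ^ 2) := by gcongr
    _ = ENNReal.ofReal (D * ((R + M) / R) ^ 2) := by
        rw [← ENNReal.ofReal_div_of_pos hpos]
        congr 1
        field_simp

theorem transDensity_le' {n : ℕ} (hn : n = 2 ∨ n = 3 ∨ n = 4 ∨ n = 5) {D : ℝ} (hD0 : 0 ≤ D)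
    (hD1 : D ≤ 1) (hmax : ∀ b, 0 ≤ b → b ≤ 1 → gdens n b ≤ D) (c : Fin n → ℂ) :
    transDensity (unitDisks c) ≤ ENNReal.ofReal D := by
  by_cases h : n = 2 ∨ n = 3 ∨ n = 4
  · exact transDensity_le h hD0 hD1 hmax c
  · obtain rfl : n = 5 := by omega
    exact iSup₂_le fun _ hV => upper_density5 hD1 hmax hV

/-- main theorem in `ℂ` -/
theorem main_complex' {n : ℕ} (hn : n = 2 ∨ n = 3 ∨ n = 4 ∨ n = 5) : ∃ s : ℝ, 0 < s ∧ s < 2 ∧
    (∀ t ∈ Icc (0 : ℝ) 2, chainDensity n t ≤ chainDensity n s) ∧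
    dT ℂ n = ENNReal.ofReal (chainDensity n s) ∧
    ∀ p u : ℂ, ‖u‖ = 1 → transDensity (unitDisks (chain n p u s)) = dT ℂ n := by
  have hn2 : 2 ≤ n := by omega
  obtain ⟨a, ha0, ha1, hmax⟩ := exists_opt hn2
  have hD0 : 0 ≤ gdens n a := by
    refine le_trans ?_ (hmax 0 le_rfl zero_le_one)
    rw [gdens_zero]; positivity
  have hD1 : gdens n a ≤ 1 := gdens_le_one (by omega) ha0.le ha1.le
  have hupper : dT ℂ n ≤ ENNReal.ofReal (gdens n a) :=
    iSup_le fun c => transDensity_le' hn hD0 hD1 hmax c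
  have hlower : ∀ p u : ℂ, ‖u‖ = 1 →
      ENNReal.ofReal (gdens n a) ≤ transDensity (unitDisks (chain n p u (2 * a))) := by
    intro p u hu
    obtain ⟨m, rfl⟩ : ∃ m, n = m + 1 := ⟨n - 1, by omega⟩
    have := chain_density_le (m := m) (s := 2 * a) (by linarith) (by linarith) p hu
    rwa [show 2 * a / 2 = a by ring] at this
  have hle : ∀ p u : ℂ, transDensity (unitDisks (chain n p u (2 * a))) ≤ dT ℂ n := fun p u =>
    le_iSup (f := fun c : Fin n → ℂ => transDensity (unitDisks c)) _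
  have hcd : chainDensity n (2 * a) = gdens n a := by
    rw [chainDensity_eq, show 2 * a / 2 = a by ring]
  have heq : dT ℂ n = ENNReal.ofReal (gdens n a) :=
    le_antisymm hupper ((hlower 0 1 (by simp)).trans (hle 0 1))
  refine ⟨2 * a, by linarith, by linarith, ?_, ?_, ?_⟩
  · intro t ht
    rw [hcd, chainDensity_eq]
    exact hmax (t / 2) (by linarith [ht.1]) (by linarith [ht.2])
  · rw [hcd]; exact heq
  · intro p u hu
    apply le_antisymm (hle p u)
    rw [heq]
    exact hlower p u hu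

/-- main theorem in the Euclidean plane -/
theorem main_plane' {n : ℕ} (hn : n = 2 ∨ n = 3 ∨ n = 4 ∨ n = 5) : ∃ s : ℝ, 0 < s ∧ s < 2 ∧
    (∀ t ∈ Icc (0 : ℝ) 2, chainDensity n t ≤ chainDensity n s) ∧
    dT (EuclideanSpace ℝ (Fin 2)) n = ENNReal.ofReal (chainDensity n s) ∧
    ∀ p u : EuclideanSpace ℝ (Fin 2), ‖u‖ = 1 →
      transDensity (unitDisks (chain n p u s)) = dT (EuclideanSpace ℝ (Fin 2)) n := by
  set e : ℂ ≃ₗᵢ[ℝ] EuclideanSpace ℝ (Fin 2) := Complex.orthonormalBasisOneI.repr with he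
  have hv : ∀ X : Set ℂ, volume (e '' X) = volume X := by
    intro X
    have hmp : MeasurePreserving e.symm := e.symm.measurePreserving
    have : e '' X = e.symm ⁻¹' X := e.toEquiv.image_eq_preimage_symm X
    rw [this]
    exact hmp.measure_preimage_equiv (f := e.symm.toMeasurableEquiv) X
  obtain ⟨s, h0, h2, hmax, hd, hc⟩ := main_complex' hn
  refine ⟨s, h0, h2, hmax, ?_, ?_⟩
  · rw [dT_transfer e hv, hd]
  · intro p u hu
    rw [dT_transfer e hv, chain_transfer e, unitDisks_image, transDensity_image e hv]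
    apply hc
    rw [LinearIsometryEquiv.norm_map]; exact hu

end FT58
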