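import Mathlib

/-!
# Truncated radial integrals

`mi a B θ = min (a² / cos² θ) B` written in a continuous form, and its integral `Mi a B ω`
over `[0, ω]`: twice the area of the part of the right triangle with leg `a` and angle `ω`
inside the disk of radius `√B`.
-/

namespace FT58

open Real MeasureTheory intervalIntegral Set

/-- `min (a² / cos² θ) B`, in a form continuous in `θ`. -/
noncomputable def mi (a B θ : ℝ) : ℝ := a ^ 2 / max (cos θ ^ 2) (a ^ 2 / B)

/-- `∫₀^ω min (a² / cos² θ) B dθ`. -/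
noncomputable def Mi (a B ω : ℝ) : ℝ := ∫ θ in (0 : ℝ)..ω, mi a B θ

lemma mi_continuous {a B : ℝ} (ha : 0 < a) (hB : 0 < B) : Continuous (mi a B) := by
  unfold mi
  refine Continuous.div continuous_const ?_ ?_
  · exact (continuous_cos.pow 2).max continuous_const
  · intro x
    have : 0 < a ^ 2 / B := by positivity
    have : 0 < max (cos x ^ 2) (a ^ 2 / B) := lt_max_of_lt_right this
    exact this.ne'

lemma mi_intInt {a B : ℝ} (ha : 0 < a) (hB : 0 < B) (x y : ℝ) :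
    IntervalIntegrable (mi a B) volume x y := (mi_continuous ha hB).intervalIntegrable _ _

lemma mi_neg (a B θ : ℝ) : mi a B (-θ) = mi a B θ := by
  unfold mi; rw [cos_neg]

lemma mi_eq_div {a B θ : ℝ} (hB : 0 < B) (h : a ^ 2 ≤ B * cos θ ^ 2) :
    mi a B θ = a ^ 2 / cos θ ^ 2 := by
  unfold mi
  rw [max_eq_left]
  rw [div_le_iff₀ hB]; linarith

lemma mi_eq_B {a B θ : ℝ} (ha : 0 < a) (hB : 0 < B) (h : B * cos θ ^ 2 ≤ a ^ 2) :
    mi a B θ = B := by
  unfold mi
  rw [max_eq_right]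
  · field_simp
  · rw [le_div_iff₀ hB]; linarith

lemma mi_eq_min {a B θ : ℝ} (ha : 0 < a) (hB : 0 < B) (h : cos θ ≠ 0) :
    mi a B θ = min (a ^ 2 / cos θ ^ 2) B := by
  have hc : 0 < cos θ ^ 2 := by positivity
  rcases le_total (a ^ 2) (B * cos θ ^ 2) with h1 | h1
  · rw [mi_eq_div hB h1, min_eq_left]
    rw [div_le_iff₀ hc]; linarith
  · rw [mi_eq_B ha hB h1, min_eq_right]
    rw [le_div_iff₀ hc]; linarith

lemma mi_pos {a B θ : ℝ} (ha : 0 < a) (hB : 0 < B) : 0 < mi a B θ := by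
  rcases le_total (a ^ 2) (B * cos θ ^ 2) with h1 | h1
  · rw [mi_eq_div hB h1]
    have : 0 < B * cos θ ^ 2 := lt_of_lt_of_le (by positivity) h1
    have h2 : 0 < cos θ ^ 2 := by
      by_contra h
      push Not at h
      nlinarith
    positivity
  · rw [mi_eq_B ha hB h1]; exact hB

lemma mi_le {a B θ : ℝ} (ha : 0 < a) (hB : 0 < B) : mi a B θ ≤ B := by
  by_cases h : cos θ = 0
  · rw [mi_eq_B ha hB]; rw [h]; nlinarith
  · rw [mi_eq_min ha hB h]; exact min_le_right _ _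

lemma mi_mono_a {a a' B θ : ℝ} (ha : 0 < a) (haa : a ≤ a') (hB : 0 < B) :
    mi a B θ ≤ mi a' B θ := by
  have ha' : 0 < a' := lt_of_lt_of_le ha haa
  by_cases h : cos θ = 0
  · rw [mi_eq_B ha hB (by rw [h]; nlinarith), mi_eq_B ha' hB (by rw [h]; nlinarith)]
  · rw [mi_eq_min ha hB h, mi_eq_min ha' hB h]
    apply min_le_min _ le_rfl
    gcongr

/-- The basic pointwise inequality. -/
lemma mi_key {a D θ : ℝ} (ha : 0 < a) (hD0 : 0 ≤ D) (hD : D ≤ 1) (h : cos θ ≠ 0) :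
    -(1 - D) * (a ^ 2 / cos θ ^ 2) ≤ D * mi a (4 / 3) θ - mi a 1 θ := by
  rw [mi_eq_min ha (by norm_num) h, mi_eq_min ha (by norm_num) h]
  set x := a ^ 2 / cos θ ^ 2 with hx
  have hx0 : 0 ≤ x := by positivity
  rcases le_total x 1 with h1 | h1
  · rw [min_eq_left (by linarith), min_eq_left h1]; linarith
  · rw [min_eq_right h1]
    rcases le_total x (4 / 3) with h2 | h2
    · rw [min_eq_left h2]; linarith
    · rw [min_eq_right h2]; nlinarith

lemma mi_key_eq {a D θ : ℝ} (h : a ^ 2 ≤ cos θ ^ 2) :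
    D * mi a (4 / 3) θ - mi a 1 θ = -(1 - D) * (a ^ 2 / cos θ ^ 2) := by
  rw [mi_eq_div (B := 4 / 3) (by norm_num) (by nlinarith [sq_nonneg (cos θ)]),
    mi_eq_div (B := 1) (by norm_num) (by linarith)]
  ring

lemma Mi_zero (a B : ℝ) : Mi a B 0 = 0 := by simp [Mi]

lemma Mi_sub {a B : ℝ} (ha : 0 < a) (hB : 0 < B) (x y : ℝ) :
    Mi a B y - Mi a B x = ∫ θ in x..y, mi a B θ := by
  unfold Mi
  rw [intervalIntegral.integral_interval_sub_left (mi_intInt ha hB _ _) (mi_intInt ha hB _ _)]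

lemma Mi_neg (a B ω : ℝ) : Mi a B (-ω) = -Mi a B ω := by
  unfold Mi
  have h1 : (∫ θ in (0 : ℝ)..ω, mi a B (-θ)) = ∫ θ in (-ω)..(-0), mi a B θ :=
    intervalIntegral.integral_comp_neg (mi a B)
  simp only [mi_neg, neg_zero] at h1
  rw [h1, intervalIntegral.integral_symm]

lemma cos_pos_of_abs {θ : ℝ} (h : |θ| < π / 2) : 0 < cos θ := by
  rw [abs_lt] at h
  exact cos_pos_of_mem_Ioo ⟨h.1, h.2⟩

lemma cos_anti_abs {x y : ℝ} (h : |x| ≤ |y|) (hy : |y| ≤ π) : cos y ≤ cos x := by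
  rw [← cos_abs x, ← cos_abs y]
  exact cos_le_cos_of_nonneg_of_le_pi (abs_nonneg _) hy h

/-- Integral of `a²/cos²`. -/
lemma integral_sec {a α β : ℝ} (hα : |α| < π / 2) (hβ : |β| < π / 2) :
    (∫ θ in α..β, a ^ 2 / cos θ ^ 2) = a ^ 2 * (tan β - tan α) := by
  have hmem : ∀ x ∈ uIcc α β, 0 < cos x := by
    intro x hx
    apply cos_pos_of_mem_Ioo
    rw [abs_lt] at hα hβ
    rcases le_total α β with h | h
    · rw [uIcc_of_le h] at hx
      exact ⟨by linarith [hx.1], by linarith [hx.2]⟩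
    · rw [uIcc_of_ge h] at hx
      exact ⟨by linarith [hx.1], by linarith [hx.2]⟩
  have h1 : ∀ x ∈ uIcc α β, HasDerivAt (fun x => a ^ 2 * tan x) (a ^ 2 / cos x ^ 2) x := by
    intro x hx
    have := (hasDerivAt_tan (hmem x hx).ne').const_mul (a ^ 2)
    rw [mul_one_div] at this
    exact this
  rw [intervalIntegral.integral_eq_sub_of_hasDerivAt h1]
  · ring
  · apply ContinuousOn.intervalIntegrable
    apply ContinuousOn.div continuousOn_const
    · exact (continuous_cos.pow 2).continuousOn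
    · intro x hx
      have := hmem x hx
      positivity

lemma sec_intInt {a α β : ℝ} (hα : |α| < π / 2) (hβ : |β| < π / 2) :
    IntervalIntegrable (fun θ => a ^ 2 / cos θ ^ 2) volume α β := by
  have hmem : ∀ x ∈ uIcc α β, 0 < cos x := by
    intro x hx
    apply cos_pos_of_mem_Ioo
    rw [abs_lt] at hα hβ
    rcases le_total α β with h | h
    · rw [uIcc_of_le h] at hx
      exact ⟨by linarith [hx.1], by linarith [hx.2]⟩
    · rw [uIcc_of_ge h] at hx
      exact ⟨by linarith [hx.1], by linarith [hx.2]⟩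
  apply ContinuousOn.intervalIntegrable
  apply ContinuousOn.div continuousOn_const
  · exact (continuous_cos.pow 2).continuousOn
  · intro x hx
    have := hmem x hx
    positivity

lemma Mi_tan_nonneg {a B ω : ℝ} (hB : 0 < B) (h0 : 0 ≤ ω) (h1 : ω < π / 2)
    (h : a ^ 2 ≤ B * cos ω ^ 2) : Mi a B ω = a ^ 2 * tan ω := by
  unfold Mi
  rw [intervalIntegral.integral_congr (g := fun θ => a ^ 2 / cos θ ^ 2)]
  · rw [integral_sec (by rw [abs_zero]; positivity) (by rw [abs_of_nonneg h0]; exact h1)]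
    simp
  · intro x hx
    rw [uIcc_of_le h0] at hx
    apply mi_eq_div hB
    have hc1 : cos ω ≤ cos x := cos_le_cos_of_nonneg_of_le_pi hx.1 (by linarith [pi_pos]) hx.2
    have hc0 : 0 < cos ω := cos_pos_of_mem_Ioo ⟨by linarith, h1⟩
    nlinarith [mul_le_mul hc1 hc1 hc0.le (by linarith : (0:ℝ) ≤ cos x)]

lemma Mi_tan {a B ω : ℝ} (hB : 0 < B) (h1 : |ω| < π / 2)
    (h : a ^ 2 ≤ B * cos ω ^ 2) : Mi a B ω = a ^ 2 * tan ω := by
  rcases le_total 0 ω with h0 | h0
  · rw [abs_of_nonneg h0] at h1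
    exact Mi_tan_nonneg hB h0 h1 h
  · rw [abs_of_nonpos h0] at h1
    have := Mi_tan_nonneg (a := a) hB (by linarith : 0 ≤ -ω) h1 (by rw [cos_neg]; exact h)
    rw [Mi_neg, tan_neg] at this
    linarith

lemma Mi_sub_const {a B α β : ℝ} (ha : 0 < a) (hB : 0 < B)
    (h : ∀ θ ∈ uIcc α β, B * cos θ ^ 2 ≤ a ^ 2) :
    Mi a B β - Mi a B α = B * (β - α) := by
  rw [Mi_sub ha hB, intervalIntegral.integral_congr (g := fun _ => B)]
  · simp; ring
  · intro x hx
    exact mi_eq_B ha hB (h x hx)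

/-- Beyond the truncation angle. -/
lemma Mi_large {a B ω : ℝ} (ha : 0 < a) (hB : 0 < B) (haB : a ^ 2 ≤ B) (h0 : 0 ≤ ω)
    (h1 : ω ≤ π / 2) (h : B * cos ω ^ 2 ≤ a ^ 2) :
    Mi a B ω = a * √(B - a ^ 2) + B * (ω - arccos (a / √B)) := by
  set c := arccos (a / √B) with hc
  have hsB : 0 < √B := sqrt_pos.mpr hB
  have hsq : √B ^ 2 = B := sq_sqrt hB.le
  have hle1 : a / √B ≤ 1 := by
    rw [div_le_one hsB]
    exact le_sqrt_of_sq_le haB
  have hpos : 0 < a / √B := by positivity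
  have hcos : cos c = a / √B := cos_arccos (by linarith) hle1
  have hc0 : 0 ≤ c := arccos_nonneg _
  have hc1 : c < π / 2 := arccos_lt_pi_div_two.mpr hpos
  have hcosω : 0 ≤ cos ω := cos_nonneg_of_mem_Icc ⟨by linarith, h1⟩
  have hcosω' : cos ω ≤ cos c := by
    rw [hcos, le_div_iff₀ hsB]
    apply abs_le_of_sq_le_sq' _ ha.le |>.2
    rw [mul_pow, hsq]; linarith
  have hcω : c ≤ ω := by
    by_contra hlt
    push Not at hlt
    have := cos_lt_cos_of_nonneg_of_le_pi_div_two h0 hc1.le hlt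
    linarith
  have e1 : Mi a B c = a ^ 2 * tan c := by
    apply Mi_tan_nonneg hB hc0 hc1
    rw [hcos, div_pow, hsq]; field_simp; exact le_rfl
  have e2 : Mi a B ω - Mi a B c = B * (ω - c) := by
    apply Mi_sub_const ha hB
    intro θ hθ
    rw [uIcc_of_le hcω] at hθ
    have h3 : cos θ ≤ cos c :=
      cos_le_cos_of_nonneg_of_le_pi hc0 (by linarith [hθ.2, pi_pos]) hθ.1
    have h4 : 0 ≤ cos θ := cos_nonneg_of_mem_Icc ⟨by linarith [hθ.1], by linarith [hθ.2]⟩
    rw [hcos] at h3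
    have h5 : cos θ ^ 2 ≤ (a / √B) ^ 2 := by gcongr
    rw [div_pow, hsq] at h5
    rw [le_div_iff₀ hB] at h5
    linarith
  have e3 : a ^ 2 * tan c = a * √(B - a ^ 2) := by
    rw [hc, tan_arccos]
    have : √(1 - (a / √B) ^ 2) = √(B - a ^ 2) / √B := by
      rw [div_pow, hsq, ← sqrt_div' _ hB.le]
      congr 1
      field_simp
    rw [this]
    field_simp
  linarith

end FT58
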