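import Pool.Agent.Lib.MP_49fa77_co.Facts5

/-!
# Neighbourhoods of critical pentagons
-/

namespace FT58

open Real MeasureTheory Set Filter Topology

/-- value of the closed pentagon -/
noncomputable def Fc (D : ℝ) (c : Fin 5 → ℂ) : ℝ := F0 D (c 0) (c 1) (c 2) (c 3) (c 4)

lemma Fc_rot (D : ℝ) (c : Fin 5 → ℂ) (i : Fin 5) :
    F0 D (c i) (c (i + 1)) (c (i + 2)) (c (i + 3)) (c (i + 4)) = Fc D c := by
  unfold Fc
  fin_cases i
  · rfl
  · show F0 D (c 1) (c 2) (c 3) (c 4) (c 0) = _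
    unfold F0; ring
  · show F0 D (c 2) (c 3) (c 4) (c 0) (c 1) = _
    unfold F0; ring
  · show F0 D (c 3) (c 4) (c 0) (c 1) (c 2) = _
    unfold F0; ring
  · show F0 D (c 4) (c 0) (c 1) (c 2) (c 3) = _
    unfold F0; ring

lemma Fc_trans (D : ℝ) (c : Fin 5 → ℂ) (t : ℂ) : Fc D (fun i => c i - t) = Fc D c := by
  unfold Fc F0
  simp only [sub_sub_sub_cancel_right]
  simp only [cr, Complex.sub_re, Complex.sub_im]
  ring

lemma sl_trans (c : Fin 5 → ℂ) (t : ℂ) : sl (fun i => c i - t) = sl c := by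
  ext i
  unfold sl
  ring

/-- strict properties -/
structure Crit (D : ℝ) (c : Fin 5 → ℂ) : Prop where
  rg : ∀ i, 0.472 < ‖sl c i‖ / 2 ∧ ‖sl c i‖ / 2 < 0.748
  c1 : ∀ i, 0 < cr (sl c i) (sl c (i + 1))
  c2 : ∀ i, 0 < cr (sl c i) (sl c (i + 2))
  d1 : ∀ i, 0 < dt (c (i + 2) - c i) (c (i + 2) - c (i + 1))
  d2 : ∀ i, 0 < dt (c (i + 4) - c i) (c (i + 4) - c (i + 1))
  d3 : ∀ i, 0 < dt (c (i + 3) - c i) (c (i + 3) - c (i + 1))
  f : -0.0038 < Fc D c
  cross : ∀ i j, i ≠ j → 0.255 * (‖sl c i‖ * ‖sl c j‖) < |cr (sl c i) (sl c j)|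
  pr : ∀ i j, i ≠ j → (‖sl c i‖ / 2 - 0.61) ^ 2 + (‖sl c j‖ / 2 - 0.61) ^ 2 < 0.0189
  dtp : ∀ i, 0 < dt (sl c i) (sl c i)

lemma sym_ne {P : Fin 5 → Fin 5 → Prop} (hs : ∀ i j, P i j → P j i) (h1 : ∀ i, P i (i + 1))
    (h2 : ∀ i, P i (i + 2)) : ∀ i j, i ≠ j → P i j := by
  intro i j hij
  rcases Near.fin5 i j with rfl | rfl | rfl | rfl | rfl
  · exact absurd rfl hij
  · exact h1 i
  · exact h2 i
  · apply hs
    have := h2 (i + 3)
    have e : i + 3 + 2 = i := by rw [add_assoc]; exact add_zero i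
    rwa [e] at this
  · apply hs
    have := h1 (i + 4)
    have e : i + 4 + 1 = i := by rw [add_assoc]; exact add_zero i
    rwa [e] at this

theorem crit_of {D : ℝ} (hD : 0.96299 ≤ D) (hD1 : D ≤ 1) {c : Fin 5 → ℂ}
    (hs : ∀ i, ‖sl c i‖ ≤ 2) (hF : Fc D c ≤ 0) : Crit D c := by
  have e1 : ∀ i : Fin 5, i + 1 + 1 = i + 2 := by decide
  have e2 : ∀ i : Fin 5, i + 2 + 1 = i + 3 := by decide
  have e3 : ∀ i : Fin 5, i + 3 + 1 = i + 4 := by decide
  have e4 : ∀ i : Fin 5, i + 4 + 1 = i := by decide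
  have s0 : ∀ i, ‖c (i + 1) - c i‖ ≤ 2 := hs
  have s1 : ∀ i, ‖c (i + 2) - c (i + 1)‖ ≤ 2 := by
    intro i; have := hs (i + 1); unfold sl at this; rwa [e1] at this
  have s2 : ∀ i, ‖c (i + 3) - c (i + 2)‖ ≤ 2 := by
    intro i; have := hs (i + 2); unfold sl at this; rwa [e2] at this
  have s3 : ∀ i, ‖c (i + 4) - c (i + 3)‖ ≤ 2 := by
    intro i; have := hs (i + 3); unfold sl at this; rwa [e3] at this
  have s4 : ∀ i, ‖c i - c (i + 4)‖ ≤ 2 := by
    intro i; have := hs (i + 4); unfold sl at this; rwa [e4] at this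
  have F : ∀ i, F0 D (c i) (c (i + 1)) (c (i + 2)) (c (i + 3)) (c (i + 4)) ≤ 0 := by
    intro i; rw [Fc_rot]; exact hF
  have A := fun i => fact_sides hD hD1 (s0 i) (s1 i) (s2 i) (s3 i) (s4 i) (F i)
  have B := fun i => fact_c1 hD hD1 (s0 i) (s1 i) (s2 i) (s3 i) (s4 i) (F i)
  have C := fun i => fact_c2 hD hD1 (s0 i) (s1 i) (s2 i) (s3 i) (s4 i) (F i)
  have l1 : ∀ i, sl c (i + 1) = c (i + 2) - c (i + 1) := by
    intro i; unfold sl; rw [e1]
  have l2 : ∀ i, sl c (i + 2) = c (i + 3) - c (i + 2) := by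
    intro i; unfold sl; rw [e2]
  have B' : ∀ i, 0.255 * (‖sl c i‖ * ‖sl c (i + 1)‖) < cr (sl c i) (sl c (i + 1)) := by
    intro i; rw [l1]; exact B i
  have C' : ∀ i, 0.255 * (‖sl c i‖ * ‖sl c (i + 2)‖) < cr (sl c i) (sl c (i + 2)) := by
    intro i; rw [l2]; exact C i
  refine ⟨fun i => (A i).1, ?_, ?_, ?_, ?_, ?_, ?_, ?_, ?_, ?_⟩
  · intro i
    have := B' i
    have : 0 ≤ 0.255 * (‖sl c i‖ * ‖sl c (i + 1)‖) := by positivity
    linarith [B' i]
  · intro i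
    have : 0 ≤ 0.255 * (‖sl c i‖ * ‖sl c (i + 2)‖) := by positivity
    linarith [C' i]
  · exact fun i => fact_d1 hD hD1 (s0 i) (s1 i) (s2 i) (s3 i) (s4 i) (F i)
  · exact fun i => fact_d2 hD hD1 (s0 i) (s1 i) (s2 i) (s3 i) (s4 i) (F i)
  · exact fun i => fact_d3 hD hD1 (s0 i) (s1 i) (s2 i) (s3 i) (s4 i) (F i)
  · exact (A 0).2.2.2
  · apply sym_ne
    · intro i j h
      have e : cr (sl c j) (sl c i) = -cr (sl c i) (sl c j) := by simp only [cr]; ring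
      rw [e, abs_neg, mul_comm ‖sl c j‖]; exact h
    · intro i; exact lt_of_lt_of_le (B' i) (le_abs_self _)
    · intro i; exact lt_of_lt_of_le (C' i) (le_abs_self _)
  · apply sym_ne
    · intro i j h; linarith
    · intro i; rw [l1]; exact (A i).2.1
    · intro i; rw [l2]; exact (A i).2.2.1
  · intro i
    have h1 := (A i).1.1
    have h2 : dt (sl c i) (sl c i) = ‖sl c i‖ ^ 2 := by
      rw [norm_sq_eq]; simp only [dt]; ring
    have h3 : 0 < ‖sl c i‖ := by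
      show 0 < ‖c (i + 1) - c i‖
      linarith
    rw [h2]; positivity

lemma sl_cont (i : Fin 5) : Continuous (fun c : Fin 5 → ℂ => sl c i) := by
  unfold sl
  exact (continuous_apply _).sub (continuous_apply _)

lemma cr_cont {X : Type*} [TopologicalSpace X] {f g : X → ℂ} (hf : Continuous f)
    (hg : Continuous g) : Continuous (fun x => cr (f x) (g x)) := by
  unfold cr; fun_prop

lemma dt_cont {X : Type*} [TopologicalSpace X] {f g : X → ℂ} (hf : Continuous f)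
    (hg : Continuous g) : Continuous (fun x => dt (f x) (g x)) := by
  unfold dt; fun_prop

lemma Fc_cont (D : ℝ) : Continuous (Fc D) := by
  have h := GG_continuous D
  unfold Fc F0 cr
  fun_prop

lemma ev_lt {X : Type*} [TopologicalSpace X] {f g : X → ℝ} (hf : Continuous f)
    (hg : Continuous g) {x : X} (h : f x < g x) : ∀ᶠ y in 𝓝 x, f y < g y :=
  hf.continuousAt.eventually_lt hg.continuousAt h

lemma Near_ev {D : ℝ} {c : Fin 5 → ℂ} (h : Crit D c) : ∀ᶠ d in 𝓝 c, Near D d := by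
  have a1 : ∀ᶠ d in 𝓝 c, ∀ i, 0.472 < ‖sl d i‖ / 2 :=
    eventually_all.mpr fun i => ev_lt continuous_const ((sl_cont i).norm.div_const 2) (h.rg i).1
  have a2 : ∀ᶠ d in 𝓝 c, ∀ i, ‖sl d i‖ / 2 < 0.748 :=
    eventually_all.mpr fun i => ev_lt ((sl_cont i).norm.div_const 2) continuous_const (h.rg i).2
  have a3 : ∀ᶠ d in 𝓝 c, ∀ i, 0 < cr (sl d i) (sl d (i + 1)) :=
    eventually_all.mpr fun i => ev_lt continuous_const (cr_cont (sl_cont _) (sl_cont _)) (h.c1 i)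
  have a4 : ∀ᶠ d in 𝓝 c, ∀ i, 0 < cr (sl d i) (sl d (i + 2)) :=
    eventually_all.mpr fun i => ev_lt continuous_const (cr_cont (sl_cont _) (sl_cont _)) (h.c2 i)
  have cc : ∀ i j : Fin 5, Continuous (fun d : Fin 5 → ℂ => d i - d j) := fun i j =>
    (continuous_apply _).sub (continuous_apply _)
  have a5 : ∀ᶠ d in 𝓝 c, ∀ i, 0 < dt (d (i + 2) - d i) (d (i + 2) - d (i + 1)) :=
    eventually_all.mpr fun i => ev_lt continuous_const (dt_cont (cc _ _) (cc _ _)) (h.d1 i)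
  have a6 : ∀ᶠ d in 𝓝 c, ∀ i, 0 < dt (d (i + 4) - d i) (d (i + 4) - d (i + 1)) :=
    eventually_all.mpr fun i => ev_lt continuous_const (dt_cont (cc _ _) (cc _ _)) (h.d2 i)
  have a7 : ∀ᶠ d in 𝓝 c, ∀ i, 0 < dt (d (i + 3) - d i) (d (i + 3) - d (i + 1)) :=
    eventually_all.mpr fun i => ev_lt continuous_const (dt_cont (cc _ _) (cc _ _)) (h.d3 i)
  have a8 : ∀ᶠ d in 𝓝 c, -0.0038 < Fc D d := ev_lt continuous_const (Fc_cont D) h.f
  filter_upwards [a1, a2, a3, a4, a5, a6, a7, a8] with d b1 b2 b3 b4 b5 b6 b7 b8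
  exact ⟨fun i => ⟨(b1 i).le, (b2 i).le⟩, b3, b4, b5, b6, b7, b8.le⟩

lemma Near2_ev {D : ℝ} {c : Fin 5 → ℂ} (h : Crit D c) :
    ∀ᶠ q : (Fin 5 → ℂ) × (Fin 5 → ℂ) in 𝓝 (c, c), Near2 q.1 q.2 := by
  have s1 : ∀ i, Continuous (fun q : (Fin 5 → ℂ) × (Fin 5 → ℂ) => sl q.1 i) := fun i =>
    (sl_cont i).comp continuous_fst
  have s2 : ∀ i, Continuous (fun q : (Fin 5 → ℂ) × (Fin 5 → ℂ) => sl q.2 i) := fun i =>
    (sl_cont i).comp continuous_snd
  have a1 : ∀ᶠ q : (Fin 5 → ℂ) × (Fin 5 → ℂ) in 𝓝 (c, c), ∀ i j, i ≠ j →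
      0.255 * (‖sl q.1 i‖ * ‖sl q.2 j‖) < |cr (sl q.1 i) (sl q.2 j)| := by
    refine eventually_all.mpr fun i => eventually_all.mpr fun j => ?_
    by_cases hij : i = j
    · exact Eventually.of_forall fun q hne => absurd hij hne
    · filter_upwards [ev_lt (continuous_const.mul ((s1 i).norm.mul (s2 j).norm))
        (cr_cont (s1 i) (s2 j)).abs (h.cross i j hij)] with q hq _
      exact hq
  have a2 : ∀ᶠ q : (Fin 5 → ℂ) × (Fin 5 → ℂ) in 𝓝 (c, c), ∀ i j, i ≠ j →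
      (‖sl q.1 i‖ / 2 - 0.61) ^ 2 + (‖sl q.2 j‖ / 2 - 0.61) ^ 2 < 0.0189 := by
    refine eventually_all.mpr fun i => eventually_all.mpr fun j => ?_
    by_cases hij : i = j
    · exact Eventually.of_forall fun q hne => absurd hij hne
    · filter_upwards [ev_lt (((((s1 i).norm.div_const 2).sub continuous_const).pow 2).add
        ((((s2 j).norm.div_const 2).sub continuous_const).pow 2)) continuous_const
        (h.pr i j hij)] with q hq _
      exact hq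
  have a3 : ∀ᶠ q : (Fin 5 → ℂ) × (Fin 5 → ℂ) in 𝓝 (c, c), ∀ i, 0 < dt (sl q.1 i) (sl q.2 i) :=
    eventually_all.mpr fun i => ev_lt continuous_const (dt_cont (s1 i) (s2 i)) (h.dtp i)
  filter_upwards [a1, a2, a3] with q b1 b2 b3
  exact ⟨fun i j hij => (b1 i j hij).le, fun i j hij => (b2 i j hij).le, b3⟩

lemma Near_trans {D : ℝ} {c : Fin 5 → ℂ} {t : ℂ} (h : Near D (fun i => c i - t)) : Near D c := by
  have hs := sl_trans c t
  obtain ⟨h1, h2, h3, h4, h5, h6, h7⟩ := h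
  rw [hs] at h1 h2 h3
  simp only [sub_sub_sub_cancel_right] at h4 h5 h6
  refine ⟨h1, h2, h3, h4, h5, h6, ?_⟩
  have := Fc_trans D c t
  unfold Fc at this
  rw [← this]; exact h7

lemma Near2_trans {c c' : Fin 5 → ℂ} {t t' : ℂ}
    (h : Near2 (fun i => c i - t) (fun i => c' i - t')) : Near2 c c' := by
  obtain ⟨h1, h2, h3⟩ := h
  rw [sl_trans, sl_trans] at h1 h2 h3
  exact ⟨h1, h2, h3⟩

end FT58
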