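import Pool.Agent.Lib.MP_49fa77_co.Cert5
import Pool.Agent.Lib.MP_49fa77_co.Num

/-!
# Numerical estimates for `n = 5`
-/

namespace FT58

open Real


lemma sin_cos_one : |cos 1 - 21785 / 40320| ≤ 1 / 1000000 ∧ |sin 1 - 305353 / 362880| ≤ 1 / 1000000 := by
  have h := Complex.exp_bound (x := Complex.I) (by simp) (n := 10) (by norm_num)
  have e1 : Complex.exp Complex.I = Complex.cos 1 + Complex.sin 1 * Complex.I := by
    rw [← Complex.exp_mul_I]; simp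
  have e2 : ∑ m ∈ Finset.range 10, Complex.I ^ m / (Nat.factorial m : ℂ)
      = ((21785 / 40320 : ℝ) : ℂ) + ((305353 / 362880 : ℝ) : ℂ) * Complex.I := by
    have i2 : Complex.I ^ 2 = -1 := Complex.I_sq
    have i3 : Complex.I ^ 3 = -Complex.I := by rw [pow_succ, i2]; ring
    have i4 : Complex.I ^ 4 = 1 := Complex.I_pow_four
    have i5 : Complex.I ^ 5 = Complex.I := by rw [pow_succ, i4]; ring
    have i6 : Complex.I ^ 6 = -1 := by rw [pow_succ, i5]; simp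
    have i7 : Complex.I ^ 7 = -Complex.I := by rw [pow_succ, i6]; ring
    have i8 : Complex.I ^ 8 = 1 := by rw [pow_succ, i7]; simp
    have i9 : Complex.I ^ 9 = Complex.I := by rw [pow_succ, i8]; ring
    simp only [Finset.sum_range_succ, Finset.sum_range_zero, i2, i3, i4, i5, i6, i7, i8, i9,
      Nat.factorial]
    push_cast
    ring
  rw [e1, e2] at h
  have e3 : (Complex.cos 1 + Complex.sin 1 * Complex.I
      - (((21785 / 40320 : ℝ) : ℂ) + ((305353 / 362880 : ℝ) : ℂ) * Complex.I))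
      = ((cos 1 - 21785 / 40320 : ℝ) : ℂ) + ((sin 1 - 305353 / 362880 : ℝ) : ℂ) * Complex.I := by
    push_cast
    ring
  rw [e3] at h
  set z : ℂ := ((cos 1 - 21785 / 40320 : ℝ) : ℂ) + ((sin 1 - 305353 / 362880 : ℝ) : ℂ) * Complex.I
    with hz
  have r1 : z.re = cos 1 - 21785 / 40320 := by
    rw [hz, Complex.add_re, Complex.ofReal_re, Complex.re_ofReal_mul, Complex.I_re]; ring
  have r2 : z.im = sin 1 - 305353 / 362880 := by
    rw [hz, Complex.add_im, Complex.ofReal_im, Complex.im_ofReal_mul, Complex.I_im]; ring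
  have hb : ‖z‖ ≤ 1 / 1000000 := by
    refine h.trans ?_
    norm_num [Nat.factorial]
  constructor
  · rw [← r1]; exact (Complex.abs_re_le_norm z).trans hb
  · rw [← r2]; exact (Complex.abs_im_le_norm z).trans hb

lemma D5_lower {D : ℝ} (hmax : ∀ b, 0 ≤ b → b ≤ 1 → gdens 5 b ≤ D) : 0.96299 ≤ D := by
  obtain ⟨hc, hs⟩ := sin_cos_one
  rw [abs_le] at hc hs
  have h2 := pi_gt_three
  have hs0 : 0 ≤ sin (1 / 2) := sin_nonneg_of_nonneg_of_le_pi (by norm_num) (by linarith)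
  have hs1 : sin (1 / 2) ≤ 1 := sin_le_one _
  have h := hmax (sin (1 / 2)) hs0 hs1
  refine le_trans ?_ h
  have hcos0 : 0 ≤ cos (1 / 2) := cos_nonneg_of_mem_Icc ⟨by linarith, by linarith⟩
  have hCa : Ca (sin (1 / 2)) = 1 / 2 + sin 1 / 2 := by
    unfold Ca
    rw [arcsin_sin (by linarith) (by linarith)]
    have : √(1 - sin (1 / 2) ^ 2) = cos (1 / 2) := by
      rw [← cos_sq', sqrt_sq hcos0]
    rw [this]
    have h1 : sin 1 = 2 * sin (1 / 2) * cos (1 / 2) := by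
      rw [← sin_two_mul]; norm_num
    rw [h1]; ring
  have hsq : sin (1 / 2) ^ 2 = (1 - cos 1) / 2 := by
    have h1 : cos 1 = 2 * cos (1 / 2) ^ 2 - 1 := by
      rw [← cos_two_mul]; norm_num
    have h3 := sin_sq_add_cos_sq (1 / 2 : ℝ)
    linarith
  have hAr0 := Ar_nonneg hs0
  have hAr : Ar (sin (1 / 2)) ≤ 0.930896 := by
    have h1 : Ar (sin (1 / 2)) ^ 2 = (1 - cos 1) / 2 * (4 - (1 - cos 1) / 2) := by
      unfold Ar
      rw [mul_pow, sq_sqrt (by nlinarith), hsq]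
    have h3 : Ar (sin (1 / 2)) ^ 2 ≤ 0.930896 ^ 2 := by
      rw [h1]; nlinarith
    exact abs_le_of_sq_le_sq' h3 (by norm_num) |>.2
  unfold gdens
  rw [hCa, le_div_iff₀ (by have := sqrt3_pos; push_cast; linarith)]
  have h3' := sqrt3_lt
  have hp := pi_gt_d6
  push_cast
  linarith


lemma tan5 {a t : ℝ} (ha : 0 ≤ a) (ht : 0 ≤ t) : 5 * t ^ 4 * a - 4 * t ^ 5 ≤ a ^ 5 := by
  have : a ^ 5 - (5 * t ^ 4 * a - 4 * t ^ 5)
      = (a - t) ^ 2 * (a ^ 3 + 2 * t * a ^ 2 + 3 * t ^ 2 * a + 4 * t ^ 3) := by ring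
  have h : 0 ≤ (a - t) ^ 2 * (a ^ 3 + 2 * t * a ^ 2 + 3 * t ^ 2 * a + 4 * t ^ 3) := by positivity
  linarith

lemma tan7 {a t : ℝ} (ha : 0 ≤ a) (ht : 0 ≤ t) : 7 * t ^ 6 * a - 6 * t ^ 7 ≤ a ^ 7 := by
  have : a ^ 7 - (7 * t ^ 6 * a - 6 * t ^ 7)
      = (a - t) ^ 2 * (a ^ 5 + 2 * t * a ^ 4 + 3 * t ^ 2 * a ^ 3 + 4 * t ^ 3 * a ^ 2
              + 5 * t ^ 4 * a + 6 * t ^ 5) := by ring
  have h : 0 ≤ (a - t) ^ 2 * (a ^ 5 + 2 * t * a ^ 4 + 3 * t ^ 2 * a ^ 3 + 4 * t ^ 3 * a ^ 2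
              + 5 * t ^ 4 * a + 6 * t ^ 5) := by positivity
  linarith

lemma tan9 {a t : ℝ} (ha : 0 ≤ a) (ht : 0 ≤ t) : 9 * t ^ 8 * a - 8 * t ^ 9 ≤ a ^ 9 := by
  have : a ^ 9 - (9 * t ^ 8 * a - 8 * t ^ 9)
      = (a - t) ^ 2 * (a ^ 7 + 2 * t * a ^ 6 + 3 * t ^ 2 * a ^ 5 + 4 * t ^ 3 * a ^ 4
              + 5 * t ^ 4 * a ^ 3 + 6 * t ^ 5 * a ^ 2 + 7 * t ^ 6 * a + 8 * t ^ 7) := by ring
  have h : 0 ≤ (a - t) ^ 2 * (a ^ 7 + 2 * t * a ^ 6 + 3 * t ^ 2 * a ^ 5 + 4 * t ^ 3 * a ^ 4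
              + 5 * t ^ 4 * a ^ 3 + 6 * t ^ 5 * a ^ 2 + 7 * t ^ 6 * a + 8 * t ^ 7) := by positivity
  linarith

lemma kap0 : 0.09715 ≤ 0.96299 * √3 - π / 2 := by
  have p1 := pi_lt_d6
  have p2 := sqrt3_gt
  linarith

/-- general form of the estimates for `n = 5`. -/
lemma est5 {D a c e r : ℝ} (h0 : 0 ≤ a) (h1 : a ≤ 1) (hD : 0.96299 ≤ D) (_hD1 : D ≤ 1)
    (hc : 0 ≤ c) (he : 0 ≤ e)
    (hpoly : 0.03701 * (2 * a - a ^ 3 / 4 - a ^ 5 / 64 + e * a ^ 2) ≤ r + c * 0.09715 + Pa a) :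
    0 ≤ r + c * kap D + GG D a - (1 - D) * (e * a ^ 2) := by
  have h2 := Delta_lower h0 h1
  have h3 := Ar_upper h0 h1
  have h4 := Ar_nonneg h0
  rw [GG_eq]
  have h5 : (1 - D) * (Ar a + e * a ^ 2) ≤ 0.03701 * (2 * a - a ^ 3 / 4 - a ^ 5 / 64 + e * a ^ 2) := by
    have : 0 ≤ e * a ^ 2 := by positivity
    calc (1 - D) * (Ar a + e * a ^ 2) ≤ 0.03701 * (Ar a + e * a ^ 2) := by
          apply mul_le_mul_of_nonneg_right _ (by linarith); linarith
      _ ≤ _ := by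
          apply mul_le_mul_of_nonneg_left _ (by linarith); linarith
  have h6 : c * 0.09715 ≤ c * kap D := by
    apply mul_le_mul_of_nonneg_left _ hc
    unfold kap
    have := sqrt3_pos
    have := kap0
    nlinarith
  nlinarith

lemma W5 {D a : ℝ} (hD : 0.96299 ≤ D) (hD1 : D ≤ 1) (h0 : 0 < a) (h1 : a < 1) :
    0 ≤ kap D / 3 + GG D a - (1 - D) * a ^ 2 / √3 := by
  have h := est5 (c := 1 / 3) (e := 1 / √3) (r := 0) h0.le h1.le hD hD1 (by norm_num)
    (by positivity) (by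
      have p3 := inv_sqrt3_lt
      have q1 : 1 / √3 * a ^ 2 ≤ 0.57736 * a ^ 2 := by gcongr
      have e5 := tan5 (t := 0.55) h0.le (by norm_num)
      have e7 := tan7 (t := 0.55) h0.le (by norm_num)
      have e9 := tan9 (t := 0.55) h0.le (by norm_num)
      unfold Pa
      nlinarith [mul_nonneg h0.le (sq_nonneg (a - 0.53)), sq_nonneg (a - 0.53)])
  have e : (1 - D) * (1 / √3 * a ^ 2) = (1 - D) * a ^ 2 / √3 := by ring
  rw [e] at h
  linarith

lemma Q5 {D a : ℝ} (hD : 0.96299 ≤ D) (hD1 : D ≤ 1) (h0 : 0 < a) (h1 : a < 1) :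
    0 ≤ 3 * kap D / 8 + GG D a - (1 - D) * a ^ 2 := by
  have h := est5 (c := 3 / 8) (e := 1) (r := 0) h0.le h1.le hD hD1 (by norm_num)
    (by norm_num) (by
      have e5 := tan5 (t := 0.58) h0.le (by norm_num)
      have e7 := tan7 (t := 0.58) h0.le (by norm_num)
      have e9 := tan9 (t := 0.58) h0.le (by norm_num)
      unfold Pa
      nlinarith [mul_nonneg h0.le (sq_nonneg (a - 0.58)), sq_nonneg (a - 0.58)])
  linarith

/-- the share of a side of a pentagon -/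
noncomputable def ps (D a : ℝ) : ℝ := 2 / 5 * kap D + GG D a - (1 - D) * (1.3764 * a ^ 2)

lemma ps_ge {D a : ℝ} (hD : 0.96299 ≤ D) (hD1 : D ≤ 1) (h0 : 0 < a) (h1 : a < 1) :
    -0.00074 ≤ ps D a := by
  have h := est5 (c := 2 / 5) (e := 1.3764) (r := 0.00074) h0.le h1.le hD hD1 (by norm_num)
    (by norm_num) (by
      have e5 := tan5 (t := 0.61) h0.le (by norm_num)
      have e7 := tan7 (t := 0.61) h0.le (by norm_num)
      have e9 := tan9 (t := 0.61) h0.le (by norm_num)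
      unfold Pa
      nlinarith [mul_nonneg h0.le (sq_nonneg (a - 0.61)), sq_nonneg (a - 0.61)])
  unfold ps
  linarith


lemma ps_quad {D a : ℝ} (hD : 0.96299 ≤ D) (hD1 : D ≤ 1) (h0 : 0.45 ≤ a) (h1 : a < 1) :
    -0.00076 + 0.198 * (a - 0.61) ^ 2 ≤ ps D a := by
  have h := est5 (c := 2 / 5) (e := 1.3764) (r := 0.00076 - 0.198 * (a - 0.61) ^ 2)
    (by linarith) h1.le hD hD1 (by norm_num)
    (by norm_num) (by
      have hu : 0 ≤ a - 0.45 := by linarith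
      have b2 : 0 ≤ (a - 0.61) ^ 2 * (a - 0.45) ^ 2 := by positivity
      have b3 : 0 ≤ (a - 0.61) ^ 2 * (a - 0.45) ^ 3 := by positivity
      have b4 : 0 ≤ (a - 0.61) ^ 2 * (a - 0.45) ^ 4 := by positivity
      have b5 : 0 ≤ (a - 0.61) ^ 2 * (a - 0.45) ^ 5 := by positivity
      have b6 : 0 ≤ (a - 0.61) ^ 2 * (a - 0.45) ^ 6 := by positivity
      have b7 : 0 ≤ (a - 0.61) ^ 2 * (a - 0.45) ^ 7 := by positivity
      have c1 := mul_nonneg hu (sq_nonneg (a - 0.61 - 0.026))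
      have c2 := sq_nonneg (a - 0.61 - 0.02)
      unfold Pa
      nlinarith)
  unfold ps
  linarith

lemma ps_low {D a : ℝ} (hD : 0.96299 ≤ D) (hD1 : D ≤ 1) (h0 : 0 < a) (h1 : a ≤ 0.45) :
    0.003 ≤ ps D a := by
  have h := est5 (c := 2 / 5) (e := 1.3764) (r := -0.003) h0.le (by linarith) hD hD1 (by norm_num)
    (by norm_num) (by
      have e5 := tan5 (t := 0.45) h0.le (by norm_num)
      have e7 := tan7 (t := 0.45) h0.le (by norm_num)
      have e9 := tan9 (t := 0.45) h0.le (by norm_num)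
      unfold Pa
      nlinarith [mul_nonneg h0.le (sq_nonneg (a - 0.45)), sq_nonneg (a - 0.45), mul_nonneg h0.le (sub_nonneg.mpr h1)])
  unfold ps
  linarith

lemma N100 {D a : ℝ} (hD : 0.96299 ≤ D) (hD1 : D ≤ 1) (h0 : 0 < a) (h1 : a < 1) :
    0 ≤ 0.3568 * kap D + GG D a - (1 - D) * (1 * a ^ 2) := by
  have h := est5 (c := 0.3568) (e := 1) (r := 0) h0.le h1.le hD hD1 (by norm_num)
    (by norm_num) (by
      have e5 := tan5 (t := 0.576) h0.le (by norm_num)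
      have e7 := tan7 (t := 0.576) h0.le (by norm_num)
      have e9 := tan9 (t := 0.576) h0.le (by norm_num)
      unfold Pa
      nlinarith [mul_nonneg h0.le (sq_nonneg (a - 0.576)), sq_nonneg (a - 0.576)])
  linarith

lemma N133 {D a : ℝ} (hD : 0.96299 ≤ D) (hD1 : D ≤ 1) (h0 : 0 < a) (h1 : a < 1) :
    0 ≤ 0.401 * kap D + GG D a - (1 - D) * (1.33 * a ^ 2) := by
  have h := est5 (c := 0.401) (e := 1.33) (r := 0) h0.le h1.le hD hD1 (by norm_num)
    (by norm_num) (by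
      have e5 := tan5 (t := 0.608) h0.le (by norm_num)
      have e7 := tan7 (t := 0.608) h0.le (by norm_num)
      have e9 := tan9 (t := 0.608) h0.le (by norm_num)
      unfold Pa
      nlinarith [mul_nonneg h0.le (sq_nonneg (a - 0.608)), sq_nonneg (a - 0.608)])
  linarith

lemma N185 {D a : ℝ} (hD : 0.96299 ≤ D) (hD1 : D ≤ 1) (h0 : 0 < a) (h1 : a < 1) :
    0 ≤ 0.4808 * kap D + GG D a - (1 - D) * (1.85 * a ^ 2) := by
  have h := est5 (c := 0.4808) (e := 1.85) (r := 0) h0.le h1.le hD hD1 (by norm_num)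
    (by norm_num) (by
      have e5 := tan5 (t := 0.656) h0.le (by norm_num)
      have e7 := tan7 (t := 0.656) h0.le (by norm_num)
      have e9 := tan9 (t := 0.656) h0.le (by norm_num)
      unfold Pa
      nlinarith [mul_nonneg h0.le (sq_nonneg (a - 0.656)), sq_nonneg (a - 0.656)])
  linarith
end FT58
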