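import Pool.Agent.Lib.MP_49fa77_co.Pent2

/-!
# Two triangles with one short side on both sides of a long edge
-/

namespace FT58

open Real MeasureTheory Set

/-- comparison of two critical pentagons -/
structure Near2 (c c' : Fin 5 → ℂ) : Prop where
  cross : ∀ i j, i ≠ j → 0.255 * (‖sl c i‖ * ‖sl c' j‖) ≤ |cr (sl c i) (sl c' j)|
  pr : ∀ i j, i ≠ j → (‖sl c i‖ / 2 - 0.61) ^ 2 + (‖sl c' j‖ / 2 - 0.61) ^ 2 ≤ 0.0189
  dtp : ∀ i, 0 < dt (sl c i) (sl c' i)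

lemma pair_dt {e u u' : ℂ} {X Y : ℝ} (hX : 0 < X) (hY : 0 < Y)
    (hor : (X = cr e u ∧ Y = -cr e u') ∨ (X = -cr e u ∧ Y = cr e u'))
    (h1 : 0 < dt u e / X) (h2 : 0 < -dt u' e / Y) : dt u u' < 0 := by
  have p1 : 0 < dt u e := by
    by_contra hcon
    have := div_nonpos_of_nonpos_of_nonneg (not_lt.mp hcon) hX.le
    linarith
  have p2 : 0 < -dt u' e := by
    by_contra hcon
    have := div_nonpos_of_nonpos_of_nonneg (not_lt.mp hcon) hY.le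
    linarith
  have he : 0 < e.re ^ 2 + e.im ^ 2 := by
    rcases eq_or_ne e 0 with h | h
    · rw [h] at p1; simp [dt] at p1
    · have := norm_pos_iff.mpr h
      rw [← norm_sq_eq]; positivity
  have hXY : X * Y = -(cr e u * cr e u') := by
    rcases hor with ⟨h, h'⟩ | ⟨h, h'⟩ <;> rw [h, h'] <;> ring
  have e1 : -dt u u' * (e.re ^ 2 + e.im ^ 2) = dt u e * (-dt u' e) + X * Y := by
    rw [hXY]; simp only [dt, cr]; ring
  have h3 : 0 < -dt u u' * (e.re ^ 2 + e.im ^ 2) := by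
    rw [e1]; positivity
  have := (pos_iff_pos_of_mul_pos h3).mpr he
  linarith

lemma opp {D : ℝ} {C C' : Fin 5 → ℂ} (hN : Near D C) (hN' : Near D C') (hN2 : Near2 C C')
    {i j : Fin 5} {e u u' : ℂ} {X Y S₁ S₂ : ℝ} (hX : 0 < X) (hY : 0 < Y)
    (hor : (X = cr e u ∧ Y = -cr e u') ∨ (X = -cr e u ∧ Y = cr e u'))
    (hu : (u = sl C i ∧ u' = sl C' j) ∨ (u = -sl C i ∧ u' = -sl C' j))
    (hS1 : 0 ≤ S₁) (hS2 : 0 ≤ S₂) (hS : S₁ + S₂ ≤ 0.00395)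
    (t1 : (dt u e / X - ‖u‖ / 2 / √(4 - (‖u‖ / 2) ^ 2)) ^ 2 ≤ 2.56 * S₁)
    (t2 : (-dt u' e / Y - ‖u'‖ / 2 / √(4 - (‖u'‖ / 2) ^ 2)) ^ 2 ≤ 2.56 * S₂) : False := by
  have n1 : ‖u‖ = ‖sl C i‖ := by
    rcases hu with ⟨h, _⟩ | ⟨h, _⟩ <;> rw [h]
    rw [norm_neg]
  have n2 : ‖u'‖ = ‖sl C' j‖ := by
    rcases hu with ⟨_, h⟩ | ⟨_, h⟩ <;> rw [h]
    rw [norm_neg]
  have ed : dt u u' = dt (sl C i) (sl C' j) := by
    rcases hu with ⟨h, h'⟩ | ⟨h, h'⟩ <;> rw [h, h']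
    simp only [dt, Complex.neg_re, Complex.neg_im]; ring
  have ec : cr u u' = cr (sl C i) (sl C' j) := by
    rcases hu with ⟨h, h'⟩ | ⟨h, h'⟩ <;> rw [h, h']
    simp only [cr, Complex.neg_re, Complex.neg_im]; ring
  have r1 := hN.rg i
  have r2 := hN'.rg j
  rw [← n1] at r1
  rw [← n2] at r2
  have p1 := tight_pos r1.1 r1.2 (by linarith) t1
  have p2 := tight_pos r2.1 r2.2 (by linarith) t2
  by_cases hij : i = j
  · subst hij
    have h1 := pair_dt hX hY hor p1 p2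
    have h2 := hN2.dtp i
    rw [ed] at h1
    linarith
  · have h3 := hN2.pr i j hij
    rw [← n1, ← n2] at h3
    have h4 := pair_num r1.1 r1.2 r2.1 r2.2 h3 hS1 hS2 hS t1 t2
    have h5 := pair_core hX hY hor p1 p2 h4
    have h6 := hN2.cross i j hij
    rw [ec, n1, n2] at h5
    linarith [h5.2]

lemma fan {e u u' : ℂ} (h1 : 0 < dt e u) (h2 : 0 < dt e u') (h3 : 0 < cr e u) (h4 : cr e u' < 0)
    (h5 : 0 < cr u u') : False := by
  have e1 : cr u u' * (e.re ^ 2 + e.im ^ 2) = dt e u * cr e u' - cr e u * dt e u' := by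
    simp only [dt, cr]; ring
  have h6 : 0 ≤ cr u u' * (e.re ^ 2 + e.im ^ 2) := by positivity
  have h7 : dt e u * cr e u' < 0 := mul_neg_of_pos_of_neg h1 h4
  have h8 : 0 < cr e u * dt e u' := mul_pos h3 h2
  linarith

/-- the configuration -/
structure Cf {J : Type*} (D : ℝ) (S : Finset ℂ) (cl : ℂ → J) (p : J → Fin 5 → ℂ)
    (Q : J → Finset ℂ) : Prop where
  gen : Gen S
  sep : ∀ x ∈ S, ∀ y ∈ S, cl x ≠ cl y → 2 ≤ ‖y - x‖
  memQ : ∀ j x, x ∈ Q j ↔ x ∈ S ∧ cl x = j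
  pc : ∀ x ∈ S, Pc D S (Q (cl x)) (p (cl x))
  n2 : ∀ x ∈ S, ∀ y ∈ S, Near2 (p (cl x)) (p (cl y))

/-- slack of a triangle with short side `a b` -/
noncomputable def SS (a b y : ℂ) : ℝ :=
  Uf (‖b - a‖ / 2) (π / 2 - an a b y) + qh (π / 2 - an b y a) + qh (π / 2 - an y a b)

namespace Cf
variable {J : Type*} {D : ℝ} {S : Finset ℂ} {cl : ℂ → J} {p : J → Fin 5 → ℂ} {Q : J → Finset ℂ}

lemma long (h : Cf D S cl p Q) {x y : ℂ} (hx : x ∈ S) (hy : y ∈ S) (hne : cl x ≠ cl y) :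
    ¬ Sh x y := by
  unfold Sh
  have := h.sep x hx y hy hne
  linarith

lemma same (h : Cf D S cl p Q) {x y : ℂ} (hx : x ∈ S) (hy : y ∈ S) (hs : Sh x y) :
    cl x = cl y := by
  by_contra hne
  exact h.long hx hy hne hs

lemma self (h : Cf D S cl p Q) {x : ℂ} (hx : x ∈ S) : x ∈ Q (cl x) := (h.memQ _ _).mpr ⟨hx, rfl⟩

/-- a triangle with two vertices in a cluster and the third outside: reversed side. -/
lemma T1_side (h : Cf D S cl p Q) {a b y : ℂ} (hT : Tr S a b y) (hab : cl a = cl b)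
    (hy : cl y ≠ cl a) : ∃ k, a = p (cl a) (k + 1) ∧ b = p (cl a) k := by
  have hP := h.pc a hT.1
  have ha := h.self hT.1
  have hb : b ∈ Q (cl a) := (h.memQ _ _).mpr ⟨hT.2.1, hab.symm⟩
  apply (hP.out_iff h.gen a b ha hb).mp
  refine ⟨⟨(Tr_ne hT).1, Tr_Ed hT⟩, ?_⟩
  rintro ⟨r, hr⟩
  have h1 := hP.trS h.gen hr
  have h2 := Tr_unique h1 hT
  subst h2
  exact hy ((h.memQ _ _).mp hr.2.2.1).2

lemma SS_nonneg (h : Cf D S cl p Q) {a b y : ℂ} (hT : Tr S a b y) (hab : Sh a b)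
    (hy : cl y ≠ cl a) : 0 ≤ SS a b y := by
  have e := h.same hT.1 hT.2.1 hab
  obtain ⟨d1, d2, d3, d4, d5, d6, d7, d8⟩ := case1_data hT hab
    (h.long hT.2.1 hT.2.2.1 (fun e' => hy (by rw [← e', e])))
    (h.long hT.2.2.1 hT.1 hy)
  exact T1 (a := ‖b - a‖ / 2) (ω₂ := π / 2 - an b y a) (ω₃ := π / 2 - an y a b)
    d1 d2 d3 d4 (by linarith) (by linarith) (by linarith)

lemma SS_val (h : Cf D S cl p Q) {a b y : ℂ} (hT : Tr S a b y) (hab : Sh a b)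
    (hy : cl y ≠ cl a) :
    val2 D S a b + val2 D S b y + val2 D S y a = gg D (‖b - a‖ / 2) + D * SS a b y := by
  have e := h.same hT.1 hT.2.1 hab
  have h2 := h.long hT.2.1 hT.2.2.1 (fun e' => hy (by rw [← e', e]))
  have h3 := h.long hT.2.2.1 hT.1 hy
  obtain ⟨d1, d2, d3, d4, d5, d6, d7, d8⟩ := case1_data hT hab h2 h3
  obtain ⟨a1, a2, a3⟩ := Tr_al3 hT
  unfold val2 v2 SS
  rw [if_pos hab, if_neg h2, if_neg h3, a1, a2, a3, d8]
  ring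

lemma SS_tight (h : Cf D S cl p Q) {a b y : ℂ} (hT : Tr S a b y) (hab : Sh a b)
    (hy : cl y ≠ cl a) (hS : SS a b y < 0.00395) :
    (dt (b - a) (y - a) / XX a b y - ‖b - a‖ / 2 / √(4 - (‖b - a‖ / 2) ^ 2)) ^ 2
      ≤ 2.56 * SS a b y ∧
    (dt (y - b) (a - b) / XX a b y - ‖b - a‖ / 2 / √(4 - (‖b - a‖ / 2) ^ 2)) ^ 2
      ≤ 2.56 * SS a b y := by
  have e := h.same hT.1 hT.2.1 hab
  obtain ⟨d1, d2, d3, d4, d5, d6, d7, d8⟩ := case1_data hT hab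
    (h.long hT.2.1 hT.2.2.1 (fun e' => hy (by rw [← e', e])))
    (h.long hT.2.2.1 hT.1 hy)
  obtain ⟨k, hk1, hk2⟩ := h.T1_side hT e hy
  have hr := (h.pc a hT.1).nr.rg k
  have hn : ‖b - a‖ = ‖sl (p (cl a)) k‖ := by
    unfold sl
    rw [← hk1, ← hk2, norm_sub_rev]
  rw [← hn] at hr
  have t := T1_slack (ω₂ := π / 2 - an b y a) (ω₃ := π / 2 - an y a b) hr.1 hr.2
    d3 d4 (by linarith) (by linarith) (by linarith) hS
  have e1 : tan (π / 2 - an b y a) = dt (b - a) (y - a) / XX a b y := by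
    rw [← att_eq]
    unfold att
    rw [tan_arctan, XX_cyc]
    rfl
  have e2 : tan (π / 2 - an y a b) = dt (y - b) (a - b) / XX a b y := by
    rw [← att_eq]
    unfold att
    rw [tan_arctan, XX_cyc, XX_cyc]
    rfl
  rw [e1, e2] at t
  exact t

end Cf

end FT58
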