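import Pool.Agent.Lib.MP_49fa77_co.Slack

/-!
# Two nearly tight triangles on both sides of a long edge
-/

namespace FT58

open Real

lemma tight_bounds {a : ℝ} (h0 : 0.472 ≤ a) (h1 : a ≤ 0.748) :
    a / √(4 - a ^ 2) ≤ 0.3206 + 0.579 * (a - 0.61) + 0.17 * (a - 0.61) ^ 2 ∧
    0.3199 + 0.579 * (a - 0.61) + 0.12 * (a - 0.61) ^ 2 ≤ a / √(4 - a ^ 2) ∧
    0.2426 ≤ a / √(4 - a ^ 2) := by
  have hy2 : √(4 - a ^ 2) ^ 2 = 4 - a ^ 2 := sq_sqrt (by nlinarith)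
  have hy0 : 0 < √(4 - a ^ 2) := sqrt_pos.mpr (by nlinarith)
  set y := √(4 - a ^ 2) with hy
  obtain ⟨u, hu⟩ : ∃ u, a = 0.61 + u := ⟨a - 0.61, by ring⟩
  have u0 : -0.138 ≤ u := by linarith
  have u1 : u ≤ 0.138 := by linarith
  have e : a - 0.61 = u := by linarith
  rw [e]
  have huu : u ^ 2 ≤ 0.02 := by nlinarith
  refine ⟨?_, ?_, ?_⟩
  · have hq : 0 < 0.3206 + 0.579 * u + 0.17 * u ^ 2 := by nlinarith
    rw [div_le_iff₀ hy0]
    apply abs_le_of_sq_le_sq' _ (by positivity) |>.2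
    rw [mul_pow, hy2, hu]
    nlinarith [mul_nonneg (by linarith : 0 ≤ u + 0.138) (sq_nonneg u), mul_nonneg (by linarith : 0 ≤ 0.138 - u) (sq_nonneg u),
      sq_nonneg (u ^ 2), sq_nonneg (u ^ 3), sq_nonneg (u * (u + 0.1))]
  · rw [le_div_iff₀ hy0]
    apply abs_le_of_sq_le_sq' _ (by linarith) |>.2
    rw [mul_pow, hy2, hu]
    nlinarith [mul_nonneg (by linarith : 0 ≤ u + 0.138) (sq_nonneg u), mul_nonneg (by linarith : 0 ≤ 0.138 - u) (sq_nonneg u),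
      sq_nonneg (u ^ 2), sq_nonneg (u ^ 3), sq_nonneg (u * (u + 0.1))]
  · rw [le_div_iff₀ hy0]
    apply abs_le_of_sq_le_sq' _ (by linarith) |>.2
    rw [mul_pow, hy2]
    nlinarith


lemma pair_num_aux {a b S₁ S₂ T₁ T₂ : ℝ} (ha0 : 0.472 ≤ a) (ha1 : a ≤ 0.748) (hb0 : 0.472 ≤ b)
    (hb1 : b ≤ 0.748) (hab : (a - 0.61) ^ 2 + (b - 0.61) ^ 2 ≤ 0.0189)
    (hS1 : 0 ≤ S₁) (hS2 : 0 ≤ S₂) (hS : S₁ + S₂ ≤ 0.00395)
    (h1 : (T₁ - a / √(4 - a ^ 2)) ^ 2 ≤ 2.56 * S₁) (h2 : (T₂ - b / √(4 - b ^ 2)) ^ 2 ≤ 2.56 * S₂) :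
    0 < T₁ ∧ 0 < T₂ ∧ T₁ - T₂ < 0.255 * (1 + T₁ * T₂) := by
  obtain ⟨a1, a2, a3⟩ := tight_bounds ha0 ha1
  obtain ⟨b1, b2, b3⟩ := tight_bounds hb0 hb1
  set f := a / √(4 - a ^ 2) with hf
  set g := b / √(4 - b ^ 2) with hg
  set x := |T₁ - f| with hx
  set z := |T₂ - g| with hz
  have hx2 : x ^ 2 ≤ 2.56 * S₁ := by rw [hx, sq_abs]; exact h1
  have hz2 : z ^ 2 ≤ 2.56 * S₂ := by rw [hz, sq_abs]; exact h2
  have hx0 : 0 ≤ x := abs_nonneg _
  have hz0 : 0 ≤ z := abs_nonneg _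
  have hx1 : x ≤ 0.1006 := by
    apply abs_le_of_sq_le_sq' _ (by norm_num) |>.2
    linarith
  have hz1 : z ≤ 0.1006 := by
    apply abs_le_of_sq_le_sq' _ (by norm_num) |>.2
    linarith
  have hxz : x + z ≤ 0.14223 := by
    apply abs_le_of_sq_le_sq' _ (by norm_num) |>.2
    nlinarith [sq_nonneg (x - z)]
  have hT1 := abs_le.mp (le_refl |T₁ - f|)
  have hT2 := abs_le.mp (le_refl |T₂ - g|)
  rw [← hx] at hT1
  rw [← hz] at hT2
  have t1 : f - x ≤ T₁ := by linarith [hT1.1]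
  have t1' : T₁ ≤ f + x := by linarith [hT1.2]
  have t2 : g - z ≤ T₂ := by linarith [hT2.1]
  have hd : f - g ≤ 0.117 := by
    have h4 := sq_nonneg (b - 0.61)
    have : f - g ≤ 0.0007 + 0.579 * ((a - 0.61) - (b - 0.61)) + 0.17 * (a - 0.61) ^ 2
      - 0.12 * (b - 0.61) ^ 2 := by linarith
    have h3 : (a - 0.61) - (b - 0.61) ≤ 0.1945 := by
      set u := a - 0.61
      set w := b - 0.61
      have q1 : (u - w) ^ 2 + (u + w) ^ 2 ≤ 0.0378 := by nlinarith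
      apply abs_le_of_sq_le_sq' _ (by norm_num) |>.2
      nlinarith [sq_nonneg (u + w)]
    linarith
  refine ⟨by linarith, by linarith, ?_⟩
  have p1 : 0.142 ≤ f - x := by linarith
  have p2 : 0.142 ≤ g - z := by linarith
  have hprod : 0.0284 ≤ T₁ * T₂ := by
    have q1 : (0.2426 - x) * (0.2426 - z) ≤ T₁ * T₂ := by
      have r1 : 0.2426 - x ≤ T₁ := by linarith
      have r2 : 0.2426 - z ≤ T₂ := by linarith
      exact mul_le_mul r1 r2 (by linarith) (by linarith)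
    have q2 : 0.0284 ≤ (0.2426 - x) * (0.2426 - z) := by
      nlinarith [mul_nonneg hx0 hz0, mul_nonneg (sub_nonneg.mpr hx1) (sub_nonneg.mpr hz1)]
    linarith
  linarith

lemma pair_num {a b S₁ S₂ T₁ T₂ : ℝ} (ha0 : 0.472 ≤ a) (ha1 : a ≤ 0.748) (hb0 : 0.472 ≤ b)
    (hb1 : b ≤ 0.748) (hab : (a - 0.61) ^ 2 + (b - 0.61) ^ 2 ≤ 0.0189)
    (hS1 : 0 ≤ S₁) (hS2 : 0 ≤ S₂) (hS : S₁ + S₂ ≤ 0.00395)
    (h1 : (T₁ - a / √(4 - a ^ 2)) ^ 2 ≤ 2.56 * S₁) (h2 : (T₂ - b / √(4 - b ^ 2)) ^ 2 ≤ 2.56 * S₂) :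
    |T₁ - T₂| < 0.255 * (1 + T₁ * T₂) := by
  have k1 := (pair_num_aux ha0 ha1 hb0 hb1 hab hS1 hS2 hS h1 h2).2.2
  have k2 := (pair_num_aux hb0 hb1 ha0 ha1 (by linarith) hS2 hS1 (by linarith) h2 h1).2.2
  rw [abs_lt]
  constructor
  · rw [mul_comm T₂ T₁] at k2; linarith
  · exact k1

/-- positivity of a nearly tight cotangent -/
lemma tight_pos {a S T : ℝ} (ha0 : 0.472 ≤ a) (ha1 : a ≤ 0.748) (hS : S ≤ 0.00395)
    (h1 : (T - a / √(4 - a ^ 2)) ^ 2 ≤ 2.56 * S) : 0 < T := by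
  obtain ⟨a1, a2, a3⟩ := tight_bounds ha0 ha1
  set f := a / √(4 - a ^ 2) with hf
  have hx1 : |T - f| ≤ 0.1006 := by
    apply abs_le_of_sq_le_sq _ (by norm_num)
    linarith
  rw [abs_le] at hx1
  linarith [hx1.1]

/-- algebraic core: two triangles on both sides of `e`. -/
lemma pair_core {e u u' : ℂ} {X Y : ℝ} (hX : 0 < X) (hY : 0 < Y)
    (hor : (X = cr e u ∧ Y = -cr e u') ∨ (X = -cr e u ∧ Y = cr e u'))
    (h1 : 0 < dt u e / X) (h2 : 0 < -dt u' e / Y)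
    (hn : |dt u e / X - -dt u' e / Y| < 0.255 * (1 + dt u e / X * (-dt u' e / Y))) :
    dt u u' < 0 ∧ |cr u u'| < 0.255 * (‖u‖ * ‖u'‖) := by
  have p1 : 0 < dt u e := by
    by_contra hcon
    have := div_nonpos_of_nonpos_of_nonneg (not_lt.mp hcon) hX.le
    linarith
  have p2 : 0 < -dt u' e := by
    by_contra hcon
    have := div_nonpos_of_nonpos_of_nonneg (not_lt.mp hcon) hY.le
    linarith
  have he : 0 < e.re ^ 2 + e.im ^ 2 := by
    rcases eq_or_ne e 0 with h | h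
    · rw [h] at p1; simp [dt] at p1
    · have := norm_pos_iff.mpr h
      rw [← norm_sq_eq]; positivity
  set p := dt u e with hp
  set q := -dt u' e with hq
  have hXY : X * Y = -(cr e u * cr e u') := by
    rcases hor with ⟨h, h'⟩ | ⟨h, h'⟩ <;> rw [h, h'] <;> ring
  have e1 : -dt u u' * (e.re ^ 2 + e.im ^ 2) = p * q + X * Y := by
    rw [hXY, hp, hq]; simp only [dt, cr]; ring
  have e2 : |cr u u'| * (e.re ^ 2 + e.im ^ 2) = |p * Y - q * X| := by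
    rw [show |cr u u'| * (e.re ^ 2 + e.im ^ 2) = |cr u u' * (e.re ^ 2 + e.im ^ 2)| by
      rw [abs_mul, abs_of_pos he]]
    rcases hor with ⟨h, h'⟩ | ⟨h, h'⟩
    · have : cr u u' * (e.re ^ 2 + e.im ^ 2) = -(p * Y - q * X) := by
        rw [h, h', hp, hq]; simp only [dt, cr]; ring
      rw [this, abs_neg]
    · have : cr u u' * (e.re ^ 2 + e.im ^ 2) = (p * Y - q * X) := by
        rw [h, h', hp, hq]; simp only [dt, cr]; ring
      rw [this]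
  have hXYp : 0 < X * Y := mul_pos hX hY
  have e3 : |p / X - q / Y| * (X * Y) = |p * Y - q * X| := by
    rw [show |p / X - q / Y| * (X * Y) = |(p / X - q / Y) * (X * Y)| by
      rw [abs_mul, abs_of_pos hXYp]]
    congr 1
    field_simp
  have e4 : (1 + p / X * (q / Y)) * (X * Y) = p * q + X * Y := by
    field_simp; ring
  have h3 : |p * Y - q * X| < 0.255 * (p * q + X * Y) := by
    rw [← e3, ← e4]
    calc |p / X - q / Y| * (X * Y) < (0.255 * (1 + p / X * (q / Y))) * (X * Y) := by gcongr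
      _ = _ := by ring
  rw [← e2, ← e1] at h3
  have h4 : |cr u u'| < 0.255 * -dt u u' := by
    have : |cr u u'| * (e.re ^ 2 + e.im ^ 2) < (0.255 * -dt u u') * (e.re ^ 2 + e.im ^ 2) := by
      linarith
    exact lt_of_mul_lt_mul_right this he.le
  have h5 : -dt u u' ≤ ‖u‖ * ‖u'‖ := by
    have : (-dt u u') ^ 2 ≤ (‖u‖ * ‖u'‖) ^ 2 := by
      rw [mul_pow, norm_sq_eq, norm_sq_eq]
      simp only [dt]
      nlinarith [sq_nonneg (u.re * u'.im - u.im * u'.re)]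
    exact abs_le_of_sq_le_sq' this (by positivity) |>.2
  constructor
  · have := abs_nonneg (cr u u')
    linarith
  · linarith


end FT58
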