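import Pool.Agent.Lib.MP_49fa77_co.Pair

/-!
# Convex pentagonal clusters
-/

namespace FT58

open Real MeasureTheory Set

/-- side vectors of a closed pentagon -/
def sl (c : Fin 5 → ℂ) (i : Fin 5) : ℂ := c (i + 1) - c i

/-- the properties of the critical pentagons -/
structure Near (D : ℝ) (c : Fin 5 → ℂ) : Prop where
  rg : ∀ i, 0.472 ≤ ‖sl c i‖ / 2 ∧ ‖sl c i‖ / 2 ≤ 0.748
  c1 : ∀ i, 0 < cr (sl c i) (sl c (i + 1))
  c2 : ∀ i, 0 < cr (sl c i) (sl c (i + 2))
  d1 : ∀ i, 0 < dt (c (i + 2) - c i) (c (i + 2) - c (i + 1))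
  d2 : ∀ i, 0 < dt (c (i + 4) - c i) (c (i + 4) - c (i + 1))
  d3 : ∀ i, 0 < dt (c (i + 3) - c i) (c (i + 3) - c (i + 1))
  f : -0.0038 ≤ F0 D (c 0) (c 1) (c 2) (c 3) (c 4)

namespace Near
variable {D : ℝ} {c : Fin 5 → ℂ}

lemma X2 (h : Near D c) (i : Fin 5) : 0 < XX (c i) (c (i + 1)) (c (i + 2)) := by
  have h1 := h.c1 i
  have e : i + 1 + 1 = i + 2 := by rw [add_assoc]; rfl
  unfold sl at h1
  rw [e] at h1
  have : XX (c i) (c (i + 1)) (c (i + 2)) = cr (c (i + 1) - c i) (c (i + 2) - c (i + 1)) := by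
    simp only [XX, cr, Complex.sub_re, Complex.sub_im]; ring
  rw [this]; exact h1

lemma X3 (h : Near D c) (i : Fin 5) : 0 < XX (c i) (c (i + 1)) (c (i + 3)) := by
  have h1 := h.c1 i
  have h2 := h.c2 i
  have e : i + 1 + 1 = i + 2 := by rw [add_assoc]; rfl
  have e2 : i + 2 + 1 = i + 3 := by rw [add_assoc]; rfl
  unfold sl at h1 h2
  rw [e] at h1
  rw [e2] at h2
  have : XX (c i) (c (i + 1)) (c (i + 3)) = cr (c (i + 1) - c i) (c (i + 2) - c (i + 1))
      + cr (c (i + 1) - c i) (c (i + 3) - c (i + 2)) := by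
    simp only [XX, cr, Complex.sub_re, Complex.sub_im]; ring
  rw [this]; linarith

lemma X4 (h : Near D c) (i : Fin 5) : 0 < XX (c i) (c (i + 1)) (c (i + 4)) := by
  have h1 := h.c1 (i + 4)
  have e : i + 4 + 1 = i := by rw [add_assoc]; exact add_zero i
  unfold sl at h1
  rw [e] at h1
  have : XX (c i) (c (i + 1)) (c (i + 4)) = cr (c i - c (i + 4)) (c (i + 1) - c i) := by
    simp only [XX, cr, Complex.sub_re, Complex.sub_im]; ring
  rw [this]; exact h1

lemma fin5 : ∀ i k : Fin 5, k = i ∨ k = i + 1 ∨ k = i + 2 ∨ k = i + 3 ∨ k = i + 4 := by decide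

/-- all other vertices are to the left of a side -/
lemma left (h : Near D c) (i k : Fin 5) (h1 : k ≠ i) (h2 : k ≠ i + 1) :
    0 < XX (c i) (c (i + 1)) (c k) := by
  rcases fin5 i k with rfl | rfl | rfl | rfl | rfl
  · exact absurd rfl h1
  · exact absurd rfl h2
  · exact h.X2 i
  · exact h.X3 i
  · exact h.X4 i

/-- only a reversed side has no vertex on its left -/
lemma rev_side (h : Near D c) (i k : Fin 5) (hik : k ≠ i)
    (hn : ∀ m, ¬ 0 < XX (c i) (c k) (c m)) : i = k + 1 := by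
  rcases fin5 i k with rfl | rfl | rfl | rfl | rfl
  · exact absurd rfl hik
  · exact absurd (h.X2 i) (hn _)
  · have := h.X3 (i + 2)
    have e1 : i + 2 + 1 = i + 3 := by rw [add_assoc]; rfl
    have e2 : i + 2 + 3 = i := by rw [add_assoc]; exact add_zero i
    rw [e1, e2] at this
    refine absurd ?_ (hn (i + 3))
    rw [← XX_cyc]; exact this
  · have := h.X2 (i + 3)
    have e1 : i + 3 + 1 = i + 4 := by rw [add_assoc]; rfl
    have e2 : i + 3 + 2 = i := by rw [add_assoc]; exact add_zero i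
    rw [e1, e2] at this
    refine absurd ?_ (hn (i + 4))
    rw [← XX_cyc]; exact this
  · have e : i + 4 + 1 = i := by rw [add_assoc]; exact add_zero i
    exact e.symm

lemma short (h : Near D c) (i : Fin 5) : Sh (c i) (c (i + 1)) := by
  have := (h.rg i).2
  unfold sl at this
  unfold Sh
  linarith

lemma DDpos (h : Near D c) (i k : Fin 5) (h1 : k ≠ i) (h2 : k ≠ i + 1) :
    0 < DD (c i) (c (i + 1)) (c k) := by
  have e : DD (c i) (c (i + 1)) (c k) = dt (c k - c i) (c k - c (i + 1)) := by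
    simp only [DD, dt, Complex.sub_re, Complex.sub_im]; ring
  rw [e]
  rcases fin5 i k with rfl | rfl | rfl | rfl | rfl
  · exact absurd rfl h1
  · exact absurd rfl h2
  · exact h.d1 i
  · exact h.d3 i
  · exact h.d2 i

end Near

/-- a cluster `P` of `S` that is a critical pentagon -/
structure Pc (D : ℝ) (S P : Finset ℂ) (c : Fin 5 → ℂ) : Prop where
  cl : Closed S P
  nr : Near D c
  mem : ∀ x, x ∈ P ↔ ∃ i, x = c i
  inj : Function.Injective c

namespace Pc
variable {D : ℝ} {S P : Finset ℂ} {c : Fin 5 → ℂ}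

lemma cm (h : Pc D S P c) (i : Fin 5) : c i ∈ P := (h.mem _).mpr ⟨i, rfl⟩

lemma ne_succ (i : Fin 5) : i ≠ i + 1 := by revert i; decide

/-- the sides are Delaunay edges -/
lemma side_Ed (h : Pc D S P c) (i : Fin 5) : Ed S (c i) (c (i + 1)) := by
  have hs := h.nr.short i
  have key : ∀ r ∈ S, XX (c i) (c (i + 1)) r ≠ 0 → 0 < DD (c i) (c (i + 1)) r := by
    intro r hr hX
    by_cases hrP : r ∈ P
    · obtain ⟨k, rfl⟩ := (h.mem r).mp hrP
      apply h.nr.DDpos i k
      · rintro rfl; exact hX (XX_left _ _)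
      · rintro rfl; exact hX (XX_right _ _)
    · have h1 : 2 ≤ ‖c i - r‖ := by
        by_contra hcon
        apply hrP
        apply h.cl.2 r hr (c i) (h.cm i)
        unfold Sh
        push Not at hcon
        rwa [norm_sub_rev]
      have h2 : 2 ≤ ‖c (i + 1) - r‖ := by
        by_contra hcon
        apply hrP
        apply h.cl.2 r hr (c (i + 1)) (h.cm _)
        unfold Sh
        push Not at hcon
        rwa [norm_sub_rev]
      unfold Sh at hs
      have h3 : ‖c (i + 1) - c i‖ ^ 2 < 2 ^ 2 := by gcongr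
      have h4 : (2:ℝ) ^ 2 ≤ ‖c i - r‖ ^ 2 := by gcongr
      have h5 : (2:ℝ) ^ 2 ≤ ‖c (i + 1) - r‖ ^ 2 := by gcongr
      have h6 : 2 * DD (c i) (c (i + 1)) r = ‖c i - r‖ ^ 2 + ‖c (i + 1) - r‖ ^ 2
          - ‖c (i + 1) - c i‖ ^ 2 := by
        simp only [norm_sq_eq, DD, dt, Complex.sub_re, Complex.sub_im]; ring
      linarith
  have k1 : 0 < al S (c i) (c (i + 1)) := by
    rw [lt_al_iff]
    refine ⟨by positivity, ?_⟩
    intro r hr hX
    unfold att
    rw [arctan_pos]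
    exact div_pos (key r hr hX.ne') hX
  have k2 : 0 < al S (c (i + 1)) (c i) := by
    rw [lt_al_iff]
    refine ⟨by positivity, ?_⟩
    intro r hr hX
    have hX' : XX (c i) (c (i + 1)) r ≠ 0 := by
      intro h0; rw [XX_swap, h0] at hX; simp at hX
    unfold att
    rw [arctan_pos, DD_swap]
    exact div_pos (key r hr hX') hX
  unfold Ed
  linarith

/-- no cluster vertex on the left: reversed side -/
lemma rev_of (h : Pc D S P c) {x y : ℂ} (hx : x ∈ P) (hy : y ∈ P) (hxy : x ≠ y)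
    (hn : ∀ z ∈ P, ¬ 0 < XX x y z) : ∃ k, x = c (k + 1) ∧ y = c k := by
  obtain ⟨i, rfl⟩ := (h.mem x).mp hx
  obtain ⟨k, rfl⟩ := (h.mem y).mp hy
  have := h.nr.rev_side i k (fun e => hxy (by rw [e])) (fun m => hn _ (h.cm m))
  exact ⟨k, by rw [← this], rfl⟩

lemma al_half (h : Pc D S P c) (k : Fin 5) : al P (c (k + 1)) (c k) = π / 2 := by
  rcases al_cases P (c (k + 1)) (c k) with h1 | ⟨r, hr, hX, _⟩
  · exact h1.1
  · exfalso
    obtain ⟨m, rfl⟩ := (h.mem r).mp hr
    rw [XX_swap] at hX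
    by_cases h1 : m = k
    · rw [h1, XX_left] at hX; simp at hX
    by_cases h2 : m = k + 1
    · rw [h2, XX_right] at hX; simp at hX
    have := h.nr.left k m h1 h2
    linarith

/-- all triangles of `P` form a region -/
lemma rgP (h : Pc D S P c) (hG : Gen S) : Rg S P (Tr P) := by
  have hGP := hG.mono h.cl.1
  refine ⟨Fam_Tr P, ?_⟩
  intro x y r hT
  obtain ⟨hx, hy, hr, hX, _⟩ := id hT
  have hxy := (Tr_ne hT).1
  by_cases hn : ∀ z ∈ P, ¬ 0 < XX y x z
  · right
    obtain ⟨k, rfl, rfl⟩ := h.rev_of hy hx (Ne.symm hxy) hn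
    exact ⟨h.side_Ed k, h.nr.short k⟩
  · left
    push Not at hn
    obtain ⟨z, hz, hXz⟩ := hn
    have h1 := al_le_att hz hXz
    have h2 := att_lt y x z
    obtain ⟨s, hs, _⟩ := Tr_of_edge hGP hy hx (Ne.symm hxy) (Ed_symm (Tr_Ed hT)) (by linarith)
    exact ⟨s, hs⟩

lemma card5 (h : Pc D S P c) : P.card = 5 := by
  have : P = Finset.univ.image c := by
    ext x
    rw [h.mem, Finset.mem_image]
    constructor
    · rintro ⟨i, rfl⟩; exact ⟨i, Finset.mem_univ _, rfl⟩
    · rintro ⟨i, _, rfl⟩; exact ⟨i, rfl⟩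
  rw [this, Finset.card_image_of_injective _ h.inj]
  rfl

lemma trS (h : Pc D S P c) (hG : Gen S) {x y r : ℂ} (hT : Tr P x y r) : Tr S x y r :=
  Rg_Tr hG h.cl h.card5.le (h.rgP hG) hT

end Pc

end FT58
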