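import Pool.Agent.Lib.MP_49fa77_co.Pent

/-!
# The inequality for one critical cluster
-/

namespace FT58

open Real MeasureTheory Set

section
open Classical

namespace Pc
variable {D : ℝ} {S P : Finset ℂ} {c : Fin 5 → ℂ}

lemma side_Lf (h : Pc D S P c) (hG : Gen S) (k : Fin 5) : Lf (Tr P) (c k) (c (k + 1)) := by
  have hX := h.nr.X2 k
  have h1 := al_le_att (h.cm (k + 2)) hX
  have h2 := att_lt (c k) (c (k + 1)) (c (k + 2))
  obtain ⟨s, hs, _⟩ := Tr_of_edge (hG.mono h.cl.1) (h.cm k) (h.cm (k + 1))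
    (fun e => ne_succ k (h.inj e)) ((h.side_Ed k).mono h.cl.1) (by linarith)
  exact ⟨s, hs⟩

lemma rev_not_Lf (h : Pc D S P c) (k : Fin 5) : ¬ Lf (Tr P) (c (k + 1)) (c k) := by
  rintro ⟨r, hr⟩
  have h1 := Tr_al hr
  have h2 := att_lt (c (k + 1)) (c k) r
  rw [h.al_half k] at h1
  linarith

lemma Bd_iff (h : Pc D S P c) (hG : Gen S) (x y : ℂ) :
    Bd (Tr P) x y ↔ ∃ k, x = c k ∧ y = c (k + 1) := by
  constructor
  · rintro ⟨⟨r, hT⟩, hn⟩
    have hxy := (Tr_ne hT).1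
    by_cases hz : ∀ z ∈ P, ¬ 0 < XX y x z
    · obtain ⟨k, e1, e2⟩ := h.rev_of hT.2.1 hT.1 (Ne.symm hxy) hz
      exact ⟨k, e2, e1⟩
    · exfalso
      push Not at hz
      obtain ⟨z, hz, hXz⟩ := hz
      have h1 := al_le_att hz hXz
      have h2 := att_lt y x z
      obtain ⟨s, hs, _⟩ := Tr_of_edge (hG.mono h.cl.1) hT.2.1 hT.1 (Ne.symm hxy)
        (Ed_symm (Tr_Ed hT)) (by linarith)
      exact hn ⟨s, hs⟩
  · rintro ⟨k, rfl, rfl⟩
    exact ⟨h.side_Lf hG k, h.rev_not_Lf k⟩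

lemma out_iff (h : Pc D S P c) (hG : Gen S) (x y : ℂ) (hx : x ∈ P) (hy : y ∈ P) :
    (Eg S x y ∧ ¬ Lf (Tr P) x y) ↔ ∃ k, x = c (k + 1) ∧ y = c k := by
  constructor
  · rintro ⟨hE, hn⟩
    have hEP : Eg P x y := ⟨hE.1, hE.2.mono h.cl.1⟩
    apply h.rev_of hx hy hE.1
    intro z hz hXz
    have h1 := al_le_att hz hXz
    have h2 := att_lt x y z
    obtain ⟨s, hs, _⟩ := Tr_of_edge (hG.mono h.cl.1) hx hy hE.1 hEP.2 (by linarith)
    exact hn ⟨s, hs⟩
  · rintro ⟨k, rfl, rfl⟩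
    exact ⟨⟨fun e => ne_succ k (h.inj e).symm, Ed_symm (h.side_Ed k)⟩, h.rev_not_Lf k⟩

lemma nodup (h : Pc D S P c) : [c 0, c 1, c 2, c 3, c 4].Nodup := by
  have : [c 0, c 1, c 2, c 3, c 4] = List.map c [0, 1, 2, 3, 4] := rfl
  rw [this]
  exact List.Nodup.map h.inj (by decide)

lemma memL (h : Pc D S P c) : ∀ u ∈ [c 0, c 1, c 2, c 3, c 4], u ∈ P := by
  intro u hu
  simp only [List.mem_cons, List.not_mem_nil, or_false] at hu
  rcases hu with rfl | rfl | rfl | rfl | rfl <;> exact h.cm _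

lemma C5_iff (c : Fin 5 → ℂ) (x y : ℂ) :
    (∃ k, x = c k ∧ y = c (k + 1)) ↔ C5 (c 0) (c 1) (c 2) (c 3) (c 4) x y := by
  unfold C5
  constructor
  · rintro ⟨k, rfl, rfl⟩
    fin_cases k
    · left; exact ⟨rfl, rfl⟩
    · right; left; exact ⟨rfl, rfl⟩
    · right; right; left; exact ⟨rfl, rfl⟩
    · right; right; right; left; exact ⟨rfl, rfl⟩
    · right; right; right; right; exact ⟨rfl, rfl⟩
  · rintro (⟨rfl, rfl⟩ | ⟨rfl, rfl⟩ | ⟨rfl, rfl⟩ | ⟨rfl, rfl⟩ | ⟨rfl, rfl⟩)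
    · exact ⟨0, rfl, rfl⟩
    · exact ⟨1, rfl, rfl⟩
    · exact ⟨2, rfl, rfl⟩
    · exact ⟨3, rfl, rfl⟩
    · exact ⟨4, rfl, rfl⟩

lemma sum_sides (h : Pc D S P c) (f : ℂ → ℂ → ℝ) :
    sE P (fun x y => ∃ k, x = c k ∧ y = c (k + 1)) f
      = f (c 0) (c 1) + f (c 1) (c 2) + f (c 2) (c 3) + f (c 3) (c 4) + f (c 4) (c 0) :=
  sE_C5 h.nodup h.memL (fun x y => C5_iff c x y) f

lemma sum_rev (h : Pc D S P c) (f : ℂ → ℂ → ℝ) :
    sE P (fun x y => ∃ k, x = c (k + 1) ∧ y = c k) f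
      = f (c 1) (c 0) + f (c 2) (c 1) + f (c 3) (c 2) + f (c 4) (c 3) + f (c 0) (c 4) := by
  rw [sE_comm]
  have : sE P (fun x y => ∃ k, y = c (k + 1) ∧ x = c k) (fun x y => f y x)
      = sE P (fun x y => ∃ k, x = c k ∧ y = c (k + 1)) (fun x y => f y x) := by
    apply sE_congr
    · intro x _ y _
      constructor <;> rintro ⟨k, h1, h2⟩ <;> exact ⟨k, h2, h1⟩
    · intro x _ y _ _; rfl
  rw [this, h.sum_sides]

/-- at most three triangles -/
lemma nine (h : Pc D S P c) (hG : Gen S) : (nE P (Lf (Tr P)) : ℝ) ≤ 9 := by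
  have hGP := hG.mono h.cl.1
  have h1 := euler_count hGP ⟨c 0, h.cm 0⟩
  have h2 : (nE P (Hl P) : ℝ) = 5 := by
    rw [← sE_one]
    have : sE P (Hl P) (fun _ _ => 1) = sE P (fun x y => ∃ k, x = c (k + 1) ∧ y = c k)
        (fun _ _ => 1) := by
      apply sE_congr
      · intro x hx y hy
        constructor
        · rintro ⟨hE, hn⟩
          apply h.rev_of hx hy hE.1
          intro z hz hXz
          have h1 := al_le_att hz hXz
          have h2 := att_lt x y z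
          obtain ⟨s, hs, _⟩ := Tr_of_edge hGP hx hy hE.1 hE.2 (by linarith)
          exact hn ⟨s, hs⟩
        · rintro ⟨k, rfl, rfl⟩
          exact ⟨⟨fun e => ne_succ k (h.inj e).symm, Ed_symm ((h.side_Ed k).mono h.cl.1)⟩,
            h.rev_not_Lf k⟩
      · intro x _ y _ _; rfl
    rw [this, h.sum_rev]; norm_num
  rw [h2, h.card5] at h1
  push_cast at h1
  linarith

/-- **Inequality for one critical cluster.** -/
theorem cluster_ineq (hD0 : 0 ≤ D) (hD1 : D ≤ 1) (hk : 0.00285 ≤ kap D) (hG : Gen S)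
    (h : Pc D S P c) :
    0 ≤ P.card * (2 * kap D) - P.card * (6 * 0.00095)
      + (sE P (Lf (Tr P)) (fun x y => val2 D S x y + 6 * 0.00095 / π * al S x y)
      + sE P (fun x y => Eg S x y ∧ ¬ Lf (Tr P) x y)
          (fun x y => gg D (‖y - x‖ / 2) + 5 * 0.00095)) := by
  have hb := region_bound hD0 hD1 (Fam_Tr P) (fun x y r hT => h.trS hG hT) (by
    intro x y r hT
    rcases (h.rgP hG).bd x y r hT with h1 | h1
    · exact Or.inl h1
    · exact Or.inr h1.2) (by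
    intro x y r hT hn
    have hB : Bd (Tr P) x y := ⟨⟨r, hT⟩, hn⟩
    obtain ⟨k, rfl, rfl⟩ := (h.Bd_iff hG x y).mp hB
    obtain ⟨m, rfl⟩ := (h.mem r).mp hT.2.2.1
    have hne := Tr_ne hT
    have := h.nr.DDpos k m (fun e => hne.2.2 (by rw [e])) (fun e => hne.2.1 (by rw [e]))
    have hatt : 0 < att (c k) (c (k + 1)) (c m) := by
      unfold att
      rw [arctan_pos]
      exact div_pos this (Tr_XX hT)
    unfold Bad an
    intro hbad
    linarith [hbad.1]) (S := S) (D := D)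
  have e1 : sE P (Bd (Tr P)) cr = cr (c 0) (c 1) + cr (c 1) (c 2) + cr (c 2) (c 3)
      + cr (c 3) (c 4) + cr (c 4) (c 0) := by
    rw [← h.sum_sides]
    apply sE_congr
    · intro x _ y _; exact h.Bd_iff hG x y
    · intro x _ y _ _; rfl
  have e2 : sE P (fun x y => Eg S x y ∧ ¬ Lf (Tr P) x y)
          (fun x y => gg D (‖y - x‖ / 2) + 5 * 0.00095)
      = sE P (fun x y => ∃ k, x = c (k + 1) ∧ y = c k)
          (fun x y => gg D (‖y - x‖ / 2) + 5 * 0.00095) := by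
    apply sE_congr
    · intro x hx y hy; exact h.out_iff hG x y hx hy
    · intro x _ y _ _; rfl
  have e3 : 3 * sE P (Lf (Tr P)) (al S) = π / 2 * nE P (Lf (Tr P)) := by
    have k1 : sE P (Lf (Tr P)) (al S) = sT P (Tr P) (fun c q _ => al S c q) :=
      (sT_edge (Fam_Tr P) (al S)).symm
    have k2 : sE P (Lf (Tr P)) (fun _ _ => π / 2) = sT P (Tr P) (fun _ _ _ => π / 2) :=
      (sT_edge (Fam_Tr P) (fun _ _ => π / 2)).symm
    have k3 := sT_avg (P := P) (T := Tr P) (Fam_Tr P).cyc (fun c q _ => al S c q)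
    rw [← sE_const, k1, k2, ← k3]
    apply sT_congr
    intro c q r hT
    exact al_sum (h.trS hG hT)
  have h9 := h.nine hG
  have hf := h.nr.f
  rw [e2, h.sum_rev, sE_add, sE_smul]
  rw [e1] at hb
  have hp := pi_pos
  have e4 : 6 * 0.00095 / π * sE P (Lf (Tr P)) (al S) = 0.00095 * nE P (Lf (Tr P)) := by
    have : sE P (Lf (Tr P)) (al S) = π / 6 * nE P (Lf (Tr P)) := by linarith
    rw [this]; field_simp
  rw [e4, h.card5]
  unfold F0 at hf
  simp only [gg_eq]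
  rw [norm_sub_rev (c 1) (c 0), norm_sub_rev (c 2) (c 1), norm_sub_rev (c 3) (c 2),
    norm_sub_rev (c 4) (c 3), norm_sub_rev (c 0) (c 4)] at hf
  have h10 : (kap D / 3 - 0.00095) * nE P (Lf (Tr P)) ≤ (kap D / 3 - 0.00095) * 9 := by
    apply mul_le_mul_of_nonneg_left h9; linarith
  push_cast
  linarith

end Pc

end

end FT58
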