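import Pool.Agent.Lib.MP_49fa77_co.Disch2
import Pool.Agent.Lib.MP_49fa77_co.Num5

/-!
# Clusters whose pentagons are all good
-/

namespace FT58

open Real MeasureTheory Set

section
open Classical

/-- the regions of all clusters -/
def TT {J : Type*} (S : Finset ℂ) (cl : ℂ → J) (Q : J → Finset ℂ) (c q r : ℂ) : Prop :=
  cl c = cl q ∧ cl q = cl r ∧ MX S (Q (cl c)) c q r

theorem totalA {J : Type*} {D : ℝ} (hD : 0.96299 ≤ D) (hD1 : D ≤ 1) (hk : 0 ≤ kap D)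
    (hM : ∀ a, 0 < a → a < 1 → -(kap D / 4) ≤ GG D a)
    {S : Finset ℂ} {cl : ℂ → J} {Q : J → Finset ℂ}
    (hG : Gen S) (hsep : ∀ x ∈ S, ∀ y ∈ S, cl x ≠ cl y → 2 ≤ ‖y - x‖)
    (hQ : ∀ j x, x ∈ Q j ↔ x ∈ S ∧ cl x = j)
    (h5card : ∀ x ∈ S, (Q (cl x)).card = 5)
    (h5 : ∀ s ∈ S, ∀ x y z w v, [x, y, z, w, v].Nodup → (∀ u ∈ [x, y, z, w, v], u ∈ Q (cl s)) →
      Sh x y → Sh y z → Sh z w → Sh w v → Sh v x → 0 ≤ F0 D x y z w v) :
    0 ≤ S.card * (2 * kap D) + sE S (Eg S) (val2 D S) := by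
  have hD0 : 0 ≤ D := by linarith
  have hself : ∀ {x}, x ∈ S → x ∈ Q (cl x) := fun hx => (hQ _ _).mpr ⟨hx, rfl⟩
  have hsame : ∀ {x y}, x ∈ S → y ∈ S → Sh x y → cl x = cl y := by
    intro x y hx hy hs
    by_contra hne
    have := hsep x hx y hy hne
    unfold Sh at hs
    linarith
  have hclosed : ∀ x ∈ S, Closed S (Q (cl x)) := by
    intro x hx
    refine ⟨fun y hy => ((hQ _ _).mp hy).1, ?_⟩
    intro s hs p hp hsh
    have hp' := (hQ _ _).mp hp
    exact (hQ _ _).mpr ⟨hs, by rw [← hsame hp'.1 hs hsh, hp'.2]⟩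
  have hF : Fam S (TT S cl Q) := by
    constructor
    · rintro c q r ⟨h1, h2, h3⟩
      have hT := (MX_Rg S (Q (cl c))).tr _ _ _ h3
      have hc := ((hQ _ _).mp hT.1).1
      exact Rg_Tr hG (hclosed c hc) (h5card c hc).le (MX_Rg S _) h3
    · rintro c q r ⟨h1, h2, h3⟩
      refine ⟨h2, by rw [← h2, h1], ?_⟩
      rw [← h1]
      exact (MX_Rg S (Q (cl c))).cyc _ _ _ h3
  have h1 := asg2_le hD0 hG hF (by
    intro c q r hT s1 s2 s3
    have e1 := hsame hT.1 hT.2.1 s1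
    have e2 := hsame hT.2.1 hT.2.2.1 s2
    refine ⟨e1, e2, ?_⟩
    apply MX_short (hclosed c hT.1).1 hT (hself hT.1) ((hQ _ _).mpr ⟨hT.2.1, e1.symm⟩)
      ((hQ _ _).mpr ⟨hT.2.2.1, by rw [← e2, e1]⟩) s1 s2 s3)
  have hz : ∀ x ∈ S, ∀ y ∈ S, Eg S x y → cl x ≠ cl y → asg2 D S (TT S cl Q) x y = 0 := by
    intro x hx y hy _ hne
    unfold asg2 gv
    rw [if_neg, if_neg]
    · intro hs; exact hne (hsame hx hy hs)
    · rintro ⟨r, hr⟩; exact hne hr.1
  have h8 := sE_clusters hQ hz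
  have h9 := card_clusters hQ
  have h10 : 0 ≤ ∑ j ∈ S.image cl, (((Q j).card : ℝ) * (2 * kap D)
      + sE (Q j) (Eg S) (asg2 D S (TT S cl Q))) := by
    apply Finset.sum_nonneg
    intro j hj
    obtain ⟨x, hx, rfl⟩ := Finset.mem_image.mp hj
    have h11 := score_five hD0 hD1 hk hM (fun a h0 h1 => W5 hD hD1 h0 h1)
      (fun a h0 h1 => Q5 hD hD1 h0 h1) hG (hclosed x hx) (h5card x hx) (h5 x hx)
    have h12 : sE (Q (cl x)) (Eg S) (asg2 D S (TT S cl Q))
        = sE (Q (cl x)) (Eg S) (asg2 D S (MX S (Q (cl x)))) := by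
      apply sE_congr
      · intro a _ b _; exact Iff.rfl
      · intro a ha b hb _
        have ha' := (hQ _ _).mp ha
        have hb' := (hQ _ _).mp hb
        have hiff : Lf (TT S cl Q) a b ↔ Lf (MX S (Q (cl x))) a b := by
          constructor
          · rintro ⟨r, _, _, hr⟩
            exact ⟨r, by rw [← ha'.2]; exact hr⟩
          · rintro ⟨r, hr⟩
            have hT := (MX_Rg S (Q (cl x))).tr _ _ _ hr
            refine ⟨r, by rw [ha'.2, hb'.2], ?_, by rw [ha'.2]; exact hr⟩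
            rw [hb'.2]; exact ((hQ _ _).mp hT.2.2.1).2.symm
        unfold asg2
        by_cases hl : Lf (TT S cl Q) a b
        · rw [if_pos hl, if_pos (hiff.mp hl)]
        · rw [if_neg hl, if_neg (fun k => hl (hiff.mpr k))]
    rw [h12]
    exact h11
  rw [Finset.sum_add_distrib, ← Finset.sum_mul, ← h8] at h10
  have h13 : (S.card : ℝ) = ∑ j ∈ S.image cl, ((Q j).card : ℝ) := by
    rw [h9]; push_cast; rfl
  rw [← h13] at h10
  linarith

end

end FT58
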