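import Pool.Agent.Lib.MP_49fa77_co.Three

/-!
# Planarity facts for Delaunay edges
-/

namespace FT58

open Real MeasureTheory Set

lemma IC_odd (x y z w : ℂ) : IC y z w x = -IC x y z w := by
  simp only [IC, DD, dt, XX, cr, Complex.sub_re, Complex.sub_im]; ring

lemma IC_rev (x y z w : ℂ) : IC x w z y = -IC x y z w := by
  simp only [IC, DD, dt, XX, cr, Complex.sub_re, Complex.sub_im]; ring

/-- a Delaunay edge separates: a left and a right point. -/
lemma IC_of_Ed {S : Finset ℂ} {u v w s : ℂ} (hw : w ∈ S) (hs : s ∈ S) (hE : Ed S u v)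
    (h1 : 0 < XX u v w) (h2 : XX u v s < 0) : 0 < IC u v w s := by
  have hXs : 0 < XX v u s := by rw [XX_swap]; linarith
  have a1 := al_le_att hw h1
  have a2 := al_le_att hs hXs
  rw [att_swap] at a2
  unfold Ed at hE
  have a3 : att u v s < att u v w := by linarith
  have a4 : DD u v s / XX u v s < DD u v w / XX u v w := arctan_strictMono.lt_iff_lt.mp a3
  rw [IC_div h1.ne' h2.ne]
  have : 0 < XX u v w * (-XX u v s) * (DD u v w / XX u v w - DD u v s / XX u v s) :=
    mul_pos (mul_pos h1 (by linarith)) (by linarith)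
  nlinarith

/-- every Delaunay edge with a point on its left is a side of a Delaunay triangle on its left -/
lemma exists_Tr {S : Finset ℂ} (hG : Gen S) {x y z : ℂ} (hx : x ∈ S) (hy : y ∈ S) (hz : z ∈ S)
    (hE : Ed S x y) (hX : 0 < XX x y z) : ∃ r, Tr S x y r := by
  have h1 := al_le_att hz hX
  have h2 := att_lt x y z
  obtain ⟨r, hr, _⟩ := Tr_of_edge hG hx hy (ne_of_XX_pos hX).1 hE (by linarith)
  exact ⟨r, hr⟩

/-- The apex of the Delaunay triangle at a side of a triangle of Delaunay edges is inside. -/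
lemma apex {S : Finset ℂ} (hG : Gen S) {x y z r : ℂ} (hz : z ∈ S)
    (hX : 0 < XX x y z) (h2 : Ed S y z) (h3 : Ed S z x) (hT : Tr S x y r) :
    r = z ∨ (0 < XX x y r ∧ 0 < XX y z r ∧ 0 < XX z x r) := by
  by_cases hrz : r = z
  · exact Or.inl hrz
  right
  have hXr := hT.2.2.2.1
  obtain ⟨n1, n2, n3⟩ := Tr_ne hT
  have hxS := hT.1
  have hyS := hT.2.1
  have hrS := hT.2.2.1
  have k := ne_of_XX_pos hX
  have hz1 : 0 < IC x y r z := hT.2.2.2.2 z hz k.2.2 (Ne.symm k.2.1) (Ne.symm hrz)
  rw [IC_swap] at hz1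
  refine ⟨hXr, ?_, ?_⟩
  · rcases lt_trichotomy (XX y z r) 0 with h | h | h
    · exfalso
      have := IC_of_Ed (u := y) (v := z) (w := x) (s := r) hxS hrS h2 (by rw [XX_cyc]; exact hX) h
      rw [IC_cyc] at this
      linarith
    · exact absurd h (hG.1 y hyS z hz r hrS k.2.1 n2 (Ne.symm hrz))
    · exact h
  · rcases lt_trichotomy (XX z x r) 0 with h | h | h
    · exfalso
      have := IC_of_Ed (u := z) (v := x) (w := y) (s := r) hyS hrS h3
        (by rw [XX_cyc, XX_cyc]; exact hX) h
      rw [IC_cyc, IC_cyc] at this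
      linarith
    · exact absurd h (hG.1 z hz x hxS r hrS k.2.2 (Ne.symm hrz) (Ne.symm n3))
    · exact h

/-- a point inside a triangle is closer to each vertex than the longest side at it. -/
lemma inside_short {x y z s : ℂ} (h1 : 0 < XX x y s) (h2 : 0 < XX y z s) (h3 : 0 < XX z x s)
    (s1 : Sh x y) (s3 : Sh z x) : Sh x s := by
  unfold Sh at *
  rw [norm_sub_rev x z] at s3
  have ha := XX_add x y z s
  -- `X (s - x) = B (y - x) + C (z - x)`
  have hb : (((XX x y z : ℝ)) : ℂ) * (s - x) = ((XX z x s : ℝ) : ℂ) * (y - x)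
      + ((XX x y s : ℝ) : ℂ) * (z - x) := by
    apply Complex.ext
    · simp only [XX, cr, Complex.re_ofReal_mul, Complex.add_re, Complex.sub_re, Complex.sub_im]
      ring
    · simp only [XX, cr, Complex.im_ofReal_mul, Complex.add_im, Complex.sub_re, Complex.sub_im]
      ring
  have hn : XX x y z * ‖s - x‖ ≤ XX z x s * ‖y - x‖ + XX x y s * ‖z - x‖ := by
    have hX : 0 < XX x y z := by linarith
    have e := congrArg norm hb
    rw [norm_mul, Complex.norm_real, norm_eq_abs, abs_of_pos hX] at e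
    rw [e]
    refine (norm_add_le _ _).trans ?_
    rw [norm_mul, norm_mul, Complex.norm_real, Complex.norm_real, norm_eq_abs, norm_eq_abs,
      abs_of_pos h3, abs_of_pos h1]
  by_contra hcon
  push Not at hcon
  have : XX x y z * 2 ≤ XX x y z * ‖s - x‖ := by
    apply mul_le_mul_of_nonneg_left hcon; linarith
  nlinarith

/-- power-of-a-point relation for two circles through `u, v`. -/
lemma IC_radical (u a v b s : ℂ) :
    XX u v b * IC u a v s = XX u a v * IC u v b s + XX u v s * IC u a v b := by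
  simp only [IC, DD, dt, XX, cr, Complex.sub_re, Complex.sub_im]; ring

/-- The Delaunay triangles inside a quadrilateral of Delaunay edges. -/
lemma quad_Tr {S : Finset ℂ} (hG : Gen S) {u a v b : ℂ} (hu : u ∈ S) (ha : a ∈ S) (hv : v ∈ S)
    (hb : b ∈ S) (hA : 0 < XX u a v) (hB : 0 < XX u v b) (hI : 0 < IC u a v b)
    (e1 : Ed S u a) (e2 : Ed S a v) (e3 : Ed S v b) (e4 : Ed S b u)
    (hin : ∀ s ∈ S, s ≠ u → s ≠ a → s ≠ v → s ≠ b →
      ¬ (0 < XX u a s ∧ 0 < XX a v s ∧ 0 < XX v u s) ∧
      ¬ (0 < XX u v s ∧ 0 < XX v b s ∧ 0 < XX b u s)) :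
    Tr S u a v ∧ Tr S u v b := by
  have kA := ne_of_XX_pos hA
  have kB := ne_of_XX_pos hB
  have hA2 : 0 < XX a v u := by rw [XX_cyc]; exact hA
  have hA3 : 0 < XX v u a := by rw [XX_cyc]; exact hA2
  have hB2 : 0 < XX v b u := by rw [XX_cyc]; exact hB
  have hB3 : 0 < XX b u v := by rw [XX_cyc]; exact hB2
  have hXvua : XX u v a < 0 := by rw [XX_swap]; linarith
  have hab : a ≠ b := by rintro rfl; linarith
  -- power of other points
  have key : ∀ s ∈ S, s ≠ u → s ≠ a → s ≠ v → s ≠ b → 0 < IC u a v s ∧ 0 < IC u v b s := by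
    intro s hs hsu hsa hsv hsb
    obtain ⟨i1, i2⟩ := hin s hs hsu hsa hsv hsb
    have g1 := hG.1 u hu v hv s hs kA.2.2.symm (Ne.symm hsu) (Ne.symm hsv)
    have g2 := hG.1 u hu a ha s hs kA.1 (Ne.symm hsu) (Ne.symm hsa)
    have g3 := hG.1 a ha v hv s hs kA.2.1 (Ne.symm hsa) (Ne.symm hsv)
    have g4 := hG.1 v hv b hb s hs kB.2.1 (Ne.symm hsv) (Ne.symm hsb)
    have g5 := hG.1 b hb u hu s hs kB.2.2 (Ne.symm hsb) (Ne.symm hsu)
    have hrad := IC_radical u a v b s
    rcases lt_or_gt_of_ne g1 with h | h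
    · -- on the side of `a`
      have h' : 0 < XX v u s := by rw [XX_swap]; linarith
      have hIa : 0 < IC u a v s := by
        by_cases c1 : XX u a s < 0
        · exact IC_of_Ed hv hs e1 hA c1
        · by_cases c2 : XX a v s < 0
          · have := IC_of_Ed hu hs e2 hA2 c2
            rw [IC_cyc] at this; exact this
          · exfalso
            push Not at c1 c2
            exact i1 ⟨lt_of_le_of_ne c1 (Ne.symm g2), lt_of_le_of_ne c2 (Ne.symm g3), h'⟩
      refine ⟨hIa, ?_⟩
      have h1 : 0 < XX u a v * IC u v b s := by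
        have h2 : 0 < XX u v b * IC u a v s := mul_pos hB hIa
        have h3 : XX u v s * IC u a v b < 0 := mul_neg_of_neg_of_pos h hI
        linarith
      exact pos_of_mul_pos_right h1 hA.le
    · have hIb : 0 < IC u v b s := by
        by_cases c1 : XX v b s < 0
        · have := IC_of_Ed hu hs e3 hB2 c1
          rw [IC_cyc] at this; exact this
        · by_cases c2 : XX b u s < 0
          · have := IC_of_Ed hv hs e4 hB3 c2
            rw [IC_cyc, IC_cyc] at this; exact this
          · exfalso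
            push Not at c1 c2
            exact i2 ⟨h, lt_of_le_of_ne c1 (Ne.symm g4), lt_of_le_of_ne c2 (Ne.symm g5)⟩
      refine ⟨?_, hIb⟩
      have h1 : 0 < XX u v b * IC u a v s := by
        have h2 : 0 < XX u a v * IC u v b s := mul_pos hA hIb
        have h3 : 0 < XX u v s * IC u a v b := mul_pos h hI
        linarith
      exact pos_of_mul_pos_right h1 hB.le
  refine ⟨⟨hu, ha, hv, hA, ?_⟩, ⟨hu, hv, hb, hB, ?_⟩⟩
  · intro s hs h1 h2 h3
    by_cases h4 : s = b
    · rw [h4]; exact hI
    · exact (key s hs h1 h2 h3 h4).1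
  · intro s hs h1 h2 h3
    by_cases h4 : s = a
    · rw [h4]
      have : IC u v b a = IC u a v b := by
        simp only [IC, DD, dt, XX, cr, Complex.sub_re, Complex.sub_im]; ring
      rw [this]; exact hI
    · exact (key s hs h1 h4 h2 h3).2

/-- In a 4-cycle of Delaunay edges one diagonal splits it, positively oriented case. -/
lemma cyc4_aux {S : Finset ℂ} (hG : Gen S) {x y z w : ℂ} (hx : x ∈ S) (hy : y ∈ S) (hz : z ∈ S)
    (hw : w ∈ S) (nxy : x ≠ y) (nyz : y ≠ z) (nzw : z ≠ w) (nwx : w ≠ x) (nxz : x ≠ z)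
    (nyw : y ≠ w) (e1 : Ed S x y) (e2 : Ed S y z) (e3 : Ed S z w) (e4 : Ed S w x)
    (hpos : 0 ≤ XX x y z + XX z w x) :
    (0 < XX x y z ∧ 0 < XX z w x ∧ 0 < IC x y z w) ∨
      (0 < XX y z w ∧ 0 < XX w x y ∧ 0 < IC y z w x) := by
  have hsum : XX x y z + XX z w x = XX y z w + XX w x y := by
    simp only [XX, cr, Complex.sub_re, Complex.sub_im]; ring
  have gA := hG.1 x hx y hy z hz nxy nxz nyz
  have gB := hG.1 y hy z hz w hw nyz nyw nzw
  have gC := hG.1 z hz w hw x hx nzw (Ne.symm nxz) nwx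
  have gD := hG.1 w hw x hx y hy nwx (Ne.symm nyw) nxy
  have hodd : IC y z w x = -IC x y z w := IC_odd x y z w
  have hIne : IC x y z w ≠ 0 := hG.2 x hx y hy z hz w hw nxy nxz nyz nwx (Ne.symm nyw) (Ne.symm nzw)
  -- edge implications
  have r1 : 0 < XX x y z → XX w x y < 0 → 0 < IC x y z w := by
    intro h1 h2
    have h2' : XX x y w < 0 := by rw [XX_cyc]; exact h2
    exact IC_of_Ed hz hw e1 h1 h2'
  have r2 : 0 < XX x y z → XX y z w < 0 → 0 < IC x y z w := by
    intro h1 h2
    have := IC_of_Ed hx hw e2 (by rw [XX_cyc]; exact h1) h2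
    rw [IC_cyc] at this; exact this
  have r3 : 0 < XX z w x → XX y z w < 0 → 0 < IC x y z w := by
    intro h1 h2
    have h2' : XX z w y < 0 := by rw [XX_cyc]; exact h2
    have := IC_of_Ed hx hy e3 h1 h2'
    have e : IC z w x y = IC x y z w := by
      simp only [IC, DD, dt, XX, cr, Complex.sub_re, Complex.sub_im]; ring
    rw [e] at this; exact this
  have r4 : 0 < XX z w x → XX w x y < 0 → 0 < IC x y z w := by
    intro h1 h2
    have h1' : 0 < XX w x z := by rw [XX_cyc]; exact h1
    have := IC_of_Ed hz hy e4 h1' h2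
    have e : IC w x z y = IC x y z w := by
      simp only [IC, DD, dt, XX, cr, Complex.sub_re, Complex.sub_im]; ring
    rw [e] at this; exact this
  have q1 : 0 < XX w x y → XX x y z < 0 → 0 < IC y z w x := by
    intro h1 h2
    have h1' : 0 < XX x y w := by rw [XX_cyc]; exact h1
    have := IC_of_Ed hw hz e1 h1' h2
    have e : IC x y w z = IC y z w x := by
      simp only [IC, DD, dt, XX, cr, Complex.sub_re, Complex.sub_im]; ring
    rw [e] at this; exact this
  have q2 : 0 < XX y z w → XX x y z < 0 → 0 < IC y z w x := by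
    intro h1 h2
    have h2' : XX y z x < 0 := by rw [XX_cyc]; exact h2
    exact IC_of_Ed hw hx e2 h1 h2'
  have q3 : 0 < XX y z w → XX z w x < 0 → 0 < IC y z w x := by
    intro h1 h2
    have h1' : 0 < XX z w y := by rw [XX_cyc]; exact h1
    have := IC_of_Ed hy hx e3 h1' h2
    have e : IC z w y x = IC y z w x := by
      simp only [IC, DD, dt, XX, cr, Complex.sub_re, Complex.sub_im]; ring
    rw [e] at this; exact this
  have q4 : 0 < XX w x y → XX z w x < 0 → 0 < IC y z w x := by
    intro h1 h2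
    have h2' : XX w x z < 0 := by rw [XX_cyc]; exact h2
    have := IC_of_Ed hy hz e4 h1 h2'
    have e : IC w x y z = IC y z w x := by
      simp only [IC, DD, dt, XX, cr, Complex.sub_re, Complex.sub_im]; ring
    rw [e] at this; exact this
  rcases lt_or_gt_of_ne gA with hA | hA <;> rcases lt_or_gt_of_ne gC with hC | hC
  · exfalso; linarith
  · -- A < 0, C > 0
    rcases lt_or_gt_of_ne gB with hB | hB <;> rcases lt_or_gt_of_ne gD with hD | hD
    · exfalso; linarith
    · exfalso
      have := r3 hC hB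
      have := q1 hD hA
      linarith
    · exfalso
      have := r4 hC hD
      have := q2 hB hA
      linarith
    · right; exact ⟨hB, hD, q2 hB hA⟩
  · rcases lt_or_gt_of_ne gB with hB | hB <;> rcases lt_or_gt_of_ne gD with hD | hD
    · exfalso; linarith
    · exfalso
      have := r2 hA hB
      have := q4 hD hC
      linarith
    · exfalso
      have := r1 hA hD
      have := q3 hB hC
      linarith
    · right; exact ⟨hB, hD, q3 hB hC⟩
  · rcases lt_or_gt_of_ne gB with hB | hB
    · left; exact ⟨hA, hC, r2 hA hB⟩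
    · rcases lt_or_gt_of_ne gD with hD | hD
      · left; exact ⟨hA, hC, r1 hA hD⟩
      · rcases lt_or_gt_of_ne hIne with hI | hI
        · right; exact ⟨hB, hD, by linarith⟩
        · left; exact ⟨hA, hC, hI⟩

end FT58
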