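import Pool.Agent.Lib.MP_49fa77_co.Wind

/-!
# Regions: sets of Delaunay triangles of a cluster bounded by short Delaunay edges
-/

namespace FT58

open Real MeasureTheory Set

/-- the left side of `c q` belongs to the family `T` -/
def Lf (T : ℂ → ℂ → ℂ → Prop) (c q : ℂ) : Prop := ∃ r, T c q r

/-- a family of Delaunay triangles of `P` -/
structure Fam (P : Finset ℂ) (T : ℂ → ℂ → ℂ → Prop) : Prop where
  tr : ∀ c q r, T c q r → Tr P c q r
  cyc : ∀ c q r, T c q r → T q r c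

/-- a region: a family whose boundary edges are short Delaunay edges of `S`. -/
structure Rg (S P : Finset ℂ) (T : ℂ → ℂ → ℂ → Prop) : Prop extends Fam P T where
  bd : ∀ c q r, T c q r → Lf T q c ∨ (Ed S c q ∧ Sh c q)

lemma Gen.mono {S P : Finset ℂ} (h : Gen S) (hP : P ⊆ S) : Gen P := by
  constructor
  · intro c hc q hq r hr
    exact h.1 c (hP hc) q (hP hq) r (hP hr)
  · intro c hc q hq r hr s hs
    exact h.2 c (hP hc) q (hP hq) r (hP hr) s (hP hs)

lemma Tr.mono {S P : Finset ℂ} {c q r : ℂ} (h : Tr S c q r) (hP : P ⊆ S) (hc : c ∈ P) (hq : q ∈ P)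
    (hr : r ∈ P) : Tr P c q r :=
  ⟨hc, hq, hr, h.2.2.2.1, fun s hs h1 h2 h3 => h.2.2.2.2 s (hP hs) h1 h2 h3⟩

lemma al_mono {S P : Finset ℂ} (hP : P ⊆ S) (c q : ℂ) : al S c q ≤ al P c q := by
  rw [le_al_iff]
  exact ⟨al_le_half S c q, fun r hr hX => al_le_att (hP hr) hX⟩

lemma Ed.mono {S P : Finset ℂ} {c q : ℂ} (h : Ed S c q) (hP : P ⊆ S) : Ed P c q := by
  unfold Ed at *
  linarith [al_mono hP c q, al_mono hP q c]

lemma Tr_XX {S : Finset ℂ} {c q r : ℂ} (h : Tr S c q r) : 0 < XX c q r := h.2.2.2.1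

section sums
open Classical

/-- sum over the (oriented, pointed) triangles of a family -/
noncomputable def sT (P : Finset ℂ) (T : ℂ → ℂ → ℂ → Prop) (f : ℂ → ℂ → ℂ → ℝ) : ℝ :=
  ∑ c ∈ P, ∑ q ∈ P, ∑ r ∈ P, if T c q r then f c q r else 0

/-- sum over directed edges -/
noncomputable def sE (P : Finset ℂ) (X : ℂ → ℂ → Prop) (h : ℂ → ℂ → ℝ) : ℝ :=
  ∑ c ∈ P, ∑ q ∈ P, if X c q then h c q else 0

lemma sT_cyc {P : Finset ℂ} {T : ℂ → ℂ → ℂ → Prop} (hT : ∀ c q r, T c q r → T q r c)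
    (f : ℂ → ℂ → ℂ → ℝ) : sT P T (fun c q r => f q r c) = sT P T f := by
  set G : ℂ → ℂ → ℂ → ℝ := fun x y z => if T x y z then f x y z else 0 with hGd
  calc sT P T (fun c q r => f q r c) = ∑ c ∈ P, ∑ q ∈ P, ∑ r ∈ P, G q r c := by
        unfold sT
        refine Finset.sum_congr rfl fun c _ => Finset.sum_congr rfl fun q _ =>
          Finset.sum_congr rfl fun r _ => ?_
        simp only [hGd]
        by_cases h : T c q r
        · rw [if_pos h, if_pos (hT _ _ _ h)]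
        · rw [if_neg h, if_neg (fun h' => h (hT _ _ _ (hT _ _ _ h')))]
    _ = ∑ q ∈ P, ∑ c ∈ P, ∑ r ∈ P, G q r c := Finset.sum_comm
    _ = ∑ q ∈ P, ∑ r ∈ P, ∑ c ∈ P, G q r c := by
        refine Finset.sum_congr rfl fun q _ => ?_
        rw [Finset.sum_comm]
    _ = sT P T f := rfl

lemma sT_cyc2 {P : Finset ℂ} {T : ℂ → ℂ → ℂ → Prop} (hT : ∀ c q r, T c q r → T q r c)
    (f : ℂ → ℂ → ℂ → ℝ) : sT P T (fun c q r => f r c q) = sT P T f := by
  rw [← sT_cyc hT f, ← sT_cyc hT (fun c q r => f q r c)]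

lemma sT_add {P : Finset ℂ} {T : ℂ → ℂ → ℂ → Prop} (f g : ℂ → ℂ → ℂ → ℝ) :
    sT P T (fun c q r => f c q r + g c q r) = sT P T f + sT P T g := by
  unfold sT
  simp only [← Finset.sum_add_distrib]
  refine Finset.sum_congr rfl fun c _ => Finset.sum_congr rfl fun q _ =>
    Finset.sum_congr rfl fun r _ => ?_
  split_ifs <;> simp

lemma sT_mul {P : Finset ℂ} {T : ℂ → ℂ → ℂ → Prop} (k : ℝ) (f : ℂ → ℂ → ℂ → ℝ) :
    sT P T (fun c q r => k * f c q r) = k * sT P T f := by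
  unfold sT
  simp only [Finset.mul_sum]
  refine Finset.sum_congr rfl fun c _ => Finset.sum_congr rfl fun q _ =>
    Finset.sum_congr rfl fun r _ => ?_
  split_ifs <;> simp

lemma sT_avg {P : Finset ℂ} {T : ℂ → ℂ → ℂ → Prop} (hT : ∀ c q r, T c q r → T q r c)
    (f : ℂ → ℂ → ℂ → ℝ) : sT P T (fun c q r => f c q r + f q r c + f r c q) = 3 * sT P T f := by
  have h1 := sT_add (P := P) (T := T) (fun c q r => f c q r + f q r c) (fun c q r => f r c q)
  have h2 := sT_add (P := P) (T := T) f (fun c q r => f q r c)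
  have h3 : sT P T (fun c q r => f q r c) = sT P T f := sT_cyc hT f
  have h4 : sT P T (fun c q r => f r c q) = sT P T f := sT_cyc2 hT f
  rw [h1, h2, h3, h4]; ring

lemma sT_mono {P : Finset ℂ} {T : ℂ → ℂ → ℂ → Prop} {f g : ℂ → ℂ → ℂ → ℝ}
    (h : ∀ c q r, T c q r → f c q r ≤ g c q r) : sT P T f ≤ sT P T g := by
  unfold sT
  refine Finset.sum_le_sum fun c _ => Finset.sum_le_sum fun q _ => Finset.sum_le_sum fun r _ => ?_
  split_ifs with h1
  · exact h c q r h1
  · exact le_rfl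

lemma sT_congr {P : Finset ℂ} {T : ℂ → ℂ → ℂ → Prop} {f g : ℂ → ℂ → ℂ → ℝ}
    (h : ∀ c q r, T c q r → f c q r = g c q r) : sT P T f = sT P T g :=
  le_antisymm (sT_mono fun c q r ht => (h c q r ht).le) (sT_mono fun c q r ht => (h c q r ht).ge)

lemma sE_mono {P : Finset ℂ} {X : ℂ → ℂ → Prop} {f g : ℂ → ℂ → ℝ}
    (h : ∀ c ∈ P, ∀ q ∈ P, X c q → f c q ≤ g c q) : sE P X f ≤ sE P X g := by
  unfold sE
  refine Finset.sum_le_sum fun c hc => Finset.sum_le_sum fun q hq => ?_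
  split_ifs with h1
  · exact h c hc q hq h1
  · exact le_rfl

/-- sums over triangles of functions of an edge -/
lemma sT_edge {P : Finset ℂ} {T : ℂ → ℂ → ℂ → Prop} (hT : Fam P T) (h : ℂ → ℂ → ℝ) :
    sT P T (fun c q _ => h c q) = sE P (Lf T) h := by
  unfold sT sE
  refine Finset.sum_congr rfl fun c _ => Finset.sum_congr rfl fun q _ => ?_
  by_cases hX : Lf T c q
  · obtain ⟨r, hr⟩ := hX
    rw [if_pos ⟨r, hr⟩, Finset.sum_eq_single r]
    · rw [if_pos hr]
    · intro r' _ hne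
      rw [if_neg]
      intro h'
      exact hne (Tr_unique (hT.tr _ _ _ h') (hT.tr _ _ _ hr))
    · intro hn
      exact absurd (hT.tr _ _ _ hr).2.2.1 hn
  · rw [if_neg hX]
    apply Finset.sum_eq_zero
    intro r _
    rw [if_neg]
    intro h'
    exact hX ⟨r, h'⟩

lemma sE_comm {P : Finset ℂ} (X : ℂ → ℂ → Prop) (h : ℂ → ℂ → ℝ) :
    sE P X h = sE P (fun c q => X q c) (fun c q => h q c) := by
  unfold sE
  rw [Finset.sum_comm]

/-- antisymmetric functions vanishing on boundary edges -/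
lemma sE_anti {P : Finset ℂ} {X : ℂ → ℂ → Prop} {h : ℂ → ℂ → ℝ}
    (h1 : ∀ c ∈ P, ∀ q ∈ P, X c q → X q c → h q c = -h c q)
    (h2 : ∀ c ∈ P, ∀ q ∈ P, X c q → ¬ X q c → h c q = 0) : sE P X h = 0 := by
  have e : 2 * sE P X h = 0 := by
    rw [two_mul]
    nth_rewrite 2 [sE_comm]
    unfold sE
    simp only [← Finset.sum_add_distrib]
    refine Finset.sum_eq_zero fun c hc => Finset.sum_eq_zero fun q hq => ?_
    by_cases k1 : X c q <;> by_cases k2 : X q c
    · rw [if_pos k1, if_pos k2, h1 c hc q hq k1 k2]; ring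
    · rw [if_pos k1, if_neg k2, h2 c hc q hq k1 k2]; ring
    · rw [if_neg k1, if_pos k2, h2 q hq c hc k2 k1]; ring
    · rw [if_neg k1, if_neg k2]; ring
  linarith

end sums

/-- no foreign point lies inside a triangle of a region. -/
theorem no_inside {S P : Finset ℂ} {T : ℂ → ℂ → ℂ → Prop} (hG : Gen S) (hP : Closed S P)
    (hc : P.card ≤ 5) (hT : Rg S P T) {f : ℂ} (hf : f ∈ S) (hfP : f ∉ P) {c q r : ℂ}
    (ht : T c q r) : ¬ (0 < XX c q f ∧ 0 < XX q r f ∧ 0 < XX r c f) := by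
  rintro ⟨k1, k2, k3⟩
  have hd : ∀ p ∈ P, 2 ≤ ‖p - f‖ := by
    intro p hp
    by_contra hcon
    push Not at hcon
    apply hfP
    apply hP.2 f hf p hp
    unfold Sh
    rwa [norm_sub_rev]
  obtain ⟨θ, hθ⟩ := sector hc hd
  have hgen : ∀ u ∈ P, ∀ v ∈ P, u ≠ v → XX u v f ≠ 0 := by
    intro u hu v hv huv
    exact hG.1 u (hP.1 hu) v (hP.1 hv) f hf huv (fun h => hfP (h ▸ hu)) (fun h => hfP (h ▸ hv))
  set δ : ℂ → ℂ → ℝ := fun p q => ang f p q - (θ q - θ p) with hδ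
  have hzero : sE P (Lf T) δ = 0 := by
    apply sE_anti
    · intro u hu v hv huv hvu
      obtain ⟨w, hw⟩ := huv
      have := (Tr_ne (hT.tr _ _ _ hw)).1
      simp only [hδ]
      rw [ang_anti (hgen u hu v hv this)]; ring
    · intro u hu v hv huv hvu
      obtain ⟨w, hw⟩ := huv
      rcases hT.bd _ _ _ hw with h | h
      · exact absurd h hvu
      · simp only [hδ]
        rw [hθ u hu v hv h.2]; ring
  rw [← sT_edge hT.toFam] at hzero
  have havg := sT_avg (P := P) hT.cyc (fun c q _ => δ c q)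
  rw [hzero, mul_zero] at havg
  have hnn : ∀ u v w, T u v w → 0 ≤ δ u v + δ v w + δ w u ∧
      (0 < XX u v f → 0 < XX v w f → 0 < XX w u f → 0 < δ u v + δ v w + δ w u) := by
    intro u v w h
    have hTr := hT.tr _ _ _ h
    obtain ⟨n1, n2, n3⟩ := Tr_ne hTr
    have h1 := ang_sum (f := f) (Tr_XX hTr) (hgen u hTr.1 v hTr.2.1 n1)
      (hgen v hTr.2.1 w hTr.2.2.1 n2) (hgen w hTr.2.2.1 u hTr.1 n3)
    have e : δ u v + δ v w + δ w u = ang f u v + ang f v w + ang f w u := by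
      simp only [hδ]; ring
    rw [e]
    exact h1
  have hTr := hT.tr _ _ _ ht
  -- a sum of nonnegative terms with a positive one
  classical
  have hpos : 0 < sT P T (fun c q r => δ c q + δ q r + δ r c) := by
    unfold sT
    have nn : ∀ u v w, 0 ≤ (if T u v w then δ u v + δ v w + δ w u else 0) := by
      intro u v w
      split_ifs with h
      · exact (hnn u v w h).1
      · exact le_rfl
    apply Finset.sum_pos' (fun u _ => Finset.sum_nonneg fun v _ => Finset.sum_nonneg fun w _ => nn u v w)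
    refine ⟨c, hTr.1, ?_⟩
    apply Finset.sum_pos' (fun v _ => Finset.sum_nonneg fun w _ => nn c v w)
    refine ⟨q, hTr.2.1, ?_⟩
    apply Finset.sum_pos' (fun w _ => nn c q w)
    refine ⟨r, hTr.2.2.1, ?_⟩
    rw [if_pos ht]
    exact (hnn c q r ht).2 k1 k2 k3
  linarith

/-- The triangles of a region are Delaunay triangles of the whole set. -/
theorem Rg_Tr {S P : Finset ℂ} {T : ℂ → ℂ → ℂ → Prop} (hG : Gen S) (hP : Closed S P)
    (hc : P.card ≤ 5) (hT : Rg S P T) {c q r : ℂ} (ht : T c q r) : Tr S c q r := by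
  classical
  by_contra hcon
  have hTr := hT.tr _ _ _ ht
  have hPS := hP.1
  obtain ⟨s, hs, hsc, hsq, hsr, hIC⟩ : ∃ s ∈ S, s ≠ c ∧ s ≠ q ∧ s ≠ r ∧ IC c q r s ≤ 0 := by
    by_contra h
    push Not at h
    exact hcon ⟨hPS hTr.1, hPS hTr.2.1, hPS hTr.2.2.1, Tr_XX hTr, h⟩
  have hsP : s ∉ P := by
    intro h
    have := hTr.2.2.2.2 s h hsc hsq hsr
    linarith
  -- minimize the power of `s`
  set A : Finset (ℂ × ℂ × ℂ) := (P ×ˢ P ×ˢ P).filter (fun x => T x.1 x.2.1 x.2.2) with hA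
  have hAne : A.Nonempty := ⟨(c, q, r), by
    rw [hA, Finset.mem_filter, Finset.mem_product, Finset.mem_product]
    exact ⟨⟨hTr.1, hTr.2.1, hTr.2.2.1⟩, ht⟩⟩
  obtain ⟨x, hx, hmin⟩ := Finset.exists_min_image A
    (fun x => IC x.1 x.2.1 x.2.2 s / XX x.1 x.2.1 x.2.2) hAne
  have hmem : ∀ u v w, T u v w → (u, v, w) ∈ A := by
    intro u v w h
    have h' := hT.tr _ _ _ h
    rw [hA, Finset.mem_filter, Finset.mem_product, Finset.mem_product]
    exact ⟨⟨h'.1, h'.2.1, h'.2.2.1⟩, h⟩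
  obtain ⟨u, v, w⟩ := x
  rw [hA, Finset.mem_filter] at hx
  have hTx : T u v w := hx.2
  have hmin' : ∀ a b d, T a b d → IC u v w s / XX u v w ≤ IC a b d s / XX a b d :=
    fun a b d h => hmin (a, b, d) (hmem a b d h)
  have hneg : IC u v w s / XX u v w ≤ 0 := by
    refine (hmin' c q r ht).trans ?_
    exact div_nonpos_of_nonpos_of_nonneg hIC (Tr_XX hTr).le
  -- the key step
  have key : ∀ a b d, T a b d → IC a b d s / XX a b d = IC u v w s / XX u v w →
      ¬ XX a b s < 0 := by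
    intro a b d hab he hneg'
    have hTab := hT.tr _ _ _ hab
    have hX := Tr_XX hTab
    obtain ⟨n1, n2, n3⟩ := Tr_ne hTab
    rcases hT.bd _ _ _ hab with ⟨d', hd'⟩ | ⟨hE, _⟩
    · have hT' := hT.tr _ _ _ hd'
      have hX' := Tr_XX hT'
      have hdd : d' ≠ d := by
        rintro rfl
        rw [XX_swap] at hX'
        linarith
      obtain ⟨m1, m2, m3⟩ := Tr_ne hT'
      have hI : 0 < IC a b d d' := hTab.2.2.2.2 d' hT'.2.2.1 (Ne.symm m2) m3 hdd
      have hle := hmin' b a d' hd'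
      rw [← he] at hle
      rw [div_le_div_iff₀ hX hX'] at hle
      -- radical axis
      have hrad : IC a b d s * XX b a d' - IC b a d' s * XX a b d = XX a b s * (-IC a b d d') := by
        simp only [IC, DD, dt, XX, cr, Complex.sub_re, Complex.sub_im]; ring
      have : 0 < XX a b s * (-IC a b d d') := mul_pos_of_neg_of_neg hneg' (by linarith)
      linarith
    · have := IC_of_Ed (hPS hTab.2.2.1) hs hE hX hneg'
      have h0 : IC a b d s / XX a b d ≤ 0 := by rw [he]; exact hneg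
      have h1 : 0 < IC a b d s / XX a b d := div_pos this hX
      linarith
  have hTu := hT.tr _ _ _ hTx
  have hT2 := hT.cyc _ _ _ hTx
  have hT3 := hT.cyc _ _ _ hT2
  have e2 : IC v w u s / XX v w u = IC u v w s / XX u v w := by rw [IC_cyc, XX_cyc]
  have e3 : IC w u v s / XX w u v = IC u v w s / XX u v w := by
    rw [IC_cyc, XX_cyc, IC_cyc, XX_cyc]
  have g : ∀ a ∈ P, ∀ b ∈ P, a ≠ b → XX a b s ≠ 0 := by
    intro a ha b hb hab
    exact hG.1 a (hPS ha) b (hPS hb) s hs hab (fun h => hsP (h ▸ ha)) (fun h => hsP (h ▸ hb))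
  obtain ⟨n1, n2, n3⟩ := Tr_ne hTu
  have p1 : 0 < XX u v s := lt_of_le_of_ne (not_lt.mp (key u v w hTx rfl))
    (Ne.symm (g u hTu.1 v hTu.2.1 n1))
  have p2 : 0 < XX v w s := lt_of_le_of_ne (not_lt.mp (key v w u hT2 e2))
    (Ne.symm (g v hTu.2.1 w hTu.2.2.1 n2))
  have p3 : 0 < XX w u s := lt_of_le_of_ne (not_lt.mp (key w u v hT3 e3))
    (Ne.symm (g w hTu.2.2.1 u hTu.1 n3))
  exact no_inside hG hP hc hT hs hsP hTx ⟨p1, p2, p3⟩

end FT58
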