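import Pool.Agent.Lib.MP_49fa77_co.Num5

/-!
# Slack of the inequality for triangles with one short side
-/

namespace FT58

open Real MeasureTheory intervalIntegral Set

lemma qh_lip {x y : ℝ} (h : x ≤ y) : qh y - qh x ≤ bb * (y - x) := by
  have h4 : Mi 1 (4 / 3) y - Mi 1 (4 / 3) x ≤ 4 / 3 * (y - x) := by
    rw [Mi_sub (by norm_num) (by norm_num)]
    calc (∫ θ in x..y, mi 1 (4 / 3) θ) ≤ ∫ θ in x..y, (4 / 3 : ℝ) := by
          apply intervalIntegral.integral_mono_on h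
          · exact mi_intInt (by norm_num) (by norm_num) _ _
          · exact intervalIntegrable_const
          · intro s _
            exact mi_le (by norm_num) (by norm_num)
      _ = _ := by simp; ring
  unfold qh bb
  linarith

lemma qh_conv2 {x d₀ d : ℝ} (hx : 0 ≤ x) (h0 : 0 ≤ d₀) (hd : d₀ ≤ d) (h : x + d ≤ π / 2) :
    qh (x + d₀) + qh (x - d₀) ≤ qh (x + d) + qh (x - d) := by
  unfold qh
  have h1 : Mi 1 (4 / 3) (x + d) - Mi 1 (4 / 3) (x + d₀)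
      = ∫ s in d₀..d, mi 1 (4 / 3) (x + s) := by
    rw [Mi_sub (by norm_num) (by norm_num), intervalIntegral.integral_comp_add_left]
  have h2 : Mi 1 (4 / 3) (x - d₀) - Mi 1 (4 / 3) (x - d)
      = ∫ s in d₀..d, mi 1 (4 / 3) (x - s) := by
    rw [Mi_sub (by norm_num) (by norm_num), intervalIntegral.integral_comp_sub_left]
  have h3 : (∫ s in d₀..d, mi 1 (4 / 3) (x - s)) ≤ ∫ s in d₀..d, mi 1 (4 / 3) (x + s) := by
    apply intervalIntegral.integral_mono_on hd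
    · exact ((mi_continuous (by norm_num) (by norm_num)).comp
        (continuous_const.sub continuous_id)).intervalIntegrable _ _
    · exact ((mi_continuous (by norm_num) (by norm_num)).comp
        (continuous_const.add continuous_id)).intervalIntegrable _ _
    · intro s hs
      have hs0 : 0 ≤ s := h0.trans hs.1
      have hc : cos (x + s) ≤ cos (x - s) := by
        apply cos_anti_abs
        · rw [abs_of_nonneg (by linarith : 0 ≤ x + s), abs_le]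
          constructor <;> linarith
        · rw [abs_of_nonneg (by linarith : 0 ≤ x + s)]
          linarith [hs.2, pi_pos]
      have hc0 : 0 ≤ cos (x + s) := cos_nonneg_of_mem_Icc ⟨by linarith [pi_pos], by linarith [hs.2]⟩
      unfold mi
      apply div_le_div_of_nonneg_left (by norm_num)
      · exact lt_max_of_lt_right (by norm_num)
      · apply max_le_max _ le_rfl
        gcongr
  linarith

/-- exact formula in the near regime -/
lemma T1near {a θ ω₂ ω₃ : ℝ} (ha : 0 < a) (ha2 : a < 2) (h0 : 0 < θ) (h1 : θ ≤ π / 3)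
    (h : ω₂ + ω₃ = θ) (h2 : |ω₂| ≤ π / 6) (h3 : |ω₃| ≤ π / 6) (hR : a ^ 2 ≤ 4 / 3 * sin θ ^ 2) :
    0 < tan ω₂ + tan ω₃ ∧
    (tan ω₂ + tan ω₃) * (Uf a (π / 2 - θ) + qh ω₂ + qh ω₃)
      = ((tan ω₂ + tan ω₃) * (√(4 - a ^ 2) / 2) - a) ^ 2 + a ^ 2 / 4 * (tan ω₂ - tan ω₃) ^ 2 := by
  have hp := pi_pos
  have hs : 0 < sin θ := sin_pos_of_pos_of_lt_pi h0 (by linarith)
  rw [abs_le] at h2 h3
  have c2 : 0 < cos ω₂ := cos_pos_of_mem_Ioo ⟨by linarith, by linarith⟩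
  have c3 : 0 < cos ω₃ := cos_pos_of_mem_Ioo ⟨by linarith, by linarith⟩
  have e1 : sin θ = cos ω₂ * cos ω₃ * (tan ω₂ + tan ω₃) := by
    rw [← h, sin_add, tan_eq_sin_div_cos, tan_eq_sin_div_cos]; field_simp
  have e2 : cos θ = cos ω₂ * cos ω₃ * (1 - tan ω₂ * tan ω₃) := by
    rw [← h, cos_add, tan_eq_sin_div_cos, tan_eq_sin_div_cos]; field_simp
  have hs' : 0 < tan ω₂ + tan ω₃ := by
    rw [e1] at hs
    exact (pos_iff_pos_of_mul_pos hs).mp (mul_pos c2 c3)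
  refine ⟨hs', ?_⟩
  rw [Uf_small' h0 (by linarith) hR, qh_tan' (abs_le.mpr h2), qh_tan' (abs_le.mpr h3)]
  have e3 : cos θ / sin θ = (1 - tan ω₂ * tan ω₃) / (tan ω₂ + tan ω₃) := by
    rw [e1, e2]; field_simp
  rw [e3]
  unfold Ar
  set y := √(4 - a ^ 2) with hy
  have hy2 : y ^ 2 = 4 - a ^ 2 := sq_sqrt (by nlinarith)
  have hc := cc_pi
  set T₂ := tan ω₂
  set T₃ := tan ω₃
  have e4 : (T₂ + T₃) * (a ^ 2 * ((1 - T₂ * T₃) / (T₂ + T₃))) = a ^ 2 * (1 - T₂ * T₃) := by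
    field_simp
  have e5 : cc * (π / 2) = √3 := by linarith
  have e6 : cc * ω₂ + cc * ω₃ = cc * θ := by rw [← h]; ring
  linear_combination e4 + (-(T₂ + T₃)) * e5 + (-(T₂ + T₃)) * e6 - (T₂ + T₃) ^ 2 / 4 * hy2

/-- numeric core of the large radius case -/
lemma caseA_num {a t y : ℝ} (h0 : 0.472 ≤ a) (h1 : a ≤ 0.748) (ht0 : 0 < t) (ht1 : t < 1)
    (hy : y ^ 2 = 4 - a ^ 2) (ht : √3 * a * (1 + t ^ 2) = 4 * t) :
    0.00395 * (2 * t) ≤ (a - t * y) ^ 2 := by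
  have s1 := sqrt3_gt
  have s2 := sqrt3_lt
  have s3 := sqrt3_sq
  -- range of `t`
  have hsa : 0.81752 ≤ √3 * a := by nlinarith
  have hsa2 : √3 * a ≤ 1.29559 := by nlinarith
  have t1 : 0.2043 ≤ t := by nlinarith
  have t2 : 0.21 ≤ t := by nlinarith
  have t3 : t ≤ 0.37 := by
    by_contra hcon
    push Not at hcon
    have : 4 * t ≤ 1.29559 * (1 + t ^ 2) := by
      rw [← ht]; apply mul_le_mul_of_nonneg_right hsa2; positivity
    nlinarith [mul_nonneg (sub_nonneg.mpr hcon.le) (sub_nonneg.mpr ht1.le)]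
  -- bound for `y`
  have hy3 : (y * (1 + t ^ 2)) ^ 2 = 4 * (1 + 2 / 3 * t ^ 2 + t ^ 4) := by
    have e : (√3 * a * (1 + t ^ 2)) ^ 2 = 16 * t ^ 2 := by rw [ht]; ring
    have e' : 3 * (a * (1 + t ^ 2)) ^ 2 = 16 * t ^ 2 := by
      rw [← e]; linear_combination (-(a * (1 + t ^ 2)) ^ 2) * s3
    linear_combination (1 + t ^ 2) ^ 2 * hy - e' / 3
  have hy4 : y * (1 + t ^ 2) ≤ 2 * (1 + t ^ 2 / 3 + 4 / 9 * t ^ 4) := by
    apply abs_le_of_sq_le_sq' _ (by positivity) |>.2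
    rw [hy3]
    have : (2 * (1 + t ^ 2 / 3 + 4 / 9 * t ^ 4)) ^ 2 - 4 * (1 + 2 / 3 * t ^ 2 + t ^ 4)
        = 4 * (8 / 27 * t ^ 6 + 16 / 81 * t ^ 8) := by ring
    have h8 : 0 ≤ 4 * (8 / 27 * t ^ 6 + 16 / 81 * t ^ 8) := by positivity
    linarith
  -- the difference
  have hE : t * (0.355 - 0.415 * t) ≤ (a - t * y) * (1 + t ^ 2) := by
    have h5 : √3 * ((a - t * y) * (1 + t ^ 2)) = 4 * t - √3 * (t * (y * (1 + t ^ 2))) := by
      linear_combination ht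
    have h6 : √3 * (t * (y * (1 + t ^ 2))) ≤ √3 * (t * (2 * (1 + t ^ 2 / 3 + 4 / 9 * t ^ 4))) := by
      gcongr
    have h7 : √3 * (t * (0.355 - 0.415 * t)) ≤ 4 * t - √3 * (t * (2 * (1 + t ^ 2 / 3 + 4 / 9 * t ^ 4))) := by
      have h8 : √3 * (0.355 - 0.415 * t + 2 * (1 + t ^ 2 / 3 + 4 / 9 * t ^ 4)) ≤ 4 := by
        have h9 : 0.355 - 0.415 * t + 2 * (1 + t ^ 2 / 3 + 4 / 9 * t ^ 4) ≤ 2.30938 := by
          have q1 : 0 ≤ (t - 0.21) * (0.37 - t) := mul_nonneg (by linarith) (by linarith)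
          have q2 : t ^ 2 ≤ 0.58 * t - 0.0777 := by nlinarith
          have q3 : t ^ 4 ≤ 0.1369 * t ^ 2 := by
            have : t ^ 4 = t ^ 2 * t ^ 2 := by ring
            rw [this]
            apply mul_le_mul_of_nonneg_right _ (sq_nonneg t)
            nlinarith
          linarith
        nlinarith
      nlinarith
    have h10 : √3 * (t * (0.355 - 0.415 * t)) ≤ √3 * ((a - t * y) * (1 + t ^ 2)) := by
      rw [h5]; linarith
    exact le_of_mul_le_mul_left h10 (by positivity)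
  have hm : 0 ≤ 0.355 - 0.415 * t := by linarith
  have h11 : (t * (0.355 - 0.415 * t)) ^ 2 ≤ ((a - t * y) * (1 + t ^ 2)) ^ 2 := by
    apply pow_le_pow_left₀ _ hE
    positivity
  have h12 : 0.00395 * 2 * (1 + t ^ 2) ^ 2 ≤ t * (0.355 - 0.415 * t) ^ 2 := by
    have q1 : 0 ≤ (t - 0.21) * (0.37 - t) := mul_nonneg (by linarith) (by linarith)
    have q2 : t ^ 2 ≤ 0.58 * t - 0.0777 := by nlinarith
    have q4 : (1 + t ^ 2) ^ 2 ≤ 1.3 := by nlinarith [sq_nonneg t]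
    have q5 : 0.0103 ≤ t * (0.355 - 0.415 * t) ^ 2 := by nlinarith
    nlinarith
  have h13 : 0.00395 * (2 * t) * (1 + t ^ 2) ^ 2 ≤ (a - t * y) ^ 2 * (1 + t ^ 2) ^ 2 := by
    calc 0.00395 * (2 * t) * (1 + t ^ 2) ^ 2 = t * (0.00395 * 2 * (1 + t ^ 2) ^ 2) := by ring
      _ ≤ t * (t * (0.355 - 0.415 * t) ^ 2) := by gcongr
      _ = (t * (0.355 - 0.415 * t)) ^ 2 := by ring
      _ ≤ _ := h11
      _ = _ := by ring
  exact le_of_mul_le_mul_right h13 (by positivity)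

/-- large radius -/
lemma caseA {a θ : ℝ} (h0 : 0.472 ≤ a) (h1 : a ≤ 0.748) (hθ0 : 0 < θ) (hθ1 : θ ≤ π / 3)
    (hR : 4 / 3 * sin θ ^ 2 ≤ a ^ 2) : 0.00395 ≤ Uf a (π / 2 - θ) + 2 * qh (θ / 2) := by
  have hp := pi_pos
  have s2 := sqrt3_lt
  have s3 := sqrt3_sq
  have s0 := sqrt3_pos
  have ha : 0 < a := by linarith
  set θ' := arcsin (√3 / 2 * a) with hθ'
  have hx1 : √3 / 2 * a ≤ 1 := by nlinarith
  have hx0 : 0 < √3 / 2 * a := by positivity
  have hsin : sin θ' = √3 / 2 * a := sin_arcsin (by linarith) hx1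
  have hpos : 0 < θ' := arcsin_pos.mpr hx0
  have hle2 : θ' ≤ π / 2 := arcsin_le_pi_div_two _
  have hle3 : θ' ≤ π / 3 := by
    by_contra hcon
    push Not at hcon
    have := sin_lt_sin_of_lt_of_le_pi_div_two (by linarith) hle2 hcon
    rw [hsin, sin_pi_div_three] at this
    nlinarith
  have hθle : θ ≤ θ' := by
    by_contra hcon
    push Not at hcon
    have h2 := sin_lt_sin_of_lt_of_le_pi_div_two (by linarith) (by linarith) hcon
    rw [hsin] at h2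
    have h3 : (√3 / 2 * a) ^ 2 < sin θ ^ 2 := by gcongr
    have h4 : (√3 / 2 * a) ^ 2 = 3 / 4 * a ^ 2 := by rw [mul_pow, div_pow, s3]; ring
    rw [h4] at h3
    linarith
  have hsq : 4 / 3 * sin θ' ^ 2 = a ^ 2 := by
    rw [hsin, mul_pow, div_pow, s3]; ring
  have e1 := Uf_large' ha (by linarith) hθ0.le (by linarith) hR
  have e2 := Uf_large' ha (by linarith) hpos.le hle2 hsq.le
  have e3 := qh_lip (x := θ / 2) (y := θ' / 2) (by linarith)
  obtain ⟨n1, n2⟩ := T1near (ω₂ := θ' / 2) (ω₃ := θ' / 2) ha (by linarith) hpos hle3 (by ring)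
    (by rw [abs_of_pos (by linarith)]; linarith) (by rw [abs_of_pos (by linarith)]; linarith) hsq.ge
  set t := tan (θ' / 2) with ht
  have ht0 : 0 < t := by linarith
  have ht1 : t < 1 := by
    rw [ht, ← tan_pi_div_four]
    exact tan_lt_tan_of_nonneg_of_lt_pi_div_two (by linarith) (by linarith) (by linarith)
  have hc : 0 < cos (θ' / 2) := cos_pos_of_mem_Ioo ⟨by linarith, by linarith⟩
  have hrel : √3 * a * (1 + t ^ 2) = 4 * t := by
    have h4 : sin θ' = 2 * sin (θ' / 2) * cos (θ' / 2) := by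
      rw [← sin_two_mul]; congr 1; ring
    have h5 : sin (θ' / 2) = t * cos (θ' / 2) := by
      rw [ht, tan_eq_sin_div_cos]; field_simp
    have h6 := sin_sq_add_cos_sq (θ' / 2)
    rw [h5] at h4 h6
    rw [hsin] at h4
    have h7 : cos (θ' / 2) ^ 2 * (1 + t ^ 2) = 1 := by linear_combination h6
    linear_combination 2 * (1 + t ^ 2) * h4 + 4 * t * h7
  have hnum := caseA_num h0 h1 ht0 ht1 (y := √(4 - a ^ 2)) (sq_sqrt (by nlinarith)) hrel
  have h8 : 0.00395 ≤ Uf a (π / 2 - θ') + qh (θ' / 2) + qh (θ' / 2) := by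
    have h9 : (2 * t) * 0.00395 ≤ (2 * t) * (Uf a (π / 2 - θ') + qh (θ' / 2) + qh (θ' / 2)) := by
      have : (2 * t) * (Uf a (π / 2 - θ') + qh (θ' / 2) + qh (θ' / 2))
          = (t + t) * (Uf a (π / 2 - θ') + qh (θ' / 2) + qh (θ' / 2)) := by ring
      rw [this, n2]
      nlinarith
    exact le_of_mul_le_mul_left h9 (by positivity)
  rw [e2] at h8
  rw [e1]
  linarith

/-- one wide long end -/
lemma caseB {a θ ω₂ ω₃ : ℝ} (h0 : 0.472 ≤ a) (h1 : a ≤ 0.748) (hθ0 : 0 < θ) (hθ1 : θ ≤ π / 3)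
    (hR : a ^ 2 ≤ 4 / 3 * sin θ ^ 2) (h : ω₂ + ω₃ = θ) (h2 : ω₂ ≤ π / 2) (hw : π / 6 < ω₂) :
    0.00395 ≤ Uf a (π / 2 - θ) + qh ω₂ + qh ω₃ := by
  have hp := pi_pos
  have s1 := sqrt3_gt
  have s2 := sqrt3_lt
  have s3 := sqrt3_sq
  have s0 := sqrt3_pos
  have ha : 0 < a := by linarith
  have e1 := qh_conv2 (x := θ / 2) (d₀ := π / 6 - θ / 2) (d := ω₂ - θ / 2) (by linarith)
    (by linarith) (by linarith) (by linarith)
  rw [show θ / 2 + (π / 6 - θ / 2) = π / 6 by ring, show θ / 2 - (π / 6 - θ / 2) = θ - π / 6 by ring,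
    show θ / 2 + (ω₂ - θ / 2) = ω₂ by ring, show θ / 2 - (ω₂ - θ / 2) = ω₃ by linarith] at e1
  obtain ⟨n1, n2⟩ := T1near (ω₂ := π / 6) (ω₃ := θ - π / 6) ha (by linarith) hθ0 hθ1 (by ring)
    (by rw [abs_of_pos (by linarith)]) (by rw [abs_le]; constructor <;> linarith) hR
  rw [tan_pi_div_six] at n1 n2
  set T := tan (θ - π / 6) with hT
  set y := √(4 - a ^ 2) with hy
  have hy2 : y ^ 2 = 4 - a ^ 2 := sq_sqrt (by nlinarith)
  have hy0 : 0 < y := sqrt_pos.mpr (by nlinarith)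
  set s := 1 / √3 + T with hs
  have hyu : y ≤ 2 - a ^ 2 / 4 := by
    apply abs_le_of_sq_le_sq' _ (by nlinarith) |>.2
    rw [hy2]; nlinarith [sq_nonneg (a ^ 2)]
  have i3 := inv_sqrt3_lt
  have i3' : 0.5773 < 1 / √3 := by rw [lt_div_iff₀ s0]; nlinarith
  set r := 1 / √3 with hr
  have hrr : r ^ 2 = 1 / 3 := by rw [hr, div_pow, s3]; norm_num
  have hk : y + a * r + 0.00395 / a ≤ 4 * r := by
    have : 0.00395 / a ≤ 0.0084 := by
      rw [div_le_iff₀ ha]; nlinarith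
    nlinarith
  have hk2 : a * y + a ^ 2 * r + 0.00395 ≤ 4 * r * a := by
    have := mul_le_mul_of_nonneg_left hk ha.le
    have e : a * (0.00395 / a) = 0.00395 := by field_simp
    nlinarith
  have hfin : 0.00395 * s ≤ (s * (y / 2) - a) ^ 2 + a ^ 2 / 4 * (r - T) ^ 2 := by
    have hTs : T = s - r := by rw [hs]; ring
    have e : (s * (y / 2) - a) ^ 2 + a ^ 2 / 4 * (r - T) ^ 2 - 0.00395 * s
        = (s - (a * y + a ^ 2 * r + 0.00395) / 2) ^ 2 + (16 / 3 * a ^ 2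
          - (a * y + a ^ 2 * r + 0.00395) ^ 2) / 4 := by
      rw [hTs]
      linear_combination s ^ 2 / 4 * hy2 + a ^ 2 * hrr
    have h5 : (a * y + a ^ 2 * r + 0.00395) ^ 2 ≤ (4 * r * a) ^ 2 := by
      apply pow_le_pow_left₀ (by positivity) hk2
    have h6 : (4 * r * a) ^ 2 = 16 / 3 * a ^ 2 := by
      linear_combination 16 * a ^ 2 * hrr
    have := sq_nonneg (s - (a * y + a ^ 2 * r + 0.00395) / 2)
    linarith
  rw [← n2] at hfin
  have h7 : 0.00395 ≤ Uf a (π / 2 - θ) + qh (π / 6) + qh (θ - π / 6) := by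
    apply le_of_mul_le_mul_left _ n1
    linarith
  linarith

/-- **Slack lemma.** -/
theorem T1_slack {a θ ω₂ ω₃ : ℝ} (h0 : 0.472 ≤ a) (h1 : a ≤ 0.748) (hθ0 : 0 < θ)
    (hθ1 : θ ≤ π / 3) (h : ω₂ + ω₃ = θ) (h2 : ω₂ ≤ π / 2) (h3 : ω₃ ≤ π / 2)
    (hS : Uf a (π / 2 - θ) + qh ω₂ + qh ω₃ < 0.00395) :
    (tan ω₂ - a / √(4 - a ^ 2)) ^ 2 ≤ 2.56 * (Uf a (π / 2 - θ) + qh ω₂ + qh ω₃) ∧
    (tan ω₃ - a / √(4 - a ^ 2)) ^ 2 ≤ 2.56 * (Uf a (π / 2 - θ) + qh ω₂ + qh ω₃) := by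
  have hp := pi_pos
  have ha : 0 < a := by linarith
  rcases le_total (4 / 3 * sin θ ^ 2) (a ^ 2) with hR | hR
  · exfalso
    have e1 := caseA h0 h1 hθ0 hθ1 hR
    have e2 := qh_pair hθ0.le h h2 h3
    linarith
  by_cases w2 : π / 6 < ω₂
  · exfalso
    have := caseB h0 h1 hθ0 hθ1 hR h h2 w2
    linarith
  by_cases w3 : π / 6 < ω₃
  · exfalso
    have := caseB h0 h1 hθ0 hθ1 hR (by linarith : ω₃ + ω₂ = θ) h3 w3
    linarith
  push Not at w2 w3
  obtain ⟨n1, n2⟩ := T1near (ω₂ := ω₂) (ω₃ := ω₃) ha (by linarith) hθ0 hθ1 h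
    (by rw [abs_le]; constructor <;> linarith) (by rw [abs_le]; constructor <;> linarith) hR
  set S := Uf a (π / 2 - θ) + qh ω₂ + qh ω₃ with hSd
  set T₂ := tan ω₂
  set T₃ := tan ω₃
  set y := √(4 - a ^ 2) with hy
  have hy2 : y ^ 2 = 4 - a ^ 2 := sq_sqrt (by nlinarith)
  have hy0 : 0 < y := sqrt_pos.mpr (by nlinarith)
  set s := T₂ + T₃ with hs
  have hS0 : 0 ≤ S := by
    have : 0 ≤ s * S := by rw [n2]; positivity
    exact nonneg_of_mul_nonneg_right this n1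
  have hX : (s * (y / 2) - a) ^ 2 ≤ 0.00395 * s := by
    have h5 : s * S ≤ s * 0.00395 := by gcongr
    have h6 : 0 ≤ a ^ 2 / 4 * (T₂ - T₃) ^ 2 := by positivity
    linarith
  -- upper bound for `s`
  have hsu : s ≤ 0.64 * (a ^ 2 * y ^ 2) := by
    by_contra hcon
    push Not at hcon
    have hy1 : 1.854 ≤ y := by
      apply le_sqrt_of_sq_le; nlinarith
    have hay : 3.46 ≤ a * y ^ 3 := by
      have h7 : 3.46 ^ 2 ≤ (a * y ^ 3) ^ 2 := by
        have : (a * y ^ 3) ^ 2 = a ^ 2 * (y ^ 2) ^ 3 := by ring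
        rw [this, hy2]
        set u := a ^ 2 with hu
        have u1 : 0.22278 ≤ u := by rw [hu]; nlinarith
        have u2 : u ≤ 0.5596 := by rw [hu]; nlinarith
        have : 0 ≤ (u - 0.22278) * (0.5596 - u) := mul_nonneg (by linarith) (by linarith)
        nlinarith [mul_nonneg (sub_nonneg.mpr u1) (sub_nonneg.mpr u2), mul_nonneg this (by linarith : 0 ≤ u)]
      exact abs_le_of_sq_le_sq' h7 (by positivity) |>.2
    set δ := s * (y / 2) - a with hδ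
    have hd1 : 0.1072 * a ≤ δ := by
      have h8 : 0.64 * (a ^ 2 * y ^ 2) * (y / 2) ≤ s * (y / 2) := by gcongr
      have h9 : 0.64 * (a ^ 2 * y ^ 2) * (y / 2) = 0.32 * a * (a * y ^ 3) := by ring
      rw [h9] at h8
      rw [hδ]
      nlinarith
    have hd2 : s * 1.854 ≤ 2 * (a + δ) := by
      have : s * y = 2 * (a + δ) := by rw [hδ]; ring
      rw [← this]; gcongr
    have hd3 : 0.0505 ≤ δ := by linarith
    nlinarith
  have hay0 : 0 < a ^ 2 * y ^ 2 := by positivity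
  have hsS : 4 * (s * S) ≤ 2.56 * S * (a ^ 2 * y ^ 2) := by
    have : s * S ≤ 0.64 * (a ^ 2 * y ^ 2) * S := by gcongr
    linarith
  have hss : a ^ 2 + y ^ 2 = 4 := by linarith
  constructor
  · have e : a ^ 2 * y ^ 2 * (T₂ - a / y) ^ 2 = (a * (T₂ * y - a)) ^ 2 := by
      field_simp
    have e2 : (a * (T₂ * y - a)) ^ 2 ≤ 4 * (s * S) := by
      rw [n2, hs]
      have : 4 * (((T₂ + T₃) * (y / 2) - a) ^ 2 + a ^ 2 / 4 * (T₂ - T₃) ^ 2)
          - (a * (T₂ * y - a)) ^ 2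
          = (y * ((T₂ + T₃) * (y / 2) - a) - a * (a / 2 * (T₂ - T₃))) ^ 2 := by
        linear_combination
          (-(((T₂ + T₃) * (y / 2) - a) ^ 2 + a ^ 2 / 4 * (T₂ - T₃) ^ 2)) * hss
      have := sq_nonneg (y * ((T₂ + T₃) * (y / 2) - a) - a * (a / 2 * (T₂ - T₃)))
      linarith
    have e3 : (T₂ - a / y) ^ 2 * (a ^ 2 * y ^ 2) ≤ 2.56 * S * (a ^ 2 * y ^ 2) := by
      calc (T₂ - a / y) ^ 2 * (a ^ 2 * y ^ 2) = a ^ 2 * y ^ 2 * (T₂ - a / y) ^ 2 := by ring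
        _ ≤ _ := by rw [e]; linarith
    exact le_of_mul_le_mul_right e3 hay0
  · have e : a ^ 2 * y ^ 2 * (T₃ - a / y) ^ 2 = (a * (T₃ * y - a)) ^ 2 := by
      field_simp
    have e2 : (a * (T₃ * y - a)) ^ 2 ≤ 4 * (s * S) := by
      rw [n2, hs]
      have : 4 * (((T₂ + T₃) * (y / 2) - a) ^ 2 + a ^ 2 / 4 * (T₂ - T₃) ^ 2)
          - (a * (T₃ * y - a)) ^ 2
          = (y * ((T₂ + T₃) * (y / 2) - a) - a * (a / 2 * (T₃ - T₂))) ^ 2 := by
        linear_combination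
          (-(((T₂ + T₃) * (y / 2) - a) ^ 2 + a ^ 2 / 4 * (T₂ - T₃) ^ 2)) * hss
      have := sq_nonneg (y * ((T₂ + T₃) * (y / 2) - a) - a * (a / 2 * (T₃ - T₂)))
      linarith
    have e3 : (T₃ - a / y) ^ 2 * (a ^ 2 * y ^ 2) ≤ 2.56 * S * (a ^ 2 * y ^ 2) := by
      calc (T₃ - a / y) ^ 2 * (a ^ 2 * y ^ 2) = a ^ 2 * y ^ 2 * (T₃ - a / y) ^ 2 := by ring
        _ ≤ _ := by rw [e]; linarith
    exact le_of_mul_le_mul_right e3 hay0

end FT58
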