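import Pool.Agent.Lib.MP_49fa77_co.Cluster

/-!
# Clusters of two and three points
-/

namespace FT58

open Real MeasureTheory Set

/-- the exact value of a triangle -/
noncomputable def VT (D : ℝ) (x y z : ℂ) : ℝ :=
  QQ D (‖y - x‖ / 2) (att x y z) + QQ D (‖z - y‖ / 2) (att y z x) + QQ D (‖x - z‖ / 2) (att z x y)

lemma VT_cyc (D : ℝ) (x y z : ℂ) : VT D y z x = VT D x y z := by
  unfold VT; ring

lemma kap_eq (D : ℝ) : (cc * D - 1) * (π / 2) = kap D := by
  unfold kap
  have := cc_pi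
  linear_combination D / 2 * this

lemma VT_good {D : ℝ} (hD0 : 0 ≤ D) (hD1 : D ≤ 1) {x y z : ℂ} (hX : 0 < XX x y z)
    (h : (an x y z ≤ π / 2 ∧ an y z x ≤ π / 2 ∧ an z x y ≤ π / 2) ∨ RR x y z ≤ 1) :
    -(1 - D) * (XX x y z / 2) - kap D ≤ VT D x y z := by
  have hX2 : 0 < XX y z x := by rw [XX_cyc]; exact hX
  have hX3 : 0 < XX z x y := by rw [XX_cyc]; exact hX2
  obtain ⟨n1, n2, n3⟩ := ne_of_XX_pos hX
  have p1 : 0 < ‖y - x‖ := norm_pos_iff.mpr (sub_ne_zero.mpr (Ne.symm n1))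
  have p2 : 0 < ‖z - y‖ := norm_pos_iff.mpr (sub_ne_zero.mpr (Ne.symm n2))
  have p3 : 0 < ‖x - z‖ := norm_pos_iff.mpr (sub_ne_zero.mpr (Ne.symm n3))
  have hA := area_id hX
  have hS := att_sum hX
  have hK := kap_eq D
  suffices h' : ∀ u v w : ℂ, 0 < XX u v w → RR u v w = RR x y z →
      (an u v w ≤ π / 2 ∨ RR x y z ≤ 1) → 0 < ‖v - u‖ →
      -(1 - D) * ((‖v - u‖ / 2) ^ 2 * tan (att u v w)) - (cc * D - 1) * att u v w
        ≤ QQ D (‖v - u‖ / 2) (att u v w) by
    have q1 := h' x y z hX rfl (by tauto) p1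
    have q2 := h' y z x hX2 (RR_cyc x y z) (by tauto) p2
    have q3 := h' z x y hX3 (by rw [RR_cyc, RR_cyc]) (by tauto) p3
    unfold VT
    rw [← hS] at hK
    rw [← hA, ← hK]
    linarith
  intro u v w hXu hR hor hp
  rcases hor with h1 | h1
  · apply QQ_lower1 hD0 hD1 (by positivity)
    · unfold an at h1; linarith
    · exact att_lt _ _ _
  · rw [QQ_eq]
    · rw [abs_lt]; exact ⟨lt_att _ _ _, att_lt _ _ _⟩
    · have hs := RR_sin hXu
      have hc : cos (att u v w) = sin (an u v w) := by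
        unfold an; rw [sin_pi_div_two_sub]
      rw [hc, ← hs, hR]
      have hs0 : 0 < sin (an u v w) := sin_pos_of_pos_of_lt_pi (an_pos _ _ _) (an_lt _ _ _)
      have hR0 : 0 < RR x y z := RR_pos hX
      rw [mul_pow]
      have : RR x y z ^ 2 ≤ 1 := by nlinarith
      nlinarith [sq_nonneg (sin (an u v w))]

lemma VT_bad {D : ℝ} (hD0 : 0 ≤ D) {x y z : ℂ} (hX : 0 < XX x y z) (s1 : Sh x y)
    (hR : 1 ≤ RR x y z) (hθ : π / 2 ≤ an x y z) :
    gg D (‖z - y‖ / 2) + gg D (‖x - z‖ / 2) - gg D (‖y - x‖ / 2) ≤ VT D x y z := by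
  have hX2 : 0 < XX y z x := by rw [XX_cyc]; exact hX
  have hX3 : 0 < XX z x y := by rw [XX_cyc]; exact hX2
  obtain ⟨n1, n2, n3⟩ := ne_of_XX_pos hX
  have p1 : 0 < ‖y - x‖ := norm_pos_iff.mpr (sub_ne_zero.mpr (Ne.symm n1))
  have p2 : 0 < ‖z - y‖ := norm_pos_iff.mpr (sub_ne_zero.mpr (Ne.symm n2))
  have p3 : 0 < ‖x - z‖ := norm_pos_iff.mpr (sub_ne_zero.mpr (Ne.symm n3))
  have r1 := RR_sin hX
  have r2 := RR_sin hX2
  have r3 := RR_sin hX3
  rw [RR_cyc] at r2
  rw [RR_cyc, RR_cyc] at r3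
  have a1 := an_pos x y z
  have a2 := an_pos y z x
  have a3 := an_pos z x y
  have hs := an_sum hX
  unfold Sh at s1
  have t := T3b hR a2 a3 hθ (by linarith) (by rw [r1]; linarith)
  have m2 : sin (an y z x) ≤ sin (an x y z) := by
    rw [← sin_pi_sub (an x y z)]
    exact sin_le_sin_of_le_of_le_pi_div_two (by linarith) (by linarith) (by linarith)
  have m3 : sin (an z x y) ≤ sin (an x y z) := by
    rw [← sin_pi_sub (an x y z)]
    exact sin_le_sin_of_le_of_le_pi_div_two (by linarith) (by linarith) (by linarith)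
  have hR0 : 0 < RR x y z := by linarith
  have k2 : RR x y z * sin (an y z x) ≤ RR x y z * sin (an x y z) := by gcongr
  have k3 : RR x y z * sin (an z x y) ≤ RR x y z * sin (an x y z) := by gcongr
  rw [r1, r2] at k2
  rw [r1, r3] at k3
  rw [r1, r2, r3] at t
  have z1 : 0 < sin (an x y z) := sin_pos_of_pos_of_lt_pi a1 (by linarith)
  have z2 : 0 < sin (an y z x) := sin_pos_of_pos_of_lt_pi a2 (by linarith)
  have z3 : 0 < sin (an z x y) := sin_pos_of_pos_of_lt_pi a3 (by linarith)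
  have q1 := QQ_U (D := D) (a := ‖y - x‖ / 2) (ω := an x y z - π / 2) (by positivity)
    (by linarith) (by linarith) (by linarith) (by
      rw [cos_sub_pi_div_two, ← r1]; nlinarith)
  have q2 := QQ_U (D := D) (a := ‖z - y‖ / 2) (ω := π / 2 - an y z x) (by positivity)
    (by linarith) (by linarith) (by linarith) (by
      rw [cos_pi_div_two_sub, ← r2]; nlinarith)
  have q3 := QQ_U (D := D) (a := ‖x - z‖ / 2) (ω := π / 2 - an z x y) (by positivity)
    (by linarith) (by linarith) (by linarith) (by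
      rw [cos_pi_div_two_sub, ← r3]; nlinarith)
  unfold VT
  rw [att_eq y z x, att_eq z x y, q2, q3, show att x y z = -(an x y z - π / 2) by unfold an; ring,
    QQ_neg, q1]
  have := mul_le_mul_of_nonneg_left t hD0
  linarith

open Classical in
noncomputable def FF (D : ℝ) (S : Finset ℂ) (c q : ℂ) : ℝ := if Ed S c q then asg D S c q else 0

lemma FF_noX {D m : ℝ} (hm : 0 ≤ m) (hM : ∀ a, 0 < a → a < 1 → -m ≤ gg D a) {S : Finset ℂ}
    {c q : ℂ} (hcq : c ≠ q) (hX : ¬ Xt S c q) : -m ≤ FF D S c q := by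
  unfold FF asg gv
  rw [if_neg hX]
  have p1 : 0 < ‖q - c‖ := norm_pos_iff.mpr (sub_ne_zero.mpr (Ne.symm hcq))
  split_ifs with h1 h2
  · unfold Sh at h2
    exact hM _ (by positivity) (by linarith)
  · linarith
  · linarith

lemma FF_zero {D : ℝ} {S : Finset ℂ} {c q : ℂ} (hX : ¬ Xt S c q) (h : ¬ (Ed S c q ∧ Sh c q)) :
    FF D S c q = 0 := by
  unfold FF asg gv
  rw [if_neg hX]
  split_ifs with h1 h2
  · exact absurd ⟨h1, h2⟩ h
  · rfl
  · rfl

lemma FF_out {D : ℝ} {S : Finset ℂ} {c q : ℂ} (hE : Ed S c q) (hX : ¬ Xt S c q) (h : Sh c q) :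
    FF D S c q = gg D (‖q - c‖ / 2) := by
  unfold FF asg gv
  rw [if_pos hE, if_neg hX, if_pos h]

lemma FF_exact {D : ℝ} {S : Finset ℂ} {c q r : ℂ} (hT : Tr S c q r) (hX : Xt S c q) :
    FF D S c q = QQ D (‖q - c‖ / 2) (att c q r) := by
  unfold FF asg
  rw [if_pos (Tr_Ed hT), if_pos hX, Tr_al hT]

/-- A cluster of a set: short pairs do not leave it. -/
def Closed (S P : Finset ℂ) : Prop := P ⊆ S ∧ ∀ s ∈ S, ∀ p ∈ P, Sh p s → s ∈ P

lemma Closed_Ex {S P : Finset ℂ} (h : Closed S P) {p s : ℂ} (hp : p ∈ P) (_hs : s ∈ S)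
    (hE : Ex S p s) : s ∈ P := by
  rcases hE with h1 | ⟨r, r', h1, _, h3, h4, _, _⟩
  · exact h.2 s _hs p hp h1
  · have hr : r ∈ P := h.2 r h1.2.2.1 p hp (Sh_symm h3)
    exact h.2 s _hs r hr h4

/-- clusters of two points -/
theorem score_two {D : ℝ} (hk : 0 ≤ kap D) (hM : ∀ a, 0 < a → a < 1 → -kap D ≤ GG D a)
    {S P : Finset ℂ} (hP : Closed S P) (hc : P.card = 2) : 0 ≤ score D S P := by
  obtain ⟨x, y, hxy, rfl⟩ := Finset.card_eq_two.mp hc
  have hM' : ∀ a, 0 < a → a < 1 → -(2 * kap D) ≤ gg D a := by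
    intro a h0 h1
    have := hM a h0 h1
    rw [gg_eq]; linarith
  have noX : ∀ u v : ℂ, u ∈ ({x, y} : Finset ℂ) → v ∈ ({x, y} : Finset ℂ) → ¬ Xt S u v := by
    rintro u v hu hv ⟨r, hr, _, h2, h3⟩
    have hrP : r ∈ ({x, y} : Finset ℂ) := Closed_Ex hP hv hr.2.2.1 h2
    obtain ⟨n1, n2, n3⟩ := Tr_ne hr
    simp only [Finset.mem_insert, Finset.mem_singleton] at hu hv hrP
    rcases hu with rfl | rfl <;> rcases hv with rfl | rfl <;> rcases hrP with rfl | rfl <;>
      simp_all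
  have hx : x ∈ ({x, y} : Finset ℂ) := by simp
  have hy : y ∈ ({x, y} : Finset ℂ) := by simp
  have e1 : ({x, y} : Finset ℂ).erase x = {y} := by
    ext w; simp only [Finset.mem_erase, Finset.mem_insert, Finset.mem_singleton]
    constructor
    · rintro ⟨h1, h2 | h2⟩
      · exact absurd h2 h1
      · exact h2
    · rintro rfl; exact ⟨Ne.symm hxy, Or.inr rfl⟩
  have e2 : ({x, y} : Finset ℂ).erase y = {x} := by
    ext w; simp only [Finset.mem_erase, Finset.mem_insert, Finset.mem_singleton]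
    constructor
    · rintro ⟨h1, h2 | h2⟩
      · exact h2
      · exact absurd h2 h1
    · rintro rfl; exact ⟨hxy, Or.inl rfl⟩
  have hsum : score D S {x, y} = 4 * kap D + FF D S x y + FF D S y x := by
    unfold score
    rw [hc, Finset.sum_pair hxy, e1, e2, Finset.sum_singleton, Finset.sum_singleton]
    unfold FF
    push_cast
    ring
  rw [hsum]
  have f1 := FF_noX (m := 2 * kap D) (by linarith) hM' hxy (noX x y hx hy)
  have f2 := FF_noX (m := 2 * kap D) (by linarith) hM' (Ne.symm hxy) (noX y x hy hx)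
  linarith

lemma sum_three {F : ℂ → ℂ → ℝ} {x y z : ℂ} (h1 : x ≠ y) (h2 : y ≠ z) (h3 : z ≠ x) :
    ∑ c ∈ ({x, y, z} : Finset ℂ), ∑ q ∈ ({x, y, z} : Finset ℂ).erase c, F c q
      = F x y + F x z + F y x + F y z + F z x + F z y := by
  have e1 : ({x, y, z} : Finset ℂ).erase x = {y, z} := by
    ext w; simp only [Finset.mem_erase, Finset.mem_insert, Finset.mem_singleton]
    constructor
    · rintro ⟨g1, g2 | g2 | g2⟩
      · exact absurd g2 g1
      · exact Or.inl g2
      · exact Or.inr g2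
    · rintro (rfl | rfl)
      · exact ⟨Ne.symm h1, Or.inr (Or.inl rfl)⟩
      · exact ⟨h3, Or.inr (Or.inr rfl)⟩
  have e2 : ({x, y, z} : Finset ℂ).erase y = {x, z} := by
    ext w; simp only [Finset.mem_erase, Finset.mem_insert, Finset.mem_singleton]
    constructor
    · rintro ⟨g1, g2 | g2 | g2⟩
      · exact Or.inl g2
      · exact absurd g2 g1
      · exact Or.inr g2
    · rintro (rfl | rfl)
      · exact ⟨h1, Or.inl rfl⟩
      · exact ⟨Ne.symm h2, Or.inr (Or.inr rfl)⟩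
  have e3 : ({x, y, z} : Finset ℂ).erase z = {x, y} := by
    ext w; simp only [Finset.mem_erase, Finset.mem_insert, Finset.mem_singleton]
    constructor
    · rintro ⟨g1, g2 | g2 | g2⟩
      · exact Or.inl g2
      · exact Or.inr g2
      · exact absurd g2 g1
    · rintro (rfl | rfl)
      · exact ⟨Ne.symm h3, Or.inl rfl⟩
      · exact ⟨h2, Or.inr (Or.inl rfl)⟩
  rw [Finset.sum_insert (by simp [h1, Ne.symm h3]), Finset.sum_pair h2, e1, e2, e3,
    Finset.sum_pair h2, Finset.sum_pair (Ne.symm h3), Finset.sum_pair h1]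
  ring

/-- clusters of three points, exact triangle -/
lemma score_three_exact {D : ℝ} (hD0 : 0 ≤ D) (hD1 : D ≤ 1)
    (hM : ∀ a, 0 < a → a < 1 → -(kap D / 2) ≤ GG D a)
    (hW : ∀ a, 0 < a → a < 1 → 0 ≤ 2 * kap D / 3 + GG D a - (1 - D) * a ^ 2 / √3)
    {S : Finset ℂ} {x y z : ℂ} (hT : Tr S x y z) (s1 : Sh x y) (s2 : Sh y z) (s3 : Sh z x)
    (hN : ∀ u v : ℂ, u ∈ ({x, y, z} : Finset ℂ) → v ∈ ({x, y, z} : Finset ℂ) → XX u v x ≤ 0 →
      XX u v y ≤ 0 → XX u v z ≤ 0 → ¬ Xt S u v) :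
    0 ≤ 6 * kap D + (FF D S x y + FF D S x z + FF D S y x + FF D S y z + FF D S z x
      + FF D S z y) := by
  have hX : 0 < XX x y z := hT.2.2.2.1
  have hX2 : 0 < XX y z x := by rw [XX_cyc]; exact hX
  have hX3 : 0 < XX z x y := by rw [XX_cyc]; exact hX2
  have x1 : Xt S x y := ⟨z, hT, Or.inl s1, Or.inl s2, Or.inl s3⟩
  have x2 : Xt S y z := ⟨x, Tr_cyc hT, Or.inl s2, Or.inl s3, Or.inl s1⟩
  have x3 : Xt S z x := ⟨y, Tr_cyc (Tr_cyc hT), Or.inl s3, Or.inl s1, Or.inl s2⟩
  have mx : x ∈ ({x, y, z} : Finset ℂ) := by simp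
  have my : y ∈ ({x, y, z} : Finset ℂ) := by simp
  have mz : z ∈ ({x, y, z} : Finset ℂ) := by simp
  have o1 : ¬ Xt S y x := hN y x my mx (by rw [XX_right]) (by rw [XX_left])
    (by rw [XX_swap]; linarith)
  have o2 : ¬ Xt S z y := hN z y mz my (by rw [XX_swap]; linarith) (by rw [XX_right])
    (by rw [XX_left])
  have o3 : ¬ Xt S x z := hN x z mx mz (by rw [XX_left]) (by rw [XX_swap]; linarith)
    (by rw [XX_right])
  have E1 := Tr_Ed hT
  have E2 := Tr_Ed (Tr_cyc hT)
  have E3 := Tr_Ed (Tr_cyc (Tr_cyc hT))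
  rw [FF_exact hT x1, FF_exact (Tr_cyc hT) x2, FF_exact (Tr_cyc (Tr_cyc hT)) x3,
    FF_out (Ed_symm E1) o1 (Sh_symm s1), FF_out (Ed_symm E2) o2 (Sh_symm s2),
    FF_out (Ed_symm E3) o3 (Sh_symm s3), norm_sub_rev x y, norm_sub_rev y z, norm_sub_rev z x]
  obtain ⟨n1, n2, n3⟩ := ne_of_XX_pos hX
  have p1 : 0 < ‖y - x‖ := norm_pos_iff.mpr (sub_ne_zero.mpr (Ne.symm n1))
  have p2 : 0 < ‖z - y‖ := norm_pos_iff.mpr (sub_ne_zero.mpr (Ne.symm n2))
  have p3 : 0 < ‖x - z‖ := norm_pos_iff.mpr (sub_ne_zero.mpr (Ne.symm n3))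
  have t1 := s1
  have t2 := s2
  have t3 := s3
  unfold Sh at t1 t2 t3
  have hVT : VT D x y z = QQ D (‖y - x‖ / 2) (att x y z) + QQ D (‖z - y‖ / 2) (att y z x)
      + QQ D (‖x - z‖ / 2) (att z x y) := rfl
  have M1 := hM (‖y - x‖ / 2) (by positivity) (by linarith)
  have M2 := hM (‖z - y‖ / 2) (by positivity) (by linarith)
  have M3 := hM (‖x - z‖ / 2) (by positivity) (by linarith)
  by_cases hg : (an x y z ≤ π / 2 ∧ an y z x ≤ π / 2 ∧ an z x y ≤ π / 2) ∨ RR x y z ≤ 1
  · have hv := VT_good hD0 hD1 hX hg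
    have w1 := hW (‖y - x‖ / 2) (by positivity) (by linarith)
    have w2 := hW (‖z - y‖ / 2) (by positivity) (by linarith)
    have w3 := hW (‖x - z‖ / 2) (by positivity) (by linarith)
    have hwz := weitz x y z
    have h3 := sqrt3_sq
    have h30 := sqrt3_pos
    have harea : XX x y z / 2 ≤ ((‖y - x‖ / 2) ^ 2 + (‖z - y‖ / 2) ^ 2 + (‖x - z‖ / 2) ^ 2) / √3 := by
      rw [le_div_iff₀ h30]; linarith
    have harea2 : (1 - D) * (XX x y z / 2) ≤ (1 - D) * (‖y - x‖ / 2) ^ 2 / √3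
        + (1 - D) * (‖z - y‖ / 2) ^ 2 / √3 + (1 - D) * (‖x - z‖ / 2) ^ 2 / √3 := by
      have := mul_le_mul_of_nonneg_left harea (by linarith : 0 ≤ 1 - D)
      calc _ ≤ _ := this
        _ = _ := by ring
    simp only [gg_eq]
    linarith
  · push Not at hg
    obtain ⟨hg1, hg2⟩ := hg
    by_cases c1 : an x y z ≤ π / 2
    · by_cases c2 : an y z x ≤ π / 2
      · have c3 := hg1 c1 c2
        have hb := VT_bad (D := D) hD0 hX3 s3 (by rw [RR_cyc, RR_cyc]; exact hg2.le) c3.le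
        rw [VT_cyc, VT_cyc] at hb
        simp only [gg_eq] at hb ⊢
        linarith
      · push Not at c2
        have hb := VT_bad (D := D) hD0 hX2 s2 (by rw [RR_cyc]; exact hg2.le) c2.le
        rw [VT_cyc] at hb
        simp only [gg_eq] at hb ⊢
        linarith
    · push Not at c1
      have hb := VT_bad (D := D) hD0 hX s1 hg2.le c1.le
      simp only [gg_eq] at hb ⊢
      linarith

lemma score_three_aux {D : ℝ} (hD0 : 0 ≤ D) (hD1 : D ≤ 1) (hk : 0 ≤ kap D)
    (hM : ∀ a, 0 < a → a < 1 → -(kap D / 2) ≤ GG D a)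
    (hW : ∀ a, 0 < a → a < 1 → 0 ≤ 2 * kap D / 3 + GG D a - (1 - D) * a ^ 2 / √3)
    {S : Finset ℂ} (hG : Gen S) {x y z : ℂ} (hX : 0 < XX x y z)
    (hP : Closed S {x, y, z}) : 0 ≤ score D S {x, y, z} := by
  obtain ⟨n1, n2, n3⟩ := ne_of_XX_pos hX
  have hX2 : 0 < XX y z x := by rw [XX_cyc]; exact hX
  have hX3 : 0 < XX z x y := by rw [XX_cyc]; exact hX2
  have hc : ({x, y, z} : Finset ℂ).card = 3 := by
    rw [Finset.card_eq_three]; exact ⟨x, y, z, n1, Ne.symm n3, n2, rfl⟩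
  have mx : x ∈ ({x, y, z} : Finset ℂ) := by simp
  have my : y ∈ ({x, y, z} : Finset ℂ) := by simp
  have mz : z ∈ ({x, y, z} : Finset ℂ) := by simp
  have hsum : score D S {x, y, z} = 6 * kap D + (FF D S x y + FF D S x z + FF D S y x
      + FF D S y z + FF D S z x + FF D S z y) := by
    unfold score
    rw [hc]
    have := sum_three (F := FF D S) n1 n2 n3
    unfold FF at this ⊢
    rw [this]
    push_cast
    ring
  rw [hsum]
  -- triangles of exact edges are the triangle `x y z`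
  have hXt : ∀ u v : ℂ, u ∈ ({x, y, z} : Finset ℂ) → v ∈ ({x, y, z} : Finset ℂ) → Xt S u v →
      ∃ r ∈ ({x, y, z} : Finset ℂ), Tr S u v r := by
    rintro u v _ hv ⟨r, hr, _, h2, _⟩
    exact ⟨r, Closed_Ex hP hv hr.2.2.1 h2, hr⟩
  have hN : ∀ u v : ℂ, u ∈ ({x, y, z} : Finset ℂ) → v ∈ ({x, y, z} : Finset ℂ) → XX u v x ≤ 0 →
      XX u v y ≤ 0 → XX u v z ≤ 0 → ¬ Xt S u v := by
    intro u v hu hv h1 h2 h3 hcon
    obtain ⟨r, hr, hT⟩ := hXt u v hu hv hcon
    have hXr := hT.2.2.2.1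
    simp only [Finset.mem_insert, Finset.mem_singleton] at hr
    rcases hr with rfl | rfl | rfl <;> linarith
  have hxS : x ∈ S := hP.1 mx
  have hyS : y ∈ S := hP.1 my
  have hzS : z ∈ S := hP.1 mz
  by_cases hall : Tr S x y z ∧ Sh x y ∧ Sh y z ∧ Sh z x
  · obtain ⟨hT, s1, s2, s3⟩ := hall
    exact score_three_exact hD0 hD1 hM hW hT s1 s2 s3 hN
  · -- no exact triangles at all
    have hEx : ∀ u v : ℂ, u ∈ ({x, y, z} : Finset ℂ) → v ∈ ({x, y, z} : Finset ℂ) → Ex S u v →
        Sh u v := by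
      intro u v hu hv hE
      rcases hE with h | ⟨r, r', h1, h2, h3, h4, h5, h6⟩
      · exact h
      · exfalso
        have hr : r ∈ ({x, y, z} : Finset ℂ) := hP.2 r h1.2.2.1 u hu (Sh_symm h3)
        have hr' : r' ∈ ({x, y, z} : Finset ℂ) := hP.2 r' h2.2.2.1 u hu (Sh_symm h5)
        obtain ⟨k1, k2, k3⟩ := Tr_ne h1
        obtain ⟨k4, k5, k6⟩ := Tr_ne h2
        have k7 : r ≠ r' := by
          rintro rfl
          have g1 := h1.2.2.2.1
          have g2 := h2.2.2.2.1
          rw [XX_swap] at g2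
          linarith
        have : ({u, v, r, r'} : Finset ℂ) ⊆ {x, y, z} := by
          intro w hw
          simp only [Finset.mem_insert, Finset.mem_singleton] at hw
          rcases hw with rfl | rfl | rfl | rfl <;> assumption
        have hcard := Finset.card_le_card this
        rw [hc] at hcard
        have : ({u, v, r, r'} : Finset ℂ).card = 4 := by
          rw [Finset.card_insert_of_notMem, Finset.card_insert_of_notMem,
            Finset.card_insert_of_notMem, Finset.card_singleton]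
          · simp only [Finset.mem_singleton]; exact k7
          · simp only [Finset.mem_insert, Finset.mem_singleton, not_or]
            exact ⟨k2, Ne.symm k6⟩
          · simp only [Finset.mem_insert, Finset.mem_singleton, not_or]
            exact ⟨k1, Ne.symm k3, k5⟩
        omega
    have noX : ∀ u v : ℂ, u ∈ ({x, y, z} : Finset ℂ) → v ∈ ({x, y, z} : Finset ℂ) →
        ¬ Xt S u v := by
      rintro u v hu hv ⟨r, hr, h1, h2, h3⟩
      have hrP : r ∈ ({x, y, z} : Finset ℂ) := Closed_Ex hP hv hr.2.2.1 h2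
      have g1 := hEx u v hu hv h1
      have g2 := hEx v r hv hrP h2
      have g3 := hEx r u hrP hu h3
      have hXr := hr.2.2.2.1
      apply hall
      simp only [Finset.mem_insert, Finset.mem_singleton] at hu hv hrP
      have hXyx : XX y x z < 0 := by rw [XX_swap]; linarith
      have hXzy : XX z y x < 0 := by rw [XX_swap]; linarith
      have hXxz : XX x z y < 0 := by rw [XX_swap]; linarith
      rcases hu with rfl | rfl | rfl <;> rcases hv with rfl | rfl | rfl <;>
        rcases hrP with rfl | rfl | rfl <;>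
        first
        | exact ⟨hr, g1, g2, g3⟩
        | exact ⟨Tr_cyc hr, g2, g3, g1⟩
        | exact ⟨Tr_cyc (Tr_cyc hr), g3, g1, g2⟩
        | (exfalso; first
            | exact absurd hXr (by rw [XX_left]; exact lt_irrefl _)
            | exact absurd hXr (by rw [XX_right]; exact lt_irrefl _)
            | exact absurd rfl (ne_of_XX_pos hXr).1
            | linarith)
    have hM' : ∀ a, 0 < a → a < 1 → -(3 / 2 * kap D) ≤ gg D a := by
      intro a h0 h1
      have := hM a h0 h1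
      rw [gg_eq]; linarith
    have hm : 0 ≤ 3 / 2 * kap D := by linarith
    have f1 := FF_noX hm hM' n1 (noX x y mx my)
    have f2 := FF_noX hm hM' (Ne.symm n3) (noX x z mx mz)
    have f3 := FF_noX hm hM' (Ne.symm n1) (noX y x my mx)
    have f4 := FF_noX hm hM' n2 (noX y z my mz)
    have f5 := FF_noX hm hM' n3 (noX z x mz mx)
    have f6 := FF_noX hm hM' (Ne.symm n2) (noX z y mz my)
    by_cases b1 : Ed S x y ∧ Sh x y
    · by_cases b2 : Ed S y z ∧ Sh y z
      · by_cases b3 : Ed S z x ∧ Sh z x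
        · exfalso
          apply hall
          refine ⟨?_, b1.2, b2.2, b3.2⟩
          by_contra hT
          obtain ⟨s, hs, hsx, hsy, hsz, h1, h2, h3⟩ :=
            inside_of_not_Tr hG hxS hyS hzS hX b1.1 b2.1 b3.1 hT
          have hsP : s ∈ ({x, y, z} : Finset ℂ) := by
            rcases inside_close h1 h2 h3 b1.2 b2.2 b3.2 with h | h | h
            · exact hP.2 s hs x mx h
            · exact hP.2 s hs y my h
            · exact hP.2 s hs z mz h
          simp only [Finset.mem_insert, Finset.mem_singleton] at hsP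
          rcases hsP with h | h | h
          · exact hsx h
          · exact hsy h
          · exact hsz h
        · have z1 := FF_zero (D := D) (noX z x mz mx) b3
          have z2 := FF_zero (D := D) (noX x z mx mz) (fun h => b3 ⟨Ed_symm h.1, Sh_symm h.2⟩)
          linarith
      · have z1 := FF_zero (D := D) (noX y z my mz) b2
        have z2 := FF_zero (D := D) (noX z y mz my) (fun h => b2 ⟨Ed_symm h.1, Sh_symm h.2⟩)
        linarith
    · have z1 := FF_zero (D := D) (noX x y mx my) b1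
      have z2 := FF_zero (D := D) (noX y x my mx) (fun h => b1 ⟨Ed_symm h.1, Sh_symm h.2⟩)
      linarith

/-- clusters of three points -/
theorem score_three {D : ℝ} (hD0 : 0 ≤ D) (hD1 : D ≤ 1) (hk : 0 ≤ kap D)
    (hM : ∀ a, 0 < a → a < 1 → -(kap D / 2) ≤ GG D a)
    (hW : ∀ a, 0 < a → a < 1 → 0 ≤ 2 * kap D / 3 + GG D a - (1 - D) * a ^ 2 / √3)
    {S P : Finset ℂ} (hG : Gen S) (hP : Closed S P) (hc : P.card = 3) : 0 ≤ score D S P := by
  obtain ⟨x, y, z, h1, h2, h3, rfl⟩ := Finset.card_eq_three.mp hc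
  have hx : x ∈ S := hP.1 (by simp)
  have hy : y ∈ S := hP.1 (by simp)
  have hz : z ∈ S := hP.1 (by simp)
  rcases lt_or_gt_of_ne (hG.1 x hx y hy z hz h1 h2 h3) with hX | hX
  · have hX' : 0 < XX y x z := by rw [XX_swap]; linarith
    have e : ({x, y, z} : Finset ℂ) = {y, x, z} := by
      ext w; simp only [Finset.mem_insert, Finset.mem_singleton]; tauto
    rw [e] at hP ⊢
    exact score_three_aux hD0 hD1 hk hM hW hG hX' hP
  · exact score_three_aux hD0 hD1 hk hM hW hG hX hP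

end FT58
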