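import Pool.Agent.Lib.MP_49fa77_co.Ineq

/-!
# The local inequalities for triangles with short sides
-/

namespace FT58

open Real MeasureTheory intervalIntegral Set

lemma tan_compl (θ : ℝ) : tan (π / 2 - θ) = cos θ / sin θ := by
  rw [tan_pi_div_two_sub, tan_eq_sin_div_cos, inv_div]

lemma abs_compl {θ : ℝ} (h0 : 0 < θ) (h1 : θ < π) : |π / 2 - θ| < π / 2 := by
  rw [abs_lt]; constructor <;> linarith

lemma Uf_small' {a θ : ℝ} (h0 : 0 < θ) (h1 : θ < π) (h : a ^ 2 ≤ 4 / 3 * sin θ ^ 2) :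
    Uf a (π / 2 - θ) = a ^ 2 * (cos θ / sin θ) - cc * (π / 2 - θ) - Ar a + √3 := by
  rw [Uf_small (abs_compl h0 h1) (by rw [cos_pi_div_two_sub]; exact h), tan_compl]

lemma Uf_large' {a θ : ℝ} (ha : 0 < a) (ha1 : a ≤ 1) (h0 : 0 ≤ θ) (h1 : θ ≤ π / 2)
    (h : 4 / 3 * sin θ ^ 2 ≤ a ^ 2) : Uf a (π / 2 - θ) = Hf a + bb * (π / 2 - θ) :=
  Uf_large ha ha1 (by linarith) (by linarith) (by rw [cos_pi_div_two_sub]; exact h)

lemma T1core {a θ : ℝ} (ha : 0 < a) (ha1 : a ≤ 1) (h0 : 0 < θ) (h1 : θ ≤ π / 3) :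
    0 ≤ Uf a (π / 2 - θ) + 2 * qh (θ / 2) := by
  have hs : 0 < sin θ := sin_pos_of_pos_of_lt_pi h0 (by linarith [pi_pos])
  -- small case lemma
  have key : ∀ b : ℝ, 0 < b → b ≤ 2 → b ^ 2 ≤ 4 / 3 * sin θ ^ 2 →
      0 ≤ Uf b (π / 2 - θ) + 2 * qh (θ / 2) := by
    intro b hb hb2 h
    rw [Uf_small' h0 (by linarith [pi_pos]) h, qh_tan' (by rw [abs_of_pos (by linarith)]; linarith)]
    set t := tan (θ / 2) with ht
    have ht0 : 0 < t := tan_pos_of_pos_of_lt_pi_div_two (by linarith) (by linarith [pi_pos])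
    have ht1 : t < 1 := by
      rw [ht, ← tan_pi_div_four]
      exact tan_lt_tan_of_nonneg_of_lt_pi_div_two (by linarith) (by linarith [pi_pos])
        (by linarith [pi_pos])
    have e1 : cos θ / sin θ = (1 - t ^ 2) / (2 * t) := by
      rw [← inv_div, ← tan_eq_sin_div_cos, show θ = 2 * (θ / 2) by ring, tan_two_mul, ← ht,
        inv_div]
    rw [e1]
    unfold Ar
    set y := √(4 - b ^ 2) with hy
    have hy2 : y ^ 2 = 4 - b ^ 2 := sq_sqrt (by nlinarith)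
    have hc := cc_pi
    have e2 : b ^ 2 * ((1 - t ^ 2) / (2 * t)) + 2 * t - b * y = (b - t * y) ^ 2 / (2 * t) := by
      field_simp
      linear_combination (-t ^ 2) * hy2
    have e3 : 0 ≤ (b - t * y) ^ 2 / (2 * t) := by positivity
    linarith
  rcases le_total (a ^ 2) (4 / 3 * sin θ ^ 2) with h | h
  · exact key a ha (by linarith) h
  · set b := 2 / √3 * sin θ with hb
    have hb0 : 0 < b := by positivity
    have hb2 : b ^ 2 = 4 / 3 * sin θ ^ 2 := by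
      rw [hb, mul_pow, div_pow, sqrt3_sq]; norm_num
    have hba : b ≤ a := by
      apply abs_le_of_sq_le_sq' _ ha.le |>.2
      rw [hb2]; exact h
    have h2 := key b hb0 (by linarith) hb2.le
    have h3 := Uf_large' hb0 (by linarith) h0.le (by linarith [pi_pos]) hb2.ge
    have h4 := Uf_large' ha ha1 h0.le (by linarith [pi_pos]) h
    have h5 := Hf_mono hb0.le hba ha1
    linarith

/-- `T₁`: one short side (half-length `a`, opposite angle `θ`), two long sides. -/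
theorem T1 {a θ ω₂ ω₃ : ℝ} (ha : 0 < a) (ha1 : a ≤ 1) (h0 : 0 < θ) (h1 : θ ≤ π / 3)
    (h : ω₂ + ω₃ = θ) (h2 : ω₂ ≤ π / 2) (h3 : ω₃ ≤ π / 2) :
    0 ≤ Uf a (π / 2 - θ) + qh ω₂ + qh ω₃ := by
  have e1 := T1core ha ha1 h0 h1
  have e2 := qh_pair h0.le h h2 h3
  linarith

/-- infinite end of a short facet. -/
theorem T1inf {a : ℝ} (ha : 0 < a) (ha1 : a ≤ 1) : 0 ≤ Uf a (π / 2) := by
  rw [Uf_large ha ha1 (by positivity) le_rfl (by rw [cos_pi_div_two]; nlinarith)]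
  have h1 := Hf_mono le_rfl ha.le ha1
  have h2 := Hf_zero
  linarith

/-- infinite end of a long facet. -/
theorem T0inf : 0 ≤ qh (π / 2) := by
  rw [qh_large (by linarith [pi_pos]) le_rfl]
  have h1 := bb_pos
  have h2 := pi_pos
  apply mul_nonneg h1.le
  linarith

lemma T2alg {a₁ a₂ a₃ k σ E : ℝ} (h1 : 0 < a₁) (h1' : a₁ ≤ 1) (h2 : 0 < a₂) (h2' : a₂ ≤ 1)
    (h3 : 1 ≤ a₃) (hσ : 0 < σ) (hk : k ^ 2 + σ ^ 2 = 1) (hσ3 : 3 / 4 ≤ σ ^ 2)
    (hcos : a₁ ^ 2 + a₂ ^ 2 = a₃ ^ 2 + 2 * (a₁ * a₂) * k)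
    (hE : E * σ = 2 * (a₁ * a₂) - (a₁ ^ 2 + a₂ ^ 2 - 1) * k) :
    Ar a₁ + Ar a₂ ≤ E + √3 := by
  set P := a₁ * a₂ with hP
  have hP0 : 0 < P := by positivity
  have hP1 : P ≤ 1 := by nlinarith
  set e := a₁ ^ 2 + a₂ ^ 2 - 1 with he
  set q := (1 - a₁ ^ 2) * (1 - a₂ ^ 2) with hq
  have hq0 : 0 ≤ q := mul_nonneg (by nlinarith) (by nlinarith)
  have hqe : q = P ^ 2 - e := by rw [hq, hP, he]; ring
  have he1 : e ≤ P := by nlinarith
  have he2 : 2 * P * k ≤ e := by nlinarith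
  have hk1 : k ≤ 1 := by nlinarith
  have hk2 : -1 ≤ k := by nlinarith
  have hE0 : 0 ≤ E := by
    have : 0 ≤ E * σ := by
      rw [hE]
      rcases le_total 0 k with hk0 | hk0
      · nlinarith
      · nlinarith [mul_nonneg (neg_nonneg.mpr hk0) (sub_nonneg.mpr he2)]
    exact nonneg_of_mul_nonneg_left this hσ
  have hE2 : 4 * P ^ 2 - e ^ 2 ≤ E ^ 2 := by
    have h5 : σ ^ 2 * (E ^ 2 - 4 * P ^ 2 + e ^ 2) = (2 * P * k - e) ^ 2 := by
      have : (E * σ) ^ 2 = (2 * P - e * k) ^ 2 := by rw [hE]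
      linear_combination this + (4 * P ^ 2 - e ^ 2) * (-1) * hk
    have h6 : 0 ≤ σ ^ 2 * (E ^ 2 - 4 * P ^ 2 + e ^ 2) := by rw [h5]; positivity
    have := nonneg_of_mul_nonneg_right h6 (by positivity)
    linarith
  have hs := sqrt3_sq
  have hs0 := sqrt3_pos
  have hEe : 0 ≤ √3 * E + e := by
    rcases le_total 0 e with h0 | h0
    · positivity
    · have hk0 : k ≤ 0 := by
        by_contra hc
        push Not at hc
        nlinarith [mul_pos hP0 hc]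
      have hk3 : -(1 / 2) ≤ k := by nlinarith
      have h5 : -P ≤ e := by nlinarith
      have h6 : e ^ 2 ≤ (√3 * E) ^ 2 := by
        rw [mul_pow, hs]; nlinarith
      have := abs_le_of_sq_le_sq' h6 (by positivity)
      linarith [this.1]
  set y₁ := √(4 - a₁ ^ 2) with hy1
  set y₂ := √(4 - a₂ ^ 2) with hy2
  have y12 : y₁ ^ 2 = 4 - a₁ ^ 2 := sq_sqrt (by nlinarith)
  have y22 : y₂ ^ 2 = 4 - a₂ ^ 2 := sq_sqrt (by nlinarith)
  have A1 : Ar a₁ = a₁ * y₁ := rfl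
  have A2 : Ar a₂ = a₂ * y₂ := rfl
  rw [A1, A2]
  have hy10 : 0 ≤ y₁ := sqrt_nonneg _
  have hy20 : 0 ≤ y₂ := sqrt_nonneg _
  have hqE0 : 0 ≤ q + √3 * E := by positivity
  have hAA : a₁ * y₁ * (a₂ * y₂) ≤ q + √3 * E := by
    apply abs_le_of_sq_le_sq' _ hqE0 |>.2
    have e1 : (a₁ * y₁ * (a₂ * y₂)) ^ 2 = P ^ 2 * (16 - 4 * (e + 1) + P ^ 2) := by
      rw [hP, he]
      have : (a₁ * y₁ * (a₂ * y₂)) ^ 2 = a₁ ^ 2 * a₂ ^ 2 * (y₁ ^ 2) * (y₂ ^ 2) := by ring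
      rw [this, y12, y22]; ring
    have e2 : (q + √3 * E) ^ 2 = q ^ 2 + 2 * √3 * q * E + 3 * E ^ 2 := by
      linear_combination E ^ 2 * hs
    rw [e1, e2]
    have e3 : q ^ 2 + 12 * P ^ 2 - 3 * e ^ 2 - P ^ 2 * (16 - 4 * (e + 1) + P ^ 2) = 2 * e * q := by
      rw [hqe]; ring
    have e4 : 0 ≤ 2 * q * (√3 * E + e) := by positivity
    nlinarith
  apply abs_le_of_sq_le_sq' _ (by positivity) |>.2
  have e5 : (a₁ * y₁ + a₂ * y₂) ^ 2 = 4 * (e + 1) - (e + 1) ^ 2 + 2 * P ^ 2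
      + 2 * (a₁ * y₁ * (a₂ * y₂)) := by
    rw [hP, he]
    linear_combination a₁ ^ 2 * y12 + a₂ ^ 2 * y22
  rw [e5]
  nlinarith

lemma T3alg {a₁ a₂ a₃ k σ : ℝ} (h1 : 0 < a₁) (h2 : 0 < a₂) (h3 : 0 < a₃) (h3' : a₃ ≤ 1)
    (hk0 : 0 ≤ k) (hσ : 0 < σ) (hk : k ^ 2 + σ ^ 2 = 1) (hR : σ ^ 2 ≤ a₃ ^ 2)
    (hR' : 3 * a₃ ^ 2 ≤ 4 * σ ^ 2)
    (hcos : a₃ ^ 2 = a₁ ^ 2 + a₂ ^ 2 + 2 * (a₁ * a₂) * k) :
    Ar a₁ + Ar a₂ ≤ 2 * (a₁ * a₂) * σ + Ar a₃ := by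
  set P := a₁ * a₂ with hP
  have hP0 : 0 < P := by positivity
  set y₁ := √(4 - a₁ ^ 2) with hy1
  set y₂ := √(4 - a₂ ^ 2) with hy2
  set y₃ := √(4 - a₃ ^ 2) with hy3
  have b1 : a₁ ^ 2 ≤ 1 := by nlinarith [mul_nonneg hP0.le hk0]
  have b2 : a₂ ^ 2 ≤ 1 := by nlinarith [mul_nonneg hP0.le hk0]
  have b3 : a₃ ^ 2 ≤ 1 := by nlinarith
  have y12 : y₁ ^ 2 = 4 - a₁ ^ 2 := sq_sqrt (by nlinarith)
  have y22 : y₂ ^ 2 = 4 - a₂ ^ 2 := sq_sqrt (by nlinarith)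
  have y32 : y₃ ^ 2 = 4 - a₃ ^ 2 := sq_sqrt (by nlinarith)
  have hy10 : 0 ≤ y₁ := sqrt_nonneg _
  have hy20 : 0 ≤ y₂ := sqrt_nonneg _
  have hy30 : 0 ≤ y₃ := sqrt_nonneg _
  have A1 : Ar a₁ = a₁ * y₁ := rfl
  have A2 : Ar a₂ = a₂ * y₂ := rfl
  have A3 : Ar a₃ = a₃ * y₃ := rfl
  rw [A1, A2, A3]
  set w := σ * y₃ - k * a₃ with hw
  have hw0 : 0 ≤ w := by
    have : k * a₃ ≤ σ * y₃ := by
      apply abs_le_of_sq_le_sq' _ (by positivity) |>.2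
      rw [mul_pow, mul_pow, y32]; nlinarith
    linarith
  set L := P + 4 * k + 2 * a₃ * w with hL
  have hL0 : 0 ≤ L := by positivity
  -- the key inequality
  have hkey : σ * y₃ * (1 - a₃ ^ 2) ≤ k * a₃ * (3 - a₃ ^ 2) := by
    apply abs_le_of_sq_le_sq' _ (mul_nonneg (by positivity) (by linarith)) |>.2
    have e1 : (σ * y₃ * (1 - a₃ ^ 2)) ^ 2 = σ ^ 2 * ((4 - a₃ ^ 2) * (1 - a₃ ^ 2) ^ 2) := by
      rw [mul_pow, mul_pow, y32]; ring
    have e2 : (k * a₃ * (3 - a₃ ^ 2)) ^ 2 = k ^ 2 * (4 - (4 - a₃ ^ 2) * (1 - a₃ ^ 2) ^ 2) := by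
      ring
    rw [e1, e2]
    have e3 : (4 - a₃ ^ 2) * (1 - a₃ ^ 2) ^ 2 ≤ 4 * (1 - a₃ ^ 2) := by
      have : 0 ≤ (1 - a₃ ^ 2) * (a₃ ^ 2 * (5 - a₃ ^ 2)) :=
        mul_nonneg (by linarith) (mul_nonneg (by positivity) (by linarith))
      nlinarith
    have e4 : k ^ 2 = 1 - σ ^ 2 := by linarith
    rw [e4]
    nlinarith
  have hbr : 0 ≤ a₃ * (P + 4 * k) + a₃ ^ 2 * w - (σ * y₃ + k * a₃) := by
    have : a₃ * (P + 4 * k) + a₃ ^ 2 * w - (σ * y₃ + k * a₃)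
        = a₃ * P + (k * a₃ * (3 - a₃ ^ 2) - σ * y₃ * (1 - a₃ ^ 2)) := by
      rw [hw]; ring
    rw [this]
    have : 0 < a₃ * P := by positivity
    linarith
  have hww : 4 * σ ^ 2 - a₃ ^ 2 = w * (σ * y₃ + k * a₃) := by
    rw [hw]
    linear_combination (-σ ^ 2) * y32 + a₃ ^ 2 * hk
  have hL2 : y₁ ^ 2 * y₂ ^ 2 ≤ L ^ 2 := by
    rw [y12, y22]
    have e1 : L ^ 2 - (4 - a₁ ^ 2) * (4 - a₂ ^ 2)
        = 4 * w * (a₃ * (P + 4 * k) + a₃ ^ 2 * w - (σ * y₃ + k * a₃)) := by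
      rw [hL]
      have e2 : (4 - a₁ ^ 2) * (4 - a₂ ^ 2) = 16 - 4 * (a₃ ^ 2 - 2 * P * k) + P ^ 2 := by
        rw [hcos, hP]; ring
      rw [e2]
      linear_combination 16 * hk - 4 * hww
    have e3 : 0 ≤ 4 * w * (a₃ * (P + 4 * k) + a₃ ^ 2 * w - (σ * y₃ + k * a₃)) := by positivity
    linarith
  have hyy : y₁ * y₂ ≤ L := by
    apply abs_le_of_sq_le_sq' _ hL0 |>.2
    rw [mul_pow]; exact hL2
  apply abs_le_of_sq_le_sq' _ (by positivity) |>.2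
  have e5 : (a₁ * y₁ + a₂ * y₂) ^ 2 = a₁ ^ 2 * (4 - a₁ ^ 2) + a₂ ^ 2 * (4 - a₂ ^ 2)
      + 2 * (P * (y₁ * y₂)) := by
    rw [hP]
    linear_combination a₁ ^ 2 * y12 + a₂ ^ 2 * y22
  have e6 : (2 * P * σ + a₃ * y₃) ^ 2 = a₁ ^ 2 * (4 - a₁ ^ 2) + a₂ ^ 2 * (4 - a₂ ^ 2)
      + 2 * (P * L) := by
    rw [hL, hw]
    have hPP : P ^ 2 = a₁ ^ 2 * a₂ ^ 2 := by rw [hP]; ring
    have h4 : (a₃ ^ 2) ^ 2 = a₁ ^ 4 + a₂ ^ 4 + 2 * P ^ 2 + 4 * P * k * (a₁ ^ 2 + a₂ ^ 2)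
        + 4 * P ^ 2 * k ^ 2 := by
      rw [hcos, hPP]; ring
    have h5 : a₁ ^ 2 + a₂ ^ 2 = a₃ ^ 2 - 2 * P * k := by linarith
    linear_combination a₃ ^ 2 * y32 + 4 * P ^ 2 * hk - h4 + 4 * hcos - (4 * P * k) * h5
  rw [e5, e6]
  have : P * (y₁ * y₂) ≤ P * L := by gcongr
  linarith

/-- sum of the two cotangent terms. -/
lemma cot_sum {R θ₁ θ₂ θ₃ : ℝ} (_h1 : 0 < sin θ₁) (_h2 : 0 < sin θ₂) (hs : θ₁ + θ₂ + θ₃ = π) :
    (R * sin θ₁) ^ 2 * (cos θ₁ / sin θ₁) + (R * sin θ₂) ^ 2 * (cos θ₂ / sin θ₂)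
      = sin θ₃ * (2 * (R * sin θ₁ * (R * sin θ₂)) - R ^ 2 * cos θ₃) := by
  have hs3 : sin θ₃ = sin θ₁ * cos θ₂ + cos θ₁ * sin θ₂ := by
    rw [show θ₃ = π - (θ₁ + θ₂) by linarith, sin_pi_sub, sin_add]
  have hc3 : cos θ₃ = sin θ₁ * sin θ₂ - cos θ₁ * cos θ₂ := by
    rw [show θ₃ = π - (θ₁ + θ₂) by linarith, cos_pi_sub, cos_add]; ring
  rw [hs3, hc3]
  have e1 := sin_sq_add_cos_sq θ₁
  have e2 := sin_sq_add_cos_sq θ₂
  field_simp
  have e3 : cos θ₁ ^ 2 = 1 - sin θ₁ ^ 2 := by linarith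
  have e4 : cos θ₂ ^ 2 = 1 - sin θ₂ ^ 2 := by linarith
  linear_combination (-(R ^ 2) * sin θ₁ * cos θ₁) * e2 - R ^ 2 * sin θ₂ * cos θ₂ * e1

lemma law_cos {R θ₁ θ₂ θ₃ : ℝ} (hs : θ₁ + θ₂ + θ₃ = π) :
    (R * sin θ₁) ^ 2 + (R * sin θ₂) ^ 2 = (R * sin θ₃) ^ 2
      + 2 * (R * sin θ₁ * (R * sin θ₂)) * cos θ₃ := by
  have hs3 : sin θ₃ = sin θ₁ * cos θ₂ + cos θ₁ * sin θ₂ := by
    rw [show θ₃ = π - (θ₁ + θ₂) by linarith, sin_pi_sub, sin_add]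
  have hc3 : cos θ₃ = sin θ₁ * sin θ₂ - cos θ₁ * cos θ₂ := by
    rw [show θ₃ = π - (θ₁ + θ₂) by linarith, cos_pi_sub, cos_add]; ring
  rw [hs3, hc3]
  have e1 := sin_sq_add_cos_sq θ₁
  have e2 := sin_sq_add_cos_sq θ₂
  have e3 : cos θ₁ ^ 2 = 1 - sin θ₁ ^ 2 := by linarith
  have e4 : cos θ₂ ^ 2 = 1 - sin θ₂ ^ 2 := by linarith
  linear_combination (-R ^ 2 * sin θ₁ ^ 2) * e2 - R ^ 2 * sin θ₂ ^ 2 * e1

/-- `T₂` in the untruncated range. -/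
lemma T2small {R θ₁ θ₂ θ₃ : ℝ} (hR : 0 < R) (hR2 : R ^ 2 ≤ 4 / 3) (h1 : 0 < θ₁) (h2 : 0 < θ₂)
    (h3 : 0 < θ₃) (hs : θ₁ + θ₂ + θ₃ = π) (ha1 : R * sin θ₁ ≤ 1) (ha2 : R * sin θ₂ ≤ 1)
    (ha3 : 1 ≤ R * sin θ₃) :
    0 ≤ Uf (R * sin θ₁) (π / 2 - θ₁) + Uf (R * sin θ₂) (π / 2 - θ₂) + qh (π / 2 - θ₃) := by
  have s1 : 0 < sin θ₁ := sin_pos_of_pos_of_lt_pi h1 (by linarith)
  have s2 : 0 < sin θ₂ := sin_pos_of_pos_of_lt_pi h2 (by linarith)
  have s3 : 0 < sin θ₃ := sin_pos_of_pos_of_lt_pi h3 (by linarith)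
  have hsq : 3 / 4 ≤ sin θ₃ ^ 2 := by
    have : 1 ≤ (R * sin θ₃) ^ 2 := by nlinarith
    rw [mul_pow] at this
    nlinarith [sq_nonneg (sin θ₃)]
  rw [Uf_small' h1 (by linarith) (by rw [mul_pow]; gcongr),
    Uf_small' h2 (by linarith) (by rw [mul_pow]; gcongr),
    qh_tan (abs_compl h3 (by linarith)) (by rw [cos_pi_div_two_sub]; linarith), tan_compl]
  have e1 := cot_sum (R := R) s1 s2 hs
  have e2 := law_cos (R := R) hs
  set a₁ := R * sin θ₁ with ha1d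
  set a₂ := R * sin θ₂ with ha2d
  set a₃ := R * sin θ₃ with ha3d
  have p1 : 0 < a₁ := by positivity
  have p2 : 0 < a₂ := by positivity
  have e3 := T2alg (E := a₁ ^ 2 * (cos θ₁ / sin θ₁) + a₂ ^ 2 * (cos θ₂ / sin θ₂) + cos θ₃ / sin θ₃)
    p1 ha1 p2 ha2 ha3 s3 (by have := sin_sq_add_cos_sq θ₃; linarith : cos θ₃ ^ 2 + sin θ₃ ^ 2 = 1)
    hsq e2 (by
      rw [e1, e2]
      have := sin_sq_add_cos_sq θ₃
      rw [ha3d]
      field_simp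
      linear_combination 2 * (a₁ * a₂) * this)
  have hc := cc_pi
  have h9 : cc * (π / 2 - θ₁) + cc * (π / 2 - θ₂) + cc * (π / 2 - θ₃) = √3 := by
    linear_combination hc / 2 - cc * hs
  linarith

/-- `T₂`: exactly two short sides. -/
theorem T2 {R θ₁ θ₂ θ₃ : ℝ} (hR : 0 < R) (h1 : 0 < θ₁) (h2 : 0 < θ₂)
    (h3 : 0 < θ₃) (hs : θ₁ + θ₂ + θ₃ = π) (ha1 : R * sin θ₁ ≤ 1) (ha2 : R * sin θ₂ ≤ 1)
    (ha3 : 1 ≤ R * sin θ₃) :
    0 ≤ Uf (R * sin θ₁) (π / 2 - θ₁) + Uf (R * sin θ₂) (π / 2 - θ₂) + qh (π / 2 - θ₃) := by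
  rcases le_total (R ^ 2) (4 / 3) with hR2 | hR2
  · exact T2small hR hR2 h1 h2 h3 hs ha1 ha2 ha3
  have s1 : 0 < sin θ₁ := sin_pos_of_pos_of_lt_pi h1 (by linarith)
  have s2 : 0 < sin θ₂ := sin_pos_of_pos_of_lt_pi h2 (by linarith)
  have s3 : 0 < sin θ₃ := sin_pos_of_pos_of_lt_pi h3 (by linarith)
  have s13 : sin θ₁ ≤ sin θ₃ := le_of_mul_le_mul_left (ha1.trans ha3) hR
  have s23 : sin θ₂ ≤ sin θ₃ := le_of_mul_le_mul_left (ha2.trans ha3) hR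
  have t1 : θ₁ ≤ π / 2 := by
    by_contra hc
    push Not at hc
    have : sin θ₃ < sin θ₁ := by
      rw [← sin_pi_sub θ₁]
      exact sin_lt_sin_of_lt_of_le_pi_div_two (by linarith) (by linarith) (by linarith)
    linarith
  have t2 : θ₂ ≤ π / 2 := by
    by_contra hc
    push Not at hc
    have : sin θ₃ < sin θ₂ := by
      rw [← sin_pi_sub θ₂]
      exact sin_lt_sin_of_lt_of_le_pi_div_two (by linarith) (by linarith) (by linarith)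
    linarith
  have q1 : 4 / 3 * sin θ₁ ^ 2 ≤ (R * sin θ₁) ^ 2 := by rw [mul_pow]; gcongr
  have q2 : 4 / 3 * sin θ₂ ^ 2 ≤ (R * sin θ₂) ^ 2 := by rw [mul_pow]; gcongr
  have L1 := Uf_large' (by positivity) ha1 h1.le t1 q1
  have L2 := Uf_large' (by positivity) ha2 h2.le t2 q2
  rcases le_or_gt (3 / 4) (sin θ₃ ^ 2) with hq | hq
  · -- scale down to `R = 2/√3`
    set r := 2 / √3 with hr
    have hr0 : 0 < r := by positivity
    have hr2 : r ^ 2 = 4 / 3 := by rw [hr, div_pow, sqrt3_sq]; norm_num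
    have hrR : r ≤ R := by
      apply abs_le_of_sq_le_sq' _ hR.le |>.2
      rw [hr2]; exact hR2
    have b1 : r * sin θ₁ ≤ R * sin θ₁ := by gcongr
    have b2 : r * sin θ₂ ≤ R * sin θ₂ := by gcongr
    have b3 : 1 ≤ r * sin θ₃ := by
      apply abs_le_of_sq_le_sq' _ (by positivity) |>.2
      rw [mul_pow, hr2]; linarith
    have e1 := T2small hr0 hr2.le h1 h2 h3 hs (b1.trans ha1) (b2.trans ha2) b3
    have M1 := Uf_large' (a := r * sin θ₁) (by positivity) (b1.trans ha1) h1.le t1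
      (by rw [mul_pow, hr2])
    have M2 := Uf_large' (a := r * sin θ₂) (by positivity) (b2.trans ha2) h2.le t2
      (by rw [mul_pow, hr2])
    have N1 := Hf_mono (by positivity) b1 ha1
    have N2 := Hf_mono (by positivity) b2 ha2
    linarith
  · -- very obtuse
    have t3 : π / 2 ≤ θ₃ := by
      by_contra hc
      push Not at hc
      have u1 : θ₁ ≤ θ₃ := by
        by_contra h
        push Not at h
        have := sin_lt_sin_of_lt_of_le_pi_div_two (by linarith) t1 h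
        linarith
      have u2 : θ₂ ≤ θ₃ := by
        by_contra h
        push Not at h
        have := sin_lt_sin_of_lt_of_le_pi_div_two (by linarith) t2 h
        linarith
      have u3 : sin (π / 3) ≤ sin θ₃ :=
        sin_le_sin_of_le_of_le_pi_div_two (by linarith) hc.le (by linarith)
      rw [sin_pi_div_three] at u3
      have u5 : (√3 / 2) ^ 2 ≤ sin θ₃ ^ 2 := by gcongr
      rw [div_pow, sqrt3_sq] at u5
      linarith
    have hcos : 4 / 3 * cos (θ₃ - π / 2) ^ 2 ≤ 1 := by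
      rw [show θ₃ - π / 2 = -(π / 2 - θ₃) by ring, cos_neg, cos_pi_div_two_sub]; linarith
    have L3 : qh (θ₃ - π / 2) = bb * (θ₃ - π / 2 - π / 6) := by
      unfold qh
      rw [Mi_large (by norm_num) (by norm_num) (by norm_num) (by linarith) (by linarith)
        (by simpa using hcos), arccos_one_div]
      have h2 : √(4 / 3 - 1 ^ 2) = √3 / 3 := by
        rw [← sqrt13]; norm_num
      rw [h2]
      unfold bb
      have := cc_pi
      linarith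
    have L4 : qh (π / 2 - θ₃) = -(bb * (θ₃ - π / 2 - π / 6)) := by
      rw [← L3, ← qh_neg]; congr 1; ring
    rw [L1, L2, L4]
    have hsum : 1 ≤ R * sin θ₁ + R * sin θ₂ := by
      have hs3 : sin θ₃ = sin θ₁ * cos θ₂ + cos θ₁ * sin θ₂ := by
        rw [show θ₃ = π - (θ₁ + θ₂) by linarith, sin_pi_sub, sin_add]
      have : sin θ₃ ≤ sin θ₁ + sin θ₂ := by
        rw [hs3]
        nlinarith [cos_le_one θ₁, cos_le_one θ₂]
      nlinarith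
    have H := Hf_super (x := R * sin θ₁) (y := R * sin θ₂) (z := 1) (by positivity) (by positivity)
      ha1 ha2 le_rfl hsum
    have Z := Hf_zero
    have O := Hf_one
    have h9 : bb * (π / 2 - θ₁) + bb * (π / 2 - θ₂) - bb * (θ₃ - π / 2 - π / 6)
        = bb * (π / 2) + bb * (π / 6) := by
      linear_combination (-bb) * hs
    linarith

/-- `T₃` for an obtuse triangle with circumradius at least `1`. -/
theorem T3b {R θ₁ θ₂ θ₃ : ℝ} (hR : 1 ≤ R) (h1 : 0 < θ₁) (h2 : 0 < θ₂)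
    (h3 : π / 2 ≤ θ₃) (hs : θ₁ + θ₂ + θ₃ = π) (ha3 : R * sin θ₃ ≤ 1) :
    Uf (R * sin θ₃) (θ₃ - π / 2) ≤ Uf (R * sin θ₁) (π / 2 - θ₁) + Uf (R * sin θ₂) (π / 2 - θ₂) := by
  have hpi := pi_pos
  have s1 : 0 < sin θ₁ := sin_pos_of_pos_of_lt_pi h1 (by linarith)
  have s2 : 0 < sin θ₂ := sin_pos_of_pos_of_lt_pi h2 (by linarith)
  have s3 : 0 < sin θ₃ := sin_pos_of_pos_of_lt_pi (by linarith) (by linarith)
  have m1 : sin θ₁ ≤ sin θ₃ := by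
    rw [← sin_pi_sub θ₃]
    exact sin_le_sin_of_le_of_le_pi_div_two (by linarith) (by linarith) (by linarith)
  have m2 : sin θ₂ ≤ sin θ₃ := by
    rw [← sin_pi_sub θ₃]
    exact sin_le_sin_of_le_of_le_pi_div_two (by linarith) (by linarith) (by linarith)
  have ha1 : R * sin θ₁ ≤ R * sin θ₃ := by gcongr
  have ha2 : R * sin θ₂ ≤ R * sin θ₃ := by gcongr
  have habs : |θ₃ - π / 2| < π / 2 := by rw [abs_lt]; constructor <;> linarith
  have hcos3 : cos (θ₃ - π / 2) = sin θ₃ := cos_sub_pi_div_two θ₃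
  have hsin3 : sin (θ₃ - π / 2) = -cos θ₃ := sin_sub_pi_div_two θ₃
  rcases le_total (R ^ 2) (4 / 3) with hR2 | hR2
  · rw [Uf_small' h1 (by linarith) (by rw [mul_pow]; gcongr),
      Uf_small' h2 (by linarith) (by rw [mul_pow]; gcongr),
      Uf_small habs (by rw [hcos3, mul_pow]; gcongr), tan_eq_sin_div_cos, hcos3, hsin3]
    have e1 := cot_sum (R := R) s1 s2 hs
    have e2 := law_cos (R := R) hs
    set a₁ := R * sin θ₁ with ha1d
    set a₂ := R * sin θ₂ with ha2d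
    set a₃ := R * sin θ₃ with ha3d
    have p1 : 0 < a₁ := by positivity
    have p2 : 0 < a₂ := by positivity
    have p3 : 0 < a₃ := by positivity
    have hcn : cos θ₃ ≤ 0 := cos_nonpos_of_pi_div_two_le_of_le h3 (by linarith)
    have e3 := T3alg (k := -cos θ₃) (σ := sin θ₃) p1 p2 p3 ha3 (by linarith) s3
      (by have := sin_sq_add_cos_sq θ₃; linarith)
      (by
        rw [ha3d, mul_pow]
        have : 1 ≤ R ^ 2 := by nlinarith
        nlinarith [sq_nonneg (sin θ₃)])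
      (by rw [ha3d, mul_pow]; nlinarith [sq_nonneg (sin θ₃)])
      (by linarith)
    have hc := cc_pi
    have h9 : cc * (π / 2 - θ₁) + cc * (π / 2 - θ₂) - cc * (θ₃ - π / 2) = √3 := by
      linear_combination hc / 2 - cc * hs
    have h10 : a₃ ^ 2 * (-cos θ₃ / sin θ₃) = - (R ^ 2 * sin θ₃ * cos θ₃) := by
      rw [ha3d]; field_simp
    rw [h10]
    nlinarith
  · have q1 : 4 / 3 * sin θ₁ ^ 2 ≤ (R * sin θ₁) ^ 2 := by rw [mul_pow]; gcongr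
    have q2 : 4 / 3 * sin θ₂ ^ 2 ≤ (R * sin θ₂) ^ 2 := by rw [mul_pow]; gcongr
    have q3 : 4 / 3 * cos (θ₃ - π / 2) ^ 2 ≤ (R * sin θ₃) ^ 2 := by rw [hcos3, mul_pow]; gcongr
    have L1 := Uf_large' (by positivity) (ha1.trans ha3) h1.le (by linarith) q1
    have L2 := Uf_large' (by positivity) (ha2.trans ha3) h2.le (by linarith) q2
    have L3 := Uf_large (a := R * sin θ₃) (by positivity) ha3 (by linarith) (by linarith) q3
    rw [L1, L2, L3]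
    have hsum : R * sin θ₃ ≤ R * sin θ₁ + R * sin θ₂ := by
      have hs3 : sin θ₃ = sin θ₁ * cos θ₂ + cos θ₁ * sin θ₂ := by
        rw [show θ₃ = π - (θ₁ + θ₂) by linarith, sin_pi_sub, sin_add]
      have : sin θ₃ ≤ sin θ₁ + sin θ₂ := by
        rw [hs3]
        nlinarith [cos_le_one θ₁, cos_le_one θ₂]
      nlinarith
    have H := Hf_super (x := R * sin θ₁) (y := R * sin θ₂) (z := R * sin θ₃)
      (by positivity) (by positivity) ha1 ha2 ha3 hsum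
    have Z := Hf_zero
    have h9 : bb * (π / 2 - θ₁) + bb * (π / 2 - θ₂) - bb * (θ₃ - π / 2) = bb * (π / 2) := by
      linear_combination (-bb) * hs
    linarith

end FT58
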