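import Pool.Agent.Lib.MP_49fa77_co.Cluster
import Pool.Agent.Lib.MP_49fa77_co.Three

/-!
# The union inequality for generic finite sets
-/

namespace FT58

open Real MeasureTheory Set ENNReal Metric

lemma Vc_aedisj {S : Finset ℂ} {c c' : ℂ} (hc : c ∈ S) (hc' : c' ∈ S) (hne : c ≠ c') :
    AEDisjoint volume (Vc S c) (Vc S c') := by
  have hv : c' - c ≠ 0 := sub_ne_zero.mpr (Ne.symm hne)
  refine measure_mono_null ?_ (null_line hv (dt c (c' - c) + ‖c' - c‖ ^ 2 / 2))
  rintro x ⟨hx, hx'⟩
  have h1 := hx c' hc'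
  have h2 := hx' c hc
  have h3 : ‖x - c‖ = ‖x - c'‖ := le_antisymm h1 h2
  have h4 := dist_id c c' x
  rw [h3] at h4
  show dt x (c' - c) = dt c (c' - c) + ‖c' - c‖ ^ 2 / 2
  have h5 : dt (x - c) (c' - c) = dt x (c' - c) - dt c (c' - c) := by
    simp only [dt, Complex.sub_re, Complex.sub_im]; ring
  linarith

lemma exists_nearest {S : Finset ℂ} (hS : S.Nonempty) (x : ℂ) : ∃ c ∈ S, x ∈ Vc S c := by
  obtain ⟨c, hc, hmin⟩ := Finset.exists_min_image S (fun c => ‖x - c‖) hS
  exact ⟨c, hc, fun r hr => hmin r hr⟩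

/-- union inequality, generic case -/
theorem union_generic {J : Type*} {D : ℝ} (hD : 0 ≤ D) {S : Finset ℂ} (hG : Gen S)
    {cl : ℂ → J} (hsep : ∀ x ∈ S, ∀ y ∈ S, cl x ≠ cl y → 2 ≤ ‖y - x‖)
    (hcl : ∀ P : Finset ℂ, Closed S P → (∃ j, ∀ x, x ∈ P ↔ x ∈ S ∧ cl x = j) → P.Nonempty →
      0 ≤ score D S P) :
    volume (⋃ c ∈ S, closedBall c 1) ≤ ENNReal.ofReal D * volume (⋃ c ∈ S, closedBall c (2 / √3)) := by
  classical
  rcases S.eq_empty_or_nonempty with rfl | hS
  · simp
  have h0 : 0 ≤ ∑ c ∈ S, (D * (volume (Vc S c ∩ Metric.closedBall c (2 / √3))).toReal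
      - (volume (Vc S c ∩ Metric.closedBall c 1)).toReal) := by
    apply cluster_reduction hD hG hsep
    intro j hj
    obtain ⟨x, hx, rfl⟩ := Finset.mem_image.mp hj
    convert hcl (S.filter (fun y => cl y = cl x)) ⟨Finset.filter_subset _ _, ?_⟩ ⟨cl x, ?_⟩
      ⟨x, Finset.mem_filter.mpr ⟨hx, rfl⟩⟩
    · intro s hs p hp hsh
      rw [Finset.mem_filter] at hp ⊢
      refine ⟨hs, ?_⟩
      rw [← Sh_mem hsep hp.1 hs hsh, hp.2]
    · intro y
      rw [Finset.mem_filter]
  have hfin : ∀ (b : ℝ) (c : ℂ), volume (Vc S c ∩ closedBall c b) ≠ ⊤ := by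
    intro b c
    exact ne_top_of_le_ne_top measure_closedBall_lt_top.ne (measure_mono inter_subset_right)
  have h1 : volume (⋃ c ∈ S, closedBall c 1) ≤ ∑ c ∈ S, volume (Vc S c ∩ closedBall c 1) := by
    have hsub : (⋃ c ∈ S, closedBall c (1:ℝ)) ⊆ ⋃ c ∈ S, (Vc S c ∩ closedBall c 1) := by
      intro x hx
      simp only [mem_iUnion] at hx ⊢
      obtain ⟨c, hc, hxc⟩ := hx
      obtain ⟨c', hc', hx'⟩ := exists_nearest hS x
      refine ⟨c', hc', hx', ?_⟩
      rw [mem_closedBall, dist_eq_norm] at hxc ⊢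
      exact (hx' c hc).trans hxc
    exact (measure_mono hsub).trans (measure_biUnion_finset_le _ _)
  have h2 : ∑ c ∈ S, volume (Vc S c ∩ closedBall c (2 / √3))
      ≤ volume (⋃ c ∈ S, closedBall c (2 / √3)) := by
    rw [← measure_biUnion_finset₀]
    · apply measure_mono
      intro x hx
      simp only [mem_iUnion] at hx ⊢
      obtain ⟨c, hc, _, hxc⟩ := hx
      exact ⟨c, hc, hxc⟩
    · intro c hc c' hc' hne
      exact (Vc_aedisj hc hc' hne).mono inter_subset_left inter_subset_left
    · intro c _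
      exact ((Vc_closed S c).measurableSet.inter measurableSet_closedBall).nullMeasurableSet
  have h3 : ∑ c ∈ S, volume (Vc S c ∩ closedBall c 1)
      ≤ ENNReal.ofReal D * ∑ c ∈ S, volume (Vc S c ∩ closedBall c (2 / √3)) := by
    rw [Finset.sum_sub_distrib, ← Finset.mul_sum, ← ENNReal.toReal_sum (fun c _ => hfin _ _),
      ← ENNReal.toReal_sum (fun c _ => hfin _ _)] at h0
    have hf1 : ∑ c ∈ S, volume (Vc S c ∩ closedBall c 1) ≠ ⊤ :=
      ENNReal.sum_ne_top.mpr (fun c _ => hfin _ _)
    have hf2 : ∑ c ∈ S, volume (Vc S c ∩ closedBall c (2 / √3)) ≠ ⊤ :=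
      ENNReal.sum_ne_top.mpr (fun c _ => hfin _ _)
    rw [← ENNReal.ofReal_toReal hf1, ← ENNReal.ofReal_toReal hf2, ← ENNReal.ofReal_mul hD]
    apply ENNReal.ofReal_le_ofReal
    linarith
  calc _ ≤ _ := h1
    _ ≤ _ := h3
    _ ≤ _ := by gcongr

/-! ### Genericity -/

lemma circle_id (c q r s : ℂ) (hX : XX c q r ≠ 0) :
    XX c q r * (‖(c + q) / 2 + ((DD c q r / XX c q r : ℝ) : ℂ) * (Complex.I * (q - c) / 2) - s‖ ^ 2
      - ‖(c + q) / 2 + ((DD c q r / XX c q r : ℝ) : ℂ) * (Complex.I * (q - c) / 2) - c‖ ^ 2)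
    = IC c q r s := by
  set τ := DD c q r / XX c q r with hτ
  have hτX : τ * XX c q r = DD c q r := by rw [hτ]; field_simp
  have e : ∀ s : ℂ, ‖(c + q) / 2 + ((τ : ℝ) : ℂ) * (Complex.I * (q - c) / 2) - s‖ ^ 2
      = ((c.re + q.re) / 2 - τ * (q.im - c.im) / 2 - s.re) ^ 2
        + ((c.im + q.im) / 2 + τ * (q.re - c.re) / 2 - s.im) ^ 2 := by
    intro s
    rw [norm_sq_eq]
    congr 2
    · simp [Complex.add_re, Complex.sub_re, Complex.div_ofNat_re,
        Complex.mul_re]
      ring
    · simp [Complex.add_im, Complex.sub_im, Complex.div_ofNat_im,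
        Complex.mul_im]
      ring
  rw [e, e]
  have h1 : ((c.re + q.re) / 2 - τ * (q.im - c.im) / 2 - s.re) ^ 2
        + ((c.im + q.im) / 2 + τ * (q.re - c.re) / 2 - s.im) ^ 2
      - (((c.re + q.re) / 2 - τ * (q.im - c.im) / 2 - c.re) ^ 2
        + ((c.im + q.im) / 2 + τ * (q.re - c.re) / 2 - c.im) ^ 2)
      = DD c q s - τ * XX c q s := by
    simp only [DD, dt, XX, cr, Complex.sub_re, Complex.sub_im]; ring
  rw [h1]
  unfold IC
  linear_combination (-XX c q s) * hτX

lemma null_circle {c q r : ℂ} (hX : XX c q r ≠ 0) : volume {s : ℂ | IC c q r s = 0} = 0 := by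
  set O : ℂ := (c + q) / 2 + ((DD c q r / XX c q r : ℝ) : ℂ) * (Complex.I * (q - c) / 2) with hO
  refine measure_mono_null ?_ (Measure.addHaar_sphere (volume : Measure ℂ) O ‖O - c‖)
  intro s hs
  have h1 := circle_id c q r s hX
  rw [← hO] at h1
  have hs' : IC c q r s = 0 := hs
  rw [hs'] at h1
  have h2 : ‖O - s‖ ^ 2 - ‖O - c‖ ^ 2 = 0 := by
    rcases mul_eq_zero.mp h1 with h | h
    · exact absurd h hX
    · exact h
  rw [mem_sphere, dist_eq_norm, norm_sub_rev]
  exact (pow_left_inj₀ (norm_nonneg _) (norm_nonneg _) (two_ne_zero)).mp (by linarith)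

lemma null_finset {S : Finset ℂ} {f : ℂ → Set ℂ} (h : ∀ c ∈ S, volume (f c) = 0) :
    volume (⋃ c ∈ S, f c) = 0 := by
  have := measure_biUnion_finset_le (μ := volume) S f
  rw [Finset.sum_eq_zero h] at this
  exact le_antisymm this bot_le

lemma null_XX {c q : ℂ} (h : c ≠ q) : volume {s : ℂ | XX c q s = 0} = 0 := by
  have hv : (Complex.I * (q - c)) ≠ 0 := mul_ne_zero Complex.I_ne_zero (sub_ne_zero.mpr (Ne.symm h))
  refine measure_mono_null ?_ (null_line hv (dt c (Complex.I * (q - c))))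
  intro s hs
  have hs' : XX c q s = 0 := hs
  show dt s (Complex.I * (q - c)) = dt c (Complex.I * (q - c))
  have : dt s (Complex.I * (q - c)) - dt c (Complex.I * (q - c)) = XX c q s := by
    simp only [XX, cr, dt, Complex.mul_re, Complex.mul_im, Complex.I_re, Complex.I_im,
      Complex.sub_re, Complex.sub_im]
    ring
  linarith

/-- the bad positions for a new point -/
def BadPos (S : Finset ℂ) : Set ℂ :=
  {s | s ∈ S} ∪ {s | ∃ c ∈ S, ∃ q ∈ S, c ≠ q ∧ XX c q s = 0} ∪
    {s | ∃ c ∈ S, ∃ q ∈ S, ∃ r ∈ S, c ≠ q ∧ c ≠ r ∧ q ≠ r ∧ IC c q r s = 0}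

lemma BadPos_null {S : Finset ℂ} (hG : Gen S) : volume (BadPos S) = 0 := by
  have h1 : volume {s : ℂ | s ∈ S} = 0 := S.finite_toSet.measure_zero _
  have h2 : volume {s : ℂ | ∃ c ∈ S, ∃ q ∈ S, c ≠ q ∧ XX c q s = 0} = 0 := by
    have : {s : ℂ | ∃ c ∈ S, ∃ q ∈ S, c ≠ q ∧ XX c q s = 0}
        ⊆ ⋃ c ∈ S, ⋃ q ∈ S, {s : ℂ | c ≠ q ∧ XX c q s = 0} := by
      rintro s ⟨c, hc, q, hq, h⟩
      simp only [mem_iUnion]
      exact ⟨c, hc, q, hq, h⟩
    refine measure_mono_null this ?_
    refine null_finset fun c hc => null_finset fun q hq => ?_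
    by_cases h : c = q
    · have : {s : ℂ | c ≠ q ∧ XX c q s = 0} = ∅ := by
        ext s; simp [h]
      rw [this]; simp
    · exact measure_mono_null (fun s hs => hs.2) (null_XX h)
  have h3 : volume {s : ℂ | ∃ c ∈ S, ∃ q ∈ S, ∃ r ∈ S, c ≠ q ∧ c ≠ r ∧ q ≠ r ∧ IC c q r s = 0}
      = 0 := by
    have : {s : ℂ | ∃ c ∈ S, ∃ q ∈ S, ∃ r ∈ S, c ≠ q ∧ c ≠ r ∧ q ≠ r ∧ IC c q r s = 0}
        ⊆ ⋃ c ∈ S, ⋃ q ∈ S, ⋃ r ∈ S, {s : ℂ | c ≠ q ∧ c ≠ r ∧ q ≠ r ∧ IC c q r s = 0} := by
      rintro s ⟨c, hc, q, hq, r, hr, h⟩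
      simp only [mem_iUnion]
      exact ⟨c, hc, q, hq, r, hr, h⟩
    refine measure_mono_null this ?_
    refine null_finset fun c hc => null_finset fun q hq => null_finset fun r hr => ?_
    by_cases h : c ≠ q ∧ c ≠ r ∧ q ≠ r
    · refine measure_mono_null (fun s hs => hs.2.2.2)
        (null_circle (hG.1 c hc q hq r hr h.1 h.2.1 h.2.2))
    · have : {s : ℂ | c ≠ q ∧ c ≠ r ∧ q ≠ r ∧ IC c q r s = 0} = ∅ := by
        ext s; simp only [mem_ofPred_eq, mem_empty_iff_false, iff_false]; tauto
      rw [this]; simp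
  unfold BadPos
  exact measure_union_null (measure_union_null h1 h2) h3

lemma Gen_insert {S : Finset ℂ} (hG : Gen S) {p : ℂ} (hp : p ∉ BadPos S) : Gen (insert p S) := by
  unfold BadPos at hp
  simp only [mem_union, mem_ofPred_eq, not_or, not_exists, not_and] at hp
  obtain ⟨⟨h0, h1⟩, h2⟩ := hp
  have X1 : ∀ c ∈ S, ∀ q ∈ S, c ≠ q → XX c q p ≠ 0 := fun c hc q hq h => h1 c hc q hq h
  have I1 : ∀ c ∈ S, ∀ q ∈ S, ∀ r ∈ S, c ≠ q → c ≠ r → q ≠ r → IC c q r p ≠ 0 :=
    fun c hc q hq r hr a b d => h2 c hc q hq r hr a b d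
  constructor
  · intro c hc q hq r hr hcq hcr hqr
    rw [Finset.mem_insert] at hc hq hr
    rcases hc with rfl | hc
    · rcases hq with rfl | hq
      · exact absurd rfl hcq
      · rcases hr with rfl | hr
        · exact absurd rfl hcr
        · rw [← XX_cyc]; exact X1 q hq r hr hqr
    · rcases hq with rfl | hq
      · rcases hr with rfl | hr
        · exact absurd rfl hqr
        · rw [← XX_cyc, ← XX_cyc]; exact X1 r hr c hc (Ne.symm hcr)
      · rcases hr with rfl | hr
        · exact X1 c hc q hq hcq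
        · exact hG.1 c hc q hq r hr hcq hcr hqr
  · intro c hc q hq r hr s hs hcq hcr hqr hsc hsq hsr
    rw [Finset.mem_insert] at hc hq hr hs
    rcases hs with rfl | hs
    · have hc' : c ∈ S := by
        rcases hc with rfl | hc
        · exact absurd rfl hsc
        · exact hc
      have hq' : q ∈ S := by
        rcases hq with rfl | hq
        · exact absurd rfl hsq
        · exact hq
      have hr' : r ∈ S := by
        rcases hr with rfl | hr
        · exact absurd rfl hsr
        · exact hr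
      exact I1 c hc' q hq' r hr' hcq hcr hqr
    · rcases hr with rfl | hr
      · have hc' : c ∈ S := by
          rcases hc with rfl | hc
          · exact absurd rfl hcr
          · exact hc
        have hq' : q ∈ S := by
          rcases hq with rfl | hq
          · exact absurd rfl hqr
          · exact hq
        rw [IC_swap, neg_ne_zero]
        exact I1 c hc' q hq' s hs hcq (Ne.symm hsc) (Ne.symm hsq)
      · rcases hq with rfl | hq
        · have hc' : c ∈ S := by
            rcases hc with rfl | hc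
            · exact absurd rfl hcq
            · exact hc
          rw [← IC_cyc, ← IC_cyc, IC_swap, neg_ne_zero]
          exact I1 r hr c hc' s hs (Ne.symm hcr) (Ne.symm hsr) (Ne.symm hsc)
        · rcases hc with rfl | hc
          · rw [← IC_cyc, IC_swap, neg_ne_zero]
            exact I1 q hq r hr s hs hqr (Ne.symm hsq) (Ne.symm hsr)
          · exact hG.2 c hc q hq r hr s hs hcq hcr hqr hsc hsq hsr

/-- Perturbation to a generic configuration. -/
theorem exists_generic {ι : Type*} [DecidableEq ι] (p : ι → ℂ) {ε : ℝ} (hε : 0 < ε)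
    (s : Finset ι) :
    ∃ p' : ι → ℂ, (∀ i ∈ s, ‖p' i - p i‖ < ε) ∧ Set.InjOn p' s ∧ Gen (s.image p') := by
  classical
  induction s using Finset.induction_on with
  | empty =>
    refine ⟨p, by simp, by simp, ?_⟩
    constructor <;> simp
  | insert a s ha ih =>
    obtain ⟨p', h1, h2, h3⟩ := ih
    have hpos : 0 < volume (ball (p a) ε) := measure_ball_pos _ _ hε
    have hex : ∃ z ∈ ball (p a) ε, z ∉ BadPos (s.image p') := by
      by_contra hcon
      push Not at hcon
      have : volume (ball (p a) ε) ≤ volume (BadPos (s.image p')) := measure_mono hcon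
      rw [BadPos_null h3] at this
      exact absurd hpos (not_lt.mpr this)
    obtain ⟨z, hz, hzb⟩ := hex
    have hzS : z ∉ s.image p' := by
      intro h
      apply hzb
      left; left; exact h
    refine ⟨Function.update p' a z, ?_, ?_, ?_⟩
    · intro i hi
      rw [Finset.mem_insert] at hi
      by_cases hia : i = a
      · subst hia
        rw [Function.update_self]
        rw [mem_ball, dist_eq_norm] at hz; exact hz
      · rw [Function.update_of_ne hia]
        exact h1 i (hi.resolve_left hia)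
    · intro i hi j hj hij
      have hi := Finset.mem_coe.mp hi
      have hj := Finset.mem_coe.mp hj
      rw [Finset.mem_insert] at hi hj
      by_cases hia : i = a <;> by_cases hja : j = a
      · rw [hia, hja]
      · exfalso
        rw [hia, Function.update_self, Function.update_of_ne hja] at hij
        exact hzS (by rw [hij]; exact Finset.mem_image_of_mem _ (hj.resolve_left hja))
      · exfalso
        rw [hja, Function.update_self, Function.update_of_ne hia] at hij
        exact hzS (by rw [← hij]; exact Finset.mem_image_of_mem _ (hi.resolve_left hia))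
      · rw [Function.update_of_ne hia, Function.update_of_ne hja] at hij
        exact h2 (Finset.mem_coe.mpr (hi.resolve_left hia))
          (Finset.mem_coe.mpr (hj.resolve_left hja)) hij
    · have himg : (insert a s).image (Function.update p' a z) = insert z (s.image p') := by
        rw [Finset.image_insert, Function.update_self]
        congr 1
        apply Finset.image_congr
        intro i hi
        have : i ≠ a := by
          rintro rfl
          exact ha (Finset.mem_coe.mp hi)
        exact Function.update_of_ne this _ _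
      rw [himg]
      exact Gen_insert h3 hzb

end FT58
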