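import Pool.Agent.Lib.MP_49fa77_co.Core5
import Pool.Agent.Lib.MP_49fa77_co.Upper

/-!
# The union inequality and the upper bound for five disks
-/

namespace FT58

open Real MeasureTheory Set ENNReal Metric Filter

lemma union_of_sum {D : ℝ} (hD : 0 ≤ D) {S : Finset ℂ} (hS : S.Nonempty)
    (h0 : 0 ≤ ∑ c ∈ S, (D * (volume (Vc S c ∩ Metric.closedBall c (2 / √3))).toReal
      - (volume (Vc S c ∩ Metric.closedBall c 1)).toReal)) :
    volume (⋃ c ∈ S, closedBall c 1) ≤ ENNReal.ofReal D * volume (⋃ c ∈ S, closedBall c (2 / √3)) := by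
  have hfin : ∀ (b : ℝ) (c : ℂ), volume (Vc S c ∩ closedBall c b) ≠ ⊤ := by
    intro b c
    exact ne_top_of_le_ne_top measure_closedBall_lt_top.ne (measure_mono inter_subset_right)
  have h1 : volume (⋃ c ∈ S, closedBall c 1) ≤ ∑ c ∈ S, volume (Vc S c ∩ closedBall c 1) := by
    have hsub : (⋃ c ∈ S, closedBall c (1:ℝ)) ⊆ ⋃ c ∈ S, (Vc S c ∩ closedBall c 1) := by
      intro x hx
      simp only [mem_iUnion] at hx ⊢
      obtain ⟨c, hc, hxc⟩ := hx
      obtain ⟨c', hc', hx'⟩ := exists_nearest hS x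
      refine ⟨c', hc', hx', ?_⟩
      rw [mem_closedBall, dist_eq_norm] at hxc ⊢
      exact (hx' c hc).trans hxc
    exact (measure_mono hsub).trans (measure_biUnion_finset_le _ _)
  have h2 : ∑ c ∈ S, volume (Vc S c ∩ closedBall c (2 / √3))
      ≤ volume (⋃ c ∈ S, closedBall c (2 / √3)) := by
    rw [← measure_biUnion_finset₀]
    · apply measure_mono
      intro x hx
      simp only [mem_iUnion] at hx ⊢
      obtain ⟨c, hc, _, hxc⟩ := hx
      exact ⟨c, hc, hxc⟩
    · intro c hc c' hc' hne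
      exact (Vc_aedisj hc hc' hne).mono inter_subset_left inter_subset_left
    · intro c _
      exact ((Vc_closed S c).measurableSet.inter measurableSet_closedBall).nullMeasurableSet
  have h3 : ∑ c ∈ S, volume (Vc S c ∩ closedBall c 1)
      ≤ ENNReal.ofReal D * ∑ c ∈ S, volume (Vc S c ∩ closedBall c (2 / √3)) := by
    rw [Finset.sum_sub_distrib, ← Finset.mul_sum, ← ENNReal.toReal_sum (fun c _ => hfin _ _),
      ← ENNReal.toReal_sum (fun c _ => hfin _ _)] at h0
    have hf1 : ∑ c ∈ S, volume (Vc S c ∩ closedBall c 1) ≠ ⊤ :=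
      ENNReal.sum_ne_top.mpr (fun c _ => hfin _ _)
    have hf2 : ∑ c ∈ S, volume (Vc S c ∩ closedBall c (2 / √3)) ≠ ⊤ :=
      ENNReal.sum_ne_top.mpr (fun c _ => hfin _ _)
    rw [← ENNReal.ofReal_toReal hf1, ← ENNReal.ofReal_toReal hf2, ← ENNReal.ofReal_mul hD]
    apply ENNReal.ofReal_le_ofReal
    linarith
  calc _ ≤ _ := h1
    _ ≤ _ := h3
    _ ≤ _ := by gcongr

/-- transfer of the union inequality from the perturbed and dilated points -/
lemma eps_transfer {ι : Type*} [DecidableEq ι] {D : ℝ} (s : Finset ι) (p p' : ι → ℂ) {ε : ℝ}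
    (h0 : 0 < ε) (h1 : ε < 1)
    (hp1 : ∀ i ∈ s, ‖p' i - ((1 / (1 - ε) : ℝ) : ℂ) * p i‖ < ε)
    (hmain : volume (⋃ c ∈ s.image p', closedBall c 1)
      ≤ ENNReal.ofReal D * volume (⋃ c ∈ s.image p', closedBall c (2 / √3))) :
    volume (⋃ i ∈ s, closedBall (p i) ((1 - ε) ^ 2))
      ≤ ENNReal.ofReal D * volume (⋃ i ∈ s, closedBall (p i) (2 / √3)) := by
  set l : ℝ := 1 / (1 - ε) with hl
  have h1ε : 0 < 1 - ε := by linarith
  have hl0 : 0 < l := by positivity
  have hlε : l * (1 - ε) = 1 := by rw [hl]; field_simp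
  set S := s.image p' with hS
  have i1 : (fun z => (0 : ℂ) + (l : ℂ) * z) '' (⋃ i ∈ s, closedBall (p i) ((1 - ε) ^ 2))
      ⊆ ⋃ c ∈ S, closedBall c 1 := by
    rintro _ ⟨z, hz, rfl⟩
    simp only [mem_iUnion] at hz ⊢
    obtain ⟨i, hi, hz⟩ := hz
    refine ⟨p' i, Finset.mem_image_of_mem _ hi, ?_⟩
    rw [mem_closedBall, dist_eq_norm] at hz ⊢
    have e : (0 : ℂ) + (l : ℂ) * z - p' i = (l : ℂ) * (z - p i) + -(p' i - (l : ℂ) * p i) := by ring
    rw [e]
    refine (norm_add_le _ _).trans ?_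
    rw [norm_mul, Complex.norm_real, norm_eq_abs, abs_of_pos hl0, norm_neg]
    have h2 := hp1 i hi
    have h3 : l * ‖z - p i‖ ≤ l * (1 - ε) ^ 2 := by gcongr
    have h4 : l * (1 - ε) ^ 2 = 1 - ε := by rw [pow_two, ← mul_assoc, hlε, one_mul]
    linarith
  have i2 : (⋃ c ∈ S, closedBall c (2 / √3))
      ⊆ (fun z => (0 : ℂ) + (l : ℂ) * z) '' (⋃ i ∈ s, closedBall (p i) (2 / √3)) := by
    intro x hx
    simp only [mem_iUnion] at hx
    obtain ⟨c, hc, hx⟩ := hx
    obtain ⟨i, hi, rfl⟩ := Finset.mem_image.mp hc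
    refine ⟨((1 - ε : ℝ) : ℂ) * x, ?_, ?_⟩
    · simp only [mem_iUnion]
      refine ⟨i, hi, ?_⟩
      rw [mem_closedBall, dist_eq_norm] at hx ⊢
      have e : ((1 - ε : ℝ) : ℂ) * x - p i = ((1 - ε : ℝ) : ℂ) * ((x - p' i)
          + (p' i - (l : ℂ) * p i)) := by
        have : ((1 - ε : ℝ) : ℂ) * (l : ℂ) = 1 := by
          rw [← Complex.ofReal_mul, mul_comm, hlε]; simp
        linear_combination (p i) * (this)
      rw [e, norm_mul, Complex.norm_real, norm_eq_abs, abs_of_pos h1ε]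
      have h2 := hp1 i hi
      have h3 := norm_add_le (x - p' i) (p' i - (l : ℂ) * p i)
      have h4 := rho_gt_one
      have h5 : ‖x - p' i + (p' i - (l : ℂ) * p i)‖ ≤ 2 / √3 + ε := by linarith
      calc (1 - ε) * ‖x - p' i + (p' i - (l : ℂ) * p i)‖ ≤ (1 - ε) * (2 / √3 + ε) := by gcongr
        _ ≤ 2 / √3 := by nlinarith
    · simp only [zero_add]
      rw [← mul_assoc, ← Complex.ofReal_mul, hlε]; simp
  have v1 := measure_mono (μ := volume) i1
  have v2 := measure_mono (μ := volume) i2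
  rw [vol_image_affine, Complex.norm_real, norm_eq_abs, abs_of_pos hl0] at v1 v2
  have hl2 : ENNReal.ofReal (l ^ 2) ≠ 0 := by
    rw [Ne, ENNReal.ofReal_eq_zero, not_le]; positivity
  have key : ENNReal.ofReal (l ^ 2) * volume (⋃ i ∈ s, closedBall (p i) ((1 - ε) ^ 2))
      ≤ ENNReal.ofReal (l ^ 2) *
        (ENNReal.ofReal D * volume (⋃ i ∈ s, closedBall (p i) (2 / √3))) := by
    calc _ ≤ _ := v1
      _ ≤ _ := hmain
      _ ≤ ENNReal.ofReal D * (ENNReal.ofReal (l ^ 2) *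
          volume (⋃ i ∈ s, closedBall (p i) (2 / √3))) := by gcongr
      _ = _ := by ring
  exact (ENNReal.mul_le_mul_iff_right hl2 ENNReal.ofReal_ne_top).mp key

lemma union_eps5 {D : ℝ} (hD : 0 ≤ D) {c : Fin 5 → ℂ} {δ : ℝ}
    (hcore : ∀ S cl p t, Lab c δ S cl p t →
      0 ≤ S.card * (2 * kap D) + sE S (Eg S) (val2 D S)) {B : ℝ} (hB : ∀ i, ‖c i‖ ≤ B)
    (T : Finset ℂ)
    (hsep : ∀ v ∈ T, ∀ w ∈ T, v ≠ w → ∀ i j, 2 ≤ ‖(c i + v) - (c j + w)‖)
    {ε : ℝ} (h0 : 0 < ε) (h1 : ε < 1) (h2 : ε + (1 / (1 - ε) - 1) * B < δ) :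
    volume (⋃ x ∈ T ×ˢ (Finset.univ : Finset (Fin 5)), closedBall (c x.2 + x.1) ((1 - ε) ^ 2))
      ≤ ENNReal.ofReal D * volume (⋃ x ∈ T ×ˢ (Finset.univ : Finset (Fin 5)),
        closedBall (c x.2 + x.1) (2 / √3)) := by
  classical
  rcases T.eq_empty_or_nonempty with rfl | hT
  · simp
  set s : Finset (ℂ × Fin 5) := T ×ˢ Finset.univ with hs
  set l : ℝ := 1 / (1 - ε) with hl
  have h1ε : 0 < 1 - ε := by linarith
  have hl0 : 0 < l := by positivity
  have hl1 : 1 ≤ l := by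
    rw [hl, le_div_iff₀ h1ε]; linarith
  obtain ⟨p', hp1, hp2, hp3⟩ := exists_generic (fun x : ℂ × Fin 5 => (l : ℂ) * (c x.2 + x.1)) h0 s
  have hms : ∀ v ∈ T, ∀ i, ((v, i) : ℂ × Fin 5) ∈ s := by
    intro v hv i
    rw [hs, Finset.mem_product]; exact ⟨hv, Finset.mem_univ _⟩
  apply eps_transfer s (fun x => c x.2 + x.1) p' h0 h1 hp1
  set S := s.image p' with hS
  have hne : S.Nonempty := by
    obtain ⟨v, hv⟩ := hT
    exact ⟨p' (v, 0), Finset.mem_image_of_mem _ (hms v hv 0)⟩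
  set g : ℂ → ℂ × Fin 5 := Function.invFunOn p' s with hg
  have hgp : ∀ i ∈ s, g (p' i) = i := by
    intro i hi
    exact hp2.leftInvOn_invFunOn (Finset.mem_coe.mpr hi)
  have hlab : Lab c δ S (fun x => (g x).1) (fun v i => p' (v, i)) (fun v => (l : ℂ) * v) := by
    refine ⟨hp3, hne, ?_, ?_, ?_, ?_⟩
    · intro x hx y hy hne
      obtain ⟨a, ha, rfl⟩ := Finset.mem_image.mp hx
      obtain ⟨b, hb, rfl⟩ := Finset.mem_image.mp hy
      rw [hgp a ha, hgp b hb] at hne
      have ha' := (Finset.mem_product.mp ha).1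
      have hb' := (Finset.mem_product.mp hb).1
      have k2 := hsep a.1 ha' b.1 hb' hne a.2 b.2
      have k3 := hp1 a ha
      have k4 := hp1 b hb
      set pa := c a.2 + a.1 with hpa
      set pb := c b.2 + b.1 with hpb
      have k5 : ‖(l : ℂ) * pa - (l : ℂ) * pb‖ = l * ‖pa - pb‖ := by
        rw [← mul_sub, norm_mul, Complex.norm_real, norm_eq_abs, abs_of_pos hl0]
      have k6 : ‖(l : ℂ) * pa - (l : ℂ) * pb‖ ≤ ‖p' b - p' a‖ + ‖p' a - (l : ℂ) * pa‖
          + ‖p' b - (l : ℂ) * pb‖ := by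
        have e : (l : ℂ) * pa - (l : ℂ) * pb = -(p' b - p' a) + -(p' a - (l : ℂ) * pa)
            + (p' b - (l : ℂ) * pb) := by ring
        rw [e]
        refine (norm_add_le _ _).trans ?_
        have := norm_add_le (-(p' b - p' a)) (-(p' a - (l : ℂ) * pa))
        rw [norm_neg, norm_neg] at this
        linarith
      have k7 : 2 + 2 * ε ≤ l * ‖pa - pb‖ := by
        have : (1 + ε) ≤ l := by
          rw [hl, le_div_iff₀ h1ε]; nlinarith
        nlinarith
      linarith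
    · intro x hx y
      obtain ⟨a, ha, rfl⟩ := Finset.mem_image.mp hx
      show (y ∈ S ∧ (g y).1 = (g (p' a)).1) ↔ ∃ i, y = p' ((g (p' a)).1, i)
      rw [hgp a ha]
      have ha' := (Finset.mem_product.mp ha).1
      constructor
      · rintro ⟨hy, hya⟩
        obtain ⟨b, hb, rfl⟩ := Finset.mem_image.mp hy
        rw [hgp b hb] at hya
        exact ⟨b.2, by rw [← hya]⟩
      · rintro ⟨i, rfl⟩
        exact ⟨Finset.mem_image_of_mem _ (hms _ ha' i), by rw [hgp _ (hms _ ha' i)]⟩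
    · intro x hx
      obtain ⟨a, ha, rfl⟩ := Finset.mem_image.mp hx
      have ha' := (Finset.mem_product.mp ha).1
      intro i j hij
      have hij' : p' ((g (p' a)).1, i) = p' ((g (p' a)).1, j) := hij
      rw [hgp a ha] at hij'
      have := hp2 (Finset.mem_coe.mpr (hms _ ha' i)) (Finset.mem_coe.mpr (hms _ ha' j)) hij'
      exact (Prod.mk.inj this).2
    · intro x hx i
      obtain ⟨a, ha, rfl⟩ := Finset.mem_image.mp hx
      have ha' := (Finset.mem_product.mp ha).1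
      show ‖p' ((g (p' a)).1, i) - (l : ℂ) * (g (p' a)).1 - c i‖ < δ
      rw [hgp a ha]
      have k1 := hp1 _ (hms _ ha' i)
      have e : p' (a.1, i) - (l : ℂ) * a.1 - c i
          = (p' (a.1, i) - (l : ℂ) * (c i + a.1)) + ((l - 1 : ℝ) : ℂ) * c i := by
        push_cast; ring
      rw [e]
      refine lt_of_le_of_lt (norm_add_le _ _) ?_
      rw [norm_mul, Complex.norm_real, norm_eq_abs, abs_of_nonneg (by linarith)]
      have k2 : (l - 1) * ‖c i‖ ≤ (l - 1) * B := mul_le_mul_of_nonneg_left (hB i) (by linarith)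
      have k1' : ‖p' (a.1, i) - (l : ℂ) * (c i + a.1)‖ < ε := k1
      linarith
  have h3 := hcore S _ _ _ hlab
  exact union_of_sum hD hne (h3.trans (total2 hD hp3))

/-- **The union inequality for translates of five disks.** -/
theorem union_ineq5 {D : ℝ} (hD : 0.96299 ≤ D) (hD1 : D ≤ 1)
    (hM : ∀ a, 0 < a → a < 1 → -(kap D / 4) ≤ GG D a) (c : Fin 5 → ℂ) (T : Finset ℂ)
    (hsep : ∀ v ∈ T, ∀ w ∈ T, v ≠ w → ∀ i j, 2 ≤ ‖(c i + v) - (c j + w)‖) :
    volume (⋃ x ∈ T ×ˢ (Finset.univ : Finset (Fin 5)), closedBall (c x.2 + x.1) 1)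
      ≤ ENNReal.ofReal D * volume (⋃ x ∈ T ×ˢ (Finset.univ : Finset (Fin 5)),
        closedBall (c x.2 + x.1) (2 / √3)) := by
  obtain ⟨δ, hδ, hcore⟩ := core5 hD hD1 hM c
  set B : ℝ := ∑ i, ‖c i‖ with hB
  have hBi : ∀ i, ‖c i‖ ≤ B := fun i => Finset.single_le_sum (f := fun i => ‖c i‖)
    (fun i _ => norm_nonneg _) (Finset.mem_univ i)
  set s : Finset (ℂ × Fin 5) := T ×ˢ Finset.univ with hs
  set p : ℂ × Fin 5 → ℂ := fun x => c x.2 + x.1 with hp
  set e : ℕ → ℝ := fun m => 1 / ((m : ℝ) + 2) with he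
  have he0 : ∀ m, 0 < e m := fun m => by simp only [he]; positivity
  have he1 : ∀ m, e m < 1 := by
    intro m
    simp only [he]
    rw [div_lt_one (by positivity)]
    have : (0 : ℝ) ≤ m := Nat.cast_nonneg m
    linarith
  have hanti : Antitone e := by
    intro a b hab
    simp only [he]
    apply div_le_div_of_nonneg_left one_pos.le (by positivity)
    have : (a : ℝ) ≤ b := by exact_mod_cast hab
    linarith
  have helim : Tendsto e atTop (nhds 0) := by
    simp only [he]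
    apply Tendsto.div_atTop tendsto_const_nhds
    exact tendsto_atTop_add_const_right _ _ tendsto_natCast_atTop_atTop
  set A : ℕ → Set ℂ := fun m => ⋃ i ∈ s, closedBall (p i) ((1 - e m) ^ 2) with hA
  have hmono : Monotone A := by
    intro a b hab
    simp only [hA]
    apply iUnion₂_mono
    intro i _
    apply closedBall_subset_closedBall
    have h1 := hanti hab
    have h2 := he1 a
    have h3 : 0 ≤ 1 - e a := by linarith
    gcongr
  have hev : ∀ᶠ m in atTop, e m + (1 / (1 - e m) - 1) * B < δ := by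
    have h1 : Tendsto (fun m => e m + (1 / (1 - e m) - 1) * B) atTop
        (nhds (0 + (1 / (1 - 0) - 1) * B)) := by
      apply helim.add
      apply Filter.Tendsto.mul_const
      apply Filter.Tendsto.sub_const
      apply Filter.Tendsto.div tendsto_const_nhds (tendsto_const_nhds.sub helim)
      norm_num
    apply h1.eventually_lt_const
    simpa using hδ
  obtain ⟨m₀, hm₀⟩ := eventually_atTop.mp hev
  have hsup : volume (⋃ m, A m) ≤ ENNReal.ofReal D * volume (⋃ i ∈ s, closedBall (p i) (2 / √3)) := by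
    rw [hmono.measure_iUnion]
    apply iSup_le
    intro m
    refine (measure_mono (hmono (le_max_left m m₀))).trans ?_
    exact union_eps5 (by linarith) hcore hBi T hsep (he0 _) (he1 _) (hm₀ _ (le_max_right m m₀))
  have hball : (⋃ i ∈ s, ball (p i) 1) ⊆ ⋃ m, A m := by
    intro x hx
    simp only [mem_iUnion] at hx
    obtain ⟨i, hi, hx⟩ := hx
    rw [mem_ball] at hx
    have hlim : Tendsto (fun m => (1 - e m) ^ 2) atTop (nhds ((1 - 0) ^ 2)) := by
      apply Filter.Tendsto.pow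
      exact Filter.Tendsto.sub tendsto_const_nhds helim
    have hev : ∀ᶠ m in atTop, dist x (p i) < (1 - e m) ^ 2 := by
      apply hlim.eventually_const_lt
      simpa using hx
    obtain ⟨m, hm⟩ := hev.exists
    rw [mem_iUnion]
    refine ⟨m, ?_⟩
    simp only [hA, mem_iUnion]
    exact ⟨i, hi, hm.le⟩
  have hsph : volume (⋃ i ∈ s, sphere (p i) 1) = 0 := by
    have h := measure_biUnion_finset_le (μ := (volume : Measure ℂ)) s (fun i => sphere (p i) 1)
    have h0 : ∑ i ∈ s, (volume : Measure ℂ) (sphere (p i) 1) = 0 := by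
      apply Finset.sum_eq_zero
      intro i _
      exact Measure.addHaar_sphere _ _ _
    rw [h0] at h
    exact le_antisymm h bot_le
  have hsub : (⋃ i ∈ s, closedBall (p i) (1 : ℝ)) ⊆ (⋃ i ∈ s, ball (p i) 1)
      ∪ (⋃ i ∈ s, sphere (p i) 1) := by
    intro x hx
    simp only [mem_union, mem_iUnion] at hx ⊢
    obtain ⟨i, hi, hx⟩ := hx
    rw [← ball_union_sphere] at hx
    rcases hx with hx | hx
    · exact Or.inl ⟨i, hi, hx⟩
    · exact Or.inr ⟨i, hi, hx⟩
  calc volume (⋃ i ∈ s, closedBall (p i) 1)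
      ≤ volume ((⋃ i ∈ s, ball (p i) 1) ∪ (⋃ i ∈ s, sphere (p i) 1)) := measure_mono hsub
    _ ≤ volume (⋃ i ∈ s, ball (p i) 1) + volume (⋃ i ∈ s, sphere (p i) 1) := measure_union_le _ _
    _ = volume (⋃ i ∈ s, ball (p i) 1) := by rw [hsph, add_zero]
    _ ≤ volume (⋃ m, A m) := measure_mono hball
    _ ≤ _ := hsup

end FT58
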