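import Pool.Agent.Lib.MP_49fa77_co.Count

/-!
# Relaxed values and the triangle inequalities relative to a family of triangles
-/

namespace FT58

open Real MeasureTheory Set

section
open Classical

/-- value of an end of the facet of `c q`: exact if short, relaxed to length `2` if long. -/
noncomputable def v2 (D : ℝ) (c q : ℂ) (ω : ℝ) : ℝ :=
  if Sh c q then QQ D (‖q - c‖ / 2) ω else D * qh ω

noncomputable def val2 (D : ℝ) (S : Finset ℂ) (c q : ℂ) : ℝ := v2 D c q (al S c q)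

/-- assigned value -/
noncomputable def asg2 (D : ℝ) (S : Finset ℂ) (T : ℂ → ℂ → ℂ → Prop) (c q : ℂ) : ℝ :=
  if Lf T c q then val2 D S c q else gv D c q

lemma Hl_al {S : Finset ℂ} (hG : Gen S) {c q : ℂ} (hc : c ∈ S) (hq : q ∈ S) (h : Hl S c q) :
    al S c q = π / 2 := by
  by_contra hne
  have hlt : al S c q < π / 2 := lt_of_le_of_ne (al_le_half S c q) hne
  obtain ⟨r, hr, _⟩ := Tr_of_edge hG hc hq h.1.1 h.1.2 hlt
  exact h.2 ⟨r, hr⟩

/-- sums over the Delaunay edges: triangles and hull edges -/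
lemma sE_Eg {S : Finset ℂ} (f : ℂ → ℂ → ℝ) :
    3 * sE S (Eg S) f = sT S (Tr S) (fun c q r => f c q + f q r + f r c) + 3 * sE S (Hl S) f := by
  have h1 := sE_split (P := S) (X := Eg S) (Y := Lf (Tr S)) f
  have h3 : sE S (fun c q => Eg S c q ∧ Lf (Tr S) c q) f = sE S (Lf (Tr S)) f := by
    apply sE_congr
    · intro c _ q _
      constructor
      · exact fun h => h.2
      · rintro ⟨r, hr⟩
        exact ⟨⟨(Tr_ne hr).1, Tr_Ed hr⟩, r, hr⟩
    · intro c _ q _ _; rfl
  have h4 : sE S (fun c q => Eg S c q ∧ ¬ Lf (Tr S) c q) f = sE S (Hl S) f := rfl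
  have h5 := sT_avg (P := S) (T := Tr S) (Fam_Tr S).cyc (fun c q _ => f c q)
  rw [sT_edge (Fam_Tr S) f] at h5
  rw [h5, h1, h3, h4]; ring

lemma sE_Eg_mono {S : Finset ℂ} (hG : Gen S) {f g : ℂ → ℂ → ℝ}
    (h1 : ∀ c q r, Tr S c q r → f c q + f q r + f r c ≤ g c q + g q r + g r c)
    (h2 : ∀ c ∈ S, ∀ q ∈ S, c ≠ q → al S c q = π / 2 → f c q ≤ g c q) :
    sE S (Eg S) f ≤ sE S (Eg S) g := by
  have e1 := sE_Eg (S := S) f
  have e2 := sE_Eg (S := S) g
  have e3 : sT S (Tr S) (fun c q r => f c q + f q r + f r c)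
      ≤ sT S (Tr S) (fun c q r => g c q + g q r + g r c) := sT_mono h1
  have e4 : sE S (Hl S) f ≤ sE S (Hl S) g := by
    apply sE_mono
    intro c hc q hq h
    exact h2 c hc q hq h.1.1 (Hl_al hG hc hq h)
  linarith

/-- The basic inequality: values are bounded by areas. -/
theorem total2 {D : ℝ} (hD : 0 ≤ D) {S : Finset ℂ} (hG : Gen S) :
    S.card * (2 * kap D) + sE S (Eg S) (val2 D S)
    ≤ ∑ c ∈ S, (D * (volume (Vc S c ∩ Metric.closedBall c (2 / √3))).toReal
      - (volume (Vc S c ∩ Metric.closedBall c 1)).toReal) := by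
  -- symmetrization
  have h2 : sE S (Eg S) (val2 D S) ≤ ∑ c ∈ S, ∑ q ∈ S.erase c, (if Ed S c q then
        (QQ D (‖q - c‖ / 2) (al S c q) + QQ D (‖q - c‖ / 2) (al S q c)) / 2 else 0) := by
    have e1 : 2 * sE S (Eg S) (val2 D S) = sE S (Eg S) (fun c q => val2 D S c q + val2 D S q c) := by
      rw [two_mul]
      nth_rewrite 2 [sE_comm]
      unfold sE
      simp only [← Finset.sum_add_distrib]
      refine Finset.sum_congr rfl fun c _ => Finset.sum_congr rfl fun q _ => ?_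
      by_cases h : Eg S c q
      · rw [if_pos h, if_pos (Eg_symm h), if_pos h]
      · rw [if_neg h, if_neg (fun h' => h (Eg_symm h')), if_neg h, add_zero]
    have e2 : sE S (Eg S) (fun c q => val2 D S c q + val2 D S q c)
        ≤ sE S (Eg S) (fun c q => QQ D (‖q - c‖ / 2) (al S c q)
          + QQ D (‖q - c‖ / 2) (al S q c)) := by
      apply sE_mono
      intro c hc q hq h
      unfold val2 v2
      by_cases hs : Sh c q
      · rw [if_pos hs, if_pos (Sh_symm hs), norm_sub_rev c q]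
      · rw [if_neg hs, if_neg (fun h => hs (Sh_symm h))]
        have h1 : 2 ≤ ‖q - c‖ := by unfold Sh at hs; exact not_lt.mp hs
        have h2 := h.2
        unfold Ed at h2
        have := QQ_long (a := ‖q - c‖ / 2) hD (by linarith) h2.le
        linarith
    have e3 : sE S (Eg S) (fun c q => QQ D (‖q - c‖ / 2) (al S c q)
          + QQ D (‖q - c‖ / 2) (al S q c)) = 2 * ∑ c ∈ S, ∑ q ∈ S.erase c, (if Ed S c q then
        (QQ D (‖q - c‖ / 2) (al S c q) + QQ D (‖q - c‖ / 2) (al S q c)) / 2 else 0) := by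
      unfold sE
      rw [Finset.mul_sum]
      apply Finset.sum_congr rfl
      intro c hc
      rw [Finset.mul_sum, ← Finset.sum_erase (s := S) (a := c)]
      · apply Finset.sum_congr rfl
        intro q hq
        have hcq : c ≠ q := Ne.symm (Finset.mem_erase.mp hq).1
        by_cases h : Ed S c q
        · rw [if_pos h, if_pos (show Eg S c q from ⟨hcq, h⟩)]; ring
        · rw [if_neg h, if_neg (fun h' : Eg S c q => h h'.2)]; ring
      · rw [if_neg]
        intro h
        exact h.1 rfl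
    linarith
  have h3 : ∀ c ∈ S, (cc * D - 1) * π + ∑ q ∈ S.erase c, (if Ed S c q then
        (QQ D (‖q - c‖ / 2) (al S c q) + QQ D (‖q - c‖ / 2) (al S q c)) / 2 else 0)
      ≤ D * (volume (Vc S c ∩ Metric.closedBall c (2 / √3))).toReal
      - (volume (Vc S c ∩ Metric.closedBall c 1)).toReal := by
    intro c hc
    have h4 := center_identity hG hc D
    have h5 : 0 ≤ (D * (4 / 3) - 1 - (cc * D - 1)) *
        (volume (Metric.closedBall c 1 ∩ Rst S c)).toReal := by
      apply mul_nonneg _ ENNReal.toReal_nonneg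
      have := bb_pos
      unfold bb at this
      nlinarith
    linarith
  have h6 := Finset.sum_le_sum h3
  rw [Finset.sum_add_distrib, Finset.sum_const, nsmul_eq_mul] at h6
  have h7 : (cc * D - 1) * π = 2 * kap D := by
    rw [← kap_eq]; ring
  rw [h7] at h6
  linarith

/-! ### The triangle inequalities for non-family triangles -/

/-- the data of one short side -/
lemma case1_data {S : Finset ℂ} {c q r : ℂ} (h : Tr S c q r) (h1 : Sh c q)
    (h2 : ¬ Sh q r) (h3 : ¬ Sh r c) :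
    0 < ‖q - c‖ / 2 ∧ ‖q - c‖ / 2 ≤ 1 ∧ 0 < an c q r ∧ an c q r ≤ π / 3 ∧
      an c q r + an q r c + an r c q = π ∧ 0 < an q r c ∧ 0 < an r c q ∧
      (∀ D, QQ D (‖q - c‖ / 2) (π / 2 - an c q r)
        = gg D (‖q - c‖ / 2) + D * Uf (‖q - c‖ / 2) (π / 2 - an c q r)) := by
  have hX : 0 < XX c q r := h.2.2.2.1
  have hX2 : 0 < XX q r c := by rw [XX_cyc]; exact hX
  have hX3 : 0 < XX r c q := by rw [XX_cyc]; exact hX2
  have s1 := RR_sin hX
  have s2 := RR_sin hX2
  have s3 := RR_sin hX3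
  rw [RR_cyc] at s2
  rw [RR_cyc, RR_cyc] at s3
  have hR0 := RR_pos hX
  have hs := an_sum hX
  have p1 := an_pos c q r
  have p2 := an_pos q r c
  have p3 := an_pos r c q
  unfold Sh at h1 h2 h3
  have l1 : sin (an c q r) ≤ sin (an q r c) := by
    apply le_of_mul_le_mul_left _ hR0; rw [s1, s2]; linarith
  have l2 : sin (an c q r) ≤ sin (an r c q) := by
    apply le_of_mul_le_mul_left _ hR0; rw [s1, s3]; linarith
  have b1 := angle_le_of_sin_le p1 p2 (by linarith) l1
  have b2 := angle_le_of_sin_le p1 p3 (by linarith) l2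
  have hR1 : 1 ≤ RR c q r := by
    have : RR c q r * sin (an q r c) ≤ RR c q r := by
      have := sin_le_one (an q r c); nlinarith
    rw [s2] at this; linarith
  have hn : 0 < ‖q - c‖ := norm_pos_iff.mpr (sub_ne_zero.mpr (Ne.symm (ne_of_XX_pos hX).1))
  have hθ : an c q r ≤ π / 3 := by linarith
  have hsin : 0 < sin (an c q r) := sin_pos_of_pos_of_lt_pi p1 (an_lt _ _ _)
  refine ⟨by positivity, by linarith, p1, hθ, hs, p2, p3, ?_⟩
  intro D
  exact QQ_U (D := D) (a := ‖q - c‖ / 2) (ω := π / 2 - an c q r) (by positivity) (by linarith)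
    (by linarith [pi_pos]) (by linarith) (by
      rw [cos_pi_div_two_sub, ← s1]; nlinarith)

/-- one short side -/
lemma tri2_case1 {D : ℝ} (hD : 0 ≤ D) {S : Finset ℂ} {c q r : ℂ} (h : Tr S c q r) (h1 : Sh c q)
    (h2 : ¬ Sh q r) (h3 : ¬ Sh r c) :
    gv D c q + gv D q r + gv D r c ≤ val2 D S c q + val2 D S q r + val2 D S r c := by
  obtain ⟨d1, d2, d3, d4, d5, d6, d7, d8⟩ := case1_data h h1 h2 h3
  unfold val2 v2 gv
  rw [if_pos h1, if_neg h2, if_neg h3, if_pos h1, if_neg h2, if_neg h3]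
  obtain ⟨a1, a2, a3⟩ := Tr_al3 h
  have t := T1 (a := ‖q - c‖ / 2) (ω₂ := π / 2 - an q r c) (ω₃ := π / 2 - an r c q)
    d1 d2 d3 d4 (by linarith) (by linarith) (by linarith)
  rw [a1, a2, a3, d8]
  have := mul_nonneg hD t
  linarith

/-- two short sides -/
lemma tri2_case2 {D : ℝ} (hD : 0 ≤ D) {S : Finset ℂ} {c q r : ℂ} (h : Tr S c q r) (h1 : Sh c q)
    (h2 : Sh q r) (h3 : ¬ Sh r c) :
    gv D c q + gv D q r + gv D r c ≤ val2 D S c q + val2 D S q r + val2 D S r c := by
  have hX : 0 < XX c q r := h.2.2.2.1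
  have hX2 : 0 < XX q r c := by rw [XX_cyc]; exact hX
  have hX3 : 0 < XX r c q := by rw [XX_cyc]; exact hX2
  unfold val2 v2 gv
  rw [if_pos h1, if_pos h2, if_neg h3, if_pos h1, if_pos h2, if_neg h3]
  obtain ⟨a1, a2, a3⟩ := Tr_al3 h
  have s1 := RR_sin hX
  have s2 := RR_sin hX2
  have s3 := RR_sin hX3
  rw [RR_cyc] at s2
  rw [RR_cyc, RR_cyc] at s3
  have hR0 := RR_pos hX
  have hs := an_sum hX
  have p1 := an_pos c q r
  have p2 := an_pos q r c
  have p3 := an_pos r c q
  unfold Sh at h1 h2 h3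
  have l1 : sin (an c q r) ≤ sin (an r c q) := by
    apply le_of_mul_le_mul_left _ hR0; rw [s1, s3]; linarith
  have l2 : sin (an q r c) ≤ sin (an r c q) := by
    apply le_of_mul_le_mul_left _ hR0; rw [s2, s3]; linarith
  have b1 := angle_le_of_sin_le p1 p3 (by linarith) l1
  have b2 := angle_le_of_sin_le p2 p3 (by linarith) l2
  have hR1 : 1 ≤ RR c q r := by
    have : RR c q r * sin (an r c q) ≤ RR c q r := by
      have := sin_le_one (an r c q); nlinarith
    rw [s3] at this; linarith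
  have hn1 : 0 < ‖q - c‖ := norm_pos_iff.mpr (sub_ne_zero.mpr (Ne.symm (ne_of_XX_pos hX).1))
  have hn2 : 0 < ‖r - q‖ := norm_pos_iff.mpr (sub_ne_zero.mpr (Ne.symm (ne_of_XX_pos hX).2.1))
  have hsin1 : 0 < sin (an c q r) := sin_pos_of_pos_of_lt_pi p1 (an_lt _ _ _)
  have hsin2 : 0 < sin (an q r c) := sin_pos_of_pos_of_lt_pi p2 (an_lt _ _ _)
  have t := T2 hR0 p1 p2 p3 hs (by rw [s1]; linarith) (by rw [s2]; linarith) (by rw [s3]; linarith)
  rw [s1, s2] at t
  rw [a1, a2, a3]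
  have hq1 := QQ_U (D := D) (a := ‖q - c‖ / 2) (ω := π / 2 - an c q r) (by positivity) (by linarith)
    (by linarith [pi_pos]) (by linarith) (by
      rw [cos_pi_div_two_sub, ← s1]; nlinarith)
  have hq2 := QQ_U (D := D) (a := ‖r - q‖ / 2) (ω := π / 2 - an q r c) (by positivity) (by linarith)
    (by linarith [pi_pos]) (by linarith) (by
      rw [cos_pi_div_two_sub, ← s2]; nlinarith)
  rw [hq1, hq2]
  have := mul_nonneg hD t
  linarith

lemma tri2_case0 {D : ℝ} (hD : 0 ≤ D) {S : Finset ℂ} {c q r : ℂ} (h : Tr S c q r) (h1 : ¬ Sh c q)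
    (h2 : ¬ Sh q r) (h3 : ¬ Sh r c) :
    gv D c q + gv D q r + gv D r c ≤ val2 D S c q + val2 D S q r + val2 D S r c := by
  unfold val2 v2 gv
  rw [if_neg h1, if_neg h2, if_neg h3, if_neg h1, if_neg h2, if_neg h3]
  obtain ⟨a1, a2, a3⟩ := Tr_al3 h
  rw [a1, a2, a3]
  have t := T0 (an_pos c q r) (an_pos q r c) (an_pos r c q) (an_sum h.2.2.2.1)
  have := mul_nonneg hD t
  linarith

/-- a triangle with at least one long side -/
theorem tri2 {D : ℝ} (hD : 0 ≤ D) {S : Finset ℂ} {c q r : ℂ} (h : Tr S c q r)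
    (hl : ¬ (Sh c q ∧ Sh q r ∧ Sh r c)) :
    gv D c q + gv D q r + gv D r c ≤ val2 D S c q + val2 D S q r + val2 D S r c := by
  have h' := Tr_cyc h
  have h'' := Tr_cyc h'
  by_cases h1 : Sh c q <;> by_cases h2 : Sh q r <;> by_cases h3 : Sh r c
  · exact absurd ⟨h1, h2, h3⟩ hl
  · exact tri2_case2 hD h h1 h2 h3
  · have := tri2_case2 hD h'' h3 h1 h2
    linarith
  · exact tri2_case1 hD h h1 h2 h3
  · have := tri2_case2 hD h' h2 h3 h1
    linarith
  · have := tri2_case1 hD h' h2 h3 h1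
    linarith
  · have := tri2_case1 hD h'' h3 h1 h2
    linarith
  · exact tri2_case0 hD h h1 h2 h3

/-- infinite ends -/
theorem inf2 {D : ℝ} (hD : 0 ≤ D) {S : Finset ℂ} {c q : ℂ} (hcq : c ≠ q)
    (h : al S c q = π / 2) : gv D c q ≤ val2 D S c q := by
  have hn1 : 0 < ‖q - c‖ := norm_pos_iff.mpr (sub_ne_zero.mpr (Ne.symm hcq))
  unfold val2 v2 gv
  rw [h]
  by_cases hs : Sh c q
  · rw [if_pos hs, if_pos hs]
    unfold Sh at hs
    rw [QQ_U (by positivity) (by linarith) (by positivity) le_rfl (by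
      rw [cos_pi_div_two]; positivity)]
    have := mul_nonneg hD (T1inf (a := ‖q - c‖ / 2) (by positivity) (by linarith))
    linarith
  · rw [if_neg hs, if_neg hs]
    exact mul_nonneg hD T0inf

/-- comparison of the assigned values -/
theorem asg2_le {D : ℝ} (hD : 0 ≤ D) {S : Finset ℂ} (hG : Gen S) {T : ℂ → ℂ → ℂ → Prop}
    (hT : Fam S T) (hs : ∀ c q r, Tr S c q r → Sh c q → Sh q r → Sh r c → T c q r) :
    sE S (Eg S) (asg2 D S T) ≤ sE S (Eg S) (val2 D S) := by
  apply sE_Eg_mono hG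
  · intro c q r h
    by_cases hX : Lf T c q
    · have hT1 : T c q r := by
        obtain ⟨r', hr'⟩ := hX
        rwa [Tr_unique (hT.tr _ _ _ hr') h] at hr'
      have x1 : Lf T c q := ⟨r, hT1⟩
      have x2 : Lf T q r := ⟨c, hT.cyc _ _ _ hT1⟩
      have x3 : Lf T r c := ⟨q, hT.cyc _ _ _ (hT.cyc _ _ _ hT1)⟩
      unfold asg2
      rw [if_pos x1, if_pos x2, if_pos x3]
    · have hnT : ¬ T c q r := fun h' => hX ⟨r, h'⟩
      have x2 : ¬ Lf T q r := by
        rintro ⟨s, hs'⟩
        apply hnT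
        have := Tr_unique (hT.tr _ _ _ hs') (Tr_cyc h)
        rw [this] at hs'
        exact hT.cyc _ _ _ (hT.cyc _ _ _ hs')
      have x3 : ¬ Lf T r c := by
        rintro ⟨s, hs'⟩
        apply hnT
        have := Tr_unique (hT.tr _ _ _ hs') (Tr_cyc (Tr_cyc h))
        rw [this] at hs'
        exact hT.cyc _ _ _ hs'
      unfold asg2
      rw [if_neg hX, if_neg x2, if_neg x3]
      exact tri2 hD h (fun h' => hnT (hs c q r h h'.1 h'.2.1 h'.2.2))
  · intro c hc q hq hcq hal
    have hX : ¬ Lf T c q := by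
      rintro ⟨r, hr⟩
      have h1 := Tr_al (hT.tr _ _ _ hr)
      have h2 := att_lt c q r
      rw [hal] at h1
      linarith
    unfold asg2
    rw [if_neg hX]
    exact inf2 hD hcq hal

end

end FT58
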