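import Pool.Agent.Lib.MP_49fa77_co.Planar

/-!
# Angles seen from a foreign point
-/

namespace FT58

open Real MeasureTheory Set

/-- oriented angle at `f` from `p` to `q` -/
noncomputable def ang (f p q : ℂ) : ℝ := Complex.arg ((q - f) / (p - f))

lemma ang_im {f p q : ℂ} (hp : p ≠ f) :
    ((q - f) / (p - f)).im = XX p q f / Complex.normSq (p - f) := by
  have h : Complex.normSq (p - f) ≠ 0 := by
    rw [Ne, Complex.normSq_eq_zero, sub_eq_zero]; exact hp
  rw [Complex.div_im]
  simp only [XX, cr, Complex.sub_re, Complex.sub_im]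
  field_simp
  ring

lemma ang_pos {f p q : ℂ} (h : 0 < XX p q f) : 0 < ang f p q ∧ ang f p q < π := by
  obtain ⟨h1, h2, h3⟩ := ne_of_XX_pos h
  have hn : 0 < Complex.normSq (p - f) := by
    rw [Complex.normSq_pos, sub_ne_zero]; exact Ne.symm h3
  have him : 0 < ((q - f) / (p - f)).im := by
    rw [ang_im (Ne.symm h3)]; positivity
  unfold ang
  constructor
  · rcases lt_or_eq_of_le (Complex.arg_nonneg_iff.mpr him.le) with h | h
    · exact h
    · exfalso
      rw [eq_comm, Complex.arg_eq_zero_iff] at h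
      linarith [h.2]
  · rw [Complex.arg_lt_pi_iff]
    right; exact him.ne'

lemma ang_neg {f p q : ℂ} (h : XX p q f < 0) : -π < ang f p q ∧ ang f p q < 0 := by
  have h' : 0 < XX q p f := by rw [XX_swap]; linarith
  obtain ⟨h1, h2, h3⟩ := ne_of_XX_pos h'
  have hn : 0 < Complex.normSq (p - f) := by
    rw [Complex.normSq_pos, sub_ne_zero]; exact h2
  have him : ((q - f) / (p - f)).im < 0 := by
    rw [ang_im h2]
    exact div_neg_of_neg_of_pos h hn
  unfold ang
  exact ⟨Complex.neg_pi_lt_arg _, Complex.arg_neg_iff.mpr him⟩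

lemma ang_coe {f p q : ℂ} (hp : p ≠ f) (hq : q ≠ f) :
    ((ang f p q : ℝ) : Real.Angle) = (Complex.arg (q - f) : Real.Angle) - Complex.arg (p - f) := by
  unfold ang
  exact Complex.arg_div_coe_angle (sub_ne_zero.mpr hq) (sub_ne_zero.mpr hp)

lemma ang_anti {f p q : ℂ} (h : XX p q f ≠ 0) : ang f q p = -ang f p q := by
  unfold ang
  rw [← inv_div, Complex.arg_inv, if_neg]
  intro h2
  have hne : ((q - f) / (p - f)).im ≠ 0 := by
    rcases lt_or_gt_of_ne h with h3 | h3
    · have h' : 0 < XX q p f := by rw [XX_swap]; linarith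
      obtain ⟨k1, k2, k3⟩ := ne_of_XX_pos h'
      rw [ang_im k2]
      have hn : 0 < Complex.normSq (p - f) := by
        rw [Complex.normSq_pos, sub_ne_zero]; exact k2
      exact (div_neg_of_neg_of_pos h3 hn).ne
    · obtain ⟨k1, k2, k3⟩ := ne_of_XX_pos h3
      rw [ang_im (Ne.symm k3)]
      have hn : 0 < Complex.normSq (p - f) := by
        rw [Complex.normSq_pos, sub_ne_zero]; exact Ne.symm k3
      exact (div_pos h3 hn).ne'
  rw [Complex.arg_eq_pi_iff] at h2
  exact hne h2.2

/-- The angles subtended by the sides of a positively oriented triangle: the sum is nonnegative,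
and positive for a point inside. -/
lemma ang_sum {f c q r : ℂ} (hX : 0 < XX c q r) (h1 : XX c q f ≠ 0) (h2 : XX q r f ≠ 0)
    (h3 : XX r c f ≠ 0) : 0 ≤ ang f c q + ang f q r + ang f r c ∧
      (0 < XX c q f → 0 < XX q r f → 0 < XX r c f → 0 < ang f c q + ang f q r + ang f r c) := by
  have hadd := XX_add c q r f
  have hc : c ≠ f := by
    rintro rfl; apply h1; simp [XX, cr]
  have hq : q ≠ f := by
    rintro rfl; apply h1; rw [XX_right]
  have hr : r ≠ f := by
    rintro rfl; apply h2; rw [XX_right]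
  have hcoe : ((ang f c q + ang f q r + ang f r c : ℝ) : Real.Angle) = 0 := by
    rw [Real.Angle.coe_add, Real.Angle.coe_add, ang_coe hc hq, ang_coe hq hr, ang_coe hr hc]
    abel
  rw [Real.Angle.coe_eq_zero_iff] at hcoe
  obtain ⟨n, hn⟩ := hcoe
  rw [zsmul_eq_mul] at hn
  have hpi := pi_pos
  have bnd : ∀ {u v : ℂ}, XX u v f ≠ 0 → -π < ang f u v := by
    intro u v h
    rcases lt_or_gt_of_ne h with h | h
    · exact (ang_neg h).1
    · linarith [(ang_pos h).1]
  have b1 := bnd h1
  have b2 := bnd h2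
  have b3 := bnd h3
  have hpos : 0 < XX c q f ∨ 0 < XX q r f ∨ 0 < XX r c f := by
    by_contra hcon
    push Not at hcon
    linarith [hcon.1, hcon.2.1, hcon.2.2]
  have hlow : -(2 * π) < ang f c q + ang f q r + ang f r c := by
    rcases hpos with h | h | h
    · have := (ang_pos h).1; linarith
    · have := (ang_pos h).1; linarith
    · have := (ang_pos h).1; linarith
  refine ⟨?_, ?_⟩
  · have hn0 : (-1 : ℝ) < n := by
      rw [← hn] at hlow
      nlinarith
    have hn1 : 0 ≤ n := by
      have : (-1 : ℤ) < n := by exact_mod_cast hn0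
      omega
    rw [← hn]
    have : (0 : ℝ) ≤ n := by exact_mod_cast hn1
    positivity
  · intro k1 k2 k3
    have := (ang_pos k1).1
    have := (ang_pos k2).1
    have := (ang_pos k3).1
    linarith

/-- a short pair subtends an angle less than `π/3` at a point at distance at least `2`. -/
lemma ang_short {f p q : ℂ} (hp : 2 ≤ ‖p - f‖) (hq : 2 ≤ ‖q - f‖) (hs : Sh p q) :
    |ang f p q| < π / 3 := by
  have hpf : p - f ≠ 0 := by
    intro h; rw [h, norm_zero] at hp; linarith
  have hqf : q - f ≠ 0 := by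
    intro h; rw [h, norm_zero] at hq; linarith
  have hz : (q - f) / (p - f) ≠ 0 := div_ne_zero hqf hpf
  have hcos := Complex.cos_arg hz
  have hre : ((q - f) / (p - f)).re = dt (p - f) (q - f) / ‖p - f‖ ^ 2 := by
    rw [Complex.div_re, ← Complex.normSq_eq_norm_sq]
    have h : Complex.normSq (p - f) ≠ 0 := by
      rw [Ne, Complex.normSq_eq_zero]; exact hpf
    simp only [dt]
    field_simp
  rw [hre, norm_div] at hcos
  have hx : 0 < ‖p - f‖ := by linarith
  have hy : 0 < ‖q - f‖ := by linarith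
  have e1 : dt (p - f) (q - f) / ‖p - f‖ ^ 2 / (‖q - f‖ / ‖p - f‖)
      = dt (p - f) (q - f) / (‖p - f‖ * ‖q - f‖) := by
    field_simp
  rw [e1] at hcos
  have hdt : 2 * dt (p - f) (q - f) = ‖p - f‖ ^ 2 + ‖q - f‖ ^ 2 - ‖q - p‖ ^ 2 := by
    rw [norm_sq_eq, norm_sq_eq, norm_sq_eq]
    simp only [dt, Complex.sub_re, Complex.sub_im]; ring
  have hs' : ‖q - p‖ ^ 2 < 4 := by
    unfold Sh at hs
    nlinarith [norm_nonneg (q - p)]
  have hgt : 1 / 2 < cos (Complex.arg ((q - f) / (p - f))) := by
    rw [hcos, lt_div_iff₀ (by positivity)]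
    nlinarith [mul_nonneg (sub_nonneg.mpr hp) (sub_nonneg.mpr hq), sq_nonneg (‖p - f‖ - ‖q - f‖)]
  unfold ang
  set x := Complex.arg ((q - f) / (p - f)) with hxdef
  by_contra hcon
  push Not at hcon
  have h1 : |x| ≤ π := Complex.abs_arg_le_pi _
  have h2 : cos |x| ≤ cos (π / 3) :=
    cos_le_cos_of_nonneg_of_le_pi (by positivity) h1 hcon
  rw [cos_abs, cos_pi_div_three] at h2
  linarith

/-- **Sector lemma**: at most five points at distance at least `2` from `f`. -/
lemma sector {P : Finset ℂ} {f : ℂ} (hc : P.card ≤ 5) (hd : ∀ p ∈ P, 2 ≤ ‖p - f‖) :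
    ∃ θ : ℂ → ℝ, ∀ p ∈ P, ∀ q ∈ P, Sh p q → ang f p q = θ q - θ p := by
  classical
  have hpi := pi_pos
  set idx : ℂ → ℕ := fun p => ⌈(Complex.arg (p - f) + π) / (π / 3)⌉₊ with hidx
  have hpos : ∀ p, 0 < (Complex.arg (p - f) + π) / (π / 3) := by
    intro p
    have := Complex.neg_pi_lt_arg (p - f)
    apply div_pos <;> linarith
  have hle : ∀ p, (Complex.arg (p - f) + π) / (π / 3) ≤ 6 := by
    intro p
    have := Complex.arg_le_pi (p - f)
    rw [div_le_iff₀ (by positivity)]; linarith
  have hI : ∀ p, idx p ∈ Finset.Icc 1 6 := by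
    intro p
    rw [Finset.mem_Icc]
    constructor
    · have : 0 < idx p := Nat.ceil_pos.mpr (hpos p)
      omega
    · apply Nat.ceil_le.mpr
      exact_mod_cast hle p
  obtain ⟨k, hk, hkP⟩ : ∃ k ∈ Finset.Icc 1 6, k ∉ P.image idx := by
    by_contra hcon
    push Not at hcon
    have h1 : (Finset.Icc 1 6 : Finset ℕ) ⊆ P.image idx := fun k hk => hcon k hk
    have h2 := Finset.card_le_card h1
    have h3 : (P.image idx).card ≤ P.card := Finset.card_image_le
    rw [Nat.card_Icc] at h2
    omega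
  rw [Finset.mem_Icc] at hk
  set θ : ℂ → ℝ := fun p => Complex.arg (p - f) - k * (π / 3) + (if idx p < k then 2 * π else 0)
    with hθ
  have hb : ∀ p ∈ P, -π < θ p ∧ θ p ≤ 2 * π / 3 := by
    intro p hp
    have hne : idx p ≠ k := fun h => hkP (Finset.mem_image.mpr ⟨p, hp, h⟩)
    have h1 : (idx p : ℝ) - 1 < (Complex.arg (p - f) + π) / (π / 3) := by
      have := Nat.ceil_lt_add_one (hpos p).le
      have h' : (idx p : ℝ) < (Complex.arg (p - f) + π) / (π / 3) + 1 := this
      linarith
    have h2 : (Complex.arg (p - f) + π) / (π / 3) ≤ idx p := Nat.le_ceil _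
    rw [lt_div_iff₀ (by positivity)] at h1
    rw [div_le_iff₀ (by positivity)] at h2
    have hi := Finset.mem_Icc.mp (hI p)
    simp only [hθ]
    split_ifs with h
    · have h3 : (idx p : ℝ) + 1 ≤ k := by exact_mod_cast h
      have h4 : (1 : ℝ) ≤ idx p := by exact_mod_cast hi.1
      have h5 : (k : ℝ) ≤ 6 := by exact_mod_cast hk.2
      constructor <;> nlinarith
    · have h3 : (k : ℝ) + 1 ≤ idx p := by
        have : k < idx p := lt_of_le_of_ne (not_lt.mp h) (Ne.symm hne)
        exact_mod_cast this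
      have h4 : (idx p : ℝ) ≤ 6 := by exact_mod_cast hi.2
      have h5 : (1 : ℝ) ≤ k := by exact_mod_cast hk.1
      constructor <;> nlinarith
  refine ⟨θ, ?_⟩
  intro p hp q hq hs
  have hpf : p ≠ f := by
    rintro rfl; have := hd p hp; simp at this; linarith
  have hqf : q ≠ f := by
    rintro rfl; have := hd q hq; simp at this; linarith
  have hcoe : ((ang f p q - (θ q - θ p) : ℝ) : Real.Angle) = 0 := by
    have e : ∀ p, ((θ p : ℝ) : Real.Angle) = (Complex.arg (p - f) : Real.Angle)
        - ((k * (π / 3) : ℝ) : Real.Angle) := by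
      intro p
      simp only [hθ]
      split_ifs with h
      · rw [Real.Angle.coe_add, Real.Angle.coe_sub, Real.Angle.coe_two_pi, add_zero]
      · rw [add_zero, Real.Angle.coe_sub]
    have e2 : ((ang f p q - (θ q - θ p) : ℝ) : Real.Angle)
        = (ang f p q : Real.Angle) - ((θ q : Real.Angle) - (θ p : Real.Angle)) := by
      rw [Real.Angle.coe_sub, Real.Angle.coe_sub]
    rw [e2, e, e, ang_coe hpf hqf]
    abel
  rw [Real.Angle.coe_eq_zero_iff] at hcoe
  obtain ⟨n, hn⟩ := hcoe
  rw [zsmul_eq_mul] at hn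
  have h1 := abs_lt.mp (ang_short (hd p hp) (hd q hq) hs)
  have h2 := hb p hp
  have h3 := hb q hq
  have h4 : (n : ℝ) < 1 := by nlinarith
  have h5 : (-1 : ℝ) < n := by nlinarith
  have h6 : n = 0 := by
    have : n < 1 := by exact_mod_cast h4
    have : -1 < n := by exact_mod_cast h5
    omega
  rw [h6] at hn
  simp at hn
  linarith

end FT58
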